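import Pool.Agent.Lib.MP_651af7_nt.As.Red

/-! Counting the conditions. -/

namespace Pool.Agent.Lib.MP_651af7_nt.As

open MvPolynomial Finset Height NumberField Matrix
open Av hiding Bad
open Es (Mo IX CX mo cx GA GC Bad Pen nv vol Tame IntV Dual)
open Rt (Pl av mu)

theorem cnt_card (g N : ℕ) : Fintype.card (Mo (Fin (g + 1)) N) = (g + N).choose N := by
  have h := card_finsuppAntidiag_nat_eq_choose (s := (univ : Finset (Fin (g + 1)))) N
  rw [finsuppAntidiag, card_map, card_attach, card_univ, Fintype.card_fin,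
    show g + 1 + N - 1 = g + N by omega] at h
  rw [Fintype.card_coe, h]

/- The cardinality is `(N + g).choose g` (`Finset.card_piAntidiag`-like: see `auxpoly_card` in
`Common/Subspace/AuxPoly`, `Sym.card_sym_eq_choose`, `Finset.card_finsuppAntidiag_nat_eq_choose`).
Induction on `N'`: the ratio of consecutive terms is `(N' + 1 + g) / (N' + 1) ≤ 1 + g / N ≤ exp (g / N)`. -/
theorem card_Mo_ratio (g : ℕ) {N N' : ℕ} (h1 : 1 ≤ N) (h : N ≤ N') :
    (Fintype.card (Mo (Fin (g + 1)) N') : ℝ) ≤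
      Real.exp (g * ((N' - N) / N)) * Fintype.card (Mo (Fin (g + 1)) N) := by
  have N0 : (0 : ℝ) < N := by exact_mod_cast h1
  induction N', h using Nat.le_induction with
  | base => simp
  | succ M hM ih =>
    have hM' : (N : ℝ) ≤ M := by exact_mod_cast hM
    have e : ((g + M + 1 : ℕ) : ℝ) * ((g + M).choose M : ℕ) =
        ((g + M + 1).choose (M + 1) : ℕ) * ((M + 1 : ℕ) : ℝ) := by
      exact_mod_cast Nat.add_one_mul_choose_eq (g + M) M
    rw [cnt_card] at ih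
    rw [cnt_card g (M + 1), ← add_assoc]
    have a1 : ((g + M + 1 : ℕ) : ℝ) ≤ Real.exp (g / N) * ((M + 1 : ℕ) : ℝ) := by
      have a2 := Real.add_one_le_exp (g / N : ℝ)
      have a3 : (g : ℝ) ≤ g / N * (M + 1) := by
        rw [div_mul_eq_mul_div, le_div_iff₀ N0]
        exact mul_le_mul_of_nonneg_left (by linarith) (Nat.cast_nonneg _)
      have a4 := mul_le_mul_of_nonneg_right a2 (by positivity : (0 : ℝ) ≤ M + 1)
      push_cast
      linarith
    have a5 : (((g + M + 1).choose (M + 1) : ℕ) : ℝ) ≤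
        Real.exp (g / N) * ((g + M).choose M : ℕ) := by
      refine le_of_mul_le_mul_right ?_ (by positivity : (0 : ℝ) < ((M + 1 : ℕ) : ℝ))
      rw [← e]
      have a6 := mul_le_mul_of_nonneg_right a1 (Nat.cast_nonneg (α := ℝ) ((g + M).choose M))
      linarith
    refine a5.trans ((mul_le_mul_of_nonneg_left ih (Real.exp_pos _).le).trans (le_of_eq ?_))
    rw [← mul_assoc, ← Real.exp_add]
    congr 2
    push_cast
    ring

variable {k ι : Type} [Field k] [NumberField k] {B : AV k ι} {g : ℕ} (F : FB B g)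

theorem cnt_one {n N : ℕ} {x : ℝ} (h1 : 1 ≤ n) (h2 : 2 * F.em ≤ n) (h : n ≤ N)
    (hx : 2 * ((N : ℝ) - n) ≤ x * n) :
    (Fintype.card (F.T N) : ℝ) ≤ Real.exp (g * x) * Fintype.card (F.T n) := by
  have h3 := card_Mo_ratio g (N := n - F.em) (N' := N - F.em) (by omega) (by omega)
  have h4 : (((N - F.em : ℕ) : ℝ) - (n - F.em : ℕ)) / (n - F.em : ℕ) ≤ x := by
    have a1 : (2 * F.em : ℝ) ≤ n := by exact_mod_cast h2
    have a2 : (1 : ℝ) ≤ n := by exact_mod_cast h1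
    have a3 : (n : ℝ) ≤ N := by exact_mod_cast h
    have a4 : 0 ≤ x := by
      by_contra a5
      have := mul_neg_of_neg_of_pos (not_le.1 a5) (by linarith : (0 : ℝ) < n)
      linarith
    rw [Nat.cast_sub (by omega), Nat.cast_sub (by omega), div_le_iff₀ (by linarith)]
    have a5 := mul_le_mul_of_nonneg_left a1 a4
    linarith
  have h5 := Real.exp_le_exp.2 (mul_le_mul_of_nonneg_left h4 (Nat.cast_nonneg (α := ℝ) g))
  rw [F.card_T, F.card_T, Nat.cast_mul, Nat.cast_mul, mul_left_comm]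
  exact mul_le_mul_of_nonneg_left
    (h3.trans (mul_le_mul_of_nonneg_right h5 (Nat.cast_nonneg _))) (Nat.cast_nonneg _)

/- `card_T`, `card_Mo_ratio` with `N = n o - em ≥ n o / 2`.  For `o ≠ h` the exponent is at most
`g (8 E + 1) η`, for the hub at most `g (8 E m + 1) η` (`4 ^ j i * e i ≤ 2 η n h`). -/
theorem count {m : ℕ} (Z : Cf m) (E : ℕ) {η : ℝ} (hη : 0 ≤ η)
    (hn : ∀ o, o ≠ Z.h → Z.n o * 4 ^ Z.j o = Z.n Z.h) (h1 : ∀ o, 1 ≤ Z.n o)
    (h2 : ∀ o, 2 * F.em ≤ Z.n o) (h3 : ∀ o, 2 * (F.dl : ℝ) ≤ η * Z.n o)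
    (he : ∀ o, (Z.e o : ℝ) ≤ 2 * η * Z.n o) :
    (∏ o, (Fintype.card (F.T (Z.NC E o + F.dl)) : ℝ)) ≤
      Real.exp (g * (18 * E + 2) * η * m) * ∏ o, (Fintype.card (F.T (Z.n o)) : ℝ) := by
  have key : ∀ o, (Fintype.card (F.T (Z.NC E o + F.dl)) : ℝ) ≤
      Real.exp (g * ((8 * E + 1) * η + if o = Z.h then 8 * E * m * η else 0)) *
        Fintype.card (F.T (Z.n o)) := fun o => by
    have E0 : (0 : ℝ) ≤ E := Nat.cast_nonneg _
    have a1 := mul_le_mul_of_nonneg_left (he o) E0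
    have a2 := h3 o
    have a3 : 0 ≤ E * (η * Z.n o) := by positivity
    refine cnt_one F (h1 o) (h2 o) ?_ ?_
    · unfold Cf.NC
      split_ifs with h
      · rw [h]
        omega
      · omega
    · unfold Cf.NC
      split_ifs with h
      · subst h
        have a4 : ∑ i ∈ univ.erase Z.h, (2 * 4 ^ Z.j i * (E * Z.e i) : ℝ) ≤
            m * (4 * E * η * Z.n Z.h) := by
          refine (sum_le_card_nsmul _ _ (4 * E * η * Z.n Z.h : ℝ) fun i hi => ?_).trans ?_
          · have a5 := mul_le_mul_of_nonneg_left (he i) (by positivity : (0 : ℝ) ≤ 2 * 4 ^ Z.j i * E)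
            rw [← hn i (mem_erase.1 hi).1]
            push_cast
            linarith
          · rw [nsmul_eq_mul]
            refine mul_le_mul_of_nonneg_right ?_ (by positivity)
            exact_mod_cast (card_le_univ _).trans (Fintype.card_fin m).le
        push_cast
        linarith
      · push_cast
        linarith
  refine (prod_le_prod (fun _ _ => Nat.cast_nonneg _) fun o _ => key o).trans ?_
  rw [prod_mul_distrib, ← Real.exp_sum, ← mul_sum, sum_add_distrib, sum_ite_eq', if_pos (mem_univ _),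
    sum_const, card_univ, Fintype.card_fin, nsmul_eq_mul]
  refine mul_le_mul_of_nonneg_right (Real.exp_le_exp.2 ?_) (prod_nonneg fun _ _ => Nat.cast_nonneg _)
  have a1 : (0 : ℝ) ≤ g * ((2 * E + 1) * η * m) := by positivity
  linarith

namespace Cf

variable {m : ℕ} (Z : Cf m) (hn : ∀ o, o ≠ Z.h → Z.n o * 4 ^ Z.j o = Z.n Z.h) {w : Fin m → ℝ}
include hn

theorem cnt_dg : Z.dg Z.h = Z.n Z.h + (univ.erase Z.h).card * (2 * Z.n Z.h) := by
  rw [dg, if_pos rfl, ← smul_eq_mul (univ.erase Z.h).card, ← sum_const]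
  refine congrArg _ (sum_congr rfl fun i hi => ?_)
  rw [← hn i (mem_erase.1 hi).1]
  ring

omit hn in
theorem cnt_card_erase : (univ.erase Z.h).card + 1 = m := by
  rw [card_erase_add_one (mem_univ _), card_univ, Fintype.card_fin]

theorem n_le (o : Fin m) : Z.n o ≤ Z.n Z.h := by
  by_cases h : o = Z.h
  · rw [h]
  · rw [← hn o h]
    exact Nat.le_mul_of_pos_right _ (by positivity)

theorem sum_dg : ∑ o, Z.dg o ≤ 5 * m * Z.n Z.h := by
  rw [← add_sum_erase _ _ (mem_univ Z.h), Z.cnt_dg hn]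
  have h1 : ∑ o ∈ univ.erase Z.h, Z.dg o ≤ (univ.erase Z.h).card * (2 * Z.n Z.h) := by
    refine (sum_le_card_nsmul _ _ (2 * Z.n Z.h) fun i hi => ?_).trans (smul_eq_mul _ _).le
    rw [dg, if_neg (mem_erase.1 hi).1]
    exact Nat.mul_le_mul_left _ (Z.n_le hn i)
  have h2 := Z.cnt_card_erase
  generalize (univ.erase Z.h).card = c at h1 h2 ⊢
  generalize ∑ o ∈ univ.erase Z.h, Z.dg o = S at h1 ⊢
  generalize Z.n Z.h = n at h1 ⊢
  rw [← h2]
  nlinarith [Nat.zero_le n, Nat.zero_le (c * n)]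

theorem n_mul_le (hw : 0 ≤ w Z.h) (h : ∀ o, o ≠ Z.h → w o ≤ 2 * (4 ^ Z.j o * w Z.h)) (o : Fin m) :
    Z.n o * w o ≤ 2 * (Z.n Z.h * w Z.h) := by
  by_cases h' : o = Z.h
  · have h1 : 0 ≤ Z.n Z.h * w Z.h := by positivity
    rw [h']
    linarith
  · have h1 := mul_le_mul_of_nonneg_left (h o h') (Nat.cast_nonneg (α := ℝ) (Z.n o))
    rw [← hn o h']
    push_cast
    linarith

theorem le_n_mul (hw : 0 ≤ w Z.h) (h : ∀ o, o ≠ Z.h → 4 ^ Z.j o * w Z.h ≤ 2 * w o) (o : Fin m) :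
    Z.n Z.h * w Z.h ≤ 2 * (Z.n o * w o) := by
  by_cases h' : o = Z.h
  · have h1 : 0 ≤ Z.n Z.h * w Z.h := by positivity
    rw [h']
    linarith
  · have h1 := mul_le_mul_of_nonneg_left (h o h') (Nat.cast_nonneg (α := ℝ) (Z.n o))
    rw [← hn o h']
    push_cast
    linarith

theorem dg_mul_le (hw : 0 ≤ w Z.h) (h : ∀ o, o ≠ Z.h → w o ≤ 2 * (4 ^ Z.j o * w Z.h))
    (o : Fin m) : Z.dg o * w o ≤ (2 * m + 4) * (Z.n Z.h * w Z.h) := by
  have h0 : 0 ≤ Z.n Z.h * w Z.h := by positivity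
  have h1 : 0 ≤ m * (Z.n Z.h * w Z.h) := by positivity
  by_cases h' : o = Z.h
  · have h2 : (((univ.erase Z.h).card : ℕ) : ℝ) + 1 = m := by exact_mod_cast Z.cnt_card_erase
    rw [h', Z.cnt_dg hn, ← h2]
    push_cast
    linarith
  · have h2 := Z.n_mul_le hn hw h o
    rw [dg, if_neg h']
    push_cast
    linarith

/- Compare `sum_dg_sub` in `Av/ELead`. -/
theorem sum_dg_sub (hw : 0 ≤ w Z.h) (h : ∀ o, o ≠ Z.h → w o ≤ 2 * (4 ^ Z.j o * w Z.h)) {θ C : ℝ}
    (hθ : 0 ≤ θ) (hC : 0 ≤ C) {p : Fin m → ℝ} (hp : ∀ o, o ≠ Z.h →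
      2 * (w o + 4 ^ Z.j o * w Z.h) ≤ p o + θ * w o + 4 ^ Z.j o * C) :
    ∑ o, Z.dg o * w o ≤ ∑ o ∈ univ.erase Z.h, Z.n o * p o + (1 + 2 * θ * m) * (Z.n Z.h * w Z.h) +
      m * Z.n Z.h * C := by
  have h0 : 0 ≤ Z.n Z.h * w Z.h := by positivity
  have h1 : ∑ o ∈ univ.erase Z.h, (Z.dg o * w o + 2 * (Z.n Z.h * w Z.h)) ≤
      ∑ o ∈ univ.erase Z.h, (Z.n o * p o + (2 * θ * (Z.n Z.h * w Z.h) + Z.n Z.h * C)) :=
    sum_le_sum fun i hi => by
      have hi' := (mem_erase.1 hi).1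
      have h2 := mul_le_mul_of_nonneg_left (Z.n_mul_le hn hw h i) hθ
      have h3 := mul_le_mul_of_nonneg_left (hp i hi') (Nat.cast_nonneg (α := ℝ) (Z.n i))
      have h4 : (Z.n Z.h : ℝ) = Z.n i * 4 ^ Z.j i := by
        rw [← hn i hi']
        push_cast
        ring
      rw [dg, if_neg hi']
      push_cast
      rw [h4] at h2 ⊢
      linarith
  have h2 : (((univ.erase Z.h).card : ℕ) : ℝ) + 1 = m := by exact_mod_cast Z.cnt_card_erase
  have h3 : 0 ≤ θ * (Z.n Z.h * w Z.h) := by positivity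
  have h4 : 0 ≤ Z.n Z.h * C := by positivity
  rw [sum_add_distrib, sum_add_distrib, sum_const, sum_const, nsmul_eq_mul, nsmul_eq_mul] at h1
  rw [← add_sum_erase _ _ (mem_univ Z.h), Z.cnt_dg hn, ← h2]
  push_cast
  linarith

end Cf

end Pool.Agent.Lib.MP_651af7_nt.As
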