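import Pool.Agent.Lib.MP_651af7_nt.As.Defs
import Pool.Agent.Lib.MP_651af7_nt.Es.Gc

/-! The auxiliary section. -/

namespace Pool.Agent.Lib.MP_651af7_nt.As

open MvPolynomial Finset Height NumberField Matrix
open Av hiding Bad
open Es (Mo IX CX mo cx GA GC Bad Pen nv vol Tame IntV Dual)
open Rt (Pl av mu)

variable {R R' : Type} [CommRing R] [CommRing R'] {m : ℕ} {T : Fin m → Type} [∀ i, Fintype (T i)]
  {κ : Type} [Fintype κ] [DecidableEq κ] {e : Fin m → ℕ}

theorem map_SV (φ : R →+* R') (c : CX T κ e → ℤ) (f : ∀ i, T i → R) (y : Fin m → κ → R) :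
    φ (SV c f y) = SV c (fun i t => φ (f i t)) fun i l => φ (y i l) := by
  simp [SV, mo]

theorem SV_scale (c : CX T κ e → ℤ) {f f' : ∀ i, T i → R} (s : Fin m → R)
    (h : ∀ i t, f' i t = s i * f i t) (y : Fin m → κ → R) :
    SV c f' y = (∏ i, s i) * SV c f y := by
  simp only [SV, h, mul_sum, mul_assoc, prod_mul_distrib]
  exact sum_congr rfl fun τ _ => by ring

/- As `GC_eq`. -/
theorem SV_eq_GA (c : CX T κ e → ℤ) (f : ∀ i, T i → R) (y : Fin m → κ → R) :
    SV c f y = ∑ α : IX κ e, GA c f α * ∏ i, mo (α i) (y i) := by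
  simp only [SV, GA, sum_mul]
  rw [sum_comm, ← Fintype.sum_prod_type']
  refine Fintype.sum_equiv (Equiv.arrowProdEquivProdArrow (Fin m) T fun i => Mo κ (e i)) _ _
    fun τ => ?_
  simp [prod_mul_distrib, mul_assoc]

/- `mo_mulVec`, `Finset.prod_univ_sum`, `Finset.sum_comm`. -/
theorem SV_mulVec (c : CX T κ e → ℤ) (f : ∀ i, T i → R) (A : Fin m → Matrix κ κ R)
    (u : Fin m → κ → R) :
    SV c f (fun i => A i *ᵥ u i) = ∑ β : IX κ e, GC c f A β * ∏ i, mo (β i) (u i) := by
  simp only [SV, GC, Es.mo_mulVec, sum_mul]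
  rw [sum_comm]
  refine sum_congr rfl fun τ _ => ?_
  simp only [mul_sum, mul_assoc]
  rw [prod_univ_sum, Fintype.piFinset_univ, mul_sum]
  refine sum_congr rfl fun β _ => ?_
  simp only [prod_mul_distrib, mul_assoc]

theorem sv_der_prod {K ι : Type} [CommRing K] [Algebra K R] (D : Derivation K R R) (I : Finset ι)
    (g s : ι → R) (h : ∀ i, D (g i) = s i * g i) :
    D (∏ i ∈ I, g i) = (∑ i ∈ I, s i) * ∏ i ∈ I, g i := by
  classical
  induction I using Finset.induction_on with
  | empty => simp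
  | insert a I ha ih =>
    rw [prod_insert ha, sum_insert ha, Derivation.leibniz, ih, h, smul_eq_mul, smul_eq_mul]
    ring

theorem der_SV {K : Type} [CommRing K] [Algebra K R] (D : Derivation K R R) (c : CX T κ e → ℤ)
    {f : ∀ i, T i → R} {y : Fin m → κ → R} (s : Fin m → R) (hf : ∀ i t, D (f i t) = s i * f i t)
    (hy : ∀ i l, D (y i l) = 0) : D (SV c f y) = (∑ i, s i) * SV c f y := by
  have h1 : ∀ i (α : Mo κ (e i)), D (mo α (y i)) = 0 := fun i α => by
    have h2 := sv_der_prod D univ (fun l => y i l ^ α.1 l) (fun _ => 0) fun l => by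
      rw [Derivation.leibniz_pow, hy, smul_zero, smul_zero, zero_mul]
    rwa [sum_const_zero, zero_mul] at h2
  rw [SV, map_sum, mul_sum]
  refine sum_congr rfl fun τ _ => ?_
  rw [Derivation.leibniz, Derivation.map_intCast, smul_zero, add_zero, smul_eq_mul,
    sv_der_prod D univ (fun i => f i (τ i).1 * mo (τ i).2 (y i)) s fun i => by
      rw [Derivation.leibniz, h1, hf, smul_zero, zero_add, smul_eq_mul]
      ring]
  ring

variable {na : Prop}

/-- The same seminorm in the vocabulary of the elliptic case. -/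
def toP1 (S : SN R na) : Vj.P1.SN R na :=
  ⟨S.N, S.nonneg, S.zero, S.one, S.neg, S.mul, S.add, S.add_na⟩

/- `SN.int_sum_le`, `E_pos_case`, `SN.prod_le`. -/
theorem locVO (S : SN R na) (hna : na) (c : CX T κ e → ℤ) {f : ∀ i, T i → R} {F : Fin m → ℝ}
    (hF : ∀ i, 0 ≤ F i) (hf : ∀ i t, S.N (f i t) ≤ F i) {y : Fin m → κ → R}
    (hy : ∀ i l, S.N (y i l) ≤ 1) : S.N (SV c f y) ≤ ∏ i, F i := by
  have h1 := S.int_sum_le univ c (f := fun τ => ∏ i, (f i (τ i).1 * mo (τ i).2 (y i)))
    (M := ∏ i, F i) (prod_nonneg fun i _ => hF i) fun τ _ _ => S.prod_le _ fun i _ => by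
      have h2 : S.N (mo (τ i).2 (y i)) ≤ 1 := by
        simpa [mo] using S.prod_le univ fun l _ => S.pow_le (hy i l) ((τ i).2.1 l)
      simpa using S.mul_le (hf i (τ i).1) h2
  rw [E_pos_case hna, one_mul] at h1
  exact h1

/- `Es.locX` for `toP1 S`, `U = 1`, the matrices `Z i` whose column `j` is `y i` and whose other columns
vanish, and `ν i` concentrated at `j` (`j` any element of `κ`): `SV_mulVec` with `u i = Pi.single j 1`
shows `SV c f y = GC c f Z ν`.  Or copy the proof of `Es.locX` with `SV_mulVec` for `GC_mul`. -/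
theorem locVX [Nonempty κ] (S : SN R na) {c : CX T κ e → ℤ} {H : ℝ} (hH : 1 ≤ H)
    (hc : ∀ τ, |(c τ : ℝ)| ≤ H) {f : ∀ i, T i → R} {F : Fin m → ℝ} (hF : ∀ i, 0 ≤ F i)
    (hf : ∀ i t, S.N (f i t) ≤ F i) {M : Fin m → Matrix κ κ R} {y : Fin m → κ → R}
    {A w : Fin m → ℝ} {γ : κ → ℝ} {L : ℝ} (hA1 : ∀ i, 1 ≤ A i)
    (hA : ∀ i l j, S.N ((M i).adjugate l j) ≤ A i)
    (hy : ∀ i l, S.N ((M i *ᵥ y i) l) ≤ A i * Real.exp (γ l * w i))
    (h0 : ∀ β ∈ Bad e w γ L, GC c f (fun i => (M i).adjugate) β = 0) :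
    S.N ((∏ i, (M i).det ^ e i) * SV c f y) ≤
      H * (∏ i, ((Fintype.card (T i) : ℝ) * F i *
        (4 ^ Fintype.card κ * (Fintype.card κ + 1) ^ 2 * A i ^ 2) ^ e i)) * Real.exp L := by
  obtain ⟨j⟩ := ‹Nonempty κ›
  let ν : IX κ e := fun i => ⟨Pi.single j (e i), by simp⟩
  let Z : Fin m → Matrix κ κ R := fun i => Matrix.of fun l j' => if j' = j then y i l else 0
  have h1 : SV c f y = GC c f Z ν := by
    refine sum_congr rfl fun τ _ => congrArg _ (prod_congr rfl fun i _ => congrArg _ ?_)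
    have h2 : y i = Z i *ᵥ Pi.single j 1 := by
      funext l
      simp [Z]
    rw [h2, Es.mo_mulVec, sum_eq_single (ν i)]
    · rw [mo, prod_eq_one, mul_one]
      intro l _
      by_cases hl : l = j
      · simp [hl]
      · simp [ν, hl]
    · intro β _ hβ
      obtain ⟨l, hl, hl'⟩ : ∃ l, l ≠ j ∧ β.1 l ≠ 0 := by
        by_contra h3
        push Not at h3
        refine hβ (Subtype.ext (funext fun l => ?_))
        by_cases hl : l = j
        · have h4 := Es.sum_Mo β
          rw [sum_eq_single j (fun l _ => h3 l) (by simp)] at h4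
          simp [ν, hl, h4]
        · simp [ν, hl, h3 l hl]
      rw [mo, prod_eq_zero (mem_univ l) (by simp [hl, hl']), mul_zero]
    · simp
  have h2 := Es.locX (toP1 S) hH hc hF hf (Z := Z) (U := fun _ _ => 1) hA1 (fun _ _ => zero_le_one) hA
    (fun i l j' => by
      rw [mul_one]
      by_cases hj : j' = j
      · have h3 : (M i * Z i) l j' = (M i *ᵥ y i) l := by
          simp [Z, hj, Matrix.mul_apply, Matrix.mulVec, dotProduct]
        rw [h3]
        exact hy i l
      · have h3 : (M i * Z i) l j' = 0 := by simp [Z, hj, Matrix.mul_apply]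
        rw [h3, (toP1 S).zero]
        exact mul_nonneg (zero_le_one.trans (hA1 i)) (Real.exp_nonneg _)) h0 ν
  rw [h1]
  simp only [one_pow, prod_const_one, mul_one] at h2
  exact h2

end Pool.Agent.Lib.MP_651af7_nt.As
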