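import Pool.Agent.Lib.MP_651af7_nt.As.Fa
import Pool.Agent.Lib.MP_651af7_nt.As.Sv

/-! Degrees and heights of the small polynomials. -/

namespace Pool.Agent.Lib.MP_651af7_nt.As

open MvPolynomial Finset Height NumberField Matrix
open Av hiding Bad
open Es (Mo IX CX mo cx GA GC Bad Pen nv vol Tame IntV Dual)
open Rt (Pl av mu)

variable {k ι κ J : Type} [Field k] [NumberField k] [Fintype κ] [DecidableEq κ]
  {g r m : ℕ} {B : AV k ι} (F : FB B g)

omit [NumberField k] in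
private theorem coef_ph_le {R : Type} [CommRing R] [Algebra k R] {v : AbsoluteValue k ℝ}
    {S : SN R (IsNonarchimedean v)} (hS : S.Ov v) {s X Y : ℝ} (hs : Sz₀ B v s) {x y : ι → R}
    (hx : ∀ a, S.N (x a) ≤ X) (hy : ∀ a, S.N (y a) ≤ Y) (a b : ι) :
    S.N (B.ph a b x y) ≤ s * (X ^ 2 * Y ^ 2) := by
  have hX : 0 ≤ X := (S.nonneg _).trans (hx a)
  have hY : 0 ≤ Y := (S.nonneg _).trans (hy a)
  have ht : ∀ c : ι ⊕ ι, 0 ≤ Sum.elim (fun _ => X) (fun _ => Y) c := by
    rintro (c | c)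
    exacts [hX, hY]
  rw [AV.ph, aeval_def]
  refine (eval₂_le_polN (absSN v) S (algebraMap k R) hS (t := Sum.elim (fun _ => X) fun _ => Y)
    (by rintro (c | c); exacts [hx c, hy c]) _).trans ((polN_le_mul (absSN v) ht
      (b := X ^ 2 * Y ^ 2) (by positivity) fun μ hμ => le_of_eq ?_).trans
      (mul_le_mul_of_nonneg_right (hs.Φ a b) (by positivity)))
  have h := B.bih a b (mem_support_iff.mp hμ)
  rw [Finsupp.weight_apply, Finsupp.sum] at h
  have h1 : ∀ i, Sum.elim (fun _ => X) (fun _ => Y) i ^ μ i =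
      X ^ (μ i • bw ι ι i).1 * Y ^ (μ i • bw ι ι i).2 := by
    rintro (c | c) <;> simp [bw]
  simp only [wt, Finsupp.prod, h1, prod_mul_distrib, prod_pow_eq_pow_sum, ← Prod.fst_sum,
    ← Prod.snd_sum, h]

private theorem coef_bound (D : Dat k ι κ J g r m) (hn : ∀ o, F.em ≤ D.n o ∧ 1 ≤ D.n o)
    (c : D.Co F κ) (β : IX κ D.e) (v : AbsoluteValue k ℝ) {s : ℝ} (hs : Sz₀ B v s)
    (hφ : ∀ (n : ℕ) (t : F.T n), pl v (F.φ t) ≤ s ^ (n + 1)) (t : Fin m × (ι ⊕ κ) → ℝ)
    (T : Fin m → ℝ) (ht : ∀ p, 0 ≤ t p) (hT : ∀ o, 1 ≤ T o) (htT : ∀ p, t p ≤ T p.1)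
    (μ : Fin m × (ι ⊕ κ) →₀ ℕ) :
    v (coeff μ (D.GP F c β)) * wt t μ ≤ E (IsNonarchimedean v) (∑ τ, |(c τ : ℝ)|) *
      ∏ o, ((s ^ 5 * T o ^ 2) ^ D.dg o *
        (E (IsNonarchimedean v) ((Fintype.card κ : ℝ) ^ D.e o) * T o ^ D.e o)) := by
  obtain ⟨S, hS⟩ := exists_polSN (absSN v) ht
  have ov : S.Ov v := (absSN_ov v).pol ht hS
  have hs1 := one_le_of_two hs.two
  have hT0 : ∀ o, 0 ≤ T o := fun o => zero_le_one.trans (hT o)
  have hX : ∀ p, S.N (X p) ≤ T p.1 := fun p => by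
    rw [hS]
    exact (polN_X _ ht _).trans (htT p)
  have hy : ∀ o a, S.N (B.ph a D.a₁ (fun c => X (o, .inl c)) fun c => C (B.o c)) ≤
      s * (T o ^ 2 * s ^ 2) := fun o a =>
    coef_ph_le ov hs (fun c => hX (o, .inl c)) (fun c => (ov _).trans (hs.o c)) _ _
  obtain ⟨Fb, h0, h1, h2⟩ := D.toCf.Fa_le F hn ov hs hφ D.a₀
    (Y := fun o => s * (T o ^ 2 * s ^ 2)) (fun o => by positivity) hy
  have hZ : ∀ o l j, S.N (Zp D.α (fun l => (X (o, .inr l) : MvPolynomial (Fin m × (ι ⊕ κ)) k)) l j)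
      ≤ T o * 1 := by
    intro o l j
    rw [mul_one]
    simp only [Zp, Matrix.of_apply]
    split_ifs
    · exact S.one.trans (hT o)
    · rw [S.neg]
      exact hX (o, .inr j)
    · exact S.one.trans (hT o)
    · rw [S.zero]
      exact hT0 o
  have hM : ∀ o, 0 ≤ E (IsNonarchimedean v) ((Fintype.card κ : ℝ) ^ D.e o) * T o ^ D.e o :=
    fun o => mul_nonneg (E_nonneg (by positivity)) (pow_nonneg (hT0 o) _)
  have h3 := S.int_sum_le univ c (f := fun τ => ∏ o, (D.toCf.Fa F D.a₀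
      (fun o a => B.ph a D.a₁ (fun c => X (o, .inl c)) fun c => C (B.o c)) o (τ o).1 *
      cx (τ o).2 (β o) (Zp D.α fun l => X (o, .inr l))))
    (M := ∏ o, (Fb o * (E (IsNonarchimedean v) ((Fintype.card κ : ℝ) ^ D.e o) * T o ^ D.e o)))
    (prod_nonneg fun o _ => mul_nonneg (h0 o) (hM o)) fun τ _ _ => S.prod_le _ fun o _ => by
      have h4 := Es.cx_le (toP1 S) (τ o).2 (β o) (u := fun _ => T o) (U := fun _ => 1)
        (fun _ => hT0 o) (fun _ => zero_le_one) (hZ o)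
      simp only [one_pow, prod_const_one, mul_one, prod_pow_eq_pow_sum, Es.sum_Mo] at h4
      exact S.mul_le (h1 o _) h4
  have h5 := coeff_le_polN (absSN v) ht (D.GP F c β) μ
  rw [← hS] at h5
  refine h5.trans (h3.trans (le_of_eq ?_))
  rw [prod_mul_distrib, h2, ← prod_mul_distrib]
  refine congrArg _ (prod_congr rfl fun o _ => ?_)
  rw [show s ^ 2 * (s * (T o ^ 2 * s ^ 2)) = s ^ 5 * T o ^ 2 by ring]

theorem Dat.GP_deg (D : Dat k ι κ J g r m) (hn : ∀ o, F.em ≤ D.n o ∧ 1 ≤ D.n o) (c : D.Co F κ)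
    (β : IX κ D.e) : ∀ μ ∈ (D.GP F c β).support, ∀ p, μ p ≤ 2 * D.dg p.1 + D.e p.1 := by
  classical
  intro μ hμ p
  let v : AbsoluteValue k ℝ := AbsoluteValue.trivial
  have hv : ∀ x, v x ≤ 1 := fun x => by
    by_cases hx : x = 0
    · simp [hx]
    · exact (AbsoluteValue.trivial_apply hx).le
  have hna : IsNonarchimedean v := fun x y => by
    by_cases hx : x = 0
    · simp [hx]
    · exact (hv _).trans (le_max_of_le_left (AbsoluteValue.trivial_apply hx).ge)
  have hpl : ∀ {σ : Type} (P : MvPolynomial σ k), pl v P ≤ 1 := fun P => by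
    have h2 := polN_le_card (absSN v) (t := fun _ => 1) (fun _ => zero_le_one) (P := P)
      zero_le_one fun ν _ => by rw [wt_one, mul_one]; exact hv _
    rwa [E_pos_case hna, one_mul] at h2
  have h1 := coef_bound F D hn c β v (s := 1)
    ⟨(E_pos_case hna _).le, fun _ _ => hpl _, fun _ => hv _⟩
    (fun n t => by rw [one_pow]; exact hpl _) (fun p' => if p' = p then 2 else 1)
    (fun o => if o = p.1 then 2 else 1) (fun p' => by split_ifs <;> norm_num)
    (fun o => by split_ifs <;> norm_num) (fun p' => by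
      by_cases h : p' = p
      · simp [h]
      · rw [if_neg h]
        split_ifs <;> norm_num) μ
  have h2 : v (coeff μ (D.GP F c β)) = 1 := AbsoluteValue.trivial_apply (mem_support_iff.1 hμ)
  have h3 : wt (fun p' => if p' = p then (2 : ℝ) else 1) μ = 2 ^ μ p := by
    rw [wt, Finsupp.prod_eq_single p (fun p' _ h => by simp [h]) (fun _ => by simp), if_pos rfl]
  simp only [E_pos_case hna, one_mul, one_pow] at h1
  rw [h2, h3, one_mul, prod_eq_single p.1 (fun o _ h => by simp [h]) (by simp), if_pos rfl,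
    ← pow_mul, ← pow_add] at h1
  exact (pow_le_pow_iff_right₀ one_lt_two).1 h1

theorem GP_le (κ : Type) [Fintype κ] [DecidableEq κ] : ∃ C : ℕ, ∀ (J : Type) (r m : ℕ)
    (D : Dat k ι κ J g r m) (c : D.Co F κ) (β : IX κ D.e) (v : AbsoluteValue k ℝ) (H : ℝ),
      (∀ o, F.em ≤ D.n o ∧ 1 ≤ D.n o) → 1 ≤ H → (∀ τ, |(c τ : ℝ)| ≤ H) → ∀ μ,
        v (coeff μ (D.GP F c β)) ≤
          E (IsNonarchimedean v) H * ∏ o, F.s v ^ (C * (D.dg o + D.e o)) := by
  refine ⟨F.ρ + g + 6 + 2 * Fintype.card κ, fun J r m D c β v H hn hH hc μ => ?_⟩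
  have hs := F.sz v
  have hs1 := F.one_le v
  have hs0 := zero_le_one.trans hs1
  have h1 := coef_bound F D hn c β v hs (fun n t => F.φ_pl v t) (fun _ => 1) (fun _ => 1)
    (fun _ => zero_le_one) (fun _ => le_rfl) (fun _ => le_rfl) μ
  simp only [wt_one, mul_one, one_pow] at h1
  have h2 : ∑ τ, |(c τ : ℝ)| ≤
      H * ∏ o, (2 : ℝ) ^ ((F.ρ + g + 1) * D.n o + Fintype.card κ * D.e o) := by
    refine (sum_le_card_nsmul _ _ H fun τ _ => hc τ).trans ?_
    rw [nsmul_eq_mul, mul_comm, card_univ, Fintype.card_pi, Nat.cast_prod]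
    refine mul_le_mul_of_nonneg_left (prod_le_prod (fun o _ => Nat.cast_nonneg _) fun o _ => ?_)
      (zero_le_one.trans hH)
    rw [Fintype.card_prod, pow_add, pow_mul (2 : ℝ) (Fintype.card κ)]
    exact_mod_cast Nat.mul_le_mul (F.card_T_le (hn o).2) Es.card_Mo_le
  have h3 := E_mono (na := IsNonarchimedean v) h2
  rw [E_mul, E_prod] at h3
  refine h1.trans ((mul_le_mul_of_nonneg_right h3 (prod_nonneg fun o _ =>
    mul_nonneg (by positivity) (E_nonneg (by positivity)))).trans ?_)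
  rw [mul_assoc, ← prod_mul_distrib]
  refine mul_le_mul_of_nonneg_left (prod_le_prod (fun o _ => mul_nonneg (E_nonneg (by positivity))
    (mul_nonneg (by positivity) (E_nonneg (by positivity)))) fun o _ => ?_)
    (E_nonneg (zero_le_one.trans hH))
  have h4 := E_le_pow hs.two
    (le_refl ((2 : ℝ) ^ ((F.ρ + g + 1) * D.n o + Fintype.card κ * D.e o)))
  have h5 : E (IsNonarchimedean v) ((Fintype.card κ : ℝ) ^ D.e o) ≤
      F.s v ^ (Fintype.card κ * D.e o) := by
    refine E_le_pow hs.two ?_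
    rw [pow_mul]
    refine pow_le_pow_left₀ (Nat.cast_nonneg _) ?_ _
    exact_mod_cast (Nat.lt_two_pow_self (n := Fintype.card κ)).le
  refine (mul_le_mul h4 (mul_le_mul_of_nonneg_left h5 (by positivity))
    (mul_nonneg (by positivity) (E_nonneg (by positivity))) (by positivity)).trans ?_
  rw [← pow_mul, ← pow_add, ← pow_add]
  refine pow_le_pow_right₀ hs1 ?_
  have h6 := Nat.mul_le_mul_left (F.ρ + g + 1) (D.toCf.n_le_dg o)
  nlinarith [Nat.zero_le (Fintype.card κ * D.dg o), Nat.zero_le ((F.ρ + g + 6) * D.e o)]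

end Pool.Agent.Lib.MP_651af7_nt.As
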