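import Pool.Agent.Lib.MP_651af7_nt.Av.EDefs
import Pool.Agent.Lib.MP_651af7_nt.Es.BDefs

/-! Subspace theorem over abelian varieties: definitions for the engine. -/

namespace Pool.Agent.Lib.MP_651af7_nt.As

open MvPolynomial Finset Height NumberField Matrix
open Av hiding Bad
open Es (Mo IX CX mo cx GA GC Bad Pen nv vol Tame IntV Dual)
open Rt (Pl av mu)

section fb

variable {k ι : Type} [Field k] [NumberField k]

/-- A free basis `m` of the homogeneous coordinate ring over linear parameters `u`, up to the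
denominator `Δ`, with an adelic size for all the data. -/
structure FB (B : AV k ι) (g : ℕ) where
  /-- the rank -/
  ρ : ℕ
  /-- the degree of the basis -/
  em : ℕ
  /-- the degree of the denominator -/
  dl : ℕ
  /-- the parameters -/
  u : Fin (g + 1) → MvPolynomial ι k
  /-- the basis -/
  m : Fin ρ → MvPolynomial ι k
  /-- the denominator -/
  Δ : MvPolynomial ι k
  /-- the coordinates of the monomials -/
  red : (ι →₀ ℕ) → Fin ρ → MvPolynomial (Fin (g + 1)) k
  /-- the size -/
  s : AbsoluteValue k ℝ → ℝ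
  /-- the height of the size -/
  hs : ℝ
  le : em ≤ dl
  pos : 0 < ρ
  hu : ∀ l, (u l).IsHomogeneous 1
  hm : ∀ a, (m a).IsHomogeneous em
  hΔ : Δ.IsHomogeneous dl
  notMem : Δ ∉ B.I
  indep : ∀ r : Fin ρ → MvPolynomial (Fin (g + 1)) k, ∑ a, aeval u (r a) * m a ∈ B.I → r = 0
  hred : ∀ μ a, (red μ a).IsHomogeneous (μ.degree + dl - em)
  rel : ∀ μ, Δ * monomial μ 1 - ∑ a, aeval u (red μ a) * m a ∈ B.I
  ad : Ad s hs
  sz : ∀ v, Sz₀ B v (s v)
  su : ∀ v l, pl v (u l) ≤ s v
  sm : ∀ v a, pl v (m a) ≤ s v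
  sred : ∀ v μ a, pl v (red μ a) ≤ s v ^ (μ.degree + 1)

variable {B : AV k ι} {g : ℕ} (F : FB B g)

/-- The index set of the basis in degree `n`. -/
abbrev FB.T (n : ℕ) : Type := Fin F.ρ × Mo (Fin (g + 1)) (n - F.em)

/-- The basis in degree `n`. -/
noncomputable def FB.φ {n : ℕ} (t : F.T n) : MvPolynomial ι k := mo t.2 F.u * F.m t.1

/-- The exponents of one block. -/
noncomputable def blk [Fintype ι] {O : Type} (μ : O × ι →₀ ℕ) (o : O) : ι →₀ ℕ :=
  Finsupp.equivFunOnFinite.symm fun a => μ (o, a)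

/-- The coordinates of a polynomial in several blocks of variables. -/
noncomputable def FB.rc [Fintype ι] {O : Type} [Fintype O] {N : O → ℕ}
    (P : MvPolynomial (O × ι) k) (ω : ∀ o, F.T (N o + F.dl)) : k :=
  ∑ μ ∈ P.support, coeff μ P *
    ∏ o, coeff (Finsupp.equivFunOnFinite.symm (ω o).2.1) (F.red (blk μ o) (ω o).1)

end fb

/-- Homogeneous of degree `N o` in the block `o`. -/
def MH {O ι R : Type} [Fintype ι] [CommRing R] (N : O → ℕ) (P : MvPolynomial (O × ι) R) : Prop :=
  ∀ μ ∈ P.support, bdeg μ = N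

section sv

variable {R : Type} [CommRing R] {m : ℕ} {T : Fin m → Type} [∀ i, Fintype (T i)]
  {κ : Type} [Fintype κ] [DecidableEq κ]

/-- The value of the auxiliary section. -/
def SV {e : Fin m → ℕ} (c : CX T κ e → ℤ) (f : ∀ i, T i → R) (y : Fin m → κ → R) : R :=
  ∑ τ, (c τ : R) * ∏ i, (f i (τ i).1 * mo (τ i).2 (y i))

/-- Coordinates adapted to the hyperplane with normal vector `z`, `z α = 1`. -/
def Zp (α : κ) (z : κ → R) : Matrix κ κ R :=
  Matrix.of fun l j => if l = α then (if j = α then 1 else -z j) else if l = j then 1 else 0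

end sv

/-- The discrete data. -/
structure Cf (m : ℕ) where
  /-- the hub -/
  h : Fin m
  /-- numbers of doublings -/
  j : Fin m → ℕ
  /-- degrees on the abelian variety -/
  n : Fin m → ℕ
  /-- degrees on the projective space -/
  e : Fin m → ℕ

namespace Cf

variable {m : ℕ} (Z : Cf m)

/-- The hub and the differences. -/
def YY {G : Type} [AddCommGroup G] (P : Fin m → G) (o : Fin m) : G :=
  if o = Z.h then P Z.h else P o - 2 ^ Z.j o • P Z.h

/-- The degrees in the original coordinates. -/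
def dg (o : Fin m) : ℕ :=
  if o = Z.h then Z.n Z.h + ∑ i ∈ univ.erase Z.h, 2 * 4 ^ Z.j i * Z.n i else 2 * Z.n o

/-- The degrees of the conditions. -/
def NC (E : ℕ) (o : Fin m) : ℕ :=
  if o = Z.h then Z.n Z.h + E * Z.e Z.h + ∑ i ∈ univ.erase Z.h, 2 * 4 ^ Z.j i * (E * Z.e i)
  else Z.n o + 2 * (E * Z.e o)

variable {k ι R : Type} [Field k] [CommRing R] [Algebra k R] (B : AV k ι)

/-- Coordinates of the differences in the presentation `a`. -/
noncomputable def arm (a : Fin m → ι) (y : Fin m → ι → R) (o : Fin m) (c : ι) : R :=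
  if o = Z.h then y Z.h c else B.ph (a o) c (y o) (B.dbn (y Z.h) (Z.j o))

/-- Coordinates of the sums. -/
noncomputable def bak (w : Fin m → ι → R) (o : Fin m) (c : ι) : R :=
  if o = Z.h then w Z.h c else B.ph c B.ao (w o) (B.dbn (w Z.h) (Z.j o))

variable [NumberField k] {B} {g : ℕ} (F : FB B g)

/-- The factors of the basic sections that come from the abelian variety. -/
noncomputable def Fa (a : Fin m → ι) (y : Fin m → ι → R) (o : Fin m) (t : F.T (Z.n o)) : R :=
  aeval (Z.arm B a y o) (F.φ t)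

/-- The coefficients of the auxiliary section. -/
abbrev Co (κ : Type) [Fintype κ] [DecidableEq κ] : Type := CX (fun o => F.T (Z.n o)) κ Z.e → ℤ

/-- The polynomial attached to one unknown and one forbidden exponent. -/
noncomputable def row {κ : Type} [Fintype κ] [DecidableEq κ]
    (M : Fin m → Matrix κ κ (MvPolynomial ι k)) (β : IX κ Z.e)
    (τ : CX (fun o => F.T (Z.n o)) κ Z.e) : MvPolynomial (Fin m × ι) k :=
  ∏ o, (rename (Prod.mk o) (F.φ (τ o).1) *
    cx (τ o).2 (β o) ((M o).map (aeval (Z.bak B (fun o a => X (o, a)) o))).adjugate)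

/-- The forbidden coefficients vanish. -/
def Van {κ J : Type} [Fintype κ] [DecidableEq κ] (M : Fin m → J → Matrix κ κ (MvPolynomial ι k))
    (Lw : J → Finset (IX κ Z.e)) (c : Z.Co F κ) : Prop :=
  ∀ (R : Type) [CommRing R] [IsDomain R] [Algebra k R] (w x : Fin m → ι → R) (l : Fin m → R),
    (∀ o, ∀ f ∈ B.I, aeval (w o) f = 0) → (∀ o, aeval (w o) F.Δ ≠ 0) → (∀ o, l o ≠ 0) →
    (∀ o a, Z.bak B w o a = l o * x o a) → ∀ p, ∀ β ∈ Lw p,
      GC c (fun o t => aeval (w o) (F.φ t)) (fun o => ((M o p).map (aeval (x o))).adjugate) β = 0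

end Cf

section big

/-- The normal variables of a block: `T`, `ζ`, `ζ'`. -/
abbrev NV (g : ℕ) (κ J : Type) : Type := Fin g ⊕ κ ⊕ J

/-- All variables: `ξ`, `s` and the normal variables. -/
abbrev VV (m r g : ℕ) (κ J : Type) : Type := (Fin m × Fin r ⊕ Fin m × κ) ⊕ Fin m × NV g κ J

/-- The big ring. -/
abbrev RB (k : Type) (m r g : ℕ) (κ J : Type) : Type := MvPowerSeries (VV m r g κ J) k

variable {m r g : ℕ} {κ J : Type}

/-- The variables `ξ` of a block. -/
def eX (o : Fin m) : Fin r ↪ VV m r g κ J := ⟨fun a => .inl (.inl (o, a)), fun _ _ h => by simpa using h⟩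

/-- The variables `T` of a block. -/
def eT (o : Fin m) : Fin g ↪ VV m r g κ J := ⟨fun a => .inr (o, .inl a), fun _ _ h => by simpa using h⟩

/-- A pure power in each block. -/
noncomputable def zz {O N : Type} [Fintype O] (d : N) (ν : O → ℕ) : O × N →₀ ℕ :=
  ∑ o, Finsupp.single (o, d) (ν o)

/-- The directions of the block `o` under which `Ψ` is invariant. -/
noncomputable def Inv {k O N : Type} [Field k] [Fintype N] (Ψ : MvPolynomial (O × N) k) (o : O) :
    Submodule k (N → k) where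
  carrier := {τ | ∑ d, τ d • pderiv (o, d) Ψ = 0}
  add_mem' {a b} ha hb := by
    simp only [Set.mem_ofPred_eq, Pi.add_apply, add_smul, sum_add_distrib] at *
    rw [ha, hb, add_zero]
  zero_mem' := by simp
  smul_mem' c a ha := by
    simp only [Set.mem_ofPred_eq, Pi.smul_apply, smul_eq_mul, mul_smul, ← smul_sum] at *
    rw [ha, smul_zero]

/-- `Ψ` is a leading form of `f`. -/
structure Ld {K Ξ O N : Type} [CommRing K] [Fintype N] (f : MvPowerSeries (Ξ ⊕ O × N) K)
    (μ : Ξ →₀ ℕ) (ν : O → ℕ) (Ψ : MvPolynomial (O × N) K) : Prop where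
  minT : MinT f ν
  minX : MinX f μ ν
  lead : IsLead f μ ν Ψ

/-- A vector of normal directions. -/
def vec {k : Type} (c : Fin g → k) (y : κ → k) (t : J → k) : NV g κ J → k :=
  Sum.elim c (Sum.elim y t)

end big

/-- The formal data. -/
structure Dat (k ι κ J : Type) [Field k] (g r m : ℕ) extends Cf m where
  /-- the coordinate of the points that equals `1` -/
  a₁ : ι
  /-- the presentation of the differences -/
  a₀ : Fin m → ι
  /-- coordinates of the sums -/
  sm : Fin m → ι → k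
  /-- the branches -/
  ξ : Fin m → ι ⊕ κ → MvPowerSeries (Fin r) k
  /-- the parametrisation at the origin -/
  ϱ : ι → MvPowerSeries (Fin g) k
  /-- the lattice points -/
  Y : Fin m → Matrix κ κ k
  /-- the extra directions -/
  η : Fin m → J → κ → k
  /-- the row outside the hyperplane -/
  j₀ : κ
  /-- the base row -/
  j₁ : κ
  /-- the coordinate of the normal vector that equals `1` -/
  α : κ

namespace Dat

variable {k ι κ J : Type} [Field k] {g r m : ℕ} (D : Dat k ι κ J g r m)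

/-- The base points. -/
noncomputable def x (o : Fin m) (a : ι ⊕ κ) : k := MvPowerSeries.constantCoeff (D.ξ o a)

/-- The base points on the abelian variety. -/
noncomputable def xa (o : Fin m) (a : ι) : k := D.x o (.inl a)

/-- The normal vectors. -/
noncomputable def z (o : Fin m) (l : κ) : k := D.x o (.inr l)

/-- The branches in the big ring. -/
noncomputable def xi (o : Fin m) (a : ι ⊕ κ) : RB k m r g κ J :=
  MvPowerSeries.rename (eX o) (D.ξ o a)

/-- The parametrisation at the origin in the big ring. -/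
noncomputable def rh (o : Fin m) (a : ι) : RB k m r g κ J := MvPowerSeries.rename (eT o) (D.ϱ a)

/-- Coordinates of `ξ + ϱ (T)` in the presentation `b`. -/
noncomputable def ty (B : AV k ι) (b : Fin m → ι) (o : Fin m) (a : ι) : RB k m r g κ J :=
  B.ph a (b o) (fun c => D.xi o (.inl c)) (D.rh o)

variable [Fintype κ] [DecidableEq κ] [Fintype J]

/-- The moving vector before the correction. -/
noncomputable def yp (o : Fin m) (l : κ) : RB k m r g κ J :=
  MvPowerSeries.C (D.Y o D.j₁ l) +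
    ∑ j ∈ univ.erase D.j₀, MvPowerSeries.X (.inl (.inr (o, j))) * MvPowerSeries.C (D.Y o j l) +
    MvPowerSeries.X (.inr (o, .inr (.inl l))) +
    ∑ p, MvPowerSeries.X (.inr (o, .inr (.inr p))) * MvPowerSeries.C (D.η o p l)

/-- The moving vector. -/
noncomputable def yy (o : Fin m) (l : κ) : RB k m r g κ J :=
  D.yp o l -
    if l = D.α then ∑ l', (D.xi o (.inr l') - MvPowerSeries.C (D.z o l')) * D.yp o l' else 0

/-- The monomials in the moving point of the hyperplane. -/
noncomputable def YP (β : IX κ D.e) : MvPolynomial (Fin m × κ) k :=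
  ∏ o, ∏ l ∈ univ.erase D.α,
    (C (D.Y o D.j₁ l) + ∑ j ∈ univ.erase D.j₀, X (o, j) * C (D.Y o j l)) ^ (β o).1 l

/-- Points in the big ring. -/
structure Pts {B : AV k ι} (P : Fin m → B.Pt k) (𝒳 𝒯 : Fin m → B.Pt (RB k m r g κ J)) : Prop where
  x : ∀ o, AV.Rep (𝒳 o) fun a => D.xi o (.inl a)
  t : ∀ o, AV.Rep (𝒯 o) (D.rh o)
  cx : ∀ o, B.map (cc k _) (𝒳 o) = P o
  ct : ∀ o, B.map (cc k _) (𝒯 o) = 0

variable [NumberField k] {B : AV k ι} (F : FB B g)

/-- The auxiliary series in the presentation `a`, `b`. -/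
noncomputable def FF (c : D.toCf.Co F κ) (a b : Fin m → ι) : RB k m r g κ J :=
  SV c (D.toCf.Fa F a (D.ty B b)) D.yy

/-- The auxiliary series. -/
noncomputable def ff (c : D.toCf.Co F κ) : RB k m r g κ J := D.FF F c D.a₀ fun _ => D.a₁

/-- The polynomials of small height to which the zero estimate is applied. -/
noncomputable def GP (c : D.toCf.Co F κ) (β : IX κ D.e) : MvPolynomial (Fin m × (ι ⊕ κ)) k :=
  GC c (D.toCf.Fa F D.a₀ fun o a => B.ph a D.a₁ (fun c => X (o, .inl c)) fun c => C (B.o c))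
    (fun o => Zp D.α fun l => X (o, .inr l)) β

variable [Fintype ι]

/-- The hypotheses on the formal data. -/
structure Ok (P : Fin m → B.Pt k) : Prop where
  par : B.Par g D.ϱ
  rep : ∀ o, AV.Rep (P o) (D.xa o)
  mem : ∀ o, ∀ f ∈ B.I, aeval (fun a => D.ξ o (.inl a)) f = 0
  one : ∀ o, D.ξ o (.inl D.a₁) = 1
  oneα : ∀ o, D.ξ o (.inr D.α) = 1
  det : ∀ o, (D.Y o).det ≠ 0
  orth : ∀ o i, i ≠ D.j₀ → D.z o ⬝ᵥ D.Y o i = 0
  ne : D.j₁ ≠ D.j₀
  sum : ∀ o, o ≠ D.h → AV.Rep (P o + 2 ^ D.j o • P D.h) (D.sm o) ∧ D.sm o (D.a₀ o) = 1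
  em : ∀ o, F.em ≤ D.n o ∧ 1 ≤ D.n o

end Dat

section block

variable {k ι κ : Type} [Field k] [Fintype ι] [Fintype κ]

/-- There is a tangent vector of the chart with image `c` in the Lie algebra whose second
component pairs with `y` to `γ`. -/
def TV (B : AV k ι) {g r : ℕ} (σ : Fin g → ι → k) (C : Chart k (ι ⊕ κ) r) (x : ι ⊕ κ → k)
    (y : κ → k) (c : Fin g → k) (γ : k) : Prop :=
  ∃ v : ι ⊕ κ → k, (∀ a, a ∉ Set.range C.I → ∑ b, aeval x (pderiv b (C.φ a)) * v b = 0) ∧
    B.Tang (fun a => x (.inl a)) (fun a => v (.inl a)) (fun a => ∑ l, c l * σ l a) ∧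
    (fun l => v (.inr l)) ⬝ᵥ y = γ

/-- The unit vectors and zero. -/
def cv (k : Type) [Field k] {g : ℕ} (d : Option (Fin g)) : Fin g → k :=
  fun l => if d = some l then 1 else 0

/-- The equations of the abelian variety and the normalisations. -/
noncomputable def JI (B : AV k ι) (a₁ : ι) (α : κ) : Ideal (MvPolynomial (ι ⊕ κ) k) :=
  B.I.map (rename Sum.inl) ⊔ Ideal.span {X (.inl a₁) - 1, X (.inr α) - 1}

variable [NumberField k] [DecidableEq κ]

/-- The data attached to one point. -/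
structure Bk (B : AV k ι) (S : Finset (FinitePlace k)) (κ : Type) (g r : ℕ) where
  /-- the point -/
  P : B.Pt k
  /-- its coordinates and the normal vector -/
  x : ι ⊕ κ → k
  /-- the chart of the moving variety -/
  C : Chart k (ι ⊕ κ) r
  /-- the forms -/
  M : Pl S → Matrix κ κ (MvPolynomial ι k)
  /-- the lattice points -/
  Y : Matrix κ κ k
  /-- the extra directions -/
  η : Pl S → κ → k
  /-- the pairings of the tangent vectors -/
  gg : Option (Fin g) → k
  /-- the common value -/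
  G : k

/-- The fixed parameters of a family of blocks. -/
structure Fix (S : Finset (FinitePlace k)) (ι κ : Type) where
  /-- the coordinate of the points that equals `1` -/
  a₁ : ι
  /-- the row outside the hyperplane -/
  j₀ : κ
  /-- the base row -/
  j₁ : κ
  /-- the coordinate of the normal vector that equals `1` -/
  α : κ
  /-- the degree of the forms -/
  eM : ℕ
  /-- a bound for all degrees -/
  B₀ : ℕ
  /-- the pattern -/
  cc : Pl S → κ → ℝ
  /-- a bound for all exponents -/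
  Γ : ℝ

namespace Bk

variable {B : AV k ι} {S : Finset (FinitePlace k)} {g r : ℕ} (b : Bk B S κ g r)

/-- The coordinates of the point. -/
def xa (a : ι) : k := b.x (.inl a)

/-- The normal vector. -/
def z (l : κ) : k := b.x (.inr l)

/-- The values of the forms. -/
noncomputable def N (p : Pl S) : Matrix κ κ k := (b.M p).map (eval b.xa)

/-- The hypotheses on a block. -/
structure Good (σ : Fin g → ι → k) (f : Fix S ι κ) (ε : ℝ) : Prop where
  rep : AV.Rep b.P b.xa
  atx : b.C.At b.x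
  on : b.C.On (JI B f.a₁ f.α) b.x
  smφ : ∀ a, SmallP f.B₀ (ε * AV.ht b.P) (b.C.φ a)
  smM : ∀ p i j, SmallP f.B₀ (ε * AV.ht b.P) (b.M p i j)
  hom : ∀ p i j, (b.M p i j).IsHomogeneous f.eM
  blk : Es.Blk b.N f.j₀ f.cc f.Γ ε (AV.ht b.P) b.Y
  orth : ∀ i, i ≠ f.j₀ → b.z ⬝ᵥ b.Y i = 0
  nmx : ∀ p : Pl S, nm (av p) b.xa ≤ Real.exp (ε * AV.ht b.P)
  htx : logHeight b.x ≤ f.Γ * AV.ht b.P
  ne : b.G ≠ 0
  tv : ∀ d, TV B σ b.C b.x (b.Y f.j₁) (cv k d) (b.gg d)
  dirS : ∀ p, ∃ t, b.G = t * b.gg none + b.z ⬝ᵥ b.η p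
  box : ∀ p l, av p ((b.N p *ᵥ b.η p) l) ≤ Real.exp ((f.cc p l + ε) * AV.ht b.P)
  szη : ∀ p l, av p (b.η p l) ≤ Real.exp (f.Γ * AV.ht b.P)
  dirO : ∃ A, Ad A (ε * AV.ht b.P) ∧ ∀ v : FinitePlace k, v ∉ S →
    ∃ (c : Fin g → k) (y : κ → k) (t : k), (∀ l, v.1 (c l) ≤ A v.1) ∧ (∀ l, v.1 (y l) ≤ A v.1) ∧
      b.G = ∑ l, c l * b.gg (some l) + t * b.gg none + b.z ⬝ᵥ y

/-- The point lies on a small hypersurface in the coordinates of the chart. -/
def Exit (B' : ℕ) (s : ℝ) : Prop :=
  ∃ q : MvPolynomial (Fin r) ℚ, q ≠ 0 ∧ Common.Subspace.IsInt q ∧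
    (∀ μ ∈ q.support, ∀ j, μ j ≤ B') ∧ Common.Subspace.len q ≤ Real.exp s ∧
    aeval (fun j => b.x (b.C.I j)) q = 0

end Bk

end block

end Pool.Agent.Lib.MP_651af7_nt.As
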