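import Pool.Agent.Lib.MP_651af7_nt.Av.TrB
import Pool.Agent.Lib.MP_651af7_nt.Av.Jac

/-! A derivation of the base field extends to a derivation that preserves a divisorial valuation
ring. -/

namespace Pool.Agent.Lib.MP_651af7_nt.As

open IsDedekindDomain Pool.Agent.Lib.MP_651af7_nt.Av

variable {k K L : Type} [Field k] [Field K] [Field L] [Algebra k L]

theorem ib_pow {x y : WithZero (Multiplicative ℤ)} (hx : x ≠ 0) (hy : y ≠ 0) (hx' : x < 1)
    (hy' : y < 1) : ∃ a e : ℕ, x ^ (e + 1) = y ^ a := by
  rw [← WithZero.exp_log hx, ← WithZero.exp_zero, WithZero.exp_lt_exp] at hx'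
  rw [← WithZero.exp_log hy, ← WithZero.exp_zero, WithZero.exp_lt_exp] at hy'
  refine ⟨(-x.log).toNat, (-y.log - 1).toNat, ?_⟩
  rw [← WithZero.exp_log hx, ← WithZero.exp_log hy, ← WithZero.exp_nsmul, ← WithZero.exp_nsmul,
    WithZero.log_exp, WithZero.log_exp, nsmul_eq_mul, nsmul_eq_mul, Nat.cast_succ,
    Int.toNat_of_nonneg (by omega), Int.toNat_of_nonneg (by omega)]
  congr 1
  ring

/-- A derivation that kills a nonzero element of the maximal ideal and is integral on `A` is
integral on a Dedekind domain that is finite over `A`. -/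
theorem ib_val {A B : Type} [CommRing A] [CommRing B] [IsDedekindDomain B] [Algebra A B]
    [Algebra B L] [IsFractionRing B L] [Module.Finite A B] (𝔪 : HeightOneSpectrum B)
    (D : Derivation k L L) (hn : ∀ n : ℕ, 𝔪.valuation L (n + 1 : ℕ) = 1) {π : L} (h0 : π ≠ 0)
    (h1 : 𝔪.valuation L π < 1) (hπ : D π = 0)
    (hA : ∀ a : A, 𝔪.valuation L (D (algebraMap B L (algebraMap A B a))) ≤ 1) (b : B) :
    𝔪.valuation L (D (algebraMap B L b)) ≤ 1 := by
  classical
  set v := 𝔪.valuation L with hv
  have hB : ∀ b : B, v (algebraMap B L b) ≤ 1 := 𝔪.valuation_le_one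
  obtain ⟨s, hs⟩ := Module.Finite.fg_top (R := A) (M := B)
  obtain ⟨b₀, -, hb₀⟩ := (insert 0 s).exists_max_image (fun b => v (D (algebraMap B L b)))
    (Finset.insert_nonempty _ _)
  set M := v (D (algebraMap B L b₀)) with hM
  have h2 : ∀ b : B, v (D (algebraMap B L b)) ≤ max 1 M := fun b => by
    have hb : b ∈ Submodule.span A (s : Set B) := hs ▸ Submodule.mem_top
    induction hb using Submodule.span_induction with
    | mem b hb => exact (hb₀ b (Finset.mem_insert_of_mem hb)).trans (le_max_right _ _)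
    | zero => simp
    | add x y _ _ hx hy =>
      rw [map_add, map_add]
      exact v.map_add_le hx hy
    | smul a x _ hx =>
      rw [Algebra.smul_def, map_mul, D.leibniz, smul_eq_mul, smul_eq_mul]
      refine v.map_add_le ?_ ?_ <;> rw [map_mul]
      · exact (mul_le_mul' (hB _) hx).trans_eq (one_mul _)
      · exact (mul_le_mul' (hB _) (hA a)).trans ((one_mul _).trans_le (le_max_left _ _))
  rcases le_or_gt M 1 with hM1 | hM1
  · exact (h2 b).trans (max_le le_rfl hM1)
  exfalso
  have hM0 : 0 < M := zero_lt_one.trans hM1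
  rw [max_eq_right hM1.le] at h2
  have h3 : ∀ x : L, v x ≤ 1 → v (D x) ≤ M := fun x hx => by
    obtain ⟨n, d, e⟩ := 𝔪.exists_primeCompl_mul_eq_of_integer x hx
    have h4 : v (algebraMap B L d) = 1 := (𝔪.valuation_eq_one_iff_notMem).2 d.2
    have h5 : algebraMap B L d * D x = D (algebraMap B L n) - x * D (algebraMap B L d) := by
      rw [← e, D.leibniz, smul_eq_mul, smul_eq_mul]
      ring
    rw [← one_mul (v (D x)), ← h4, ← map_mul, h5]
    refine v.map_sub_le (h2 n) ?_
    rw [map_mul]
    exact (mul_le_mul' hx (h2 d)).trans_eq (one_mul _)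
  have h4 : ∀ c : L, v c < 1 → v (D c) < M := fun c hc => by
    rcases eq_or_ne c 0 with rfl | hc0
    · simpa using hM0
    have v0 : v c ≠ 0 := (map_ne_zero v).2 hc0
    obtain ⟨a, e, h⟩ := ib_pow v0 ((map_ne_zero v).2 h0) hc h1
    have h5 := h3 (c ^ (e + 1) / π ^ a) (by
      rw [map_div₀, map_pow, map_pow, h, div_self (pow_ne_zero _ ((map_ne_zero v).2 h0))])
    have h6 : ((e + 1 : ℕ) : L) * c ^ e * D c = π ^ a * D (c ^ (e + 1) / π ^ a) := by
      have := D.leibniz (π ^ a) (c ^ (e + 1) / π ^ a)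
      rw [mul_div_cancel₀ _ (pow_ne_zero _ h0), D.leibniz_pow, D.leibniz_pow, hπ] at this
      simpa [mul_assoc] using this
    have h7 := congrArg v h6
    rw [map_mul, map_mul, map_mul, hn, one_mul, map_pow, map_pow, ← h, pow_succ, mul_assoc] at h7
    rw [mul_left_cancel₀ (pow_ne_zero _ v0) h7]
    exact (mul_le_mul_right h5 _).trans_lt (mul_lt_of_lt_one_left hM0 hc)
  set y := algebraMap B L b₀ with hy
  let φ : A →+* L := (algebraMap B L).comp (algebraMap A B)
  have h5 : ∀ f : Polynomial A, v (D (f.eval₂ φ y) - f.derivative.eval₂ φ y * D y) ≤ 1 := fun f => by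
    induction f using Polynomial.induction_on' with
    | add f g hf hg =>
      rw [Polynomial.eval₂_add, map_add, map_add, Polynomial.eval₂_add, add_mul, add_sub_add_comm]
      exact v.map_add_le hf hg
    | monomial n a =>
      have e : D (φ a * y ^ n) - φ (a * n) * y ^ (n - 1) * D y = y ^ n * D (φ a) := by
        rw [D.leibniz, D.leibniz_pow]
        simp only [smul_eq_mul, nsmul_eq_mul, map_mul, map_natCast]
        ring
      rw [Polynomial.derivative_monomial, Polynomial.eval₂_monomial, Polynomial.eval₂_monomial, e,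
        map_mul, map_pow]
      exact mul_le_one' (pow_le_one' (hB _) _) (hA a)
  have h6 : ∀ f : Polynomial A, v (f.eval₂ φ y) ≤ 1 := fun f => by
    rw [← Polynomial.hom_eval₂]
    exact hB _
  have key : ∀ n : ℕ, ∀ f : Polynomial A, f.natDegree ≤ n → v (φ (f.coeff n)) = 1 →
      v (f.eval₂ φ y) = 1 := fun n => by
    induction n with
    | zero =>
      intro f hf h
      rwa [Polynomial.eq_C_of_natDegree_le_zero hf, Polynomial.eval₂_C]
    | succ n ih =>
      intro f hf h
      have h7 := ih f.derivative (Polynomial.natDegree_derivative_le f |>.trans (by omega)) (by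
        rw [Polynomial.coeff_derivative, map_mul, map_mul, h, one_mul, ← Nat.cast_succ, map_natCast,
          hn])
      refine (h6 f).antisymm (not_lt.1 fun h8 => ?_)
      have h9 := v.map_sub_lt (h4 _ h8) ((h5 f).trans_lt hM1)
      rw [sub_sub_cancel, map_mul, h7, one_mul] at h9
      exact h9.false
  obtain ⟨f, hf, hf0⟩ : IsIntegral A b₀ := Algebra.IsIntegral.isIntegral b₀
  have h7 := key _ f le_rfl (by rw [hf.coeff_natDegree, map_one, map_one])
  rw [← Polynomial.hom_eval₂, hf0, map_zero, map_zero] at h7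
  exact zero_ne_one h7

/-- An element that is not integral over a factorial ring is not integral at some prime element. -/
theorem ib_prime {P F : Type} [CommRing P] [IsDomain P] [UniqueFactorizationMonoid P] [Field F]
    [Algebra P F] [IsFractionRing P F] {a : F} (ha : a ∉ Set.range (algebraMap P F)) :
    ∃ π : P, Prime π ∧ ∀ p s : P, ¬π ∣ s → a ≠ algebraMap P F p * (algebraMap P F s)⁻¹ := by
  have h1 : ¬IsUnit (IsFractionRing.den P a : P) := fun h =>
    ha (IsFractionRing.isInteger_of_isUnit_den h)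
  obtain ⟨π, h2, h3⟩ := WfDvdMonoid.exists_irreducible_factor h1
    (nonZeroDivisors.coe_ne_zero _)
  refine ⟨π, h2.prime, fun p s hs e => ?_⟩
  have h4 : algebraMap P F s ≠ 0 := by
    rw [map_ne_zero_iff _ (IsFractionRing.injective P F)]
    rintro rfl
    exact hs (dvd_zero _)
  have h5 : IsFractionRing.num P a * s = IsFractionRing.den P a * p := by
    apply IsFractionRing.injective P F
    have := IsFractionRing.mk'_num_den' P a
    rw [div_eq_iff (IsFractionRing.to_map_ne_zero_of_mem_nonZeroDivisors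
      (IsFractionRing.den P a).2)] at this
    rw [map_mul, map_mul, this]
    nth_rewrite 1 [e]
    field_simp
  have h6 := (h2.prime.dvd_or_dvd (h5 ▸ h3.mul_right p)).resolve_right hs
  exact h2.not_isUnit (IsFractionRing.num_den_reduced P a h6 h3)

open MvPolynomial in
/-- A derivation that kills a given prime polynomial and has no pole along it. -/
theorem ib_der [CharZero K] [Algebra k K] [Algebra K L] [IsScalarTower k K L] {σ : Type} [Fintype σ]
    {t : σ → L} (ht : AlgebraicIndependent K t) (D₀ : Derivation k K K) {π : MvPolynomial σ K}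
    (hπ : Prime π) : ∃ (D : Derivation k L L) (b : MvPolynomial σ K), ¬π ∣ b ∧
      (∀ c, D (algebraMap K L c) = algebraMap K L (D₀ c)) ∧ D (aeval t π) = 0 ∧
      ∀ p : MvPolynomial σ K, ∃ a : MvPolynomial σ K, aeval t b * D (aeval t p) = aeval t a := by
  classical
  obtain ⟨j, hj⟩ : ∃ j, pderiv j π ≠ 0 := not_forall.1 fun h => by
    have h1 := eq_C_of_pderiv h
    refine hπ.not_isUnit (h1 ▸ (Ne.isUnit fun e => hπ.ne_zero ?_).map C)
    rw [h1, e, C_0]
  have h1 : ¬π ∣ pderiv j π := fun h =>
    (totalDegree_le_of_dvd_of_isDomain h hj).not_gt (totalDegree_pderiv_lt hj)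
  obtain ⟨D', hD'⟩ := exists_derivation_ext (F := L) D₀
  obtain ⟨E, hE⟩ := exists_derivation ht fun l => -D' (t l)
  obtain ⟨E', hE'⟩ := exists_derivation ht (Pi.single j 1)
  have h2 : ∀ p : MvPolynomial σ K, ∃ a : MvPolynomial σ K,
      D' (aeval t p) + E (aeval t p) = aeval t a := fun p => by
    induction p using MvPolynomial.induction_on with
    | C c => exact ⟨C (D₀ c), by simp [hD']⟩
    | add p q hp hq =>
      obtain ⟨a, ha⟩ := hp
      obtain ⟨b, hb⟩ := hq
      exact ⟨a + b, by simp only [map_add, ← ha, ← hb]; ring⟩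
    | mul_X p l hp =>
      obtain ⟨a, ha⟩ := hp
      refine ⟨a * X l, ?_⟩
      simp only [map_mul, aeval_X, Derivation.leibniz, hE, ← ha, smul_eq_mul]
      ring
  have h3 : ∀ p : MvPolynomial σ K, E' (aeval t p) = aeval t (pderiv j p) := fun p => by
    simp [der_aeval' E' E'.map_algebraMap, hE', Pi.single_apply]
  have h4 : aeval t (pderiv j π) ≠ 0 := fun e => hj (ht.eq_zero_of_aeval_eq_zero _ e)
  obtain ⟨a₀, h5⟩ := h2 π
  refine ⟨D' + E.restrictScalars k -
    (aeval t a₀ / aeval t (pderiv j π)) • E'.restrictScalars k, _, h1, fun c => ?_, ?_, fun p => ?_⟩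
  · simp [hD']
  · simp [h5, h3, h4]
  · obtain ⟨a, ha⟩ := h2 p
    refine ⟨pderiv j π * a - a₀ * pderiv j p, ?_⟩
    simp only [Derivation.coe_sub, Derivation.coe_add, Derivation.coe_smul, Pi.sub_apply,
      Pi.add_apply, Pi.smul_apply, Derivation.restrictScalars_apply, ha, h3, smul_eq_mul, map_sub,
      map_mul]
    field_simp

open MvPolynomial in
theorem ib_mid [CharZero K] [Algebra k K] [Algebra K L] [IsScalarTower k K L] {σ F : Type}
    [Fintype σ] [Field F] [Algebra (MvPolynomial σ K) F] [IsFractionRing (MvPolynomial σ K) F]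
    [Algebra F L] [Algebra (MvPolynomial σ K) L] [IsScalarTower (MvPolynomial σ K) F L]
    [IsScalarTower K (MvPolynomial σ K) L] [FiniteDimensional F L] (D₀ : Derivation k K K) {y : L}
    (hy : ¬IsIntegral (MvPolynomial σ K) y) :
    ∃ (v : Valuation L (WithZero (Multiplicative ℤ))) (D : Derivation k L L),
      (∀ c, D (algebraMap K L c) = algebraMap K L (D₀ c)) ∧
      (∀ x, IsIntegral (MvPolynomial σ K) x → v x ≤ 1 ∧ v (D x) ≤ 1) ∧ 1 < v y := by
  have hF : CharZero F := IsFractionRing.charZero_of_isFractionRing (MvPolynomial σ K)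
  have hinj : Function.Injective (algebraMap (MvPolynomial σ K) L) := by
    rw [IsScalarTower.algebraMap_eq _ F L]
    exact (algebraMap F L).injective.comp (IsFractionRing.injective _ F)
  have ht : ∀ p : MvPolynomial σ K, aeval (fun j => algebraMap (MvPolynomial σ K) L (X j)) p =
      algebraMap _ L p := fun p => by
    have : aeval (fun j => algebraMap (MvPolynomial σ K) L (X j)) =
        IsScalarTower.toAlgHom K (MvPolynomial σ K) L := by
      ext
      simp
    rw [this, IsScalarTower.toAlgHom_apply]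
  obtain ⟨i, hi⟩ : ∃ i, (minpoly F y).coeff i ∉ Set.range (algebraMap (MvPolynomial σ K) F) :=
    not_forall.1 fun h => by
      obtain ⟨q, h1, -, h2⟩ := Polynomial.lifts_and_degree_eq_and_monic
        ((Polynomial.lifts_iff_coeff_lifts _).2 h) (minpoly.monic (IsIntegral.of_finite F y))
      refine hy ⟨q, h2, ?_⟩
      rw [← Polynomial.aeval_def, ← Polynomial.aeval_map_algebraMap F, h1, minpoly.aeval]
  obtain ⟨π, hπ, hi'⟩ := ib_prime hi
  obtain ⟨D, b, hb, hD, hD0, hDP⟩ := ib_der (L := L)
    (t := fun j => algebraMap (MvPolynomial σ K) L (X j))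
    (fun p q e => hinj (by rwa [ht, ht] at e)) D₀ hπ
  simp only [ht] at hD0 hDP
  have hp : (Ideal.span {π}).IsPrime := (Ideal.span_singleton_prime hπ.ne_zero).2 hπ
  let A := Localization.subalgebra.ofField F _ (Ideal.span {π}).primeCompl_le_nonZeroDivisors
  have l1 : IsLocalRing A := IsLocalization.AtPrime.isLocalRing A (Ideal.span {π})
  have l2 : IsNoetherianRing A :=
    IsLocalization.isNoetherianRing (Ideal.span {π}).primeCompl A inferInstance
  have l3 : IsLocalRing.maximalIdeal A = Ideal.span {algebraMap _ A π} := by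
    rw [← IsLocalization.AtPrime.map_eq_maximalIdeal (Ideal.span {π}) A, Ideal.map_span,
      Set.image_singleton]
  have l4 : IsDedekindDomain A :=
    ((tfae_of_isNoetherianRing_of_isLocalRing_of_isDomain A).out 4 2).1
      (show (IsLocalRing.maximalIdeal A).IsPrincipal from ⟨_, l3⟩)
  have l5 := integralClosure.isDedekindDomain A F L
  have l6 := IsIntegralClosure.finite A F L (integralClosure A L)
  have l7 := integralClosure.isFractionRing_of_finite_extension (A := A) F L
  have hy' : ¬IsIntegral A y := fun h => by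
    rw [minpoly.isIntegrallyClosed_eq_field_fractions' F h, Polynomial.coeff_map] at hi'
    obtain ⟨p, s, hs, e⟩ := ((minpoly A y).coeff i).2
    exact hi' p s (mt Ideal.mem_span_singleton.2 hs) e
  obtain ⟨𝔪, h𝔪⟩ : ∃ 𝔪 : HeightOneSpectrum (integralClosure A L), ¬𝔪.valuation L y ≤ 1 :=
    not_forall.1 fun h => by
      obtain ⟨z, hz⟩ := HeightOneSpectrum.mem_integers_of_valuation_le_one L y h
      exact hy' (hz ▸ z.2)
  have e1 : ∀ p : MvPolynomial σ K, algebraMap _ L p =
      algebraMap (integralClosure A L) L (algebraMap A _ (algebraMap _ A p)) := fun p =>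
    IsScalarTower.algebraMap_apply _ F L p
  have h1 : ∀ p : MvPolynomial σ K, 𝔪.valuation L (algebraMap _ L p) ≤ 1 := fun p => by
    rw [e1]
    exact 𝔪.valuation_le_one _
  have h2 : ∀ p : MvPolynomial σ K, ¬π ∣ p → 𝔪.valuation L (algebraMap _ L p) = 1 := fun p h => by
    rw [e1, 𝔪.valuation_eq_one_iff_notMem]
    exact fun h' => 𝔪.isPrime.ne_top (Ideal.eq_top_of_isUnit_mem _ h'
      ((IsLocalization.map_units A
        (⟨p, mt Ideal.mem_span_singleton.1 h⟩ : (Ideal.span {π}).primeCompl)).map _))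
  have h3 : ∀ p : MvPolynomial σ K, 𝔪.valuation L (D (algebraMap _ L p)) ≤ 1 := fun p => by
    obtain ⟨a, ha⟩ := hDP p
    have := h1 a
    rwa [← ha, map_mul, h2 b hb, one_mul] at this
  have h4 := ib_val (A := A) 𝔪 D (fun n => ?_) (π := algebraMap _ L π)
    ((map_ne_zero_iff _ hinj).2 hπ.ne_zero) ?_ hD0 fun a => ?_
  · refine ⟨𝔪.valuation L, D, hD, fun x hx => ?_, not_le.1 h𝔪⟩
    exact ⟨𝔪.valuation_le_one ⟨x, hx.tower_top⟩, h4 ⟨x, hx.tower_top⟩⟩
  · rw [← map_natCast (algebraMap (MvPolynomial σ K) L), ← map_natCast C]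
    exact h2 _ fun h => hπ.not_isUnit (isUnit_of_dvd_unit h
      ((Nat.cast_ne_zero.2 n.succ_ne_zero).isUnit.map C))
  · rw [e1, 𝔪.valuation_lt_one_iff_mem, ← Ideal.mem_comap, IsLocalRing.eq_maximalIdeal
      (Ideal.isMaximal_comap_of_isIntegral_of_isMaximal 𝔪.asIdeal), l3]
    exact Ideal.mem_span_singleton_self _
  · obtain ⟨⟨p, s⟩, e⟩ := IsLocalization.surj (Ideal.span {π}).primeCompl a
    have e2 := congrArg (fun z => D (algebraMap (integralClosure A L) L (algebraMap A _ z))) e
    simp only [map_mul, ← e1, Derivation.leibniz, smul_eq_mul] at e2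
    have := Valuation.map_sub_le _ (h3 p) ((map_mul _ _ _).trans_le
      (mul_le_one' (𝔪.valuation_le_one (algebraMap A _ a)) (h3 s)))
    rwa [← e2, add_sub_cancel_left, map_mul, h2 s (mt Ideal.mem_span_singleton.2 s.2),
      one_mul] at this

open MvPolynomial in
/-- If the elements `h j` generate a proper ideal of `K [w, h]`, they generate a proper ideal of a
local ring that contains the `w i` and their images under a derivation that extends `D₀`. -/
theorem exists_ib [CharZero K] [Algebra k K] [Algebra K L] [IsScalarTower k K L]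
    (D₀ : Derivation k K K) {ι J : Type} [Finite ι] [Fintype J] (w : ι → L) (h : J → L)
    (hh : ∃ j, h j ≠ 0) (hn : ∀ r : J → L,
      (∀ j, r j ∈ Algebra.adjoin K (Set.range w ∪ Set.range h)) → ∑ j, r j * h j ≠ 1) :
    ∃ (O : Subalgebra K L) (_ : IsLocalRing O) (D : Derivation k L L),
      (∀ c, D (algebraMap K L c) = algebraMap K L (D₀ c)) ∧ (∀ i, w i ∈ O ∧ D (w i) ∈ O) ∧
      ∀ r : J → L, (∀ j, r j ∈ O) → ∑ j, r j * h j ≠ 1 := by
  obtain ⟨V, hV, hV'⟩ := Ideal.image_subset_nonunits_valuationSubring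
    (A := (Algebra.adjoin K (Set.range w ∪ Set.range h)).toSubring)
    (Ideal.span (Set.range fun j => ⟨h j, Algebra.subset_adjoin (Or.inr ⟨j, rfl⟩)⟩)) fun e => by
      obtain ⟨c, hc⟩ := Ideal.mem_span_range_iff_exists_fun.1 ((Ideal.eq_top_iff_one _).1 e)
      exact hn (fun j => c j) (fun j => (c j).2) (by simpa using congrArg Subtype.val hc)
  obtain ⟨j₁, hj₁⟩ := hh
  obtain ⟨j₀, -, hj₀⟩ := Finset.univ.exists_max_image (fun j => V.valuation (h j))
    ⟨j₁, Finset.mem_univ _⟩
  have h0 : h j₀ ≠ 0 := fun e => hj₁ (by simpa [e] using hj₀ j₁ (Finset.mem_univ _))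
  have h1 : V.valuation (h j₀) < 1 := hV' ⟨_, Ideal.subset_span ⟨j₀, rfl⟩, rfl⟩
  let u : Option (ι ⊕ J) → L := fun o => o.elim (h j₀) (Sum.elim w fun j => h j / h j₀)
  have hR : ∀ x ∈ Algebra.adjoin K (Set.range u), x ∈ V := fun x hx => by
    induction hx using Algebra.adjoin_induction with
    | mem x hx =>
      obtain ⟨_ | i | j, rfl⟩ := hx
      · exact (V.valuation_le_one_iff _).1 h1.le
      · exact hV (Algebra.subset_adjoin (Or.inl ⟨i, rfl⟩))
      · refine (V.valuation_le_one_iff (h j / h j₀)).1 ?_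
        rw [map_div₀]
        exact div_le_one_of_le₀ (hj₀ j (Finset.mem_univ _)) zero_le
    | algebraMap c => exact hV (Subalgebra.algebraMap_mem _ c)
    | add x y _ _ hx hy => exact V.add_mem _ _ hx hy
    | mul x y _ _ hx hy => exact V.mul_mem _ _ hx hy
  have ft : Algebra.FiniteType K (Algebra.adjoin K (Set.range u)) :=
    .adjoin_of_finite (Set.finite_range u)
  obtain ⟨s, g, g1, g2⟩ := exists_integral_inj_algHom_of_fg K (Algebra.adjoin K (Set.range u))
  let φ := (Algebra.adjoin K (Set.range u)).val.comp g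
  let _ : Algebra (MvPolynomial (Fin s) K) L := φ.toRingHom.toAlgebra
  have t1 : IsScalarTower K (MvPolynomial (Fin s) K) L := .of_algHom φ
  have t2 : IsScalarTower k (MvPolynomial (Fin s) K) L := .to₁₃₄ k K _ L
  have t3 : FaithfulSMul (MvPolynomial (Fin s) K) L :=
    (faithfulSMul_iff_algebraMap_injective _ _).2 (Subtype.val_injective.comp g1)
  let _ := FractionRing.liftAlgebra (MvPolynomial (Fin s) K) L
  have hu : ∀ o, IsIntegral (MvPolynomial (Fin s) K) (u o) := fun o =>
    (g2 ⟨u o, Algebra.subset_adjoin ⟨o, rfl⟩⟩).map (Algebra.adjoin K (Set.range u)).val.toRingHom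
  let E := IntermediateField.adjoin (FractionRing (MvPolynomial (Fin s) K)) (Set.range u)
  have fd : FiniteDimensional (FractionRing (MvPolynomial (Fin s) K)) E :=
    IntermediateField.finiteDimensional_adjoin (by rintro _ ⟨o, rfl⟩; exact (hu o).tower_top)
  let u' : Option (ι ⊕ J) → E := fun o => ⟨u o, IntermediateField.subset_adjoin _ _ ⟨o, rfl⟩⟩
  have t4 : IsScalarTower k K E := .of_algebraMap_eq fun c =>
    Subtype.ext (IsScalarTower.algebraMap_apply k K L c)
  have t5 : IsScalarTower K (MvPolynomial (Fin s) K) E := .of_algebraMap_eq fun c =>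
    Subtype.ext (IsScalarTower.algebraMap_apply K (MvPolynomial (Fin s) K) L c)
  have t6 : IsScalarTower (MvPolynomial (Fin s) K) E L := .of_algebraMap_eq fun _ => rfl
  have t7 : IsScalarTower k E L := .of_algebraMap_eq fun _ => rfl
  have t8 : IsScalarTower K E L := .of_algebraMap_eq fun _ => rfl
  obtain ⟨v, D, hD, hv, hy⟩ := ib_mid (F := FractionRing (MvPolynomial (Fin s) K)) D₀
    (y := (u' none)⁻¹) fun hy => by
      obtain ⟨z, hz⟩ := (isIntegrallyClosed_iff L).1 (inferInstanceAs (IsIntegrallyClosed V))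
        (hy.map_of_comp_eq (φ.toRingHom.codRestrict V fun p => hR _ (g p).2) (algebraMap E L) rfl)
      have h2 := V.valuation_le_one z
      rw [show (z : L) = (h j₀)⁻¹ from hz, map_inv₀, inv_le_one₀ ((Valuation.pos_iff _).2 h0)] at h2
      exact h1.not_ge h2
  have hu' : ∀ o, v (u' o) ≤ 1 ∧ v (D (u' o)) ≤ 1 := fun o => hv _
    ((isIntegral_algHom_iff (IsScalarTower.toAlgHom (MvPolynomial (Fin s) K) E L)
      Subtype.val_injective).1 (hu o))
  have cz : CharZero E := algebraRat.charZero E
  obtain ⟨D', hD'⟩ := exists_derivation_ext (F := L) D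
  let O : Subalgebra K E := { v.valuationSubring.toSubring with
    algebraMap_mem' := fun c => (hv _ (by
      rw [IsScalarTower.algebraMap_apply K (MvPolynomial (Fin s) K) E]
      exact isIntegral_algebraMap)).1 }
  have lo : IsLocalRing O := inferInstanceAs (IsLocalRing v.valuationSubring)
  refine ⟨O.map (IsScalarTower.toAlgHom K E L), (O.equivMapOfInjective _
    Subtype.val_injective).toRingEquiv.isLocalRing, D', fun c => ?_,
    fun i => ⟨⟨u' (some (.inl i)), (hu' _).1, rfl⟩, _, (hu' (some (.inl i))).2, (hD' _).symm⟩,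
    fun r hr e => ?_⟩
  · rw [IsScalarTower.algebraMap_apply K E L, hD', hD, ← IsScalarTower.algebraMap_apply]
  choose r' h2 h3 using hr
  have h4 : ∑ j, r' j * (u' (some (.inr j)) * u' none) = 1 := by
    apply (algebraMap E L).injective
    rw [map_one, ← e, map_sum]
    refine Finset.sum_congr rfl fun j _ => ?_
    rw [map_mul, map_mul, ← h3 j]
    exact congrArg _ (div_mul_cancel₀ _ h0)
  rw [map_inv₀, one_lt_inv_iff₀] at hy
  refine (v.map_sum_lt one_ne_zero fun j _ => ?_).ne (by rw [h4, map_one])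
  rw [map_mul, map_mul]
  exact mul_lt_one_of_nonneg_of_lt_one_right (h2 j) zero_le
    (mul_lt_one_of_nonneg_of_lt_one_right (hu' _).1 zero_le hy.2)

end Pool.Agent.Lib.MP_651af7_nt.As
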