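import Pool.Agent.Lib.MP_651af7_nt.As.DerA
import Pool.Agent.Lib.MP_651af7_nt.As.IB

/-! Derivations with a prescribed logarithmic derivative at a generic point. -/

namespace Pool.Agent.Lib.MP_651af7_nt.As

open MvPolynomial Pool.Agent.Lib.MP_651af7_nt.Av Pool.Agent.Lib.MP_651af7_nt.Av.AV

variable {k ι K F : Type} [Field k] [Field K] [Field F] [Algebra k K] [Algebra k F] [Algebra K F]
  [IsScalarTower k K F] {A B : AV k ι}

theorem lam_add_der (D E : Derivation k F F) (P : A.Pt F) : lam (D + E) P = lam D P + lam E P :=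
  (lam_tang (D + E) (rep_co P)).unique (rep_co P)
    ((lam_tang D (rep_co P)).add (rep_co P) (lam_tang E (rep_co P)))

theorem lam_smul_der (c : F) (D : Derivation k F F) (P : A.Pt F) : lam (c • D) P = c • lam D P :=
  (lam_tang (c • D) (rep_co P)).unique (rep_co P) ((lam_tang D (rep_co P)).smul (rep_co P) c)

theorem lam_sub_der (D E : Derivation k F F) (P : A.Pt F) : lam (D - E) P = lam D P - lam E P := by
  rw [eq_sub_iff_add_eq, ← lam_add_der, sub_add_cancel]

theorem lam_sum_der {J : Type} (s : Finset J) (c : J → F) (D : J → Derivation k F F) (P : A.Pt F) :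
    lam (∑ j ∈ s, c j • D j) P = ∑ j ∈ s, c j • lam (D j) P := by
  classical
  induction s using Finset.induction_on with
  | empty => simpa using lam_smul_der 0 0 P
  | insert j s hj ih =>
    rw [Finset.sum_insert hj, Finset.sum_insert hj, lam_add_der, lam_smul_der, ih]

theorem der_sum_apply {J : Type} (s : Finset J) (c : J → F) (D : J → Derivation k F F) (x : F) :
    (∑ j ∈ s, c j • D j) x = ∑ j ∈ s, c j * D j x := by
  classical
  induction s using Finset.induction_on with
  | empty => simp
  | insert j s hj ih => simp [Finset.sum_insert hj, ih]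

theorem lam_inc (h : Sub A B) (D : Derivation k F F) (P : B.Pt F) :
    lam D (h.inc F P) = lam D P :=
  (lam_tang D (h.rep_inc (rep_co P))).unique (h.rep_inc (rep_co P))
    (h.tang_iff.1 (lam_tang D (rep_co P))).1

theorem lam_eq_zero_iff {D : Derivation k F F} {P : A.Pt F} :
    lam D P = 0 ↔ ∀ x ∈ rat P.co, D x = 0 := by
  refine ⟨fun h => ?_, fun h => ?_⟩
  · obtain ⟨c, hc⟩ := (h ▸ lam_tang D (rep_co P)).eq_smul (rep_co P)
    rintro _ ⟨⟨a, b⟩, rfl⟩
    simp only [D.leibniz_div, congrFun hc _, Pi.smul_apply, smul_eq_mul]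
    ring
  · obtain ⟨v, hv, hv'⟩ := A.tr_rep_rat P
    refine (lam_tang D hv).unique hv ?_
    rw [show (fun a => D (v a)) = (0 : F) • v from funext fun a => by simp [h _ (hv' a)]]
    exact tang_self hv 0

theorem lam_map {D₀ : Derivation k K K} {D : Derivation k F F}
    (hD : ∀ c, D (algebraMap K F c) = algebraMap K F (D₀ c)) (a : A.Pt K) :
    lam D (A.map (IsScalarTower.toAlgHom k K F) a) = fun c => algebraMap K F (lam D₀ a c) := by
  have h := (rep_co a).map (IsScalarTower.toAlgHom k K F)
  refine (lam_tang D h).unique h ?_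
  simpa only [IsScalarTower.toAlgHom_apply, hD] using
    (lam_tang D₀ (rep_co a)).map (IsScalarTower.toAlgHom k K F)

theorem exists_lam_eq {g : ℕ} {σ : Fin g → ι → k} (hσ : B.LieBasis σ) (D : Derivation k F F)
    (Y : B.Pt F) : ∃ τ : Fin g → F, lam D Y = fun a => ∑ l, τ l * algebraMap k F (σ l a) :=
  (hσ.span F _ ((lam_tang D (rep_co Y)).isLie (rep_co Y))).imp fun _ h => funext h

variable [Fintype ι]

/-- A point and its translate by a point over `K` generate the same closure. -/
theorem cl_rat_eq (h : Sub A B) {X : A.Pt F} {Y : B.Pt F} {a : A.Pt K}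
    (hsub : h.inc F Y = X - A.map (IsScalarTower.toAlgHom k K F) a) :
    Cl K (rat Y.co) = Cl K (rat X.co) := by
  have h1 : ∀ S : Set F, rat (A.map (IsScalarTower.toAlgHom k K F) a).co ⊆ Cl K S := fun S => by
    rw [A.tr_rat_rep ((rep_co a).map _)]
    rintro _ ⟨p, rfl⟩
    exact div_mem ((Cl K S).algebraMap_mem _) ((Cl K S).algebraMap_mem _)
  have h2 : ∀ P : A.Pt F, (AlgebraicIndependent.matroid K F).closure
      (rat P.co ∪ rat (A.map (IsScalarTower.toAlgHom k K F) a).co) ⊆ Cl K (rat P.co) := fun P => by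
    rw [← coe_cl]
    exact cl_le (Set.union_subset (subset_cl _) (h1 _))
  rw [← A.tr_rat_rep (h.rep_inc (rep_co Y))]
  refine le_antisymm (cl_le ?_) (cl_le ?_)
  · rw [hsub]
    exact (A.rat_add_sub X _).2.trans (h2 X)
  · rw [← eq_sub_iff_add_eq.1 hsub]
    exact (A.rat_add_sub _ _).1.trans (h2 _)

variable [CharZero k]

/-- The invariant vector fields at a generic point. -/
theorem exists_dl {σ : Fin B.dim → ι → k} (hσ : B.LieBasis σ) {Y : B.Pt F}
    (hY : Gen (B.IK K) Y.co) : ∃ d : Fin B.dim → Derivation K F F,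
      ∀ l, lam ((d l).restrictScalars k) Y = fun a => algebraMap k F (σ l a) := by
  classical
  have : CharZero K := charZero_of_injective_algebraMap (algebraMap k K).injective
  obtain ⟨b, hb⟩ := (rep_co Y).unit
  have hx := (rep_co Y).smul hb.inv
  have h1 : td K (Set.range fun a => (Y.co b)⁻¹ * Y.co a) = B.dim := by
    rw [← td_rat_eq hb.ne_zero]
    exact (B.gen_iff (Function.ne_iff.2 ⟨b, hb.ne_zero⟩) (rep_co Y).zero).1 hY
  have hb1 : (fun a => (Y.co b)⁻¹ * Y.co a) b = 1 := inv_mul_cancel₀ hb.ne_zero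
  generalize (fun a => (Y.co b)⁻¹ * Y.co a) = x at hx h1 hb1
  obtain ⟨s, j, hj, hi, hc, -⟩ := exists_td_basis_range K x
  have : Finite s := Finite.of_injective j hj
  have := Fintype.ofFinite s
  choose D hD using fun t : s => exists_derivation hi (Pi.single t 1)
  choose c hc1 using fun t : s => exists_lam_eq hσ ((D t).restrictScalars k) Y
  have key : ∀ g : s → F, lam (∑ t, g t • (D t).restrictScalars k) Y =
      fun a => ∑ l, (∑ t, g t • c t) l * algebraMap k F (σ l a) := fun g => by
    funext a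
    simp only [lam_sum_der, hc1, Finset.sum_apply, Pi.smul_apply, smul_eq_mul, Finset.mul_sum,
      Finset.sum_mul, mul_assoc]
    exact Finset.sum_comm
  have h2 : LinearIndependent F c := by
    refine Fintype.linearIndependent_iff.2 fun g hg t => ?_
    have h3 := key g
    simp only [hg, Pi.zero_apply, zero_mul, Finset.sum_const_zero] at h3
    have h4 := lam_eq_zero_iff.1 h3 (x (j t)) (by
      rw [B.tr_rat_rep hx]
      exact ⟨(j t, b), by simp [hb1]⟩)
    have h6 : ∀ t', D t' (x (j t)) = (Pi.single t' 1 : s → F) t := fun t' => hD t' t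
    simpa [der_sum_apply, h6, Pi.single_apply] using h4
  have h3 : Fintype.card s = Module.finrank F (Fin B.dim → F) := by
    rw [h1, ENat.card_eq_coe_fintype_card] at hc
    simpa using hc
  choose g hg using fun l => (Submodule.mem_span_range_iff_exists_fun F).1
    (h2.span_eq_top_of_card_eq_finrank' h3 ▸ Submodule.mem_top (x := (Pi.single l 1 : _ → F)))
  refine ⟨fun l => ∑ t, g l t • D t, fun l => ?_⟩
  have h4 : (∑ t, g l t • D t).restrictScalars k = ∑ t, g l t • (D t).restrictScalars k := by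
    ext y
    simp [der_sum_apply]
  rw [h4, key, hg]
  simp [Pi.single_apply]

section dl

variable {σ : Fin B.dim → ι → k} (hσ : B.LieBasis σ) {Y : B.Pt F}
  {d : Fin B.dim → Derivation K F F}
  (hd : ∀ l, lam ((d l).restrictScalars k) Y = fun a => algebraMap k F (σ l a))
include hd

omit [Fintype ι] [CharZero k] in
theorem lam_sum_dl (c : Fin B.dim → F) : lam (∑ l, c l • (d l).restrictScalars k) Y =
    fun a => ∑ l, c l * algebraMap k F (σ l a) := by
  funext a
  simp [lam_sum_der, hd]

include hσ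

omit [Fintype ι] in
/-- An extension with a prescribed logarithmic derivative. -/
theorem exists_ext_lam (D₀ : Derivation k K K) (τ : Fin B.dim → F) :
    ∃ D : Derivation k F F, (∀ c, D (algebraMap K F c) = algebraMap K F (D₀ c)) ∧
      lam D Y = fun a => ∑ l, τ l * algebraMap k F (σ l a) := by
  have : CharZero K := charZero_of_injective_algebraMap (algebraMap k K).injective
  obtain ⟨D, hD⟩ := exists_derivation_ext (F := F) D₀
  obtain ⟨m, hm⟩ := exists_lam_eq hσ D Y
  refine ⟨D + ∑ l, (τ l - m l) • (d l).restrictScalars k, fun c => ?_, ?_⟩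
  · simp [der_sum_apply, hD]
  · funext a
    simp [lam_add_der, lam_sum_dl hd, hm, sub_mul]

/-- (DER) An element that is algebraic over `K (X)` but not over `k (X)` is moved by a derivation
that preserves `K`, fixes `X` and moves `Y` in a direction defined over `K`. -/
theorem exists_der (h : Sub A B) {X : A.Pt F} {a : A.Pt K}
    (hsub : h.inc F Y = X - A.map (IsScalarTower.toAlgHom k K F) a) {u : F}
    (hu : u ∈ Cl K (rat Y.co)) (hu' : u ∉ Cl k (rat X.co)) :
    ∃ (D₀ : Derivation k K K) (D : Derivation k F F) (τ : Fin B.dim → K),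
      (∀ c, D (algebraMap K F c) = algebraMap K F (D₀ c)) ∧ (∀ x ∈ rat X.co, D x = 0) ∧
      (lam D Y = fun a => ∑ l, algebraMap K F (τ l) * algebraMap k F (σ l a)) ∧ D u ≠ 0 := by
  classical
  obtain ⟨T, hT⟩ := exists_cl_fin (k := k) (cl_rat_eq h hsub ▸ hu)
  obtain ⟨D₁, h1, h2⟩ := exists_der_one hu'
  obtain ⟨τ, hτ⟩ := exists_lam_eq hσ D₁ Y
  let β := Module.Basis.ofVectorSpace K F
  let D₀ : _ → Derivation k K K := fun t => (β.coord t).compDer (D₁.compAlgebraMap K)
  choose D hD hD' using fun t =>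
    exists_ext_lam hσ hd (D₀ t) fun l => algebraMap K F (β.coord t (τ l))
  let I := (T ∪ Finset.univ.image a.co).biUnion fun c => (β.repr (D₁ (algebraMap K F c))).support
  have h3 : ∀ c ∈ T ∪ Finset.univ.image a.co,
      (∑ t ∈ I, β t • D t) (algebraMap K F c) = D₁ (algebraMap K F c) := fun c hc => by
    rw [der_sum_apply, ← β.linearCombination_repr (D₁ _), Finsupp.linearCombination_apply,
      Finsupp.sum_of_support_subset _ (Finset.subset_biUnion_of_mem _ hc : _ ⊆ I)
        (fun t a => a • β t) fun _ _ => zero_smul _ _]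
    refine Finset.sum_congr rfl fun t _ => ?_
    rw [hD, Algebra.smul_def, mul_comm]
    rfl
  have ha := (rep_co a).map (IsScalarTower.toAlgHom k K F)
  have h4 : lam D₁ (A.map (IsScalarTower.toAlgHom k K F) a) =
      ∑ t ∈ I, β t • fun c => algebraMap K F (lam (D₀ t) a c) := by
    simp only [← lam_map (hD _), ← lam_sum_der]
    refine (lam_tang D₁ ha).unique ha ?_
    convert lam_tang (∑ t ∈ I, β t • D t) ha using 2 with c
    exact (h3 _ (by simp)).symm
  have h5 : ∀ E : Derivation k F F,
      lam E X = lam E Y + lam E (A.map (IsScalarTower.toAlgHom k K F) a) := fun E => by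
    rw [← eq_sub_iff_add_eq.1 hsub, lam_add, lam_inc]
  have h6 : ∀ t ∈ I, ∀ x ∈ rat X.co, D t x = 0 := fun t ht => by
    rw [← lam_eq_zero_iff, h5, hD', lam_map (hD t)]
    funext c
    have h7 := congrArg (β.coord t) (congrFun ((h5 D₁).symm.trans (lam_eq_zero_iff.2 h1)) c)
    simp only [hτ, h4, Pi.add_apply, Finset.sum_apply, Pi.smul_apply, smul_eq_mul,
      IsScalarTower.algebraMap_apply k K F, mul_comm _ (algebraMap K F _), ← Algebra.smul_def,
      map_add, map_sum, map_smul, Module.Basis.coord_apply, Module.Basis.repr_self,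
      Finsupp.single_apply, mul_ite, mul_one, mul_zero, Finset.sum_ite_eq', ht, if_true,
      Pi.zero_apply, map_zero] at h7
    have h8 := congrArg (algebraMap K F) h7
    simpa only [Pi.add_apply, Pi.zero_apply, map_add, map_sum, map_mul, map_zero, mul_comm,
      IsScalarTower.algebraMap_apply k K F, Module.Basis.coord_apply, Algebra.smul_def] using h8
  have h7 := der_eq_zero (K := k) (D₁ - ∑ t ∈ I, β t • D t) (fun c => Derivation.map_algebraMap _ c)
    (fun x hx => ?_) hT
  · rw [Derivation.sub_apply, h2, der_sum_apply, sub_eq_zero] at h7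
    obtain ⟨t, ht, h8⟩ := Finset.exists_ne_zero_of_sum_ne_zero (h7 ▸ one_ne_zero)
    exact ⟨D₀ t, D t, _, hD t, h6 t ht, hD' t, right_ne_zero_of_mul h8⟩
  rw [Derivation.sub_apply, sub_eq_zero]
  rcases hx with ⟨c, hc, rfl⟩ | hx
  · exact (h3 c (Finset.mem_union_left _ hc)).symm
  · rw [h1 x hx, der_sum_apply]
    exact (Finset.sum_eq_zero fun t ht => by rw [h6 t ht x hx, mul_zero]).symm

omit [Fintype ι] in
open Matrix in
/-- The elements `(d l z ⬝ y₁) / G` and `z b / G`, where `G = D z ⬝ y₁`, generate the unit ideal of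
the ring generated by them, the normalised coordinates of `Y` and `z`, and `y₁`. -/
theorem exists_dirO [Finite ι] {D₀ : Derivation k K K} {D : Derivation k F F} {τ : Fin B.dim → K}
    (hD : ∀ c, D (algebraMap K F c) = algebraMap K F (D₀ c))
    (hτ : lam D Y = fun a => ∑ l, algebraMap K F (τ l) * algebraMap k F (σ l a))
    {κ : Type} [Fintype κ] {z y₁ : κ → F} (hz : ∀ j, z j ∈ Cl K (rat Y.co)) (h0 : z ⬝ᵥ y₁ = 0)
    (hG : (fun j => D (z j)) ⬝ᵥ y₁ ≠ 0) {y : ι → F} (hy : Rep Y y) {a : ι} (ha : y a ≠ 0) {b : κ}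
    (hb : z b ≠ 0) {w : ι ⊕ κ ⊕ κ → F}
    (hw : w = Sum.elim (fun c => y c / y a) (Sum.elim (fun j => z j / z b) y₁))
    {h : Option (Fin B.dim) → F} (hh : h = fun o =>
      o.elim (z b) (fun l => (fun j => d l (z j)) ⬝ᵥ y₁) / (fun j => D (z j)) ⬝ᵥ y₁) :
    ∃ r : Option (Fin B.dim) → F,
      (∀ j, r j ∈ Algebra.adjoin K (Set.range w ∪ Set.range h)) ∧ ∑ j, r j * h j = 1 := by
  have : CharZero K := charZero_of_injective_algebraMap (algebraMap k K).injective
  by_contra hcon
  obtain ⟨O, _, E, hE, hO, h1⟩ := exists_ib D₀ w h ⟨none, hh ▸ div_ne_zero hb hG⟩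
    fun r hr e => hcon ⟨r, hr, e⟩
  subst hw hh
  have hx : Rep Y fun c => y c / y a := by
    simpa only [div_eq_inv_mul] using hy.smul (inv_ne_zero ha).isUnit
  let φ : O →ₐ[k] F := O.val.restrictScalars k
  let x : ι → O := fun c => ⟨_, (hO (.inl c)).1⟩
  let v : ι → O := fun c => ⟨_, (hO (.inl c)).2⟩
  have h2 : ∀ f ∈ B.I, aeval x f = 0 := fun f hf => Subtype.ext <| by
    have := hx.zero f hf
    rwa [show (fun c => y c / y a) = fun c => φ (x c) from rfl, aeval_hom] at this
  obtain ⟨P, hP⟩ := exists_rep (A := B) ⟨a, by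
    rw [show x a = 1 from Subtype.ext (div_self ha)]
    exact isUnit_one⟩ h2
  obtain ⟨l, hl⟩ := exists_tang hP (v := v) fun f hf =>
    aeval_dv_eq_zero_iff.2 ⟨h2 f hf, Subtype.ext ((map_dP φ x v f).trans
      (aeval_dv_eq_zero_iff.1 ((lam_tang E hx).mem f hf)).2)⟩
  obtain ⟨c, hc⟩ := hσ.span O l (hl.isLie hP)
  have h3 : lam E Y = fun a => ∑ l, (c l : F) * algebraMap k F (σ l a) := by
    rw [(lam_tang E hx).unique hx (hl.map φ)]
    funext a
    rw [hc, map_sum]
    exact Finset.sum_congr rfl fun l _ => by rw [map_mul, φ.commutes]; rfl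
  have h4 : ∀ j, D (z j) = E (z j) + ∑ l, (algebraMap K F (τ l) - c l) * d l (z j) := fun j => by
    have := der_eq_zero
      (D - E - ∑ l, (algebraMap K F (τ l) - c l) • (d l).restrictScalars k)
      (fun c => by simp [der_sum_apply, hD, hE]) (lam_eq_zero_iff.1 (by
        funext a
        simp [lam_sub_der, lam_sum_dl hd, hτ, h3, sub_mul])) (hz j)
    simpa [der_sum_apply, sub_sub, sub_eq_zero] using this
  have h5 : ∀ j, E (z j) = z b * E (z j / z b) + E (z b) / z b * z j := fun j => by
    have := E.leibniz (z b) (z j / z b)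
    rw [mul_div_cancel₀ _ hb] at this
    rw [this, smul_eq_mul, smul_eq_mul]
    ring
  refine h1 (fun o => o.elim (∑ j, E (z j / z b) * y₁ j) fun l => algebraMap K F (τ l) - c l) ?_ ?_
  · rintro (_ | l)
    · exact sum_mem fun j _ => mul_mem (hO (.inr (.inl j))).2 (hO (.inr (.inr j))).1
    · exact sub_mem (O.algebraMap_mem _) (c l).2
  simp only [← mul_div_assoc, ← Finset.sum_div]
  rw [div_eq_one_iff_eq hG, Fintype.sum_option]
  have h6 : ∑ j, E (z b) / z b * z j * y₁ j = 0 := by
    simp only [mul_assoc, ← Finset.mul_sum]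
    exact mul_eq_zero_of_right _ h0
  calc _ = ∑ j, (z b * E (z j / z b) + E (z b) / z b * z j +
        ∑ l, (algebraMap K F (τ l) - c l) * d l (z j)) * y₁ j := by
        simp only [Option.elim, dotProduct, add_mul, Finset.sum_add_distrib, h6, add_zero,
          Finset.sum_mul, Finset.mul_sum]
        rw [Finset.sum_comm]
        congr 1 <;> refine Finset.sum_congr rfl fun j _ => ?_
        · ring
        · exact Finset.sum_congr rfl fun l _ => (mul_assoc _ _ _).symm
    _ = _ := Finset.sum_congr rfl fun j _ => by rw [← h5, ← h4]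

end dl

end Pool.Agent.Lib.MP_651af7_nt.As
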