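import Pool.Agent.Lib.MP_651af7_nt.Av.Geo

/-! Derivations and algebraic closures. -/

namespace Pool.Agent.Lib.MP_651af7_nt.As

open Pool.Agent.Lib.MP_651af7_nt.Av

variable {k K F : Type} [Field k] [Field K] [Field F] [Algebra k F] [Algebra K F]

/-- The elements of `F` that are algebraic over `K (S)`. -/
def Cl (K : Type) [Field K] [Algebra K F] (S : Set F) : IntermediateField K F :=
  ((Subalgebra.algebraicClosure (Algebra.adjoin K S) F).restrictScalars K).toIntermediateField
    fun _ hx => IsAlgebraic.inv hx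

theorem coe_cl (S : Set F) : (Cl K S : Set F) = (AlgebraicIndependent.matroid K F).closure S :=
  (AlgebraicIndependent.matroid_closure_eq (R := K) (s := S)).symm

theorem mem_cl {S : Set F} {u : F} : u ∈ Cl K S ↔ IsAlgebraic (Algebra.adjoin K S) u := Iff.rfl

theorem mem_cl' {S : Set F} {u : F} :
    u ∈ Cl K S ↔ IsAlgebraic (IntermediateField.adjoin K S) u :=
  IntermediateField.isAlgebraic_adjoin_iff.symm

theorem subset_cl (S : Set F) : S ⊆ Cl K S := fun x hx =>
  isAlgebraic_algebraMap (⟨x, Algebra.subset_adjoin hx⟩ : Algebra.adjoin K S)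

theorem cl_le {S T : Set F} (h : S ⊆ Cl K T) : Cl K S ≤ Cl K T := by
  rw [← SetLike.coe_subset_coe, coe_cl, coe_cl]
  rw [coe_cl] at h
  exact Matroid.closure_subset_closure_of_subset_closure h

theorem cl_mono {S T : Set F} (h : S ⊆ T) : Cl K S ≤ Cl K T := cl_le (h.trans (subset_cl T))

/-- Finitely many constants suffice. -/
theorem exists_cl_fin [Algebra k K] [IsScalarTower k K F] {S : Set F} {u : F} (hu : u ∈ Cl K S) :
    ∃ T : Finset K, u ∈ Cl k (algebraMap K F '' T ∪ S) := by
  have h1 : u ∈ Cl k (Set.range (algebraMap K F) ∪ S) := by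
    have h2 : ∀ x ∈ Algebra.adjoin K S, x ∈ Algebra.adjoin k (Set.range (algebraMap K F) ∪ S) :=
      fun x hx => by
        induction hx using Algebra.adjoin_induction with
        | mem x hx => exact Algebra.subset_adjoin (Or.inr hx)
        | algebraMap c => exact Algebra.subset_adjoin (Or.inl ⟨c, rfl⟩)
        | add x y _ _ hx hy => exact add_mem hx hy
        | mul x y _ _ hx hy => exact mul_mem hx hy
    exact IsAlgebraic.ringHom_of_comp_eq
      ((Algebra.adjoin K S).val.toRingHom.codRestrict _ fun x => h2 _ x.2) (RingHom.id F) hu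
      (fun x y e => Subtype.ext (congrArg Subtype.val e :)) rfl
  rw [← SetLike.mem_coe, coe_cl] at h1
  obtain ⟨I, h2, h3, -, h4⟩ := Matroid.exists_mem_finite_closure_of_mem_closure h1
  refine ⟨(h3.preimage (algebraMap K F).injective.injOn).toFinset, ?_⟩
  rw [← SetLike.mem_coe, coe_cl]
  refine Matroid.closure_mono _ (fun x hx => (h2 hx).imp_left ?_) h4
  rintro ⟨c, rfl⟩
  exact ⟨c, by simpa using hx, rfl⟩

variable [CharZero K]

theorem der_cl (D : Derivation k F F) {S : Set F} (W : Submodule (Cl K S) F)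
    (hK : ∀ c, D (algebraMap K F c) ∈ W) (hS : ∀ x ∈ S, D x ∈ W) {u : F} (hu : u ∈ Cl K S) :
    D u ∈ W := by
  have hW : ∀ a ∈ Cl K S, ∀ w ∈ W, a * w ∈ W := fun a ha w hw => W.smul_mem ⟨a, ha⟩ hw
  have h0 : IntermediateField.adjoin K S ≤ Cl K S := IntermediateField.adjoin_le_iff.2 (subset_cl S)
  have h1 : ∀ x ∈ IntermediateField.adjoin K S, D x ∈ W := fun x hx => by
    induction hx using IntermediateField.adjoin_induction with
    | mem x hx => exact hS x hx
    | algebraMap c => exact hK c
    | add x y _ _ hx hy => exact map_add D x y ▸ add_mem hx hy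
    | inv x hx' hx =>
      rw [D.leibniz_inv]
      exact hW _ (neg_mem (pow_mem (inv_mem (h0 hx')) 2)) _ hx
    | mul x y hx' hy' hx hy =>
      rw [D.leibniz]
      exact add_mem (hW _ (h0 hx') _ hy) (hW _ (h0 hy') _ hx)
  have h2 : ∀ f : Polynomial (IntermediateField.adjoin K S), Polynomial.aeval u f ∈ Cl K S ∧
      D (Polynomial.aeval u f) - Polynomial.aeval u f.derivative * D u ∈ W := fun f => by
    induction f using Polynomial.induction_on' with
    | add f g hf hg =>
      simp only [map_add, add_mul, add_sub_add_comm]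
      exact ⟨add_mem hf.1 hg.1, add_mem hf.2 hg.2⟩
    | monomial n a =>
      have e : D ((a : F) * u ^ n) - ((a : F) * n) * u ^ (n - 1) * D u = u ^ n * D a := by
        rw [D.leibniz, D.leibniz_pow]
        simp only [smul_eq_mul, nsmul_eq_mul]
        ring
      rw [Polynomial.derivative_monomial, Polynomial.aeval_monomial, Polynomial.aeval_monomial,
        map_mul (algebraMap _ F), map_natCast]
      exact ⟨mul_mem (h0 a.2) (pow_mem hu n), e ▸ hW _ (pow_mem hu n) _ (h1 _ a.2)⟩
  have h3 := (mem_cl'.1 hu).isIntegral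
  have h4 := (minpoly.irreducible h3).separable.aeval_derivative_ne_zero (minpoly.aeval _ u)
  have h5 := hW _ (inv_mem (h2 (minpoly _ u).derivative).1) _ (neg_mem (h2 (minpoly _ u)).2)
  rwa [minpoly.aeval, map_zero, zero_sub, neg_neg, inv_mul_cancel_left₀ h4] at h5

/-- A derivation that kills `K` and `S` kills the closure. -/
theorem der_eq_zero (D : Derivation k F F) {S : Set F} (hK : ∀ c, D (algebraMap K F c) = 0)
    (hS : ∀ x ∈ S, D x = 0) {u : F} (hu : u ∈ Cl K S) : D u = 0 :=
  der_cl D ⊥ hK hS hu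

/-- A derivation that maps `K` and `S` to the closure preserves the closure. -/
theorem der_mem_cl (D : Derivation k F F) {S : Set F} (hK : ∀ c, D (algebraMap K F c) ∈ Cl K S)
    (hS : ∀ x ∈ S, D x ∈ Cl K S) {u : F} (hu : u ∈ Cl K S) : D u ∈ Cl K S := by
  exact der_cl D
    { carrier := Cl K S
      add_mem' := add_mem
      zero_mem' := zero_mem _
      smul_mem' := fun a _ h => mul_mem a.2 h } hK hS hu

/-- A derivation that kills `K` and `S` and moves an element outside the closure. -/
theorem exists_der_one {S : Set F} {u : F} (hu : u ∉ Cl K S) :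
    ∃ D : Derivation K F F, (∀ x ∈ S, D x = 0) ∧ D u = 1 := by
  obtain ⟨D, hD⟩ := exists_derivation (K := IntermediateField.adjoin K S) (t := fun _ : Unit => u)
    (algebraicIndependent_unique_type_iff.2 (mt mem_cl'.2 hu)) fun _ => 1
  exact ⟨D.restrictScalars K, fun x hx =>
    D.map_algebraMap ⟨x, IntermediateField.subset_adjoin K S hx⟩, hD ()⟩

open Matrix in
omit [CharZero K] in
/-- The direction at a place of `S`. -/
theorem exists_dirS {κ : Type} [Fintype κ] [DecidableEq κ] (D : Derivation k F F)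
    {M : Matrix κ κ F} (hM : M.det ≠ 0) (hD : ∀ i j, D (M i j) = 0) (z y : κ → F) :
    ∃ η : κ → F, (∀ j, (M *ᵥ η) j =
      D ((z ᵥ* M.adjugate) j) / (z ᵥ* M.adjugate) j * (M *ᵥ y) j) ∧
      z ⬝ᵥ η = (fun j => D (z j)) ⬝ᵥ y := by
  have h0 : ∀ x ∈ Subring.closure (Set.range fun p : κ × κ => M p.1 p.2), D x = 0 := fun x hx => by
    induction hx using Subring.closure_induction with
    | mem x hx =>
      obtain ⟨p, rfl⟩ := hx
      exact hD _ _
    | zero => exact map_zero D
    | one => exact D.map_one_eq_zero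
    | add x y _ _ hx hy => rw [map_add, hx, hy, add_zero]
    | neg x _ hx => rw [map_neg, hx, neg_zero]
    | mul x y _ _ hx hy => rw [D.leibniz, hx, hy, smul_zero, smul_zero, add_zero]
  have h1 : ∀ i j, D (M.adjugate i j) = 0 := fun i j => by
    let M' : Matrix κ κ (Subring.closure (Set.range fun p : κ × κ => M p.1 p.2)) :=
      .of fun i j => ⟨M i j, Subring.subset_closure ⟨(i, j), rfl⟩⟩
    have : (M'.adjugate i j : F) = M.adjugate i j :=
      (congrFun (congrFun ((Subring.closure (Set.range fun p : κ × κ => M p.1 p.2)).subtype.map_adjugate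
        M') i) j :)
    exact h0 _ (this ▸ (M'.adjugate i j).2)
  have h2 : (fun j => D ((z ᵥ* M.adjugate) j)) = (fun j => D (z j)) ᵥ* M.adjugate := by
    funext j
    simp [vecMul, dotProduct, h1, mul_comm]
  have h3 : ∀ a b : κ → F, (a ᵥ* M.adjugate) ⬝ᵥ (M *ᵥ b) = M.det * (a ⬝ᵥ b) := fun a b => by
    rw [← dotProduct_mulVec, mulVec_mulVec, adjugate_mul, smul_mulVec, one_mulVec, dotProduct_smul,
      smul_eq_mul]
  obtain ⟨η, hη⟩ := (mulVec_surjective_iff_isUnit.2 ((isUnit_iff_isUnit_det M).2 hM.isUnit))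
    fun j => D ((z ᵥ* M.adjugate) j) / (z ᵥ* M.adjugate) j * (M *ᵥ y) j
  refine ⟨η, congrFun hη, mul_left_cancel₀ hM ?_⟩
  rw [← h3, ← h3, ← h2, hη]
  refine Finset.sum_congr rfl fun j _ => ?_
  rcases eq_or_ne ((z ᵥ* M.adjugate) j) 0 with h | h
  · simp [h]
  · rw [← mul_assoc, mul_div_cancel₀ _ h]

end Pool.Agent.Lib.MP_651af7_nt.As
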