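import Pool.Agent.Lib.MP_651af7_nt.As.Defs

/-! Numerical lemmas for the engine. -/

namespace Pool.Agent.Lib.MP_651af7_nt.As

open MvPolynomial Finset Height NumberField Matrix
open Av hiding Bad
open Es (Mo IX CX mo cx GA GC Bad Pen nv vol Tame IntV Dual)
open Rt (Pl av mu)

/-- The final numerical contradiction. -/
theorem eng_num {O P : Type} [Fintype O] [Fintype P] {w κ κ' ν e dg n hq τ : O → ℝ} {u L : P → ℝ}
    {D nh mm hs C' ε lH ρ C Γ Y Ch κr κT Cs κM : ℝ} (hD : 0 < D) (hnh : 1 ≤ nh)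
    (hw : ∀ o, 1 ≤ w o) (hκ : ∀ o, 0 ≤ κ o) (hκ' : ∀ o, κ o ≤ κ' o) (hν : ∀ o, 0 ≤ ν o)
    (hνe : ∀ o, ν o ≤ e o) (hu : ∀ p, 0 ≤ u p) (hhs : 0 ≤ hs) (hε : 0 < ε) (hρ : 0 ≤ ρ)
    (hC : 0 ≤ C) (hΓ : 1 ≤ Γ) (hκr : 0 ≤ κr) (hκT : 0 ≤ κT) (hCs : 0 ≤ Cs) (hκM : 0 ≤ κM)
    (hC' : ∀ o, C' ≤ ε * w o) (h1 : ∀ o, hq o = κr * (Γ * w o + 1))
    (h2 : ∀ o, τ o = κT * (ε * w o)) (h3 : lH ≤ Cs * (1 + mm * nh + κM * (ε * ∑ o, e o * w o)))
    (h4 : ∑ o, dg o ≤ 5 * mm * nh) (h5 : ∑ o, n o ≤ mm * nh) (h6 : ∑ o, e o * w o ≤ mm * D)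
    (h7 : ∑ p, u p * L p ≤ -(4 * D))
    (h8 : Y ≤ ∑ o, (9 * dg o * hs + κ o * hq o + ν o * (C' + ε * w o)) +
      ∑ p, u p * (lH + L p + ∑ o, (ρ * n o + C * e o * τ o + κ o * (2 * Γ * w o))) +
        ∑ o, dg o * w o)
    (h9 : ∑ o, dg o * w o ≤ Y + 2 * D + mm * nh * Ch)
    (h10 : 2 * (nh * (mm * Ch + 45 * mm * hs + (∑ p, u p) * (Cs * (1 + mm) + ρ * mm))) ≤ D)
    (h11 : 2 * (mm * (2 + (∑ p, u p) * (Cs * κM + C * κT))) * ε ≤ 1)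
    (h12 : 2 * (2 * Γ * (κr + ∑ p, u p)) * ∑ o, w o * κ' o ≤ D) : False := by
  obtain ⟨s, hs'⟩ : ∃ s, s = ∑ p, u p := ⟨_, rfl⟩
  obtain ⟨X, hX⟩ : ∃ X, X = ∑ o, e o * w o := ⟨_, rfl⟩
  obtain ⟨Z, hZ⟩ : ∃ Z, Z = ∑ o, w o * κ' o := ⟨_, rfl⟩
  have hs0 : 0 ≤ s := hs' ▸ sum_nonneg fun p _ => hu p
  have hw0 : ∀ o, 0 ≤ w o := fun o => zero_le_one.trans (hw o)
  have s1 : ∑ o, (9 * dg o * hs + κ o * hq o + ν o * (C' + ε * w o)) ≤
      9 * hs * ∑ o, dg o + 2 * Γ * κr * Z + 2 * ε * X := by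
    rw [hX, hZ, mul_sum, mul_sum, mul_sum, ← sum_add_distrib, ← sum_add_distrib]
    refine sum_le_sum fun o _ => ?_
    have e0 : 1 ≤ Γ * w o := one_le_mul_of_one_le_of_one_le hΓ (hw o)
    have e1 : hq o ≤ 2 * Γ * κr * w o := by
      rw [h1]
      linarith [mul_le_mul_of_nonneg_left e0 hκr]
    have e2 : κ o * hq o ≤ κ' o * (2 * Γ * κr * w o) :=
      (mul_le_mul_of_nonneg_left e1 (hκ o)).trans (mul_le_mul_of_nonneg_right (hκ' o)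
        (mul_nonneg (by positivity) (hw0 o)))
    have e3 : ν o * (C' + ε * w o) ≤ e o * (2 * (ε * w o)) :=
      (mul_le_mul_of_nonneg_left (by linarith [hC' o]) (hν o)).trans
        (mul_le_mul_of_nonneg_right (hνe o) (mul_nonneg zero_le_two (mul_nonneg hε.le (hw0 o))))
    linarith
  have s2 : ∑ o, (ρ * n o + C * e o * τ o + κ o * (2 * Γ * w o)) ≤
      ρ * ∑ o, n o + C * κT * ε * X + 2 * Γ * Z := by
    rw [hX, hZ, mul_sum, mul_sum, mul_sum, ← sum_add_distrib, ← sum_add_distrib]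
    refine sum_le_sum fun o _ => ?_
    have e2 := mul_le_mul_of_nonneg_right (hκ' o)
      (mul_nonneg (show 0 ≤ 2 * Γ by positivity) (hw0 o))
    rw [h2]
    linarith
  have s3 : ∑ p, u p * (lH + L p + ∑ o, (ρ * n o + C * e o * τ o + κ o * (2 * Γ * w o))) =
      s * lH + ∑ p, u p * L p +
        s * ∑ o, (ρ * n o + C * e o * τ o + κ o * (2 * Γ * w o)) := by
    simp only [hs', mul_add (u _), sum_add_distrib (f := fun p => u p * lH + u p * L p),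
      sum_add_distrib (f := fun p => u p * lH), ← sum_mul]
  rw [s3] at h8
  rw [← hs'] at h10 h11 h12
  rw [← hX] at h3 h6
  rw [← hZ] at h12
  have s4 := mul_le_mul_of_nonneg_left s2 hs0
  have s5 := mul_le_mul_of_nonneg_left h3 hs0
  have s6 := mul_le_mul_of_nonneg_left h4 hhs
  have s7 := mul_le_mul_of_nonneg_left h5 (mul_nonneg hs0 hρ)
  have s8 := mul_le_mul_of_nonneg_left h6
    (show 0 ≤ (2 + s * (Cs * κM + C * κT)) * ε by positivity)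
  have s9 := mul_le_mul_of_nonneg_right h11 hD.le
  have s10 := mul_le_mul_of_nonneg_left hnh (mul_nonneg hs0 hCs)
  linarith

theorem eng_vol {P : Type} [Fintype P] {u a : P → ℝ} {N X δ η' V D : ℝ} (hN : 0 < N)
    (hδ : 0 < δ) (hV : 0 ≤ V) (hD : 0 ≤ D) (h1 : ∑ p, u p * a p ≤ -δ) (h2 : V * D ≤ 2 * X)
    (h3 : (∑ p, u p) * η' * (4 * N) ≤ δ) (h4 : 16 * N ≤ δ * V) :
    ∑ p, u p * (a p / N * X + η' * (V * D)) ≤ -(4 * D) := by
  have hVD : 0 ≤ V * D := mul_nonneg hV hD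
  have e : ∑ p, u p * (a p / N * X + η' * (V * D)) =
      ((∑ p, u p * a p) * X + (∑ p, u p) * η' * N * (V * D)) / N := by
    rw [eq_div_iff hN.ne', sum_mul, sum_mul, sum_mul, sum_mul, sum_mul, ← sum_add_distrib]
    refine sum_congr rfl fun p _ => ?_
    field_simp
  rw [e, div_le_iff₀ hN]
  have s1 := mul_le_mul_of_nonneg_right h1 (show 0 ≤ X by linarith)
  have s2 := mul_le_mul_of_nonneg_right h3 hVD
  have s3 := mul_le_mul_of_nonneg_right h4 hD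
  have s4 := mul_le_mul_of_nonneg_left h2 hδ.le
  linarith

theorem eng_card {P O : Type} [Fintype P] [Fintype O] {l : P → ℕ} {t t' u : O → ℕ} {d : ℕ}
    {a b : ℝ} (h1 : ∀ p, (l p : ℝ) ≤ Real.exp (-a) * ∏ o, (u o : ℝ))
    (h2 : ∏ o, (t' o : ℝ) ≤ Real.exp b * ∏ o, (t o : ℝ))
    (h3 : 2 * (Fintype.card P * d : ℝ) ≤ Real.exp (a - b)) :
    2 * ((∑ p, l p) * (∏ o, t' o) * d) ≤ ∏ o, t o * u o := by
  have s1 : (∑ p, (l p : ℝ)) ≤ Fintype.card P * (Real.exp (-a) * ∏ o, (u o : ℝ)) := by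
    simpa using sum_le_sum fun p (_ : p ∈ univ) => h1 p
  have s2 := mul_le_mul s1 h2 (by positivity) (by positivity)
  have s3 := mul_le_mul_of_nonneg_right h3
    (show 0 ≤ Real.exp (-a) * Real.exp b * ((∏ o, (t o : ℝ)) * ∏ o, (u o : ℝ)) by positivity)
  have s4 : Real.exp (a - b) * (Real.exp (-a) * Real.exp b) = 1 := by
    rw [← Real.exp_add, ← Real.exp_add, ← Real.exp_zero]
    congr 1
    ring
  rw [← mul_assoc (Real.exp (a - b)), s4, one_mul] at s3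
  have s5 := mul_le_mul_of_nonneg_right s2 (Nat.cast_nonneg (α := ℝ) d)
  rw [prod_mul_distrib, ← Nat.cast_le (α := ℝ)]
  push_cast
  linarith

theorem eng_coef {O : Type} [Fintype O] {w e dg : O → ℝ} {D nh mm ε lH Cs κM tw c K : ℝ}
    (hD : 0 ≤ D) (hnh : 1 ≤ nh) (hε : 0 < ε) (hCs : 0 ≤ Cs) (hκM : 0 ≤ κM) (htw : 0 ≤ tw)
    (hc : 0 ≤ c) (h3 : lH ≤ Cs * (1 + mm * nh + κM * (ε * ∑ o, e o * w o)))
    (h4 : ∑ o, dg o ≤ 5 * mm * nh) (h5 : ∑ o, e o ≤ mm * nh) (h6 : ∑ o, e o * w o ≤ mm * D)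
    (h7 : nh * (tw * (Cs * (1 + mm)) + c * (6 * mm)) ≤ ε * D) (hK : 1 + tw * Cs * κM * mm ≤ K) :
    tw * lH + c * ∑ o, (dg o + e o) ≤ ε * (K * D) := by
  rw [sum_add_distrib]
  have s1 := mul_le_mul_of_nonneg_left h3 htw
  have s2 := mul_le_mul_of_nonneg_left (add_le_add h4 h5) hc
  have s3 := mul_le_mul_of_nonneg_left h6 (show 0 ≤ tw * Cs * κM * ε by positivity)
  have s4 := mul_le_mul_of_nonneg_left hnh (mul_nonneg htw hCs)
  have s5 := mul_le_mul_of_nonneg_right hK (mul_nonneg hε.le hD)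
  linarith

end Pool.Agent.Lib.MP_651af7_nt.As
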