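import Pool.Agent.Lib.MP_651af7_nt.As.EngA
import Pool.Agent.Lib.MP_651af7_nt.As.EngB

/-! The engine. -/

namespace Pool.Agent.Lib.MP_651af7_nt.As

open MvPolynomial Finset Height NumberField Matrix
open Av hiding Bad
open Es (Mo IX CX mo cx GA GC Bad Pen nv vol Tame IntV Dual)
open Rt (Pl av mu)

variable {k ι κ : Type} [Field k] [NumberField k] [Fintype ι] [Fintype κ] [DecidableEq κ]

theorem engine {B : AV k ι} {g : ℕ} (F : FB B g) {ϱ : ι → MvPowerSeries (Fin g) k}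
    (hϱ : B.Par g ϱ) {S : Finset (FinitePlace k)} (r : ℕ) (f : Fix S ι κ) (hj : f.j₁ ≠ f.j₀)
    (hΓ : 1 ≤ f.Γ) (hc : ∀ p l, |f.cc p l| ≤ f.Γ) {δ : ℝ} (hδ : 0 < δ) (hv : vol f.cc ≤ -δ) :
    ∃ (m B' : ℕ) (θ ζ ε₀ : ℝ), 0 < θ ∧ 0 < ζ ∧ 0 < ε₀ ∧ ∀ ε : ℝ, 0 < ε → ε ≤ ε₀ → ∃ W : ℝ,
      ∀ (b : Fin (m + 1) → Bk B S κ g r) (j : Fin (m + 1) → ℕ),
        (∀ o, (b o).Good (lin ϱ) f ε) → (∀ o, W ≤ AV.ht (b o).P) →
        (∀ o o', o ≠ o' → AV.ht (b o).P ≤ ζ * AV.ht (b o').P ∨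
          AV.ht (b o').P ≤ ζ * AV.ht (b o).P) →
        (∀ o, o ≠ 0 → AV.Close θ (j o) (b 0).P (b o).P) →
        ∃ o, (b o).Exit B' (B' * ε * AV.ht (b o).P) := by
  classical
  have : Nonempty κ := ⟨f.j₀⟩
  have hΓ0 : 0 < f.Γ := by linarith
  obtain ⟨Cs, hCs, hsieg⟩ := siegel F κ (Pl S) f.eM
  obtain ⟨CG, hGP⟩ := GP_le F κ
  obtain ⟨CL, hglob⟩ := eng_glob κ f.eM
  obtain ⟨κM, hκM, hpl⟩ := exists_ad_pl k ι f.B₀
  obtain ⟨κr, hκr, hrad⟩ := exists_rad k (ι ⊕ κ) r f.B₀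
  obtain ⟨q', C', aq', hq'⟩ := hϱ.exists_rad
  obtain ⟨Ch, hCh, hadd⟩ := B.ht_add_ge
  obtain ⟨N, hN⟩ : ∃ N : ℝ, N = Fintype.card κ := ⟨_, rfl⟩
  have hN0 : 0 < N := by rw [hN]; exact_mod_cast Fintype.card_pos
  obtain ⟨u, hu⟩ : ∃ u : ℝ, u = ∑ p : Pl S, (mu p : ℝ) := ⟨_, rfl⟩
  have hu0 : 0 ≤ u := by rw [hu]; positivity
  obtain ⟨η', hη'0, hη'⟩ : ∃ η' : ℝ, 0 < η' ∧ u * η' * (4 * N) ≤ δ := by
    refine ⟨δ / (4 * N * (u + 1)), by positivity, ?_⟩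
    rw [mul_div_assoc', div_mul_eq_mul_div, div_le_iff₀ (by positivity)]
    nlinarith [mul_pos hδ hN0]
  obtain ⟨a, ha⟩ : ∃ a : ℝ, a = η' ^ 2 / (16 * f.Γ ^ 2) := ⟨_, rfl⟩
  have ha0 : 0 < a := by rw [ha]; positivity
  obtain ⟨Eg, hEg⟩ : ∃ E : ℝ, E = g * (18 * (f.eM * (Fintype.card κ - 1) : ℕ) + 2) := ⟨_, rfl⟩
  have hEg0 : 0 ≤ Eg := by rw [hEg]; positivity
  obtain ⟨η, hη0, hη1, hη2⟩ : ∃ η : ℝ, 0 < η ∧ 2 * η ≤ 1 ∧ Eg * η ≤ a := by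
    refine ⟨min (1 / 2) (a / (Eg + 1)), by positivity,
      by linarith [min_le_left (1 / 2) (a / (Eg + 1))], ?_⟩
    have h1 := (le_div_iff₀ (by positivity)).1 (min_le_right (1 / 2) (a / (Eg + 1)))
    have h2 : 0 < min (1 / 2) (a / (Eg + 1)) := by positivity
    linarith
  obtain ⟨m, hm⟩ := exists_nat_ge (max (2 * (Fintype.card (Pl S) * Module.finrank ℚ k : ℝ) / a)
    (16 * N / (δ * η)))
  rw [max_le_iff, div_le_iff₀ ha0, div_le_iff₀ (by positivity)] at hm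
  obtain ⟨mm, hmm⟩ : ∃ mm : ℝ, mm = (m + 1 : ℕ) := ⟨_, rfl⟩
  have hmm1 : (m : ℝ) + 1 = mm := by rw [hmm]; push_cast; rfl
  have hmm0 : 1 ≤ mm := by linarith [Nat.cast_nonneg (α := ℝ) m]
  obtain ⟨M, hM⟩ := exists_nat_ge (max (max (4 / η) (2 * F.dl / η)) (2 * F.em))
  simp only [max_le_iff, div_le_iff₀ hη0] at hM
  have hM0 : 0 < M := Nat.pos_of_ne_zero fun h => by
    have := hM.1.1
    rw [h, Nat.cast_zero, zero_mul] at this
    linarith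
  obtain ⟨tw, htw⟩ : ∃ tw : ℝ, tw = totalWeight k := ⟨_, rfl⟩
  have htw0 : 0 ≤ tw := by rw [htw]; positivity
  obtain ⟨κ₁, hκ₁⟩ : ∃ c : ℝ, c = Fintype.card (Pl S × κ × κ) * (2 * κM) + 1 := ⟨_, rfl⟩
  have hκ₁1 : 1 ≤ κ₁ := by rw [hκ₁]; exact le_add_of_nonneg_left (by positivity)
  have hκ₁0 : 0 ≤ κ₁ := by linarith
  obtain ⟨K, hK⟩ : ∃ K : ℝ, K = 4 * mm + 9 + tw * Cs * κ₁ * mm := ⟨_, rfl⟩
  have hK' : 0 ≤ tw * Cs * κ₁ * mm := by positivity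
  have hK0 : 0 < K := by linarith
  obtain ⟨A₃, hA₃⟩ : ∃ A : ℝ, A = 2 * (2 * f.Γ * (κr + u)) := ⟨_, rfl⟩
  have hA₃0 : 0 ≤ A₃ := by rw [hA₃]; positivity
  obtain ⟨B', ζ, hζ, hnv⟩ := nvk k (ι ⊕ κ) (Fin (m + 1)) r f.B₀ (θ := 1 / ((A₃ + 1) * K))
    (by positivity)
  obtain ⟨A₂, hA₂⟩ : ∃ A : ℝ, A = 2 * (mm * (2 + u * (Cs * κ₁ + CL * κ₁))) := ⟨_, rfl⟩
  have hA₂0 : 0 ≤ A₂ := by rw [hA₂]; positivity
  refine ⟨m, B', 1 / (2 * mm), ζ, 1 / (A₂ + 1), by positivity, hζ, by positivity, fun ε hε hε0 => ?_⟩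
  rw [le_div_iff₀ (by positivity)] at hε0
  have hε1 : ε ≤ 1 := by nlinarith
  obtain ⟨Wn, hWn⟩ := hnv ε hε
  refine ⟨max (max Wn 1) (max (max (1 / ε) (C' / ε))
    (max (2 * (mm * Ch + 45 * mm * F.hs + u * (Cs * (1 + mm) + (F.ρ + g + 1 : ℕ) * mm)))
      ((tw * (Cs * (1 + mm)) + CG * F.hs * (6 * mm)) / ε))), fun b j hG hW hr hC => ?_⟩
  simp only [max_le_iff, div_le_iff₀' hε, forall_and] at hW
  obtain ⟨⟨hW0, hW1⟩, ⟨hW2, hW3⟩, hW4, hW5⟩ := hW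
  obtain ⟨w, hw⟩ : ∃ w : Fin (m + 1) → ℝ, w = fun o => AV.ht (b o).P := ⟨_, rfl⟩
  have hw' : ∀ o, AV.ht (b o).P = w o := fun o => by rw [hw]
  simp only [hw'] at hW0 hW1 hW2 hW3 hW4 hW5 hr ⊢
  have hw0 : ∀ o, 0 < w o := fun o => zero_lt_one.trans_le (hW1 o)
  obtain ⟨J, hJ⟩ : ∃ J, ∀ o, j o ≤ J := ⟨univ.sup j, fun o => le_sup (mem_univ o)⟩
  obtain ⟨nh, hnh⟩ : ∃ nh : ℝ, nh = (M * 4 ^ J : ℕ) := ⟨_, rfl⟩
  have hnh1 : 1 ≤ nh := by rw [hnh]; exact_mod_cast (show 0 < M * 4 ^ J by positivity)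
  obtain ⟨D₀, hD₀⟩ : ∃ D : ℝ, D = nh * w 0 := ⟨_, rfl⟩
  have hD1 : w 0 ≤ D₀ := hD₀ ▸ le_mul_of_one_le_left (hw0 0).le hnh1
  have hD0 : 0 < D₀ := (hw0 0).trans_le hD1
  obtain ⟨Z, hZh, hZj, hZ0, hn, hnM, hZe⟩ : ∃ Z : Cf (m + 1), Z.h = 0 ∧ Z.j = j ∧
      (Z.n Z.h : ℝ) = nh ∧ (∀ o, o ≠ Z.h → Z.n o * 4 ^ Z.j o = Z.n Z.h) ∧ (∀ o, M ≤ Z.n o) ∧
      ∀ o, Z.e o = ⌊η * D₀ / w o⌋₊ := by
    refine ⟨⟨0, j, fun o => M * 4 ^ (if o = 0 then J else J - j o), fun o => ⌊η * D₀ / w o⌋₊⟩,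
      rfl, rfl, by simp [hnh], fun o ho => ?_, fun o => Nat.le_mul_of_pos_right _ (by positivity),
      fun _ => rfl⟩
    have ho' : o ≠ 0 := ho
    simp only [if_neg ho', if_true]
    rw [mul_assoc, ← pow_add, Nat.sub_add_cancel (hJ o)]
  have hC' : ∀ o, o ≠ Z.h → AV.Close (1 / (2 * mm)) (Z.j o) (b Z.h).P (b o).P := by
    rw [hZh, hZj]
    exact hC
  have hDZ : (Z.n Z.h : ℝ) * w Z.h = D₀ := by rw [hZ0, hZh, hD₀]
  have c1 : ∀ o, o ≠ Z.h → w o ≤ 2 * (4 ^ Z.j o * w Z.h) := fun o ho => by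
    simpa only [hw'] using (hC' o ho).2.1
  have c2 : ∀ o, o ≠ Z.h → 4 ^ Z.j o * w Z.h ≤ 2 * w o := fun o ho => by
    simpa only [hw'] using (hC' o ho).2.2
  have hnM' : ∀ o, (M : ℝ) ≤ Z.n o := fun o => by exact_mod_cast hnM o
  have hn1 : ∀ o, F.em ≤ Z.n o ∧ 1 ≤ Z.n o := fun o =>
    ⟨le_trans (by exact_mod_cast (by linarith [hM.2, Nat.cast_nonneg (α := ℝ) F.em] :
      (F.em : ℝ) ≤ M)) (hnM o), hM0.trans_le (hnM o)⟩
  have e1 : ∀ o, Z.e o * w o ≤ η * D₀ := fun o => by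
    rw [hZe, ← le_div_iff₀ (hw0 o)]
    exact Nat.floor_le (div_nonneg (by positivity) (hw0 o).le)
  have e2 : ∀ o, η * D₀ ≤ 2 * (Z.e o * w o) := fun o => by
    have h1 := (div_lt_iff₀ (hw0 o)).1 (Nat.lt_floor_add_one (η * D₀ / w o))
    have h2 := Z.n_mul_le hn (hw0 _).le c1 o
    have h3 := mul_le_mul_of_nonneg_right (hnM' o) (hw0 o).le
    have h4 := mul_le_mul_of_nonneg_right hM.1.1 (hw0 o).le
    have h5 := mul_le_mul_of_nonneg_left (h3.trans h2) hη0.le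
    rw [hDZ] at h5
    rw [hZe]
    linarith
  have e3 : ∀ o, (Z.e o : ℝ) ≤ 2 * η * Z.n o := fun o => by
    have h1 := mul_le_mul_of_nonneg_left (Z.le_n_mul hn (hw0 _).le c2 o) hη0.le
    rw [hDZ] at h1
    exact le_of_mul_le_mul_right (by linarith [e1 o]) (hw0 o)
  have e4 : ∀ o, Z.e o ≤ Z.n o := fun o => by
    exact_mod_cast (e3 o).trans (mul_le_of_le_one_left (Nat.cast_nonneg _) hη1)
  have e5 : ∑ o, (Z.n o : ℝ) ≤ mm * nh := by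
    have := sum_le_sum fun o (_ : o ∈ univ) => (Nat.cast_le (α := ℝ)).2 (Z.n_le hn o)
    rwa [sum_const, card_univ, Fintype.card_fin, nsmul_eq_mul, ← hmm, hZ0] at this
  have e6 : ∑ o, (Z.e o : ℝ) ≤ mm * nh :=
    (sum_le_sum fun o _ => (Nat.cast_le (α := ℝ)).2 (e4 o)).trans e5
  have e7 : ∑ o, Z.e o * w o ≤ mm * D₀ := by
    have := sum_le_sum fun o (_ : o ∈ univ) =>
      (e1 o).trans (mul_le_of_le_one_left hD0.le (by linarith : η ≤ 1))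
    rwa [sum_const, card_univ, Fintype.card_fin, nsmul_eq_mul, ← hmm] at this
  have e8 : mm * η * D₀ ≤ 2 * ∑ o, Z.e o * w o := by
    have := sum_le_sum fun o (_ : o ∈ univ) => e2 o
    rwa [sum_const, card_univ, Fintype.card_fin, nsmul_eq_mul, ← hmm, ← mul_sum,
      ← mul_assoc] at this
  have e9 : ∑ o, (Z.dg o : ℝ) ≤ 5 * mm * nh := by
    rw [hmm, ← hZ0]
    exact_mod_cast Z.sum_dg hn
  choose s as hs using fun o (t : Pl S × κ × κ) => hpl ((b o).M t.1 t.2.1 t.2.2) (ε * w o)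
    (mul_nonneg hε.le (hw0 o).le) (hw' o ▸ (hG o).smM _ _ _)
  choose s' as' hs' using fun o => esize_fam' (as o)
  have as'' : ∀ o, Ad (s' o) (κ₁ * (ε * w o)) := fun o => (as' o).mono (by
    have h1 := mul_le_mul_of_nonneg_left (hW2 o)
      (show 0 ≤ Fintype.card (Pl S × κ × κ) * κM by positivity)
    rw [hκ₁]
    linarith [hW2 o])
  obtain ⟨L, hL⟩ : ∃ L : Pl S → ℝ, L = fun p =>
    (∑ l, f.cc p l) / N * ∑ o, Z.e o * w o + η' * mm * (η * D₀) := ⟨_, rfl⟩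
  obtain ⟨c, hc0, hcH, hV⟩ := hsieg (m + 1) Z (fun o => (b o).M)
    (fun p => Bad Z.e w (f.cc p) (L p)) s' _ hn1 hn e4 (fun o => (hG o).hom) as''
    (fun o p i j v => (hs o (p, i, j) v).trans (hs' o _ v))
    (eng_card (a := η' ^ 2 * mm / (8 * f.Γ ^ 2)) (b := Eg * η * mm)
      (fun p => by
        rw [hL, hN, hmm]
        exact Es.card_bad Z.e w (f.cc p) (by positivity) hΓ0 hη'0.le (fun o => (hw0 o).le) e1
          (hc p))
      (by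
        rw [hEg, hmm]
        exact count F Z _ hη0.le hn (fun o => (hn1 o).2)
          (fun o => by exact_mod_cast hM.2.trans (hnM' o))
          (fun o => hM.1.2.trans (by
            rw [mul_comm]
            exact mul_le_mul_of_nonneg_left (hnM' o) hη0.le)) e3)
      (by
        have h1 : η' ^ 2 * mm / (8 * f.Γ ^ 2) = 2 * (a * mm) := by
          rw [ha]
          field_simp
          ring
        have h2 := mul_le_mul_of_nonneg_right hη2 (zero_le_one.trans hmm0)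
        have h3 : m * a + a = a * mm := by rw [← hmm1]; ring
        rw [h1]
        linarith [Real.add_one_le_exp (2 * (a * mm) - Eg * η * mm), hm.1]))
  obtain ⟨lH, hlH⟩ : ∃ lH, lH = Cs * (1 + mm * nh + κ₁ * (ε * ∑ o, Z.e o * w o)) := ⟨_, rfl⟩
  have hlH0 : 0 ≤ lH := by
    have : 0 ≤ ∑ o, Z.e o * w o := sum_nonneg fun o _ => mul_nonneg (Nat.cast_nonneg _) (hw0 o).le
    rw [hlH]
    positivity
  have hcH' : ∀ t, |(c t : ℝ)| ≤ Real.exp lH := fun t => (hcH t).trans (le_of_eq (by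
    rw [hlH, hZ0, ← hmm, mul_sum, mul_sum]
    congr 3
    exact sum_congr rfl fun o _ => by ring))
  obtain ⟨D, rfl, rfl, hfit, hok⟩ := exists_dat F hϱ Z hj hG hn1
  choose q aq hq using fun o => hrad (b o).C (b o).x (D.ξ o) (f.Γ * w o) (hG o).atx (hfit.br o)
    (hw' o ▸ (hG o).htx) fun a => ⟨((hG o).smφ a).1, fun μ => (((hG o).smφ a).2 μ).trans
      (hw' o ▸ mul_le_mul_of_nonneg_right (hε1.trans hΓ) (AV.ht_nonneg _))⟩
  have key := hfit.lead hok hG hc0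
    (Sm := fun μ => ∑ o, w o * bdeg μ o < 1 / ((A₃ + 1) * K) * (K * D₀))
    (Out := ∃ o, (b o).Exit B' (B' * ε * w o)) fun β hβ => by
      have aG := (ad_E (k := k) (Real.one_le_exp hlH0)).mul
        (ad_prod univ fun o _ => F.ad.pow (CG * (D.dg o + D.e o)))
      refine hWn w (fun o => (b o).C) (fun o => (b o).x) D.ξ hW0 hr (fun o => (hG o).atx) hfit.br
        (fun o a => hw' o ▸ (hG o).smφ a) _ _ _
        (((hW0 0).trans hD1).trans (le_mul_of_one_le_left hD0.le (by linarith)))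
        (fun μ hμ p => ?_) (aG.mono ?_)
        (fun μ v _ => hGP _ _ _ D c β v _ hn1 (Real.one_le_exp hlH0) hcH' μ) hβ
      · have h1 : (μ p : ℝ) ≤ 2 * D.dg p.1 + D.e p.1 := by
          exact_mod_cast D.GP_deg F hn1 c β μ hμ p
        have h2 := mul_le_mul_of_nonneg_left h1 (hw0 p.1).le
        have h3 := D.toCf.dg_mul_le hn (hw0 _).le c1 p.1
        have h4 := (e1 p.1).trans (mul_le_of_le_one_left hD0.le (by linarith : η ≤ 1))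
        have h5 := mul_nonneg hK' hD0.le
        rw [hDZ, ← hmm] at h3
        rw [hK]
        linarith
      · rw [Real.log_exp, ← htw]
        refine le_trans (le_of_eq ?_) (eng_coef (c := CG * F.hs) hD0.le hnh1 hε hCs hκ₁0 htw0
          (mul_nonneg (Nat.cast_nonneg _) F.ad.nonneg) hlH.le e9 e6 e7 ?_ (by linarith))
        · rw [mul_sum]
          congr 1
          exact sum_congr rfl fun o _ => by push_cast; ring
        · rw [hD₀, mul_left_comm ε]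
          exact mul_le_mul_of_nonneg_left (hW5 0) (zero_le_one.trans hnh1)
  refine key.resolve_left ?_
  rintro ⟨μ, μ', σ, ν, Ψ, k1, k2, k3, k4, k5⟩
  have h8 := hglob k ι S B g r (m + 1) F D f b ε c μ σ ν Ψ L lH C' _ (fun o => κ₁ * (ε * w o)) q q'
    rfl hfit hok hG k4 k5 hc (hw ▸ hV) hlH0 hcH' aq aq' hq hq'
    (fun o => one_le_mul_of_one_le_of_one_le hκ₁1 (hW2 o))
    (fun o => hw' o ▸ le_mul_of_one_le_left (mul_nonneg hε.le (AV.ht_nonneg _)) hκ₁1)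
    fun o p i j => ((hs o (p, i, j) _).trans (hs' o _ _)).trans (ad_le_exp (as'' o) p)
  have h9 := D.toCf.sum_dg_sub hn (hw0 _).le c1 (θ := 1 / (2 * mm)) (by positivity) hCh
    (p := fun o => AV.ht ((b o).P + 2 ^ D.j o • (b D.h).P)) fun o ho => by
      simpa only [hw'] using hadd _ _ _ _ (hC' o ho)
  rw [hDZ, hZ0, ← hmm, show 1 + 2 * (1 / (2 * mm)) * mm = 2 by field_simp; ring] at h9
  simp only [hw', Nat.cast_mul, Nat.cast_ofNat] at h8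
  refine eng_num hD0 hnh1 hW1 (fun _ => Nat.cast_nonneg _)
    (fun o => Nat.cast_le.2 (bdeg_mono k1 o)) (fun _ => Nat.cast_nonneg _)
    (fun o => Nat.cast_le.2 (k3 o)) (fun _ => Nat.cast_nonneg _) F.ad.nonneg hε (Nat.cast_nonneg _)
    (Nat.cast_nonneg _) hΓ hκr hκ₁0 hCs hκ₁0 hW3 (fun _ => rfl) (fun _ => rfl) hlH.le e9 e5 e7 ?_
    h8 h9 ?_ ?_ ?_
  · have := eng_vol (u := fun p : Pl S => (mu p : ℝ)) (a := fun p => ∑ l, f.cc p l) (η' := η')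
      hN0 hδ (V := mm * η) (by positivity) hD0.le hv e8 (hu ▸ hη')
      (by nlinarith [hm.2, mul_pos hδ hη0])
    rw [hL]
    simpa only [mul_assoc] using this
  · rw [← hu, hD₀, mul_left_comm]
    exact mul_le_mul_of_nonneg_left (hW4 0) (by linarith)
  · rw [← hu, ← hA₂]
    linarith
  · rw [← hu, ← hA₃]
    have h1 : 1 / ((A₃ + 1) * K) * (K * D₀) = D₀ / (A₃ + 1) := by field_simp
    rw [h1, lt_div_iff₀ (by positivity)] at k2
    have h2 : 0 ≤ ∑ o, w o * bdeg μ' o :=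
      sum_nonneg fun o _ => mul_nonneg (hw0 o).le (Nat.cast_nonneg _)
    linarith

end Pool.Agent.Lib.MP_651af7_nt.As
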