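import Pool.Agent.Lib.MP_651af7_nt.As.Defs
import Pool.Agent.Lib.MP_651af7_nt.Av.Noe
import Pool.Agent.Lib.MP_651af7_nt.Av.SeqS
import Pool.Agent.Lib.MP_651af7_nt.Av.ERd
import Pool.Agent.Lib.MP_651af7_nt.Av.ERed
import Pool.Agent.Lib.MP_651af7_nt.Av.ESize

/-! Existence of a free basis over linear parameters. -/

namespace Pool.Agent.Lib.MP_651af7_nt.As

open MvPolynomial Finset Height NumberField Matrix
open Av hiding Bad
open Es (Mo IX CX mo cx GA GC Bad Pen nv vol Tame IntV Dual)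
open Rt (Pl av mu)

variable {k ι : Type} [Field k] [NumberField k] [Fintype ι]

/- `exists_nn` with `K = k`, `e = 1`, all `𝒢 i` the image of `fun a => X a ^ 1`
(`eq_zero_of_pow`), `IK_self`. -/
theorem exists_lin (B : AV k ι) : ∃ (ρ : ℕ) (u : Fin (B.dim + 1) → MvPolynomial ι k)
    (c : ι → Fin ρ → MvPolynomial (Fin (B.dim + 1)) k), NN B.I 1 ρ u c := by
  classical
  obtain ⟨γ, ρ, c, h, -⟩ := B.exists_nn k (e := 1) le_rfl
    (fun _ => univ.image fun a => (X a ^ 1 : MvPolynomial ι k))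
    (fun _ f hf => by
      obtain ⟨a, -, rfl⟩ := mem_image.1 hf
      rw [pow_one]
      exact isHomogeneous_X k a)
    fun _ F _ _ _ _ w hw _ hf => absurd (AV.eq_zero_of_pow hf) hw
  exact ⟨ρ, _, c, B.IK_self ▸ h⟩

/- `tr_gen` with `K = k` gives `x` with ideal `B.I` and `td k (range x) = dim + 1`.  Each `x a` is
integral over `adjoin k (range fun l => aeval x (u l))`, so (`td_le_of_isAlgebraic`) these `dim + 1`
elements have `td = dim + 1`.  A basis among them (`exists_td_basis_range`) has `dim + 1` members, so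
its index map is bijective and the family is algebraically independent. -/
theorem nn_indep {B : AV k ι} {ρ : ℕ} {u : Fin (B.dim + 1) → MvPolynomial ι k}
    {c : ι → Fin ρ → MvPolynomial (Fin (B.dim + 1)) k} (h : NN B.I 1 ρ u c)
    (r : MvPolynomial (Fin (B.dim + 1)) k) (hr : aeval u r ∈ B.I) : r = 0 := by
  obtain ⟨M, _, -, _, -, x, hx, -, -, hd⟩ := B.tr_gen k
  rw [B.IK_self] at hx
  set y : Fin (B.dim + 1) → M := fun l => aeval x (u l) with hy
  have hc : ∀ p : MvPolynomial (Fin (B.dim + 1)) k, aeval x (aeval u p) = aeval y p := fun p =>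
    comp_aeval_apply _ _ _
  have h1 : td k (Set.range x) ≤ td k (Set.range y) := td_le_of_isAlgebraic (by
    rintro _ ⟨a, rfl⟩
    have hm : ∀ l, aeval y (c a l) ∈ Algebra.adjoin k (Set.range y) := fun l => by
      rw [Algebra.adjoin_range_eq_range_aeval]
      exact ⟨_, rfl⟩
    refine ⟨Polynomial.X ^ ρ - ∑ l : Fin ρ, Polynomial.C
      (⟨_, hm l⟩ : Algebra.adjoin k (Set.range y)) * Polynomial.X ^ (l : ℕ),
      (Polynomial.monic_X_pow_sub (Polynomial.degree_sum_fin_lt _)).ne_zero, ?_⟩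
    have h2 := (hx _).2 (h.rel a)
    simp only [map_sub, map_sum, map_mul, map_pow, aeval_X, hc] at h2
    simp only [map_sub, map_sum, map_mul, map_pow, Polynomial.aeval_X, Polynomial.aeval_C]
    exact h2)
  obtain ⟨σ, j, hj, h2, h3, -⟩ := exists_td_basis_range k y
  have : Finite σ := Finite.of_injective j hj
  have := Fintype.ofFinite σ
  rw [hd, ← h3, ENat.card_eq_coe_fintype_card] at h1
  have h4 : B.dim + 1 ≤ Fintype.card σ := by exact_mod_cast h1
  have h5 : Function.Bijective j := (Fintype.bijective_iff_injective_and_card j).2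
    ⟨hj, le_antisymm (Fintype.card_le_of_injective j hj) (by simpa using h4)⟩
  have h6 : AlgebraicIndependent k y :=
    (algebraicIndependent_equiv (Equiv.ofBijective j h5)).1 h2
  exact algebraicIndependent_iff.1 h6 r (by rw [← hc]; exact (hx _).2 hr)

omit [NumberField k] [Fintype ι] in
theorem fba_comp {g : ℕ} {u : Fin (g + 1) → MvPolynomial ι k} (hu : ∀ l, (u l).IsHomogeneous 1)
    {m : MvPolynomial ι k} {e : ℕ} (hm : m.IsHomogeneous e) (n : ℕ)
    (c : MvPolynomial (Fin (g + 1)) k) : homogeneousComponent n (aeval u c * m) =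
      aeval u (if e ≤ n then homogeneousComponent (n - e) c else 0) * m := by
  induction c using MvPolynomial.induction_on' with
  | monomial β a =>
    have h1 : (monomial β a : MvPolynomial (Fin (g + 1)) k).IsHomogeneous β.degree :=
      isHomogeneous_monomial _ rfl
    rw [homogeneousComponent_of_mem ((h1.aeval u hu).mul hm), homogeneousComponent_of_mem h1]
    split_ifs
    · rfl
    · omega
    · omega
    · omega
    · simp
    · simp
  | add p q hp hq =>
    rw [map_add, add_mul, map_add, hp, hq]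
    split_ifs
    · rw [map_add, map_add, add_mul]
    · simp

omit [NumberField k] [Fintype ι] in
theorem fba_hom {J : Ideal (MvPolynomial ι k)}
    (hJ : ∀ P ∈ J, ∀ d, homogeneousComponent d P ∈ J) {g : ℕ}
    {u : Fin (g + 1) → MvPolynomial ι k} (hu : ∀ l, (u l).IsHomogeneous 1) (S : Finset (ι →₀ ℕ))
    (ω : ι →₀ ℕ) {δ : MvPolynomial (Fin (g + 1)) k} (hδ : δ ≠ 0)
    {r : (ι →₀ ℕ) → MvPolynomial (Fin (g + 1)) k}
    (h : aeval u δ * monomial ω 1 - ∑ a ∈ S, aeval u (r a) * monomial a 1 ∈ J) :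
    ∃ (d : ℕ) (δ' : MvPolynomial (Fin (g + 1)) k) (r' : (ι →₀ ℕ) → MvPolynomial (Fin (g + 1)) k),
      δ'.IsHomogeneous d ∧ δ' ≠ 0 ∧
      (∀ a, r' a = 0 ∨ (a.degree ≤ d + ω.degree ∧
        (r' a).IsHomogeneous (d + ω.degree - a.degree))) ∧
      aeval u δ' * monomial ω 1 - ∑ a ∈ S, aeval u (r' a) * monomial a 1 ∈ J := by
  obtain ⟨d, hd⟩ : ∃ d, homogeneousComponent d δ ≠ 0 := by
    by_contra hc
    push Not at hc
    exact hδ (by rw [← sum_homogeneousComponent δ]; simp [hc])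
  refine ⟨d, homogeneousComponent d δ, fun a => if a.degree ≤ d + ω.degree then
    homogeneousComponent (d + ω.degree - a.degree) (r a) else 0,
    homogeneousComponent_isHomogeneous d δ, hd, fun a => ?_, ?_⟩
  · by_cases ha : a.degree ≤ d + ω.degree
    · refine Or.inr ⟨ha, ?_⟩
      beta_reduce
      rw [if_pos ha]
      exact homogeneousComponent_isHomogeneous _ _
    · exact Or.inl (if_neg ha)
  · have h1 := hJ _ h (d + ω.degree)
    rw [map_sub, map_sum, fba_comp hu (isHomogeneous_monomial (1 : k) rfl),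
      if_pos (Nat.le_add_left _ _), Nat.add_sub_cancel,
      Finset.sum_congr rfl fun a _ => fba_comp hu (isHomogeneous_monomial (1 : k) rfl) _ _] at h1
    exact h1

omit [NumberField k] [Fintype ι] in
theorem fba_max {J : Ideal (MvPolynomial ι k)} {g : ℕ} {u : Fin (g + 1) → MvPolynomial ι k}
    (hi : ∀ r : MvPolynomial (Fin (g + 1)) k, aeval u r ∈ J → r = 0) (Ω : Finset (ι →₀ ℕ))
    (h0 : 0 ∈ Ω) : ∃ S : Finset (ι →₀ ℕ), 0 < S.card ∧
      (∀ r : (ι →₀ ℕ) → MvPolynomial (Fin (g + 1)) k,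
        ∑ a ∈ S, aeval u (r a) * monomial a 1 ∈ J → ∀ a ∈ S, r a = 0) ∧
      ∀ ω ∈ Ω, ∃ (δ : MvPolynomial (Fin (g + 1)) k)
        (r : (ι →₀ ℕ) → MvPolynomial (Fin (g + 1)) k), δ ≠ 0 ∧
        aeval u δ * monomial ω 1 - ∑ a ∈ S, aeval u (r a) * monomial a 1 ∈ J := by
  classical
  obtain ⟨S, hS, hmax⟩ := Finset.exists_max_image (Ω.powerset.filter fun S =>
    ∀ r : (ι →₀ ℕ) → MvPolynomial (Fin (g + 1)) k,
      ∑ a ∈ S, aeval u (r a) * monomial a 1 ∈ J → ∀ a ∈ S, r a = 0) Finset.card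
    ⟨∅, Finset.mem_filter.2 ⟨Finset.empty_mem_powerset _, fun _ _ a ha => absurd ha (by simp)⟩⟩
  obtain ⟨h1, h2⟩ := Finset.mem_filter.1 hS
  refine ⟨S, ?_, h2, fun ω hω => ?_⟩
  · refine lt_of_lt_of_le (by simp) (hmax {0} (Finset.mem_filter.2
      ⟨Finset.mem_powerset.2 (Finset.singleton_subset_iff.2 h0), fun r hr a ha => ?_⟩))
    rw [Finset.mem_singleton.1 ha]
    exact hi _ (by simpa using hr)
  · by_cases hωS : ω ∈ S
    · refine ⟨1, fun a => if a = ω then 1 else 0, one_ne_zero, ?_⟩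
      rw [Finset.sum_eq_single_of_mem ω hωS fun a _ ha => by simp [ha]]
      simp
    · have h3 : ¬ ∀ r : (ι →₀ ℕ) → MvPolynomial (Fin (g + 1)) k,
          ∑ a ∈ insert ω S, aeval u (r a) * monomial a 1 ∈ J → ∀ a ∈ insert ω S, r a = 0 := by
        intro h
        have := hmax (insert ω S) (Finset.mem_filter.2 ⟨Finset.mem_powerset.2
          (Finset.insert_subset hω (Finset.mem_powerset.1 h1)), h⟩)
        rw [Finset.card_insert_of_notMem hωS] at this
        omega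
      push Not at h3
      obtain ⟨r, hr, a, ha, ha'⟩ := h3
      rw [Finset.sum_insert hωS] at hr
      refine ⟨r ω, fun a => -r a, fun e => ha' ?_, ?_⟩
      · rcases Finset.mem_insert.1 ha with rfl | ha
        · exact e
        · exact h2 r (by simpa [e] using hr) a ha
      · simpa [sub_eq_add_neg] using hr

/- The quotient by `J` is a module over `P = k [U]` through `aeval u`.  Take a maximal `P`-independent
subfamily `X ^ ω a` of the monomials `X ^ ω`, `ω ∈ Ω` (`exists_maximal_linearIndepOn'`, or a subset of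
maximal cardinality with the property `hi`).  For `ω ∈ Ω` there is `δ ω ≠ 0` with
`δ ω (u) X ^ ω - ∑ r a (u) X ^ ω a ∈ J`; take the homogeneous component of degree `d + degree ω` where
the component of degree `d` of `δ ω` is not zero (`u` is linear; compare `comp_cut`, `comp_mul_hom` in
`Av/Noe`).  Put `em = max degree (ω a)`, `m a = u 0 ^ (em - degree (ω a)) * X ^ ω a`,
`δ = U 0 ^ em * ∏ ω ∈ Ω, δ ω`.  The subfamily is not empty because of `0 ∈ Ω` and `hi`. -/
theorem exists_free {J : Ideal (MvPolynomial ι k)}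
    (hJ : ∀ P ∈ J, ∀ d, homogeneousComponent d P ∈ J) {g : ℕ}
    {u : Fin (g + 1) → MvPolynomial ι k} (hu : ∀ l, (u l).IsHomogeneous 1)
    (hi : ∀ r : MvPolynomial (Fin (g + 1)) k, aeval u r ∈ J → r = 0) (Ω : Finset (ι →₀ ℕ))
    (h0 : 0 ∈ Ω) :
    ∃ (ρ em dl : ℕ) (m : Fin ρ → MvPolynomial ι k) (δ : MvPolynomial (Fin (g + 1)) k)
      (r : (ι →₀ ℕ) → Fin ρ → MvPolynomial (Fin (g + 1)) k), em ≤ dl ∧ 0 < ρ ∧
      (∀ a, (m a).IsHomogeneous em) ∧ δ.IsHomogeneous dl ∧ δ ≠ 0 ∧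
      (∀ r' : Fin ρ → MvPolynomial (Fin (g + 1)) k, ∑ a, aeval u (r' a) * m a ∈ J → r' = 0) ∧
      ∀ ω ∈ Ω, (∀ a, (r ω a).IsHomogeneous (ω.degree + dl - em)) ∧
        aeval u δ * monomial ω 1 - ∑ a, aeval u (r ω a) * m a ∈ J := by
  classical
  obtain ⟨S, hS, hind, hdep⟩ := fba_max hi Ω h0
  choose δ₀ r₀ hδ₀ hr₀ using hdep
  choose! d δ rr h1 h2 h3 h4 using fun ω hω => fba_hom hJ hu S ω (hδ₀ ω hω) (hr₀ ω hω)
  obtain ⟨w, hw⟩ : ∃ w : Fin S.card → (ι →₀ ℕ), ∀ a, w a = S.equivFin.symm a := ⟨_, fun _ => rfl⟩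
  have hwS : ∀ a, w a ∈ S := fun a => hw a ▸ (S.equivFin.symm a).2
  have hsum : ∀ f : (ι →₀ ℕ) → MvPolynomial ι k, ∑ a, f (w a) = ∑ b ∈ S, f b := fun f => by
    simp only [hw]
    exact (Equiv.sum_comp S.equivFin.symm fun b : S => f b).trans (Finset.sum_coe_sort S f)
  have hem : ∀ a, (w a).degree ≤ S.sup Finsupp.degree := fun a =>
    Finset.le_sup (f := fun b : ι →₀ ℕ => b.degree) (hwS a)
  generalize S.sup (fun b : ι →₀ ℕ => b.degree) = em at hem
  have hX : ∀ n, (X 0 ^ n : MvPolynomial (Fin (g + 1)) k).IsHomogeneous n := fun n => by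
    simpa using (isHomogeneous_X k (0 : Fin (g + 1))).pow n
  refine ⟨S.card, em, em + ∑ ω ∈ Ω, d ω, fun a => u 0 ^ (em - (w a).degree) * monomial (w a) 1,
    X 0 ^ em * ∏ ω ∈ Ω, δ ω,
    fun ω a => X 0 ^ (w a).degree * (∏ ω' ∈ Ω.erase ω, δ ω') * rr ω (w a), Nat.le_add_right _ _,
    hS, fun a => ?_, (hX em).mul (IsHomogeneous.prod _ _ _ h1),
    mul_ne_zero (pow_ne_zero _ (X_ne_zero _)) (Finset.prod_ne_zero_iff.2 h2), fun r' hr' => ?_,
    fun ω hω => ⟨fun a => ?_, ?_⟩⟩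
  · have := ((hu 0).pow (em - (w a).degree)).mul (isHomogeneous_monomial (d := w a) (1 : k) rfl)
    rwa [one_mul, Nat.sub_add_cancel (hem a)] at this
  · have e : ∀ a, (if h : w a ∈ S then r' (S.equivFin ⟨w a, h⟩) * X 0 ^ (em - (w a).degree)
        else 0) = r' a * X 0 ^ (em - (w a).degree) := fun a => by
      rw [dif_pos (hwS a)]
      congr 2
      rw [← Equiv.eq_symm_apply]
      exact Subtype.ext (hw a)
    have h5 := hind (fun b => if h : b ∈ S then r' (S.equivFin ⟨b, h⟩) * X 0 ^ (em - b.degree)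
      else 0) (by
        rw [← hsum]
        simpa only [e, map_mul, map_pow, aeval_X, mul_assoc] using hr')
    funext a
    have h6 := h5 _ (hwS a)
    rw [e] at h6
    exact (mul_eq_zero.1 h6).resolve_right (pow_ne_zero _ (X_ne_zero _))
  · beta_reduce
    rcases h3 ω hω (w a) with h | ⟨h, h'⟩
    · rw [h, mul_zero]
      exact isHomogeneous_zero _ _ _
    · have h5 := ((hX (w a).degree).mul (IsHomogeneous.prod (Ω.erase ω) δ d
        fun ω' h => h1 ω' (Finset.mem_of_mem_erase h))).mul h'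
      have h6 := Finset.add_sum_erase Ω d hω
      rwa [show (w a).degree + ∑ ω' ∈ Ω.erase ω, d ω' + (d ω + ω.degree - (w a).degree) =
        ω.degree + (em + ∑ ω ∈ Ω, d ω) - em by omega] at h5
  · have h5 := J.mul_mem_left (u 0 ^ em * aeval u (∏ ω' ∈ Ω.erase ω, δ ω')) (h4 ω hω)
    rw [← hsum fun b => aeval u (rr ω b) * monomial b 1, mul_sub, Finset.mul_sum] at h5
    convert h5 using 2
    · rw [← Finset.mul_prod_erase Ω δ hω]
      simp only [map_mul, map_pow, aeval_X]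
      ring
    · refine Finset.sum_congr rfl fun a _ => ?_
      have e : u 0 ^ em = u 0 ^ (w a).degree * u 0 ^ (em - (w a).degree) := by
        rw [← pow_add, Nat.add_sub_cancel' (hem a)]
      rw [e]
      simp only [map_mul, map_pow, aeval_X]
      ring

omit [Fintype ι] in
theorem fbb_pol {I σ : Type} [Fintype I] (P : I → MvPolynomial σ k) :
    ∃ s h, Ad s h ∧ ∀ i v, pl v (P i) ≤ s v := by
  choose c h hc hc' using fun i => exists_ad_fixed (P i)
  obtain ⟨s, hs, hs'⟩ := esize_fam hc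
  exact ⟨s, _, hs, fun i v => (hc' i v).trans (hs' i v)⟩

omit [Fintype ι] in
theorem fbb_two {c c' : AbsoluteValue k ℝ → ℝ} {h h' : ℝ} (hc : Ad c h) (hc' : Ad c' h') :
    ∃ s H, Ad s H ∧ (∀ v, c v ≤ s v) ∧ ∀ v, c' v ≤ s v :=
  ⟨_, _, hc.mul hc', fun v => le_mul_of_one_le_right (hc.pos v).le (hc'.one v),
    fun v => le_mul_of_one_le_left (hc'.pos v).le (hc.one v)⟩

/-- The part of an exponent that belongs to the parameters. -/
noncomputable def fbbU {g : ℕ} (ω : Ex g ι) : Fin (g + 1) →₀ ℕ :=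
  Finsupp.equivFunOnFinite.symm fun l => ω (.inl l)

/-- The part of an exponent that belongs to the coordinates. -/
noncomputable def fbbX {g : ℕ} (ω : Ex g ι) : ι →₀ ℕ :=
  Finsupp.equivFunOnFinite.symm fun a => ω (.inr a)

omit [NumberField k] in
theorem fbb_split {g : ℕ} (u : Fin (g + 1) → MvPolynomial ι k)
    (P : MvPolynomial (Fin (g + 1) ⊕ ι) k) : aeval (Sum.elim u X) P =
      ∑ ω ∈ P.support, aeval u (monomial (fbbU ω) (coeff ω P)) * monomial (fbbX ω) 1 := by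
  conv_lhs => rw [P.as_sum, map_sum]
  refine sum_congr rfl fun ω _ => ?_
  rw [aeval_monomial, aeval_monomial, monomial_eq, Finsupp.prod_fintype _ _ fun _ => pow_zero _,
    Finsupp.prod_fintype _ _ fun _ => pow_zero _, Finsupp.prod_fintype _ _ fun _ => pow_zero _,
    Fintype.prod_sum_type, C_1, one_mul, mul_assoc]
  rfl

theorem fbb_mon {g ρ n : ℕ} {ω : Ex g ι} (h : ω ∈ Mon ι g 1 ρ n) :
    (fbbU ω).degree + (fbbX ω).degree = n ∧ ∀ a, fbbX ω a < ρ := by
  obtain ⟨h1, h2⟩ := (mem_Mon le_rfl).1 h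
  rw [one_mul] at h1
  rw [Finsupp.degree_eq_sum, Finsupp.degree_eq_sum]
  exact ⟨h1, h2⟩

/- `exists_lin`, `nn_indep`, `exists_rd`; `Ω` the exponents with all entries `< ρ`; `Δ = aeval u δ`;
`red μ a = ∑ ω ∈ (rd μ).support, monomial (U-part of ω) (coeff ω (rd μ)) * r (X-part of ω) a`
(`mem_Mon`, `Finsupp.comapDomain`, `Finsupp.sumElim`).  The size `s` is the product of `E 2 ^ N`,
`E (ρ + 1)` and sizes (`exists_ad_fixed`, `ad_max`, `esize_fam`) for all `Φ a b`, `o a`, `u l`, `m a`,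
`c a l`, `r ω a`; `card_Mon_le_pow`, `exists_polSN`, `SN.sum_le_card`, `E_le_pow`. -/
theorem exists_fb (B : AV k ι) : Nonempty (FB B B.dim) := by
  classical
  obtain ⟨ρ₀, u, c, hNN⟩ := exists_lin B
  have hi := nn_indep hNN
  obtain ⟨rd, hrd, hrd'⟩ := exists_rd le_rfl hNN
  obtain ⟨Ω, hΩ⟩ : ∃ Ω : Finset (ι →₀ ℕ), ∀ ω : ι →₀ ℕ, (∀ a, ω a < ρ₀) → ω ∈ Ω :=
    ⟨Iic (Finsupp.equivFunOnFinite.symm fun _ => ρ₀), fun ω h => mem_Iic.2 fun a => (h a).le⟩
  obtain ⟨ρ, em, dl, m, δ, r, hle, hpos, hm, hδ, hδ0, hind, hr⟩ :=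
    exists_free B.hom hNN.hu hi Ω (hΩ 0 fun _ => hNN.pos)
  have hsup : ∀ μ, ∀ ω ∈ (rd μ).support,
      (fbbU ω).degree + (fbbX ω).degree = μ.degree ∧ fbbX ω ∈ Ω := fun μ ω hω =>
    (fbb_mon (hrd.supp μ hω)).imp_right (hΩ _)
  obtain ⟨sΦ, _, aΦ, bΦ⟩ := fbb_pol fun p : ι × ι => B.Φ p.1 p.2
  obtain ⟨so, ao, bo⟩ := esize_fam fun a => ad_max (B.o a)
  obtain ⟨su, _, au, bu⟩ := fbb_pol u
  obtain ⟨sm, _, am, bm⟩ := fbb_pol m
  obtain ⟨sc, _, ac, bc⟩ := fbb_pol fun p : ι × Fin ρ₀ => c p.1 p.2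
  obtain ⟨sr, _, ar, br⟩ := fbb_pol fun p : Ω × Fin ρ => r p.1 p.2
  have hρ : (1 : ℝ) ≤ ρ₀ + 1 := le_add_of_nonneg_left (Nat.cast_nonneg ρ₀)
  obtain ⟨t₁, _, a₁, b₁, c₁⟩ := fbb_two (ad_E (k := k) one_le_two) (ad_E hρ)
  obtain ⟨t₂, _, a₂, b₂, c₂⟩ := fbb_two aΦ ao
  obtain ⟨t₃, _, a₃, b₃, c₃⟩ := fbb_two au am
  obtain ⟨t₄, _, a₄, b₄, c₄⟩ := fbb_two ac ar
  obtain ⟨t₅, _, a₅, b₅, c₅⟩ := fbb_two a₁ a₂
  obtain ⟨t₆, _, a₆, b₆, c₆⟩ := fbb_two a₃ a₄
  obtain ⟨t, H, ht, b₇, c₇⟩ := fbb_two a₅ a₆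
  obtain ⟨N, hN⟩ : ∃ N, N = B.dim + 1 + Fintype.card ι := ⟨_, rfl⟩
  have hts : ∀ v, t v ≤ t v ^ (N + 2) := fun v => le_self_pow₀ (ht.one v) (by omega)
  have h2 : ∀ v : AbsoluteValue k ℝ, E (IsNonarchimedean v) 2 ≤ t v := fun v =>
    ((b₁ v).trans (b₅ v)).trans (b₇ v)
  refine ⟨⟨ρ, em, dl, u, m, aeval u δ,
    fun μ a => ∑ ω ∈ (rd μ).support, monomial (fbbU ω) (coeff ω (rd μ)) * r (fbbX ω) a,
    fun v => t v ^ (N + 2), _, hle, hpos, hNN.hu, hm, ?_, fun h => hδ0 (hi δ h), hind,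
    fun μ a => ?_, fun μ => ?_, ht.pow (N + 2), fun v => ⟨(h2 v).trans (hts v), fun a b => ?_,
    fun a => ?_⟩, fun v l => ?_, fun v a => ?_, fun v μ a => ?_⟩⟩
  · simpa only [one_mul] using hδ.aeval u hNN.hu
  · refine IsHomogeneous.sum _ _ _ fun ω hω => ?_
    obtain ⟨e1, e2⟩ := hsup μ ω hω
    have e3 := (isHomogeneous_monomial (coeff ω (rd μ)) (rfl : (fbbU ω).degree = _)).mul
      ((hr _ e2).1 a)
    rwa [show (fbbU ω).degree + ((fbbX ω).degree + dl - em) = μ.degree + dl - em by omega] at e3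
  · have e1 := B.I.mul_mem_left (aeval u δ) (hrd.rel μ)
    have e2 := B.I.sum_mem fun ω (hω : ω ∈ (rd μ).support) =>
      B.I.mul_mem_left (aeval u (monomial (fbbU ω) (coeff ω (rd μ)))) (hr _ (hsup μ ω hω).2).2
    convert B.I.add_mem e1 e2 using 1
    rw [fbb_split]
    simp only [map_sum, map_mul, sum_mul, mul_sub, mul_sum, sum_sub_distrib]
    rw [sum_comm]
    simp only [mul_assoc, mul_left_comm (aeval u δ)]
    ring
  · exact ((((bΦ (a, b) v).trans (b₂ v)).trans (c₅ v)).trans (b₇ v)).trans (hts v)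
  · exact (((((le_max_right _ _).trans (bo a v)).trans (c₂ v)).trans (c₅ v)).trans (b₇ v)).trans
      (hts v)
  · exact ((((bu l v).trans (b₃ v)).trans (b₆ v)).trans (c₇ v)).trans (hts v)
  · exact ((((bm a v).trans (c₃ v)).trans (b₆ v)).trans (c₇ v)).trans (hts v)
  · obtain ⟨S, hS⟩ := exists_polSN (σ := Fin (B.dim + 1)) (absSN v) (t := fun _ => 1)
      fun _ => zero_le_one
    have hS' : ∀ P, pl v P = S.N P := fun P => by rw [hS, pl]
    have t0 := (ht.pos v).le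
    have e1 : ∀ ω ∈ (rd μ).support, S.N (monomial (fbbU ω) (coeff ω (rd μ)) * r (fbbX ω) a) ≤
        (t v * t v) ^ μ.degree * t v := fun ω hω => by
      refine S.mul_le ?_ ?_
      · rw [hS]
        refine (polN_monomial _ (fun _ => zero_le_one) _ _).trans ?_
        rw [wt_one, mul_one]
        refine (hrd' v (t v) (ht.one v)
          (fun b l => (((bc (b, l) v).trans (b₄ v)).trans (c₆ v)).trans (c₇ v)) μ ω).trans ?_
        exact pow_le_pow_left₀ (mul_nonneg (E_nonneg (zero_le_one.trans hρ)) t0)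
          (mul_le_mul_of_nonneg_right (((c₁ v).trans (b₅ v)).trans (b₇ v)) t0) _
      · rw [← hS']
        exact (((br (⟨_, (hsup μ ω hω).2⟩, a) v).trans (c₄ v)).trans (c₆ v)).trans (c₇ v)
    have e2 : ((rd μ).support.card : ℝ) ≤ 2 ^ (N * μ.degree) := by
      rw [hN]
      exact_mod_cast (card_le_card (hrd.supp μ)).trans card_Mon_le_pow
    rw [hS']
    refine (S.sum_le_card _ (by positivity) e1).trans ?_
    calc E (IsNonarchimedean v) (rd μ).support.card * ((t v * t v) ^ μ.degree * t v)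
        ≤ t v ^ (N * μ.degree) * ((t v * t v) ^ μ.degree * t v ^ (N + 2)) :=
          mul_le_mul (E_le_pow (h2 v) e2) (mul_le_mul_of_nonneg_left (hts v) (by positivity))
            (by positivity) (by positivity)
      _ = _ := by ring

end Pool.Agent.Lib.MP_651af7_nt.As
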