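import Pool.Agent.Lib.MP_651af7_nt.As.Defs
import Pool.Agent.Lib.MP_651af7_nt.Av.ELam
import Pool.Agent.Lib.MP_651af7_nt.Av.Jac

/-! Killing variables; independence of products. -/

namespace Pool.Agent.Lib.MP_651af7_nt.As

open MvPolynomial Finset Height NumberField Matrix
open Av hiding Bad
open Es (Mo IX CX mo cx GA GC Bad Pen nv vol Tame IntV Dual)
open Rt (Pl av mu)

section kill

variable {k σ τ τ' : Type} [Field k]

/- `MvPowerSeries.coeff_killCompl`, `MvPowerSeries.coeff_rename_eq_zero`,
`MvPowerSeries.coeff_embDomain_rename`. -/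
theorem kill_rename (e : τ ↪ σ) (e' : τ' ↪ σ) (h : ∀ a, e' a ∉ Set.range e)
    (f : MvPowerSeries τ' k) : MvPowerSeries.killCompl e (MvPowerSeries.rename e' f) =
      MvPowerSeries.C (MvPowerSeries.constantCoeff f) := by
  classical
  ext x
  rw [MvPowerSeries.coeff_killCompl, MvPowerSeries.coeff_C]
  split_ifs with hx
  · subst hx
    rw [Finsupp.embDomain_zero, MvPowerSeries.coeff_zero_eq_constantCoeff_apply,
      MvPowerSeries.constantCoeff_rename]
  · apply MvPowerSeries.coeff_rename_eq_zero
    rintro ⟨y, hy⟩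
    apply hx
    ext a
    have h1 : Finsupp.mapDomain e' y (e a) = 0 := by
      apply Finsupp.mapDomain_of_notMem_range
      rintro ⟨b, hb⟩
      exact h b ⟨a, hb.symm⟩
    rw [hy, Finsupp.embDomain_apply_self] at h1
    exact h1

theorem kill_rename_comp (e : τ ↪ σ) (e' : τ' ↪ σ) (e'' : τ' ↪ τ) (h : ∀ a, e' a = e (e'' a))
    (f : MvPowerSeries τ' k) :
    MvPowerSeries.killCompl e (MvPowerSeries.rename e' f) = MvPowerSeries.rename e'' f := by
  have he : e' = e''.trans e := by
    ext a
    exact h a
  subst he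
  have h1 : MvPowerSeries.rename (e''.trans e) f =
      MvPowerSeries.rename e (MvPowerSeries.rename e'' f) :=
    (MvPowerSeries.rename_rename e'' e f).symm
  rw [h1, MvPowerSeries.killCompl_rename_app]

theorem cc_kill (e : τ ↪ σ) (f : MvPowerSeries σ k) :
    MvPowerSeries.constantCoeff (MvPowerSeries.killCompl e f) = MvPowerSeries.constantCoeff f := by
  rw [← MvPowerSeries.coeff_zero_eq_constantCoeff_apply,
    ← MvPowerSeries.coeff_zero_eq_constantCoeff_apply, MvPowerSeries.coeff_killCompl,
    Finsupp.embDomain_zero]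

variable [CharZero k]

/- If some `l t ≠ 0`, take `μ` of least degree among the exponents of all `l t`.  These exponents vanish
on the range of `e` (`MvPowerSeries.coeff_pderiv`).  In the coefficient of `μ + embDomain e ν` of the sum
only the splitting `(μ, embDomain e ν)` contributes, so `∑ t, coeff μ (l t) • killCompl e (f t) = 0`. -/
theorem indep_free (e : τ ↪ σ) {T : Type} [Fintype T] {f : T → MvPowerSeries σ k}
    (hf : LinearIndependent k fun t => MvPowerSeries.killCompl e (f t))
    {l : T → MvPowerSeries σ k} (hl : ∀ t a, MvPowerSeries.pderiv k (e a) (l t) = 0)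
    (h : ∑ t, l t * f t = 0) : l = 0 := by
  classical
  have hsup : ∀ t (p : σ →₀ ℕ), MvPowerSeries.coeff p (l t) ≠ 0 → ∀ a, p (e a) = 0 := by
    intro t p hp a
    by_contra ha
    have hle : Finsupp.single (e a) 1 ≤ p :=
      Finsupp.single_le_iff.mpr (Nat.one_le_iff_ne_zero.mpr ha)
    obtain ⟨n, rfl⟩ := exists_add_of_le hle
    have h1 := MvPowerSeries.coeff_pderiv (i := e a) (l t) n
    rw [hl t a, map_zero, add_comm n] at h1
    have h2 : ((n (e a) : k) + 1) ≠ 0 := Nat.cast_add_one_ne_zero _
    exact hp ((mul_eq_zero.mp h1.symm).resolve_right h2)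
  have hwf : WellFoundedLT (σ →₀ ℕ) := Finsupp.wellFoundedLT'
  have key : ∀ μ : σ →₀ ℕ, ∀ t, MvPowerSeries.coeff μ (l t) = 0 := by
    intro μ
    induction μ using WellFoundedLT.induction with
    | ind μ ih =>
      refine Fintype.linearIndependent_iff.mp hf (fun t => MvPowerSeries.coeff μ (l t)) ?_
      ext ν
      have h1 := congrArg (MvPowerSeries.coeff (μ + Finsupp.embDomain e ν)) h
      rw [map_sum, map_zero] at h1
      rw [map_sum, map_zero, ← h1]
      refine Finset.sum_congr rfl fun t _ => ?_
      rw [MvPowerSeries.coeff_smul, MvPowerSeries.coeff_killCompl, MvPowerSeries.coeff_mul,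
        Finset.sum_eq_single (μ, Finsupp.embDomain e ν)]
      · rintro ⟨p, q⟩ hpq hne
        replace hpq : p + q = μ + Finsupp.embDomain e ν :=
          Finset.HasAntidiagonal.mem_antidiagonal.mp hpq
        by_cases hp : MvPowerSeries.coeff p (l t) = 0
        · dsimp only
          rw [hp, zero_mul]
        · exfalso
          have hle : p ≤ μ := by
            intro s
            by_cases hs : s ∈ Set.range e
            · obtain ⟨a, rfl⟩ := hs
              rw [hsup t p hp a]
              exact Nat.zero_le _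
            · have h2 := DFunLike.congr_fun hpq s
              simp only [Finsupp.add_apply] at h2
              rw [Finsupp.embDomain_of_notMem_range e ν s hs] at h2
              omega
          rcases hle.lt_or_eq with hlt | heq
          · exact hp (ih p hlt t)
          · subst heq
            have h3 : q = Finsupp.embDomain e ν := add_left_cancel hpq
            exact hne (by rw [h3])
      · intro hn
        exfalso
        apply hn
        rw [Finset.HasAntidiagonal.mem_antidiagonal]
  funext t
  ext μ
  rw [key μ t, Pi.zero_apply, map_zero]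

/-- The family `g` has no relation with coefficients killed by the derivatives in `D`. -/
def KilFree (D : Set σ) {U : Type} [Fintype U] (g : U → MvPowerSeries σ k) : Prop :=
  ∀ l : U → MvPowerSeries σ k, (∀ u, ∀ d ∈ D, MvPowerSeries.pderiv k d (l u) = 0) →
    ∑ u, l u * g u = 0 → l = 0

omit [CharZero k] in
theorem kil_free_mul {D D' : Set σ} {U U' : Type} [Fintype U] [Fintype U']
    {g : U → MvPowerSeries σ k} {g' : U' → MvPowerSeries σ k} (hg : KilFree D g)
    (hg' : KilFree D' g') (hk : ∀ u, ∀ d ∈ D', MvPowerSeries.pderiv k d (g u) = 0) :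
    KilFree (D ∪ D') fun p : U × U' => g p.1 * g' p.2 := by
  intro l hl h
  have h1 : (fun u' => ∑ u, l (u, u') * g u) = 0 := by
    refine hg' _ (fun u' d hd => ?_) ?_
    · rw [map_sum]
      refine Finset.sum_eq_zero fun u _ => ?_
      rw [Derivation.leibniz, hk u d hd, hl (u, u') d (Or.inr hd), smul_zero, smul_zero, add_zero]
    · rw [← h, Fintype.sum_prod_type_right]
      refine Finset.sum_congr rfl fun u' _ => ?_
      rw [Finset.sum_mul]
      exact Finset.sum_congr rfl fun u _ => mul_assoc _ _ _
  funext p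
  obtain ⟨u, u'⟩ := p
  have h2 := hg (fun u => l (u, u')) (fun u d hd => hl (u, u') d (Or.inl hd)) (congrFun h1 u')
  exact congrFun h2 u

theorem kil_free_step {n : ℕ} (h : Fin (n + 1)) (e : Fin (n + 1) → τ ↪ σ)
    {T : Fin (n + 1) → Type} [∀ o, Fintype (T o)] {f : ∀ o, T o → MvPowerSeries σ k}
    (hf : LinearIndependent k fun t => MvPowerSeries.killCompl (e h) (f h t))
    (hd : ∀ o t a, MvPowerSeries.pderiv k (e (h.succAbove o) a) (f h t) = 0)
    (hr : KilFree {d | ∃ o a, d = e (h.succAbove o) a}
      fun t : ∀ o, T (h.succAbove o) => ∏ o, f (h.succAbove o) (t o)) :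
    KilFree {d | ∃ o a, d = e o a} fun t : ∀ o, T o => ∏ o, f o (t o) := by
  have h0 : KilFree (Set.range (e h)) (f h) := fun l hl hs =>
    indep_free (e h) hf (fun t a => hl t _ ⟨a, rfl⟩) hs
  have h1 := kil_free_mul h0 hr (by
    rintro u d ⟨o, a, rfl⟩
    exact hd o u a)
  intro l hl hs
  have h2 := h1 (fun p => l (Fin.insertNthEquiv T h p)) (by
    rintro p d (⟨a, rfl⟩ | ⟨o, a, rfl⟩)
    · exact hl _ _ ⟨h, a, rfl⟩
    · exact hl _ _ ⟨_, a, rfl⟩) (by
    rw [← hs, ← (Fin.insertNthEquiv T h).sum_comp]
    refine Finset.sum_congr rfl fun p _ => ?_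
    dsimp only
    rw [Fin.prod_univ_succAbove _ h]
    simp [Fin.insertNthEquiv])
  funext t
  have h3 := congrFun h2 ((Fin.insertNthEquiv T h).symm t)
  rw [Equiv.apply_symm_apply] at h3
  exact h3

theorem kil_free_all : ∀ (n : ℕ) (e : Fin n → τ ↪ σ) {T : Fin n → Type} [∀ o, Fintype (T o)]
    {f : ∀ o, T o → MvPowerSeries σ k},
    (∀ o, LinearIndependent k fun t => MvPowerSeries.killCompl (e o) (f o t)) →
    (∀ o o', o' ≠ o → ∀ t a, MvPowerSeries.pderiv k (e o' a) (f o t) = 0) →
    KilFree {d | ∃ o a, d = e o a} fun t : ∀ o, T o => ∏ o, f o (t o) := by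
  intro n
  induction n with
  | zero =>
    intro e T _ f _ _ l _ hs
    funext t
    rw [Fintype.sum_subsingleton _ t] at hs
    simpa using hs
  | succ n ih =>
    intro e T _ f hf hd
    refine kil_free_step 0 e (hf 0) (fun o t a => hd _ _ (Fin.succAbove_ne 0 o) t a) ?_
    exact ih (fun o => e ((0 : Fin (n + 1)).succAbove o)) (fun o => hf _)
      fun o o' ho t a => hd _ _ (fun hh => ho (Fin.succAbove_right_injective hh)) t a

/- Show by induction on a finite set `s` of blocks that does not contain `h`: if the `l t` are killed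
by the derivatives in the variables `e o a`, `o ∈ s`, and the sum of `l t * ∏ o ∈ s, f o (t o)` over all
`t` that agree with a given `t₀` outside `s` vanishes, then these `l t` vanish (`indep_free`).  One may
first move `h` to the front (`Fin.insertNthEquiv`, `Fin.succAbove`) and use induction on the number of the
other blocks (`Fin.consEquiv`, `Fin.prod_univ_succ`).  Finally `indep_free` for `h`. -/
theorem prod_indep {m : ℕ} (h : Fin m) (e : Fin m → τ ↪ σ) {T : Fin m → Type}
    [∀ o, Fintype (T o)] {f : ∀ o, T o → MvPowerSeries σ k}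
    (hf : ∀ o, LinearIndependent k fun t => MvPowerSeries.killCompl (e o) (f o t))
    (hd : ∀ o o', o' ≠ o → o' ≠ h → ∀ t a, MvPowerSeries.pderiv k (e o' a) (f o t) = 0) :
    LinearIndependent k fun t : ∀ o, T o => ∏ o, f o (t o) := by
  cases m with
  | zero => exact h.elim0
  | succ n =>
    have h1 : KilFree {d | ∃ o a, d = e o a} fun t : ∀ o, T o => ∏ o, f o (t o) := by
      refine kil_free_step h e (hf h)
        (fun o t a => hd _ _ (Fin.succAbove_ne h o) (Fin.succAbove_ne h o) t a) ?_
      exact kil_free_all n (fun o => e (h.succAbove o)) (fun o => hf _)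
        fun o o' ho t a => hd _ _ (fun hh => ho (Fin.succAbove_right_injective hh))
          (Fin.succAbove_ne h o') t a
    refine Fintype.linearIndependent_iff.mpr fun c hc t => ?_
    have h2 := h1 (fun t => MvPowerSeries.C (c t)) (fun _ _ _ => MvPowerSeries.pderiv_C) (by
      rw [← hc]
      exact Finset.sum_congr rfl fun t _ => (MvPowerSeries.smul_eq_C_mul _ _).symm)
    have h3 := congrArg MvPowerSeries.constantCoeff (congrFun h2 t)
    simpa using h3

end kill

section mono

variable {k R : Type} [Field k] [CharZero k] [CommRing R] [Algebra k R]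

omit [CharZero k] in
theorem kil_der_monomial {σ : Type} [Fintype σ] [DecidableEq σ] (D : σ → Derivation k R R)
    {y : σ → R} (hy : ∀ s s', D s (y s') = if s = s' then 1 else 0) (s : σ) (μ : σ →₀ ℕ) {a : R}
    (ha : D s a = 0) : D s (eval y (monomial μ a)) = eval y (pderiv s (monomial μ a)) := by
  have h1 : (monomial μ a : MvPolynomial σ R) = C a * map (algebraMap k R) (monomial μ (1 : k)) := by
    rw [map_monomial, map_one, C_mul_monomial, mul_one]
  have h2 : ∀ Q : MvPolynomial σ k, eval y (map (algebraMap k R) Q) = aeval y Q := fun Q => by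
    rw [eval_map, aeval_def]
  have h3 : D s (aeval y (monomial μ (1 : k))) = aeval y (pderiv s (monomial μ (1 : k))) := by
    rw [der_aeval, sum_eq_single s]
    · rw [hy, if_pos rfl, mul_one]
    · intro t _ ht
      rw [hy, if_neg (Ne.symm ht), mul_zero]
    · simp
  rw [h1, pderiv_C_mul, pderiv_map, eval_mul, eval_mul, eval_C, h2, h2, Derivation.leibniz, ha,
    smul_zero, add_zero, h3, smul_eq_mul]

omit [CharZero k] in
theorem kil_der_eval {σ : Type} [Fintype σ] [DecidableEq σ] (D : σ → Derivation k R R)
    {y : σ → R} (hy : ∀ s s', D s (y s') = if s = s' then 1 else 0) (s : σ) {P : MvPolynomial σ R}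
    (hP : ∀ μ, D s (coeff μ P) = 0) : D s (eval y P) = eval y (pderiv s P) := by
  conv_lhs => rw [P.as_sum]
  conv_rhs => rw [P.as_sum]
  simp only [map_sum]
  exact sum_congr rfl fun μ _ => kil_der_monomial D hy s μ (hP μ)

theorem kil_totalDegree_pderiv_lt {σ : Type} {P : MvPolynomial σ R} {s : σ} (h : pderiv s P ≠ 0) :
    (pderiv s P).totalDegree < P.totalDegree := by
  classical
  obtain ⟨m, hm, he⟩ := exists_mem_eq_sup _ (support_nonempty.mpr h)
    fun m : σ →₀ ℕ => m.sum fun _ e => e
  rw [totalDegree, he]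
  have h1 : m + Finsupp.single s 1 ∈ P.support := by
    rw [mem_support_iff, coeff_pderiv] at hm
    exact mem_support_iff.mpr (left_ne_zero_of_mul hm)
  refine lt_of_lt_of_le ?_ (le_totalDegree h1)
  rw [Finsupp.sum_add_index' (fun _ => rfl) fun _ _ _ => rfl, Finsupp.sum_single_index rfl]
  exact Nat.lt_succ_self _

theorem kil_eq_zero_of_mul_succ (k : Type) [Field k] [CharZero k] [Algebra k R] {a : R} {n : ℕ}
    (h : a * ((n : R) + 1) = 0) : a = 0 := by
  have h1 : ((n : k) + 1) ≠ 0 := Nat.cast_add_one_ne_zero n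
  have h2 : ((n : R) + 1) * algebraMap k R ((n : k) + 1)⁻¹ = 1 := by
    have : ((n : R) + 1) = algebraMap k R ((n : k) + 1) := by simp
    rw [this, ← map_mul, mul_inv_cancel₀ h1, map_one]
  rw [← mul_one a, ← h2, ← mul_assoc, h, zero_mul]

theorem kil_eq_C_of_pderiv (k : Type) [Field k] [CharZero k] [Algebra k R] {σ : Type}
    {P : MvPolynomial σ R} (h : ∀ s, pderiv s P = 0) : P = C (coeff 0 P) := by
  classical
  ext m
  rw [coeff_C]
  split_ifs with hm
  · rw [← hm]
  · obtain ⟨s, hs⟩ : ∃ s, m s ≠ 0 := by
      by_contra hc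
      push Not at hc
      exact hm (Finsupp.ext hc).symm
    have h1 := coeff_pderiv (i := s) P (m - Finsupp.single s 1)
    rw [h s, coeff_zero, tsub_add_cancel_of_le
      (Finsupp.single_le_iff.mpr (Nat.one_le_iff_ne_zero.mpr hs))] at h1
    exact kil_eq_zero_of_mul_succ k h1.symm

/- Induction on the total degree: `D s (eval y P) = eval y (pderiv s P)`, the coefficients of
`pderiv s P` are killed, so `pderiv s P = 0` for all `s` and `P` is constant (copy
`totalDegree_pderiv_lt`, `eq_C_of_pderiv` of `Av/Jac` for the ring `R`; positive integers are units). -/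
theorem poly_indep {σ : Type} [Fintype σ] [DecidableEq σ] (D : σ → Derivation k R R) {y : σ → R}
    (hy : ∀ s s', D s (y s') = if s = s' then 1 else 0) {P : MvPolynomial σ R}
    (hP : ∀ s μ, D s (coeff μ P) = 0) (h : eval y P = 0) : P = 0 := by
  induction hn : P.totalDegree using Nat.strong_induction_on generalizing P with
  | _ n ih =>
    have h2 : ∀ s, pderiv s P = 0 := fun s => by
      by_contra hc
      refine hc (ih _ (hn ▸ kil_totalDegree_pderiv_lt hc) (fun t μ => ?_) ?_ rfl)
      · rw [coeff_pderiv, Derivation.leibniz, hP, smul_zero, add_zero, map_add,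
          Derivation.map_natCast, Derivation.map_one_eq_zero, add_zero, smul_zero]
      · rw [← kil_der_eval D hy s (hP s), h, map_zero]
    rw [kil_eq_C_of_pderiv k h2] at h ⊢
    rw [eval_C] at h
    rw [h, map_zero]

/- `poly_indep` for `P = ∑ α, monomial (fun p => (α p.1).1 p.2) (a α)`. -/
theorem mono_indep {m : ℕ} {κ : Type} [Fintype κ] [DecidableEq κ] {e : Fin m → ℕ}
    (D : Fin m → κ → Derivation k R R) {y : Fin m → κ → R}
    (hy : ∀ o l o' l', D o l (y o' l') = if (o, l) = (o', l') then 1 else 0) {a : IX κ e → R}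
    (ha : ∀ o l α, D o l (a α) = 0) (h : ∑ α, a α * ∏ o, mo (α o) (y o) = 0) : a = 0 := by
  classical
  let ex : IX κ e → (Fin m × κ →₀ ℕ) := fun α =>
    Finsupp.equivFunOnFinite.symm fun p => (α p.1).1 p.2
  have hinj : Function.Injective ex := by
    intro α β hab
    funext o
    refine Subtype.ext (funext fun l => ?_)
    have := congrArg (fun μ : Fin m × κ →₀ ℕ => μ (o, l)) hab
    simpa [ex] using this
  have hco : ∀ α, coeff (ex α) (∑ β, monomial (ex β) (a β) : MvPolynomial (Fin m × κ) R) = a α := by
    intro α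
    rw [coeff_sum, sum_eq_single α]
    · rw [coeff_monomial, if_pos rfl]
    · intro β _ hβ
      rw [coeff_monomial, if_neg fun hc => hβ (hinj hc)]
    · simp
  have hz : (∑ β, monomial (ex β) (a β) : MvPolynomial (Fin m × κ) R) = 0 := by
    refine poly_indep (k := k) (fun p : Fin m × κ => D p.1 p.2) (y := fun p => y p.1 p.2)
      (fun s s' => hy s.1 s.2 s'.1 s'.2) (fun s μ => ?_) ?_
    · rw [coeff_sum, map_sum]
      refine sum_eq_zero fun β _ => ?_
      rw [coeff_monomial]
      split_ifs
      · exact ha _ _ _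
      · exact map_zero _
    · rw [map_sum, ← h]
      refine sum_congr rfl fun β _ => ?_
      rw [eval_monomial, Finsupp.prod_fintype _ _ fun _ => pow_zero _, Fintype.prod_prod_type]
      rfl
  funext α
  rw [← hco α, hz, coeff_zero]
  rfl

end mono

end Pool.Agent.Lib.MP_651af7_nt.As
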