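import Pool.Agent.Lib.MP_651af7_nt.As.Defs
import Pool.Agent.Lib.MP_651af7_nt.Av.RB

/-! Values of the leading form. -/

namespace Pool.Agent.Lib.MP_651af7_nt.As

open MvPolynomial Finset Height NumberField Matrix
open Av hiding Bad
open Es (Mo IX CX mo cx GA GC Bad Pen nv vol Tame IntV Dual)
open Rt (Pl av mu)

variable {k O N : Type} [Field k] [CharZero k] [Fintype O] [Fintype N] {ν : O → ℕ}
  {Ψ : MvPolynomial (O × N) k}

omit [Fintype N] in
theorem val_zz_apply [DecidableEq N] (d d' : N) (ν : O → ℕ) (o : O) :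
    zz d ν (o, d') = if d' = d then ν o else 0 := by
  classical
  rw [zz, Finsupp.finsetSum_apply, sum_eq_single o]
  · simp only [Finsupp.single_apply, Prod.mk.injEq, true_and, eq_comm]
  · intro o' _ h
    rw [Finsupp.single_apply, if_neg fun e => h (Prod.mk.inj e).1]
  · exact fun h => absurd (mem_univ o) h

theorem bdeg_zz (d : N) (ν : O → ℕ) : bdeg (zz d ν) = ν := by
  classical
  funext o
  simp only [bdeg, val_zz_apply, sum_ite_eq', mem_univ, if_true]

/- A monomial of block degree `ν` other than `zz d ν` contains a variable `(o, d')`, `d' ≠ d`. -/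
theorem eval_single [DecidableEq N] (hΨ : MH ν Ψ) (d : N) (l : O → k) :
    eval (fun p : O × N => if p.2 = d then l p.1 else 0) Ψ =
      (∏ o, l o ^ ν o) * coeff (zz d ν) Ψ := by
  rw [eval_eq', sum_eq_single (zz d ν), mul_comm]
  · congr 1
    rw [Fintype.prod_prod_type]
    refine prod_congr rfl fun o _ => ?_
    rw [prod_eq_single d]
    · rw [val_zz_apply, if_pos rfl, if_pos rfl]
    · intro d' _ h
      rw [val_zz_apply, if_neg h, if_neg h, pow_zero]
    · exact fun h => absurd (mem_univ d) h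
  · intro μ hμ hne
    obtain ⟨p, h1, h2⟩ : ∃ p : O × N, p.2 ≠ d ∧ μ p ≠ 0 := by
      by_contra hc
      push Not at hc
      refine hne (Finsupp.ext fun ⟨o, d'⟩ => ?_)
      rw [val_zz_apply]
      split_ifs with h
      · rw [← congrFun (hΨ μ hμ) o, bdeg, sum_eq_single d (fun b _ hb => hc (o, b) hb)
          fun h => absurd (mem_univ d) h, h]
      · exact hc (o, d') h
    rw [prod_eq_zero (mem_univ p) (by rw [if_neg h1, zero_pow h2]), mul_zero]
  · intro h
    rw [notMem_support_iff.1 h, zero_mul]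

/- `rb_transl` for the vector `fun p => τ p.1 p.2 - τ' p.1 p.2`, `Fintype.sum_prod_type`. -/
theorem eval_congr {τ τ' : O → N → k} (h : ∀ o, τ o - τ' o ∈ Inv Ψ o) :
    eval (fun p : O × N => τ p.1 p.2) Ψ = eval (fun p : O × N => τ' p.1 p.2) Ψ := by
  have h1 := rb_transl (fun p : O × N => τ' p.1 p.2) (fun p => τ p.1 p.2 - τ' p.1 p.2) (Ψ := Ψ) (by
    rw [Fintype.sum_prod_type]
    exact sum_eq_zero fun o _ => h o)
  rw [← h1]
  congr 2
  funext p
  simp

/- The rows `Y j`, `j ≠ j₀`, and `Y j₀` form a basis; write `y - (z ⬝ᵥ y) • single α 1` in it and pair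
with `z`; `z ⬝ᵥ Y j₀ ≠ 0` because `z ≠ 0`. -/
theorem mem_span_rows {κ : Type} [Fintype κ] [DecidableEq κ] {Y : Matrix κ κ k} (hY : Y.det ≠ 0)
    {z : κ → k} {α j₀ : κ} (hz : z α = 1) (ho : ∀ i, i ≠ j₀ → z ⬝ᵥ Y i = 0) (y : κ → k) :
    ∃ a : κ → k, y - (z ⬝ᵥ y) • Pi.single α 1 = ∑ j ∈ univ.erase j₀, a j • Y j := by
  have hU : IsUnit Y := (Matrix.isUnit_iff_isUnit_det Y).2 (Ne.isUnit hY)
  have hs : ∀ w : κ → k, ∃ a : κ → k, w = ∑ j, a j • Y j := fun w => by
    obtain ⟨a, ha⟩ := Matrix.vecMul_surjective_iff_isUnit.2 hU w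
    refine ⟨a, ha.symm.trans ?_⟩
    funext i
    simp [Matrix.vecMul, dotProduct]
  have hp : ∀ a : κ → k, z ⬝ᵥ ∑ j, a j • Y j = a j₀ * (z ⬝ᵥ Y j₀) := fun a => by
    rw [dotProduct_sum, sum_eq_single j₀, dotProduct_smul, smul_eq_mul]
    · intro j _ h
      rw [dotProduct_smul, ho j h, smul_zero]
    · exact fun h => absurd (mem_univ j₀) h
  have h1 : z ⬝ᵥ Pi.single α 1 = 1 := by rw [dotProduct_single, hz, mul_one]
  have h0 : z ⬝ᵥ Y j₀ ≠ 0 := fun h => by
    obtain ⟨a, ha⟩ := hs (Pi.single α 1)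
    rw [ha, hp, h, mul_zero] at h1
    exact zero_ne_one h1
  obtain ⟨a, ha⟩ := hs (y - (z ⬝ᵥ y) • Pi.single α 1)
  have h2 := hp a
  rw [← ha, dotProduct_sub, dotProduct_smul, h1, smul_eq_mul, mul_one, sub_self] at h2
  refine ⟨a, ha.trans ?_⟩
  rw [← add_sum_erase _ _ (mem_univ j₀), (mul_eq_zero.1 h2.symm).resolve_right h0, zero_smul,
    zero_add]

section Rel

variable {V : Type} [AddCommGroup V] [Module k V] {W : Submodule k V} {e : V}

omit [CharZero k] in
theorem val_add {a b : V} {c d : k} (h : a - c • e ∈ W) (h' : b - d • e ∈ W) :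
    a + b - (c + d) • e ∈ W := by
  rw [add_smul, add_sub_add_comm]
  exact add_mem h h'

omit [CharZero k] in
theorem val_smul (t : k) {a : V} {c : k} (h : a - c • e ∈ W) : t • a - (t * c) • e ∈ W := by
  rw [mul_smul, ← smul_sub]
  exact W.smul_mem t h

omit [CharZero k] in
theorem val_sum {L : Type} [Fintype L] (t : L → k) {a : L → V} {c : L → k}
    (h : ∀ l, a l - c l • e ∈ W) : ∑ l, t l • a l - (∑ l, t l * c l) • e ∈ W := by
  rw [sum_smul, ← sum_sub_distrib]
  exact sum_mem fun l _ => val_smul (t l) (h l)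

end Rel

/- Modulo `Inv Ψ o` the vector `vec t y s` is congruent to `λ • vec 0 (single α 1) 0` with
`λ = ∑ l, t l * gg o (some l) + z o ⬝ᵥ y + ∑ p, s p * (z o ⬝ᵥ η o p)`, and `gg o none • vec 0 (single α 1) 0`
is congruent to `0`.  `eval_congr`, `eval_single`; `Ψ ≠ 0` has a nonzero value (`MvPolynomial.funext`). -/
theorem lead_val {g : ℕ} {κ J : Type} [Fintype κ] [DecidableEq κ] [Fintype J] [DecidableEq J]
    {Ψ : MvPolynomial (O × NV g κ J) k} (hΨ : MH ν Ψ) (h0 : Ψ ≠ 0) {α j₀ : κ} {z : O → κ → k}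
    {Y : O → Matrix κ κ k} {η : O → J → κ → k} {gg : O → Option (Fin g) → k}
    (hz : ∀ o, z o α = 1) (hd : ∀ o, (Y o).det ≠ 0) (ho : ∀ o i, i ≠ j₀ → z o ⬝ᵥ Y o i = 0)
    (hY : ∀ o j, j ≠ j₀ → vec 0 (Y o j) 0 ∈ Inv Ψ o)
    (hη : ∀ o p, vec 0 (η o p) (-Pi.single p 1) ∈ Inv Ψ o)
    (hT : ∀ o d, vec (cv k d) (-gg o d • Pi.single α 1) 0 ∈ Inv Ψ o) :
    coeff (zz (.inr (.inl α)) ν) Ψ ≠ 0 ∧ ∀ G : O → k,
      (∀ (t : O → Fin g → k) (y : O → κ → k), (∀ o, ∃ s,
          G o = ∑ l, t o l * gg o (some l) + s * gg o none + z o ⬝ᵥ y o) →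
        eval (fun p => vec (t p.1) (y p.1) 0 p.2) Ψ =
          (∏ o, G o ^ ν o) * coeff (zz (.inr (.inl α)) ν) Ψ) ∧
      ∀ p, (∀ o, ∃ s, G o = s * gg o none + z o ⬝ᵥ η o p) →
        coeff (zz (.inr (.inr p)) ν) Ψ = (∏ o, G o ^ ν o) * coeff (zz (.inr (.inl α)) ν) Ψ := by
  classical
  set e : NV g κ J → k := vec 0 (Pi.single α 1) 0 with he
  have K1 : ∀ o y, vec 0 y 0 - (z o ⬝ᵥ y) • e ∈ Inv Ψ o := fun o y => by
    obtain ⟨a, ha⟩ := mem_span_rows (hd o) (hz o) (ho o) y
    have h1 : vec 0 y 0 - (z o ⬝ᵥ y) • e = ∑ j ∈ univ.erase j₀, a j • vec 0 (Y o j) 0 := by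
      funext d
      rcases d with l | i | p
      · simp [he, vec]
      · simpa [he, vec, Pi.single_apply] using congrFun ha i
      · simp [he, vec]
    rw [h1]
    exact sum_mem fun j hj => Submodule.smul_mem _ _ (hY o j (ne_of_mem_erase hj))
  have K2 : ∀ o d, vec (cv k d) 0 0 - gg o d • e ∈ Inv Ψ o := fun o d => by
    convert hT o d using 1
    funext d
    rcases d with l | i | p <;> simp [he, vec, Pi.single_apply]
  have K0 : ∀ o s, 0 - (s * gg o none) • e ∈ Inv Ψ o := fun o s => by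
    convert val_smul s (K2 o none) using 2
    funext d
    rcases d with l | i | p <;> simp [vec, cv]
  have K3 : ∀ o p, vec 0 0 (Pi.single p 1) - (z o ⬝ᵥ η o p) • e ∈ Inv Ψ o := fun o p => by
    convert sub_mem (K1 o (η o p)) (hη o p) using 1
    funext d
    rcases d with l | i | p <;> simp [he, vec, Pi.single_apply]
  have K4 : ∀ o t y s, vec t y s - (∑ l, t l * gg o (some l) + z o ⬝ᵥ y +
      ∑ p, s p * (z o ⬝ᵥ η o p)) • e ∈ Inv Ψ o := fun o t y s => by
    convert val_add (val_add (val_sum t fun l => K2 o (some l)) (K1 o y)) (val_sum s (K3 o)) using 2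
    funext d
    rcases d with l | i | p <;> simp [vec, cv, Pi.single_apply]
  have M : ∀ (τ : O → NV g κ J → k) (c : O → k), (∀ o, τ o - c o • e ∈ Inv Ψ o) →
      eval (fun p : O × NV g κ J => τ p.1 p.2) Ψ =
        (∏ o, c o ^ ν o) * coeff (zz (.inr (.inl α)) ν) Ψ := fun τ c h => by
    rw [eval_congr h, ← eval_single hΨ]
    congr 2
    funext ⟨o, d⟩
    rcases d with l | i | p <;> simp [he, vec, Pi.single_apply]
  refine ⟨fun h => h0 (MvPolynomial.funext fun x => ?_), fun G => ⟨fun t y h => ?_, fun p h => ?_⟩⟩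
  · have h1 := M (fun o d => x (o, d)) _ fun o => by
      convert K4 o (fun l => x (o, .inl l)) (fun i => x (o, .inr (.inl i)))
        (fun p => x (o, .inr (.inr p))) using 2
      funext d
      rcases d with l | i | p <;> rfl
    rw [h, mul_zero] at h1
    rw [map_zero]
    exact h1
  · refine M (fun o => vec (t o) (y o) 0) G fun o => ?_
    obtain ⟨s, hs⟩ := h o
    convert val_add (K4 o (t o) (y o) 0) (K0 o s) using 3
    · rw [add_zero]
    · rw [hs]
      simp only [Pi.zero_apply, zero_mul, sum_const_zero]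
      ring
  · rw [← M (fun _ => vec 0 0 (Pi.single p 1)) G fun o => ?_]
    · have h1 := eval_single hΨ (.inr (.inr p)) fun _ => 1
      simp only [one_pow, prod_const_one, one_mul] at h1
      rw [← h1]
      congr 2
      funext ⟨o, d⟩
      rcases d with l | i | q <;> simp [vec, Pi.single_apply]
    · obtain ⟨s, hs⟩ := h o
      rw [hs]
      simpa only [zero_add] using val_add (K0 o s) (K3 o p)

end Pool.Agent.Lib.MP_651af7_nt.As
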