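import Pool.Agent.Lib.MP_651af7_nt.As.Pts
import Pool.Agent.Lib.MP_651af7_nt.As.Kil
import Pool.Agent.Lib.MP_651af7_nt.As.Sv
import Pool.Agent.Lib.MP_651af7_nt.As.Val

/-! The link with the polynomials of small height. -/

namespace Pool.Agent.Lib.MP_651af7_nt.As

open MvPolynomial Finset Height NumberField Matrix
open Av hiding Bad
open Es (Mo IX CX mo cx GA GC Bad Pen nv vol Tame IntV Dual)
open Rt (Pl av mu)

/-- The variables that survive: `ξ`, `s` and one variable in each block. -/
def eK {m r g : ℕ} {κ J : Type} (α : κ) :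
    (Fin m × Fin r ⊕ Fin m × κ) ⊕ Fin m ↪ VV m r g κ J :=
  ⟨Sum.map id fun o => (o, .inr (.inl α)), Sum.map_injective.2
    ⟨Function.injective_id, fun _ _ h => congrArg Prod.fst h⟩⟩

theorem link_two {k A B : Type} [CommRing k] (f : MvPowerSeries A k) (g : MvPowerSeries B k)
    (μ : A →₀ ℕ) (σ : B →₀ ℕ) :
    MvPowerSeries.coeff (μ.sumElim σ) (MvPowerSeries.rename Function.Embedding.inl f *
      MvPowerSeries.rename Function.Embedding.inr g : MvPowerSeries (A ⊕ B) k) =
      MvPowerSeries.coeff μ f * MvPowerSeries.coeff σ g := by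
  classical
  rw [MvPowerSeries.coeff_mul, Finset.sum_eq_single
    (Finsupp.embDomain Function.Embedding.inl μ, Finsupp.embDomain Function.Embedding.inr σ)]
  · rw [MvPowerSeries.coeff_embDomain_rename, MvPowerSeries.coeff_embDomain_rename]
  · rintro ⟨p, q⟩ hp hne
    by_cases h1 : p ∈ Set.range (Finsupp.mapDomain (Function.Embedding.inl : A ↪ A ⊕ B))
    · by_cases h2 : q ∈ Set.range (Finsupp.mapDomain (Function.Embedding.inr : B ↪ A ⊕ B))
      · obtain ⟨a, rfl⟩ := h1
        obtain ⟨b, rfl⟩ := h2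
        have h3 : a.sumElim b = μ.sumElim σ := by
          rw [Finsupp.sumElim_eq_add]
          exact Finset.HasAntidiagonal.mem_antidiagonal.1 hp
        have ha : a = μ := Finsupp.ext fun x => DFunLike.congr_fun h3 (.inl x)
        have hb : b = σ := Finsupp.ext fun x => DFunLike.congr_fun h3 (.inr x)
        exact absurd (by rw [ha, hb, Finsupp.embDomain_eq_mapDomain,
          Finsupp.embDomain_eq_mapDomain]) hne
      · rw [MvPowerSeries.coeff_rename_eq_zero _ _ h2, mul_zero]
    · rw [MvPowerSeries.coeff_rename_eq_zero _ _ h1, zero_mul]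
  · intro h
    refine absurd (Finset.HasAntidiagonal.mem_antidiagonal.2 ?_) h
    rw [Finsupp.sumElim_eq_add, Finsupp.embDomain_eq_mapDomain, Finsupp.embDomain_eq_mapDomain]
    rfl

/- `MvPowerSeries.coeff_mul_monomial`-like for the last factor; in the first two factors only one
splitting contributes (`coeff_embDomain_rename`, `coeff_rename_eq_zero`, `MvPolynomial.coeff_coe`). -/
theorem coeff_three {k A A' O : Type} [Field k] [Fintype O] (f : MvPowerSeries A k)
    (q : MvPolynomial A' k) (n ν : O → ℕ) (μ : A →₀ ℕ) (σ : A' →₀ ℕ) :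
    MvPowerSeries.coeff ((μ.sumElim σ).sumElim (Finsupp.equivFunOnFinite.symm ν))
      (MvPowerSeries.rename (Function.Embedding.inl.trans Function.Embedding.inl) f *
        aeval (fun a => MvPowerSeries.X (Sum.inl (Sum.inr a))) q *
        ∏ o, MvPowerSeries.X (Sum.inr o) ^ n o : MvPowerSeries ((A ⊕ A') ⊕ O) k) =
      if n = ν then MvPowerSeries.coeff μ f * coeff σ q else 0 := by
  classical
  have h1 : (MvPowerSeries.rename (Function.Embedding.inl.trans Function.Embedding.inl) f :
      MvPowerSeries ((A ⊕ A') ⊕ O) k) = MvPowerSeries.rename Function.Embedding.inl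
        (MvPowerSeries.rename Function.Embedding.inl f) := by
    rw [MvPowerSeries.rename_rename]
    rfl
  have h2 : (aeval (fun a => MvPowerSeries.X (Sum.inl (Sum.inr a))) q :
      MvPowerSeries ((A ⊕ A') ⊕ O) k) = MvPowerSeries.rename Function.Embedding.inl
        (MvPowerSeries.rename Function.Embedding.inr (q : MvPowerSeries A' k)) := by
    induction q using MvPolynomial.induction_on with
    | C a => simp [MvPowerSeries.algebraMap_apply]
    | add p q hp hq => rw [map_add, hp, hq, MvPolynomial.coe_add, map_add, map_add]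
    | mul_X p a hp => rw [map_mul, hp, MvPolynomial.coe_mul, map_mul, map_mul]; simp
  have h3 : (∏ o, MvPowerSeries.X (Sum.inr o) ^ n o : MvPowerSeries ((A ⊕ A') ⊕ O) k) =
      MvPowerSeries.rename Function.Embedding.inr
        (MvPowerSeries.monomial (Finsupp.equivFunOnFinite.symm n) (1 : k)) := by
    rw [MvPowerSeries.monomial_eq', Finsupp.prod_fintype _ _ (by simp)]
    simp
  rw [h1, h2, h3, ← map_mul, link_two, link_two, MvPolynomial.coeff_coe,
    MvPowerSeries.coeff_monomial]
  by_cases h : n = ν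
  · simp [h]
  · rw [if_neg h, if_neg fun h' => h (Finsupp.equivFunOnFinite.symm.injective h').symm, mul_zero]

private theorem link_emb {m r g : ℕ} {κ J : Type} (α : κ) (μ : Fin m × Fin r ⊕ Fin m × κ →₀ ℕ)
    (ν : Fin m → ℕ) :
    Finsupp.embDomain (eK (g := g) (J := J) α) (μ.sumElim (Finsupp.equivFunOnFinite.symm ν)) =
      μ.sumElim (zz (.inr (.inl α)) ν) := by
  classical
  ext v
  rcases v with v | ⟨o, d⟩
  · exact Finsupp.embDomain_apply_self (eK (g := g) (J := J) α) _ (.inl v)
  · have hz : zz (.inr (.inl α) : NV g κ J) ν (o, d) = if d = .inr (.inl α) then ν o else 0 := by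
      rw [zz, Finsupp.finsetSum_apply, Finset.sum_eq_single o]
      · simp [Finsupp.single_apply, eq_comm]
      · intro b _ hb
        simp [hb]
      · simp
    rw [Finsupp.sumElim_inr, hz]
    split_ifs with hd
    · subst hd
      exact Finsupp.embDomain_apply_self (eK (g := g) (J := J) α) _ (.inr o)
    · refine Finsupp.embDomain_of_notMem_range _ _ _ ?_
      rintro ⟨v | o', hv⟩
      · cases hv
      · exact hd (congrArg Prod.snd (Sum.inr.inj hv)).symm

private noncomputable def link_ex {m : ℕ} {κ : Type} [Fintype κ] [DecidableEq κ] (α : κ)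
    (b : Fin m → κ → ℕ) : Fin m × κ →₀ ℕ :=
  Finsupp.equivFunOnFinite.symm fun p => if p.2 = α then 0 else b p.1 p.2

private theorem link_eval {k : Type} [Field k] {m : ℕ} {κ : Type} [Fintype κ] [DecidableEq κ]
    (α : κ) (b : Fin m → κ → ℕ) (w : Fin m × κ → k) (a : k) :
    eval w (monomial (link_ex α b) a) = a * ∏ o, ∏ l ∈ univ.erase α, w (o, l) ^ b o l := by
  rw [eval_monomial, Finsupp.prod_fintype _ _ (by simp), Fintype.prod_prod_type]
  congr 1
  refine prod_congr rfl fun o _ => ?_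
  rw [← mul_prod_erase univ _ (mem_univ α)]
  simp only [link_ex, Finsupp.coe_equivFunOnFinite_symm, if_true, pow_zero, one_mul]
  exact prod_congr rfl fun l hl => by rw [if_neg (ne_of_mem_erase hl)]

variable {k ι κ J : Type} [Field k] [NumberField k] [Fintype ι] [Fintype κ] [DecidableEq κ]
  [Fintype J] {g r m : ℕ} {B : AV k ι} {F : FB B g} {D : Dat k ι κ J g r m} {P : Fin m → B.Pt k}

namespace Dat

theorem link_Zp {R : Type} [CommRing R] (α : κ) (W z p : κ → R) (x : R) (hW : W α = 1)
    (hz : z α = 1) (h0 : ∑ l, z l * p l = 0) (l : κ) :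
    p l + (if l = α then x else 0) -
      (if l = α then ∑ l', (W l' - z l') * (p l' + if l' = α then x else 0) else 0) =
      (Zp α W *ᵥ fun l => if l = α then x else p l) l := by
  by_cases hl : l = α
  · subst hl
    rw [← Finset.add_sum_erase _ _ (mem_univ l)] at h0
    simp only [mulVec, dotProduct, Zp, Matrix.of_apply, if_true]
    rw [← Finset.add_sum_erase _ _ (mem_univ l), ← Finset.add_sum_erase _ _ (mem_univ l)]
    have e1 : ∑ j ∈ univ.erase l, (W j - z j) * (p j + if j = l then x else 0) =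
        ∑ j ∈ univ.erase l, W j * p j - ∑ j ∈ univ.erase l, z j * p j := by
      rw [← sum_sub_distrib]
      exact sum_congr rfl fun j hj => by rw [if_neg (mem_erase.1 hj).1]; ring
    have e2 : ∑ j ∈ univ.erase l, (if j = l then 1 else -W j) * (if j = l then x else p j) =
        -∑ j ∈ univ.erase l, W j * p j := by
      rw [← sum_neg_distrib]
      exact sum_congr rfl fun j hj => by
        rw [if_neg (mem_erase.1 hj).1, if_neg (mem_erase.1 hj).1]; ring
    rw [e1, e2, if_pos rfl, if_pos rfl, if_pos rfl, hW, hz]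
    rw [hz] at h0
    linear_combination h0
  · simp only [mulVec, dotProduct, Zp, Matrix.of_apply, if_neg hl, ite_mul, one_mul, zero_mul,
      sum_ite_eq, mem_univ, if_true, add_zero, sub_zero]

/- `map_SV`, `map_Fa`, `map_ph`; `kill_rename_comp` for `xi`, `kill_rename` for `rh`, `killCompl_X`,
`killCompl_X_eq_zero`.  The image of `yy o` is `Zp α (image of xi o ∘ inr) *ᵥ u o` with `u o α = X (inr o)`
and `u o l = C (Y o j₁ l) + ∑ j, X (o, j) * C (Y o j l)` for `l ≠ α` (`xi_α`, `z_α`, `Ok.orth`, `Ok.ne`).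
`SV_mulVec`, `map_GC`. -/
theorem Ok.kill_ff (h : D.Ok F P) (c : D.Co F κ) :
    MvPowerSeries.killCompl (eK D.α) (D.ff F c) = ∑ β : IX κ D.e,
      MvPowerSeries.rename (Function.Embedding.inl.trans Function.Embedding.inl)
          (aeval (xo D.ξ) (D.GP F c β)) *
        aeval (fun a => MvPowerSeries.X (Sum.inl (Sum.inr a))) (D.YP β) *
        ∏ o, MvPowerSeries.X (Sum.inr o) ^ (β o).1 D.α := by
  obtain ⟨K, hK⟩ : ∃ K : RB k m r g κ J →ₐ[k] MvPowerSeries _ k,
      K = MvPowerSeries.killCompl (eK D.α) := ⟨_, rfl⟩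
  obtain ⟨Φ, hΦ⟩ : ∃ Φ : MvPolynomial (Fin m × (ι ⊕ κ)) k →ₐ[k]
      MvPowerSeries ((Fin m × Fin r ⊕ Fin m × κ) ⊕ Fin m) k,
      Φ = (MvPowerSeries.rename (Function.Embedding.inl.trans Function.Embedding.inl)).comp
        (aeval (xo D.ξ)) := ⟨_, rfl⟩
  obtain ⟨p, hp⟩ : ∃ p : Fin m → κ → MvPowerSeries ((Fin m × Fin r ⊕ Fin m × κ) ⊕ Fin m) k,
      p = fun o l => MvPowerSeries.C (D.Y o D.j₁ l) + ∑ j ∈ univ.erase D.j₀,
        MvPowerSeries.X (.inl (.inr (o, j))) * MvPowerSeries.C (D.Y o j l) := ⟨_, rfl⟩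
  have hC : ∀ a : k, K (MvPowerSeries.C a) = MvPowerSeries.C a := fun a => by
    rw [hK, MvPowerSeries.killCompl_C]
  have hxi : ∀ o a, K (D.xi o a) = Φ (X (o, a)) := fun o a => by
    rw [hK, hΦ, xi, kill_rename_comp (eK D.α) (eX o)
      ((vO o).trans (Function.Embedding.inl.trans Function.Embedding.inl)) fun _ => rfl,
      AlgHom.comp_apply, aeval_X, xo, MvPowerSeries.rename_rename]
    rfl
  have hrh : ∀ o a, K (D.rh o a) = Φ (C (B.o a)) := fun o a => by
    rw [hK, rh, kill_rename, h.par.const, algHom_C]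
    · rfl
    · rintro b ⟨x | x, hx⟩ <;> simp [eK, eT] at hx
  have hs : ∀ a, K (MvPowerSeries.X (.inl a)) = MvPowerSeries.X (.inl a) := fun a => by
    rw [hK]
    exact MvPowerSeries.killCompl_X (e := eK D.α) (.inl a)
  have hζ : ∀ o l, K (MvPowerSeries.X (.inr (o, .inr (.inl l)))) =
      if l = D.α then MvPowerSeries.X (.inr o) else 0 := fun o l => by
    rw [hK]
    split_ifs with hl
    · rw [hl]
      exact MvPowerSeries.killCompl_X (e := eK D.α) (.inr o)
    · refine MvPowerSeries.killCompl_X_eq_zero ?_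
      rintro ⟨x | x, hx⟩ <;> simp [eK] at hx
      exact hl hx.2.symm
  have hη : ∀ o q, K (MvPowerSeries.X (.inr (o, .inr (.inr q)))) = 0 := fun o q => by
    rw [hK]
    refine MvPowerSeries.killCompl_X_eq_zero ?_
    rintro ⟨x | x, hx⟩ <;> simp [eK] at hx
  have hyp : ∀ o l, K (D.yp o l) = p o l + if l = D.α then MvPowerSeries.X (.inr o) else 0 :=
    fun o l => by
      simp only [yp, map_add, map_sum, map_mul, hC, hs, hζ, hη, zero_mul, sum_const_zero,
        add_zero, hp]
  have h0 : ∀ o, ∑ l, MvPowerSeries.C (D.z o l) * p o l = 0 := fun o => by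
    have e : ∀ j, j ≠ D.j₀ → ∑ l, (MvPowerSeries.C (D.z o l) * MvPowerSeries.C (D.Y o j l) :
        MvPowerSeries ((Fin m × Fin r ⊕ Fin m × κ) ⊕ Fin m) k) = 0 := fun j hj => by
      simp only [← map_mul, ← map_sum]
      exact (congrArg MvPowerSeries.C (h.orth o j hj)).trans (map_zero _)
    simp only [hp, mul_add, sum_add_distrib, mul_sum]
    rw [e _ h.ne, zero_add, sum_comm]
    refine sum_eq_zero fun j hj => ?_
    simp only [mul_left_comm _ (MvPowerSeries.X _)]
    rw [← mul_sum, e _ (mem_erase.1 hj).1, mul_zero]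
  have hyy : ∀ o, (fun l => K (D.yy o l)) = Zp D.α (fun l => Φ (X (o, .inr l))) *ᵥ
      fun l => if l = D.α then MvPowerSeries.X (.inr o) else p o l := fun o => by
    funext l
    rw [← link_Zp D.α _ (fun l => MvPowerSeries.C (D.z o l)) (p o) _
      (by rw [← hxi, h.xi_α, map_one]) (by rw [h.z_α, map_one]) (h0 o), yy, map_sub, hyp]
    congr 1
    split_ifs
    · simp only [map_sum, map_mul, map_sub, hxi, hC, hyp]
    · exact map_zero _
  have hZ : ∀ o, (Zp D.α fun l => (X (o, .inr l) : MvPolynomial (Fin m × (ι ⊕ κ)) k)).map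
      Φ = Zp D.α fun l => Φ (X (o, .inr l)) := fun o => by
    ext1 l j
    simp only [Zp, Matrix.map_apply, Matrix.of_apply]
    split_ifs <;> simp
  rw [← hK, ff, FF]
  have e1 := map_SV K.toRingHom c (D.toCf.Fa F D.a₀ (D.ty B fun _ => D.a₁)) D.yy
  simp only [AlgHom.toRingHom_eq_coe, RingHom.coe_coe] at e1
  rw [e1, funext hyy, SV_mulVec]
  refine sum_congr rfl fun β _ => ?_
  have e2 := Es.map_GC Φ.toRingHom c (D.toCf.Fa F D.a₀ fun o a =>
    B.ph a D.a₁ (fun c => X (o, .inl c)) fun c => C (B.o c))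
    (fun o => Zp D.α fun l => X (o, .inr l)) β
  simp only [AlgHom.toRingHom_eq_coe, RingHom.coe_coe, hZ] at e2
  rw [mul_assoc]
  congr 1
  · rw [← AlgHom.comp_apply, ← hΦ, GP, e2]
    simp only [Cf.map_Fa, AV.map_ph, ty, hxi, hrh]
  · rw [YP, map_prod, ← prod_mul_distrib]
    refine prod_congr rfl fun o _ => ?_
    rw [mo, ← Finset.mul_prod_erase _ _ (mem_univ D.α), if_pos rfl, mul_comm, map_prod]
    congr 1
    refine prod_congr rfl fun l hl => ?_
    rw [if_neg (mem_erase.1 hl).1, hp]
    simp [MvPowerSeries.algebraMap_apply]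

/- `MvPowerSeries.coeff_killCompl`, `kill_ff`, `coeff_three`. -/
theorem Ok.coeff_ff (h : D.Ok F P) (c : D.Co F κ) (μ : Fin m × Fin r →₀ ℕ) (σ : Fin m × κ →₀ ℕ)
    (ν : Fin m → ℕ) :
    MvPowerSeries.coeff ((μ.sumElim σ).sumElim (zz (.inr (.inl D.α)) ν)) (D.ff F c) =
      ∑ β ∈ univ.filter fun β : IX κ D.e => (fun o => (β o).1 D.α) = ν,
        MvPowerSeries.coeff μ (aeval (xo D.ξ) (D.GP F c β)) * coeff σ (D.YP β) := by
  rw [← link_emb, ← MvPowerSeries.coeff_killCompl, h.kill_ff, map_sum, sum_filter]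
  exact sum_congr rfl fun β _ => coeff_three _ _ _ _ _ _

/- The affine forms `u (o, l) = C (Y o j₁ l) + ∑ j ≠ j₀, X (o, j) * C (Y o j l)`, `l ≠ α`, are
algebraically independent: `mem_span_rows` (`As/Val`) for `y = single l 1 - z l • single α 1` gives
values of the variables at which the linear parts take any prescribed values, so a relation vanishes
identically (`MvPolynomial.funext`).  Exponents `β` with the same entries at `α` that agree off `α` are
equal; here different `β` in the set differ off `α` (`sum_Mo`). -/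
theorem Ok.YP_indep (h : D.Ok F P) (ν : Fin m → ℕ) (a : IX κ D.e → k)
    (ha : ∑ β ∈ univ.filter fun β : IX κ D.e => (fun o => (β o).1 D.α) = ν,
      C (a β) * D.YP β = 0) (β : IX κ D.e) (hβ : (fun o => (β o).1 D.α) = ν) : a β = 0 := by
  classical
  have hQ : ∑ β ∈ univ.filter fun β : IX κ D.e => (fun o => (β o).1 D.α) = ν,
      monomial (link_ex D.α fun o => (β o).1) (a β) = 0 := by
    refine MvPolynomial.funext fun w => ?_
    choose s hs using fun o =>
      mem_span_rows (h.det o) (h.z_α o) (h.orth o) ((fun l => w (o, l)) - D.Y o D.j₁)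
    have h1 := congrArg (eval fun p : Fin m × κ => s p.1 p.2) ha
    rw [map_sum, map_zero] at h1 ⊢
    rw [← h1]
    refine sum_congr rfl fun β _ => ?_
    rw [link_eval, map_mul, eval_C, YP, map_prod]
    congr 1
    refine prod_congr rfl fun o _ => ?_
    rw [map_prod]
    refine prod_congr rfl fun l hl => ?_
    have h2 := congrFun (hs o) l
    simp only [Pi.sub_apply, Pi.smul_apply, Pi.single_eq_of_ne (ne_of_mem_erase hl), mul_zero,
      sub_zero, Finset.sum_apply, smul_eq_mul] at h2
    simp only [map_pow, map_add, map_sum, map_mul, eval_C, eval_X]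
    rw [← h2, add_sub_cancel]
  have h3 := congrArg (coeff (link_ex D.α fun o => (β o).1)) hQ
  rw [coeff_sum, coeff_zero, sum_eq_single β] at h3
  · simpa using h3
  · intro β' hβ' hne
    rw [coeff_monomial, if_neg]
    intro he
    refine hne (funext fun o => Subtype.ext (funext fun l => ?_))
    by_cases hl : l = D.α
    · rw [hl]
      exact (congrFun (mem_filter.1 hβ').2 o).trans (congrFun hβ o).symm
    · simpa [link_ex, hl] using DFunLike.congr_fun he (o, l)
  · intro hn
    exact (hn (mem_filter.2 ⟨mem_univ β, hβ⟩)).elim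

theorem Ok.link1 (h : D.Ok F P) {c : D.Co F κ} {μ : Fin m × Fin r ⊕ Fin m × κ →₀ ℕ}
    {ν : Fin m → ℕ}
    (h0 : MvPowerSeries.coeff (μ.sumElim (zz (.inr (.inl D.α)) ν)) (D.ff F c) ≠ 0) :
    ∃ β : IX κ D.e, (fun o => (β o).1 D.α) = ν ∧ aeval (xo D.ξ) (D.GP F c β) ≠ 0 := by
  have hμ : μ = (μ.comapDomain Sum.inl Sum.inl_injective.injOn).sumElim
      (μ.comapDomain Sum.inr Sum.inr_injective.injOn) := by
    ext v
    rcases v with v | v <;> simp
  rw [hμ, h.coeff_ff] at h0
  obtain ⟨β, hβ, h1⟩ := exists_ne_zero_of_sum_ne_zero h0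
  refine ⟨β, (mem_filter.1 hβ).2, fun h2 => h1 ?_⟩
  rw [h2, map_zero, zero_mul]

theorem Ok.link2 (h : D.Ok F P) {c : D.Co F κ} {μ : Fin m × Fin r →₀ ℕ} {β : IX κ D.e}
    (h0 : MvPowerSeries.coeff μ (aeval (xo D.ξ) (D.GP F c β)) ≠ 0) : ∃ σ : Fin m × κ →₀ ℕ,
      MvPowerSeries.coeff ((μ.sumElim σ).sumElim (zz (.inr (.inl D.α)) fun o => (β o).1 D.α))
        (D.ff F c) ≠ 0 := by
  by_contra hn
  push Not at hn
  refine h0 (h.YP_indep (fun o => (β o).1 D.α)
    (fun β' => MvPowerSeries.coeff μ (aeval (xo D.ξ) (D.GP F c β'))) ?_ β rfl)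
  ext σ
  rw [coeff_sum, coeff_zero, ← hn σ, h.coeff_ff]
  exact sum_congr rfl fun β' _ => coeff_C_mul _ _ _

end Dat

end Pool.Agent.Lib.MP_651af7_nt.As
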