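import Pool.Agent.Lib.MP_651af7_nt.As.Loc
import Pool.Agent.Lib.MP_651af7_nt.As.Val
import Pool.Agent.Lib.MP_651af7_nt.Es.APF

/-! Local estimates at the chosen places; the product formula. -/

namespace Pool.Agent.Lib.MP_651af7_nt.As

open MvPolynomial Finset Height NumberField Matrix
open Av hiding Bad
open Es (Mo IX CX mo cx GA GC Bad Pen nv vol Tame IntV Dual)
open Rt (Pl av mu)

theorem locS_E {na : Prop} {T : ℝ} (hT : 2 ≤ T) (n : ℕ) : E na n ≤ T ^ n :=
  E_le_pow ((E_le_self one_le_two).trans hT) (by exact_mod_cast Nat.lt_two_pow_self.le)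

theorem locS_det {R κ : Type} [CommRing R] [Fintype κ] [DecidableEq κ] {na : Prop} (S : SN R na)
    {T A : ℝ} (hT : 2 ≤ T) (hA : 0 ≤ A) (N : Matrix κ κ R) (h : ∀ i j, S.N (N i j) ≤ A) :
    S.N N.det ≤ T ^ (Fintype.card κ).factorial * A ^ Fintype.card κ := by
  rw [det_apply]
  refine (S.sum_le_card univ (pow_nonneg hA (Fintype.card κ)) fun σ _ => ?_).trans ?_
  · have h1 : S.N (∏ i, N (σ i) i) ≤ A ^ Fintype.card κ := by
      simpa using S.prod_le univ (t := fun _ => A) fun i _ => h (σ i) i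
    rcases Int.units_eq_one_or (Equiv.Perm.sign σ) with e | e
    · rwa [e, one_smul]
    · rwa [e, Units.neg_smul, one_smul, S.neg]
  · rw [card_univ, Fintype.card_perm]
    exact mul_le_mul_of_nonneg_right (locS_E hT _) (pow_nonneg hA _)

/- `|y a| ≤ T ^ 2`; `SN.Ov.aeval_le`, `eval₂_sub_le` (for the difference with the constants
`algebraMap (x a)`; `E n ≤ 2 ^ n ≤ T ^ n`); an entry of the adjugate is a determinant with a unit row
(`Matrix.adjugate_apply`, `Matrix.det_apply`, `SN.sum_le_card`).  For the last claim write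
`M (y) *ᵥ u = M (x) *ᵥ u' + M (x) *ᵥ (u - u') + (M (y) - M (x)) *ᵥ u`. -/
theorem mat_le (κ : Type) [Fintype κ] [DecidableEq κ] (eM : ℕ) : ∃ C : ℕ,
    ∀ (k ι R : Type) [Field k] [CommRing R] [Algebra k R] (v : AbsoluteValue k ℝ)
      (S : SN R (IsNonarchimedean v)) (M : Matrix κ κ (MvPolynomial ι k)) (x : ι → k) (y : ι → R)
      (T γ : ℝ), S.Ov v → 2 ≤ T → 0 ≤ γ → γ ≤ 1 → (∀ i j, (M i j).IsHomogeneous eM) →
      (∀ i j, pl v (M i j) ≤ T) → (∀ a, v (x a) ≤ T) →
      (∀ a, S.N (y a - algebraMap k R (x a)) ≤ γ) →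
      (∀ i j, S.N ((M.map (aeval y)).adjugate i j) ≤ T ^ C) ∧
      ∀ (u u' : κ → R) (b : ℝ), 0 ≤ b → (∀ l, S.N (u l) ≤ b) → (∀ l, S.N (u l - u' l) ≤ γ * b) →
        ∀ l, S.N ((M.map (aeval y) *ᵥ u) l -
          ((M.map (eval x)).map (algebraMap k R) *ᵥ u') l) ≤ T ^ C * (γ * b) := by
  refine ⟨(Fintype.card κ).factorial + (2 * eM + 1) * Fintype.card κ +
    (Fintype.card κ + (3 * eM + 2)), ?_⟩
  intro k ι R _ _ _ v S M x y T γ hS hT h0 h1 hM hp hx hy
  have T1 : 1 ≤ T := by linarith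
  have T0 : 0 ≤ T := by linarith
  have T2 : 1 ≤ T ^ 2 := one_le_pow₀ T1
  have x2 : ∀ a, S.N (algebraMap k R (x a)) ≤ T ^ 2 := fun a =>
    ((hS _).trans (hx a)).trans (by nlinarith)
  have y2 : ∀ a, S.N (y a) ≤ T ^ 2 := fun a => by
    have h := S.add (y a - algebraMap k R (x a)) (algebraMap k R (x a))
    rw [sub_add_cancel] at h
    have := (hS _).trans (hx a)
    nlinarith [hy a]
  have val : ∀ z : ι → R, (∀ a, S.N (z a) ≤ T ^ 2) → ∀ i j,
      S.N (aeval z (M i j)) ≤ T ^ (2 * eM + 1) := fun z hz i j => by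
    refine (hS.aeval_le (hM i j) (by positivity) hz).trans ?_
    rw [pow_succ' T (2 * eM), pow_mul]
    exact mul_le_mul_of_nonneg_right (hp i j) (by positivity)
  have ev : ∀ i j, algebraMap k R (eval x (M i j)) =
      aeval (fun a => algebraMap k R (x a)) (M i j) := fun i j =>
    (aeval_algebraMap_apply R x (M i j)).symm
  have dif : ∀ i j, S.N (aeval y (M i j) - aeval (fun a => algebraMap k R (x a)) (M i j)) ≤
      T ^ (3 * eM + 1) * γ := fun i j => by
    refine (eval₂_sub_le (absSN v) (t := fun _ => T ^ 2) S _ hS h0 y2 x2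
      (fun a => (hy a).trans (le_mul_of_one_le_right h0 T2)) (M i j)).trans ?_
    have a1 : E (IsNonarchimedean v) (M i j).totalDegree ≤ T ^ eM :=
      (locS_E hT _).trans (pow_le_pow_right₀ T1 (hM i j).totalDegree_le)
    have a2 : polN (absSN v) (fun _ => T ^ 2) (M i j) ≤ T * (T ^ 2) ^ eM := by
      refine (polN_le_mul _ (fun _ => by positivity) (b := (T ^ 2) ^ eM) (by positivity)
        fun μ hμ => ?_).trans (mul_le_mul_of_nonneg_right (hp i j) (by positivity))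
      rw [wt_const]
      exact pow_le_pow_right₀ T2 ((le_totalDegree hμ).trans (hM i j).totalDegree_le)
    refine (mul_le_mul (mul_le_mul_of_nonneg_right a1 h0) a2
      (polN_nonneg _ (fun _ => by positivity) _) (by positivity)).trans_eq (by ring)
  refine ⟨fun i j => ?_, fun u u' b hb hu hu' l => ?_⟩
  · rw [adjugate_apply]
    refine (locS_det S hT (A := T ^ (2 * eM + 1)) (by positivity) _ fun a c => ?_).trans ?_
    · rw [updateRow_apply]
      split_ifs
      · rw [Pi.single_apply]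
        split_ifs
        · exact S.one.trans (one_le_pow₀ T1)
        · rw [S.zero]
          positivity
      · exact val y y2 a c
    · rw [← pow_mul, ← pow_add]
      exact pow_le_pow_right₀ T1 (Nat.le_add_right _ _)
  · have gb : 0 ≤ γ * b := mul_nonneg h0 hb
    simp only [mulVec, dotProduct, map_apply, ev]
    rw [← sum_sub_distrib]
    refine (S.sum_le_card univ (M := T ^ (3 * eM + 2) * (γ * b)) (by positivity)
      fun c _ => ?_).trans ?_
    · rw [show ∀ p q r s : R, p * r - q * s = (p - q) * r + q * (r - s) from fun _ _ _ _ => by ring]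
      refine (S.add _ _).trans ?_
      have a1 := S.mul_le (dif l c) (hu c)
      have a2 := (S.mul_le (val _ x2 l c) (hu' c)).trans (mul_le_mul_of_nonneg_right
        (pow_le_pow_right₀ T1 (show 2 * eM + 1 ≤ 3 * eM + 1 by omega)) gb)
      have a3 : 0 ≤ T ^ (3 * eM + 1) * (γ * b) := by positivity
      rw [pow_succ T (3 * eM + 1)]
      nlinarith
    · rw [card_univ, ← mul_assoc]
      refine mul_le_mul_of_nonneg_right ((mul_le_mul_of_nonneg_right (locS_E hT _)
        (by positivity)).trans ?_) gb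
      rw [← pow_add]
      exact pow_le_pow_right₀ T1 (Nat.le_add_left _ _)

theorem locS_sum {R α : Type} [CommRing R] {na : Prop} (S : SN R na) (s : Finset α) {f : α → R}
    {t : α → ℝ} (h : ∀ i ∈ s, S.N (f i) ≤ t i) : S.N (∑ i ∈ s, f i) ≤ ∑ i ∈ s, t i := by
  classical
  induction s using Finset.induction_on with
  | empty => simp [S.zero]
  | insert i s hi ih =>
    rw [sum_insert hi, sum_insert hi]
    exact (S.add _ _).trans (add_le_add (h i (mem_insert_self _ _))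
      (ih fun k hk => h k (mem_insert_of_mem hk)))

theorem locS_ideal {R α : Type} [CommRing R] {na : Prop} (S : SN R na) {f : α → R}
    (h : ∀ a, S.N (f a) ≤ 0) {x : R} (hx : x ∈ Ideal.span (Set.range f)) : S.N x ≤ 0 := by
  induction hx using Submodule.span_induction with
  | mem x hx => obtain ⟨a, rfl⟩ := hx; exact h a
  | zero => exact S.zero.le
  | add x y _ _ hx hy => exact (S.add _ _).trans (by linarith)
  | smul a x _ hx => exact (S.mul_le le_rfl hx).trans (mul_zero _).le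

theorem locS_wt_zz {O N : Type} [Fintype O] (t : O × N → ℝ) (d : N) (ν : O → ℕ) :
    wt t (zz d ν) = ∏ o, t (o, d) ^ ν o := by
  classical
  unfold zz
  generalize (univ : Finset O) = s
  induction s using Finset.induction_on with
  | empty => rw [sum_empty, prod_empty, wt_zero]
  | insert i s hi ih => rw [sum_insert hi, prod_insert hi, wt_add, wt_single, ih]

theorem locS_wt_elim {α β : Type} [Fintype α] [Fintype β] (t : α ⊕ β → ℝ) (a : α →₀ ℕ)
    (b : β →₀ ℕ) :
    wt t (a.sumElim b) = wt (fun s => t (.inl s)) a * wt (fun s => t (.inr s)) b := by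
  rw [wt_eq, wt_eq, wt_eq, Fintype.prod_sum_type]
  simp only [Finsupp.sumElim_inl, Finsupp.sumElim_inr]

theorem locS_nat {T : ℝ} (hT : 2 ≤ T) (n : ℕ) : (n : ℝ) + 1 ≤ T ^ n := by
  have h : ((n + 1 : ℕ) : ℝ) ≤ ((2 ^ n : ℕ) : ℝ) := Nat.cast_le.2 Nat.lt_two_pow_self
  push_cast at h
  exact h.trans (pow_le_pow_left₀ zero_le_two hT n)

section yp

variable {k ι κ J : Type} [Field k] [Fintype κ] [DecidableEq κ] [Fintype J] {g r m : ℕ}
  (D : Dat k ι κ J g r m)

omit [DecidableEq κ] in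
theorem locS_gen {R α : Type} [CommRing R] (φ : k →+* R) (A : Matrix κ κ k) (s : Finset α)
    (x : α → R) (y : α → κ → k) (l : κ) :
    ∑ l', φ (A l l') * ∑ j ∈ s, x j * φ (y j l') = ∑ j ∈ s, x j * φ ((A *ᵥ y j) l) := by
  simp only [Matrix.mulVec, dotProduct, map_sum, map_mul, mul_sum]
  rw [sum_comm]
  exact sum_congr rfl fun _ _ => sum_congr rfl fun _ _ => mul_left_comm _ _ _

theorem locS_mulVec (A : Matrix κ κ k) (o : Fin m) (l : κ) :
    (A.map (algebraMap k (RB k m r g κ J)) *ᵥ D.yp o) l =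
      MvPowerSeries.C ((A *ᵥ D.Y o D.j₁) l) +
        ∑ j ∈ univ.erase D.j₀, MvPowerSeries.X (.inl (.inr (o, j))) *
          MvPowerSeries.C ((A *ᵥ D.Y o j) l) +
        ∑ l', MvPowerSeries.X (.inr (o, .inr (.inl l'))) * MvPowerSeries.C (A l l') +
        ∑ p, MvPowerSeries.X (.inr (o, .inr (.inr p))) * MvPowerSeries.C ((A *ᵥ D.η o p) l) := by
  rw [← locS_gen _ A univ, ← locS_gen _ A _ _ (fun j l => D.Y o j l),
    ← MvPowerSeries.c_eq_algebraMap,
    show (A *ᵥ D.Y o D.j₁) l = ∑ l', A l l' * D.Y o D.j₁ l' from rfl, map_sum,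
    ← sum_add_distrib, ← sum_add_distrib, ← sum_add_distrib]
  refine sum_congr rfl fun l' _ => ?_
  change MvPowerSeries.C (A l l') * D.yp o l' = _
  rw [Dat.yp, map_mul]
  ring

theorem locS_yp [DecidableEq J] {v : AbsoluteValue k ℝ} {na : Prop} {S : SN (RB k m r g κ J) na}
    (hS : S.Ov v) (hj : D.j₁ ≠ D.j₀) (o : Fin m) (p : J)
    (h1 : ∀ j, S.N (MvPowerSeries.X (.inl (.inr (o, j)))) ≤ 1)
    (h2 : ∀ l, S.N (MvPowerSeries.X (.inr (o, .inr (.inl l)))) ≤ 0)
    (h3 : ∀ p', S.N (MvPowerSeries.X (.inr (o, .inr (.inr p')))) ≤ if p' = p then 1 else 0)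
    (A : Matrix κ κ k) (l : κ) {β : ℝ} (hY : ∀ i, i ≠ D.j₀ → v ((A *ᵥ D.Y o i) l) ≤ β)
    (hη : v ((A *ᵥ D.η o p) l) ≤ β) :
    S.N ((A.map (algebraMap k (RB k m r g κ J)) *ᵥ D.yp o) l) ≤ (Fintype.card κ + 2) * β := by
  have hC : ∀ c : k, S.N (MvPowerSeries.C c) ≤ v c := fun c => by
    rw [MvPowerSeries.c_eq_algebraMap]
    exact hS c
  have hβ : 0 ≤ β := (v.nonneg _).trans hη
  have a1 := (hC _).trans (hY _ hj)
  have a2 := locS_sum S (univ.erase D.j₀) (t := fun _ => 1 * β) fun j hj =>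
    S.mul_le (h1 j) ((hC _).trans (hY j (ne_of_mem_erase hj)))
  have a3 := locS_sum S univ fun l' _ => S.mul_le (h2 l') (hC (A l l'))
  have a4 := locS_sum S univ fun p' _ => S.mul_le (h3 p') (hC ((A *ᵥ D.η o p') l))
  simp only [zero_mul, sum_const_zero] at a3
  simp only [ite_mul, one_mul, zero_mul, sum_ite_eq', mem_univ, if_true] at a4
  rw [sum_const, nsmul_eq_mul, one_mul] at a2
  have a5 : ((univ.erase D.j₀).card : ℝ) ≤ Fintype.card κ := Nat.cast_le.2 (card_le_univ _)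
  have a6 := mul_le_mul_of_nonneg_right a5 hβ
  rw [locS_mulVec]
  refine (S.add _ _).trans ((add_le_add ((S.add _ _).trans (add_le_add
    ((S.add _ _).trans (add_le_add a1 a2)) a3)) a4).trans ?_)
  linarith

end yp

/- `exists_xt`, `exists_ab`; `exists_sn` at `(μ.sumElim σ).sumElim (zz (inr (inr p)) ν)` with
`γ o = exp (-(2 Γ w o))`, `γ' = 0` and radii `γ o / q o` (`ξ`), `1` (`s` and `ζ'` of index `p`), `0` (all
others).  Elements of the ideal in `exists_xt` have norm `0` (`Submodule.span_induction`), so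
`xt - C xa ≤ γ`.  With `n = card κ`: `yp ≤ (n + 2) exp (Γ w)` (the terms `X ζ`, `X ζ'` of radius `0` have norm
`0`), `yy - yp ≤ γ n (n + 2) exp (Γ w)`, `N *ᵥ yp ≤ (n + 2) T exp (cc l * w)`, and
`γ * exp (Γ w) ≤ exp (cc l * w)`.  `mat_le` with `u = yy`, `u' = yp`; `locVX`, `Fa_le`, `φ_pl`,
`coeff_mul_of_min` for the multiplier `(∏ det ^ e) * U`, whose constant term is `∏ det N ^ e * cc U`
(`RingHom.map_det`).  All constants are at most powers of `T o`. -/
theorem loc_S (κ : Type) [Fintype κ] [DecidableEq κ] (eM : ℕ) : ∃ C : ℕ,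
    ∀ (k ι J : Type) [Field k] [NumberField k] [Fintype ι] [Fintype J] (g r m : ℕ) (B : AV k ι)
      (F : FB B g) (D : Dat k ι κ J g r m) (P : Fin m → B.Pt k) (c : D.Co F κ)
      (μ : Fin m × Fin r →₀ ℕ) (σ : Fin m × κ →₀ ℕ) (ν : Fin m → ℕ)
      (Ψ : MvPolynomial (Fin m × NV g κ J) k) (v : AbsoluteValue k ℝ) (q : Fin m → ℝ) (q' : ℝ)
      (M : Fin m → J → Matrix κ κ (MvPolynomial ι k)) (Lw : J → Finset (IX κ D.e)) (p : J)
      (H Γ L : ℝ) (T w : Fin m → ℝ) (cc : κ → ℝ),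
      D.Ok F P → Ld (D.ff F c) (μ.sumElim σ) ν Ψ → D.Rad v q q' → D.Van F M Lw c →
      Lw p = Bad D.e w cc L → 1 ≤ H → (∀ τ, |(c τ : ℝ)| ≤ H) → (∀ o, 2 ≤ T o) → (∀ o, 0 ≤ w o) →
      (∀ l, |cc l| ≤ Γ) → (∀ o i j, (M o p i j).IsHomogeneous eM) →
      (∀ o i j, pl v (M o p i j) ≤ T o) → (∀ o, nm v (D.xa o) ≤ T o) →
      (∀ o, 1 ≤ T o * v ((M o p).map (eval (D.xa o))).det) →
      (∀ o i l, i ≠ D.j₀ → v (D.Y o i l) ≤ Real.exp (Γ * w o)) →
      (∀ o l, v (D.η o p l) ≤ Real.exp (Γ * w o)) →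
      (∀ o i l, i ≠ D.j₀ →
        v (((M o p).map (eval (D.xa o)) *ᵥ D.Y o i) l) ≤ Real.exp (cc l * w o)) →
      (∀ o l, v (((M o p).map (eval (D.xa o)) *ᵥ D.η o p) l) ≤ T o * Real.exp (cc l * w o)) →
      v (coeff (zz (.inr (.inr p)) ν) Ψ) * ∏ o ∈ univ.erase D.h, nm v (D.sm o) ^ D.n o ≤
        (H * Real.exp L * ∏ o, Fintype.card (F.T (D.n o)) * T o ^ (C * D.e o) *
          Real.exp (2 * Γ * w o) ^ bdeg μ o) *
        (∏ o, F.s v ^ (9 * D.dg o) * q o ^ bdeg μ o) * ∏ o, nm v (D.xa o) ^ D.dg o := by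
  obtain ⟨C₁, hC₁⟩ := mat_le κ eM
  refine ⟨4 * Fintype.card κ + 2 * (C₁ + 2 * Fintype.card κ + 4) + 1, ?_⟩
  intro k ι J _ _ _ _ g r m B F D P c μ σ ν Ψ v q q' M Lw p H Γ L T w cc h hL hq hV hLw hH hc hT hw
    hcc hM hMT hxT hdet hY hη hMY hMη
  classical
  have : Nonempty κ := ⟨D.α⟩
  have hΓ : 0 ≤ Γ := (abs_nonneg _).trans (hcc D.α)
  have q0 : ∀ o, 0 < q o := fun o => one_pos.trans_le (hq.one o)
  have T1 : ∀ o, 1 ≤ T o := fun o => one_le_two.trans (hT o)
  obtain ⟨γ, hγ⟩ : ∃ γ : Fin m → ℝ, ∀ o, γ o = Real.exp (-(2 * Γ * w o)) := ⟨_, fun _ => rfl⟩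
  have γ0 : ∀ o, 0 < γ o := fun o => by rw [hγ]; exact Real.exp_pos _
  have γ1 : ∀ o, γ o ≤ 1 := fun o => by
    rw [hγ]
    exact Real.exp_le_one_iff.2 (neg_nonpos.2 (mul_nonneg (by linarith) (hw o)))
  obtain ⟨t, t1, t2, t3, t4, t5⟩ : ∃ t : VV m r g κ J → ℝ,
      (∀ s, t (.inl (.inl s)) = γ s.1 / q s.1) ∧ (∀ s, t (.inl (.inr s)) = 1) ∧
      (∀ o a, t (.inr (o, .inl a)) = 0) ∧ (∀ o a, t (.inr (o, .inr (.inl a))) = 0) ∧
      ∀ o a, t (.inr (o, .inr (.inr a))) = if a = p then 1 else 0 :=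
    ⟨Sum.elim (Sum.elim (fun s => γ s.1 / q s.1) fun _ => 1) fun s =>
      Sum.elim (fun _ => 0) (Sum.elim (fun _ => 0) fun a => if a = p then 1 else 0) s.2,
      fun _ => rfl, fun _ => rfl, fun _ _ => rfl, fun _ _ => rfl, fun _ _ => rfl⟩
  have ht : ∀ s, 0 ≤ t s := by
    rintro ((s | s) | ⟨o, a | a | a⟩)
    · rw [t1]; exact (div_pos (γ0 _) (q0 _)).le
    · rw [t2]; exact zero_le_one
    · rw [t3]
    · rw [t4]
    · rw [t5]; split_ifs <;> norm_num
  obtain ⟨S, hS, s1, s2, s3, s4, s5⟩ := h.exists_sn hq (γ := γ) (γ' := 0) (fun o => (γ0 o).le) γ1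
    le_rfl zero_le_one ht
    (fun o a => le_of_eq ((congrArg (· * q o) (t1 (o, a))).trans (div_mul_cancel₀ _ (q0 o).ne')))
    (fun o a => le_of_eq ((congrArg (· * q') (t3 o a)).trans (zero_mul _)))
    ((μ.sumElim σ).sumElim (zz (.inr (.inr p)) ν))
  have hwt : wt t ((μ.sumElim σ).sumElim (zz (.inr (.inr p)) ν)) =
      ∏ o, (γ o / q o) ^ bdeg μ o := by
    rw [locS_wt_elim, locS_wt_elim, locS_wt_zz]
    simp only [t1, t2, t5, if_true, one_pow, prod_const_one, mul_one, wt_one]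
    rw [wt_eq, Fintype.prod_prod_type]
    simp only [prod_pow_eq_pow_sum, bdeg]
  obtain ⟨xt, x1, x2⟩ := h.exists_xt
  obtain ⟨a, b, U, u1, u2⟩ := h.exists_ab v
  have x3 : ∀ o a, S.N (xt o a - algebraMap k _ (D.xa o a)) ≤ γ o := fun o a => by
    have e1 := locS_ideal S (s4 o) (x1 o a)
    have e2 := S.add (xt o a - D.xi o (.inl a)) (D.xi o (.inl a) - MvPowerSeries.C (D.x o (.inl a)))
    rw [sub_add_sub_cancel] at e2
    rw [← MvPowerSeries.c_eq_algebraMap]
    exact e2.trans (by linarith [s3 o (.inl a)])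
  have x4 : ∀ o a, MvPowerSeries.constantCoeff (xt o a) = D.xa o a := fun o a => by
    have e1 : xt o a - D.xi o (.inl a) ∈
        RingHom.ker (MvPowerSeries.constantCoeff (σ := VV m r g κ J) (R := k)) := by
      refine Ideal.span_le.2 ?_ (x1 o a)
      rintro _ ⟨c, rfl⟩
      rw [SetLike.mem_coe, RingHom.mem_ker, map_sub, h.cc_rh, MvPowerSeries.constantCoeff_C,
        sub_self]
    rw [RingHom.mem_ker, map_sub, Dat.cc_xi, sub_eq_zero] at e1
    exact e1
  have x5 : ∀ o, MvPowerSeries.constantCoeff ((M o p).map (aeval (xt o))).det =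
      ((M o p).map (eval (D.xa o))).det := fun o => by
    rw [RingHom.map_det]
    congr 1
    ext i j
    rw [RingHom.mapMatrix_apply, Matrix.map_apply, Matrix.map_apply, Matrix.map_apply, ← cc_apply,
      comp_aeval_apply, ← aeval_eq_eval]
    simp only [cc_apply, x4]
  have y0 := fun o => locS_yp D hS h.ne o p (fun j => (s2 _).trans_eq (t2 _))
    (fun l => (s2 _).trans_eq (t4 _ _)) fun p' => (s2 _).trans_eq (t5 _ _)
  have y1 : ∀ o l, S.N (D.yp o l) ≤ (Fintype.card κ + 2) * Real.exp (Γ * w o) := fun o l => by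
    have e1 := y0 o 1 l (β := Real.exp (Γ * w o)) (fun i hi => by
      rw [Matrix.one_mulVec]; exact hY o i l hi) (by rw [Matrix.one_mulVec]; exact hη o l)
    rwa [Matrix.map_one _ (map_zero _) (map_one _), Matrix.one_mulVec] at e1
  have y2 : ∀ o l, S.N (D.yy o l - D.yp o l) ≤
      γ o * (Fintype.card κ * ((Fintype.card κ + 2) * Real.exp (Γ * w o))) := fun o l => by
    rw [Dat.yy, sub_sub_cancel_left, S.neg]
    split_ifs
    · refine (locS_sum S univ fun l' _ => S.mul_le (s3 o (.inr l')) (y1 o l')).trans (le_of_eq ?_)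
      rw [sum_const, card_univ, nsmul_eq_mul]
      ring
    · rw [S.zero]
      have := γ0 o
      positivity
  obtain ⟨A, hA⟩ : ∃ A : Fin m → ℝ, ∀ o, A o = T o ^ (C₁ + 2 * Fintype.card κ + 4) :=
    ⟨_, fun _ => rfl⟩
  have m0 := fun o => hC₁ k ι _ v S (M o p) (D.xa o) (xt o) (T o) (γ o) hS (hT o) (γ0 o).le (γ1 o)
    (hM o) (hMT o) (fun a => (le_nm v _ a).trans (hxT o)) (x3 o)
  have m1 : ∀ o l, S.N (((M o p).map (aeval (xt o)) *ᵥ D.yy o) l) ≤
      A o * Real.exp (cc l * w o) := fun o l => by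
    have n0 : (0 : ℝ) ≤ Fintype.card κ := Nat.cast_nonneg _
    have b0 : 0 ≤ (Fintype.card κ + 2 : ℝ) * Real.exp (Γ * w o) := by positivity
    have e1 := (m0 o).2 (D.yy o) (D.yp o)
      ((Fintype.card κ + 1) * ((Fintype.card κ + 2) * Real.exp (Γ * w o))) (by positivity)
      (fun l => by
        have e2 := S.add (D.yy o l - D.yp o l) (D.yp o l)
        rw [sub_add_cancel] at e2
        have e3 := mul_le_of_le_one_left (mul_nonneg n0 b0) (γ1 o)
        linarith [y1 o l, y2 o l])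
      (fun l => (y2 o l).trans (mul_le_mul_of_nonneg_left
        (mul_le_mul_of_nonneg_right (by linarith) b0) (γ0 o).le)) l
    have e2 := y0 o ((M o p).map (eval (D.xa o))) l (β := T o * Real.exp (cc l * w o))
      (fun i hi => (hMY o i l hi).trans (le_mul_of_one_le_left (Real.exp_pos _).le (T1 o)))
      (hMη o l)
    have e3 := S.add (((M o p).map (aeval (xt o)) *ᵥ D.yy o) l -
      (((M o p).map (eval (D.xa o))).map (algebraMap k _) *ᵥ D.yp o) l)
      ((((M o p).map (eval (D.xa o))).map (algebraMap k _) *ᵥ D.yp o) l)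
    rw [sub_add_cancel] at e3
    have e4 : γ o * Real.exp (Γ * w o) ≤ Real.exp (cc l * w o) := by
      rw [hγ, ← Real.exp_add]
      refine Real.exp_le_exp.2 ?_
      have := mul_le_mul_of_nonneg_right (abs_le.1 (hcc l)).1 (hw o)
      linarith
    have T0 : 0 < T o := one_pos.trans_le (T1 o)
    have f1 := locS_nat (hT o) (Fintype.card κ)
    have f2 := locS_nat (hT o) (Fintype.card κ + 1)
    rw [Nat.cast_succ, add_assoc, one_add_one_eq_two] at f2
    have f3 : T o ^ C₁ * ((Fintype.card κ + 1) * (Fintype.card κ + 2)) ≤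
        T o ^ (C₁ + 2 * Fintype.card κ + 3) := by
      refine (mul_le_mul_of_nonneg_left (mul_le_mul f1 f2 (by positivity) (by positivity))
        (by positivity)).trans ?_
      rw [← pow_add, ← pow_add]
      exact pow_le_pow_right₀ (T1 o) (by omega)
    have f4 : (Fintype.card κ + 2) * T o ≤ T o ^ (C₁ + 2 * Fintype.card κ + 3) := by
      refine (mul_le_mul_of_nonneg_right f2 T0.le).trans ?_
      rw [← pow_succ]
      exact pow_le_pow_right₀ (T1 o) (by omega)
    have f5 : 2 * T o ^ (C₁ + 2 * Fintype.card κ + 3) ≤ A o := by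
      rw [hA, pow_succ' (T o) (C₁ + 2 * Fintype.card κ + 3)]
      exact mul_le_mul_of_nonneg_right (hT o) (by positivity)
    have f6 := mul_le_mul f3 e4 (mul_pos (γ0 o) (Real.exp_pos _)).le (by positivity)
    have f7 := mul_le_mul_of_nonneg_right f4 (Real.exp_pos (cc l * w o)).le
    have f8 := mul_le_mul_of_nonneg_right f5 (Real.exp_pos (cc l * w o)).le
    linarith
  have n1 : ∀ o, 1 ≤ nm v (D.xa o) := fun o => by
    have e1 := le_nm v (D.xa o) D.a₁
    rwa [h.xa_one, map_one] at e1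
  have s0 : 0 < F.s v := one_pos.trans_le (F.one_le v)
  obtain ⟨Fb, f1, f2, f3⟩ := Cf.Fa_le D.toCf F h.em hS (F.sz v) (fun n t => F.φ_pl v t) a
    (Y := fun o => F.s v ^ 7 * nm v (D.xa o) ^ 2) (fun o => by positivity) (s5 b)
  have key := locVX S hH hc f1 f2 (M := fun o => (M o p).map (aeval (xt o))) (y := D.yy) (A := A)
    (w := w) (γ := cc) (L := L) (fun o => by rw [hA]; exact one_le_pow₀ (T1 o))
    (fun o i j => ((m0 o).1 i j).trans (by
      rw [hA]; exact pow_le_pow_right₀ (T1 o) (by omega))) m1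
    (fun β hβ => x2 J M Lw c hV a b p β (hLw ▸ hβ))
  have k1 := (s1 _).trans key
  rw [show SV c (D.Fa F a (D.ty B b)) D.yy = U * D.ff F c from u1 c, ← mul_assoc,
    coeff_mul_of_min hL.minT hL.minX _ (bdeg_zz _ ν), ← (hL.lead _).1 (bdeg_zz _ ν), hwt] at k1
  simp only [map_mul, map_prod, map_pow, x5, u2] at k1
  have p0 : 0 < ∏ o, nm v (D.xa o) ^ D.dg o := prod_pos fun o _ => pow_pos (by linarith [n1 o]) _
  have p1 : (∏ o, (γ o / q o) ^ bdeg μ o) *
      ∏ o, Real.exp (2 * Γ * w o) ^ bdeg μ o * q o ^ bdeg μ o = 1 := by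
    rw [← prod_mul_distrib]
    refine prod_eq_one fun o _ => ?_
    have := (q0 o).ne'
    rw [← mul_pow, ← mul_pow, hγ, Real.exp_neg]
    field_simp
    exact one_pow _
  have p2 : 1 ≤ (∏ o, T o ^ D.e o) * ∏ o, v ((M o p).map (eval (D.xa o))).det ^ D.e o := by
    rw [← prod_mul_distrib]
    exact one_le_prod fun o _ => by rw [← mul_pow]; exact one_le_pow₀ (hdet o)
  have p3 : (∏ o, T o ^ D.e o) * ∏ o, ((Fintype.card (F.T (D.n o)) : ℝ) * Fb o *
      (4 ^ Fintype.card κ * (Fintype.card κ + 1) ^ 2 * A o ^ 2) ^ D.e o) ≤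
      (∏ o, (Fintype.card (F.T (D.n o)) : ℝ) * T o ^
        ((4 * Fintype.card κ + 2 * (C₁ + 2 * Fintype.card κ + 4) + 1) * D.e o)) * ∏ o, Fb o := by
    rw [← prod_mul_distrib, ← prod_mul_distrib]
    refine prod_le_prod (fun o _ => ?_) fun o _ => ?_
    · have := f1 o
      have := T1 o
      positivity
    · have T0 : 0 < T o := one_pos.trans_le (T1 o)
      have e1 : (4 : ℝ) ^ Fintype.card κ ≤ T o ^ (2 * Fintype.card κ) := by
        rw [pow_mul]
        exact pow_le_pow_left₀ (by norm_num) (by nlinarith [hT o]) _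
      have e2 := pow_le_pow_left₀ (by positivity) (locS_nat (hT o) (Fintype.card κ)) 2
      have e3 : T o * (4 ^ Fintype.card κ * (Fintype.card κ + 1) ^ 2 * A o ^ 2) ≤
          T o ^ (4 * Fintype.card κ + 2 * (C₁ + 2 * Fintype.card κ + 4) + 1) := by
        refine (mul_le_mul_of_nonneg_left (mul_le_mul_of_nonneg_right
          (mul_le_mul e1 e2 (by positivity) (by positivity)) (by positivity)) T0.le).trans
          (le_of_eq ?_)
        rw [hA]
        ring
      have e4 := pow_le_pow_left₀ (by positivity) e3 (D.e o)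
      rw [mul_pow, ← pow_mul] at e4
      have e5 := mul_le_mul_of_nonneg_left e4
        (mul_nonneg (Nat.cast_nonneg (Fintype.card (F.T (D.n o)))) (f1 o))
      linarith
  have p4 : ∏ o, Fb o = (∏ o, F.s v ^ (9 * D.dg o)) *
      ((∏ o, nm v (D.xa o) ^ D.dg o) * ∏ o, nm v (D.xa o) ^ D.dg o) := by
    rw [f3, ← prod_mul_distrib, ← prod_mul_distrib]
    exact prod_congr rfl fun o _ => by ring
  rw [p4] at p3
  simp only [prod_mul_distrib] at p1 p3 k1 ⊢
  have z1 : 0 ≤ ∏ o, Real.exp (2 * Γ * w o) ^ bdeg μ o := prod_nonneg fun o _ => by positivity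
  have z2 : 0 ≤ ∏ o, q o ^ bdeg μ o := prod_nonneg fun o _ => pow_nonneg (q0 o).le _
  have z3 : 0 ≤ ∏ o, T o ^ D.e o := prod_nonneg fun o _ => pow_nonneg (by linarith [T1 o]) _
  have z4 : 0 ≤ ∏ o ∈ univ.erase D.h, nm v (D.sm o) ^ D.n o :=
    prod_nonneg fun o _ => pow_nonneg (nm_nn _ _) _
  have z5 := v.nonneg (coeff (zz (.inr (.inr p)) ν) Ψ)
  have z6 : 0 ≤ H * Real.exp L := by positivity
  refine le_of_mul_le_mul_right ?_ p0
  generalize ∏ o, Real.exp (2 * Γ * w o) ^ bdeg μ o = a1 at *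
  generalize ∏ o, q o ^ bdeg μ o = a2 at *
  generalize ∏ o, T o ^ D.e o = a3 at *
  generalize ∏ o ∈ univ.erase D.h, nm v (D.sm o) ^ D.n o = a4 at *
  generalize v (coeff (zz (.inr (.inr p)) ν) Ψ) = a5 at *
  generalize ∏ o, nm v (D.xa o) ^ D.dg o = a6 at *
  generalize ∏ o, (γ o / q o) ^ bdeg μ o = a7 at *
  generalize ∏ o, v ((M o p).map (eval (D.xa o))).det ^ D.e o = a8 at *
  have w1 := mul_le_mul_of_nonneg_left k1 (mul_nonneg z3 (mul_nonneg z1 z2))
  have w2 := mul_le_mul_of_nonneg_left p3 (mul_nonneg z6 (mul_nonneg z1 z2))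
  have w3 := mul_le_mul_of_nonneg_left p2 (mul_nonneg (mul_nonneg z5 z4) p0.le)
  have w4 : a3 * (a1 * a2) * (a8 * (a6 * a4) * a5 * a7) = a5 * a4 * a6 * (a3 * a8) := by
    linear_combination a5 * a4 * a6 * (a3 * a8) * p1
  linarith

/- Take logarithms; `Es.gsum_le_S` with `f v = log (v β) + ∑ n * log (nm v (y o))` and
`g v = log (c v) + ∑ d * log (nm v (x o))`; `gsum_nm`, `finS_nm`, `gsum_log`, `gsum_add` (see
`height_ineq` in `Av/EAd` and `Vj/PF`). -/
theorem glob_ineq {k ι O : Type} [Field k] [NumberField k] [Fintype ι] [Fintype O]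
    (S : Finset (FinitePlace k)) {β : k} (hβ : β ≠ 0) {x y : O → ι → k} (s : Finset O)
    (hx : ∀ o, x o ≠ 0) (hy : ∀ o ∈ s, y o ≠ 0) (d n : O → ℕ) {c : AbsoluteValue k ℝ → ℝ} {h : ℝ}
    (hc : Ad c h) (G : Pl S → ℝ)
    (h1 : ∀ v : FinitePlace k, v ∉ S →
      v.1 β * ∏ o ∈ s, nm v.1 (y o) ^ n o ≤ c v.1 * ∏ o, nm v.1 (x o) ^ d o)
    (h2 : ∀ p, av p β * ∏ o ∈ s, nm (av p) (y o) ^ n o ≤
      Real.exp (G p) * c (av p) * ∏ o, nm (av p) (x o) ^ d o) :
    ∑ o ∈ s, n o * logHeight (y o) ≤ h + ∑ p, mu p * G p + ∑ o, d o * logHeight (x o) := by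
  have a1 : ∀ i ∈ (univ : Finset O), Vj.FinS fun v => (d i : ℝ) * Real.log (nm v (x i)) :=
    fun i _ => (finS_nm _).const_mul _
  have a2 : ∀ j ∈ s, Vj.FinS fun v => (n j : ℝ) * Real.log (nm v (y j)) :=
    fun j _ => (finS_nm _).const_mul _
  have key : ∀ (v : AbsoluteValue k ℝ) (t : ℝ), v β * ∏ o ∈ s, nm v (y o) ^ n o ≤
      Real.exp t * c v * ∏ o, nm v (x o) ^ d o →
      Real.log (v β) + ∑ o ∈ s, n o * Real.log (nm v (y o)) ≤
        Real.log (c v) + ∑ o, d o * Real.log (nm v (x o)) + t := fun v t h2 => by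
    have b1 : ∀ i ∈ (univ : Finset O), 0 < nm v (x i) ^ d i :=
      fun i _ => pow_pos (nm_pos v (hx i)) _
    have b2 : ∀ j ∈ s, 0 < nm v (y j) ^ n j := fun j hj => pow_pos (nm_pos v (hy j hj)) _
    have h3 := Real.log_le_log (mul_pos (v.pos hβ) (prod_pos b2)) h2
    rw [Real.log_mul (v.pos hβ).ne' (prod_pos b2).ne',
      Real.log_mul (mul_pos (Real.exp_pos _) (hc.pos v)).ne' (prod_pos b1).ne',
      Real.log_mul (Real.exp_pos _).ne' (hc.pos v).ne', Real.log_exp,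
      Real.log_prod fun i hi => (b1 i hi).ne', Real.log_prod fun j hj => (b2 j hj).ne'] at h3
    simp only [Real.log_pow] at h3
    linarith
  have h3 := Es.gsum_le_S S ((Vj.finS_log β).add (Vj.finS_sum s a2))
    (hc.fin.add (Vj.finS_sum univ a1)) G (fun p => key _ _ (h2 p)) fun v hv => by
      simpa using key v.1 0 (by simpa using h1 v hv)
  rw [Vj.gsum_add (Vj.finS_log β) (Vj.finS_sum s a2), Vj.gsum_add hc.fin (Vj.finS_sum univ a1),
    Vj.gsum_log hβ, Vj.gsum_sum univ a1, Vj.gsum_sum s a2, zero_add] at h3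
  simp only [Vj.gsum_const_mul (finS_nm _), gsum_nm (hx _)] at h3
  rw [sum_congr rfl fun o ho => by rw [gsum_nm (hy o ho)]] at h3
  linarith [hc.le]

end Pool.Agent.Lib.MP_651af7_nt.As
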