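import Pool.Agent.Lib.MP_651af7_nt.As.Gen
import Pool.Agent.Lib.MP_651af7_nt.Av.EInv
import Pool.Agent.Lib.MP_651af7_nt.Av.Geo
import Pool.Agent.Lib.MP_651af7_nt.Av.ParA

/-! Invariance of the leading form. -/

namespace Pool.Agent.Lib.MP_651af7_nt.As

open MvPolynomial Finset Height NumberField Matrix
open Av hiding Bad
open Es (Mo IX CX mo cx GA GC Bad Pen nv vol Tame IntV Dual)
open Rt (Pl av mu)

section lead

variable {K Ξ O N : Type} [CommRing K] [Fintype N] {f h : MvPowerSeries (Ξ ⊕ O × N) K}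
  {μ : Ξ →₀ ℕ} {ν : O → ℕ} {Ψ : MvPolynomial (O × N) K}

theorem minT_add (hf : MinT f ν) (hh : MinT h ν) : MinT (f + h) ν := by
  intro κ α h1 h2
  rw [map_add, hf κ α h1 h2, hh κ α h1 h2, add_zero]

/- `MvPowerSeries.coeff_pderiv`; `κ.sumElim α + single (inl a) 1 = (κ + single a 1).sumElim α`. -/
theorem minT_pderiv (hf : MinT f ν) (a : Ξ) : MinT (MvPowerSeries.pderiv K (.inl a) f) ν := by
  intro κ α h1 h2
  rw [MvPowerSeries.coeff_pderiv, ← Finsupp.sumElim_single_zero, ← Finsupp.sumElim_add, add_zero,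
    hf _ α h1 h2, zero_mul]

/- Copy the proof of `IsLead.inv` (`Av/Lead`). -/
theorem Ld.inv (hL : Ld f μ ν Ψ) {o : O} {w : N → MvPowerSeries (Ξ ⊕ O × N) K}
    (hw : MinT (∑ d, w d * MvPowerSeries.pderiv K (.inr (o, d)) f) ν) :
    ∑ d, MvPowerSeries.constantCoeff (w d) • pderiv (o, d) Ψ = 0 := by
  classical
  ext β
  rw [MvPolynomial.coeff_sum, MvPolynomial.coeff_zero]
  simp only [MvPolynomial.coeff_smul, MvPolynomial.coeff_pderiv, smul_eq_mul]
  have hb : ∀ j, bdeg (β + Finsupp.single (o, j) 1) = bdeg β + Pi.single o 1 := fun j => by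
    rw [bdeg_add, bdeg_single]
  by_cases hβ : bdeg β + Pi.single o 1 = ν
  · have he : ∀ j, μ.sumElim (β + Finsupp.single (o, j) 1) =
        μ.sumElim β + Finsupp.single (Sum.inr (o, j)) 1 := fun j => by
      rw [← Finsupp.sumElim_zero_single, ← Finsupp.sumElim_add, add_zero]
    have h1 := hw μ β (hβ ▸ le_self_add) fun e => by
      have h2 := congrFun (e.trans hβ.symm) o
      simp at h2
    rw [map_sum] at h1
    rw [← h1]
    refine sum_congr rfl fun j _ => ?_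
    rw [(Low.pderiv (he j ▸ low_of_min hL.minT hL.minX ((hb j).trans hβ).le)).coeff_mul,
      MvPowerSeries.coeff_pderiv, (hL.lead _).1 ((hb j).trans hβ), he]
    rfl
  · exact sum_eq_zero fun j _ => by rw [(hL.lead _).2 (hb j ▸ hβ), zero_mul, mul_zero]

theorem Ld.mh (hL : Ld f μ ν Ψ) : MH ν Ψ := by
  exact fun α hα => funext (hL.lead.deg α hα)

/- `exists_minX`, `exists_isLead`. -/
theorem exists_ld [Finite O] (hT : MinT f ν) {μ₀ : Ξ →₀ ℕ} {α₀ : O × N →₀ ℕ} (hα : bdeg α₀ = ν)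
    (h0 : MvPowerSeries.coeff (μ₀.sumElim α₀) f ≠ 0) : ∃ μ ≤ μ₀, ∃ Ψ, Ld f μ ν Ψ ∧ Ψ ≠ 0 := by
  obtain ⟨μ, h1, h2, α, h3, h4⟩ := exists_minX h0
  obtain ⟨Ψ, hΨ⟩ := exists_isLead f μ ν
  refine ⟨μ, h1, Ψ, ⟨hT, hα ▸ h2, hΨ⟩, fun e => h4 ?_⟩
  rw [← (hΨ α).1 (h3.trans hα), e, coeff_zero]

end lead

variable {k ι κ J : Type} [Field k] [NumberField k] [Fintype ι] [Fintype κ] [DecidableEq κ]
  [Fintype J] {g r m : ℕ} {B : AV k ι} {F : FB B g} {D : Dat k ι κ J g r m} {P : Fin m → B.Pt k}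
  {𝒳 𝒯 : Fin m → B.Pt (RB k m r g κ J)} {c : D.Co F κ} {μ : Fin m × Fin r ⊕ Fin m × κ →₀ ℕ}
  {ν : Fin m → ℕ} {Ψ : MvPolynomial (Fin m × NV g κ J) k}

namespace Dat

private theorem pde_cc_lam (h : D.Ok F P) (hp : D.Pts P 𝒳 𝒯) (o : Fin m) (j : Fin g) (a : ι) :
    MvPowerSeries.constantCoeff (AV.lam (MvPowerSeries.pderiv k (.inr (o, .inl j))) (𝒯 o) a) =
      lin D.ϱ j a := by
  have h1 := AV.tang_rename (eT o) (hp.t o) j
  simp only [h.par.const] at h1
  exact congrFun (AV.Tang.unique (AV.rep_zero (R := k)) h1 (AV.tang_zero (h.par.basis.mem j))) a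

private theorem pde_span (h : D.Ok F P) (hp : D.Pts P 𝒳 𝒯) (o : Fin m)
    {l : ι → RB k m r g κ J} (hl : B.IsLie l) : ∃ w : Fin g → RB k m r g κ J,
      l = ∑ j, w j • AV.lam (MvPowerSeries.pderiv k (.inr (o, .inl j))) (𝒯 o) := by
  have hϱ := h.par
  choose M hM using fun j => hϱ.basis.span _ _
    (AV.lam_isLie (MvPowerSeries.pderiv k (.inr (o, .inl j))) (𝒯 o))
  obtain ⟨t, ht⟩ := hϱ.basis.span _ _ hl
  have h1 : (MvPowerSeries.constantCoeff : RB k m r g κ J →+* k).mapMatrix (Matrix.of M) = 1 := by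
    ext j l
    have h2 := Fintype.linearIndependent_iff.mp hϱ.basis.indep
      (fun l => MvPowerSeries.constantCoeff (M j l) - (1 : Matrix (Fin g) (Fin g) k) j l) (by
        funext a
        have h3 := pde_cc_lam h hp o j a
        rw [hM, map_sum] at h3
        simp only [map_mul, ← cc_apply, AlgHom.commutes, Algebra.algebraMap_self,
          RingHom.id_apply] at h3
        simp only [Finset.sum_apply, Pi.smul_apply, smul_eq_mul, sub_mul, sum_sub_distrib,
          ← cc_apply, h3, Matrix.one_apply, ite_mul, one_mul, zero_mul, sum_ite_eq, mem_univ,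
          if_true, sub_self, Pi.zero_apply]) l
    exact sub_eq_zero.mp h2
  have h2 : IsUnit (Matrix.of M).det := MvPowerSeries.isUnit_iff_constantCoeff.mpr (by
    rw [RingHom.map_det, h1, Matrix.det_one]
    exact isUnit_one)
  refine ⟨Matrix.vecMul t (Matrix.of M)⁻¹, funext fun a => ?_⟩
  have h4 : Matrix.vecMul (Matrix.vecMul t (Matrix.of M)⁻¹) (Matrix.of M) = t := by
    rw [Matrix.vecMul_vecMul, Matrix.nonsing_inv_mul _ h2, Matrix.vecMul_one]
  rw [ht, Finset.sum_apply]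
  simp only [Pi.smul_apply, smul_eq_mul, hM, mul_sum]
  rw [sum_comm]
  refine sum_congr rfl fun l _ => ?_
  rw [← congrFun h4 l, Matrix.vecMul, dotProduct, sum_mul]
  exact sum_congr rfl fun j _ => mul_assoc _ _ _

/- Port of `Par.cc_lam`, `Par.exists_w` (`Av/EInv`). -/
theorem Ok.exists_w (h : D.Ok F P) (hp : D.Pts P 𝒳 𝒯) (o : Fin m) (a : Fin r) :
    ∃ w : Fin g → RB k m r g κ J,
      (∀ o', AV.lam (MvPowerSeries.pderiv k (.inl (.inl (o, a))) -
        ∑ j, w j • MvPowerSeries.pderiv k (.inr (o, .inl j))) (𝒳 o' + 𝒯 o') = 0) ∧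
      B.Tang (D.xa o) (fun c => lin (D.ξ o) a (.inl c))
        fun c => ∑ l, MvPowerSeries.constantCoeff (w l) * lin D.ϱ l c := by
  obtain ⟨w, h1⟩ := pde_span h hp o
    (AV.lam_isLie (MvPowerSeries.pderiv k (.inl (.inl (o, a)))) (𝒳 o))
  refine ⟨w, fun o' => ?_, ?_⟩
  · have a1 : AV.lam (MvPowerSeries.pderiv k (.inl (.inl (o, a)))) (𝒯 o') = 0 :=
      AV.lam_rename_of_notMem (eT o') (hp.t o') fun ⟨_, e⟩ => Sum.inr_ne_inl e
    have a2 : ∀ l, AV.lam (MvPowerSeries.pderiv k (.inr (o, .inl l))) (𝒳 o') = 0 := fun l =>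
      AV.lam_rename_of_notMem (eX o') (hp.x o') fun ⟨_, e⟩ => Sum.inl_ne_inr e
    rw [AV.lam_sub_sum_der, AV.lam_add, a1, add_zero]
    simp only [AV.lam_add, a2, zero_add]
    by_cases e0 : o' = o
    · subst e0
      exact sub_eq_zero.mpr h1
    · have a3 : AV.lam (MvPowerSeries.pderiv k (.inl (.inl (o, a)))) (𝒳 o') = 0 :=
        AV.lam_rename_of_notMem (eX o') (hp.x o')
          fun ⟨_, e⟩ => e0 (congrArg Prod.fst (Sum.inl_injective (Sum.inl_injective e)))
      have a4 : ∀ l, AV.lam (MvPowerSeries.pderiv k (.inr (o, .inl l))) (𝒯 o') = 0 := fun l =>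
        AV.lam_rename_of_notMem (eT o') (hp.t o')
          fun ⟨_, e⟩ => e0 (congrArg Prod.fst (Sum.inr_injective e))
      simp only [a3, a4, smul_zero, sum_const_zero, sub_self]
  · have h2 := AV.tang_rename (eX o) (hp.x o) a
    have h3 : (fun c => ∑ l, MvPowerSeries.constantCoeff (w l) * lin D.ϱ l c) =
        fun c => MvPowerSeries.constantCoeff
          (AV.lam (MvPowerSeries.pderiv k (.inl (.inl (o, a)))) (𝒳 o) c) := by
      funext c
      rw [h1]
      simp only [Finset.sum_apply, Pi.smul_apply, smul_eq_mul, map_sum, map_mul, pde_cc_lam h hp]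
    rw [h3]
    exact h2

theorem Pde_sum {K R I : Type} [CommRing K] [CommRing R] [Algebra K R] (s : Finset I)
    (E : I → Derivation K R R) (x : R) : (∑ i ∈ s, E i) x = ∑ i ∈ s, E i x := by
  classical
  induction s using Finset.induction_on with
  | empty => simp
  | insert i s hi ih => rw [sum_insert hi, sum_insert hi, Derivation.add_apply, ih]

theorem Pde_smul {K R : Type} [CommRing K] [CommRing R] [Algebra K R] (w : R)
    (E : Derivation K R R) (x : R) : (w • E) x = w * E x := rfl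

omit [NumberField k] [Fintype ι] in
theorem Pde_yp (E : Derivation k (RB k m r g κ J) (RB k m r g κ J)) (o : Fin m) (l : κ) :
    E (D.yp o l) = ∑ j ∈ univ.erase D.j₀,
      MvPowerSeries.C (D.Y o j l) * E (MvPowerSeries.X (.inl (.inr (o, j)))) +
      E (MvPowerSeries.X (.inr (o, .inr (.inl l)))) +
      ∑ p, MvPowerSeries.C (D.η o p l) * E (MvPowerSeries.X (.inr (o, .inr (.inr p)))) := by
  have hC : ∀ a : k, E (MvPowerSeries.C a) = 0 := fun a => E.map_algebraMap a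
  simp only [yp, map_add, map_sum, Derivation.leibniz, hC, mul_zero, zero_add, smul_eq_mul]

omit [NumberField k] [Fintype ι] in
theorem Pde_yy (E : Derivation k (RB k m r g κ J) (RB k m r g κ J)) (o : Fin m) (l : κ) :
    E (D.yy o l) = E (D.yp o l) - if l = D.α then
      ∑ l', ((D.xi o (.inr l') - MvPowerSeries.C (D.z o l')) * E (D.yp o l') +
        D.yp o l' * E (D.xi o (.inr l'))) else 0 := by
  have hC : ∀ a : k, E (MvPowerSeries.C a) = 0 := fun a => E.map_algebraMap a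
  rw [yy, map_sub]
  split_ifs
  · simp only [map_sum, Derivation.leibniz, map_sub, hC, sub_zero, smul_eq_mul]
  · rw [map_zero]

omit [NumberField k] [Fintype ι] in
theorem Pde_yp_s (o o' : Fin m) {j : κ} (hj : j ≠ D.j₀) (l : κ) :
    MvPowerSeries.pderiv k (.inl (.inr (o, j))) (D.yp o' l) =
      if o' = o then MvPowerSeries.C (D.Y o j l) else 0 := by
  classical
  rw [Pde_yp]
  by_cases ho : o' = o <;> simp [MvPowerSeries.pderiv_X, Pi.single_apply, ho, hj]

omit [NumberField k] [Fintype ι] in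
theorem Pde_yp_z (o o' : Fin m) (l l' : κ) :
    MvPowerSeries.pderiv k (.inr (o, .inr (.inl l))) (D.yp o' l') =
      if o' = o ∧ l' = l then 1 else 0 := by
  classical
  rw [Pde_yp]
  simp [MvPowerSeries.pderiv_X, Pi.single_apply]

omit [NumberField k] [Fintype ι] in
theorem Pde_yp_p (o o' : Fin m) (p : J) (l : κ) :
    MvPowerSeries.pderiv k (.inr (o, .inr (.inr p))) (D.yp o' l) =
      if o' = o then MvPowerSeries.C (D.η o p l) else 0 := by
  classical
  rw [Pde_yp]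
  by_cases ho : o' = o <;> simp [MvPowerSeries.pderiv_X, Pi.single_apply, ho]

omit [NumberField k] [Fintype ι] in
theorem Pde_yp_x (o o' : Fin m) (a : Fin r) (l : κ) :
    MvPowerSeries.pderiv k (.inl (.inl (o, a))) (D.yp o' l) = 0 := by
  classical
  rw [Pde_yp]
  simp

omit [NumberField k] [Fintype ι] in
theorem Pde_yp_t (o o' : Fin m) (a : Fin g) (l : κ) :
    MvPowerSeries.pderiv k (.inr (o, .inl a)) (D.yp o' l) = 0 := by
  classical
  rw [Pde_yp]
  simp

omit [NumberField k] [Fintype ι] [Fintype κ] [DecidableEq κ] [Fintype J] in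
theorem Pde_xi {v : VV m r g κ J} {o : Fin m} (hv : ∀ a, v ≠ .inl (.inl (o, a))) (c : ι ⊕ κ) :
    MvPowerSeries.pderiv k v (D.xi o c) = 0 :=
  pderiv_rename_of_notMem _ _ fun ⟨a, ha⟩ => hv a ha.symm

omit [NumberField k] [Fintype ι] [Fintype κ] [DecidableEq κ] [Fintype J] in
theorem Pde_rh {v : VV m r g κ J} {o : Fin m} (hv : ∀ a, v ≠ .inr (o, .inl a)) (c : ι) :
    MvPowerSeries.pderiv k v (D.rh o c) = 0 :=
  pderiv_rename_of_notMem _ _ fun ⟨a, ha⟩ => hv a ha.symm

theorem Pde_kill (E : Derivation k (RB k m r g κ J) (RB k m r g κ J))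
    (h1 : ∀ o c, E (D.xi o c) = 0) (h2 : ∀ o c, E (D.rh o c) = 0) (h3 : ∀ o l, E (D.yp o l) = 0)
    (c : D.Co F κ) : E (D.ff F c) = 0 := by
  have h := der_SV E c (f := D.Fa F D.a₀ (D.ty B fun _ => D.a₁)) (y := D.yy) (fun _ => 0)
    (fun o t => by rw [zero_mul]; exact der_Fa_zero E _ _ o (fun o' _ c => ⟨h1 _ _, h2 _ _⟩) t)
    (fun o l => by simp [Pde_yy, h1, h3])
  rwa [sum_const_zero, zero_mul] at h

omit [NumberField k] [DecidableEq κ] in
theorem Pde_inv {f : RB k m r g κ J} (hL : Ld f μ ν Ψ) (o : Fin m) (w₁ : Fin g → RB k m r g κ J)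
    (w₂ : κ → RB k m r g κ J) (w₃ : J → RB k m r g κ J)
    (hw : MinT (∑ j, w₁ j * MvPowerSeries.pderiv k (.inr (o, .inl j)) f +
      (∑ l, w₂ l * MvPowerSeries.pderiv k (.inr (o, .inr (.inl l))) f +
        ∑ p, w₃ p * MvPowerSeries.pderiv k (.inr (o, .inr (.inr p))) f)) ν)
    {t : Fin g → k} {y : κ → k} {u : J → k} (h1 : ∀ j, MvPowerSeries.constantCoeff (w₁ j) = t j)
    (h2 : ∀ l, MvPowerSeries.constantCoeff (w₂ l) = y l)
    (h3 : ∀ p, MvPowerSeries.constantCoeff (w₃ p) = u p) : vec t y u ∈ Inv Ψ o := by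
  have h := hL.inv (o := o) (w := vec w₁ w₂ w₃) (by
    simpa only [Fintype.sum_sum_type, vec, Sum.elim_inl, Sum.elim_inr] using hw)
  change ∑ d, vec t y u d • pderiv (o, d) Ψ = 0
  simpa only [Fintype.sum_sum_type, vec, Sum.elim_inl, Sum.elim_inr, h1, h2, h3] using h

/- `rep_ty`, `lam_tang`, `Tang.eq_smul`, `der_Fa`, `der_SV`. -/
theorem Ok.der_ff (h : D.Ok F P) (hp : D.Pts P 𝒳 𝒯)
    (E : Derivation k (RB k m r g κ J) (RB k m r g κ J)) (h1 : ∀ o, AV.lam E (𝒳 o + 𝒯 o) = 0)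
    (h2 : ∀ o l, E (D.yy o l) = 0) (c : D.Co F κ) : ∃ s, E (D.ff F c) = s * D.ff F c := by
  have h3 : ∀ o, ∃ s, ∀ a, E (D.ty B (fun _ => D.a₁) o a) = s * D.ty B (fun _ => D.a₁) o a :=
    fun o => by
      have h4 := AV.lam_tang E (h.rep_ty hp o)
      rw [h1 o] at h4
      obtain ⟨s, hs⟩ := AV.Tang.eq_smul (h.rep_ty hp o) h4
      exact ⟨s, fun a => congrFun hs a⟩
  choose s hs using fun o => D.der_Fa F (fun o => (h.em o).1) E D.a₀ h3 o
  exact ⟨_, der_SV E c s hs h2⟩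

/- `E = ∂s (o, j) - ∑ l, C (Y o j l) • ∂ζ (o, l)` kills all `xi`, `rh`, `yp`, hence `ff` (`der_Fa_zero`,
`der_SV` with `s = 0`).  `Ld.inv` with `w = vec 0 (C ∘ Y o j) 0`, `minT_pderiv`, `Fintype.sum_sum_type`. -/
theorem Ok.inv_Y (h : D.Ok F P) (hL : Ld (D.ff F c) μ ν Ψ) (o : Fin m) {j : κ} (hj : j ≠ D.j₀) :
    vec 0 (D.Y o j) 0 ∈ Inv Ψ o := by
  have h0 := Pde_kill (D := D) (MvPowerSeries.pderiv k (.inl (.inr (o, j))) -
      ∑ l, (MvPowerSeries.C (D.Y o j l) : RB k m r g κ J) •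
        MvPowerSeries.pderiv k (.inr (o, .inr (.inl l))))
    (fun o' c => by simp [Pde_sum, Pde_smul, Pde_xi])
    (fun o' c => by simp [Pde_sum, Pde_smul, Pde_rh])
    (fun o' l => by
      by_cases ho : o' = o <;> simp [Pde_sum, Pde_smul, Pde_yp_s _ _ hj, Pde_yp_z, ho]) c
  refine Pde_inv hL o 0 (fun l => MvPowerSeries.C (D.Y o j l)) 0 ?_ (by simp) (by simp) (by simp)
  simp only [Derivation.sub_apply, Pde_sum, Pde_smul,
    sub_eq_zero] at h0
  simp only [Pi.zero_apply, zero_mul, sum_const_zero, zero_add, add_zero, ← h0]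
  exact minT_pderiv hL.minT _

/- `E = ∑ l, C (η o p l) • ∂ζ (o, l) - ∂ζ' (o, p)` kills `ff`. -/
theorem Ok.inv_η [DecidableEq J] (h : D.Ok F P) (hL : Ld (D.ff F c) μ ν Ψ) (o : Fin m) (p : J) :
    vec 0 (D.η o p) (-Pi.single p 1) ∈ Inv Ψ o := by
  have h0 := Pde_kill (D := D)
    (∑ l, (MvPowerSeries.C (D.η o p l) : RB k m r g κ J) •
      MvPowerSeries.pderiv k (.inr (o, .inr (.inl l))) -
      MvPowerSeries.pderiv k (.inr (o, .inr (.inr p))))
    (fun o' c => by simp [Pde_sum, Pde_smul, Pde_xi])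
    (fun o' c => by simp [Pde_sum, Pde_smul, Pde_rh])
    (fun o' l => by
      by_cases ho : o' = o <;> simp [Pde_sum, Pde_smul, Pde_yp_p, Pde_yp_z, ho]) c
  refine Pde_inv hL o 0 (fun l => MvPowerSeries.C (D.η o p l)) (-Pi.single p 1) ?_ (by simp)
    (by simp) (fun q => by by_cases hq : q = p <;> simp [hq])
  simp only [Derivation.sub_apply, Pde_sum, Pde_smul,
    sub_eq_zero] at h0
  simp only [Pi.zero_apply, zero_mul, sum_const_zero, zero_add, h0, Pi.neg_apply, Pi.single_apply,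
    neg_mul, ite_mul, one_mul, sum_neg_distrib, sum_ite_eq', mem_univ, if_true, add_neg_cancel]
  exact fun _ _ _ _ => map_zero _

/- `E₁` the derivation of `exists_w`, `u = ∑ l, ∂ξ (xi o (inr l)) * yp o l`, `E = E₁ + u • ∂ζ (o, α)` kills
all `yy` (`xi_α`, `z_α`) and has `lam E = 0` (`lam_add_der`, `lam_smul_der`, `lam_add`,
`lam_rename_of_notMem`).  `der_ff`; `Ld.inv` with `vec w (-u • single α 1) 0`, `minT_add`, `MinT.mul`,
`minT_pderiv`; `cc_pderiv_rename`. -/
theorem Ok.inv_ξ (h : D.Ok F P) (hL : Ld (D.ff F c) μ ν Ψ) (o : Fin m) (a : Fin r) :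
    ∃ t : Fin g → k,
      B.Tang (D.xa o) (fun c => lin (D.ξ o) a (.inl c)) (fun c => ∑ l, t l * lin D.ϱ l c) ∧
      vec t (-((fun l => lin (D.ξ o) a (.inr l)) ⬝ᵥ D.Y o D.j₁) • Pi.single D.α 1) 0 ∈
        Inv Ψ o := by
  obtain ⟨𝒳, 𝒯, hp⟩ := h.exists_pts
  obtain ⟨w, hw, ht⟩ := h.exists_w hp o a
  refine ⟨_, ht, ?_⟩
  obtain ⟨u, hu⟩ : ∃ u, u = ∑ l, D.yp o l *
    MvPowerSeries.pderiv k (.inl (.inl (o, a))) (D.xi o (.inr l)) := ⟨_, rfl⟩
  obtain ⟨s, hs⟩ := h.der_ff hp ((MvPowerSeries.pderiv k (.inl (.inl (o, a))) -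
      ∑ j, w j • MvPowerSeries.pderiv k (.inr (o, .inl j))) +
      u • MvPowerSeries.pderiv k (.inr (o, .inr (.inl D.α))))
    (fun o' => by
      rw [AV.lam_add_der, hw, AV.lam_smul_der, AV.lam_add,
        AV.lam_eq_zero (hp.x o') fun c => Pde_xi (by simp) _,
        AV.lam_eq_zero (hp.t o') fun c => Pde_rh (by simp) _, add_zero, smul_zero, add_zero])
    (fun o' l => by
      rw [Pde_yy]
      by_cases ho : o' = o
      · subst ho
        by_cases hl : l = D.α <;> simp [Pde_sum, Pde_smul, Pde_yp_x, Pde_yp_t, Pde_yp_z, Pde_xi,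
          hl, sum_add_distrib, h.xi_α, h.z_α, ← hu]
      · simp [Pde_sum, Pde_smul, Pde_yp_x, Pde_yp_t, Pde_yp_z, Pde_xi, ho, Ne.symm ho]) c
  refine Pde_inv hL o w (-u • Pi.single D.α 1) 0 ?_ (fun _ => rfl) (fun l => ?_) (by simp)
  · simp only [Derivation.add_apply, Derivation.sub_apply, Pde_sum,
      Pde_smul] at hs
    convert minT_add (minT_pderiv hL.minT (.inl (o, a))) (hL.minT.mul (-s)) using 1
    simp only [Pi.zero_apply, zero_mul, sum_const_zero, add_zero, Pi.smul_apply, Pi.single_apply,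
      smul_eq_mul, mul_ite, mul_one, mul_zero, ite_mul, sum_ite_eq', mem_univ, if_true]
    linear_combination -hs
  · have h1 : MvPowerSeries.constantCoeff u =
        (fun l => lin (D.ξ o) a (.inr l)) ⬝ᵥ D.Y o D.j₁ := by
      rw [hu, map_sum, dotProduct]
      refine sum_congr rfl fun l _ => ?_
      rw [map_mul, mul_comm]
      congr 1
      · exact cc_pderiv_rename (eX o) _ a
      · simp [yp]
    by_cases hl : l = D.α <;> simp [hl, h1]

end Dat

/- The difference `d` of the two sides vanishes on the range of `C.I` and satisfies the same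
equations; for `a` outside the range only `b = a` remains (`Chart.pderiv_eq_zero`), and the
derivative is a unit. -/
theorem tv_span {σ : Type} [Fintype σ] {C : Chart k σ r} {x v : σ → k} (hA : C.At x)
    {u : Fin r → σ → k} (hu : ∀ a, C.Tv x a (u a))
    (hv : ∀ a, a ∉ Set.range C.I → ∑ b, aeval x (pderiv b (C.φ a)) * v b = 0) :
    v = ∑ a, v (C.I a) • u a := by
  classical
  have h1 : ∀ l, (v - ∑ a, v (C.I a) • u a) (C.I l) = 0 := fun l => by
    simp [Finset.sum_apply, (hu _).1]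
  have h2 : ∀ a, a ∉ Set.range C.I →
      ∑ b, aeval x (pderiv b (C.φ a)) * (v - ∑ a, v (C.I a) • u a) b = 0 := fun a ha => by
    simp only [Pi.sub_apply, Finset.sum_apply, Pi.smul_apply, smul_eq_mul, mul_sub,
      sum_sub_distrib, hv a ha, mul_sum]
    rw [sum_comm, zero_sub, neg_eq_zero]
    refine sum_eq_zero fun j _ => ?_
    have h3 := congrArg (fun t => v (C.I j) * t) ((hu j).2 a ha)
    simp only [mul_zero, mul_sum] at h3
    rw [← h3]
    exact sum_congr rfl fun b _ => mul_left_comm _ _ _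
  rw [← sub_eq_zero]
  generalize v - ∑ a, v (C.I a) • u a = d at h1 h2
  funext a
  by_cases ha : a ∈ Set.range C.I
  · obtain ⟨l, rfl⟩ := ha
    exact h1 l
  have h3 := h2 a ha
  rw [sum_eq_single a (fun b _ hb => ?_) (by simp)] at h3
  · exact (mul_eq_zero.1 h3).resolve_left (hA a ha).2.ne_zero
  by_cases hb' : b ∈ Set.range C.I
  · obtain ⟨l, rfl⟩ := hb'
    rw [h1, mul_zero]
  · rw [C.pderiv_eq_zero hb hb', map_zero, zero_mul]

/- `tv_span` with `Chart.Br.tv`; `inv_ξ`, `geo_tang_sum` (`Av/Geo`), `Tang.unique`, independence of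
`lin ϱ`; `vec` is linear and `Inv` is a submodule. -/
theorem Dat.Ok.inv_tv (h : D.Ok F P) (hL : Ld (D.ff F c) μ ν Ψ) (o : Fin m)
    {C : Chart k (ι ⊕ κ) r} (hA : C.At (D.x o)) (hB : C.Br (D.x o) (D.ξ o)) {t : Fin g → k}
    {γ : k} (ht : TV B (lin D.ϱ) C (D.x o) (D.Y o D.j₁) t γ) :
    vec t (-γ • Pi.single D.α 1) 0 ∈ Inv Ψ o := by
  obtain ⟨v, h1, h2, h3⟩ := ht
  have h4 := tv_span hA hB.tv h1
  choose t' ht' hI using h.inv_ξ hL o
  have h5 := AV.geo_tang_sum (h.rep o) univ (fun a => v (C.I a)) fun a _ => ht' a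
  have h6 : (∑ a, v (C.I a) • fun c => lin (D.ξ o) a (.inl c)) = fun c => v (.inl c) := by
    funext c
    rw [congrFun h4 (.inl c), Finset.sum_apply, Finset.sum_apply]
    rfl
  rw [h6] at h5
  have h7 := AV.Tang.unique (h.rep o) h2 h5
  have h8 : t = ∑ a, v (C.I a) • t' a := by
    refine sub_eq_zero.1 (funext (Fintype.linearIndependent_iff.mp h.par.basis.indep _ ?_))
    funext c
    have h9 := congrFun h7 c
    simp only [Finset.sum_apply, Pi.smul_apply, smul_eq_mul, mul_sum] at h9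
    simp only [Finset.sum_apply, Pi.smul_apply, smul_eq_mul, Pi.sub_apply, sub_mul,
      sum_sub_distrib, h9, sum_mul, Pi.zero_apply, mul_assoc]
    rw [sum_comm, sub_self]
  have h9 : γ = ∑ a, v (C.I a) * ((fun l => lin (D.ξ o) a (.inr l)) ⬝ᵥ D.Y o D.j₁) := by
    rw [← h3]
    simp only [dotProduct, mul_sum]
    rw [sum_comm]
    refine sum_congr rfl fun l _ => ?_
    rw [congrFun h4 (.inr l), Finset.sum_apply, sum_mul]
    exact sum_congr rfl fun a _ => mul_assoc _ _ _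
  have h10 := (Inv Ψ o).sum_mem fun a (_ : a ∈ univ) => (Inv Ψ o).smul_mem (v (C.I a)) (hI a)
  convert h10 using 1
  funext d
  rw [Finset.sum_apply]
  rcases d with d | d | d
  · rw [h8]
    simp only [vec, Sum.elim_inl, Finset.sum_apply, Pi.smul_apply]
  · rw [h9]
    simp only [vec, Sum.elim_inr, Sum.elim_inl, Pi.smul_apply, smul_eq_mul, neg_mul, mul_neg,
      sum_neg_distrib, sum_mul, mul_assoc]
  · simp [vec]

end Pool.Agent.Lib.MP_651af7_nt.As
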