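import Pool.Agent.Lib.MP_651af7_nt.As.Sieg
import Pool.Agent.Lib.MP_651af7_nt.As.Cnt
import Pool.Agent.Lib.MP_651af7_nt.As.Pde
import Pool.Agent.Lib.MP_651af7_nt.As.Link
import Pool.Agent.Lib.MP_651af7_nt.As.Coef
import Pool.Agent.Lib.MP_651af7_nt.As.LocS
import Pool.Agent.Lib.MP_651af7_nt.As.FBa
import Pool.Agent.Lib.MP_651af7_nt.Av.EMain
import Pool.Agent.Lib.MP_651af7_nt.Es.Cher

/-! The steps of the engine. -/

namespace Pool.Agent.Lib.MP_651af7_nt.As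

open MvPolynomial Finset Height NumberField Matrix
open Av hiding Bad
open Es (Mo IX CX mo cx GA GC Bad Pen nv vol Tame IntV Dual)
open Rt (Pl av mu)

variable {k ι κ : Type} [Field k] [NumberField k] [Fintype ι] [Fintype κ] [DecidableEq κ]
  {S : Finset (FinitePlace k)} {B : AV k ι} {g r m : ℕ} {F : FB B g}

theorem ad_le_exp {c : AbsoluteValue k ℝ → ℝ} {h : ℝ} (hc : Ad c h) (p : Pl S) :
    c (av p) ≤ Real.exp h := by
  classical
  have h0 : ∀ v, 0 ≤ Real.log (c v) := fun v => Real.log_nonneg (hc.one v)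
  have h1 := Es.gsum_le_S S (f := fun v => Real.log 1) (g := fun v => Real.log (c v))
    (ad_one (k := k)).fin hc.fin (fun p' => if p' = p then -Real.log (c (av p)) else 0)
    (fun p' => by
      split_ifs with h
      · subst h
        simp
      · simpa using h0 _) fun v _ => by simpa using h0 _
  have h2 := (ad_one (k := k)).nonneg
  have h3 : 0 ≤ Vj.gsum fun _ : AbsoluteValue k ℝ => Real.log 1 := by simp [Vj.gsum]
  simp only [mul_ite, mul_zero, sum_ite_eq', mem_univ, if_true] at h1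
  have h4 : (1 : ℝ) ≤ mu p := by exact_mod_cast Rt.one_le_mu p
  rw [← Real.log_le_iff_le_exp (hc.pos _)]
  have h5 := mul_le_mul_of_nonneg_right h4 (h0 (av p))
  linarith [hc.le]

/-- The formal data come from the blocks. -/
structure Fit (D : Dat k ι κ (Pl S) g r m) (f : Fix S ι κ) (b : Fin m → Bk B S κ g r) : Prop where
  x : ∀ o, D.x o = (b o).x
  Y : ∀ o, D.Y o = (b o).Y
  η : ∀ o, D.η o = (b o).η
  j₀ : D.j₀ = f.j₀
  j₁ : D.j₁ = f.j₁
  br : ∀ o, (b o).C.Br (b o).x (D.ξ o)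

variable {D : Dat k ι κ (Pl S) g r m} {f : Fix S ι κ} {b : Fin m → Bk B S κ g r} {ε : ℝ}

omit [Fintype ι] [Fintype κ] [DecidableEq κ] in
theorem Fit.xa (h : Fit D f b) (o : Fin m) : D.xa o = (b o).xa :=
  funext fun a => congrFun (h.x o) (.inl a)

omit [Fintype ι] [Fintype κ] [DecidableEq κ] in
theorem Fit.z (h : Fit D f b) (o : Fin m) : D.z o = (b o).z :=
  funext fun a => congrFun (h.x o) (.inr a)

theorem exists_dat (F : FB B g) {ϱ : ι → MvPowerSeries (Fin g) k} (hϱ : B.Par g ϱ) (Z : Cf m)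
    (hj : f.j₁ ≠ f.j₀) (hG : ∀ o, (b o).Good (lin ϱ) f ε) (hn : ∀ o, F.em ≤ Z.n o ∧ 1 ≤ Z.n o) :
    ∃ D : Dat k ι κ (Pl S) g r m, D.toCf = Z ∧ D.ϱ = ϱ ∧ Fit D f b ∧ D.Ok F fun o => (b o).P := by
  choose ξ hξ using fun o => (b o).C.exists_br (hG o).atx
  have h1 := fun o => (hξ o).mem (hG o).on
  have h2 : ∀ o, ∃ (a : ι) (s : ι → k), AV.Rep ((b o).P + 2 ^ Z.j o • (b Z.h).P) s ∧ s a = 1 :=
    fun o => by
      obtain ⟨a, ha⟩ := (AV.rep_co ((b o).P + 2 ^ Z.j o • (b Z.h).P)).unit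
      exact ⟨a, _, (AV.rep_co _).smul ha.inv, inv_mul_cancel₀ ha.ne_zero⟩
  choose a₀ sm h3 h4 using h2
  have hx : ∀ o, (fun a => MvPowerSeries.constantCoeff (ξ o a)) = (b o).x := fun o =>
    funext (hξ o).const
  have h5 : ∀ o a, (X a - 1 : MvPolynomial (ι ⊕ κ) k) ∈ JI B f.a₁ f.α → ξ o a = 1 :=
    fun o a ha => by simpa [sub_eq_zero] using h1 o _ ha
  refine ⟨⟨Z, f.a₁, a₀, sm, ξ, ϱ, fun o => (b o).Y, fun o => (b o).η, f.j₀, f.j₁, f.α⟩, rfl, rfl,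
    ⟨hx, fun _ => rfl, fun _ => rfl, rfl, rfl, hξ⟩, hϱ, fun o => ?_, fun o P hP => ?_,
    fun o => h5 o _ (Ideal.mem_sup_right (Ideal.subset_span (by simp))),
    fun o => h5 o _ (Ideal.mem_sup_right (Ideal.subset_span (by simp))),
    fun o => (hG o).blk.pen.det, fun o i hi => ?_, hj, fun o _ => ⟨h3 o, h4 o⟩, hn⟩
  · have e : (fun a => MvPowerSeries.constantCoeff (ξ o (.inl a))) = (b o).xa :=
      funext fun a => (hξ o).const _
    change AV.Rep (b o).P fun a => MvPowerSeries.constantCoeff (ξ o (.inl a))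
    rw [e]
    exact (hG o).rep
  · have := h1 o _ (Ideal.mem_sup_left (Ideal.mem_map_of_mem (rename Sum.inl) hP))
    rwa [aeval_rename] at this
  · have e : (fun a => MvPowerSeries.constantCoeff (ξ o (.inr a))) = (b o).z :=
      funext fun a => (hξ o).const _
    change (fun a => MvPowerSeries.constantCoeff (ξ o (.inr a))) ⬝ᵥ (b o).Y i = 0
    rw [e]
    exact (hG o).orth i hi

variable {c : D.Co F κ}

theorem Fit.val (h : Fit D f b) (hD : D.Ok F fun o => (b o).P)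
    (hG : ∀ o, (b o).Good (lin D.ϱ) f ε) {μ : Fin m × Fin r ⊕ Fin m × κ →₀ ℕ} {ν : Fin m → ℕ}
    {Ψ : MvPolynomial (Fin m × NV g κ (Pl S)) k} (hL : Ld (D.ff F c) μ ν Ψ) (h0 : Ψ ≠ 0) :
    coeff (zz (.inr (.inl D.α)) ν) Ψ ≠ 0 ∧ ∃ β : k, β ≠ 0 ∧
      (∀ (t : Fin m → Fin g → k) (y : Fin m → κ → k), (∀ o, ∃ s, (b o).G =
          ∑ l, t o l * (b o).gg (some l) + s * (b o).gg none + (b o).z ⬝ᵥ y o) →
        eval (fun p => vec (t p.1) (y p.1) 0 p.2) Ψ = β) ∧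
      ∀ p, coeff (zz (.inr (.inr p)) ν) Ψ = β := by
  classical
  obtain ⟨h1, h2⟩ := lead_val hL.mh h0 (z := D.z) (Y := D.Y) (η := D.η)
    (gg := fun o => (b o).gg) hD.z_α hD.det hD.orth (fun o j hj => hD.inv_Y hL o hj)
    (hD.inv_η hL) fun o d => hD.inv_tv hL o (C := (b o).C) (h.x o ▸ (hG o).atx)
      (h.x o ▸ h.br o) (by rw [h.x, h.Y, h.j₁]; exact (hG o).tv d)
  obtain ⟨h3, h4⟩ := h2 fun o => (b o).G
  simp only [h.z, h.η] at h3 h4
  exact ⟨h1, _, mul_ne_zero (prod_ne_zero_iff.2 fun o _ => pow_ne_zero _ (hG o).ne) h1, h3,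
    fun p => h4 p fun o => (hG o).dirS p⟩

theorem Fit.lead (h : Fit D f b) (hD : D.Ok F fun o => (b o).P)
    (hG : ∀ o, (b o).Good (lin D.ϱ) f ε) (hc : c ≠ 0) {Sm : (Fin m × Fin r →₀ ℕ) → Prop}
    {Out : Prop} (hnv : ∀ β, aeval (xo D.ξ) (D.GP F c β) ≠ 0 →
      (∃ μ, Sm μ ∧ MvPowerSeries.coeff μ (aeval (xo D.ξ) (D.GP F c β)) ≠ 0) ∨ Out) :
    (∃ (μ μ' : Fin m × Fin r →₀ ℕ) (σ : Fin m × κ →₀ ℕ) (ν : Fin m → ℕ)
      (Ψ : MvPolynomial (Fin m × NV g κ (Pl S)) k), μ ≤ μ' ∧ Sm μ' ∧ (∀ o, ν o ≤ D.e o) ∧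
        Ld (D.ff F c) (μ.sumElim σ) ν Ψ ∧ Ψ ≠ 0) ∨ Out := by
  obtain ⟨ν, hT, μ₀, α₀, h1, h2⟩ := exists_minT (hD.ff_ne_zero hc)
  obtain ⟨μ₁, -, Ψ₁, h3, h4⟩ := exists_ld hT h1 h2
  have h5 := (h.val hD hG h3 h4).1
  rw [(h3.lead _).1 (bdeg_zz _ _)] at h5
  obtain ⟨β, rfl, h6⟩ := hD.link1 h5
  refine (hnv β h6).imp_left ?_
  rintro ⟨μ', h7, h8⟩
  obtain ⟨σ', h9⟩ := hD.link2 h8
  obtain ⟨μ₂, h10, Ψ, h11, h12⟩ := exists_ld hT (bdeg_zz _ _) h9
  obtain ⟨μ, σ, rfl⟩ : ∃ (μ : Fin m × Fin r →₀ ℕ) (σ : Fin m × κ →₀ ℕ), μ₂ = μ.sumElim σ :=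
    ⟨_, _, (Finsupp.comapDomain_sumElim_comapDomain μ₂).symm⟩
  refine ⟨μ, μ', σ, _, Ψ, fun s => h10 (.inl s), h7, fun o => ?_, h11, h12⟩
  exact (single_le_sum (f := (β o).1) (fun _ _ => Nat.zero_le _) (mem_univ _)).trans_eq
    (Es.sum_Mo (β o))

theorem eng_glob (κ : Type) [Fintype κ] [DecidableEq κ] (eM : ℕ) : ∃ C : ℕ,
    ∀ (k ι : Type) [Field k] [NumberField k] [Fintype ι] (S : Finset (FinitePlace k)) (B : AV k ι)
      (g r m : ℕ) (F : FB B g) (D : Dat k ι κ (Pl S) g r m) (f : Fix S ι κ)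
      (b : Fin m → Bk B S κ g r) (ε : ℝ) (c : D.Co F κ) (μ : Fin m × Fin r →₀ ℕ)
      (σ : Fin m × κ →₀ ℕ) (ν : Fin m → ℕ) (Ψ : MvPolynomial (Fin m × NV g κ (Pl S)) k)
      (L : Pl S → ℝ) (lH C' : ℝ) (hq τ : Fin m → ℝ) (q : Fin m → AbsoluteValue k ℝ → ℝ)
      (q' : AbsoluteValue k ℝ → ℝ), f.eM = eM → Fit D f b → (D.Ok F fun o => (b o).P) →
      (∀ o, (b o).Good (lin D.ϱ) f ε) → Ld (D.ff F c) (μ.sumElim σ) ν Ψ → Ψ ≠ 0 →
      (∀ p l, |f.cc p l| ≤ f.Γ) →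
      D.Van F (fun o => (b o).M) (fun p => Bad D.e (fun o => AV.ht (b o).P) (f.cc p) (L p)) c →
      0 ≤ lH → (∀ t, |(c t : ℝ)| ≤ Real.exp lH) → (∀ o, Ad (q o) (hq o)) → Ad q' C' →
      (∀ o v a, Geo v (q o v) (D.ξ o a)) → (∀ v a, Geo v (q' v) (D.ϱ a)) → (∀ o, 1 ≤ τ o) →
      (∀ o, ε * AV.ht (b o).P ≤ τ o) →
      (∀ o p i j, pl (av p) ((b o).M p i j) ≤ Real.exp (τ o)) →
      ∑ o ∈ univ.erase D.h, D.n o * AV.ht ((b o).P + 2 ^ D.j o • (b D.h).P) ≤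
        ∑ o, ((9 * D.dg o : ℕ) * F.hs + bdeg μ o * hq o + ν o * (C' + ε * AV.ht (b o).P)) +
        ∑ p, mu p * (lH + L p + ∑ o, (((F.ρ + g + 1) * D.n o : ℕ) + (C * D.e o : ℕ) * τ o +
          bdeg μ o * (2 * f.Γ * AV.ht (b o).P))) + ∑ o, D.dg o * AV.ht (b o).P := by
  obtain ⟨C, hC⟩ := loc_S κ eM
  refine ⟨C, ?_⟩
  intro k ι _ _ _ S B g r m F D f b ε c μ σ ν Ψ L lH C' hq τ q q' heM h hD hG hL h0 hcc hV hlH hc
    aq aq' gq gq' τ1 τ2 τ3
  obtain ⟨-, β, β0, β1, β2⟩ := h.val hD hG hL h0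
  choose A aA hA using fun o => (hG o).dirO
  have hR : ∀ v, D.Rad v (fun o => q o v) (q' v) := fun v =>
    ⟨fun o => gq o v, gq' v, fun o => (aq o).one v, aq'.one v⟩
  have hx : ∀ o, D.xa o ≠ 0 := fun o e => one_ne_zero ((hD.xa_one o).symm.trans (congrFun e _))
  have key := glob_ineq S β0 (x := D.xa) (y := D.sm) (univ.erase D.h) hx
    (fun o ho e => one_ne_zero
      ((hD.sum o (ne_of_mem_erase ho)).2.symm.trans (congrFun e _))) D.dg D.n
    (ad_prod univ fun o _ => ((F.ad.pow (9 * D.dg o)).mul ((aq o).pow (bdeg μ o))).mul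
      ((aq'.mul (aA o)).pow (ν o)))
    (fun p => lH + L p + ∑ o, (((F.ρ + g + 1) * D.n o : ℕ) + (C * D.e o : ℕ) * τ o +
      bdeg μ o * (2 * f.Γ * AV.ht (b o).P)))
    (fun v hv => by
      choose t y s h1 h2 h3 using fun o => hA o v hv
      rw [← β1 t y fun o => ⟨s o, h3 o⟩]
      exact hD.loc_O hL (Es.fin_naA v) (hR _)
        (fun o i l => Es.fin_le_oneA v (h.Y o ▸ (hG o).blk.pen.int i l))
        (fun o => (aA o).one _) h1 h2)
    fun p => by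
      have e1 : ∀ o, Real.exp (ε * AV.ht (b o).P) ≤ Real.exp (τ o) := fun o =>
        Real.exp_le_exp.2 (τ2 o)
      have e2 : ∀ o, 2 ≤ Real.exp (τ o) := fun o => by
        linarith [Real.add_one_le_exp (τ o), τ1 o]
      have h1 := hC k ι (Pl S) g r m B F D _ c μ σ ν Ψ (av p) _ _ _ _ p (Real.exp lH) f.Γ (L p)
        (fun o => Real.exp (τ o)) (fun o => AV.ht (b o).P) (f.cc p) hD hL (hR _) hV rfl
        (Real.one_le_exp hlH) hc e2 (fun o => AV.ht_nonneg _) (hcc p)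
        (fun o i j => heM ▸ (hG o).hom p i j) (fun o => τ3 o p)
        (fun o => h.xa o ▸ ((hG o).nmx p).trans (e1 o))
        (fun o => by
          rw [h.xa]
          have e3 := ((hG o).blk.tame p).2
          refine le_trans ?_ (mul_le_mul (e1 o) e3 (Real.exp_pos _).le (Real.exp_pos _).le)
          rw [← Real.exp_add, add_neg_cancel, Real.exp_zero])
        (fun o i l hi => h.Y o ▸ (hG o).blk.sz p i l (h.j₀ ▸ hi))
        (fun o l => h.η o ▸ (hG o).szη p l)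
        (fun o i l hi => by
          rw [h.xa, h.Y]
          exact (hG o).blk.pen.bd p i l (h.j₀ ▸ hi))
        (fun o l => by
          rw [h.xa, h.η]
          refine ((hG o).box p l).trans ?_
          rw [add_mul, add_comm, Real.exp_add]
          exact mul_le_mul_of_nonneg_right (e1 o) (Real.exp_pos _).le)
      rw [β2] at h1
      refine h1.trans (mul_le_mul_of_nonneg_right (mul_le_mul ?_ ?_ ?_ (Real.exp_pos _).le)
        (prod_nonneg fun o _ => pow_nonneg (nm_nn _ _) _))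
      · rw [Real.exp_add, Real.exp_add, Real.exp_sum]
        refine mul_le_mul_of_nonneg_left (prod_le_prod (fun o _ => by positivity) fun o _ => ?_)
          (by positivity)
        rw [Real.exp_add, Real.exp_add, Real.exp_nat_mul, Real.exp_nat_mul]
        refine mul_le_mul_of_nonneg_right (mul_le_mul_of_nonneg_right ?_ (by positivity))
          (by positivity)
        have e4 : (Fintype.card (F.T (D.n o)) : ℝ) ≤ 2 ^ ((F.ρ + g + 1) * D.n o) := by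
          exact_mod_cast F.card_T_le (hD.em o).2
        refine e4.trans ?_
        rw [← Real.exp_one_pow]
        exact pow_le_pow_left₀ zero_le_two (by linarith [Real.add_one_le_exp 1]) _
      · refine prod_le_prod (fun o _ => ?_) fun o _ => le_mul_of_one_le_right ?_
          (one_le_pow₀ ((aq'.mul (aA o)).one _))
        all_goals exact mul_nonneg (pow_nonneg (F.ad.pos _).le _) (pow_nonneg ((aq o).pos _).le _)
      · exact prod_nonneg fun o _ =>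
          mul_nonneg (pow_nonneg (F.ad.pos _).le _) (pow_nonneg ((aq o).pos _).le _)
  refine le_trans (le_of_eq (sum_congr rfl fun o ho => ?_)) (key.trans (le_of_eq ?_))
  · rw [AV.ht_eq (hD.sum o (ne_of_mem_erase ho)).1]
  · simp only [AV.ht_eq (hD.rep _)]

end Pool.Agent.Lib.MP_651af7_nt.As
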