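import Pool.Agent.Lib.MP_651af7_nt.As.Red
import Pool.Agent.Lib.MP_651af7_nt.Av.EBd
import Pool.Agent.Lib.MP_651af7_nt.Av.LieA

/-! The factors that come from the abelian variety. -/

namespace Pool.Agent.Lib.MP_651af7_nt.As

open MvPolynomial Finset Height NumberField Matrix
open Av hiding Bad
open Es (Mo IX CX mo cx GA GC Bad Pen nv vol Tame IntV Dual)
open Rt (Pl av mu)

section fa

variable {k ι R : Type} [Field k] [CommRing R] [Algebra k R] {B : AV k ι} {v : AbsoluteValue k ℝ}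
  {S : SN R (IsNonarchimedean v)}

/-- `SN.Ov.ph_le` without finiteness of `ι`. -/
theorem fa_ph_le (hS : S.Ov v) {s X Y : ℝ} (hs : Sz₀ B v s) {x y : ι → R}
    (hx : ∀ a, S.N (x a) ≤ X) (hy : ∀ a, S.N (y a) ≤ Y) (a b : ι) :
    S.N (B.ph a b x y) ≤ s * (X ^ 2 * Y ^ 2) := by
  have hX : 0 ≤ X := (S.nonneg _).trans (hx a)
  have hY : 0 ≤ Y := (S.nonneg _).trans (hy a)
  have ht : ∀ c : ι ⊕ ι, 0 ≤ Sum.elim (fun _ => X) (fun _ => Y) c := by
    rintro (c | c)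
    exacts [hX, hY]
  rw [AV.ph, aeval_def]
  refine (eval₂_le_polN (absSN v) S (algebraMap k R) hS (t := Sum.elim (fun _ => X) fun _ => Y)
    (by rintro (c | c); exacts [hx c, hy c]) _).trans ((polN_le_mul (absSN v) ht
      (b := X ^ 2 * Y ^ 2) (by positivity) fun μ hμ => le_of_eq ?_).trans
      (mul_le_mul_of_nonneg_right (hs.Φ a b) (by positivity)))
  have h := B.bih a b (mem_support_iff.mp hμ)
  rw [Finsupp.weight_apply, Finsupp.sum] at h
  have h1 : ∀ i, Sum.elim (fun _ => X) (fun _ => Y) i ^ μ i =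
      X ^ (μ i • bw ι ι i).1 * Y ^ (μ i • bw ι ι i).2 := by
    rintro (c | c) <;> simp [bw]
  simp only [wt, Finsupp.prod, h1, prod_mul_distrib, prod_pow_eq_pow_sum, ← Prod.fst_sum,
    ← Prod.snd_sum, h]

/-- Prove first `s * S.N (dbn y j a) ≤ (s * Y) ^ 4 ^ j` by induction. -/
theorem fa_dbn_le (hS : S.Ov v) {s Y : ℝ} (hs : Sz₀ B v s) {y : ι → R}
    (hy : ∀ a, S.N (y a) ≤ Y) (j : ℕ) (a : ι) : S.N (B.dbn y j a) ≤ (s * Y) ^ 4 ^ j := by
  have h1 : 1 ≤ s := one_le_of_two hs.two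
  have h0 : 0 < s := one_pos.trans_le h1
  have hY : 0 ≤ Y := (S.nonneg _).trans (hy a)
  have key : ∀ j a, S.N (B.dbn y j a) ≤ (s * Y) ^ 4 ^ j / s := by
    intro j
    induction j with
    | zero => exact fun a => (hy a).trans (le_of_eq (by rw [pow_zero, pow_one, mul_div_cancel_left₀ _ h0.ne']))
    | succ j ih =>
      intro a
      refine (fa_ph_le hS hs ih ih a B.ao).trans ?_
      have e : s * (((s * Y) ^ 4 ^ j / s) ^ 2 * ((s * Y) ^ 4 ^ j / s) ^ 2) =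
          (s * Y) ^ 4 ^ (j + 1) / s / s ^ 2 := by
        rw [pow_succ 4, pow_mul]
        field_simp
      rw [e]
      exact div_le_self (by positivity) (one_le_pow₀ h1)
  exact (key j a).trans (div_le_self (by positivity) h1)

end fa

namespace Cf

variable {m : ℕ} (Z : Cf m)

/-- The factor by which a difference scales. -/
def sc {R : Type} [CommMonoid R] (s : Fin m → R) (o : Fin m) : R :=
  if o = Z.h then s Z.h else s o ^ 2 * s Z.h ^ (2 * 4 ^ Z.j o)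

/- Split off `Z.h` on both sides (`Finset.mul_prod_erase`), `Finset.prod_pow_eq_pow_sum`. -/
theorem prod_sc {R : Type} [CommMonoid R] (s : Fin m → R) :
    ∏ o, Z.sc s o ^ Z.n o = ∏ o, s o ^ Z.dg o := by
  rw [← mul_prod_erase univ _ (mem_univ Z.h), ← mul_prod_erase univ _ (mem_univ Z.h), sc, dg,
    if_pos rfl, if_pos rfl, pow_add, ← prod_pow_eq_pow_sum, mul_assoc, ← prod_mul_distrib]
  congr 1
  refine prod_congr rfl fun o ho => ?_
  rw [sc, dg, if_neg (ne_of_mem_erase ho), if_neg (ne_of_mem_erase ho), mul_pow, ← pow_mul,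
    ← pow_mul, mul_comm]

theorem n_le_dg (o : Fin m) : Z.n o ≤ Z.dg o := by
  unfold dg
  split_ifs with h
  · rw [h]
    exact Nat.le_add_right _ _
  · omega

variable {k ι R R' : Type} [Field k] [CommRing R] [Algebra k R] [CommRing R'] [Algebra k R']
  (B : AV k ι)

theorem map_arm (f : R →ₐ[k] R') (a : Fin m → ι) (y : Fin m → ι → R) (o : Fin m) (c : ι) :
    f (Z.arm B a y o c) = Z.arm B a (fun o c => f (y o c)) o c := by
  unfold arm
  split_ifs
  · rfl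
  · simp only [AV.map_ph, AV.map_dbn]

theorem map_bak (f : R →ₐ[k] R') (y : Fin m → ι → R) (o : Fin m) (c : ι) :
    f (Z.bak B y o c) = Z.bak B (fun o c => f (y o c)) o c := by
  unfold bak
  split_ifs
  · rfl
  · simp only [AV.map_ph, AV.map_dbn]

/- `ph_mul`, `dbn_mul`. -/
theorem arm_mul (a : Fin m → ι) (s : Fin m → R) (y : Fin m → ι → R) (o : Fin m) (c : ι) :
    Z.arm B a (fun o c => s o * y o c) o c = Z.sc s o * Z.arm B a y o c := by
  unfold arm sc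
  split_ifs
  · rfl
  · rw [funext (B.dbn_mul (s Z.h) (y Z.h) (Z.j o)), B.ph_mul, ← pow_mul, mul_comm (4 ^ Z.j o)]

variable [NumberField k] {B} {g : ℕ} (F : FB B g)

theorem map_Fa (f : R →ₐ[k] R') (a : Fin m → ι) (y : Fin m → ι → R) (o : Fin m)
    (t : F.T (Z.n o)) : f (Z.Fa F a y o t) = Z.Fa F a (fun o c => f (y o c)) o t := by
  rw [Fa, Fa, ← AlgHom.comp_apply, comp_aeval, funext (Z.map_arm B f a y o)]

/- `arm_mul`, `φ_hom`, `aeval_mul_of_hom`. -/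
theorem Fa_mul (hn : ∀ o, F.em ≤ Z.n o) (a : Fin m → ι) (s : Fin m → R) (y : Fin m → ι → R)
    (o : Fin m) (t : F.T (Z.n o)) :
    Z.Fa F a (fun o c => s o * y o c) o t = Z.sc s o ^ Z.n o * Z.Fa F a y o t := by
  rw [Fa, Fa, funext (Z.arm_mul B a s y o), aeval_mul_of_hom (F.φ_hom (hn o) t)]

/- `map_Fa` for `AV.eD D` (`Av/LieA`): the image of `y o c` is `(1 + ε s o) * inl (y o c)`; `Fa_mul`,
`map_Fa` for `TrivSqZeroExt.inlAlgHom`; compare the second components. -/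
theorem der_Fa (hn : ∀ o, F.em ≤ Z.n o) (D : Derivation k R R) (a : Fin m → ι)
    {y : Fin m → ι → R} (hy : ∀ o, ∃ s, ∀ c, D (y o c) = s * y o c) (o : Fin m) :
    ∃ s, ∀ t, D (Z.Fa F a y o t) = s * Z.Fa F a y o t := by
  choose s hs using hy
  let u : Fin m → DualNumber R := fun o => ⟨1, s o⟩
  refine ⟨TrivSqZeroExt.snd (Z.sc u o ^ Z.n o), fun t => ?_⟩
  have h1 := Z.map_Fa F (eD D) a y o t
  have h2 : (fun o c => eD D (y o c)) =
      fun o c => u o * TrivSqZeroExt.inlAlgHom k R R (y o c) := by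
    funext o c
    refine TrivSqZeroExt.ext (one_mul _).symm ?_
    rw [DualNumber.snd_mul]
    exact (hs o c).trans (by simp [u])
  rw [h2, Z.Fa_mul F hn, ← Z.map_Fa F] at h1
  have h3 := congrArg TrivSqZeroExt.snd h1
  rw [DualNumber.snd_mul] at h3
  exact h3.trans (by simp)

/- `Fb o = (Z.sc (fun o => s ^ 2 * Y o) o) ^ n o`, `prod_sc`; `ph_le`, `dbn_le`, `SN.Ov.aeval_le`,
`s ^ (n + 1) ≤ s ^ (2 n)`. -/
theorem Fa_le (hn : ∀ o, F.em ≤ Z.n o ∧ 1 ≤ Z.n o) {v : AbsoluteValue k ℝ}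
    {S : SN R (IsNonarchimedean v)} (hS : S.Ov v) {s : ℝ} (hs : Sz₀ B v s)
    (hφ : ∀ (n : ℕ) (t : F.T n), pl v (F.φ t) ≤ s ^ (n + 1)) (a : Fin m → ι) {y : Fin m → ι → R}
    {Y : Fin m → ℝ} (hY : ∀ o, 0 ≤ Y o) (hy : ∀ o c, S.N (y o c) ≤ Y o) :
    ∃ Fb : Fin m → ℝ, (∀ o, 0 ≤ Fb o) ∧ (∀ o t, S.N (Z.Fa F a y o t) ≤ Fb o) ∧
      ∏ o, Fb o = ∏ o, (s ^ 2 * Y o) ^ Z.dg o := by
  have h1 : 1 ≤ s := one_le_of_two hs.two
  have h0 : 0 ≤ s := zero_le_one.trans h1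
  have key : ∀ o t (A : ℝ), 0 ≤ A → (∀ c, S.N (Z.arm B a y o c) ≤ A) →
      s ^ 2 * A ≤ Z.sc (fun o => s ^ 2 * Y o) o →
      S.N (Z.Fa F a y o t) ≤ Z.sc (fun o => s ^ 2 * Y o) o ^ Z.n o := by
    intro o t A hA h2 h3
    refine (hS.aeval_le (F.φ_hom (hn o).1 t) hA h2).trans
      (le_trans ?_ (pow_le_pow_left₀ (by positivity) h3 _))
    rw [mul_pow, ← pow_mul]
    exact mul_le_mul_of_nonneg_right ((hφ _ t).trans
      (pow_le_pow_right₀ h1 (by have := (hn o).2; omega))) (pow_nonneg hA _)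
  have y0 := hY Z.h
  refine ⟨fun o => Z.sc (fun o => s ^ 2 * Y o) o ^ Z.n o, fun o => pow_nonneg ?_ _,
    fun o t => ?_, Z.prod_sc _⟩
  · unfold sc
    split_ifs <;> positivity
  · by_cases ho : o = Z.h
    · refine key o t (Y Z.h) y0 (fun c => ?_) (by rw [sc, if_pos ho])
      rw [arm, if_pos ho]
      exact hy _ c
    · refine key o t (s * (Y o ^ 2 * ((s * Y Z.h) ^ 4 ^ Z.j o) ^ 2)) (by positivity) (fun c => ?_) ?_
      · rw [arm, if_neg ho]
        exact fa_ph_le hS hs (hy o) (fa_dbn_le hS hs (hy Z.h) _) _ _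
      · rw [sc, if_neg ho, ← pow_mul, mul_comm (4 ^ Z.j o)]
        calc _ = s ^ 3 * Y o ^ 2 * (s ^ 1 * Y Z.h) ^ (2 * 4 ^ Z.j o) := by ring
          _ ≤ s ^ 4 * Y o ^ 2 * (s ^ 2 * Y Z.h) ^ (2 * 4 ^ Z.j o) := by gcongr <;> norm_num
          _ = _ := by ring

end Cf

end Pool.Agent.Lib.MP_651af7_nt.As
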