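import Pool.Agent.Lib.MP_651af7_nt.As.Main

/-! The final statement. -/

namespace Pool.Agent.Lib.MP_651af7_nt.As

open MvPolynomial Finset Height NumberField Matrix
open Av hiding Bad
open Es (Mo IX CX mo cx GA GC Bad Pen nv vol Tame IntV Dual)
open Rt (Pl av mu)

open Es (mn)
open Ex (lx GenPos)

variable {k ι : Type} [Field k] [NumberField k] [Fintype ι]

/-- The local height at `(x, X)` of the divisor of a form with value `l`, of degree `e` in `x` where
`X` has degree `b`. -/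
noncomputable def lamB {n : ℕ} (v : AbsoluteValue k ℝ) (e b : ℕ) (x : ι → k) (X : Fin n → k)
    (l : k) : ℝ :=
  Real.log ((⨆ a, v (x a)) ^ e * (⨆ i, v (X i)) / ((⨆ a, v (x a)) ^ b * v l))

omit [NumberField k] [Fintype ι] in
theorem finB_scale {n : ℕ} (v : AbsoluteValue k ℝ) (e b : ℕ) (x : ι → k) (Y : Fin n → k) (l : k)
    {c : k} (hc : c ≠ 0) :
    lamB v e b (fun a => c * x a) (c ^ b • Y) (c ^ e * l) = lamB v e b x Y l := by
  have h1 : ⨆ i, v ((c ^ b • Y) i) = v c ^ b * ⨆ i, v (Y i) := by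
    rw [← map_pow]
    exact iSup_mul_left v (c ^ b) Y
  have h2 : v c ≠ 0 := v.ne_zero hc
  rw [lamB, lamB, h1, iSup_mul_left, map_mul, map_pow, mul_pow, mul_pow,
    ← mul_div_mul_left ((⨆ a, v (x a)) ^ e * ⨆ i, v (Y i)) _
      (mul_ne_zero (pow_ne_zero e h2) (pow_ne_zero b h2))]
  congr 2 <;> ring

omit [NumberField k] [Fintype ι] in
theorem finB_le {n : ℕ} (v : AbsoluteValue k ℝ) (e b : ℕ) {x : ι → k} (Y : Fin n → k) {l : k}
    (hl : l ≠ 0) (h : 1 ≤ ⨆ a, v (x a)) :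
    lamB v e b x Y l ≤ e * Real.log (⨆ a, v (x a)) + lx v Y l := by
  have h0 := Real.log_nonneg h
  have h1 : (⨆ a, v (x a)) ≠ 0 := by positivity
  have h2 : v l ≠ 0 := v.ne_zero hl
  by_cases hY : ⨆ i, v (Y i) = 0
  · rw [lamB, lx, hY, mul_zero, zero_div, zero_div, Real.log_zero, add_zero]
    positivity
  · rw [lamB, lx, Real.log_div (mul_ne_zero (pow_ne_zero _ h1) hY)
      (mul_ne_zero (pow_ne_zero _ h1) h2), Real.log_mul (pow_ne_zero _ h1) hY,
      Real.log_mul (pow_ne_zero _ h1) h2, Real.log_div hY h2, Real.log_pow, Real.log_pow]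
    have : 0 ≤ b * Real.log (⨆ a, v (x a)) := by positivity
    linarith

/- `vojtaA` with `a₀ = A.ao`, `ε / 2`; multiply by `C (X A.ao)` (`biH_C`: `A.o` is a zero of `A.I`
with `A.o A.ao = 1`, see `AV.rep_zero`).  Write `x = c * x'` with `x' A.ao = 1`: both sides do not
change (`BiH.scale`, `eval_mul_of_hom`, `iSup_mul_left`, `logHeight_mul_left`, `Es.mn_smul`,
`logHeight_smul_eq_logHeight`; for `GenPos` use `LinearIndependent.units_smul`).  At `x'`:
`lamB ≤ e j * log (⨆ a, v (x' a)) + lx` as `1 ≤ ⨆ a, v (x' a)` and `B t ≠ 0` (the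
value of the form is not zero, so `t ≠ 0`); `absA_all` for the variables. -/
theorem vojtaB (A : AV k ι) {n r q b : ℕ} (B : Matrix (Fin n) (Fin r) (MvPolynomial ι k))
    (hB : ∀ i j, (B i j).IsHomogeneous b) (L : Fin q → Fin r → MvPolynomial ι k) (e : Fin q → ℕ)
    (hL : ∀ j l, (L j l).IsHomogeneous (e j)) {ε : ℝ} (hε : 0 < ε) :
    ∃ P : MvPolynomial (Fin r) (MvPolynomial ι k), BiH A P ∧
      ∀ S : Finset (FinitePlace k), ∃ C : ℝ, ∀ (x : ι → k) (t : Fin r → k)
        (J : Pl S → Finset (Fin q)), x ≠ 0 → (∀ f ∈ A.I, eval x f = 0) → eval₂ (eval x) t P ≠ 0 →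
        mn (B.map (eval x)) ≠ 0 → (∀ p, GenPos (fun j l => eval x (L j l)) (J p)) →
        (∀ p, ∀ j ∈ J p, ∑ l, eval x (L j l) * t l ≠ 0) →
        ∑ p, mu p * ∑ j ∈ J p,
            lamB (av p) (e j) b x (B.map (eval x) *ᵥ t) (∑ l, eval x (L j l) * t l) +
          logHeight (mn (B.map (eval x))) ≤ r * logHeight (B.map (eval x) *ᵥ t) +
            ε * (logHeight x + logHeight (B.map (eval x) *ᵥ t)) + C := by
  classical
  obtain ⟨P, hP, h⟩ := vojtaA A A.ao B L (half_pos hε)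
  have hX : (X A.ao : MvPolynomial ι k) ∉ A.I := fun hx => by
    have := (A.rep_zero (R := k)).zero _ hx
    rw [aeval_X, A.o_ao, map_one] at this
    exact one_ne_zero this
  refine ⟨C (X A.ao) * P, (biH_C (isHomogeneous_X k A.ao) hX).mul hP, fun S => ?_⟩
  obtain ⟨C₁, h₁⟩ := h S
  obtain ⟨W, hW⟩ : ∃ W : ℝ, W = ∑ p : Pl S, (mu p : ℝ) * ∑ j, (e j : ℝ) := ⟨_, rfl⟩
  have hW0 : 0 ≤ W := by
    rw [hW]
    positivity
  obtain ⟨C₂, hC₂, h₂⟩ := absA_all A A.ao S (univ.image X)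
    (ε := ε / 2 / (W + 1)) (by positivity)
  refine ⟨C₁ + W * C₂, fun x t J _ hI hne hmn hgp hl => ?_⟩
  rw [eval₂_mul, eval₂_C, eval_X, mul_ne_zero_iff] at hne
  obtain ⟨c, y, hc, hy, rfl⟩ : ∃ (c : k) (y : ι → k), c ≠ 0 ∧ y A.ao = 1 ∧ x = fun a => c * y a :=
    ⟨x A.ao, fun a => (x A.ao)⁻¹ * x a, hne.1, inv_mul_cancel₀ hne.1,
      funext fun a => (mul_inv_cancel_left₀ hne.1 _).symm⟩
  have hy' : Aff A A.ao y := by
    refine ⟨hy, fun f hf => ?_⟩
    have := zero_mul_of_hom A.hom (v := fun a => c * y a)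
      (fun f hf => by rw [aeval_eq_eval]; exact hI f hf) c⁻¹ f hf
    simp only [inv_mul_cancel_left₀ hc, aeval_eq_eval] at this
    exact this
  have eB : B.map (eval fun a => c * y a) = c ^ b • B.map (eval y) := by
    ext i j
    exact eval_mul_of_hom (hB i j) c y
  have eL : ∀ j, ∑ l, eval (fun a => c * y a) (L j l) * t l =
      c ^ e j * ∑ l, eval y (L j l) * t l := fun j => by
    rw [mul_sum]
    exact sum_congr rfl fun l _ => by rw [eval_mul_of_hom (hL j l), mul_assoc]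
  have hcb := pow_ne_zero b hc
  rw [eB, Es.mn_smul] at hmn
  simp only [eL] at hl
  simp only [eB, eL, Matrix.smul_mulVec, finB_scale _ _ _ _ _ _ hc, Es.mn_smul,
    logHeight_smul_eq_logHeight _ hcb, logHeight_smul_eq_logHeight _ (pow_ne_zero r hcb),
    logHeight_mul_left hc]
  have h3 := h₁ y t J hy' ((hP.scale hc y t).1 hne.2) (fun h0 => hmn (by rw [h0, smul_zero]))
    (fun p I hIJ hI' => by
      have := (hgp p I hIJ hI').units_smul fun j => (Units.mk0 _ (pow_ne_zero (e j) hc))⁻¹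
      refine cast (congrArg (fun u : I → Fin r → k => LinearIndependent k u) ?_) this
      funext j l
      simp [eval_mul_of_hom (hL j l), Units.smul_def, pow_ne_zero (e j) hc])
    fun p j hj => right_ne_zero_of_mul (hl p j hj)
  have h4 : ∀ p : Pl S, 1 ≤ ⨆ a, av p (y a) := fun p => by
    have := le_ciSup (f := fun a => av p (y a)) (Finite.bddAbove_range _) A.ao
    rwa [hy, map_one] at this
  have h0 := logHeight_nonneg y
  have h5 : ∀ p : Pl S, Real.log (⨆ a, av p (y a)) ≤ ε / 2 / (W + 1) * logHeight y + C₂ := by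
    intro p
    rw [Real.log_le_iff_le_exp (lt_of_lt_of_le one_pos (h4 p))]
    refine Real.iSup_le (fun a => ?_) (Real.exp_pos _).le
    simpa using (h₂ y hy' p (X a) (mem_image_of_mem _ (mem_univ a))).1
  have h6 : ∑ p, mu p * ∑ j ∈ J p,
      lamB (av p) (e j) b y (B.map (eval y) *ᵥ t) (∑ l, eval y (L j l) * t l) ≤
      W * (ε / 2 / (W + 1) * logHeight y + C₂) + ∑ p, mu p * ∑ j ∈ J p,
        lx (av p) (B.map (eval y) *ᵥ t) (∑ l, eval y (L j l) * t l) := by
    rw [hW, sum_mul, ← sum_add_distrib, ← hW]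
    refine sum_le_sum fun p _ => ?_
    rw [mul_assoc, ← mul_add]
    refine mul_le_mul_of_nonneg_left ?_ (Nat.cast_nonneg _)
    refine (sum_le_sum fun j hj =>
      finB_le (av p) (e j) b _ (right_ne_zero_of_mul (hl p j hj)) (h4 p)).trans ?_
    rw [sum_add_distrib, ← sum_mul]
    refine add_le_add (mul_le_mul ?_ (h5 p) (Real.log_nonneg (h4 p)) (by positivity)) le_rfl
    exact sum_le_sum_of_subset_of_nonneg (subset_univ _) fun _ _ _ => Nat.cast_nonneg _
  have h7 : W * (ε / 2 / (W + 1) * logHeight y) ≤ ε / 2 * logHeight y := by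
    rw [← mul_assoc]
    refine mul_le_mul_of_nonneg_right ?_ h0
    rw [← mul_div_assoc, div_le_iff₀ (by positivity)]
    nlinarith
  have h8 : 0 ≤ ε * logHeight (B.map (eval y) *ᵥ t) :=
    mul_nonneg hε.le (logHeight_nonneg _)
  nlinarith

/- `vojtaB` with `ε / 2`, `AV.gcd_part` (multiply by `C Θ`) and `AV.prox_part` as in `Av.vojta`
(`Av/Fin`). -/
theorem vojtaF (A : AV k ι) {T : Type} [Fintype T] (G : T → MvPolynomial ι k) {d : ℕ}
    (hG : ∀ j, (G j).IsHomogeneous d)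
    (hc : 2 ≤ ((Ideal.span (Set.range G)).map (Ideal.Quotient.mk A.I)).height) {n r q b : ℕ}
    (B : Matrix (Fin n) (Fin r) (MvPolynomial ι k)) (hB : ∀ i j, (B i j).IsHomogeneous b)
    (L : Fin q → Fin r → MvPolynomial ι k) (e : Fin q → ℕ)
    (hL : ∀ j l, (L j l).IsHomogeneous (e j)) {ε : ℝ} (hε : 0 < ε) :
    ∃ P : MvPolynomial (Fin r) (MvPolynomial ι k), BiH A P ∧
      ∀ (R : MvPolynomial ι k) (f : ℕ) (S : Finset (FinitePlace k)), R.IsHomogeneous f →
      ∃ C : ℝ, ∀ (x : ι → k) (t : Fin r → k) (J : Pl S → Finset (Fin q)), x ≠ 0 →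
        (∀ f ∈ A.I, eval x f = 0) → eval₂ (eval x) t P ≠ 0 → eval x R ≠ 0 →
        mn (B.map (eval x)) ≠ 0 → (∀ p, GenPos (fun j l => eval x (L j l)) (J p)) →
        (∀ p, ∀ j ∈ J p, ∑ l, eval x (L j l) * t l ≠ 0) → (fun j => eval x (G j)) ≠ 0 ∧
        ∑ p : Pl S, mu p * (Real.log ((⨆ a, av p (x a)) ^ f / av p (eval x R)) + ∑ j ∈ J p,
            lamB (av p) (e j) b x (B.map (eval x) *ᵥ t) (∑ l, eval x (L j l) * t l)) +
          (d * logHeight x - logHeight fun j => eval x (G j)) +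
          (logHeight (mn (B.map (eval x))) - r * logHeight (B.map (eval x) *ᵥ t)) ≤
            ε * (logHeight x + logHeight (B.map (eval x) *ᵥ t)) + C := by
  obtain ⟨P, h1, h2⟩ := vojtaB A B hB L e hL (half_pos hε)
  obtain ⟨Θ, m, C₁, k1, k2, k3⟩ := A.gcd_part G hG hc (half_pos (half_pos hε))
  refine ⟨P * C Θ, h1.mul (biH_C k1 k2), fun R f S hR => ?_⟩
  obtain ⟨C₀, h3⟩ := h2 S
  obtain ⟨N, hN⟩ : ∃ N : ℝ, N = ∑ p : Pl S, (mu p : ℝ) := ⟨_, rfl⟩
  have hN0 : 0 ≤ N := by rw [hN]; positivity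
  have hε' : 0 < ε / 2 / 2 / (N + 1) := by positivity
  have hadm : ∀ p : Pl S, Adm (av p) := fun p => by
    cases p with
    | inl w => exact Or.inl (mem_multisetInfinitePlace.2 w.isInfinitePlace)
    | inr w => exact Or.inr w.1.2
  choose c hc' using fun p : Pl S => A.prox_part hR (hadm p) hε'
  refine ⟨C₀ + C₁ + ∑ p, mu p * c p, fun x t J x0 xz xP xR hm hg hl => ?_⟩
  rw [eval₂_mul, eval₂_C, mul_ne_zero_iff] at xP
  refine ⟨(k3 x x0 xz xP.2).1, ?_⟩
  have e0 := h3 x t J x0 xz xP.1 hm hg hl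
  have e1 := (k3 x x0 xz xP.2).2
  have e2 := Finset.sum_le_sum fun p (_ : p ∈ Finset.univ) =>
    mul_le_mul_of_nonneg_left (hc' p x x0 xz xR) ((mu p).cast_nonneg (α := ℝ))
  simp only [mul_add, Finset.sum_add_distrib, ← Finset.sum_mul, ← hN] at e2
  have e4 : N * (ε / 2 / 2 / (N + 1) * logHeight x) ≤ ε / 2 / 2 * logHeight x := by
    rw [← mul_assoc]
    refine mul_le_mul_of_nonneg_right ?_ (logHeight_nonneg x)
    rw [mul_div_assoc', div_le_iff₀ (by positivity)]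
    nlinarith
  have e5 := mul_nonneg hε.le (logHeight_nonneg (B.map (eval x) *ᵥ t))
  simp only [mul_add, Finset.sum_add_distrib] at e0 ⊢
  linarith

end Pool.Agent.Lib.MP_651af7_nt.As
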