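import Pool.Agent.Lib.MP_651af7_nt.Es.Cher
import Pool.Agent.Lib.MP_651af7_nt.Es.ANorm
import Pool.Agent.Lib.MP_651af7_nt.Es.URed
import Pool.Agent.Lib.MP_651af7_nt.Es.APen

/-! Copies of lemmas from `Es/Prep`, `Es/UShort` that do not involve elliptic curves. -/

namespace Pool.Agent.Lib.MP_651af7_nt.Ex

open Finset Matrix Height NumberField Pool.Agent.Lib.MP_e97e2b_nt Pool.Agent.Lib.MP_651af7_nt.Iv
  Pool.Agent.Lib.MP_651af7_nt.Vj Pool.Agent.Lib.MP_651af7_nt.Vj.P1 Pool.Agent.Lib.MP_651af7_nt.Rt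
  Pool.Agent.Lib.Common.Subspace Pool.Agent.Lib.MP_651af7_nt.Es
open Pool.Agent.Lib.MP_8865d3_nt.Fa (Small Adm wt)

section

variable {K : Type} [Field K] [NumberField K] {ι : Type} [Fintype ι]

/-- The local height of the hyperplane given by a form with value `l` at `x`. -/
noncomputable def lx (v : AbsoluteValue K ℝ) (x : ι → K) (l : K) : ℝ :=
  Real.log ((⨆ i, v (x i)) / v l)

/- `logHeight₁_eq`, `sum_archAbsVal_eq`, `sum_nonarchAbsVal_eq` (see `pfS` in `Rt/PF`), `fin_le_one`,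
`InfinitePlace.sum_mult_eq`. -/
theorem ht_int {z : K} (hz : IsIntegral ℤ z) {B : ℝ} (hB : 0 ≤ B)
    (h : ∀ w : InfinitePlace K, w z ≤ Real.exp B) :
    logHeight₁ z ≤ Module.finrank ℚ K * B := by
  rw [NumberField.logHeight₁_eq, finsum_eq_zero_of_forall_eq_zero, add_zero,
    ← InfinitePlace.sum_mult_eq, Nat.cast_sum, Finset.sum_mul]
  · refine Finset.sum_le_sum fun w _ => mul_le_mul_of_nonneg_left ?_ (Nat.cast_nonneg _)
    refine (Real.posLog_le_posLog (apply_nonneg w z) (h w)).trans ?_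
    rw [Real.posLog_eq_log, Real.log_exp]
    rw [abs_of_pos (Real.exp_pos B)]
    exact Real.one_le_exp hB
  · intro v
    rw [Real.posLog_eq_zero_iff, abs_of_nonneg (apply_nonneg v z)]
    exact fin_le_one v hz

/- Divide by a coordinate `x i₀` of maximal size at `v`; `logHeight₁ (x i / x i₀) ≤ logHeight x`
(`logHeight₁_div_eq_logHeight`, `logHeight_comp_le`); `logHeight₁_add_le` (or `logHeight₁_sum_le`),
`logHeight₁_mul_le`, `Fa.liouville`. -/
theorem crude (ι : Type) [Fintype ι] : ∃ C : ℝ, 0 ≤ C ∧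
    ∀ (v : AbsoluteValue K ℝ) (u x : ι → K) (h : ℝ), Adm v → 0 ≤ h → (∀ i, logHeight₁ (u i) ≤ h) →
      u ⬝ᵥ x ≠ 0 → lx v x (u ⬝ᵥ x) ≤ C * (1 + h + logHeight x) := by
  classical
  have hlog : 0 ≤ (totalWeight K : ℝ) * Real.log (Fintype.card ι) :=
    mul_nonneg (Nat.cast_nonneg _) (Real.log_natCast_nonneg _)
  refine ⟨totalWeight K * Real.log (Fintype.card ι) + Fintype.card ι, by positivity,
    fun v u x h hv hh hu hne => ?_⟩
  have hx : x ≠ 0 := by
    rintro rfl
    exact hne (dotProduct_zero u)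
  obtain ⟨j, hj⟩ := Function.ne_iff.1 hx
  have : Nonempty ι := ⟨j⟩
  obtain ⟨i₀, hi₀⟩ := exists_eq_ciSup_of_finite (f := fun i => v (x i))
  have hj' : 0 < v (x j) := v.pos hj
  have hpos : 0 < v (x i₀) := by
    rw [hi₀]
    exact hj'.trans_le (Finite.le_ciSup (fun i => v (x i)) j)
  have hx0 : x i₀ ≠ 0 := fun e => by
    rw [e, map_zero] at hpos
    exact lt_irrefl _ hpos
  set γ : K := (u ⬝ᵥ x) / x i₀ with hγ
  have hγ0 : γ ≠ 0 := div_ne_zero hne hx0
  have hL := MP_8865d3_nt.Fa.liouville hv hγ0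
  have hvγ : 0 < v γ := v.pos hγ0
  have h1 : lx v x (u ⬝ᵥ x) = -Real.log (v γ) := by
    unfold lx
    rw [← hi₀, hγ, map_div₀, ← Real.log_inv, inv_div]
  have h2 : -logHeight₁ γ ≤ Real.log (v γ) := by
    rw [Real.le_log_iff_exp_le hvγ]
    exact hL
  have h3 : γ = ∑ i, u i * (x i / x i₀) := by
    rw [hγ, dotProduct, Finset.sum_div]
    exact Finset.sum_congr rfl fun i _ => mul_div_assoc _ _ _
  have h4 : ∀ i, logHeight₁ (x i / x i₀) ≤ logHeight x := by
    intro i
    rw [logHeight₁_div_eq_logHeight]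
    have e : ![x i, x i₀] = x ∘ ![i, i₀] := by
      ext k
      fin_cases k <;> rfl
    rw [e]
    exact logHeight_comp_le _ _
  have h5 : logHeight₁ γ ≤ totalWeight K * Real.log (Fintype.card ι) +
      Fintype.card ι * (h + logHeight x) := by
    rw [h3]
    refine (logHeight₁_sum_le _ _).trans ?_
    rw [Finset.card_univ]
    refine add_le_add le_rfl ?_
    calc ∑ i, logHeight₁ (u i * (x i / x i₀)) ≤ ∑ _i : ι, (h + logHeight x) :=
          Finset.sum_le_sum fun i _ => (logHeight₁_mul_le _ _).trans (add_le_add (hu i) (h4 i))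
      _ = Fintype.card ι * (h + logHeight x) := by
          rw [Finset.sum_const, Finset.card_univ, nsmul_eq_mul]
  have h6 : 0 ≤ logHeight x := logHeight_nonneg x
  have h7 : (0 : ℝ) ≤ Fintype.card ι := Nat.cast_nonneg _
  rw [h1]
  nlinarith [mul_nonneg hlog (add_nonneg hh h6)]

theorem lx_smul (v : AbsoluteValue K ℝ) {t : K} (ht : t ≠ 0) (x : ι → K) (l : K) :
    lx v (t • x) (t * l) = lx v x l := by
  unfold lx
  have h0 : 0 < v t := v.pos ht
  simp only [Pi.smul_apply, smul_eq_mul, map_mul]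
  rw [← Real.mul_iSup_of_nonneg h0.le, mul_div_mul_left _ _ h0.ne']

end

variable {K : Type} [Field K] [NumberField K]

/- The proof of `short_prep` (`Es/Prep`) works word for word for rectangular systems (two cardinalities). -/
theorem short_prepU (ι κ : Type) [Fintype ι] [Fintype κ] : ∃ C : ℝ, 0 ≤ C ∧
    ∀ (S : Finset (FinitePlace K)) (N : Pl S → Matrix κ ι K) (x : ι → K) (q h : ℝ), x ≠ 0 →
    logHeight x ≤ q → 0 ≤ h → (∀ p l i, logHeight₁ (N p l i) ≤ h) → (∀ p l, (N p *ᵥ x) l ≠ 0) →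
    ∃ t : K, t ≠ 0 ∧ IntV (t • x) ∧
      (∀ p l, Real.exp (-(C * (1 + q + h))) ≤ av p ((N p *ᵥ (t • x)) l) ∧
        av p ((N p *ᵥ (t • x)) l) ≤ Real.exp (C * (1 + q + h))) ∧
      vol (fun p l => Real.log (av p ((N p *ᵥ (t • x)) l))) ≤
        C + Fintype.card κ * logHeight x - vol fun p l => lx (av p) x ((N p *ᵥ x) l) := by
  obtain ⟨C₀, hC₀, H⟩ := normalize (K := K) ι
  set d : ℝ := (Module.finrank ℚ K : ℝ) with hd
  set n : ℝ := (Fintype.card ι : ℝ) with hn
  set m : ℝ := (Fintype.card κ : ℝ) with hm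
  have m0 : 0 ≤ m := Nat.cast_nonneg _
  have d0 : 0 < d := Nat.cast_pos.2 Module.finrank_pos
  have n0 : 0 ≤ n := Nat.cast_nonneg _
  have w0 : 0 ≤ (totalWeight K : ℝ) * Real.log n :=
    mul_nonneg (Nat.cast_nonneg _) (Real.log_natCast_nonneg _)
  have c0 : 0 ≤ n * (d * C₀) := by positivity
  have c1 : 0 ≤ m * (d * C₀) := by positivity
  refine ⟨totalWeight K * Real.log n + n * (d * C₀) + m * (d * C₀) + n, by positivity,
    fun S N x q h hx hq hh hN hne => ?_⟩
  obtain ⟨t, ht, hint, hw⟩ := H x hx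
  have hH := logHeight_nonneg x
  have hB : 0 ≤ C₀ + logHeight x / d := by positivity
  have eB : d * (C₀ + logHeight x / d) = d * C₀ + logHeight x := by
    rw [mul_add, mul_div_cancel₀ _ d0.ne']
  have e1 : ∀ p l, (N p *ᵥ (t • x)) l = t * (N p *ᵥ x) l := fun p l => by
    rw [Matrix.mulVec_smul, Pi.smul_apply, smul_eq_mul]
  have hne' : ∀ p l, (N p *ᵥ (t • x)) l ≠ 0 := fun p l => by
    rw [e1]
    exact mul_ne_zero ht (hne p l)
  have h1 : ∀ i, logHeight₁ ((t • x) i) ≤ d * C₀ + q := fun i => by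
    have := ht_int (hint i) hB fun w => hw w i
    rw [← hd, eB] at this
    linarith
  have h2 : ∀ p l, logHeight₁ ((N p *ᵥ (t • x)) l) ≤
      (totalWeight K * Real.log n + n * (d * C₀) + m * (d * C₀) + n) * (1 + q + h) := fun p l => by
    have a1 := logHeight₁_sum_le (univ : Finset ι) fun i => N p l i * (t • x) i
    have a2 : ∑ i, logHeight₁ (N p l i * (t • x) i) ≤ n * (h + (d * C₀ + q)) := by
      refine (sum_le_card_nsmul _ _ (h + (d * C₀ + q)) fun i _ =>
        (logHeight₁_mul_le _ _).trans (add_le_add (hN p l i) (h1 i))).trans (le_of_eq ?_)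
      rw [nsmul_eq_mul, card_univ]
    rw [card_univ] at a1
    have a3 : 0 ≤ q + h := by linarith
    have a4 := mul_nonneg (add_nonneg (add_nonneg w0 c0) c1) a3
    refine a1.trans ?_
    nlinarith
  refine ⟨t, ht, hint, fun p l => ⟨?_, ?_⟩, ?_⟩
  · exact (Real.exp_le_exp.2 (neg_le_neg (h2 p l))).trans
      (MP_8865d3_nt.Fa.liouville (adm_av p) (hne' p l))
  · have a1 := (MP_8865d3_nt.Fa.log_max_le (adm_av p) _).trans (h2 p l)
    rw [Real.log_le_iff_le_exp (lt_max_of_lt_right one_pos)] at a1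
    exact (le_max_left _ _).trans a1
  · obtain ⟨i₀, hi₀⟩ := Function.ne_iff.1 hx
    have : Nonempty ι := ⟨i₀⟩
    have s0 : ∀ p : Pl S, 0 < ⨆ i, av p ((t • x) i) := fun p =>
      ((av p).pos (mul_ne_zero ht hi₀)).trans_le
        (Finite.le_ciSup (fun i => av p ((t • x) i)) i₀)
    have e2 : ∀ p l, Real.log (av p ((N p *ᵥ (t • x)) l)) =
        Real.log (⨆ i, av p ((t • x) i)) - lx (av p) x ((N p *ᵥ x) l) := fun p l => by
      rw [← lx_smul (av p) ht, ← e1, lx, Real.log_div (s0 p).ne' ((av p).pos (hne' p l)).ne',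
        sub_sub_cancel]
    have e3 : ∑ p : Pl S, mu p * Real.log (⨆ i, av p ((t • x) i)) ≤ d * C₀ + logHeight x := by
      rw [Fintype.sum_sum_type, ← eB, hd, ← InfinitePlace.sum_mult_eq, Nat.cast_sum, sum_mul,
        ← add_zero (∑ w : InfinitePlace K, (w.mult : ℝ) * (C₀ + _))]
      refine add_le_add (sum_le_sum fun w _ => mul_le_mul_of_nonneg_left ?_ (Nat.cast_nonneg _))
        (sum_nonpos fun v _ => mul_nonpos_of_nonneg_of_nonpos (Nat.cast_nonneg _) ?_)
      · rw [Real.log_le_iff_le_exp (s0 _), ← Nat.cast_sum, InfinitePlace.sum_mult_eq]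
        exact ciSup_le fun i => hw w i
      · exact Real.log_nonpos (s0 _).le (ciSup_le fun i => fin_le_one v.1 (hint i))
    have e4 : vol (fun p l => Real.log (av p ((N p *ᵥ (t • x)) l))) =
        m * ∑ p : Pl S, mu p * Real.log (⨆ i, av p ((t • x) i)) -
          vol fun p l => lx (av p) x ((N p *ᵥ x) l) := by
      simp only [vol, e2]
      rw [mul_sum, ← sum_sub_distrib]
      refine sum_congr rfl fun p _ => ?_
      rw [sum_sub_distrib, sum_const, card_univ, nsmul_eq_mul]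
      ring
    rw [e4]
    have := mul_le_mul_of_nonneg_left e3 m0
    linarith

/-- A square system that extends the forms `G` on the column space of `B` by equations of that space. -/
def extM {R : Type*} [CommRing R] {n r : ℕ} (B : Matrix (Fin n) (Fin r) R) (e : Fin r → Fin n)
    (G : Matrix (Fin r) (Fin r) R) : Matrix (Fin n) (Fin n) R :=
  ((1 : Matrix (Fin n) (Fin n) R).submatrix id e * G - B) *
    ((B.submatrix e id).adjugate * (1 : Matrix (Fin n) (Fin n) R).submatrix e id) + mn B e • 1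

theorem extM_map {R R' : Type*} [CommRing R] [CommRing R'] (φ : R →+* R') {n r : ℕ}
    (B : Matrix (Fin n) (Fin r) R) (e : Fin r → Fin n) (G : Matrix (Fin r) (Fin r) R) :
    (extM B e G).map φ = extM (B.map φ) e (G.map φ) := by
  have h1 : ∀ {p q : Type} (f : p → Fin n) (g : q → Fin n),
      ((1 : Matrix (Fin n) (Fin n) R).submatrix f g).map φ =
        (1 : Matrix (Fin n) (Fin n) R').submatrix f g := fun f g => by
    rw [← Matrix.submatrix_map, Matrix.map_one _ φ.map_zero φ.map_one]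
  have h2 : (B.submatrix e id).adjugate.map φ = ((B.map φ).submatrix e id).adjugate :=
    φ.map_adjugate (B.submatrix e id)
  rw [extM, extM, Matrix.map_add _ φ.map_add, Matrix.map_mul, Matrix.map_sub _ φ.map_sub,
    Matrix.map_mul, Matrix.map_mul, h1, h1, h2, mn_map]
  congr 1
  ext i j
  by_cases h : i = j <;> simp [h]

private theorem ushort_row {R : Type*} [CommRing R] {n r s : ℕ} (B : Matrix (Fin n) (Fin s) R)
    (e : Fin r → Fin n) :
    (1 : Matrix (Fin n) (Fin n) R).submatrix e id * B = B.submatrix e id := by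
  ext i j
  simp [Matrix.mul_apply, Matrix.one_apply]

/- `(1.submatrix e id) * B = B.submatrix e id`, `adjugate_mul`. -/
theorem extM_mul {R : Type*} [CommRing R] {n r : ℕ} (B : Matrix (Fin n) (Fin r) R)
    (e : Fin r → Fin n) (G : Matrix (Fin r) (Fin r) R) :
    extM B e G * B = mn B e • ((1 : Matrix (Fin n) (Fin n) R).submatrix id e * G) := by
  rw [extM, Matrix.add_mul, Matrix.mul_assoc, Matrix.mul_assoc _ _ B, ushort_row, adjugate_mul,
    Matrix.mul_smul, Matrix.mul_one, Matrix.smul_mul, Matrix.one_mul, smul_sub]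
  exact sub_add_cancel _ _

theorem extM_out {R : Type*} [CommRing R] {n r : ℕ} (B : Matrix (Fin n) (Fin r) R)
    (e : Fin r → Fin n) (G : Matrix (Fin r) (Fin r) R) (l : Fin n) (hl : l ∉ Set.range e) :
    extM B e G l ᵥ* B = 0 := by
  funext j
  have h := congrFun (congrFun (extM_mul B e G) l) j
  rw [Matrix.smul_apply, Matrix.mul_apply (M := Matrix.submatrix _ _ _),
    sum_eq_zero fun i _ => by
      rw [Matrix.submatrix_apply, id, Matrix.one_apply_ne fun h => hl ⟨i, h.symm⟩, zero_mul],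
    smul_zero] at h
  exact h

private theorem ushort_col {R : Type*} [CommRing R] {n r : ℕ} {e : Fin r → Fin n}
    (he : Function.Injective e) (y : Fin r → R) (l : Fin r) :
    ((1 : Matrix (Fin n) (Fin n) R).submatrix id e *ᵥ y) (e l) = y l := by
  simp [Matrix.mulVec, dotProduct, Matrix.one_apply, he.eq_iff]

theorem extM_val {R : Type*} [CommRing R] {n r : ℕ} (B : Matrix (Fin n) (Fin r) R)
    {e : Fin r → Fin n} (he : Function.Injective e) (G : Matrix (Fin r) (Fin r) R)
    (t : Fin r → R) (l : Fin r) : (extM B e G *ᵥ (B *ᵥ t)) (e l) = mn B e * (G *ᵥ t) l := by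
  rw [Matrix.mulVec_mulVec, extM_mul, Matrix.smul_mulVec, Pi.smul_apply, ← Matrix.mulVec_mulVec,
    ushort_col he, smul_eq_mul]

/- If `extM B e G *ᵥ y = 0` then, with `Q = adjugate * 1.submatrix e id`, the rows `e l` give
`G *ᵥ (Q *ᵥ y) = 0` (`mul_adjugate`), so `Q *ᵥ y = 0` and `mn B e • y = 0`. -/
theorem extM_det {F : Type*} [Field F] {n r : ℕ} {B : Matrix (Fin n) (Fin r) F}
    {e : Fin r → Fin n} (hB : mn B e ≠ 0) {G : Matrix (Fin r) (Fin r) F} (hG : G.det ≠ 0) :
    (extM B e G).det ≠ 0 := by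
  intro h0
  obtain ⟨y, hy, h⟩ := Matrix.exists_mulVec_eq_zero_iff.2 h0
  set z := ((B.submatrix e id).adjugate * (1 : Matrix (Fin n) (Fin n) F).submatrix e id) *ᵥ y
    with hz
  rw [extM, Matrix.add_mulVec, ← Matrix.mulVec_mulVec, ← hz, Matrix.smul_mulVec,
    Matrix.one_mulVec, Matrix.sub_mulVec, ← Matrix.mulVec_mulVec] at h
  have h1 : B.submatrix e id *ᵥ z = mn B e • fun l => y (e l) := by
    rw [hz, Matrix.mulVec_mulVec, ← Matrix.mul_assoc, mul_adjugate, Matrix.smul_mul,
      Matrix.one_mul, Matrix.smul_mulVec]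
    congr 1
    funext l
    simp [Matrix.mulVec, dotProduct, Matrix.one_apply]
  have h2 : G *ᵥ z = 0 := funext fun l => by
    have h3 := congrFun h (e l)
    have h4 : (B *ᵥ z) (e l) = mn B e • y (e l) := congrFun h1 l
    rwa [Pi.add_apply, Pi.sub_apply, ushort_col (mn_inj hB), h4, Pi.smul_apply,
      sub_add_cancel] at h3
  rw [h2, Matrix.eq_zero_of_mulVec_eq_zero hG h2, Matrix.mulVec_zero, Matrix.mulVec_zero, sub_zero,
    zero_add] at h
  exact hy ((smul_eq_zero.1 h).resolve_left hB)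

end Pool.Agent.Lib.MP_651af7_nt.Ex
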