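import Pool.Agent.Lib.MP_651af7_nt.As.TopA
import Pool.Agent.Lib.MP_651af7_nt.As.XPre
import Pool.Agent.Lib.MP_651af7_nt.Es.APen

/-! From a failure of the inequality to a gap. -/

namespace Pool.Agent.Lib.MP_651af7_nt.As

open MvPolynomial Finset Height NumberField Matrix
open Av hiding Bad
open Es (Mo IX CX mo cx GA GC Bad Pen nv vol Tame IntV Dual)
open Rt (Pl av mu)

open Es (mn)
open Ex (lx extM)
open Pool.Agent.Lib.Common.Subspace (PS comp)

variable {k ι κ : Type} [Field k] [NumberField k] [Fintype κ]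

/-- `z` is a solution of the system `Cs` at `x`, and so are only its multiples up to the height
of `z` plus `c`. -/
structure Gap (Cs : Finset (κ → MvPolynomial ι k)) (c : ℝ) (x : ι → k) (z : κ → k) : Prop where
  ne : z ≠ 0
  orth : ∀ u ∈ Cs, z ⬝ᵥ (fun l => eval x (u l)) = 0
  gap : ∀ w : κ → k, (∀ u ∈ Cs, w ⬝ᵥ (fun l => eval x (u l)) = 0) →
    logHeight w < logHeight z + c → ∃ t : k, w = t • z

variable [Fintype ι] [DecidableEq κ]

/- Port of `Es.penultX` (`Es/Pen`): `Cs' = Cs.filter (nv Y j₀ ⬝ᵥ u (x) = 0)`, `Es.pen_pf` with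
`c = η q`, `η = δ / (4 (C + 1))`, `tameA`, `dual_allA`, `eq_smul_nv`, `nv_ne`. -/
theorem gap_of_pen (A : AV k ι) (a₀ : ι) {S : Finset (FinitePlace k)}
    (M : Pl S → Matrix κ κ (MvPolynomial ι k)) (j₀ : κ) {δ : ℝ} (hδ : 0 < δ) (Γ : ℝ)
    {Cs : Finset (κ → MvPolynomial ι k)} (hM : ∀ p j, (fun l => (M p).adjugate l j) ∈ Cs) :
    ∃ H₀ : ℝ, ∀ q x Y bb, H₀ ≤ q → Hyp A a₀ M j₀ δ Γ q x Y bb →
      ∃ Cs' ⊆ Cs, Gap Cs' (δ / 2 * q) x (nv Y j₀) := by
  classical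
  obtain ⟨C₀, hC₀, hpf⟩ := Es.pen_pf S κ
  have hη : 0 < δ / (4 * (C₀ + 1)) := by positivity
  obtain ⟨H₁, hH₁⟩ := dual_allA A a₀ M j₀ hδ hη Γ
  obtain ⟨H₂, hH₂⟩ := tameA A a₀ M hη
  refine ⟨max H₁ (max H₂ (4 * (C₀ + 1) / δ)), fun q x Y bb hq h => ?_⟩
  have q1 : H₁ ≤ q := (le_max_left _ _).trans hq
  have q2 : H₂ ≤ q := ((le_max_left _ _).trans (le_max_right _ _)).trans hq
  have q3 : 4 * (C₀ + 1) ≤ q * δ :=
    (div_le_iff₀ hδ).1 (((le_max_right _ _).trans (le_max_right _ _)).trans hq)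
  have q0 : 0 < q := (mul_pos_iff_of_pos_right hδ).1 (by linarith)
  refine ⟨Cs.filter fun u => nv Y j₀ ⬝ᵥ (fun l => eval x (u l)) = 0, filter_subset _ _,
    nv_ne h.pen.det j₀, fun u hu => (mem_filter.1 hu).2, fun w hw hlt => ?_⟩
  refine eq_smul_nv h.pen.det (hpf _ j₀ bb Y (δ / (4 * (C₀ + 1)) * q) w (by positivity) h.pen
    (fun p => hH₂ x q q2 h.aff h.ht p (h.det p)) (fun p j => ?_) ?_)
  · refine (hH₁ q x Y bb q1 h p j).imp_left fun e => ?_
    have e1 : (fun l => eval x ((M p).adjugate l j)) = fun l => ((M p).map (eval x)).adjugate l j :=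
      funext fun l => congrFun (congrFun (RingHom.map_adjugate (eval x) (M p)) l) j
    have e2 := hw _ (mem_filter.2 ⟨hM p j, by rw [e1]; exact e⟩)
    rw [e1] at e2
    exact e2
  · have h2 : C₀ * (δ / (4 * (C₀ + 1)) * q) ≤ δ * q / 4 := by
      rw [← mul_assoc, mul_div_assoc', div_mul_eq_mul_div, div_le_div_iff₀ (by positivity) four_pos]
      nlinarith [mul_pos hδ q0]
    have h3 := h.neg
    rw [mul_add, mul_one]
    linarith

omit [NumberField k] [Fintype κ] [Fintype ι] [DecidableEq κ] in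
private theorem gapS1_lx {α : Type} [Fintype α] (v : AbsoluteValue k ℝ) {x : α → k} (hx : x ≠ 0)
    {c l : k} (hc : c ≠ 0) (hl : l ≠ 0) : lx v x l = lx v x (c * l) + Real.log (v c) := by
  obtain ⟨i, hi⟩ := Function.ne_iff.1 hx
  have h1 : 0 < ⨆ i, v (x i) :=
    (v.pos hi).trans_le (le_ciSup (f := fun i => v (x i)) (Finite.bddAbove_range _) i)
  unfold lx
  rw [map_mul, Real.log_div h1.ne' (v.pos hl).ne',
    Real.log_div h1.ne' (mul_pos (v.pos hc) (v.pos hl)).ne',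
    Real.log_mul (v.pos hc).ne' (v.pos hl).ne']
  ring

omit [NumberField k] [Fintype κ] [Fintype ι] [DecidableEq κ] in
private theorem gapS1_sub {n r : ℕ} (N : Matrix (Fin n) (Fin n) k) (e : Fin r → Fin n)
    (x : Fin n → k) (l : Fin r) : (N.submatrix e id *ᵥ x) l = (N *ᵥ x) (e l) := rfl

private theorem gapS1_rows {α β σ τ : Type} [Fintype σ] [Fintype τ] (Ls : Finset (σ → α))
    (f : Matrix σ σ α → Matrix τ τ β) :
    ∃ Rs : Finset (τ → β), ∀ G : Matrix σ σ α, (∀ l, G l ∈ Ls) → ∀ l, f G l ∈ Rs := by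
  classical
  exact ⟨((Fintype.piFinset fun _ : σ => Ls) ×ˢ (univ : Finset τ)).image
    fun u => f (Matrix.of u.1) u.2, fun G hG l => mem_image.2
      ⟨(G, l), mem_product.2 ⟨Fintype.mem_piFinset.2 hG, mem_univ _⟩, rfl⟩⟩

omit [NumberField k] [Fintype κ] [Fintype ι] [DecidableEq κ] in
private theorem gapS1_comp {n : ℕ} (j : ℕ) (x : ι → k)
    (M : Matrix (Fin n) (Fin n) (MvPolynomial ι k)) (π : Equiv.Perm (Fin n)) :
    (comp j (M.submatrix π id)).map (eval x) = comp j ((M.map (eval x)).submatrix π id) :=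
  (Es.comp_map (eval x) j (M.submatrix π id)).symm

omit [NumberField k] [Fintype κ] [Fintype ι] [DecidableEq κ] in
private theorem gapS1_vec {σ τ ρ : Type} [Fintype σ] [Fintype τ] (x : ι → k) (T : Matrix σ τ ℤ)
    (B : Matrix σ ρ (MvPolynomial ι k)) (z : τ → k) :
    z ᵥ* ((T.map (Int.cast : ℤ → MvPolynomial ι k))ᵀ * B).map (eval x) =
      (T.map (Int.cast : ℤ → k) *ᵥ z) ᵥ* B.map (eval x) := by
  rw [Matrix.map_mul, ← Matrix.vecMul_vecMul, ← Matrix.vecMul_transpose]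
  congr 2
  ext i j
  simp

/- Port of `Es.short_coreU` (`Es/UShort`; copy the private lemmas `ucore_*` if needed) with
`gap_of_pen` in place of `penultX`, `ht_evA`, `tameA`, `absA`; `γ = δ' / 2`.  With `Cs j` the set of
columns used there, `𝒲 j` consists of the pairs `(Cs', (T.map Int.cast)ᵀ * B)`, `Cs' ⊆ Cs j`,
`T ∈ 𝒯 j`; `z = nv Y top` (`nv_ne`, `nv_orth`). -/
theorem stage1 (A : AV k ι) (a₀ : ι) {n r : ℕ} (Ls : Finset (Fin r → MvPolynomial ι k))
    (B : Matrix (Fin n) (Fin r) (MvPolynomial ι k)) (e : Fin r → Fin n) {δ : ℝ} (hδ : 0 < δ) :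
    ∃ (γ : ℝ) (𝒲 : ∀ j : Fin n, Finset (Finset (PS n j → MvPolynomial ι k) ×
      Matrix (PS n j) (Fin r) (MvPolynomial ι k))), 0 < γ ∧
      ∀ (S : Finset (FinitePlace k)) (G : Pl S → Matrix (Fin r) (Fin r) (MvPolynomial ι k)),
        (∀ p l, G p l ∈ Ls) → ∃ H₀ : ℝ, ∀ (q : ℝ) (x : ι → k) (t : Fin r → k), H₀ ≤ q →
          Aff A a₀ x → logHeight x ≤ q → logHeight (B.map (eval x) *ᵥ t) ≤ q →
          mn (B.map (eval x)) e ≠ 0 → (∀ p, ((G p).map (eval x)).det ≠ 0) →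
          (∀ p l, ((G p).map (eval x) *ᵥ t) l ≠ 0) →
          vol (fun p l => lx (av p) (B.map (eval x) *ᵥ t) (((G p).map (eval x) *ᵥ t) l)) +
            logHeight (mn (B.map (eval x))) ≤ r * logHeight (B.map (eval x) *ᵥ t) + δ * q ∨
          ∃ j, ∃ u ∈ 𝒲 j, ∃ z, Gap u.1 (γ * q) x z ∧ z ᵥ* u.2.map (eval x) ≠ 0 ∧
            (z ᵥ* u.2.map (eval x)) ⬝ᵥ t = 0 := by
  classical
  obtain ⟨δ', 𝒯, hδ', hred⟩ := Es.reduceU (K := k) n r (half_pos hδ)
  obtain ⟨Rs, hRs⟩ := gapS1_rows Ls (extM B e)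
  obtain ⟨Cs, hCs⟩ : ∃ Cs : ∀ j : Fin n, Finset (PS n j → MvPolynomial ι k), ∀ j, Cs j =
      ((Fintype.piFinset fun _ : Fin n => Rs) ×ˢ (univ : Finset (PS n j))).image
        fun r => fun l => (comp j (Matrix.of r.1)).adjugate l r.2 := ⟨_, fun _ => rfl⟩
  refine ⟨δ' / 2, fun j => ((Cs j).powerset ×ˢ 𝒯 j).image
    fun u => (u.1, (u.2.map (Int.cast : ℤ → MvPolynomial ι k))ᵀ * B), half_pos hδ',
    fun S G hG => ?_⟩
  obtain ⟨M, hMe⟩ : ∃ M : Pl S → Matrix (Fin n) (Fin n) (MvPolynomial ι k),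
      ∀ p, M p = extM B e (G p) := ⟨_, fun _ => rfl⟩
  have hM : ∀ p l, M p l ∈ Rs := fun p l => by
    rw [hMe]
    exact hRs _ (hG p) l
  obtain ⟨C, hC, hprep⟩ := Ex.short_prepU (K := k) (Fin n) (Fin r)
  choose Ce hCe0 hCe using fun r : Pl S × Fin n × Fin n => ht_evA a₀ (M r.1 r.2.1 r.2.2)
  obtain ⟨E, hE0, hE⟩ : ∃ E : ℝ, 0 ≤ E ∧ ∀ r, Ce r ≤ E :=
    ⟨∑ r, Ce r, sum_nonneg fun r _ => hCe0 r, fun r =>
      single_le_sum (fun r _ => hCe0 r) (mem_univ r)⟩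
  obtain ⟨Γ', η, q₀, hη, hred⟩ := hred S (C * (2 + 2 * E) + 2 * E)
  obtain ⟨B₁, hH₁⟩ := tameA A a₀ M hη
  choose H₂ hH₂ using fun r : Σ j : Fin n, (Pl S → Equiv.Perm (Fin n)) × PS n j =>
    gap_of_pen A a₀ (fun p => comp r.1 ((M p).submatrix (r.2.1 p) id)) r.2.2 hδ' Γ'
      (Cs := Cs r.1) fun p j => by
        rw [hCs]
        exact mem_image.2 ⟨(fun l => M p (r.2.1 p l), j),
          mem_product.2 ⟨Fintype.mem_piFinset.2 fun l => hM p _, mem_univ _⟩, rfl⟩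
  obtain ⟨s, s0, s1⟩ : ∃ s : ℝ, 0 < s ∧ (∑ p : Pl S, (mu p : ℝ)) * (r * (2 * s)) ≤ δ / 4 := by
    have hμ : 0 ≤ (∑ p : Pl S, (mu p : ℝ)) * r := by positivity
    refine ⟨δ / 8 / ((∑ p : Pl S, (mu p : ℝ)) * r + 1), by positivity, ?_⟩
    rw [← mul_assoc, mul_left_comm, ← mul_div_assoc, ← mul_div_assoc, div_le_iff₀ (by positivity)]
    nlinarith
  obtain ⟨B₃, -, hCa⟩ := absA_all A a₀ S {mn B e} s0
  obtain ⟨B₂, hB₂⟩ := Finite.bddAbove_range H₂
  refine ⟨max (max (max 1 q₀) (B₃ / s)) (max (max B₁ B₂) (C / (δ / 4))),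
    fun q x t hq hP hq' h2 h0 h3 h4 => ?_⟩
  simp only [max_le_iff] at hq
  obtain ⟨⟨⟨q1, q2⟩, q6⟩, ⟨q3, q4⟩, q5⟩ := hq
  rw [div_le_iff₀' (by positivity)] at q5 q6
  have q0 : 0 ≤ q := zero_le_one.trans q1
  have he := Es.mn_inj h0
  have hev : ∀ p, (M p).map (eval x) = extM (B.map (eval x)) e ((G p).map (eval x)) := fun p => by
    rw [hMe]
    exact Ex.extM_map (eval x) B e (G p)
  have hval : ∀ p l, ((M p).map (eval x) *ᵥ (B.map (eval x) *ᵥ t)) (e l) =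
      mn (B.map (eval x)) e * ((G p).map (eval x) *ᵥ t) l := fun p l => by
    rw [hev, Ex.extM_val _ he]
  have h3' : ∀ p, ((M p).map (eval x)).det ≠ 0 := fun p => by
    rw [hev]
    exact Ex.extM_det h0 (h3 p)
  refine or_iff_not_imp_left.2 fun hcon => ?_
  rw [not_le] at hcon
  have x0 : B.map (eval x) *ᵥ t ≠ 0 := by
    intro e0
    rcases isEmpty_or_nonempty (Fin r) with hr | ⟨⟨l⟩⟩
    · have e1 : mn (B.map (eval x)) = 1 := funext fun f => Matrix.det_isEmpty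
      rw [e1, logHeight_one, e0, logHeight_zero] at hcon
      simp only [vol, univ_eq_empty, sum_empty, mul_zero, sum_const_zero] at hcon
      linarith [mul_nonneg hδ.le q0]
    · have o : Pl S := .inl (Classical.arbitrary _)
      have e1 := hval o l
      rw [e0, Matrix.mulVec_zero] at e1
      exact mul_ne_zero h0 (h4 o l) e1.symm
  have k1 : ∀ p l i, logHeight₁ ((M p).map (eval x) l i) ≤ E * (1 + q) := fun p l i =>
    (hCe (p, l, i) x hP.1).trans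
      (mul_le_mul (hE _) (by linarith) (by linarith [logHeight_nonneg x]) hE0)
  obtain ⟨c, t0, t1, t2, t3⟩ := hprep S (fun p => ((M p).map (eval x)).submatrix e id)
    (B.map (eval x) *ᵥ t) q (E * (1 + q)) x0 h2 (by positivity) (fun p l i => k1 p _ i)
    fun p l => by
      rw [gapS1_sub, hval]
      exact mul_ne_zero h0 (h4 p l)
  simp only [gapS1_sub] at t2 t3
  have g0 : E * (1 + q) ≤ 2 * E * q := by linarith [mul_le_mul_of_nonneg_left q1 hE0]
  have g2 : C * (1 + q + E * (1 + q)) ≤ C * (2 + 2 * E) * q := by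
    rw [mul_assoc]
    refine mul_le_mul_of_nonneg_left ?_ hC
    linarith
  have g1 : C * (1 + q + E * (1 + q)) ≤ (C * (2 + 2 * E) + 2 * E) * q := by
    rw [add_mul]
    linarith [mul_nonneg hE0 q0]
  have g3 : E * (1 + q) ≤ (C * (2 + 2 * E) + 2 * E) * q := by
    have : 0 ≤ C * (2 + 2 * E) * q := by positivity
    rw [add_mul]
    linarith
  have g4 : ∀ p : Pl S, Real.log (av p (mn (B.map (eval x)) e)) ≤ 2 * s * q := fun p => by
    rw [Real.log_le_iff_le_exp ((av p).pos h0)]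
    have e1 : mn (B.map (eval x)) e = eval x (mn B e) := Es.mn_map (eval x) B e
    rw [e1]
    refine (hCa x hP p _ (mem_singleton_self _)).1.trans (Real.exp_le_exp.2 ?_)
    linarith [mul_le_mul_of_nonneg_left hq' s0.le]
  have g5 : vol (fun p l => lx (av p) (B.map (eval x) *ᵥ t) (((G p).map (eval x) *ᵥ t) l)) ≤
      vol (fun p l => lx (av p) (B.map (eval x) *ᵥ t)
        (((M p).map (eval x) *ᵥ (B.map (eval x) *ᵥ t)) (e l))) + δ / 4 * q := by
    refine le_trans ?_ (add_le_add_right (mul_le_mul_of_nonneg_right s1 q0) _)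
    rw [vol, vol, mul_assoc, sum_mul, ← sum_add_distrib]
    refine sum_le_sum fun p _ => ?_
    rw [← mul_add]
    refine mul_le_mul_of_nonneg_left ?_ (Nat.cast_nonneg _)
    have e1 : (r : ℝ) * (2 * s) * q = ∑ _l : Fin r, 2 * s * q := by
      rw [sum_const, card_univ, Fintype.card_fin, nsmul_eq_mul, mul_assoc]
    rw [e1, ← sum_add_distrib]
    refine sum_le_sum fun l _ => ?_
    rw [hval, gapS1_lx (av p) x0 h0 (h4 p l)]
    exact add_le_add_right (g4 p) _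
  rw [← Matrix.mulVec_smul] at t1 t2 t3
  obtain ⟨j, π, top, Y, bb, r1, r2, r3, r4⟩ := hred q (fun p => (M p).map (eval x))
    (B.map (eval x)) e (c • t) q2 he (fun p => hH₁ x q q3 hP hq' p (h3' p))
    (fun p i j => (k1 p i j).trans g3) (fun e0 => h0 (congrFun e0 e))
    (fun p l hl => by rw [hev]; exact Ex.extM_out _ e _ l hl) t1
    (fun p l => ⟨(Real.exp_le_exp.2 (neg_le_neg g1)).trans (t2 p l).1,
      (t2 p l).2.trans (Real.exp_le_exp.2 g1)⟩)
    (by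
      rw [Fintype.card_fin] at t3
      linarith)
  obtain ⟨Cs', w1, w2⟩ := hH₂ ⟨j, π, top⟩ q x Y bb ((hB₂ ⟨_, rfl⟩).trans q4)
    ⟨hP, hq', fun p => by
      rw [gapS1_comp]
      refine Es.det_comp_ne _ ?_
      rw [Matrix.det_permute]
      refine mul_ne_zero ?_ (h3' p)
      rcases Int.units_eq_one_or (Equiv.Perm.sign (π p)) with e | e <;> simp [e],
      r2, r3, by simpa only [gapS1_comp] using r1⟩
  obtain ⟨T, T1, T2, T3⟩ := r4 (nv Y top) w2.ne fun I hI => nv_orth Y hI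
  rw [Matrix.dotProduct_mulVec, dotProduct_smul, smul_eq_mul] at T3
  rw [← gapS1_vec] at T2 T3
  exact ⟨j, _, mem_image.2 ⟨(Cs', T), mem_product.2 ⟨mem_powerset.2 w1, T1⟩, rfl⟩, nv Y top, w2,
    T2, (mul_eq_zero.1 T3).resolve_left t0⟩

end Pool.Agent.Lib.MP_651af7_nt.As
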