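import Pool.Agent.Lib.MP_651af7_nt.As.SqE
import Pool.Agent.Lib.MP_651af7_nt.Es.UMin

/-! Kernels, norm forms and bihomogeneous forms. -/

namespace Pool.Agent.Lib.MP_651af7_nt.As

open MvPolynomial Finset Height NumberField Matrix
open Av hiding Bad
open Es (Mo IX CX mo cx GA GC Bad Pen nv vol Tame IntV Dual)
open Rt (Pl av mu)

open Es (mn)

variable {k ι F : Type} [Field k] [Field F] [Algebra k F]

theorem Ker_minor {Z : Type} [Fintype Z] {ρ : ℕ} (e : Fin ρ → Z → F)
    (he : LinearIndependent F e) :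
    ∃ z : Fin ρ → Z, (Matrix.of fun a b => e a (z b)).det ≠ 0 := by
  have h1 : (Matrix.of e).rank = Fintype.card (Fin ρ) := LinearIndependent.rank_matrix he
  rw [rank_eq_finrank_span_cols, Fintype.card_fin] at h1
  obtain ⟨f, hf, -, hl⟩ := Submodule.exists_fun_fin_finrank_span_eq F (Set.range (Matrix.of e).col)
  choose z hz using hf
  refine ⟨fun b => z (Fin.cast h1.symm b), ?_⟩
  have h2 : LinearIndependent F
      (Matrix.of fun a (b : Fin ρ) => e a (z (Fin.cast h1.symm b))).col := by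
    have h3 := hl.comp (Fin.cast h1.symm) (Fin.cast_injective _)
    have h4 : f ∘ Fin.cast h1.symm =
        (Matrix.of fun a (b : Fin ρ) => e a (z (Fin.cast h1.symm b))).col :=
      funext fun b => (hz _).symm
    rwa [h4] at h3
  exact ((isUnit_iff_isUnit_det _).1 (linearIndependent_cols_iff_isUnit.1 h2)).ne_zero

theorem Ker_span {R : Type} [CommRing R] (φ : R →+* F) {n : ℕ} (Cs : Finset (Fin n → R))
    (w : Fin n → F) (hw : ∀ u ∈ Cs, w ⬝ᵥ (φ ∘ u) = 0) :
    w ∈ Submodule.span F {v | ∃ g : Fin n → R, (∀ u ∈ Cs, φ (g ⬝ᵥ u) = 0) ∧ φ ∘ g = v} := by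
  classical
  induction Cs using Finset.induction_on with
  | empty =>
    rw [pi_eq_sum_univ' w]
    refine Submodule.sum_mem _ fun i _ => Submodule.smul_mem _ _ (Submodule.subset_span
      ⟨Pi.single i 1, by simp, funext fun j => ?_⟩)
    by_cases h : j = i <;> simp [h]
  | insert u Cs _ ih =>
    have h1 := ih fun u' hu' => hw u' (Finset.mem_insert_of_mem hu')
    by_cases h : ∃ g : Fin n → R, (∀ u ∈ Cs, φ (g ⬝ᵥ u) = 0) ∧ φ (g ⬝ᵥ u) ≠ 0
    · obtain ⟨g₀, hg₀, hc⟩ := h
      have key : ∀ v ∈ Submodule.span F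
          {v | ∃ g : Fin n → R, (∀ u ∈ Cs, φ (g ⬝ᵥ u) = 0) ∧ φ ∘ g = v},
          φ (g₀ ⬝ᵥ u) • v - (v ⬝ᵥ (φ ∘ u)) • (φ ∘ g₀) ∈ Submodule.span F
            {v | ∃ g : Fin n → R, (∀ u' ∈ insert u Cs, φ (g ⬝ᵥ u') = 0) ∧ φ ∘ g = v} := by
        intro v hv
        induction hv using Submodule.span_induction with
        | mem v hv =>
          obtain ⟨g, hg, rfl⟩ := hv
          refine Submodule.subset_span ⟨(g₀ ⬝ᵥ u) • g - (g ⬝ᵥ u) • g₀, fun u' hu' => ?_, ?_⟩
          · rw [sub_dotProduct, smul_dotProduct, smul_dotProduct, map_sub, smul_eq_mul, smul_eq_mul,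
              map_mul, map_mul]
            rcases Finset.mem_insert.1 hu' with rfl | hu'
            · ring
            · rw [hg u' hu', hg₀ u' hu', mul_zero, mul_zero, sub_zero]
          · rw [← φ.map_dotProduct]
            funext j
            simp
        | zero => simp
        | add a b _ _ ha hb =>
          rw [smul_add, add_dotProduct, add_smul, add_sub_add_comm]
          exact add_mem ha hb
        | smul c a _ ha =>
          rw [smul_comm, smul_dotProduct, smul_assoc, ← smul_sub]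
          exact Submodule.smul_mem _ _ ha
      have h2 := key w h1
      rw [hw u (Finset.mem_insert_self _ _), zero_smul, sub_zero] at h2
      exact (Submodule.smul_mem_iff _ hc).1 h2
    · refine Submodule.span_mono ?_ h1
      rintro _ ⟨g, hg, rfl⟩
      refine ⟨g, fun u' hu' => ?_, rfl⟩
      rcases Finset.mem_insert.1 hu' with rfl | hu'
      · by_contra hc
        exact h ⟨g, hg, hc⟩
      · exact hg u' hu'

/- Let `E = k (x)`.  Take a basis of the solution space over `E`, clear denominators (an element of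
`E` is a quotient of values of polynomials: `IntermediateField.mem_adjoin_range_iff` or
`Subfield.mem_closure_iff`).  A solution over `F` is a combination, along a basis of `F` over `E`, of
solutions over `E`.  Independent columns have a nonzero maximal minor
(`Matrix.rank`, `exists_linearIndependent'` for the rows, or induction). -/
theorem exists_ker {n : ℕ} (x : ι → F) (Cs : Finset (Fin n → MvPolynomial ι k)) :
    ∃ (r : ℕ) (B : Matrix (Fin n) (Fin r) (MvPolynomial ι k)) (e : Fin r → Fin n),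
      aeval x (mn B e) ≠ 0 ∧ (∀ u ∈ Cs, ∀ j, aeval x ((u ᵥ* B) j) = 0) ∧
      ∀ w : Fin n → F, (∀ u ∈ Cs, w ⬝ᵥ (fun l => aeval x (u l)) = 0) →
        ∃ t, w = B.map (aeval x) *ᵥ t := by
  obtain ⟨f, hf, h1, h2⟩ := Submodule.exists_fun_fin_finrank_span_eq F
    {v | ∃ g : Fin n → MvPolynomial ι k,
      (∀ u ∈ Cs, (aeval x : MvPolynomial ι k →ₐ[k] F).toRingHom (g ⬝ᵥ u) = 0) ∧
        (aeval x : MvPolynomial ι k →ₐ[k] F).toRingHom ∘ g = v}
  choose g hg hgf using hf
  obtain ⟨z, hz⟩ := Ker_minor f h2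
  refine ⟨_, (Matrix.of g)ᵀ, z, ?_, fun u hu j => ?_, fun w hw => ?_⟩
  · rw [mn, AlgHom.map_det, ← det_transpose]
    refine fun e => hz (Eq.trans ?_ e)
    congr 1
    ext a b
    exact (congrFun (hgf a) (z b)).symm
  · have h3 := hg j u hu
    rw [dotProduct_comm] at h3
    exact h3
  · have h3 := Ker_span (aeval x : MvPolynomial ι k →ₐ[k] F).toRingHom Cs w hw
    rw [← h1, Submodule.mem_span_range_iff_exists_fun] at h3
    obtain ⟨t, rfl⟩ := h3
    refine ⟨t, funext fun l => ?_⟩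
    rw [Finset.sum_apply, mulVec, dotProduct]
    refine Finset.sum_congr rfl fun j _ => ?_
    rw [← hgf j]
    exact mul_comm _ _

theorem ker_hyp_clear {J : Type} [Fintype J] (x : ι → F)
    (e : J → IntermediateField.adjoin k (Set.range x)) :
    ∃ (D : F) (p : J → MvPolynomial ι k), D ≠ 0 ∧ ∀ j, aeval x (p j) = D * (e j : F) := by
  classical
  have h : ∀ j, ∃ a b : MvPolynomial ι k, aeval x b ≠ 0 ∧ aeval x a = aeval x b * (e j : F) := by
    intro j
    obtain ⟨a, b, h⟩ := (IntermediateField.mem_adjoin_range_iff k x (e j : F)).1 (e j).2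
    by_cases hb : aeval x b = 0
    · exact ⟨0, 1, by simp, by simp [h, hb]⟩
    · exact ⟨a, b, hb, by rw [h]; field_simp⟩
  choose a b hb hab using h
  refine ⟨∏ j, aeval x (b j), fun j => a j * ∏ i ∈ univ.erase j, b i,
    prod_ne_zero_iff.2 fun j _ => hb j, fun j => ?_⟩
  rw [map_mul, map_prod, hab, ← mul_prod_erase univ (fun j => aeval x (b j)) (mem_univ j)]
  ring

theorem ker_hyp_norm {E L : Type} [Field E] [Field L] [Algebra E L] [Algebra L F] [Algebra E F]
    [IsScalarTower E L F] [FiniteDimensional E L] {r : ℕ} {w : Fin r → L} (hw : w ≠ 0)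
    {t : Fin r → F} (h0 : ∑ l, algebraMap L F (w l) * t l = 0) :
    ∃ (n : ℕ) (M : Fin r → Matrix (Fin n) (Fin n) E) (v : Fin n → F), (∃ l, (M l).det ≠ 0) ∧
      v ≠ 0 ∧ ∀ j, ∑ i, v i * ∑ l, algebraMap E F (M l i j) * t l = 0 := by
  classical
  let b := Module.finBasis E L
  have hn0 : 0 < Module.finrank E L := Module.finrank_pos
  obtain ⟨l, hl⟩ := Function.ne_iff.1 hw
  refine ⟨_, fun l => Algebra.leftMulMatrix b (w l), fun i => algebraMap L F (b i), ⟨l, ?_⟩,
    fun h1 => b.ne_zero ⟨0, hn0⟩ ((map_eq_zero (algebraMap L F)).1 (congrFun h1 ⟨0, hn0⟩)),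
    fun j => ?_⟩
  · rw [← Algebra.norm_eq_matrix_det, Algebra.norm_ne_zero_iff]
    exact hl
  have h1 : ∀ l, ∑ i, algebraMap L F (b i) * algebraMap E F (Algebra.leftMulMatrix b (w l) i j) =
      algebraMap L F (w l) * algebraMap L F (b j) := by
    intro l
    rw [← map_mul, ← b.sum_repr (w l * b j), map_sum]
    refine sum_congr rfl fun i _ => ?_
    rw [Algebra.leftMulMatrix_eq_repr_mul, mul_comm, Algebra.smul_def, map_mul (algebraMap L F),
      ← IsScalarTower.algebraMap_apply]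
  rw [← mul_zero (algebraMap L F (b j)), ← h0]
  simp only [mul_sum]
  rw [sum_comm]
  refine sum_congr rfl fun l _ => ?_
  rw [show algebraMap L F (b j) * (algebraMap L F (w l) * t l) =
    t l * (algebraMap L F (w l) * algebraMap L F (b j)) by ring, ← h1, mul_sum]
  exact sum_congr rfl fun i _ => by ring

/- Let `E = k (x)`, `L = E (w)`, a finite extension with basis `b` (`mem_cl'`).  The determinant of
`∑ l, X l • (Algebra.leftMulMatrix b (w l)).map C` is homogeneous, its value at a unit vector is a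
norm, and at `t` the matrix is killed by the vector `b` (`Matrix.exists_vecMul_eq_zero_iff`).  Clear
denominators. -/
theorem exists_hyp {r : ℕ} (x : ι → F) {w t : Fin r → F} (hw : w ≠ 0)
    (h : ∀ l, w l ∈ Cl k (Set.range x)) (h0 : w ⬝ᵥ t = 0) :
    ∃ (P : MvPolynomial (Fin r) (MvPolynomial ι k)) (d : ℕ), P.IsHomogeneous d ∧
      (∃ μ, aeval x (coeff μ P) ≠ 0) ∧
      eval₂ (aeval x : MvPolynomial ι k →ₐ[k] F).toRingHom t P = 0 := by
  classical
  have : FiniteDimensional (IntermediateField.adjoin k (Set.range x))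
      (IntermediateField.adjoin (IntermediateField.adjoin k (Set.range x)) (Set.range w)) :=
    IntermediateField.finiteDimensional_adjoin
      (by rintro _ ⟨l, rfl⟩; exact (mem_cl'.1 (h l)).isIntegral)
  obtain ⟨n, M, v, ⟨l, hl⟩, hv, hM⟩ := ker_hyp_norm (E := IntermediateField.adjoin k (Set.range x))
    (L := IntermediateField.adjoin (IntermediateField.adjoin k (Set.range x)) (Set.range w))
    (w := fun l => ⟨w l, IntermediateField.subset_adjoin _ _ ⟨l, rfl⟩⟩) (t := t)
    (fun h1 => hw (funext fun l => congrArg Subtype.val (congrFun h1 l))) h0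
  obtain ⟨D, p, hD, hp⟩ := ker_hyp_clear x (fun q : Fin r × Fin n × Fin n => M q.1 q.2.1 q.2.2)
  let N : Matrix (Fin n) (Fin n) (MvPolynomial (Fin r) (MvPolynomial ι k)) :=
    Matrix.of fun i j => ∑ l, C (p (l, i, j)) * X l
  have ev : ∀ s : Fin r → F, eval₂ (aeval x : MvPolynomial ι k →ₐ[k] F).toRingHom s N.det =
      Matrix.det (Matrix.of fun i j => ∑ l, D * (M l i j : F) * s l) := by
    intro s
    rw [← coe_eval₂Hom, RingHom.map_det]
    congr 1
    ext i j
    simp [N, hp]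
  refine ⟨N.det, n, ?_, ?_, ?_⟩
  · rw [Matrix.det_apply']
    refine IsHomogeneous.sum _ _ _ fun σ _ => ?_
    have h1 : (∏ i, N (σ i) i).IsHomogeneous (∑ _i : Fin n, 1) :=
      IsHomogeneous.prod _ _ _ fun i _ => by
        simp only [N, Matrix.of_apply]
        exact IsHomogeneous.sum _ _ _ fun l _ => by
          simpa using (isHomogeneous_C _ (p (l, σ i, i))).mul (isHomogeneous_X _ l)
    have h2 := (isHomogeneous_C (Fin r) (((Equiv.Perm.sign σ : ℤˣ) : ℤ) : MvPolynomial ι k)).mul h1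
    simpa using h2
  · by_contra hc
    push Not at hc
    have h1 := ev (Pi.single l 1)
    rw [eval₂_eq, sum_eq_zero fun μ _ => by simp [hc]] at h1
    have h2 : (Matrix.of fun i j => ∑ l', D * (M l' i j : F) * (Pi.single l 1 : Fin r → F) l') =
        D • (algebraMap _ F).mapMatrix (M l) := by
      ext i j
      simp [Pi.single_apply]
    rw [h2, Matrix.det_smul, ← RingHom.map_det] at h1
    exact mul_ne_zero (pow_ne_zero _ hD) ((map_ne_zero _).2 hl) h1.symm
  · rw [ev, ← Matrix.exists_vecMul_eq_zero_iff]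
    refine ⟨v, hv, funext fun j => ?_⟩
    have h2 := congrArg (D * ·) (hM j)
    simp only [mul_zero, mul_sum] at h2
    simp only [Matrix.vecMul, dotProduct, Matrix.of_apply, Pi.zero_apply, mul_sum]
    rw [← h2]
    exact sum_congr rfl fun i _ => sum_congr rfl fun l _ => by
      rw [IntermediateField.algebraMap_apply]; ring

/-- A bihomogeneous form that does not vanish identically over the variety. -/
structure BiH (A : AV k ι) {r : ℕ} (P : MvPolynomial (Fin r) (MvPolynomial ι k)) : Prop where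
  hom : ∃ d, P.IsHomogeneous d
  co : ∃ e, ∀ μ, (coeff μ P).IsHomogeneous e
  ne : ∃ μ, coeff μ P ∉ A.I

variable {A : AV k ι} {r : ℕ}

/- `coeff_mul`; the images in the polynomial ring over the domain `_ ⧸ A.I` (`AV.isPrime`) are
nonzero. -/
theorem BiH.mul {P Q : MvPolynomial (Fin r) (MvPolynomial ι k)} (hP : BiH A P) (hQ : BiH A Q) :
    BiH A (P * Q) := by
  classical
  obtain ⟨⟨d, hd⟩, ⟨e, he⟩, ⟨μ, hμ⟩⟩ := hP
  obtain ⟨⟨d', hd'⟩, ⟨e', he'⟩, ⟨μ', hμ'⟩⟩ := hQ
  refine ⟨⟨d + d', hd.mul hd'⟩, ⟨e + e', fun ν => ?_⟩, ?_⟩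
  · rw [coeff_mul]
    exact IsHomogeneous.sum _ _ _ fun p _ => (he p.1).mul (he' p.2)
  · have := A.isPrime
    have key : ∀ T : MvPolynomial (Fin r) (MvPolynomial ι k),
        (∃ ν, coeff ν T ∉ A.I) ↔ MvPolynomial.map (Ideal.Quotient.mk A.I) T ≠ 0 := fun T => by
      rw [Ne, MvPolynomial.ext_iff, not_forall]
      simp only [coeff_map, coeff_zero, Ideal.Quotient.eq_zero_iff_mem]
    rw [key, map_mul]
    exact mul_ne_zero ((key P).1 ⟨μ, hμ⟩) ((key Q).1 ⟨μ', hμ'⟩)

theorem biH_C {g : MvPolynomial ι k} {e : ℕ} (hg : g.IsHomogeneous e) (h : g ∉ A.I) :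
    BiH A (C g : MvPolynomial (Fin r) (MvPolynomial ι k)) := by
  classical
  refine ⟨⟨0, isHomogeneous_C _ _⟩, ⟨e, fun μ => ?_⟩, ⟨0, by rwa [coeff_zero_C]⟩⟩
  rw [coeff_C]
  split_ifs
  · exact hg
  · exact isHomogeneous_zero _ _ _

theorem biH_one : BiH A (1 : MvPolynomial (Fin r) (MvPolynomial ι k)) := by
  exact biH_C (g := 1) (isHomogeneous_one _ _) ((Ideal.ne_top_iff_one _).1 A.isPrime.ne_top)

theorem biH_X (l : Fin r) : BiH A (X l : MvPolynomial (Fin r) (MvPolynomial ι k)) := by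
  classical
  refine ⟨⟨1, isHomogeneous_X _ _⟩, ⟨0, fun μ => ?_⟩, ⟨Finsupp.single l 1, ?_⟩⟩
  · rw [coeff_X]
    split_ifs
    · exact isHomogeneous_one _ _
    · exact isHomogeneous_zero _ _ _
  · rw [coeff_X_same]
    exact (Ideal.ne_top_iff_one _).1 A.isPrime.ne_top

theorem biH_prod {J : Type} (s : Finset J) {P : J → MvPolynomial (Fin r) (MvPolynomial ι k)}
    (h : ∀ j ∈ s, BiH A (P j)) : BiH A (∏ j ∈ s, P j) := by
  exact Finset.prod_induction P (BiH A) (fun _ _ => BiH.mul) biH_one h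

/- `eval₂_eq`, `eval_mul_of_hom`. -/
theorem BiH.scale {P : MvPolynomial (Fin r) (MvPolynomial ι k)} (hP : BiH A P) {c : k}
    (hc : c ≠ 0) (x : ι → k) (t : Fin r → k) :
    eval₂ (eval fun a => c * x a) t P ≠ 0 ↔ eval₂ (eval x) t P ≠ 0 := by
  obtain ⟨e, he⟩ := hP.co
  have : eval₂ (eval fun a => c * x a) t P = c ^ e * eval₂ (eval x) t P := by
    rw [eval₂_eq, eval₂_eq, Finset.mul_sum]
    exact Finset.sum_congr rfl fun μ _ => by rw [eval_mul_of_hom (he μ), mul_assoc]
  rw [this, mul_ne_zero_iff, and_iff_right (pow_ne_zero _ hc)]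

/- `exists_hyp`; homogenise all coefficients to one degree with `exists_homog`. -/
theorem exists_biH {a₀ : ι} {x : ι → F} (h1 : x a₀ = 1) (hx : ∀ f ∈ A.I, aeval x f = 0)
    {w t : Fin r → F} (hw : w ≠ 0) (h : ∀ l, w l ∈ Cl k (Set.range x)) (h0 : w ⬝ᵥ t = 0) :
    ∃ P : MvPolynomial (Fin r) (MvPolynomial ι k), BiH A P ∧
      eval₂ (aeval x : MvPolynomial ι k →ₐ[k] F).toRingHom t P = 0 := by
  classical
  obtain ⟨P, d, hd, ⟨μ₀, hμ₀⟩, hP⟩ := exists_hyp x hw h h0
  choose! Q hQ hQ' using fun (μ : Fin r →₀ ℕ) (hμ : μ ∈ P.support) =>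
    exists_homog a₀ (coeff μ P)
      (Finset.le_sup (f := fun ν => (coeff ν P).totalDegree) hμ)
  have hc : ∀ ν, coeff ν (∑ μ ∈ P.support, monomial μ (Q μ)) =
      if ν ∈ P.support then Q ν else 0 := fun ν => by
    simp only [coeff_sum, coeff_monomial, Finset.sum_ite_eq']
  have hμ : μ₀ ∈ P.support := mem_support_iff.2 fun e => hμ₀ (by rw [e, map_zero])
  refine ⟨∑ μ ∈ P.support, monomial μ (Q μ), ⟨⟨d, ?_⟩,
    ⟨P.support.sup fun ν => (coeff ν P).totalDegree, fun ν => ?_⟩, ⟨μ₀, fun hm => ?_⟩⟩, ?_⟩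
  · refine IsHomogeneous.sum _ _ _ fun μ hm => isHomogeneous_monomial _ ?_
    rw [Finsupp.degree_eq_weight_one]
    exact hd (mem_support_iff.1 hm)
  · rw [hc]
    split_ifs with hν
    · exact hQ ν hν
    · exact isHomogeneous_zero _ _ _
  · rw [hc, if_pos hμ] at hm
    exact hμ₀ ((hQ' μ₀ hμ F x h1).symm.trans (hx _ hm))
  · rw [← hP, eval₂_sum, eval₂_eq (f := P)]
    refine Finset.sum_congr rfl fun μ hm => ?_
    rw [eval₂_monomial]
    exact congrArg₂ (· * ·) (hQ' μ hm F x h1) rfl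

end Pool.Agent.Lib.MP_651af7_nt.As
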