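import Pool.Agent.Lib.MP_651af7_nt.As.Defs
import Pool.Agent.Lib.MP_651af7_nt.Es.URed
import Pool.Agent.Lib.MP_651af7_nt.Es.ANorm

/-! From a gap to a box of small volume. -/

namespace Pool.Agent.Lib.MP_651af7_nt.As

open MvPolynomial Finset Height NumberField Matrix
open Av hiding Bad
open Es (Mo IX CX mo cx GA GC Bad Pen nv vol Tame IntV Dual)
open Rt (Pl av mu)

open Es (mn)

variable {K : Type} [Field K] [NumberField K]

/- `(adjugate N)ᵀ *ᵥ (adjugate X)ᵀ i = adjugate (N * Xᵀ) i` (`adjugate_mul_distrib`,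
`adjugate_transpose`), a determinant of `(N * Xᵀ).updateRow j (Pi.single i 1)`.  Expand
(`Matrix.det_apply`): a nonzero term has `σ i = j`; bound the other factors by `a l * lam l` (rows)
if `j ≠ j₀`, and by `a l * lam c` (columns) if `j = j₀`, where `lam j₁ ≤ lam i`. -/
theorem adj_box {F κ : Type} [Field F] [Fintype κ] [DecidableEq κ] (v : AbsoluteValue F ℝ)
    (N X : Matrix κ κ F) {a lam : κ → ℝ} (ha : ∀ l, 0 < a l) (hl : ∀ l, 0 < lam l)
    (h : ∀ i l, v ((N *ᵥ X i) l) ≤ a l * min (lam i) (lam l)) {j₀ j₁ : κ}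
    (h1 : ∀ i, i ≠ j₀ → lam j₁ ≤ lam i) {i : κ} (hi : i ≠ j₀) (j : κ) :
    v ((N.adjugateᵀ *ᵥ X.adjugateᵀ i) j) ≤ (Fintype.card κ).factorial *
      ((∏ l, a l * lam l) / (a j * lam (if j = j₀ then j₁ else j))) := by
  have e1 : (N.adjugateᵀ *ᵥ X.adjugateᵀ i) j = (N * Xᵀ).adjugate i j := by
    rw [adjugate_mul_distrib, ← adjugate_transpose, mul_apply]
    exact sum_congr rfl fun k _ => mul_comm _ _
  have e2 : ∀ l c, (N * Xᵀ) l c = (N *ᵥ X c) l := fun l c => rfl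
  have hP : 0 < ∏ l, a l * lam l := prod_pos fun l _ => mul_pos (ha l) (hl l)
  have hR : 0 ≤ (∏ l, a l * lam l) / (a j * lam (if j = j₀ then j₁ else j)) :=
    (div_pos hP (mul_pos (ha j) (hl _))).le
  have key : ∀ σ : Equiv.Perm κ,
      v (∏ c, ((N * Xᵀ).updateRow j (Pi.single i 1)) (σ c) c) ≤
        (∏ l, a l * lam l) / (a j * lam (if j = j₀ then j₁ else j)) := by
    intro σ
    by_cases hσ : σ i = j
    · rw [map_prod, ← mul_prod_erase _ _ (mem_univ i), hσ, updateRow_self, Pi.single_eq_same,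
        map_one, one_mul, le_div_iff₀ (mul_pos (ha j) (hl _))]
      have h2 : ∀ c ∈ univ.erase i, v (((N * Xᵀ).updateRow j (Pi.single i 1)) (σ c) c) ≤
          a (σ c) * min (lam c) (lam (σ c)) := fun c hc => by
        rw [updateRow_ne (fun e => ne_of_mem_erase hc (σ.injective (e.trans hσ.symm))), e2]
        exact h c (σ c)
      split_ifs with hj
      · have h3 : ∏ c ∈ univ.erase i, v (((N * Xᵀ).updateRow j (Pi.single i 1)) (σ c) c) ≤
            ∏ c ∈ univ.erase i, a (σ c) * lam c :=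
          prod_le_prod (fun c _ => v.nonneg _) fun c hc =>
            (h2 c hc).trans (mul_le_mul_of_nonneg_left (min_le_left _ _) (ha _).le)
        have h4 : (∏ c ∈ univ.erase i, a (σ c) * lam c) * (a j * lam i) = ∏ l, a l * lam l := by
          rw [← hσ, prod_erase_mul _ (fun c => a (σ c) * lam c) (mem_univ i), prod_mul_distrib,
            prod_mul_distrib, Equiv.prod_comp σ a]
        rw [← h4]
        exact mul_le_mul h3 (mul_le_mul_of_nonneg_left (h1 i hi) (ha j).le)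
          (mul_pos (ha j) (hl _)).le (prod_nonneg fun c _ => (mul_pos (ha _) (hl _)).le)
      · have h3 : ∏ c ∈ univ.erase i, v (((N * Xᵀ).updateRow j (Pi.single i 1)) (σ c) c) ≤
            ∏ c ∈ univ.erase i, a (σ c) * lam (σ c) :=
          prod_le_prod (fun c _ => v.nonneg _) fun c hc =>
            (h2 c hc).trans (mul_le_mul_of_nonneg_left (min_le_right _ _) (ha _).le)
        have h4 : (∏ c ∈ univ.erase i, a (σ c) * lam (σ c)) * (a j * lam j) =
            ∏ l, a l * lam l := by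
          rw [← hσ, prod_erase_mul _ (fun c => a (σ c) * lam (σ c)) (mem_univ i),
            Equiv.prod_comp σ fun l => a l * lam l]
        rw [← h4]
        exact mul_le_mul_of_nonneg_right h3 (mul_pos (ha j) (hl _)).le
    · rw [prod_eq_zero (mem_univ (σ.symm j)), map_zero]
      · exact hR
      · rw [σ.apply_symm_apply, updateRow_self, Pi.single_eq_of_ne]
        intro e
        exact hσ (by rw [← e, σ.apply_symm_apply])
  rw [e1, adjugate_apply, det_apply, ← Fintype.card_perm, ← nsmul_eq_mul, ← card_univ, ← sum_const]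
  refine (v.sum_le _ _).trans (sum_le_sum fun σ _ => ?_)
  rw [v.map_units_int_smul]
  exact key σ

theorem redG_ht (S : Finset (FinitePlace K)) (n : ℕ) : ∃ C : ℝ, 0 ≤ C ∧
    ∀ (N : Matrix (Fin n) (Fin n) K) (c : ℝ) (y : Fin n → K) (m : Pl S → ℝ), 0 ≤ c →
      (∀ p : Pl S, Tame (av p) c N) → y ≠ 0 → IntV y →
      (∀ p l, av p ((N *ᵥ y) l) ≤ Real.exp (m p)) →
      logHeight y ≤ (∑ p : Pl S, (mu p : ℝ)) * (C * (1 + c)) + ∑ p, mu p * m p := by
  obtain ⟨C, hC, h⟩ := Es.inv_le (K := K) (Fin n)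
  refine ⟨C, hC, fun N c y m hc hN hy hi hb => ?_⟩
  obtain ⟨j, -⟩ := Function.ne_iff.1 hy
  have : Nonempty (Fin n) := ⟨j⟩
  have h1 := Es.gsum_le_S S (Es.finS_sup y) Vj.pf_finS_zero (fun p => C * (1 + c) + m p)
    (fun p => ?_) fun v _ => ?_
  · rw [Es.gsum_sup hy, Vj.pf_gsum_zero, zero_add] at h1
    refine h1.trans (le_of_eq ?_)
    simp only [mul_add (mu _ : ℝ), sum_add_distrib, sum_mul]
  · rw [zero_add, Real.log_le_iff_le_exp (Es.sup_pos _ hy)]
    exact ciSup_le fun l => h (av p) c N y (m p) hc (hN p) (hb p) l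
  · exact Real.log_nonpos (Es.sup_pos _ hy).le (ciSup_le fun l => Es.fin_le_oneA v (hi l))

theorem redG_mu :
    ∑ p : Pl (∅ : Finset (FinitePlace K)), (mu p : ℝ) = Module.finrank ℚ K := by
  rw [Fintype.sum_sum_type, ← InfinitePlace.sum_mult_eq, Nat.cast_sum]
  simp [mu]

theorem redG_inl (p : Pl (∅ : Finset (FinitePlace K))) : ∃ w, p = Sum.inl w := by
  rcases p with w | v
  · exact ⟨w, rfl⟩
  · exact absurd v.2 (Finset.notMem_empty _)

theorem redG_two (p : Pl (∅ : Finset (FinitePlace K))) (m : ℕ) :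
    av p ((2 : K) ^ m) = Real.exp (m * Real.log 2) := by
  obtain ⟨w, rfl⟩ := redG_inl p
  have h : av (Sum.inl w : Pl (∅ : Finset (FinitePlace K))) (2 : K) = 2 := by
    have h1 : w (2 : K) = 2 := by simpa using InfinitePlace.map_natCast w 2
    exact h1
  rw [map_pow, h, Real.exp_nat_mul, Real.exp_log two_pos]

theorem redG_par {F κ : Type} [Field F] [Fintype κ] [DecidableEq κ] {X : Matrix κ κ F}
    (hX : X.det ≠ 0) {x : κ → F} {i j : κ} (hij : i ≠ j) {a b : F} (hi : X i = a • x)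
    (hj : X j = b • x) : False := by
  have h : (b • Pi.single i (1 : F) - a • Pi.single j (1 : F) : κ → F) ᵥ* X = 0 := by
    rw [sub_vecMul, smul_vecMul, smul_vecMul, single_one_vecMul, single_one_vecMul]
    change b • X i - a • X j = 0
    rw [hi, hj, smul_smul, smul_smul, mul_comm, sub_self]
  have h1 := congrFun (eq_zero_of_vecMul_eq_zero hX h) j
  simp only [Pi.sub_apply, Pi.smul_apply, Pi.single_eq_of_ne hij.symm, Pi.single_eq_same,
    smul_eq_mul, mul_zero, mul_one, zero_sub, Pi.zero_apply, neg_eq_zero] at h1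
  rw [h1, zero_smul] at hi
  exact hX (det_eq_zero_of_row_eq_zero i (congrFun hi))

theorem redG_dot {n : ℕ} (v : AbsoluteValue K ℝ) {N : Matrix (Fin n) (Fin n) K} {z : Fin n → K}
    {c m : ℝ} (hN : ∀ i j, v (N i j) ≤ Real.exp c) (hz : ∀ j, v (z j) ≤ Real.exp m) (l : Fin n) :
    v ((N *ᵥ z) l) ≤ Real.exp (n + c + m) := by
  have h0 : ∀ j ∈ (univ : Finset (Fin n)), v (N l j * z j) ≤ Real.exp c * Real.exp m :=
    fun j _ => by
      rw [map_mul]
      exact mul_le_mul (hN l j) (hz j) (v.nonneg _) (Real.exp_pos _).le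
  have h1 := sum_le_card_nsmul _ _ _ h0
  rw [card_univ, Fintype.card_fin, nsmul_eq_mul] at h1
  refine ((v.sum_le univ fun j => N l j * z j).trans h1).trans ?_
  rw [add_assoc, Real.exp_add, Real.exp_add]
  exact mul_le_mul_of_nonneg_right (by linarith [Real.add_one_le_exp (n : ℝ)]) (by positivity)

theorem redG_box {F : Type} [Field F] {n : ℕ} (v : AbsoluteValue F ℝ)
    (N X : Matrix (Fin n) (Fin n) F) {u t : Fin n → ℝ} (ht : Monotone t)
    (h : ∀ i l, v ((N *ᵥ X i) l) ≤ Real.exp (u l) * min (Real.exp (t i)) (Real.exp (t l)))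
    {j₀ j₁ : Fin n} (h1 : ∀ i, i ≠ j₀ → j₁ ≤ i) {i : Fin n} (hi : i ≠ j₀) (j : Fin n) :
    v ((N.adjugateᵀ *ᵥ X.adjugateᵀ i) j) ≤ Real.exp (Real.log n.factorial + ∑ l, (u l + t l) -
      (u j + t (if j = j₀ then j₁ else j))) := by
  refine (adj_box v N X (a := fun l => Real.exp (u l)) (lam := fun l => Real.exp (t l))
    (fun _ => Real.exp_pos _) (fun _ => Real.exp_pos _) h (j₀ := j₀) (j₁ := j₁)
    (fun i hi => Real.exp_le_exp.2 (ht (h1 i hi))) hi j).trans (le_of_eq ?_)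
  rw [Real.exp_sub, Real.exp_add, Real.exp_log (by exact_mod_cast n.factorial_pos), Real.exp_sum,
    Fintype.card_fin, mul_div_assoc]
  simp only [Real.exp_add]

theorem redG_sum {n : ℕ} (F : ℝ) (u t : Fin n → ℝ) (j₀ j₁ : Fin n) :
    ∑ j, (F + ∑ l, (u l + t l) - (u j + t (if j = j₀ then j₁ else j))) =
      n * F + (n - 1) * ∑ l, (u l + t l) - (t j₁ - t j₀) := by
  have h : ∀ j, t (if j = j₀ then j₁ else j) = t j + if j = j₀ then t j₁ - t j₀ else 0 := by
    intro j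
    split_ifs with hj
    · rw [hj]
      ring
    · rw [add_zero]
  simp only [h, sum_sub_distrib, sum_add_distrib, sum_const, card_univ, Fintype.card_fin,
    nsmul_eq_mul, sum_ite_eq', mem_univ, if_true]
  ring

/- Variant of `Es.reduceU` (`Es/URed`) for `S = ∅` and the constant family `N`.  `Es.normalize` gives
`z = c • (B *ᵥ t)` integral with `w (z l) ≤ exp (C + h / d)`.  The sides are `2 ^ m₀` for
`l ∈ range e`, with `m₀` the least exponent such that `z` lies in the box, and as in `reduceU`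
otherwise.  As there the first `r` rows of `X` lie in the column space of `B` (`few_big`, `out_U`,
`mem_U`), and `lam 0 ≤ 1` (`Minima.span`).  By `Es.inv_le`, `gsum_sup`, `gsum_le_S`:
`logHeight (X i) ≤ h + C' (1 + η q) + mu o * log (lam i)` for `i < r`.  So `X 0` is a multiple of
`B *ᵥ t`, `X 1` is not (`X.det ≠ 0`), and `γ q / 4 ≤ log (lam 1)`.  Take `j₀ = 0`,
`Y = X.adjugateᵀ` (`det_adjugate`, `Es.int_det`, `mul_adjugate`), `adj_box` at `o` with
`N.submatrix π id` and at the other places with `lam = 1`. -/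
theorem reduceG (n r : ℕ) (hr : 2 ≤ r) {γ : ℝ} (hγ : 0 < γ) (Γ : ℝ) :
    ∃ δ' Γ' η q₀ : ℝ, 0 < δ' ∧ 0 < η ∧ ∀ (q : ℝ) (N : Matrix (Fin n) (Fin n) K)
      (B : Matrix (Fin n) (Fin r) K) (e : Fin r → Fin n) (t : Fin r → K), q₀ ≤ q →
      Function.Injective e → (∀ p : Pl (∅ : Finset (FinitePlace K)), Tame (av p) (η * q) N) →
      (∀ i j, logHeight₁ (N i j) ≤ Γ * q) → mn B ≠ 0 → (∀ l, l ∉ Set.range e → N l ᵥ* B = 0) →
      B *ᵥ t ≠ 0 → logHeight (B *ᵥ t) ≤ Γ * q →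
      (∀ t', logHeight (B *ᵥ t') < logHeight (B *ᵥ t) + γ * q → ∃ c : K, B *ᵥ t' = c • B *ᵥ t) →
      ∃ (π : Pl (∅ : Finset (FinitePlace K)) → Equiv.Perm (Fin n)) (j₀ : Fin n)
        (Y : Matrix (Fin n) (Fin n) K) (b : Pl (∅ : Finset (FinitePlace K)) → Fin n → ℝ),
        Pen (fun p => (N.submatrix (π p) id).adjugateᵀ) j₀ b Y ∧ (∀ p l, |b p l| ≤ Γ' * q) ∧
        vol b ≤ -(δ' * q) ∧ ∀ i, i ≠ j₀ → (B *ᵥ t) ⬝ᵥ Y i = 0 := by
  classical
  obtain ⟨δ₁, hδ₁⟩ : ∃ δ₁ : ℝ, δ₁ = γ / 4 := ⟨_, rfl⟩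
  have hδ0 : 0 < δ₁ := by rw [hδ₁]; positivity
  obtain ⟨o⟩ : Nonempty (InfinitePlace K) := inferInstance
  obtain ⟨C, hC, hmin⟩ := Es.exists_minimaK (∅ : Finset (FinitePlace K)) n o
  obtain ⟨C₀, hC₀, hnorm⟩ := Es.normalize (K := K) (Fin n)
  obtain ⟨C₃, hC₃, hht⟩ := redG_ht (∅ : Finset (FinitePlace K)) n
  obtain ⟨C₆, hC₆, hout⟩ := Es.out_U (∅ : Finset (FinitePlace K)) n (Sum.inl o)
  obtain ⟨s, hs⟩ : ∃ s : ℝ, s = ∑ p : Pl (∅ : Finset (FinitePlace K)), (mu p : ℝ) := ⟨_, rfl⟩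
  have hsd : s = Module.finrank ℚ K := hs.trans redG_mu
  have hs1 : 1 ≤ s := by
    rw [hsd]
    exact_mod_cast Module.finrank_pos
  have hs0 : 0 ≤ s := zero_le_one.trans hs1
  obtain ⟨L, hL⟩ : ∃ L : ℝ, L = Real.log C := ⟨_, rfl⟩
  have hL0 : 0 ≤ L := hL ▸ Real.log_nonneg hC
  have hC0 : 0 < C := by linarith
  obtain ⟨F, hF⟩ : ∃ F : ℝ, F = Real.log n.factorial := ⟨_, rfl⟩
  have hF0 : 0 ≤ F := hF ▸ Real.log_natCast_nonneg _
  obtain ⟨E₁, hE₁⟩ : ∃ E : ℝ, E = s * (C₃ + L + n + C₀ + 2) := ⟨_, rfl⟩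
  have hE₁0 : 0 < E₁ := by rw [hE₁]; positivity
  obtain ⟨E₂, hE₂⟩ : ∃ E : ℝ, E = s * (n * F) + n * (s * (n * L) + C) := ⟨_, rfl⟩
  have hE₂0 : 0 ≤ E₂ := by rw [hE₂]; positivity
  obtain ⟨E', hE'⟩ : ∃ E : ℝ, E = E₁ + E₂ := ⟨_, rfl⟩
  have hE'0 : 0 < E' := by rw [hE']; positivity
  obtain ⟨G₀, hG₀⟩ : ∃ G : ℝ, G = n + C₀ + 2 + |Γ| := ⟨_, rfl⟩
  have hG₀0 : 0 ≤ G₀ := by rw [hG₀]; positivity
  obtain ⟨G₁, hG₁⟩ : ∃ G : ℝ, G = |Γ| + 2 * E₁ := ⟨_, rfl⟩
  have hG₁0 : 0 ≤ G₁ := by rw [hG₁]; positivity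
  obtain ⟨G₂, hG₂⟩ : ∃ G : ℝ, G = 2 * C := ⟨_, rfl⟩
  have hG₂0 : 0 ≤ G₂ := by rw [hG₂]; positivity
  obtain ⟨G₆, hG₆⟩ : ∃ G : ℝ, G = C₆ * (2 + |Γ| + L + G₀) + L := ⟨_, rfl⟩
  have hG₆0 : 0 ≤ G₆ := by rw [hG₆]; positivity
  obtain ⟨G₇, hG₇⟩ : ∃ G : ℝ, G = n * G₆ + n * G₁ + G₂ := ⟨_, rfl⟩
  have hG₇0 : 0 ≤ G₇ := by rw [hG₇]; positivity
  obtain ⟨G₈, hG₈⟩ : ∃ G : ℝ, G = 2 * G₇ + 2 := ⟨_, rfl⟩
  have hG₈0 : 0 ≤ G₈ := by rw [hG₈]; positivity
  obtain ⟨G₉, hG₉⟩ : ∃ G : ℝ, G = n * G₈ + G₂ + (n + 1) * G₁ := ⟨_, rfl⟩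
  have hG₉0 : 0 ≤ G₉ := by rw [hG₉]; positivity
  obtain ⟨G₄, hG₄⟩ : ∃ G : ℝ, G = L + (G₀ + G₈) := ⟨_, rfl⟩
  have hG₄0 : 0 ≤ G₄ := by rw [hG₄]; positivity
  obtain ⟨η, hη⟩ : ∃ η : ℝ, η = δ₁ / (4 * E' + δ₁) := ⟨_, rfl⟩
  have hη0 : 0 < η := by rw [hη]; positivity
  have hη1 : η ≤ 1 := by rw [hη, div_le_one (by positivity)]; linarith
  have hη2 : E' * η ≤ δ₁ / 4 := by
    rw [hη, mul_div_assoc', div_le_div_iff₀ (by positivity) (by positivity)]
    linarith [mul_pos hδ0 hδ0]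
  refine ⟨δ₁ / 2, F + (n + 1) * (G₄ + G₉), η, max 1 (4 * E' / δ₁), by positivity, hη0,
    fun q N B e t hq he hN hNh hB hNB hx0 hxh hgap => ?_⟩
  have hrn : r ≤ n := by simpa using Fintype.card_le_of_injective e he
  have hr' : (r : ℝ) ≤ n := by exact_mod_cast hrn
  have hn1 : (1 : ℝ) ≤ n := by exact_mod_cast (show 1 ≤ n by omega)
  have hq1 : 1 ≤ q := (le_max_left _ _).trans hq
  have hq0 : 0 ≤ q := zero_le_one.trans hq1
  have hq2 : 4 * E' ≤ q * δ₁ := (div_le_iff₀ hδ0).1 ((le_max_right _ _).trans hq)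
  have hc : 0 ≤ η * q := by positivity
  have hηq : η * q ≤ q := by linarith [mul_le_mul_of_nonneg_right hη1 hq0]
  have hc2 : 1 + η * q ≤ 2 * q := by linarith
  have hE2 : E' * (1 + η * q) ≤ δ₁ / 2 * q := by
    linarith [mul_le_mul_of_nonneg_right hη2 hq0]
  set O : Pl (∅ : Finset (FinitePlace K)) := Sum.inl o with hO
  obtain ⟨x, hxdef⟩ : ∃ x, x = B *ᵥ t := ⟨_, rfl⟩
  rw [← hxdef] at hx0 hxh hgap ⊢
  obtain ⟨c, hc0, hzi, hzb⟩ := hnorm x hx0
  obtain ⟨h, hh⟩ : ∃ h : ℝ, h = logHeight x := ⟨_, rfl⟩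
  rw [← hh, ← hsd] at hzb
  rw [← hh] at hxh hgap
  have hh0 : 0 ≤ h := hh ▸ logHeight_nonneg x
  have hΓ : Γ * q ≤ |Γ| * q := mul_le_mul_of_nonneg_right (le_abs_self Γ) hq0
  have hΓ0 : 0 ≤ |Γ| * q := by positivity
  have hhs : h / s ≤ h := div_le_self hh0 hs1
  have hhs0 : 0 ≤ h / s := by positivity
  have hz0 : ∀ l, l ∉ Set.range e → (N *ᵥ (c • x)) l = 0 := fun l hl => by
    have h1 : (N *ᵥ x) l = N l ⬝ᵥ (B *ᵥ t) := by rw [hxdef]; rfl
    rw [mulVec_smul, Pi.smul_apply, h1, dotProduct_mulVec, hNB l hl, zero_dotProduct, smul_zero]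
  have hl2 : (1 / 2 : ℝ) ≤ Real.log 2 := by linarith [Real.log_two_gt_d9]
  have hl3 : Real.log 2 ≤ 1 := by linarith [Real.log_two_lt_d9]
  obtain ⟨R, hR⟩ : ∃ R : ℝ, R = n + η * q + (C₀ + h / s) := ⟨_, rfl⟩
  have hR0 : 0 ≤ R := by rw [hR]; positivity
  obtain ⟨m₀, hm₀⟩ : ∃ m : ℕ, m = ⌈R / Real.log 2⌉₊ := ⟨_, rfl⟩
  obtain ⟨σ, hσ⟩ : ∃ σ : ℝ, σ = m₀ * Real.log 2 := ⟨_, rfl⟩
  have hσ1 : R ≤ σ := by
    rw [hσ, hm₀, ← div_le_iff₀ (by linarith)]
    exact Nat.le_ceil _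
  have hσ2 : σ ≤ R + 1 := by
    have h1 : (m₀ : ℝ) ≤ R / Real.log 2 + 1 := by
      rw [hm₀]
      exact (Nat.ceil_lt_add_one (div_nonneg hR0 (by linarith))).le
    have h2 := mul_le_mul_of_nonneg_right h1 (show 0 ≤ Real.log 2 by linarith)
    rw [add_mul, div_mul_cancel₀ _ (by linarith)] at h2
    linarith
  have hσ0 : 0 ≤ σ := hR0.trans hσ1
  have hσ3 : σ ≤ G₀ * q := by
    have h1 : (n + C₀ + 1) ≤ (n + C₀ + 1) * q := le_mul_of_one_le_right (by positivity) hq1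
    rw [hG₀]
    linarith
  obtain ⟨m, hm⟩ : ∃ m : ℕ, m = ⌈2 * G₇ * q⌉₊ + 1 := ⟨_, rfl⟩
  obtain ⟨ρ, hρ⟩ : ∃ ρ : ℝ, ρ = m * Real.log 2 := ⟨_, rfl⟩
  have hG₇q : 0 ≤ G₇ * q := by positivity
  have hρ1 : G₇ * q < ρ := by
    have h1 : 2 * G₇ * q + 1 ≤ m := by
      rw [hm]
      push_cast
      linarith [Nat.le_ceil (2 * G₇ * q)]
    have h3 : (m : ℝ) * (1 / 2) ≤ m * Real.log 2 :=
      mul_le_mul_of_nonneg_left hl2 (Nat.cast_nonneg _)
    linarith
  have hρ0 : 0 ≤ ρ := by linarith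
  have hρ2 : ρ ≤ G₈ * q := by
    have h1 : (m : ℝ) ≤ 2 * G₇ * q + 2 := by
      rw [hm]
      push_cast
      linarith [Nat.ceil_lt_add_one (show 0 ≤ 2 * G₇ * q by positivity)]
    have h3 : (m : ℝ) * Real.log 2 ≤ m * 1 := mul_le_mul_of_nonneg_left hl3 (Nat.cast_nonneg _)
    rw [hG₈]
    linarith
  obtain ⟨a, ha⟩ : ∃ a : Pl (∅ : Finset (FinitePlace K)) → Fin n → K, a = fun p l =>
    if l ∈ Set.range e then (2 : K) ^ m₀ else if p = O then ((2 : K)⁻¹) ^ m else 1 := ⟨_, rfl⟩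
  set A : Pl (∅ : Finset (FinitePlace K)) → Fin n → ℝ := fun p l => av p (a p l) with hAdef
  have hAin : ∀ p l, l ∈ Set.range e → A p l = Real.exp σ := fun p l hl => by
    simp only [hAdef, ha]
    rw [if_pos hl, hσ]
    exact redG_two p m₀
  have hAout : ∀ p l, l ∉ Set.range e → A p l = Real.exp (if p = O then -ρ else 0) :=
    fun p l hl => by
      simp only [hAdef, ha]
      rw [if_neg hl]
      by_cases hp : p = O
      · subst hp
        rw [if_pos rfl, if_pos rfl, hρ]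
        exact Es.URed_half ∅ o m
      · rw [if_neg hp, if_neg hp, map_one, Real.exp_zero]
  have hA : ∀ p l, 0 < A p l := fun p l => by
    by_cases hl : l ∈ Set.range e
    · rw [hAin p l hl]
      exact Real.exp_pos _
    · rw [hAout p l hl]
      exact Real.exp_pos _
  have hAb : ∀ p l, -ρ ≤ Real.log (A p l) ∧ Real.log (A p l) ≤ σ := fun p l => by
    by_cases hl : l ∈ Set.range e
    · rw [hAin p l hl, Real.log_exp]
      exact ⟨by linarith, le_rfl⟩
    · rw [hAout p l hl, Real.log_exp]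
      split_ifs
      · exact ⟨le_rfl, by linarith⟩
      · exact ⟨by linarith, hσ0⟩
  have hzA : ∀ p l, av p ((N *ᵥ (c • x)) l) ≤ A p l := fun p l => by
    by_cases hl : l ∈ Set.range e
    · rw [hAin p l hl]
      obtain ⟨w, rfl⟩ := redG_inl p
      refine (redG_dot _ (hN _).1 (m := C₀ + h / s) (fun j => hzb w j) l).trans ?_
      rw [← hR]
      exact Real.exp_le_exp.2 hσ1
    · rw [hz0 l hl, map_zero]
      exact (hA p l).le
  obtain ⟨X, lam, π₀, H, hup⟩ := hmin (fun _ => N) a (η * q) hc hN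
    (fun p l => (av p).pos_iff.1 (hA p l)) fun v _ => absurd v.2 (Finset.notMem_empty _)
  change Es.Minima O (fun _ => N) A C X lam π₀ at H
  change mu O * ∑ i, Real.log (lam i) + vol (fun p l => Real.log (A p l)) ≤ _ at hup
  have hvA : vol (fun p l => Real.log (A p l)) = s * (r * σ) - mu O * ((n - r : ℝ) * ρ) := by
    have h1 : ∀ p, ∑ l, Real.log (A p l) = r * σ + (n - r : ℝ) * (if p = O then -ρ else 0) := by
      intro p
      rw [Es.URed_sum he _ _ fun l hl => by rw [hAout p l hl, Real.log_exp]]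
      simp only [hAin p _ ⟨_, rfl⟩, Real.log_exp, sum_const, card_univ, Fintype.card_fin,
        nsmul_eq_mul]
    simp only [hs, vol, h1, mul_add, sum_add_distrib, mul_ite, mul_zero, sum_ite_eq', mem_univ,
      if_true, sum_mul]
    ring
  have hm1 : (1 : ℝ) ≤ mu O := by exact_mod_cast Rt.one_le_mu O
  have hm2 : (mu O : ℝ) ≤ 2 := by exact_mod_cast Es.mu_le_two O
  have hG₂q : 0 ≤ G₂ * q := by positivity
  have hsum : ∑ i, Real.log (lam i) ≤ (n - r : ℝ) * ρ + G₂ * q := by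
    have h5 : C * (1 + η * q) ≤ C * (2 * q) := mul_le_mul_of_nonneg_left hc2 hC0.le
    have h4 : 0 ≤ s * (r * σ) := by positivity
    have h6 : mu O * (∑ i, Real.log (lam i) - (n - r : ℝ) * ρ) ≤ G₂ * q := by
      rw [hG₂, mul_sub]
      linarith
    by_contra hcon
    have h7 : 0 ≤ ∑ i, Real.log (lam i) - (n - r : ℝ) * ρ := by linarith
    linarith [le_mul_of_one_le_left h7 hm1]
  have hCA : ∀ p l, C * A p l ≤ Real.exp (L + σ) := fun p l => by
    rw [Real.exp_add, hL, Real.exp_log hC0]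
    exact mul_le_mul_of_nonneg_left ((Real.log_le_iff_le_exp (hA p l)).1 (hAb p l).2) hC0.le
  have hon : ∀ i l, av O ((N *ᵥ X i) l) ≤ C * A O l * lam i := fun i l => by
    have h6 := H.on i (π₀.symm l)
    rw [Equiv.apply_symm_apply] at h6
    exact h6.trans (mul_le_mul_of_nonneg_left (min_le_left _ _) (mul_pos hC0 (hA _ _)).le)
  have hX0 : ∀ i, X i ≠ 0 := fun i e => H.det (det_eq_zero_of_row_eq_zero i (congrFun e))
  have hXh : ∀ i, logHeight (X i) ≤ h + E₁ * (1 + η * q) + mu O * Real.log (lam i) := fun i => by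
    have h4 := hht N (η * q) (X i) (fun p => L + σ + if p = O then Real.log (lam i) else 0)
      hc hN (hX0 i) (H.int i) fun p l => by
        by_cases hp : p = O
        · subst hp
          rw [if_pos rfl, Real.exp_add, Real.exp_log (H.pos i)]
          exact (hon i l).trans (mul_le_mul_of_nonneg_right (hCA _ l) (H.pos i).le)
        · rw [if_neg hp, add_zero]
          exact (H.off p hp i l).trans (hCA p l)
    simp only [mul_add (mu _ : ℝ) (L + σ), sum_add_distrib, ← sum_mul, mul_ite, mul_zero,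
      sum_ite_eq', mem_univ, if_true, ← hs] at h4
    have h5 : (0 : ℝ) ≤ (L + n + C₀ + 1) * (η * q) := by positivity
    have h6 : C₃ * (1 + η * q) + (L + σ) ≤ (C₃ + L + n + C₀ + 2) * (1 + η * q) + h / s := by
      linarith
    have h7 := mul_le_mul_of_nonneg_left h6 hs0
    rw [mul_add, mul_add s _ (h / s), mul_div_cancel₀ _ (by linarith : s ≠ 0), ← mul_assoc s _
      (1 + η * q), ← mul_assoc s (C₃ + L + n + C₀ + 2), ← hE₁] at h7
    rw [← mul_assoc] at h4
    linarith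
  have hE₁q : E₁ * (1 + η * q) ≤ E₁ * (2 * q) := mul_le_mul_of_nonneg_left hc2 hE₁0.le
  have hlo : ∀ i, -(G₁ * q) ≤ Real.log (lam i) := fun i => by
    have h9 := Es.AMin_low O (D := G₁ * q) (t := Real.log (lam i)) (by
      rw [hG₁]
      linarith [hXh i, logHeight_nonneg (X i)])
    rwa [abs_of_nonneg (by positivity)] at h9
  have hmono : Monotone fun i => Real.log (lam i) := fun i j hij =>
    Real.log_le_log (H.pos i) (H.mono hij)
  have hzero : ∀ i : Fin n, (i : ℕ) < r → ∀ l, l ∉ Set.range e → (N *ᵥ X i) l = 0 := by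
    intro i hi l hl
    by_contra hne
    have h1 := Es.few_big hrn hmono (ρ := ρ) (g₁ := G₁ * q) (g₂ := G₂ * q) (g₃ := G₆ * q)
      (by positivity) hG₂q (by positivity) hlo hsum (by rw [hG₇] at hρ1; linarith) i hi
    have h2 := hout (fun _ => N) (η * q) (|Γ| * q) (L + σ) (X i) l hc hΓ0 (by positivity) hN
      (fun j => (hNh l j).trans hΓ) (H.int i)
      (fun p hp j => (H.off p hp i j).trans (hCA p j)) hne
    have h3 := h2.trans (hon i l)
    rw [hAout O l hl, if_pos rfl, ← Real.exp_log hC0, ← hL, ← Real.exp_log (H.pos i),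
      ← Real.exp_add, ← Real.exp_add, Real.exp_le_exp] at h3
    have h4 : L ≤ L * q := le_mul_of_one_le_right hL0 hq1
    have h5 : C₆ * (1 + η * q + |Γ| * q + (L + σ)) ≤ C₆ * ((2 + |Γ| + L + G₀) * q) :=
      mul_le_mul_of_nonneg_left (by linarith) hC₆
    rw [hG₆] at h1
    linarith
  have hNO : N.det ≠ 0 := (av O).pos_iff.1 ((Real.exp_pos _).trans_le (hN O).2)
  obtain ⟨j₀, hj₀⟩ : ∃ j : Fin n, (j : ℕ) = 0 := ⟨⟨0, by omega⟩, rfl⟩
  obtain ⟨j₁, hj₁⟩ : ∃ j : Fin n, (j : ℕ) = 1 := ⟨⟨1, by omega⟩, rfl⟩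
  have hj : ∀ i, i ≠ j₀ → j₁ ≤ i := fun i hi => Fin.le_def.2 (by
    have := Fin.val_ne_of_ne hi
    omega)
  obtain ⟨t₀, ht₀⟩ := Es.mem_U hNO hB he hNB (hzero j₀ (by omega))
  obtain ⟨t₁, ht₁⟩ := Es.mem_U hNO hB he hNB (hzero j₁ (by omega))
  have hlam0 : Real.log (lam j₀) ≤ 0 := by
    by_contra hpos
    obtain ⟨g, g1, g2⟩ := H.span (c • x) hzi (fun p _ l => hzA p l) j₀ fun l => (hzA O l).trans_lt
      (lt_mul_of_one_lt_right (hA O l) ((Real.log_pos_iff (H.pos j₀).le).1 (not_le.1 hpos)))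
    rw [sum_eq_zero fun l _ => by
      rw [g1 l (Fin.le_def.2 (by omega)), zero_smul]] at g2
    exact smul_ne_zero hc0 hx0 g2
  have hE3 : E' * (1 + η * q) = E₁ * (1 + η * q) + E₂ * (1 + η * q) := by rw [hE']; ring
  have hE4 : 0 ≤ E₁ * (1 + η * q) := by positivity
  have hE5 : 0 ≤ E₂ * (1 + η * q) := by positivity
  have hδq : 0 < δ₁ * q := by positivity
  have hγq : γ * q = 4 * (δ₁ * q) := by rw [hδ₁]; ring
  obtain ⟨c₀, hc₀⟩ := hgap t₀ (by
    have h1 : mu O * Real.log (lam j₀) ≤ 0 := mul_nonpos_of_nonneg_of_nonpos (by linarith) hlam0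
    rw [← ht₀]
    linarith [hXh j₀])
  rw [← ht₀] at hc₀
  have hlam1 : δ₁ * q ≤ Real.log (lam j₁) := by
    by_contra hcon
    obtain ⟨c₁, hc₁⟩ := hgap t₁ (by
      have h1 : mu O * Real.log (lam j₁) ≤ mu O * (δ₁ * q) :=
        mul_le_mul_of_nonneg_left (not_le.1 hcon).le (by linarith)
      have h2 : mu O * (δ₁ * q) ≤ 2 * (δ₁ * q) := mul_le_mul_of_nonneg_right hm2 hδq.le
      rw [← ht₁]
      linarith [hXh j₁])
    rw [← ht₁] at hc₁
    exact redG_par H.det (i := j₀) (j := j₁) (fun e => by rw [e] at hj₀; omega) hc₀ hc₁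
  have hhi : ∀ i, |Real.log (lam i)| ≤ G₉ * q := fun i => by
    have h5 : (n - r : ℝ) * ρ ≤ n * (G₈ * q) :=
      mul_le_mul (by linarith [Nat.cast_nonneg (α := ℝ) r]) hρ2 hρ0 (Nat.cast_nonneg _)
    have h7 := single_le_sum (s := univ) (f := fun l => Real.log (lam l) + G₁ * q)
      (fun l _ => by linarith [hlo l]) (mem_univ i)
    simp only [sum_add_distrib, sum_const, card_univ, Fintype.card_fin, nsmul_eq_mul] at h7
    have h8 : 0 ≤ G₁ * q := by positivity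
    have h9 : 0 ≤ n * (G₈ * q) := by positivity
    have h10 : 0 ≤ n * (G₁ * q) := by positivity
    rw [hG₉]
    exact abs_le.2 ⟨by linarith [hlo i], by linarith⟩
  let π : Pl (∅ : Finset (FinitePlace K)) → Equiv.Perm (Fin n) := fun p => if p = O then π₀ else 1
  obtain ⟨u, hu⟩ : ∃ u : Pl (∅ : Finset (FinitePlace K)) → Fin n → ℝ,
    u = fun p l => L + Real.log (A p (π p l)) := ⟨_, rfl⟩
  obtain ⟨w, hw⟩ : ∃ w : Pl (∅ : Finset (FinitePlace K)) → Fin n → ℝ,
    w = fun p l => if p = O then Real.log (lam l) else 0 := ⟨_, rfl⟩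
  have hub : ∀ p l, |u p l| ≤ G₄ * q := fun p l => by
    have h5 : L ≤ L * q := le_mul_of_one_le_right hL0 hq1
    have h6 : 0 ≤ G₀ * q := by positivity
    have h7 : 0 ≤ G₈ * q := by positivity
    rw [hu, hG₄]
    exact abs_le.2 ⟨by linarith [(hAb p (π p l)).1], by linarith [(hAb p (π p l)).2]⟩
  have hwb : ∀ p l, |w p l| ≤ G₉ * q := fun p l => by
    simp only [hw]
    split_ifs
    · exact hhi l
    · rw [abs_zero]
      positivity
  have hexp : ∀ p l, Real.exp (u p l) = C * A p (π p l) := fun p l => by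
    rw [hu, Real.exp_add, hL, Real.exp_log hC0, Real.exp_log (hA _ _)]
  refine ⟨π, j₀, X.adjugateᵀ, fun p j => F + ∑ l, (u p l + w p l) -
    (u p j + w p (if j = j₀ then j₁ else j)), ⟨fun i j => ?_, ?_, fun p i j hi => ?_⟩,
    fun p j => ?_, ?_, fun i hi => ?_⟩
  · rw [transpose_apply, adjugate_apply]
    refine Es.int_det fun k l => ?_
    rw [updateRow_apply]
    split_ifs
    · rw [Pi.single_apply]
      split_ifs
      · exact isIntegral_one
      · exact isIntegral_zero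
    · exact H.int k l
  · rw [det_transpose, det_adjugate]
    exact pow_ne_zero _ H.det
  · rw [hF]
    refine redG_box (av p) _ X ?_ (fun i l => ?_) hj hi j
    · simp only [hw]
      split_ifs
      · exact hmono
      · exact monotone_const
    · rw [hexp]
      by_cases hp : p = O
      · subst hp
        simp only [hw, π, if_true, Real.exp_log (H.pos _)]
        exact H.on i l
      · simp only [hw, π, if_neg hp, Real.exp_zero, min_self, mul_one]
        exact H.off p hp i l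
  · have h1 : ∀ l l', |u p l + w p l'| ≤ (G₄ + G₉) * q := fun l l' =>
      (abs_add_le _ _).trans (by linarith [hub p l, hwb p l'])
    have h2 : |∑ l, (u p l + w p l)| ≤ n * ((G₄ + G₉) * q) := by
      refine (abs_sum_le_sum_abs _ _).trans ((sum_le_card_nsmul _ _ _ fun l _ => h1 l l).trans ?_)
      rw [card_univ, Fintype.card_fin, nsmul_eq_mul]
    have h3 : F ≤ F * q := le_mul_of_one_le_right hF0 hq1
    have h4 := abs_le.1 (h1 j (if j = j₀ then j₁ else j))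
    have h5 := abs_le.1 h2
    exact abs_le.2 ⟨by linarith [h4.2, h5.1], by linarith [h4.1, h5.2]⟩
  · have hvβ : vol (fun p l => u p l + w p l) = s * (n * L) + vol (fun p l => Real.log (A p l)) +
        mu O * ∑ l, Real.log (lam l) := by
      rw [hs, ← Es.ARed_vol (fun p l => Real.log (A p l)) L π, ← Es.AMin_vol, hu, hw]
    have hgp : ∑ p, (mu p : ℝ) * (w p j₁ - w p j₀) =
        mu O * (Real.log (lam j₁) - Real.log (lam j₀)) := by
      rw [sum_eq_single O (fun p _ hp => by simp [hw, hp]) (by simp)]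
      simp [hw]
    have hvb : vol (fun p j => F + ∑ l, (u p l + w p l) -
        (u p j + w p (if j = j₀ then j₁ else j))) =
        s * (n * F) + (n - 1) * vol (fun p l => u p l + w p l) -
          mu O * (Real.log (lam j₁) - Real.log (lam j₀)) := by
      rw [← hgp, hs, vol, vol, sum_mul, mul_sum, ← sum_add_distrib, ← sum_sub_distrib]
      refine sum_congr rfl fun p _ => ?_
      rw [redG_sum]
      ring
    have h1 : s * (n * L) ≤ s * (n * L) * (1 + η * q) :=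
      le_mul_of_one_le_right (by positivity) (by linarith)
    have h2 : s * (n * F) ≤ s * (n * F) * (1 + η * q) :=
      le_mul_of_one_le_right (by positivity) (by linarith)
    have h3 : (n - 1 : ℝ) * vol (fun p l => u p l + w p l) ≤
        n * ((s * (n * L) + C) * (1 + η * q)) :=
      (mul_le_mul_of_nonneg_left (show _ ≤ (s * (n * L) + C) * (1 + η * q) by linarith)
        (by linarith)).trans (mul_le_mul_of_nonneg_right (by linarith) (by positivity))
    have h4 : δ₁ * q ≤ mu O * (Real.log (lam j₁) - Real.log (lam j₀)) :=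
      (show δ₁ * q ≤ _ by linarith).trans (le_mul_of_one_le_left (by linarith) hm1)
    have h5 : E₂ * (1 + η * q) =
        s * (n * F) * (1 + η * q) + n * ((s * (n * L) + C) * (1 + η * q)) := by rw [hE₂]; ring
    rw [hvb]
    linarith
  · have h1 : X j₀ ⬝ᵥ X.adjugateᵀ i = 0 := by
      have h2 := congrFun (congrFun (mul_adjugate X) j₀) i
      rw [Matrix.smul_apply, one_apply_ne hi.symm, smul_zero] at h2
      exact h2
    rw [hc₀, smul_dotProduct, smul_eq_zero] at h1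
    refine h1.resolve_left fun h0 => hX0 j₀ ?_
    rw [hc₀, h0, zero_smul]

end Pool.Agent.Lib.MP_651af7_nt.As
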