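import Pool.Agent.Lib.MP_651af7_nt.As.Gap
import Pool.Agent.Lib.MP_651af7_nt.As.Ker
import Pool.Agent.Lib.MP_651af7_nt.As.RedG

/-! A gap forces an algebraic relation. -/

namespace Pool.Agent.Lib.MP_651af7_nt.As

open MvPolynomial Finset Height NumberField Matrix
open Av hiding Bad
open Es (Mo IX CX mo cx GA GC Bad Pen nv vol Tame IntV Dual)
open Rt (Pl av mu)

open Filter
open Es (mn)
open Ex (extM)

variable {k ι κ : Type} [Field k] [NumberField k] [Fintype ι] {α : Type} {U : Ultrafilter α}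
  {A : AV k ι} {a₀ : ι} {γ : ℝ} {q : α → ℝ} {x : α → ι → k}

theorem gapTwo_ht (a₀ : ι) {p p' : Type} [Fintype p] [Fintype p']
    (M : Matrix p p' (MvPolynomial ι k)) : ∃ C : ℝ, 0 ≤ C ∧ ∀ x : ι → k, x a₀ = 1 → ∀ i j,
      logHeight₁ (eval x (M i j)) ≤ C * (1 + logHeight x) := by
  choose C h0 h using fun u : p × p' => ht_evA a₀ (M u.1 u.2)
  refine ⟨∑ u, C u, sum_nonneg fun u _ => h0 u, fun x hx i j => (h (i, j) x hx).trans ?_⟩
  exact mul_le_mul_of_nonneg_right (single_le_sum (fun u _ => h0 u) (mem_univ _))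
    (add_nonneg zero_le_one (logHeight_nonneg x))

theorem gapTwo_col {F : Type} [Field F] {n r : ℕ} (hr : 2 ≤ r) {B : Matrix (Fin n) (Fin r) F}
    {e : Fin r → Fin n} (h : mn B e ≠ 0) (z : Fin n → F) :
    ∃ j, ¬ ∃ c : F, B *ᵥ Pi.single j 1 = c • z := by
  by_contra hc
  push Not at hc
  have inj : ∀ u, B *ᵥ u = 0 → u = 0 := fun u hu => by
    refine Matrix.eq_zero_of_mulVec_eq_zero h ?_
    funext l
    exact congrFun hu (e l)
  obtain ⟨c, h0⟩ := hc ⟨0, by omega⟩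
  obtain ⟨d, h1⟩ := hc ⟨1, by omega⟩
  have h2 := inj (d • Pi.single ⟨0, by omega⟩ 1 - c • Pi.single ⟨1, by omega⟩ 1) (by
    rw [mulVec_sub, mulVec_smul, mulVec_smul, h0, h1, smul_comm, sub_self])
  have h3 : d = 0 := by simpa [Pi.single_apply, Fin.ext_iff] using congrFun h2 ⟨0, by omega⟩
  rw [h3, zero_smul] at h1
  simpa using congrFun (inj _ h1) ⟨1, by omega⟩

theorem gapTwo_map {R R' p : Type} [CommRing R] [CommRing R'] [Fintype p] [DecidableEq p]
    (φ : R →+* R') (N : Matrix p p R) (π : p → p) :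
    ((N.submatrix π id).adjugateᵀ).map φ = ((N.map φ).submatrix π id).adjugateᵀ := by
  rw [Matrix.transpose_map]
  exact congrArg _ (φ.map_adjugate (N.submatrix π id))

/- The case `2 ≤ r`.  The first two columns of `B (x n)` are independent, so one of them is not a
multiple of `z n = B (x n) *ᵥ t`; its height is at most `C (1 + logHeight (x n))` (`ht_evA`,
`logHeight_le_sum`), so `logHeight (z n) ≤ 2 C q` and `γ' q ≤ logHeight (x n)`.  `reduceG` for
`N = extM B e 1` (`extM_map`, `extM_det`, `extM_out`, `mn_inj`, `tameA`, `ht_evA`); along `U` the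
pair `(π, j₀)` is constant (`Ultrafilter.eventually_exists_iff`).  `seq_alg` for the matrices
`(N.submatrix (π p) id).adjugateᵀ` (`RingHom.map_adjugate`, `det_adjugate`, `det_permute`);
`eq_smul_nv`. -/
theorem gap_two {n r : ℕ} (hr : 2 ≤ r) (B : Matrix (Fin n) (Fin r) (MvPolynomial ι k))
    (e : Fin r → Fin n) (hγ : 0 < γ) (hq : Tendsto q U atTop) {t : α → Fin r → k}
    (h : ∀ᶠ m in U, Aff A a₀ (x m) ∧ logHeight (x m) ≤ q m ∧ mn (B.map (eval (x m))) e ≠ 0 ∧
      B.map (eval (x m)) *ᵥ t m ≠ 0 ∧ ∀ t', logHeight (B.map (eval (x m)) *ᵥ t') <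
        logHeight (B.map (eval (x m)) *ᵥ t m) + γ * q m →
        ∃ c : k, B.map (eval (x m)) *ᵥ t' = c • B.map (eval (x m)) *ᵥ t m) (a b : Fin n) :
    (germ U fun m => (B.map (eval (x m)) *ᵥ t m) b / (B.map (eval (x m)) *ᵥ t m) a) ∈
      Cl k (Set.range (gv U x)) := by
  obtain ⟨C₁, c1, hC₁⟩ := gapTwo_ht a₀ B
  obtain ⟨C₂, c2, hC₂⟩ := gapTwo_ht a₀ (extM B e 1)
  have c3 : 0 ≤ n * C₁ := by positivity
  obtain ⟨δ', Γ', η, q₀, hδ, hη, hred⟩ := reduceG (K := k) n r hr hγ (2 * (n * C₁ + C₂))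
  obtain ⟨H₀, hH⟩ := tameA (S := ∅) A a₀ (fun _ => extM B e 1) hη
  have key : ∀ᶠ m in U, ∃ u : (Pl (∅ : Finset (FinitePlace k)) → Equiv.Perm (Fin n)) × Fin n,
      ∃ w : Matrix (Fin n) (Fin n) k × (Pl (∅ : Finset (FinitePlace k)) → Fin n → ℝ),
        (γ / (2 * (n * C₁ + 1)) * q m ≤ logHeight (x m) ∧
          Hyp A a₀ (fun p => ((extM B e 1).submatrix (u.1 p) id).adjugateᵀ) u.2 δ' Γ' (q m) (x m)
            w.1 w.2) ∧ ∃ c : k, c ≠ 0 ∧ B.map (eval (x m)) *ᵥ t m = c • nv w.1 u.2 := by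
    filter_upwards [h, hq.eventually_ge_atTop q₀, hq.eventually_ge_atTop H₀,
      hq.eventually_ge_atTop 1, hq.eventually_ge_atTop (2 * (n * C₁ + 1) / γ)]
      with m ⟨h1, h2, h3, h4, h5⟩ q1 q2 q3 q4
    have hx := logHeight_nonneg (x m)
    have hz := logHeight_nonneg (B.map (eval (x m)) *ᵥ t m)
    obtain ⟨j, hj⟩ := gapTwo_col hr h3 (B.map (eval (x m)) *ᵥ t m)
    have e1 := not_lt.1 (mt (h5 _) hj)
    have e2 : logHeight (B.map (eval (x m)) *ᵥ Pi.single j 1) ≤ n * C₁ * (1 + logHeight (x m)) := by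
      refine (logHeight_le_sum _).trans ((sum_le_card_nsmul _ _ (C₁ * (1 + logHeight (x m)))
        fun i _ => ?_).trans (le_of_eq ?_))
      · rw [mulVec_single_one]
        exact hC₁ _ h1.1 i j
      · rw [card_univ, Fintype.card_fin, nsmul_eq_mul, mul_assoc]
    have e3 : 1 + logHeight (x m) ≤ 2 * q m := by linarith
    have e4 : 0 ≤ γ * q m := by positivity
    have hN : (extM B e 1).map (eval (x m)) = extM (B.map (eval (x m))) e 1 := by
      rw [Ex.extM_map, Matrix.map_one _ (map_zero _) (map_one _)]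
    have hd : ((extM B e 1).map (eval (x m))).det ≠ 0 := by
      rw [hN]
      exact Ex.extM_det h3 (by rw [det_one]; exact one_ne_zero)
    obtain ⟨π, j₀, Y, bb, k1, k2, k3, k4⟩ := hred (q m) ((extM B e 1).map (eval (x m))) _ e (t m) q1
      (Es.mn_inj h3) (fun p => hH _ _ q2 h1 h2 p hd)
      (fun i l => (hC₂ _ h1.1 i l).trans (by nlinarith [mul_le_mul_of_nonneg_left e3 c2]))
      (fun e0 => h3 (congrFun e0 e)) (fun l hl => by rw [hN]; exact Ex.extM_out _ e 1 l hl) h4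
      (by nlinarith [mul_le_mul_of_nonneg_left e3 c3]) h5
    obtain ⟨c, hc⟩ := eq_smul_nv k1.det k4
    refine ⟨(π, j₀), (Y, bb), ⟨?_, h1, h2, fun p => ?_, k2, k3, ?_⟩, c, fun e0 => h4 ?_, hc⟩
    · rw [div_le_iff₀ hγ] at q4
      rw [div_mul_eq_mul_div, div_le_iff₀ (by positivity)]
      nlinarith
    · rw [gapTwo_map, det_transpose, det_adjugate, det_permute]
      exact pow_ne_zero _ (mul_ne_zero (by simp) hd)
    · simpa only [gapTwo_map] using k1
    · rw [hc, e0, zero_smul]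
  obtain ⟨u, hu⟩ := Ultrafilter.eventually_exists_iff.1 key
  obtain ⟨w, hw⟩ := hu.choice
  have k5 := seq_alg hδ (by positivity) hq (hw.mono fun m hm => hm.1) a b
  refine Set.mem_of_eq_of_mem ((germ_eq U).2 (hw.mono fun m ⟨_, c, hc, e⟩ => ?_)) k5
  rw [e, Pi.smul_apply, Pi.smul_apply, smul_eq_mul, smul_eq_mul, mul_div_mul_left _ _ hc]

omit [NumberField k] [Fintype ι] in
theorem gapA_aeval_mem {F : Type} [Field F] [Algebra k F] (y : ι → F) (f : MvPolynomial ι k) :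
    aeval y f ∈ Cl k (Set.range y) := by
  have h : aeval y f ∈ Algebra.adjoin k (Set.range y) := by
    rw [Algebra.adjoin_range_eq_range_aeval]
    exact ⟨f, rfl⟩
  exact isAlgebraic_algebraMap (⟨_, h⟩ : Algebra.adjoin k (Set.range y))

omit [NumberField k] in
theorem gapA_germ_div (f g : α → k) : (germ U fun m => f m / g m) = germ U f / germ U g := rfl

/- `exists_ker` at `gv U x` (`aeval_germ`, `gv_dot`); `gv U z = B *ᵥ t`, let `t m` represent `t`.
`r = 0` contradicts `z ≠ 0`; for `r = 1` the ratio is `B b 0 / B a 0` at `gv U x`; `gap_two`. -/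
theorem gap_alg_fin {n : ℕ} {Cs : Finset (Fin n → MvPolynomial ι k)} (hγ : 0 < γ)
    (hq : Tendsto q U atTop) {z : α → Fin n → k}
    (h : ∀ᶠ m in U, Aff A a₀ (x m) ∧ logHeight (x m) ≤ q m ∧ Gap Cs (γ * q m) (x m) (z m))
    (a b : Fin n) : (germ U fun m => z m b / z m a) ∈ Cl k (Set.range (gv U x)) := by
  obtain ⟨r, B, e, h1, h2, h3⟩ := exists_ker (k := k) (gv U x) Cs
  have hv : ∀ {σ : Type} (u : σ → MvPolynomial ι k),
      (fun l => aeval (gv U x) (u l)) = gv U fun m l => eval (x m) (u l) :=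
    fun u => funext fun l => aeval_germ (u l) x
  obtain ⟨t, ht⟩ := h3 (gv U z) fun u hu => by
    rw [hv, gv_dot, germ_eq_zero]
    exact h.mono fun m hm => hm.2.2.orth u hu
  choose s hs using fun j => germ_surj U (t j)
  have h4 : ∀ᶠ m in U, z m = B.map (eval (x m)) *ᵥ fun j => s j m := by
    have h5 : ∀ l, ∀ᶠ m in U, z m l = (B.map (eval (x m)) *ᵥ fun j => s j m) l := fun l => by
      have h6 : t = gv U fun m j => s j m := funext fun j => (hs j).symm
      have h7 : gv U z l = (fun j => aeval (gv U x) (B l j)) ⬝ᵥ t := congrFun ht l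
      rw [hv, h6, gv_dot] at h7
      exact (germ_eq U).1 h7
    exact (eventually_all.2 h5).mono fun m hm => funext hm
  have h8 : ∀ᶠ m in U, ∀ u ∈ Cs, ∀ j, eval (x m) ((u ᵥ* B) j) = 0 :=
    (eventually_all_finset Cs).2 fun u hu => eventually_all.2 fun j => by
      have h9 := h2 u hu j
      rwa [aeval_germ, germ_eq_zero] at h9
  rw [aeval_germ, germ_ne_zero] at h1
  rcases Nat.lt_or_ge r 2 with hr | hr
  · interval_cases r
    · obtain ⟨m, h5, h6⟩ := (h.and h4).exists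
      refine (h5.2.2.ne ?_).elim
      rw [h6]
      funext l
      simp [mulVec, dotProduct]
    · have h5 : (germ U fun m => z m b / z m a) =
          aeval (gv U x) (B b 0) / aeval (gv U x) (B a 0) := by
        rw [aeval_germ, aeval_germ, ← gapA_germ_div, germ_eq]
        refine (h.and h4).mono fun m hm => ?_
        have h6 : ∀ l, z m l = eval (x m) (B l 0) * s 0 m := fun l => by
          rw [hm.2]
          simp [mulVec, dotProduct]
        have h7 : s 0 m ≠ 0 := fun h0 => hm.1.2.2.ne (funext fun l => by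
          rw [h6, h0, mul_zero, Pi.zero_apply])
        rw [h6, h6, mul_div_mul_right _ _ h7]
      rw [h5]
      exact div_mem (gapA_aeval_mem _ _) (gapA_aeval_mem _ _)
  · have h5 : (germ U fun m => z m b / z m a) =
        germ U fun m => (B.map (eval (x m)) *ᵥ fun j => s j m) b /
          (B.map (eval (x m)) *ᵥ fun j => s j m) a :=
      (germ_eq U).2 (h4.mono fun m hm => by rw [← hm])
    rw [h5]
    refine gap_two (A := A) (a₀ := a₀) hr B e hγ hq
      ((h.and (h4.and (h8.and h1))).mono fun m hm => ?_) a b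
    obtain ⟨⟨k1, k2, k3⟩, k4, k5, k6⟩ := hm
    rw [← k4]
    refine ⟨k1, k2, by rwa [Es.mn_map], k3.ne, fun t' ht' => k3.gap _ (fun u hu => ?_) ht'⟩
    rw [dotProduct_comm, dotProduct_mulVec]
    have h6 : (fun l => eval (x m) (u l)) ᵥ* B.map (eval (x m)) = 0 := funext fun j => by
      rw [Pi.zero_apply, ← k5 u hu j, RingHom.map_vecMul]
      rfl
    rw [h6, zero_dotProduct]

variable [Fintype κ]

/- Transport along `Fintype.equivFin κ` (`logHeight_comp_equiv`). -/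
theorem gap_alg {Cs : Finset (κ → MvPolynomial ι k)} (hγ : 0 < γ) (hq : Tendsto q U atTop)
    {z : α → κ → k}
    (h : ∀ᶠ m in U, Aff A a₀ (x m) ∧ logHeight (x m) ≤ q m ∧ Gap Cs (γ * q m) (x m) (z m))
    (a b : κ) : (germ U fun m => z m b / z m a) ∈ Cl k (Set.range (gv U x)) := by
  classical
  let σ := Fintype.equivFin κ
  have key := gap_alg_fin (A := A) (a₀ := a₀) (x := x) (Cs := Cs.image fun u => u ∘ σ.symm) hγ hq
    (z := fun m => z m ∘ σ.symm) (h.mono fun m hm => ⟨hm.1, hm.2.1, ?_, ?_, ?_⟩) (σ a) (σ b)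
  · simpa only [Function.comp_apply, Equiv.symm_apply_apply] using key
  · intro h0
    refine hm.2.2.ne (funext fun l => ?_)
    simpa only [Function.comp_apply, Equiv.symm_apply_apply, Pi.zero_apply] using
      congrFun h0 (σ l)
  · intro u hu
    obtain ⟨v, hv, rfl⟩ := Finset.mem_image.1 hu
    rw [← hm.2.2.orth v hv]
    exact comp_equiv_dotProduct_comp_equiv (z m) (fun l => eval (x m) (v l)) σ.symm
  · intro w hw hlt
    obtain ⟨c, hc⟩ := hm.2.2.gap (w ∘ σ) (fun u hu => by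
      rw [← hw _ (Finset.mem_image_of_mem _ hu),
        ← comp_equiv_dotProduct_comp_equiv (w ∘ σ) (fun l => eval (x m) (u l)) σ.symm]
      simp only [Function.comp_def, Equiv.apply_symm_apply]) (by
      rwa [logHeight_comp_equiv, ← logHeight_comp_equiv σ.symm (z m)])
    refine ⟨c, funext fun l => ?_⟩
    simpa only [Function.comp_apply, Equiv.apply_symm_apply, Pi.smul_apply] using
      congrFun hc (σ.symm l)

theorem gapF_ex {β T : Type} [Nonempty β] (S : T → β → Prop) (hS : ∀ τ, ∃ y, S τ y)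
    (hd : ∀ τ τ', ∃ σ, ∀ y, S σ y → S τ y ∧ S τ' y) :
    ∃ U : Ultrafilter β, ∀ τ, ∀ᶠ y in U, S τ y := by
  have hdir : Directed (· ≥ ·) fun τ => Filter.principal {y | S τ y} := fun τ τ' =>
    (hd τ τ').imp fun _ h =>
      ⟨principal_mono.2 fun y hy => (h y hy).1, principal_mono.2 fun y hy => (h y hy).2⟩
  have hne := iInf_neBot_of_directed hdir fun τ => principal_neBot_iff.2 (hS τ)
  exact ⟨Ultrafilter.of (⨅ τ, Filter.principal {y | S τ y}), fun τ =>
    (Ultrafilter.of_le _).trans (iInf_le _ τ) (mem_principal_self _)⟩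

omit [NumberField k] [Fintype ι] [Fintype κ] in
theorem gapF_eval {r : ℕ} (x : α → ι → k) (t : α → Fin r → k)
    (P : MvPolynomial (Fin r) (MvPolynomial ι k)) :
    eval₂ (aeval (gv U x) : MvPolynomial ι k →ₐ[k] Up U k).toRingHom (gv U t) P =
      germ U fun n => eval₂ (eval (x n)) (t n) P := by
  induction P using MvPolynomial.induction_on with
  | C f =>
    simp only [eval₂_C]
    exact aeval_germ f x
  | add p p' hp hp' =>
    simp only [eval₂_add, hp, hp', ← map_add]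
    rfl
  | mul_X p l hp =>
    simp only [eval₂_mul, eval₂_X, hp, ← map_mul]
    rfl

theorem gapF_ultra (A : AV k ι) (a₀ : ι) {r : ℕ} (Cs : Finset (κ → MvPolynomial ι k))
    (W : Matrix κ (Fin r) (MvPolynomial ι k)) (hγ : 0 < γ) (hq : Tendsto q U atTop)
    {z : α → κ → k} {t : α → Fin r → k}
    (h : ∀ᶠ m in U, Aff A a₀ (x m) ∧ logHeight (x m) ≤ q m ∧ Gap Cs (γ * q m) (x m) (z m))
    (h1 : ∀ᶠ m in U, z m ᵥ* W.map (eval (x m)) ≠ 0)
    (h2 : ∀ᶠ m in U, (z m ᵥ* W.map (eval (x m))) ⬝ᵥ t m = 0) :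
    ∃ P : MvPolynomial (Fin r) (MvPolynomial ι k), BiH A P ∧
      ∀ᶠ m in U, eval₂ (eval (x m)) (t m) P = 0 := by
  obtain ⟨a, ha⟩ : ∃ a, ∀ᶠ m in U, z m a ≠ 0 :=
    Ultrafilter.eventually_exists_iff.1 (h.mono fun m hm => Function.ne_iff.1 hm.2.2.ne)
  obtain ⟨l₀, hl₀⟩ : ∃ l, ∀ᶠ m in U, (z m ᵥ* W.map (eval (x m))) l ≠ 0 :=
    Ultrafilter.eventually_exists_iff.1 (h1.mono fun m hm => Function.ne_iff.1 hm)
  let w : α → Fin r → k := fun m => (z m a)⁻¹ • (z m ᵥ* W.map (eval (x m)))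
  have hw : ∀ l, gv U w l = ∑ b, (germ U fun m => z m b / z m a) * aeval (gv U x) (W b l) :=
    fun l => by
      simp only [aeval_germ, ← map_mul]
      rw [germ_sum]
      refine congrArg _ (funext fun m => ?_)
      simp only [w, Pi.smul_apply, smul_eq_mul, vecMul, dotProduct, Matrix.map_apply,
        Finset.mul_sum, Pi.mul_apply]
      exact Finset.sum_congr rfl fun b _ => by ring
  have hx : ∀ f : MvPolynomial ι k, aeval (gv U x) f ∈ Cl k (Set.range (gv U x)) := fun f => by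
    induction f using MvPolynomial.induction_on with
    | C c =>
      rw [aeval_C]
      exact IntermediateField.algebraMap_mem _ c
    | add p p' hp hp' =>
      rw [map_add]
      exact add_mem hp hp'
    | mul_X p i hp =>
      rw [map_mul, aeval_X]
      exact mul_mem hp (subset_cl _ ⟨i, rfl⟩)
  obtain ⟨P, hP, h3⟩ := exists_biH (A := A) (a₀ := a₀) (x := gv U x) (w := gv U w) (t := gv U t)
    ((germ_eq U (g := fun _ => 1)).2 (h.mono fun m hm => hm.1.1))
    (fun f hf => by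
      rw [aeval_germ]
      exact germ_eq_zero.2 (h.mono fun m hm => hm.1.2 f hf))
    (Function.ne_iff.2 ⟨l₀, germ_ne_zero.2 ((ha.and hl₀).mono fun m hm =>
      mul_ne_zero (inv_ne_zero hm.1) hm.2)⟩)
    (fun l => by
      rw [hw]
      exact sum_mem fun b _ => mul_mem (gap_alg hγ hq h a b) (hx _))
    (by
      rw [gv_dot]
      refine germ_eq_zero.2 (h2.mono fun m hm => ?_)
      simp only [w, smul_dotProduct, hm, smul_zero])
  rw [gapF_eval] at h3
  exact ⟨P, hP, germ_eq_zero.1 h3⟩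

/- Model: `AV.gcd_part` (`Av/Fin`).  Otherwise the sets of all `(q, x, z, t)` with the hypotheses,
`Q ≤ q` and `P (x, t) ≠ 0`, for `BiH A P` and real `Q`, are nonempty and directed (`BiH.mul`,
`biH_one`); take an ultrafilter `U` below them.  `gap_alg`; with `z a ≠ 0` along `U` the vector
`w = (z / z a) ᵥ* W (x)` has entries in the closure; `exists_biH` at the germs. -/
theorem gapF (A : AV k ι) (a₀ : ι) {r : ℕ} (Cs : Finset (κ → MvPolynomial ι k))
    (W : Matrix κ (Fin r) (MvPolynomial ι k)) (hγ : 0 < γ) :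
    ∃ (P : MvPolynomial (Fin r) (MvPolynomial ι k)) (Q : ℝ), BiH A P ∧
      ∀ (q : ℝ) (x : ι → k) (z : κ → k) (t : Fin r → k), Q ≤ q → Aff A a₀ x → logHeight x ≤ q →
        Gap Cs (γ * q) x z → z ᵥ* W.map (eval x) ≠ 0 → (z ᵥ* W.map (eval x)) ⬝ᵥ t = 0 →
        eval₂ (eval x) t P = 0 := by
  by_contra hcon
  obtain ⟨U, hU⟩ := gapF_ex (T := {τ : MvPolynomial (Fin r) (MvPolynomial ι k) × ℝ // BiH A τ.1})
    (β := ℝ × (ι → k) × (κ → k) × (Fin r → k)) (fun τ y => τ.1.2 ≤ y.1 ∧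
      ((Aff A a₀ y.2.1 ∧ logHeight y.2.1 ≤ y.1 ∧ Gap Cs (γ * y.1) y.2.1 y.2.2.1) ∧
      y.2.2.1 ᵥ* W.map (eval y.2.1) ≠ 0 ∧ (y.2.2.1 ᵥ* W.map (eval y.2.1)) ⬝ᵥ y.2.2.2 = 0) ∧
      eval₂ (eval y.2.1) y.2.2.2 τ.1.1 ≠ 0)
    (fun τ => by
      by_contra h
      refine hcon ⟨τ.1.1, τ.1.2, τ.2, fun q x z t h1 h2 h3 h4 h5 h6 => ?_⟩
      by_contra h7
      exact h ⟨(q, x, z, t), h1, ⟨⟨h2, h3, h4⟩, h5, h6⟩, h7⟩)
    (fun τ τ' => ⟨⟨(τ.1.1 * τ'.1.1, max τ.1.2 τ'.1.2), τ.2.mul τ'.2⟩, fun y hy => by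
      obtain ⟨h1, h2, h3⟩ := hy
      rw [eval₂_mul, mul_ne_zero_iff] at h3
      exact ⟨⟨(le_max_left _ _).trans h1, h2, h3.1⟩, (le_max_right _ _).trans h1, h2, h3.2⟩⟩)
  have h0 := hU ⟨(1, 0), biH_one⟩
  obtain ⟨P, hP, h1⟩ := gapF_ultra (U := U) (q := fun y => y.1) (x := fun y => y.2.1) A a₀ Cs W hγ
    (tendsto_atTop.2 fun Q => (hU ⟨(1, Q), biH_one⟩).mono fun y hy => hy.1)
    (z := fun y => y.2.2.1) (t := fun y => y.2.2.2) (h0.mono fun y hy => hy.2.1.1)
    (h0.mono fun y hy => hy.2.1.2.1) (h0.mono fun y hy => hy.2.1.2.2)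
  obtain ⟨y, h2, h3⟩ := (h1.and (hU ⟨(P, 0), hP⟩)).exists
  exact h3.2.2 h2

end Pool.Agent.Lib.MP_651af7_nt.As
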