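import Pool.Agent.Lib.MP_651af7_nt.As.Pts
import Pool.Agent.Lib.MP_651af7_nt.As.Kil
import Pool.Agent.Lib.MP_651af7_nt.As.Sv
import Pool.Agent.Lib.MP_651af7_nt.Av.GeoA3

/-! Genericity in the big ring. -/

namespace Pool.Agent.Lib.MP_651af7_nt.As

open MvPolynomial Finset Height NumberField Matrix
open Av hiding Bad
open Es (Mo IX CX mo cx GA GC Bad Pen nv vol Tame IntV Dual)
open Rt (Pl av mu)

variable {k ι κ J : Type} [Field k] [NumberField k] [Fintype ι] [Fintype κ] [DecidableEq κ]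
  [Fintype J] {g r m : ℕ} {B : AV k ι} {F : FB B g} {D : Dat k ι κ J g r m} {P : Fin m → B.Pt k}
  {𝒳 𝒯 : Fin m → B.Pt (RB k m r g κ J)}

namespace Dat

/- Apply `B.map (killCompl (eT o))`.  By `kill_rename`, `killCompl_rename_app` and `Rep.inj` the image
of `𝒳 o''` is `B.map (Algebra.ofId k _) (P o'')`, that of `𝒯 o'` is `0` for `o' ≠ o`, that of `𝒯 o` is
represented by `ϱ`.  `exists_unit_ph`, `rep_add`, `Par.gen` for `y = P o - N • P o'`,
`Rep.exists_smul`, `aeval_mul_of_hom`. -/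
theorem Ok.gen (h : D.Ok F P) (hp : D.Pts P 𝒳 𝒯) {o o' : Fin m} {N : ℕ} (ho : o ≠ o' ∨ N = 0)
    {w : ι → RB k m r g κ J} (hw : AV.Rep (𝒳 o + 𝒯 o - N • (𝒳 o' + 𝒯 o')) w) :
    Gen B.I fun a => MvPowerSeries.killCompl (eT o) (w a) := by
  set f : RB k m r g κ J →ₐ[k] MvPowerSeries (Fin g) k := MvPowerSeries.killCompl (eT o) with hf
  have hX : ∀ o'', B.map f (𝒳 o'') = B.map (Algebra.ofId k _) (P o'') := by
    intro o''
    refine ((hp.x o'').map f).inj ?_
    have e : (fun a => f (D.xi o'' (.inl a))) =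
        fun a => Algebra.ofId k (MvPowerSeries (Fin g) k) (D.xa o'' a) := by
      funext a
      rw [hf, xi, kill_rename _ _ (by rintro b ⟨c, hc⟩; simp [eT, eX] at hc)]
      rfl
    rw [e]
    exact (h.rep o'').map _
  have hT0 : ∀ o'', o ≠ o'' → B.map f (𝒯 o'') = 0 := by
    intro o'' hne
    refine ((hp.t o'').map f).inj ?_
    have e : (fun a => f (D.rh o'' a)) =
        fun a => algebraMap k (MvPowerSeries (Fin g) k) (B.o a) := by
      funext a
      rw [hf, rh, kill_rename _ _ (by rintro b ⟨c, hc⟩; simp [eT] at hc; exact hne hc.1),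
        h.par.const]
      rfl
    rw [e]
    exact AV.rep_zero
  have hT : AV.Rep (B.map f (𝒯 o)) D.ϱ := by
    have e : (fun a => f (D.rh o a)) = D.ϱ := by
      funext a
      rw [hf, rh, MvPowerSeries.killCompl_rename_app]
    exact e ▸ (hp.t o).map f
  have hN : N • B.map f (𝒯 o') = 0 := by
    rcases ho with ho | rfl
    · rw [hT0 o' ho, smul_zero]
    · exact zero_smul _ _
  have hsum : B.map f (𝒳 o + 𝒯 o - N • (𝒳 o' + 𝒯 o')) =
      B.map (Algebra.ofId k _) (P o - N • P o') + B.map f (𝒯 o) := by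
    simp only [map_sub, map_add, map_nsmul, smul_add, hX, hN]
    abel
  have hy : AV.Rep (B.map (Algebra.ofId k (MvPowerSeries (Fin g) k)) (P o - N • P o'))
      fun c => MvPowerSeries.C ((P o - N • P o').co c) := (AV.rep_co _).map _
  obtain ⟨a, b, hab⟩ := AV.exists_unit_ph hy hT
  have hG := h.par.gen (P o - N • P o') b fun e => hab.ne_zero (congrFun e a)
  have h1 := hw.map f
  rw [hsum] at h1
  obtain ⟨u, hu⟩ := (AV.rep_add hy hT hab).exists_smul h1
  intro G n hG' h0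
  refine hG G n hG' ?_
  rw [funext hu, aeval_mul_of_hom hG'] at h0
  exact (mul_eq_zero.1 h0).resolve_left (pow_ne_zero _ u.ne_zero)

/- `rep_arm`, `Ok.gen`. -/
theorem Ok.gen_arm (h : D.Ok F P) (o : Fin m) :
    Gen B.I fun a => MvPowerSeries.killCompl (eT o) (D.arm B D.a₀ (D.ty B fun _ => D.a₁) o a) := by
  obtain ⟨𝒳, 𝒯, hp⟩ := h.exists_pts
  have h1 := h.rep_arm hp o
  by_cases ho : o = D.h
  · refine h.gen hp (o' := o) (N := 0) (Or.inr rfl) ?_
    rw [zero_smul, sub_zero]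
    rw [Cf.YY, if_pos ho, ← ho] at h1
    exact h1
  · refine h.gen hp (o' := D.h) (N := 2 ^ D.j o) (Or.inl ho) ?_
    rw [Cf.YY, if_neg ho] at h1
    exact h1

/- Let `u = ph a₁ a₁ (xi o) (C o)`.  By `law` for `𝒳 o` and `0`, `ph a a₁ (xi o) (C o) = u * xi o a` and `u`
is a unit.  Put `xt o a = u⁻¹ * ty a₁ o a`; the difference of the values of `Φ a a₁` at congruent
arguments lies in the ideal (map to the quotient ring, `map_ph`).  Let `w = arm a₀ (ty a₁)`.  By `law`
for `YY o` and `2 ^ j • YY h`, `bak w o a = l o * xt o a` with `l o` a unit times the coordinate `ao` of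
`𝒳 o + 𝒯 o - (2 * 2 ^ j o) • (𝒳 h + 𝒯 h)`, which is not zero by `Ok.gen` and `X_ao_notMem`, `IK_self`
(`Av/GeoA3`).  `aeval (w o) Δ ≠ 0` by `gen_arm`.  `Van`, `pres`, `GC_scale`. -/
theorem Ok.exists_xt (h : D.Ok F P) : ∃ xt : Fin m → ι → RB k m r g κ J,
    (∀ o a, xt o a - D.xi o (.inl a) ∈
      Ideal.span (Set.range fun c => D.rh o c - MvPowerSeries.C (B.o c))) ∧
    ∀ (J' : Type) (M : Fin m → J' → Matrix κ κ (MvPolynomial ι k)) (Lw : J' → Finset (IX κ D.e))
      (c : D.Co F κ), D.Van F M Lw c → ∀ a b p, ∀ β ∈ Lw p,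
        GC c (D.Fa F a (D.ty B b)) (fun o => ((M o p).map (aeval (xt o))).adjugate) β = 0 := by
  obtain ⟨𝒳, 𝒯, hp⟩ := h.exists_pts
  have hu : ∀ o, ∃ u : (RB k m r g κ J)ˣ, ∀ a,
      B.ph a D.a₁ (fun c => D.xi o (.inl c)) (fun c => algebraMap k _ (B.o c)) =
        u * D.xi o (.inl a) := by
    intro o
    obtain ⟨u, hu⟩ := AV.law (hp.x o) AV.rep_zero ((add_zero (𝒳 o)).symm ▸ hp.x o)
      ((sub_zero (𝒳 o)).symm ▸ hp.x o)
    exact ⟨u, fun a => by rw [hu, h.xi_one, mul_one]⟩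
  choose u hu using hu
  refine ⟨fun o a => ((u o)⁻¹ : (RB k m r g κ J)ˣ) * D.ty B (fun _ => D.a₁) o a, fun o a => ?_,
    fun J' M Lw c hc a b p β hβ => ?_⟩
  · have e : D.xi o (.inl a) = ((u o)⁻¹ : (RB k m r g κ J)ˣ) *
        B.ph a D.a₁ (fun c => D.xi o (.inl c)) (fun c => algebraMap k _ (B.o c)) := by
      rw [hu, Units.inv_mul_cancel_left]
    rw [e, ← mul_sub]
    refine Ideal.mul_mem_left _ _ ?_
    rw [← Ideal.Quotient.eq, ← Ideal.Quotient.mkₐ_eq_mk k, ty, AV.map_ph, AV.map_ph]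
    congr 1
    funext c
    rw [Ideal.Quotient.mkₐ_eq_mk, Ideal.Quotient.eq]
    exact Ideal.subset_span ⟨c, rfl⟩
  · have hw := h.rep_arm hp
    have hl : ∀ o, ∃ l : RB k m r g κ J, l ≠ 0 ∧ ∀ a,
        D.bak B (D.arm B D.a₀ (D.ty B fun _ => D.a₁)) o a =
          l * (((u o)⁻¹ : (RB k m r g κ J)ˣ) * D.ty B (fun _ => D.a₁) o a) := by
      intro o
      by_cases ho : o = D.h
      · refine ⟨u o, (u o).ne_zero, fun a => ?_⟩
        rw [Units.mul_inv_cancel_left, Cf.bak, if_pos ho, Cf.arm, if_pos rfl, ho]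
      · have h1 := hw o
        have h2 := hw D.h
        rw [Cf.YY, if_neg ho] at h1
        rw [Cf.YY, if_pos rfl] at h2
        have h3 : AV.Rep (𝒳 o + 𝒯 o - 2 ^ D.j o • (𝒳 D.h + 𝒯 D.h) + 2 ^ D.j o • (𝒳 D.h + 𝒯 D.h))
            (D.ty B (fun _ => D.a₁) o) := by
          rw [sub_add_cancel]
          exact h.rep_ty hp o
        have h4 : AV.Rep (𝒳 o + 𝒯 o - 2 ^ D.j o • (𝒳 D.h + 𝒯 D.h) - 2 ^ D.j o • (𝒳 D.h + 𝒯 D.h))
            (𝒳 o + 𝒯 o - (2 * 2 ^ D.j o) • (𝒳 D.h + 𝒯 D.h)).co := by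
          rw [two_mul, add_smul, ← sub_sub]
          exact AV.rep_co _
        obtain ⟨e, he⟩ := AV.law h1 (h2.dbn (D.j o)) h3 h4
        have h5 : (𝒳 o + 𝒯 o - (2 * 2 ^ D.j o) • (𝒳 D.h + 𝒯 D.h)).co B.ao ≠ 0 := by
          intro h0
          have hG := h.gen hp (Or.inl ho) (AV.rep_co
            (𝒳 o + 𝒯 o - (2 * 2 ^ D.j o) • (𝒳 D.h + 𝒯 D.h)))
          refine B.X_ao_notMem k ?_
          rw [B.IK_self]
          refine hG _ 1 (isHomogeneous_X k _) ?_
          rw [aeval_X, h0, map_zero]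
        refine ⟨e * (𝒳 o + 𝒯 o - (2 * 2 ^ D.j o) • (𝒳 D.h + 𝒯 D.h)).co B.ao * u o,
          mul_ne_zero (mul_ne_zero e.ne_zero h5) (u o).ne_zero, fun a => ?_⟩
        rw [Cf.bak, if_neg ho, he, mul_assoc _ (u o : RB k m r g κ J), Units.mul_inv_cancel_left]
        ring
    choose l hl0 hl using hl
    have hΔ : ∀ o, aeval (D.arm B D.a₀ (D.ty B fun _ => D.a₁) o) F.Δ ≠ 0 := by
      intro o h0
      refine F.notMem (h.gen_arm o _ _ F.hΔ ?_)
      rw [← comp_aeval, AlgHom.comp_apply, h0, map_zero]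
    have : IsDomain (RB k m r g κ J) := NoZeroDivisors.to_isDomain _
    have h0 := hc (RB k m r g κ J) _ _ l (fun o => (hw o).zero) hΔ hl0 hl p β hβ
    obtain ⟨U, hU, -⟩ := h.pres a b
    rw [Es.GC_scale c U hU]
    exact mul_eq_zero_of_right _ h0

/- A derivation that kills `xi o`, `rh o`, `xi h`, `rh h` kills `Fa .. o t` (`der_aeval_eq_zero`). -/
theorem der_Fa_zero (E : Derivation k (RB k m r g κ J) (RB k m r g κ J)) (a b : Fin m → ι)
    (o : Fin m) (h1 : ∀ o', o' = o ∨ o' = D.h → ∀ c, E (D.xi o' (.inl c)) = 0 ∧ E (D.rh o' c) = 0)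
    (t : F.T (D.n o)) : E (D.Fa F a (D.ty B b) o t) = 0 := by
  have hph : ∀ (p q : ι) (v w : ι → RB k m r g κ J), (∀ c, E (v c) = 0) → (∀ c, E (w c) = 0) →
      E (B.ph p q v w) = 0 := fun p q v w hv hw =>
    der_aeval_eq_zero E E.map_algebraMap (fun s => by
      rcases s with s | s
      · exact hv s
      · exact hw s) _
  have hty : ∀ o', o' = o ∨ o' = D.h → ∀ c, E (D.ty B b o' c) = 0 := fun o' ho' c =>
    hph _ _ _ _ (fun c => (h1 o' ho' c).1) fun c => (h1 o' ho' c).2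
  have hdb : ∀ j c, E (B.dbn (D.ty B b D.h) j c) = 0 := by
    intro j
    induction j with
    | zero => exact hty _ (Or.inr rfl)
    | succ j ih => exact fun c => hph _ _ _ _ ih ih
  refine der_aeval_eq_zero E E.map_algebraMap (fun c => ?_) _
  unfold Cf.arm
  split_ifs
  · exact hty _ (Or.inr rfl) c
  · exact hph _ _ _ _ (hty _ (Or.inl rfl)) (hdb _)

omit [NumberField k] [Fintype ι] [Fintype κ] [DecidableEq κ] [Fintype J] in
private theorem gen_pd_xi (o : Fin m) (d : NV g κ J) (o' : Fin m) (c : ι ⊕ κ) :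
    MvPowerSeries.pderiv k (Sum.inr (o, d) : VV m r g κ J) (D.xi o' c) = 0 :=
  pderiv_rename_of_notMem _ _ (by rintro ⟨s, hs⟩; exact Sum.inl_ne_inr hs)

omit [NumberField k] [Fintype ι] [Fintype κ] [DecidableEq κ] [Fintype J] in
private theorem gen_pd_rh (o : Fin m) (d : NV g κ J) (o' : Fin m) (c : ι)
    (h : ∀ s, (o', Sum.inl s) ≠ (o, d)) :
    MvPowerSeries.pderiv k (Sum.inr (o, d) : VV m r g κ J) (D.rh o' c) = 0 :=
  pderiv_rename_of_notMem _ _ (by rintro ⟨s, hs⟩; exact h s (Sum.inr_injective hs))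

omit [NumberField k] [Fintype ι] in
private theorem gen_pd_yp (o : Fin m) (l : κ) (o' : Fin m) (l' : κ) :
    MvPowerSeries.pderiv k (Sum.inr (o, .inr (.inl l)) : VV m r g κ J) (D.yp o' l') =
      if (o, l) = (o', l') then 1 else 0 := by
  unfold yp
  simp only [map_add, map_sum, Derivation.leibniz, MvPowerSeries.pderiv_C, smul_zero, zero_add]
  rw [sum_eq_zero fun j _ => by rw [MvPowerSeries.pderiv_X_of_ne Sum.inl_ne_inr, smul_zero],
    sum_eq_zero fun j _ => by rw [MvPowerSeries.pderiv_X_of_ne (by simp), smul_zero], zero_add,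
    add_zero]
  split_ifs with h
  · obtain ⟨rfl, rfl⟩ := Prod.mk.inj h
    exact MvPowerSeries.pderiv_X_self
  · refine MvPowerSeries.pderiv_X_of_ne fun h' => h ?_
    simp only [Sum.inr.injEq, Prod.mk.injEq, Sum.inl.injEq] at h'
    rw [h'.1, h'.2]

omit [NumberField k] [Fintype ι] in
private theorem gen_pd_yy (o : Fin m) (l : κ) (o' : Fin m) (l' : κ) :
    MvPowerSeries.pderiv k (Sum.inr (o, .inr (.inl l)) : VV m r g κ J) (D.yy o' l') =
      (if (o, l) = (o', l') then 1 else 0) -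
        if (o, D.α) = (o', l') then D.xi o (.inr l) - MvPowerSeries.C (D.z o l) else 0 := by
  unfold yy
  rw [map_sub, gen_pd_yp]
  congr 1
  by_cases hl : l' = D.α
  · rw [if_pos hl, map_sum]
    simp only [Derivation.leibniz, map_sub, gen_pd_xi, MvPowerSeries.pderiv_C, sub_zero,
      add_zero, gen_pd_yp, smul_eq_mul, mul_ite, mul_one, mul_zero]
    by_cases ho : o = o'
    · subst ho
      simp [hl]
    · simp [ho]
  · rw [if_neg hl, map_zero, if_neg fun h => hl (Prod.mk.inj h).2.symm]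

/- `E o l = ∂ζ (o, l) + (xi o (inr l) - C (z o l)) • ∂ζ (o, α)`; `xi_α`, `z_α`,
`pderiv_rename_of_notMem`. -/
theorem Ok.exists_dual (h : D.Ok F P) :
    ∃ E : Fin m → κ → Derivation k (RB k m r g κ J) (RB k m r g κ J),
      (∀ o l o' l', E o l (D.yy o' l') = if (o, l) = (o', l') then 1 else 0) ∧
      ∀ o l o', (∀ c, E o l (D.xi o' c) = 0) ∧ ∀ c, E o l (D.rh o' c) = 0 := by
  refine ⟨fun o l => MvPowerSeries.pderiv k (Sum.inr (o, .inr (.inl l)) : VV m r g κ J) +
    (D.xi o (.inr l) - MvPowerSeries.C (D.z o l)) •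
      MvPowerSeries.pderiv k (Sum.inr (o, .inr (.inl D.α)) : VV m r g κ J), fun o l o' l' => ?_,
    fun o l o' => ⟨fun c => ?_, fun c => ?_⟩⟩
  · rw [Derivation.add_apply, Derivation.smul_apply, gen_pd_yy, gen_pd_yy, h.xi_α, h.z_α, map_one,
      sub_self, ite_self, sub_zero, smul_eq_mul, mul_ite, mul_one, mul_zero, sub_add_cancel]
  · rw [Derivation.add_apply, Derivation.smul_apply, gen_pd_xi, gen_pd_xi, smul_zero, add_zero]
  · rw [Derivation.add_apply, Derivation.smul_apply, gen_pd_rh _ _ _ _ (by simp),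
      gen_pd_rh _ _ _ _ (by simp), smul_zero, add_zero]

/- `SV_eq_GA`, `mono_indep` with `exists_dual` and `der_Fa_zero` show that all `GA c Fa α` vanish;
`prod_indep` with `e = eT`: `map_Fa`, `gen_arm`, `φ_hom`, `φ_indep` give the independence in one block,
`der_Fa_zero` and `pderiv_rename_of_notMem` the hypothesis `hd`. -/
theorem Ok.ff_ne_zero (h : D.Ok F P) {c : D.Co F κ} (hc : c ≠ 0) : D.ff F c ≠ 0 := by
  intro h0
  obtain ⟨E, hE, hE'⟩ := h.exists_dual
  rw [ff, FF, SV_eq_GA] at h0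
  have hGA := mono_indep E hE (a := fun α => GA c (D.Fa F D.a₀ (D.ty B fun _ => D.a₁)) α)
    (fun o l α => ?_) h0
  · have hli : LinearIndependent k fun t : ∀ o, F.T (D.n o) =>
        ∏ o, D.Fa F D.a₀ (D.ty B fun _ => D.a₁) o (t o) := by
      refine prod_indep D.h eT (fun o => ?_) fun o o' h1 h2 t a => ?_
      · rw [Fintype.linearIndependent_iff]
        intro u hu
        have h3 := F.φ_indep (n := D.n o) u (h.gen_arm o _ (D.n o) ?_ ?_)
        · exact congrFun h3
        · refine IsHomogeneous.sum _ _ _ fun t _ => ?_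
          simpa using (isHomogeneous_C ι (u t)).mul (F.φ_hom (h.em o).1 t)
        · rw [← hu, map_sum]
          refine sum_congr rfl fun t _ => ?_
          rw [map_mul, aeval_C, Algebra.smul_def, Cf.Fa, ← AlgHom.comp_apply, comp_aeval]
      · refine der_Fa_zero _ _ _ _ (fun o'' ho'' c => ⟨gen_pd_xi _ _ _ _, gen_pd_rh _ _ _ _ ?_⟩) _
        intro s hs
        have h3 : o'' = o' := (Prod.mk.inj hs).1
        rcases ho'' with h4 | h4
        · exact h1 (h3.symm.trans h4)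
        · exact h2 (h3.symm.trans h4)
    apply hc
    funext τ
    have h4 := Fintype.linearIndependent_iff.mp hli
      (fun t => ((c fun o => (t o, (τ o).2) : ℤ) : k)) (by
        have h5 := congrFun hGA fun o => (τ o).2
        rw [Pi.zero_apply, GA] at h5
        rw [← h5]
        refine sum_congr rfl fun t _ => ?_
        rw [Algebra.smul_def, map_intCast]) fun o => (τ o).1
    exact_mod_cast h4
  · rw [GA, map_sum]
    refine sum_eq_zero fun t _ => ?_
    have h1 : E o l (∏ i, D.Fa F D.a₀ (D.ty B fun _ => D.a₁) i (t i)) = 0 := by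
      refine prod_induction _ (fun x => E o l x = 0) (fun x y hx hy => ?_) (E o l).map_one_eq_zero
        fun i _ => der_Fa_zero _ _ _ _ (fun o' _ c => ⟨(hE' o l o').1 _, (hE' o l o').2 _⟩) _
      rw [Derivation.leibniz, hx, hy, smul_zero, smul_zero, add_zero]
    rw [Derivation.leibniz, h1, Derivation.map_intCast, smul_zero, smul_zero, add_zero]

end Dat

end Pool.Agent.Lib.MP_651af7_nt.As
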