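import Pool.Agent.Lib.MP_651af7_nt.As.Gen
import Pool.Agent.Lib.MP_651af7_nt.Av.ELoc

/-! Local estimates outside the chosen places. -/

namespace Pool.Agent.Lib.MP_651af7_nt.As

open MvPolynomial Finset Height NumberField Matrix
open Av hiding Bad
open Es (Mo IX CX mo cx GA GC Bad Pen nv vol Tame IntV Dual)
open Rt (Pl av mu)

variable {k ι κ J : Type} [Field k] [NumberField k] [Fintype ι] [Fintype κ] [DecidableEq κ]
  [Fintype J] {g r m : ℕ} {B : AV k ι} {F : FB B g} {D : Dat k ι κ J g r m} {P : Fin m → B.Pt k}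
  {c : D.Co F κ} {μ : Fin m × Fin r →₀ ℕ} {σ : Fin m × κ →₀ ℕ} {ν : Fin m → ℕ}
  {Ψ : MvPolynomial (Fin m × NV g κ J) k} {v : AbsoluteValue k ℝ} {q : Fin m → ℝ} {q' : ℝ}

namespace Dat

/-- Radii of convergence at the place `v`. -/
structure Rad (D : Dat k ι κ J g r m) (v : AbsoluteValue k ℝ) (q : Fin m → ℝ) (q' : ℝ) : Prop where
  ξ : ∀ o a, Geo v (q o) (D.ξ o a)
  ϱ : ∀ a, Geo v q' (D.ϱ a)
  one : ∀ o, 1 ≤ q o
  one' : 1 ≤ q'

private theorem loc_add {R : Type} [CommRing R] {na : Prop} (S : SN R na) {f g : R} {s M : ℝ}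
    (hs : E na 2 ≤ s) (hM : 0 ≤ M) (hf : S.N (f - g) ≤ M) (hg : S.N g ≤ M) : S.N f ≤ s * M := by
  have h := S.add_le (s := 1) (t := 1) (M := M) (f := f - g) (g := g) (by rwa [E_one, one_mul])
    (by rwa [E_one, one_mul])
  rw [sub_add_cancel, one_add_one_eq_two] at h
  exact h.trans (mul_le_mul_of_nonneg_right hs hM)

private theorem loc_nm (h : D.Ok F P) (v : AbsoluteValue k ℝ) (o : Fin m) : 1 ≤ nm v (D.xa o) := by
  simpa [h.xa_one o] using le_nm v (D.xa o) D.a₁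

/- `S.N = serN (absSN v) t μ` (`exists_serSN`, `SN.Ov.ser`, `coeff_le_serN`, `serN_rename_sub`); for `X s`
compare `enrm_serC`.  `xi ≤ s * nm`, `rh ≤ s ^ 2` (`SN.add_le`, `1 ≤ nm`), `ph_le`.  Compare `exists_loc`
(`Av/ELoc`). -/
theorem Ok.exists_sn (h : D.Ok F P) (hq : D.Rad v q q') {γ : Fin m → ℝ} {γ' : ℝ}
    (h0 : ∀ o, 0 ≤ γ o) (h1 : ∀ o, γ o ≤ 1) (h0' : 0 ≤ γ') (h1' : γ' ≤ 1) {t : VV m r g κ J → ℝ}
    (ht : ∀ s, 0 ≤ t s) (hX : ∀ o a, t (eX o a) * q o ≤ γ o) (hT : ∀ o a, t (eT o a) * q' ≤ γ')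
    (μ : VV m r g κ J →₀ ℕ) : ∃ S : SN (RB k m r g κ J) (IsNonarchimedean v), S.Ov v ∧
      (∀ f, v (MvPowerSeries.coeff μ f) * wt t μ ≤ S.N f) ∧
      (∀ s, S.N (MvPowerSeries.X s) ≤ t s) ∧
      (∀ o a, S.N (D.xi o a - MvPowerSeries.C (D.x o a)) ≤ γ o) ∧
      (∀ o a, S.N (D.rh o a - MvPowerSeries.C (B.o a)) ≤ γ') ∧
      ∀ b o a, S.N (D.ty B b o a) ≤ F.s v ^ 7 * nm v (D.xa o) ^ 2 := by
  classical
  obtain ⟨S, hS⟩ := exists_serSN (absSN v) ht μ
  have hO : S.Ov v := (absSN_ov v).ser ht hS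
  have hC : ∀ c, S.N (MvPowerSeries.C c) ≤ v c := fun c => hS ▸ serN_C (absSN v) ht c
  have a1 : ∀ o a, S.N (D.xi o a - MvPowerSeries.C (D.x o a)) ≤ γ o := fun o a => by
    rw [hS]
    exact serN_rename_sub (absSN v) (eX o) ht (D.ξ o a) (zero_le_one.trans (hq.one o)) (h0 o) (h1 o)
      (hq.ξ o a) (hX o)
  have a2 : ∀ o a, S.N (D.rh o a - MvPowerSeries.C (B.o a)) ≤ γ' := fun o a => by
    rw [hS, ← h.par.const]
    exact serN_rename_sub (absSN v) (eT o) ht (D.ϱ a) (zero_le_one.trans hq.one') h0' h1'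
      (hq.ϱ a) (hT o)
  refine ⟨S, hO, fun f => hS ▸ coeff_le_serN (absSN v) ht f le_rfl, fun s => ?_, a1, a2,
    fun b o a => ?_⟩
  · rw [hS]
    refine enrm_single (ht s) (Finsupp.single s 1) fun ν _ => ?_
    rw [MvPowerSeries.coeff_X]
    split_ifs with e
    · refine Or.inr ⟨e, ?_⟩
      rw [e, wt_single, pow_one]
      exact mul_le_of_le_one_left (ht s) (absSN v).one
    · exact Or.inl (by rw [(absSN v).zero, zero_mul])
  · have hs := F.sz v
    have s1 := F.one_le v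
    have n1 := loc_nm h v o
    exact (hO.ph_le hs
      (fun c => loc_add S hs.two (by linarith) ((a1 o (.inl c)).trans ((h1 o).trans n1))
        ((hC _).trans (le_nm v (D.xa o) c)))
      (fun c => loc_add S hs.two (by linarith) ((a2 o c).trans (h1'.trans s1))
        ((hC _).trans (hs.o c))) a (b o)).trans (le_of_eq (by ring))

/- Choose `b o`, `a o` where the maxima are attained (`exists_nm`); `pres`, `SV_scale`,
`coeff_mul_of_min`. -/
theorem Ok.exists_ab (h : D.Ok F P) (v : AbsoluteValue k ℝ) : ∃ (a b : Fin m → ι)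
    (U : RB k m r g κ J), (∀ c, D.FF F c a b = U * D.ff F c) ∧
      v (MvPowerSeries.constantCoeff U) =
        (∏ o, nm v (D.xa o) ^ D.dg o) * ∏ o ∈ univ.erase D.h, nm v (D.sm o) ^ D.n o := by
  have : Nonempty ι := ⟨B.ao⟩
  choose b hb using fun o => exists_nm v (D.xa o)
  choose a ha using fun o => exists_nm v (D.sm o)
  obtain ⟨U, h1, h2⟩ := h.pres a b
  refine ⟨a, b, ∏ o, U o, fun c => SV_scale c U h1 _, ?_⟩
  simp only [h2, map_mul, map_prod v, map_pow, ha, hb]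

/- The value is a sum over the exponents `α` of block degree `ν`; in the ultrametric case it is enough
to bound each term.  A term vanishes if `α` contains a variable `ζ'`.  Otherwise use `exists_sn` at
`(μ.sumElim σ).sumElim α` with `γ = γ' = 1` and radii `1 / q o` (`ξ`), `1` (`s`), `1 / q'` (`T`), `1` (`ζ`), `0`
(`ζ'`): `yp ≤ 1`, `yy ≤ 1`, `locVO`, `Fa_le`, `φ_pl`, `exists_ab`, `coeff_mul_of_min`; divide by
`∏ nm ^ dg > 0`. -/
theorem Ok.loc_O (h : D.Ok F P) (hL : Ld (D.ff F c) (μ.sumElim σ) ν Ψ) (hv : IsNonarchimedean v)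
    (hq : D.Rad v q q') (hY : ∀ o i l, v (D.Y o i l) ≤ 1) {A : Fin m → ℝ} (hA : ∀ o, 1 ≤ A o)
    {t : Fin m → Fin g → k} {y : Fin m → κ → k} (ht : ∀ o l, v (t o l) ≤ A o)
    (hy : ∀ o l, v (y o l) ≤ A o) :
    v (eval (fun p => vec (t p.1) (y p.1) 0 p.2) Ψ) *
        ∏ o ∈ univ.erase D.h, nm v (D.sm o) ^ D.n o ≤
      (∏ o, F.s v ^ (9 * D.dg o) * q o ^ bdeg μ o * (q' * A o) ^ ν o) *
        ∏ o, nm v (D.xa o) ^ D.dg o := by
  obtain ⟨a, b, U, hU, hU'⟩ := h.exists_ab v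
  have q0 : ∀ o, 0 < q o := fun o => one_pos.trans_le (hq.one o)
  have q0' : 0 < q' := one_pos.trans_le hq.one'
  have A0 : ∀ o, 0 < A o := fun o => one_pos.trans_le (hA o)
  have s0 : 0 < F.s v := one_pos.trans_le (F.one_le v)
  have n0 : ∀ o, 0 < nm v (D.xa o) := fun o => one_pos.trans_le (loc_nm h v o)
  have hp : 0 < ∏ o, nm v (D.xa o) ^ D.dg o := prod_pos fun o _ => pow_pos (n0 o) _
  obtain ⟨u, u1, u2, u3⟩ : ∃ u : NV g κ J → ℝ, (∀ l, u (.inl l) = q'⁻¹) ∧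
      (∀ l, u (.inr (.inl l)) = 1) ∧ ∀ l, u (.inr (.inr l)) = 0 :=
    ⟨Sum.elim (fun _ => q'⁻¹) (Sum.elim (fun _ => 1) fun _ => 0), fun _ => rfl, fun _ => rfl,
      fun _ => rfl⟩
  obtain ⟨w, w1, w2, w3⟩ : ∃ w : VV m r g κ J → ℝ, (∀ p, w (.inl (.inl p)) = (q p.1)⁻¹) ∧
      (∀ p, w (.inl (.inr p)) = 1) ∧ ∀ p, w (.inr p) = u p.2 :=
    ⟨Sum.elim (Sum.elim (fun p => (q p.1)⁻¹) fun _ => 1) fun p => u p.2, fun _ => rfl,
      fun _ => rfl, fun _ => rfl⟩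
  have u0 : ∀ d, 0 ≤ u d := by
    rintro (l | l | l)
    exacts [u1 l ▸ (inv_pos.2 q0').le, u2 l ▸ zero_le_one, (u3 l).ge]
  have w0 : ∀ s, 0 ≤ w s := by
    rintro ((p | p) | p)
    exacts [w1 p ▸ (inv_pos.2 (q0 _)).le, w2 p ▸ zero_le_one, w3 p ▸ u0 _]
  have u4 : ∀ o d, v (vec (t o) (y o) (0 : J → k) d) ≤ u d * (q' * A o) := by
    rintro o (l | l | l)
    · rw [u1, inv_mul_cancel_left₀ q0'.ne']
      exact ht o l
    · rw [u2, one_mul]
      exact (hy o l).trans (le_mul_of_one_le_left (A0 o).le hq.one')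
    · rw [u3, zero_mul]
      exact (map_zero v).le
  refine le_of_mul_le_mul_right ?_ hp
  rw [mul_assoc, mul_comm _ (∏ o, nm v (D.xa o) ^ D.dg o), ← hU', ← map_mul, eval_eq', sum_mul]
  refine ((absSN v).sum_le_card _ (M := (∏ o, F.s v ^ (9 * D.dg o) * q o ^ bdeg μ o *
    (q' * A o) ^ ν o) * (∏ o, nm v (D.xa o) ^ D.dg o) * ∏ o, nm v (D.xa o) ^ D.dg o)
    (mul_nonneg (mul_nonneg (prod_nonneg fun o _ => by have := q0 o; have := A0 o; positivity)
      hp.le) hp.le) fun α hα => ?_).trans (by rw [E_pos_case hv, one_mul])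
  have hα' : bdeg α = ν := funext (hL.lead.deg α hα)
  obtain ⟨S, hO, b1, b2, b3, -, b4⟩ := h.exists_sn hq (γ := fun _ => 1) (γ' := 1)
    (fun _ => zero_le_one) (fun _ => le_rfl) zero_le_one le_rfl w0
    (fun o a => (congrArg (· * q o) (w1 (o, a))).trans_le (inv_mul_cancel₀ (q0 o).ne').le)
    (fun o a => (congrArg (· * q') ((w3 (o, .inl a)).trans (u1 a))).trans_le
      (inv_mul_cancel₀ q0'.ne').le) ((μ.sumElim σ).sumElim α)
  have hC : ∀ c, S.N (MvPowerSeries.C c) ≤ v c := hO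
  have ad : ∀ {f g}, S.N f ≤ 1 → S.N g ≤ 1 → S.N (f + g) ≤ 1 := fun h1 h2 =>
    (S.add_na hv _ _).trans (max_le h1 h2)
  have sm : ∀ {I : Type} (s : Finset I) (f : I → RB k m r g κ J), (∀ i, S.N (f i) ≤ 1) →
      S.N (∑ i ∈ s, f i) ≤ 1 := fun s f h1 => by
    simpa [E_pos_case hv] using S.sum_le_card s zero_le_one fun i _ => h1 i
  have c1 : ∀ o l, S.N (D.yp o l) ≤ 1 := fun o l =>
    ad (ad (ad ((hC _).trans (hY _ _ _)) (sm _ _ fun j => by
      simpa [w2] using S.mul_le (b2 (.inl (.inr (o, j)))) ((hC _).trans (hY o j l))))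
      ((b2 _).trans (by rw [w3, u2]))) (sm _ _ fun p =>
        (S.mul_le (b2 _) (hC _)).trans (by rw [w3, u3, zero_mul]; exact zero_le_one))
  have c2 : ∀ o l, S.N (D.yy o l) ≤ 1 := fun o l => by
    rw [yy, sub_eq_add_neg]
    refine ad (c1 o l) ?_
    rw [S.neg]
    split_ifs
    · exact sm _ _ fun l' => (S.mul_le (b3 o (.inr l')) (c1 o l')).trans (one_mul _).le
    · exact S.zero.trans_le zero_le_one
  obtain ⟨Fb, f0, f1, f2⟩ := D.toCf.Fa_le F h.em hO (F.sz v) (fun n t => F.φ_pl v t) a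
    (fun o => by have := n0 o; positivity) (b4 b)
  have d1 := (b1 _).trans (locVO S hv c f0 f1 c2)
  rw [f2, show SV c (D.toCf.Fa F a (D.ty B b)) D.yy = U * D.ff F c from hU c,
    coeff_mul_of_min hL.minT hL.minX U hα', ← (hL.lead α).1 hα'] at d1
  have d2 : v (∏ p, vec (t p.1) (y p.1) (0 : J → k) p.2 ^ α p) ≤
      wt w ((μ.sumElim σ).sumElim α) * ∏ o, q o ^ bdeg μ o * (q' * A o) ^ ν o := by
    rw [map_prod v, wt_eq, Fintype.prod_sum_type, Fintype.prod_sum_type]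
    simp only [w1, w2, w3, Finsupp.sumElim_inl, Finsupp.sumElim_inr, one_pow, prod_const_one,
      mul_one, Fintype.prod_prod_type, ← prod_mul_distrib, prod_pow_eq_pow_sum, map_pow, ← hα']
    refine prod_le_prod (fun o _ => prod_nonneg fun d _ => pow_nonneg (v.nonneg _) _) fun o _ => ?_
    rw [mul_mul_mul_comm, bdeg, ← mul_pow, inv_mul_cancel₀ (q0 o).ne', one_pow, one_mul, bdeg,
      ← prod_pow_eq_pow_sum, ← prod_mul_distrib]
    exact prod_le_prod (fun d _ => pow_nonneg (v.nonneg _) _) fun d _ =>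
      (pow_le_pow_left₀ (v.nonneg _) (u4 o d) _).trans (mul_pow _ _ _).le
  change v _ ≤ _
  rw [mul_right_comm, mul_comm (coeff α Ψ), map_mul]
  refine (mul_le_mul_of_nonneg_left d2 (v.nonneg _)).trans ?_
  rw [← mul_assoc]
  refine (mul_le_mul_of_nonneg_right d1 (prod_nonneg fun o _ => by
    have := q0 o; have := A0 o; positivity)).trans (le_of_eq ?_)
  simp only [← prod_mul_distrib]
  exact prod_congr rfl fun o _ => by ring

end Dat

end Pool.Agent.Lib.MP_651af7_nt.As
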