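import Pool.Agent.Lib.MP_651af7_nt.As.XPre

/-! Copies of lemmas from `Es/Fin`, `Es/Main`, `Es/UFin`, `Es/UMain`, `Es/UW`. -/

namespace Pool.Agent.Lib.MP_651af7_nt.Ex

open Finset Matrix Height NumberField Pool.Agent.Lib.MP_e97e2b_nt Pool.Agent.Lib.MP_651af7_nt.Iv
  Pool.Agent.Lib.MP_651af7_nt.Vj Pool.Agent.Lib.MP_651af7_nt.Vj.P1 Pool.Agent.Lib.MP_651af7_nt.Rt
  Pool.Agent.Lib.Common.Subspace Pool.Agent.Lib.MP_651af7_nt.Es
open Pool.Agent.Lib.MP_8865d3_nt.Fa (Small Adm wt)

variable {K : Type} [Field K] [NumberField K]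

/-- Any `n` or fewer of the vectors with index in `J` are linearly independent. -/
def GenPos {n q : ℕ} (u : Fin q → Fin n → K) (J : Finset (Fin q)) : Prop :=
  ∀ I ⊆ J, I.card ≤ n → LinearIndependent K fun j : I => u j

private lemma fin_least {q : ℕ} (J : Finset (Fin q)) (f : Fin q → ℝ) (m : ℕ) (hm : m ≤ J.card) :
    ∃ I ⊆ J, I.card = m ∧ ∀ j ∈ J, j ∉ I → ∀ j' ∈ I, f j' ≤ f j := by
  induction m with
  | zero => exact ⟨∅, empty_subset _, rfl, by simp⟩
  | succ m ih =>
    obtain ⟨I, hIJ, hc, hI⟩ := ih (by omega)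
    have hne : (J \ I).Nonempty := by
      rw [← card_pos, card_sdiff_of_subset hIJ]
      omega
    obtain ⟨z, hz, hmin⟩ := exists_min_image _ f hne
    rw [mem_sdiff] at hz
    refine ⟨insert z I, insert_subset hz.1 hIJ, by rw [card_insert_of_notMem hz.2, hc], ?_⟩
    intro j hj hjI j' hj'
    rw [mem_insert, not_or] at hjI
    rcases mem_insert.1 hj' with rfl | hj'
    · exact hmin j (mem_sdiff.2 ⟨hj, hjI.2⟩)
    · exact hI j hj hjI.2 j' hj'

omit [NumberField K] in
private lemma fin_extend {n q : ℕ} (u : Fin q → Fin n → K) (d : ℕ) :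
    ∀ T : Finset (Fin q ⊕ Fin n), T.card + d = n →
      LinearIndepOn K (Sum.elim u fun i => Pi.single i (1 : K)) (T : Set (Fin q ⊕ Fin n)) →
      ∃ T' : Finset (Fin q ⊕ Fin n), T ⊆ T' ∧ T'.card = n ∧
        LinearIndepOn K (Sum.elim u fun i => Pi.single i (1 : K)) (T' : Set (Fin q ⊕ Fin n)) ∧
        ∀ j, Sum.inl j ∈ T' → Sum.inl j ∈ T := by
  classical
  induction d with
  | zero => exact fun T hT h => ⟨T, Subset.rfl, hT, h, fun _ h => h⟩
  | succ d ih =>
    intro T hT h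
    set w : Fin q ⊕ Fin n → Fin n → K := Sum.elim u fun i => Pi.single i (1 : K) with hw
    have hex : ∃ i, w (.inr i) ∉ Submodule.span K (w '' (T : Set (Fin q ⊕ Fin n))) := by
      by_contra hcon
      push Not at hcon
      have htop : Submodule.span K (w '' (T : Set (Fin q ⊕ Fin n))) = ⊤ := by
        rw [eq_top_iff, ← (Pi.basisFun K (Fin n)).span_eq, Submodule.span_le]
        rintro _ ⟨i, rfl⟩
        rw [Pi.basisFun_apply]
        exact hcon i
      have h1 := finrank_span_finset_le_card (R := K) (T.image w)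
      rw [Set.finrank, coe_image, htop, finrank_top, Module.finrank_fin_fun] at h1
      have h2 := card_image_le (s := T) (f := w)
      omega
    obtain ⟨i, hi⟩ := hex
    have hiT : Sum.inr i ∉ T := fun hm => hi (Submodule.subset_span ⟨_, hm, rfl⟩)
    obtain ⟨T', h1, h2, h3, h4⟩ := ih (insert (.inr i) T)
      (by rw [card_insert_of_notMem hiT]; omega)
      (by rw [coe_insert]; exact h.insert hi)
    refine ⟨T', (subset_insert _ _).trans h1, h2, h3, fun j hj => ?_⟩
    simpa using h4 j hj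

/- Let `I ⊆ J` consist of the `min n (card J)` indices with the least values `f j` (induction, or
`Finset.exists_subset_card_eq` with `∑ j ∈ I, f j` minimal and an exchange argument).  If `card J ≤ n` extend
the independent family by unit vectors to a basis (`exists_linearIndependent_extension`,
`LinearIndependent.extend`, or induction on `n - card I`: a proper subspace misses a unit vector).
`Matrix.linearIndependent_rows_iff_isUnit`. -/
theorem choose_rows {n q : ℕ} (u : Fin q → Fin n → K) (J : Finset (Fin q)) (h : GenPos u J)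
    (f : Fin q → ℝ) : ∃ ρ : Fin n → Fin q ⊕ Fin n, Function.Injective ρ ∧
      (Matrix.of fun l => Sum.elim u (fun i => Pi.single i 1) (ρ l)).det ≠ 0 ∧
      (∀ l j, ρ l = .inl j → j ∈ J) ∧
      ∀ j ∈ J, (∃ l, ρ l = .inl j) ∨ ∀ l, ∃ j', ρ l = .inl j' ∧ f j' ≤ f j := by
  classical
  obtain ⟨I, hIJ, hc, hI⟩ := fin_least J f (min n J.card) (min_le_right _ _)
  have hIn : I.card ≤ n := hc ▸ min_le_left _ _
  have h0 : LinearIndepOn K (Sum.elim u fun i => Pi.single i (1 : K))
      ((I.map Function.Embedding.inl : Finset (Fin q ⊕ Fin n)) : Set (Fin q ⊕ Fin n)) := by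
    rw [coe_map]
    exact LinearIndepOn.image_of_comp _ _ (h I hIJ hIn)
  obtain ⟨T, h1, h2, h3, h4⟩ := fin_extend u (n - I.card) (I.map Function.Embedding.inl)
    (by rw [card_map]; omega) h0
  let e := (T.equivFinOfCardEq h2).symm
  refine ⟨fun l => (e l).1, Subtype.val_injective.comp e.injective, ?_, ?_, ?_⟩
  · have h5 : LinearIndependent K (Matrix.of fun l =>
        Sum.elim u (fun i => Pi.single i (1 : K)) (e l).1).row :=
      LinearIndependent.comp h3 e e.injective
    exact ((Matrix.isUnit_iff_isUnit_det _).1 (Matrix.linearIndependent_rows_iff_isUnit.1 h5)).ne_zero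
  · intro l j hl
    have := h4 j (hl ▸ (e l).2)
    exact hIJ (by simpa using this)
  · intro j hj
    by_cases hjI : j ∈ I
    · left
      refine ⟨e.symm ⟨.inl j, h1 (by simpa using hjI)⟩, ?_⟩
      simp
    · right
      have h5 : I.card < J.card := card_lt_card ⟨hIJ, fun h => hjI (h hj)⟩
      have h6 : I.map Function.Embedding.inl = T :=
        eq_of_subset_of_card_le h1 (by rw [card_map]; omega)
      intro l
      have h7 := (e l).2
      simp only [← h6, mem_map] at h7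
      obtain ⟨j', hj', h8⟩ := h7
      exact ⟨j', h8.symm, hI j hj hjI j' hj'⟩

/- `det N • x = adjugate N *ᵥ (N *ᵥ x)`, `adj_le`. -/
theorem lx_other (n : ℕ) : ∃ C : ℝ, 0 ≤ C ∧ ∀ (v : AbsoluteValue K ℝ) (N : Matrix (Fin n) (Fin n) K)
    (x : Fin n → K) (c : ℝ) (l₀ : K), 0 ≤ c → Tame v c N → l₀ ≠ 0 →
    (∀ l, v ((N *ᵥ x) l) ≤ v l₀) → lx v x l₀ ≤ C * (1 + c) := by
  refine ⟨n * n.factorial + (n + 1), by positivity, ?_⟩
  intro v N x c l₀ hc hN hl h
  have hl' : 0 < v l₀ := v.pos hl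
  have h1 : ∀ i, v (x i) ≤ (n * n.factorial + 1) * Real.exp ((n + 1) * c) * v l₀ := by
    intro i
    have e1 : N.det * x i = ∑ l, N.adjugate i l * (N *ᵥ x) l := by
      have := congrFun (Matrix.mulVec_mulVec x N.adjugate N) i
      rw [Matrix.adjugate_mul, Matrix.smul_mulVec, Matrix.one_mulVec] at this
      exact this.symm
    have e2 : v N.det * v (x i) ≤ n * (n.factorial * Real.exp (n * c) * v l₀) := by
      rw [← map_mul, e1]
      refine (v.sum_le _ _).trans ?_
      refine (sum_le_card_nsmul _ _ (n.factorial * Real.exp (n * c) * v l₀) fun l _ => ?_).trans ?_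
      · rw [map_mul]
        have := adj_le hc hN.1 i l
        rw [Fintype.card_fin] at this
        exact mul_le_mul this (h l) (v.nonneg _) (by positivity)
      · simp
    have e3 : Real.exp (-c) * v (x i) ≤ n * (n.factorial * Real.exp (n * c) * v l₀) :=
      (mul_le_mul_of_nonneg_right hN.2 (v.nonneg _)).trans e2
    have e4 : v (x i) = Real.exp c * (Real.exp (-c) * v (x i)) := by
      rw [← mul_assoc, ← Real.exp_add]; simp
    have e5 : Real.exp (((n : ℝ) + 1) * c) = Real.exp c * Real.exp (n * c) := by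
      rw [← Real.exp_add]; congr 1; ring
    rw [e4, e5]
    refine (mul_le_mul_of_nonneg_left e3 (Real.exp_pos c).le).trans ?_
    have : 0 ≤ Real.exp c * Real.exp (n * c) * v l₀ := by positivity
    nlinarith
  have h2 : (⨆ i, v (x i)) / v l₀ ≤ (n * n.factorial + 1) * Real.exp ((n + 1) * c) := by
    rw [div_le_iff₀ hl']
    exact Real.iSup_le h1 (by positivity)
  have h3 : 0 ≤ (⨆ i, v (x i)) / v l₀ :=
    div_nonneg (Real.iSup_nonneg fun i => v.nonneg _) hl'.le
  have h4 : (0 : ℝ) ≤ n * n.factorial := by positivity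
  have h5 : (0 : ℝ) ≤ n * n.factorial * c := by positivity
  have h6 : (0 : ℝ) ≤ n := by positivity
  unfold lx
  rcases h3.eq_or_lt with h3 | h3
  · rw [← h3, Real.log_zero]
    positivity
  · refine (Real.log_le_log h3 h2).trans ?_
    rw [Real.log_mul (by positivity) (by positivity), Real.log_exp]
    have := Real.log_le_sub_one_of_pos (show (0 : ℝ) < n * n.factorial + 1 by positivity)
    nlinarith

theorem fin_gen_split {n q : ℕ} {ρ : Fin n → Fin q ⊕ Fin n} (hρ : Function.Injective ρ)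
    (J : Finset (Fin q)) (g : Fin q ⊕ Fin n → ℝ) {B : ℝ} (hB : 0 ≤ B) (h0 : ∀ i, 0 ≤ g (.inr i))
    (h1 : ∀ l j, ρ l = .inl j → j ∈ J) (h2 : ∀ j ∈ J, (∃ l, ρ l = .inl j) ∨ g (.inl j) ≤ B) :
    ∑ j ∈ J, g (.inl j) ≤ ∑ l, g (ρ l) + q * B := by
  classical
  have e1 : ∑ l, g (ρ l) = ∑ t, if t ∈ univ.image ρ then g t else 0 := by
    rw [← sum_filter, filter_mem_eq_inter, univ_inter, sum_image fun _ _ _ _ h => hρ h]
  have e2 : ∑ j ∈ J, g (.inl j) = ∑ j, if j ∈ J then g (.inl j) else 0 := by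
    rw [← sum_filter, filter_mem_eq_inter, univ_inter]
  have e3 : (q : ℝ) * B = ∑ _j : Fin q, B := by simp
  have e4 : 0 ≤ ∑ i : Fin n, if Sum.inr i ∈ univ.image ρ then g (.inr i) else 0 :=
    sum_nonneg fun i _ => by split_ifs; exacts [h0 i, le_rfl]
  have e5 : ∑ j, (if j ∈ J then g (.inl j) else 0) ≤
      ∑ j : Fin q, ((if Sum.inl j ∈ univ.image ρ then g (.inl j) else 0) + B) := by
    refine sum_le_sum fun j _ => ?_
    split_ifs with a1 a2 a2
    · linarith
    · rcases h2 j a1 with ⟨l, hl⟩ | h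
      · exact absurd (mem_image.2 ⟨l, mem_univ _, hl⟩) a2
      · linarith
    · obtain ⟨l, -, hl⟩ := mem_image.1 a2
      exact absurd (h1 l j hl) a1
    · linarith
  rw [e1, e2, e3, Fintype.sum_sum_type]
  rw [sum_add_distrib] at e5
  linarith

theorem main_lx {ι : Type} [Fintype ι] (v : AbsoluteValue K ℝ) {x : ι → K} (hx : x ≠ 0) {c l : K}
    (hc : c ≠ 0) (hl : l ≠ 0) : lx v x l = lx v x (c * l) + Real.log (v c) := by
  obtain ⟨i, hi⟩ := Function.ne_iff.1 hx
  have h1 : 0 < ⨆ i, v (x i) :=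
    (v.pos hi).trans_le (le_ciSup (f := fun i => v (x i)) (Finite.bddAbove_range _) i)
  unfold lx
  rw [map_mul, Real.log_div h1.ne' (v.pos hl).ne',
    Real.log_div h1.ne' (mul_pos (v.pos hc) (v.pos hl)).ne',
    Real.log_mul (v.pos hc).ne' (v.pos hl).ne']
  ring

theorem main_vol {S : Finset (FinitePlace K)} {n : ℕ} (f g : Pl S → Fin n → ℝ) (c : Pl S → ℝ)
    (h : ∀ p l, f p l ≤ g p l + c p) : vol f ≤ vol g + ∑ p, mu p * (n * c p) := by
  unfold vol
  rw [← sum_add_distrib]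
  refine sum_le_sum fun p _ => ?_
  rw [← mul_add]
  refine mul_le_mul_of_nonneg_left ?_ (Nat.cast_nonneg _)
  refine (sum_le_sum fun l _ => h p l).trans ?_
  rw [sum_add_distrib]
  simp

omit [NumberField K] in
theorem ufin_lx {n r : ℕ} (v : AbsoluteValue K ℝ) {Y : Fin n → K} {t : Fin r → K} (hY : Y ≠ 0)
    (ht : t ≠ 0) {D : ℝ} (h : |Real.log (⨆ i, v (Y i)) - Real.log (⨆ j, v (t j))| ≤ D) {l : K}
    (hl : l ≠ 0) : lx v Y l ≤ lx v t l + D ∧ lx v t l ≤ lx v Y l + D := by
  have pos : ∀ {m : ℕ} {x : Fin m → K}, x ≠ 0 → 0 < ⨆ i, v (x i) := fun {m x} hx => by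
    obtain ⟨i, hi⟩ := Function.ne_iff.1 hx
    exact (v.pos hi).trans_le (le_ciSup (f := fun i => v (x i)) (Set.finite_range _).bddAbove i)
  rw [lx, lx, Real.log_div (pos hY).ne' (v.pos hl).ne', Real.log_div (pos ht).ne' (v.pos hl).ne']
  rw [abs_le] at h
  constructor <;> linarith [h.1, h.2]

theorem UMain_ht_le {ι : Type} [Fintype ι] {x : ι → K} (hx : x ≠ 0) :
    logHeight x ≤ ∑ i, logHeight₁ (x i) := by
  simp only [← gsum_max]
  rw [← gsum_sup hx, ← gsum_sum _ fun i _ => finS_max (x i)]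
  refine pf_gsum_mono (finS_sup x) (finS_sum _ fun i _ => finS_max (x i)) fun v => ?_
  obtain ⟨i₀, -⟩ := Function.ne_iff.1 hx
  have : Nonempty ι := ⟨i₀⟩
  obtain ⟨i, hi⟩ := exists_eq_ciSup_of_finite (f := fun i => v (x i))
  have h0 : 0 < v (x i) := hi ▸ sup_pos v hx
  rw [← hi]
  exact (Real.log_le_log h0 (le_max_left _ _)).trans
    (single_le_sum (f := fun i => Real.log (max (v (x i)) 1))
      (fun i _ => pf_log_max_nonneg _) (mem_univ i))

/- Upper bound: `v.sum_le`; lower bound: `inv_le` (`Es/AApx`) for `B.submatrix e id`. -/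
theorem sup_cmp (n r : ℕ) : ∃ C : ℝ, 0 ≤ C ∧ ∀ (v : AbsoluteValue K ℝ)
    (B : Matrix (Fin n) (Fin r) K) (e : Fin r → Fin n) (t : Fin r → K) (c : ℝ), 0 ≤ c →
    (∀ i j, v (B i j) ≤ Real.exp c) → Real.exp (-c) ≤ v (mn B e) → t ≠ 0 →
    B *ᵥ t ≠ 0 ∧ |Real.log (⨆ i, v ((B *ᵥ t) i)) - Real.log (⨆ j, v (t j))| ≤ C * (1 + c) := by
  obtain ⟨C, hC0, hC⟩ := inv_le (K := K) (Fin r)
  refine ⟨C + r + 1, by positivity, fun v B e t c hc hB hm ht0 => ?_⟩
  have hM : Tame v c (B.submatrix e id) := ⟨fun i j => hB _ _, hm⟩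
  have hdet : (B.submatrix e id).det ≠ 0 := fun h => by
    have h1 := hM.2
    rw [h, map_zero] at h1
    exact absurd (Real.exp_pos (-c)) (not_lt.2 h1)
  have hl : ∀ l, (B.submatrix e id *ᵥ t) l = (B *ᵥ t) (e l) := fun l => rfl
  have hne : B *ᵥ t ≠ 0 := fun h => ht0 (Matrix.eq_zero_of_mulVec_eq_zero hdet (funext fun l => by
    rw [hl, h]
    rfl))
  refine ⟨hne, ?_⟩
  obtain ⟨i, hi⟩ := Function.ne_iff.1 hne
  obtain ⟨j, hj⟩ := Function.ne_iff.1 ht0
  have hA1 : ∀ i, v ((B *ᵥ t) i) ≤ ⨆ i, v ((B *ᵥ t) i) := fun i =>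
    le_ciSup (f := fun i => v ((B *ᵥ t) i)) (Set.finite_range _).bddAbove i
  have hT1 : ∀ j, v (t j) ≤ ⨆ j, v (t j) := fun j =>
    le_ciSup (f := fun j => v (t j)) (Set.finite_range _).bddAbove j
  set A := ⨆ i, v ((B *ᵥ t) i) with hA
  set T := ⨆ j, v (t j) with hT
  have hA0 : 0 < A := (v.pos hi).trans_le (hA1 i)
  have hT0 : 0 < T := (v.pos hj).trans_le (hT1 j)
  have h1 : Real.log T ≤ C * (1 + c) + Real.log A := by
    rw [Real.log_le_iff_le_exp hT0]
    refine Real.iSup_le (hC v c _ t _ hc hM fun l => ?_) (Real.exp_pos _).le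
    rw [Real.exp_log hA0, hl]
    exact hA1 _
  have h2 : Real.log A ≤ r + c + Real.log T := by
    rw [Real.log_le_iff_le_exp hA0]
    refine Real.iSup_le (fun k => ?_) (Real.exp_pos _).le
    rw [Real.exp_add, Real.exp_add, Real.exp_log hT0]
    have h3 : v ((B *ᵥ t) k) ≤ r * (Real.exp c * T) := by
      refine (v.sum_le (univ : Finset (Fin r)) fun l => B k l * t l).trans
        ((sum_le_card_nsmul _ _ (Real.exp c * T) fun l _ => ?_).trans_eq
          (by rw [nsmul_eq_mul, card_univ, Fintype.card_fin]))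
      rw [map_mul]
      exact mul_le_mul (hB k l) (hT1 l) (v.nonneg _) (Real.exp_pos c).le
    have h4 : (r : ℝ) ≤ Real.exp r := by linarith [Real.add_one_le_exp (r : ℝ)]
    rw [mul_assoc]
    exact h3.trans (mul_le_mul_of_nonneg_right h4 (by positivity))
  have h5 : (0 : ℝ) ≤ r * c := by positivity
  have h6 : (0 : ℝ) ≤ C * c := by positivity
  have h7 : (0 : ℝ) ≤ r := by positivity
  rw [abs_le]
  constructor <;> nlinarith

end Pool.Agent.Lib.MP_651af7_nt.Ex
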