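import Pool.Agent.Lib.MP_651af7_nt.As.GapA
import Pool.Agent.Lib.MP_651af7_nt.As.XFin

/-! The inequality on the affine part. -/

namespace Pool.Agent.Lib.MP_651af7_nt.As

open MvPolynomial Finset Height NumberField Matrix
open Av hiding Bad
open Es (Mo IX CX mo cx GA GC Bad Pen nv vol Tame IntV Dual)
open Rt (Pl av mu)

open Es (mn)
open Ex (lx extM GenPos)

variable {k ι : Type} [Field k] [NumberField k] [Fintype ι]

/- Port of `Es.main_smallU` (`Es/UMain`) with `ht_evA`. -/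
theorem main_smallA (a₀ : ι) {n r : ℕ} {S : Finset (FinitePlace k)}
    (B : Matrix (Fin n) (Fin r) (MvPolynomial ι k)) (e : Fin r → Fin n)
    (G : Pl S → Matrix (Fin r) (Fin r) (MvPolynomial ι k)) (Q : ℝ) :
    ∃ C : ℝ, ∀ (x : ι → k) (t : Fin r → k), x a₀ = 1 →
      logHeight x + logHeight (B.map (eval x) *ᵥ t) ≤ Q → mn (B.map (eval x)) e ≠ 0 →
      (∀ p l, ((G p).map (eval x) *ᵥ t) l ≠ 0) →
      vol (fun p l => lx (av p) (B.map (eval x) *ᵥ t) (((G p).map (eval x) *ᵥ t) l)) +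
        logHeight (mn (B.map (eval x))) ≤ C := by
  obtain ⟨Cc, hCc, Hc⟩ := Ex.crude (K := k) (Fin n)
  choose Ce hCe He using fun t : Pl S × Fin r × Fin n =>
    ht_evA a₀ (extM B e (G t.1) (e t.2.1) t.2.2)
  choose Cm hCm Hm using fun f : Fin r → Fin n => ht_evA a₀ (mn B f)
  set E : ℝ := ∑ t, Ce t with hE
  have hE0 : 0 ≤ E := sum_nonneg fun t _ => hCe t
  refine ⟨∑ p : Pl S, mu p * (r * (Cc * (1 + E * (1 + Q) + Q) + Cm e * (1 + Q))) +
    ∑ f, Cm f * (1 + Q), fun x t hx0 hQ hB hx => ?_⟩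
  have h1 : 0 ≤ logHeight x := logHeight_nonneg _
  have h2 : 0 ≤ logHeight (B.map (eval x) *ᵥ t) := logHeight_nonneg _
  have hmn : ∀ f, logHeight₁ (mn (B.map (eval x)) f) ≤ Cm f * (1 + Q) := fun f => by
    rw [Es.mn_map (eval x) B f]
    exact (Hm f x hx0).trans (mul_le_mul_of_nonneg_left (by linarith) (hCm f))
  have hval : ∀ p l, (extM B e (G p)).map (eval x) (e l) ⬝ᵥ (B.map (eval x) *ᵥ t) =
      mn (B.map (eval x)) e * ((G p).map (eval x) *ᵥ t) l := fun p l => by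
    rw [Ex.extM_map (eval x) B e (G p)]
    exact Ex.extM_val _ (Es.mn_inj hB) _ t l
  have := Ex.main_vol
    (fun p l => lx (av p) (B.map (eval x) *ᵥ t) (((G p).map (eval x) *ᵥ t) l)) (fun _ _ => 0)
    (fun _ => Cc * (1 + E * (1 + Q) + Q) + Cm e * (1 + Q)) fun p l => by
      have hne := mul_ne_zero hB (hx p l)
      have hX : B.map (eval x) *ᵥ t ≠ 0 := fun h0 => hne (by rw [← hval, h0, dotProduct_zero])
      rw [zero_add, Ex.main_lx (av p) hX hB (hx p l), ← hval]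
      refine add_le_add ?_ ?_
      · refine (Hc (av p) _ _ (E * (1 + Q)) (Rt.adm_av p) (mul_nonneg hE0 (by linarith))
          (fun i => ?_) (by rwa [hval])).trans ?_
        · refine (He (p, l, i) x hx0).trans ?_
          exact mul_le_mul (single_le_sum (f := Ce) (fun t _ => hCe t) (mem_univ _)) (by linarith)
            (by linarith) hE0
        · exact mul_le_mul_of_nonneg_left (by linarith) hCc
      · exact ((Real.log_le_log ((av p).pos hB) (le_max_left _ _)).trans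
          (Pool.Agent.Lib.MP_8865d3_nt.Fa.log_max_le (Rt.adm_av p) _)).trans (hmn e)
  refine add_le_add (by simpa [vol] using this) ?_
  exact (Ex.UMain_ht_le (Function.ne_iff.2 ⟨e, hB⟩)).trans (sum_le_sum fun f _ => hmn f)

/- For each `e`: `stage1` with `δ = ε`, `q = logHeight x + logHeight (B t)`; `P` is the product of the
forms of `gapF` over all `e`, `j`, `u ∈ 𝒲 j` (`biH_prod`); `main_smallA` if `q` is below one of
the thresholds. -/
theorem mainA (A : AV k ι) (a₀ : ι) {n r : ℕ} (Ls : Finset (Fin r → MvPolynomial ι k))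
    (B : Matrix (Fin n) (Fin r) (MvPolynomial ι k)) {ε : ℝ} (hε : 0 < ε) :
    ∃ P : MvPolynomial (Fin r) (MvPolynomial ι k), BiH A P ∧
      ∀ (S : Finset (FinitePlace k)) (G : Pl S → Matrix (Fin r) (Fin r) (MvPolynomial ι k)),
        (∀ p l, G p l ∈ Ls) → ∃ C : ℝ, ∀ (x : ι → k) (t : Fin r → k), Aff A a₀ x →
          eval₂ (eval x) t P ≠ 0 → mn (B.map (eval x)) ≠ 0 →
          (∀ p, ((G p).map (eval x)).det ≠ 0) → (∀ p l, ((G p).map (eval x) *ᵥ t) l ≠ 0) →
          vol (fun p l => lx (av p) (B.map (eval x) *ᵥ t) (((G p).map (eval x) *ᵥ t) l)) +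
            logHeight (mn (B.map (eval x))) ≤ r * logHeight (B.map (eval x) *ᵥ t) +
              ε * (logHeight x + logHeight (B.map (eval x) *ᵥ t)) + C := by
  classical
  choose γ 𝒲 hγ H using fun e : Fin r → Fin n => stage1 A a₀ Ls B e hε
  choose P Q hP hQ using fun (e : Fin r → Fin n) (j : Fin n)
    (u : Finset (Common.Subspace.PS n j → MvPolynomial ι k) ×
      Matrix (Common.Subspace.PS n j) (Fin r) (MvPolynomial ι k)) => gapF A a₀ u.1 u.2 (hγ e)
  refine ⟨∏ e, ∏ j, ∏ u ∈ 𝒲 e j, P e j u,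
    biH_prod _ fun e _ => biH_prod _ fun j _ => biH_prod _ fun u _ => hP e j u, fun S G hG => ?_⟩
  choose H₀ hH₀ using fun e => H e S G hG
  set Q₀ : ℝ := ∑ e, (|H₀ e| + ∑ j, ∑ u ∈ 𝒲 e j, |Q e j u|) with hQ₀
  choose C hC using fun e => main_smallA a₀ B e G Q₀
  refine ⟨∑ e, |C e|, fun x t hx hΘ hmn hdet hne => ?_⟩
  obtain ⟨e, he⟩ := Function.ne_iff.1 hmn
  have h1 : 0 ≤ logHeight x := logHeight_nonneg _
  have h2 : 0 ≤ logHeight (B.map (eval x) *ᵥ t) := logHeight_nonneg _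
  set q : ℝ := logHeight x + logHeight (B.map (eval x) *ᵥ t) with hq
  have hq0 : 0 ≤ q := add_nonneg h1 h2
  have hCe : |C e| ≤ ∑ e, |C e| :=
    single_le_sum (f := fun e => |C e|) (fun _ _ => abs_nonneg _) (mem_univ e)
  by_cases hsm : q ≤ Q₀
  · have a1 := hC e x t hx.1 hsm he hne
    have a2 := le_abs_self (C e)
    have a3 : 0 ≤ r * logHeight (B.map (eval x) *ᵥ t) := by positivity
    have a4 : 0 ≤ ε * q := by positivity
    linarith
  rw [not_le] at hsm
  have hQe : |H₀ e| + ∑ j, ∑ u ∈ 𝒲 e j, |Q e j u| ≤ Q₀ :=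
    single_le_sum (f := fun e => |H₀ e| + ∑ j, ∑ u ∈ 𝒲 e j, |Q e j u|)
      (fun _ _ => by positivity) (mem_univ e)
  have hs0 : 0 ≤ ∑ j, ∑ u ∈ 𝒲 e j, |Q e j u| := by positivity
  rcases hH₀ e q x t (by linarith [le_abs_self (H₀ e)]) hx (by linarith) (by linarith) he hdet hne
    with h | ⟨j, u, hu, z, h3, h4, h5⟩
  · linarith [abs_nonneg (C e)]
  · exfalso
    have b1 : |Q e j u| ≤ ∑ u ∈ 𝒲 e j, |Q e j u| :=
      single_le_sum (f := fun u => |Q e j u|) (fun _ _ => abs_nonneg _) hu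
    have b2 : ∑ u ∈ 𝒲 e j, |Q e j u| ≤ ∑ j, ∑ u ∈ 𝒲 e j, |Q e j u| :=
      single_le_sum (f := fun j => ∑ u ∈ 𝒲 e j, |Q e j u|) (fun _ _ => by positivity) (mem_univ j)
    have b3 := hQ e j u q x z t
      (by linarith [le_abs_self (Q e j u), abs_nonneg (H₀ e)]) hx (by linarith) h3 h4 h5
    refine hΘ ?_
    simp only [eval₂_prod]
    exact prod_eq_zero (mem_univ e) (prod_eq_zero (mem_univ j) (prod_eq_zero hu b3))

/- Port of `Es.vojtaU` (`Es/UFin`) with `mainA` (multiply by `∏ l, X l`: `biH_X`, `biH_prod`) and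
`absA_all`; there is no factor with `e j` here. -/
theorem vojtaA (A : AV k ι) (a₀ : ι) {n r q : ℕ}
    (B : Matrix (Fin n) (Fin r) (MvPolynomial ι k)) (L : Fin q → Fin r → MvPolynomial ι k) {ε : ℝ}
    (hε : 0 < ε) : ∃ P : MvPolynomial (Fin r) (MvPolynomial ι k), BiH A P ∧
      ∀ S : Finset (FinitePlace k), ∃ C : ℝ, ∀ (x : ι → k) (t : Fin r → k)
        (J : Pl S → Finset (Fin q)), Aff A a₀ x → eval₂ (eval x) t P ≠ 0 →
        mn (B.map (eval x)) ≠ 0 → (∀ p, GenPos (fun j l => eval x (L j l)) (J p)) →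
        (∀ p, ∀ j ∈ J p, ∑ l, eval x (L j l) * t l ≠ 0) →
        ∑ p, mu p * ∑ j ∈ J p, lx (av p) (B.map (eval x) *ᵥ t) (∑ l, eval x (L j l) * t l) +
          logHeight (mn (B.map (eval x))) ≤ r * logHeight (B.map (eval x) *ᵥ t) +
            ε * (logHeight x + logHeight (B.map (eval x) *ᵥ t)) + C := by
  classical
  obtain ⟨row, hrow⟩ : ∃ row : Fin q ⊕ Fin r → Fin r → MvPolynomial ι k,
      row = Sum.elim L fun i => Pi.single i 1 := ⟨_, rfl⟩
  obtain ⟨F, hF, H⟩ := mainA A a₀ (univ.image row) B (half_pos hε)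
  obtain ⟨C₁, hC₁, H1⟩ := Ex.lx_other (K := k) r
  obtain ⟨C₂, hC₂, H2⟩ := Ex.sup_cmp (K := k) n r
  refine ⟨F * ∏ l, X l, hF.mul (biH_prod univ fun l _ => biH_X l), fun S => ?_⟩
  choose Cr hCr using fun ρ : Pl S → Fin r → Fin q ⊕ Fin r =>
    H S (fun p => Matrix.of fun l => row (ρ p l)) fun p l => mem_image_of_mem _ (mem_univ _)
  obtain ⟨M, hM⟩ : ∃ M : ℝ, M = ∑ p : Pl S, (mu p : ℝ) := ⟨_, rfl⟩
  have hM0 : 0 ≤ M := hM ▸ sum_nonneg fun p _ => by positivity
  obtain ⟨D, hD⟩ : ∃ D : ℝ, D = (q + r) * C₂ + q * C₁ := ⟨_, rfl⟩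
  have hD0 : 0 ≤ D := by rw [hD]; positivity
  obtain ⟨s, hs⟩ : ∃ s : ℝ, s = ε / 2 / (M * D + 1) := ⟨_, rfl⟩
  have hs0 : 0 < s := by rw [hs]; positivity
  have hs1 : M * D * s ≤ ε / 2 := by
    have : s * (M * D + 1) = ε / 2 := by rw [hs]; field_simp
    nlinarith
  let g : ((Fin q ⊕ Fin r) × Fin r) ⊕ (Fin n × Fin r) ⊕ (Fin r → Fin n) ⊕
      (Fin r → Fin q ⊕ Fin r) → MvPolynomial ι k :=
    Sum.elim (fun z => row z.1 z.2) (Sum.elim (fun z => B z.1 z.2)
      (Sum.elim (mn B) fun ρ => (Matrix.of fun l => row (ρ l)).det))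
  obtain ⟨C₃, hC₃, H3⟩ := absA_all A a₀ S (univ.image g) hs0
  refine ⟨∑ ρ, |Cr ρ| + M * D * (1 + C₃), fun x t J hW hev hmn hG hne => ?_⟩
  have H4 := fun p z => H3 x hW p (g z) (mem_image_of_mem _ (mem_univ z))
  rw [eval₂_mul, mul_ne_zero_iff, eval₂_prod, prod_ne_zero_iff] at hev
  have ht : ∀ l, t l ≠ 0 := fun l => by simpa using hev.2 l (mem_univ _)
  choose ρ hρ1 hρ2 hρ3 hρ4 using fun p : Pl S =>
    Ex.choose_rows (fun j l => eval x (L j l)) (J p) (hG p)
      fun j => av p (∑ l, eval x (L j l) * t l)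
  have hN : ∀ p, (Matrix.of fun l => row (ρ p l)).map (eval x) =
      Matrix.of fun l => Sum.elim (fun j l => eval x (L j l)) (fun i => Pi.single i 1)
        (ρ p l) := by
    intro p
    ext l i
    simp only [Matrix.map_apply, Matrix.of_apply, hrow]
    rcases ρ p l with j | j
    · rfl
    · simp only [Sum.elim_inr, Pi.single_apply]
      split_ifs <;> simp
  obtain ⟨val, hval⟩ : ∃ val : Fin q ⊕ Fin r → k,
      val = Sum.elim (fun j => ∑ l, eval x (L j l) * t l) t := ⟨_, rfl⟩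
  have hv : ∀ p l, ((Matrix.of fun l => row (ρ p l)).map (eval x) *ᵥ t) l = val (ρ p l) := by
    intro p l
    rw [hN, hval]
    change Sum.elim (fun j l => eval x (L j l)) (fun i => Pi.single i 1) (ρ p l) ⬝ᵥ t = _
    rcases ρ p l with j | j
    · rfl
    · simp
  have hdet : ∀ p, ((Matrix.of fun l => row (ρ p l)).map (eval x)).det ≠ 0 := fun p => by
    rw [hN]; exact hρ2 p
  have hv0 : ∀ p l, val (ρ p l) ≠ 0 := by
    intro p l
    rcases h : ρ p l with j | j
    · rw [hval]; exact hne p j (hρ3 p l j h)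
    · rw [hval]; exact ht j
  have h1 := hCr ρ x t hW hev.1 hmn hdet fun p l => by rw [hv]; exact hv0 p l
  simp only [vol, hv] at h1
  have hht := logHeight_nonneg x
  obtain ⟨c, hc⟩ : ∃ c, c = s * logHeight x + C₃ := ⟨_, rfl⟩
  have hc0 : 0 ≤ c := by rw [hc]; positivity
  rw [← hc] at H4
  obtain ⟨f, hf⟩ := Function.ne_iff.1 hmn
  have ef : mn (B.map (eval x)) f = eval x (mn B f) :=
    (RingHom.map_det (eval x) (B.submatrix f id)).symm
  have hY : ∀ p : Pl S, t ≠ 0 → _ := fun p => H2 (av p) (B.map (eval x)) f t c hc0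
    (fun i j => (H4 p (.inr (.inl (i, j)))).1)
    (ef ▸ (H4 p (.inr (.inr (.inl f)))).2 (ef ▸ hf :))
  generalize B.map (eval x) *ᵥ t = Y at h1 hY ⊢
  have h2 : ∀ p, ∑ j ∈ J p, lx (av p) Y (∑ l, eval x (L j l) * t l) ≤
      ∑ l, lx (av p) Y (val (ρ p l)) + D * (1 + c) := by
    intro p
    have k1 : ∑ j ∈ J p, lx (av p) t (∑ l, eval x (L j l) * t l) ≤
        ∑ l, lx (av p) t (val (ρ p l)) + q * (C₁ * (1 + c)) := by
      refine le_trans (le_of_eq ?_) (Ex.fin_gen_split (hρ1 p) (J p) (fun z => lx (av p) t (val z))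
        (by positivity) (fun i => ?_) (hρ3 p) fun j hj => ?_)
      · simp [hval]
      · have : val (.inr i) = t i := by simp [hval]
        simp only [this, lx]
        refine Real.log_nonneg ((one_le_div ((av p).pos (ht i))).2 ?_)
        exact Finite.le_ciSup (fun i => av p (t i)) i
      · refine (hρ4 p j hj).imp id fun h => ?_
        have e1 : val (.inl j) = ∑ l, eval x (L j l) * t l := by simp [hval]
        have e2 := RingHom.map_det (eval x) (Matrix.of fun l => row (ρ p l))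
        simp only [e1]
        refine H1 (av p) ((Matrix.of fun l => row (ρ p l)).map (eval x)) t _ _ hc0
          ⟨fun i k => (H4 p (.inl (ρ p i, k))).1, ?_⟩ (hne p j hj) fun l => ?_
        · exact ((H4 p (.inr (.inr (.inr (ρ p))))).2 fun h0 => hdet p (e2.symm.trans h0)).trans_eq
            (congrArg (av p) e2)
        · obtain ⟨j', h3, h4⟩ := h l
          rw [hv, h3, hval]
          exact h4
    have k2 : ∑ l, lx (av p) t (val (ρ p l)) ≤ ∑ l, (lx (av p) Y (val (ρ p l)) + C₂ * (1 + c)) :=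
      sum_le_sum fun l _ => by
        have h0 : t ≠ 0 := fun h => ht l (congrFun h l)
        exact (Ex.ufin_lx (av p) (hY p h0).1 h0 (hY p h0).2 (hv0 p l)).2
    have k3 : ∑ j ∈ J p, lx (av p) Y (∑ l, eval x (L j l) * t l) ≤
        ∑ j ∈ J p, (lx (av p) t (∑ l, eval x (L j l) * t l) + C₂ * (1 + c)) :=
      sum_le_sum fun j hj => by
        have h0 : t ≠ 0 := fun h => hne p j hj (by simp [h])
        exact (Ex.ufin_lx (av p) (hY p h0).1 h0 (hY p h0).2 (hne p j hj)).1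
    have k4 : ∑ j ∈ J p, C₂ * (1 + c) ≤ ∑ j : Fin q, C₂ * (1 + c) :=
      sum_le_sum_of_subset_of_nonneg (subset_univ _) fun _ _ _ => by positivity
    rw [sum_add_distrib] at k2 k3
    simp only [sum_const, card_univ, Fintype.card_fin, nsmul_eq_mul] at k2 k3 k4
    rw [hD]
    linarith
  have h3 : ∑ p, mu p * ∑ j ∈ J p, lx (av p) Y (∑ l, eval x (L j l) * t l) ≤
      ∑ p, mu p * ∑ l, lx (av p) Y (val (ρ p l)) + M * (D * (1 + c)) := by
    rw [hM, sum_mul, ← sum_add_distrib]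
    refine sum_le_sum fun p _ => ?_
    rw [← mul_add]
    exact mul_le_mul_of_nonneg_left (h2 p) (by positivity)
  have h4 : Cr ρ ≤ ∑ ρ, |Cr ρ| := (le_abs_self _).trans
    (single_le_sum (f := fun ρ => |Cr ρ|) (fun _ _ => abs_nonneg _) (mem_univ ρ))
  have h5 := mul_le_mul_of_nonneg_right hs1 hht
  have h6 := mul_nonneg hε.le (logHeight_nonneg Y)
  rw [hc] at h3
  linarith

end Pool.Agent.Lib.MP_651af7_nt.As
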