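import Pool.Agent.Lib.MP_651af7_nt.As.Fa
import Pool.Agent.Lib.MP_651af7_nt.Av.ELam
import Pool.Agent.Lib.MP_651af7_nt.Av.EPres

/-! Points in the big ring. -/

namespace Pool.Agent.Lib.MP_651af7_nt.As

open MvPolynomial Finset Height NumberField Matrix
open Av hiding Bad
open Es (Mo IX CX mo cx GA GC Bad Pen nv vol Tame IntV Dual)
open Rt (Pl av mu)

variable {k ι κ J : Type} [Field k] [NumberField k] [Fintype ι] [Fintype κ] [DecidableEq κ]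
  [Fintype J] {g r m : ℕ} {B : AV k ι} {F : FB B g} {D : Dat k ι κ J g r m} {P : Fin m → B.Pt k}
  {𝒳 𝒯 : Fin m → B.Pt (RB k m r g κ J)}

omit [NumberField k] [Fintype ι] in
theorem pts_norm {σ : Type} {Q : B.Pt (MvPowerSeries σ k)} {P₀ : B.Pt k} {x : ι → k}
    (h : B.map (cc k σ) Q = P₀) (hx : AV.Rep P₀ x) {a : ι} (h1 : x a = 1) :
    ∃ z, AV.Rep Q z ∧ z a = 1 ∧ ∀ c, MvPowerSeries.constantCoeff (z c) = x c := by
  subst h
  obtain ⟨u, hu⟩ := hx.exists_smul ((AV.rep_co Q).map (cc k σ))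
  have h2 : IsUnit (Q.co a) := MvPowerSeries.isUnit_iff_constantCoeff.mpr (by
    rw [← cc_apply, hu, h1, mul_one]
    exact u.isUnit)
  obtain ⟨z, h3, h4⟩ := (AV.rep_co Q).norm h2
  obtain ⟨w, hw⟩ := hx.exists_smul (h3.map (cc k σ))
  have h5 := hw a
  rw [h4, h1, map_one, mul_one] at h5
  exact ⟨z, h3, h4, fun c => by rw [← cc_apply, hw, ← h5, one_mul]⟩

omit [NumberField k] [Fintype ι] in
theorem pts_left {R : Type} [CommRing R] [Algebra k R] [IsLocalRing R] {p q : B.Pt R}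
    {x y s : ι → R} (hx : AV.Rep p x) (hy : AV.Rep q y) (hs : AV.Rep (p + q) s) {a₀ : ι}
    (h1 : s a₀ = 1) : (∃ c, IsUnit (B.ph a₀ c x y)) ∧ ∀ a c, B.ph a c x y = s a * B.ph a₀ c x y := by
  obtain ⟨u, hu⟩ := AV.law hx hy hs (AV.rep_co _)
  obtain ⟨c, hc⟩ := (AV.rep_co (p - q)).unit
  refine ⟨⟨c, ?_⟩, fun a c => ?_⟩
  · rw [hu, h1, one_mul]
    exact u.isUnit.mul hc
  · rw [hu, hu, h1]
    ring

omit [NumberField k] [Fintype ι] in
theorem pts_right {R : Type} [CommRing R] [Algebra k R] [IsLocalRing R] {p q : B.Pt R}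
    {x y d : ι → R} (hx : AV.Rep p x) (hy : AV.Rep q y) (hd : AV.Rep (p - q) d) {b₀ : ι}
    (h1 : d b₀ = 1) : (∃ c, IsUnit (B.ph c b₀ x y)) ∧ ∀ b c, B.ph c b x y = d b * B.ph c b₀ x y := by
  obtain ⟨u, hu⟩ := AV.law hx hy (AV.rep_co _) hd
  obtain ⟨c, hc⟩ := (AV.rep_co (p + q)).unit
  refine ⟨⟨c, ?_⟩, fun a c => ?_⟩
  · rw [hu, h1, mul_one]
    exact u.isUnit.mul hc
  · rw [hu, hu, h1]
    ring

namespace Dat

theorem cc_xi (o : Fin m) (a : ι ⊕ κ) : MvPowerSeries.constantCoeff (D.xi o a) = D.x o a := by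
  exact MvPowerSeries.constantCoeff_rename _ _

theorem Ok.cc_rh (h : D.Ok F P) (o : Fin m) (a : ι) :
    MvPowerSeries.constantCoeff (D.rh o a) = B.o a := by
  exact (MvPowerSeries.constantCoeff_rename _ _).trans (h.par.const a)

theorem Ok.xi_one (h : D.Ok F P) (o : Fin m) : D.xi o (.inl D.a₁) = 1 := by
  rw [xi, h.one, map_one]

theorem Ok.xi_α (h : D.Ok F P) (o : Fin m) : D.xi o (.inr D.α) = 1 := by
  rw [xi, h.oneα, map_one]

theorem Ok.xa_one (h : D.Ok F P) (o : Fin m) : D.xa o D.a₁ = 1 := by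
  rw [xa, x, h.one, map_one]

theorem Ok.z_α (h : D.Ok F P) (o : Fin m) : D.z o D.α = 1 := by
  rw [z, x, h.oneα, map_one]

/- `exists_rep_rename`, `rep_zero`. -/
theorem Ok.exists_pts (h : D.Ok F P) : ∃ 𝒳 𝒯, D.Pts P 𝒳 𝒯 := by
  choose 𝒳 h1 h2 using fun o => AV.exists_rep_rename (eX (g := g) (κ := κ) (J := J) o) (h.rep o)
    (ξ := fun a => D.ξ o (.inl a)) (fun _ => rfl) (h.mem o)
  choose 𝒯 h3 h4 using fun o : Fin m => AV.exists_rep_rename (eT (r := r) (κ := κ) (J := J) o)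
    (AV.rep_zero (A := B) (R := k)) h.par.const h.par.mem
  exact ⟨𝒳, 𝒯, h1, h3, h2, h4⟩

theorem Ok.pts_d (h : D.Ok F P) (hp : D.Pts P 𝒳 𝒯) (o : Fin m) : ∃ d, AV.Rep (𝒳 o - 𝒯 o) d ∧
    d D.a₁ = 1 ∧ ∀ c, MvPowerSeries.constantCoeff (d c) = D.xa o c :=
  pts_norm (by rw [map_sub, hp.cx, hp.ct, sub_zero]) (h.rep o) (h.xa_one o)

theorem Ok.pts_s (h : D.Ok F P) (hp : D.Pts P 𝒳 𝒯) {o : Fin m} (ho : o ≠ D.h) : ∃ s,
    AV.Rep (𝒳 o + 𝒯 o + 2 ^ D.j o • (𝒳 D.h + 𝒯 D.h)) s ∧ s (D.a₀ o) = 1 ∧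
      ∀ c, MvPowerSeries.constantCoeff (s c) = D.sm o c :=
  pts_norm (by simp only [map_add, map_nsmul, hp.cx, hp.ct, add_zero]) (h.sum o ho).1 (h.sum o ho).2

/- `rep_add`: by `law` for `P o` and `0` the constant term of `ty a₁ o a₁` is a unit times
`xa o a₁ * xa o a₁`. -/
theorem Ok.rep_ty (h : D.Ok F P) (hp : D.Pts P 𝒳 𝒯) (o : Fin m) :
    AV.Rep (𝒳 o + 𝒯 o) (D.ty B (fun _ => D.a₁) o) := by
  obtain ⟨d, h1, h2, -⟩ := h.pts_d hp o
  obtain ⟨c, hc⟩ := (pts_right (hp.x o) (hp.t o) h1 h2).1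
  exact AV.rep_add (hp.x o) (hp.t o) hc

/- `rep_sub`, `Rep.dbn`: by `law` some `ph (a₀ o) c` has a unit constant term because of `Ok.sum`. -/
theorem Ok.rep_arm (h : D.Ok F P) (hp : D.Pts P 𝒳 𝒯) (o : Fin m) :
    AV.Rep (D.YY (fun o => 𝒳 o + 𝒯 o) o) (D.arm B D.a₀ (D.ty B fun _ => D.a₁) o) := by
  unfold Cf.YY Cf.arm
  split_ifs with ho
  · exact h.rep_ty hp D.h
  · obtain ⟨s, h1, h2, -⟩ := h.pts_s hp ho
    obtain ⟨c, hc⟩ := (pts_left (h.rep_ty hp o) ((h.rep_ty hp D.h).dbn (D.j o)) h1 h2).1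
    exact AV.rep_sub (h.rep_ty hp o) ((h.rep_ty hp D.h).dbn (D.j o)) hc

/- Let `d o` be the coordinates of `𝒳 o - 𝒯 o` with `d o a₁ = 1` and `s o` those of
`𝒳 o + 𝒯 o + 2 ^ j o • (𝒳 h + 𝒯 h)` with `s o (a₀ o) = 1` (`Rep.norm`).  Their constant terms are
`xa o`, `sm o` (`Rep.map`, `Rep.exists_smul`).  By `law`, `ty b o c = d o (b o) * ty a₁ o c` and
`arm a (ty a₁) o c = s o (a o) * arm a₀ (ty a₁) o c` for `o ≠ h`.  `Fa_mul`, `prod_sc`.  Compare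
`Cfg.pres` in `Av/EPres` and the end of `exists_str` in `Av/EStr`. -/
theorem Ok.pres (h : D.Ok F P) (a b : Fin m → ι) : ∃ U : Fin m → RB k m r g κ J,
    (∀ o t, D.Fa F a (D.ty B b) o t = U o * D.Fa F D.a₀ (D.ty B fun _ => D.a₁) o t) ∧
      MvPowerSeries.constantCoeff (∏ o, U o) =
        (∏ o, D.xa o (b o) ^ D.dg o) * ∏ o ∈ univ.erase D.h, D.sm o (a o) ^ D.n o := by
  obtain ⟨𝒳, 𝒯, hp⟩ := h.exists_pts
  choose d h1 h2 h3 using h.pts_d hp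
  have e1 : D.ty B b = fun o c => d o (b o) * D.ty B (fun _ => D.a₁) o c := by
    funext o c
    exact (pts_right (hp.x o) (hp.t o) (h1 o) (h2 o)).2 _ _
  have e2 : ∀ o, ∃ w : RB k m r g κ J, (D.arm B a (D.ty B fun _ => D.a₁) o =
      fun c => w * D.arm B D.a₀ (D.ty B fun _ => D.a₁) o c) ∧
      MvPowerSeries.constantCoeff w = if o = D.h then 1 else D.sm o (a o) := fun o => by
    by_cases ho : o = D.h
    · refine ⟨1, funext fun c => ?_, ?_⟩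
      · rw [Cf.arm, Cf.arm, if_pos ho, if_pos ho, one_mul]
      · rw [if_pos ho, map_one]
    · obtain ⟨s, h4, h5, h6⟩ := h.pts_s hp ho
      refine ⟨s (a o), funext fun c => ?_, ?_⟩
      · rw [Cf.arm, Cf.arm, if_neg ho, if_neg ho]
        exact (pts_left (h.rep_ty hp o) ((h.rep_ty hp D.h).dbn (D.j o)) h4 h5).2 (a o) c
      · rw [if_neg ho, h6]
  choose w h4 h5 using e2
  refine ⟨fun o => D.sc (fun o => d o (b o)) o ^ D.n o * w o ^ D.n o, fun o t => ?_, ?_⟩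
  · rw [e1, D.Fa_mul F fun o => (h.em o).1, Cf.Fa, Cf.Fa, h4,
      aeval_mul_of_hom (F.φ_hom (h.em o).1 t), mul_assoc]
  · rw [prod_mul_distrib, D.prod_sc, map_mul, map_prod, map_prod]
    simp only [map_pow, h3, h5]
    congr 1
    rw [← mul_prod_erase _ _ (mem_univ D.h), if_pos rfl, one_pow, one_mul]
    exact prod_congr rfl fun o ho => by rw [if_neg (ne_of_mem_erase ho)]

end Dat

end Pool.Agent.Lib.MP_651af7_nt.As
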