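import Pool.Agent.Lib.MP_651af7_nt.As.Defs
import Pool.Agent.Lib.MP_651af7_nt.Av.EAd
import Pool.Agent.Lib.MP_651af7_nt.Es.Cx

/-! Reduction to the free basis. -/

namespace Pool.Agent.Lib.MP_651af7_nt.As

open MvPolynomial Finset Height NumberField Matrix
open Av hiding Bad
open Es (Mo IX CX mo cx GA GC Bad Pen nv vol Tame IntV Dual)
open Rt (Pl av mu)

variable {k ι : Type} [Field k] [NumberField k] {B : AV k ι} {g : ℕ} (F : FB B g)

theorem FB.one_le (v : AbsoluteValue k ℝ) : 1 ≤ F.s v := F.ad.one v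

theorem red_expand {R κ : Type} [CommRing R] [Fintype κ] [DecidableEq κ] {n : ℕ}
    {Q : MvPolynomial κ R} (hom : Q.IsHomogeneous n) :
    Q = ∑ β : Mo κ n, monomial (Finsupp.equivFunOnFinite.symm β.1)
      (coeff (Finsupp.equivFunOnFinite.symm β.1) Q) := by
  ext d
  rw [coeff_sum]
  simp only [coeff_monomial]
  by_cases hd : ∑ l, d l = n
  · rw [sum_eq_single (⟨d, by simpa using hd⟩ : Mo κ n) ?_ (by simp)]
    · simp
    · intro β _ hβ
      exact if_neg fun e => hβ (Subtype.ext (funext fun l => DFunLike.congr_fun e l))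
  · rw [hom.coeff_eq_zero (by rwa [Finsupp.degree_eq_sum]), sum_eq_zero]
    intro β _
    refine if_neg fun e => hd ?_
    rw [← e]
    exact (mem_piAntidiag.1 β.2).1

theorem red_aeval {k R κ : Type} [CommRing k] [CommRing R] [Algebra k R] [Fintype κ]
    [DecidableEq κ] {n : ℕ} (β : Mo κ n) (c : k) (z : κ → R) :
    aeval z (monomial (Finsupp.equivFunOnFinite.symm β.1) c) = algebraMap k R c * mo β z := by
  rw [aeval_monomial, Finsupp.prod_fintype _ _ (by simp)]
  rfl

/- `sum_Mo`. -/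
theorem FB.φ_hom {n : ℕ} (hn : F.em ≤ n) (t : F.T n) : (F.φ t).IsHomogeneous n := by
  have h := IsHomogeneous.prod (univ : Finset (Fin (g + 1))) (fun l => F.u l ^ t.2.1 l)
    (fun l => 1 * t.2.1 l) fun l _ => (F.hu l).pow _
  simp only [one_mul] at h
  rw [Es.sum_Mo] at h
  have h2 := h.mul (F.hm t.1)
  rwa [Nat.sub_add_cancel hn] at h2

/- `exists_polSN`, `SN.prod_le`, `sum_Mo`. -/
theorem FB.φ_pl (v : AbsoluteValue k ℝ) {n : ℕ} (t : F.T n) :
    pl v (F.φ t) ≤ F.s v ^ (n + 1) := by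
  obtain ⟨S, hS⟩ := exists_polSN (σ := ι) (absSN v) (t := fun _ => 1) fun _ => zero_le_one
  have e : ∀ P : MvPolynomial ι k, pl v P = S.N P := fun P => by rw [hS, pl]
  rw [e]
  refine (S.mul_le (S.prod_le _ fun l _ => S.pow_le ((e _).ge.trans (F.su v l)) _)
    ((e _).ge.trans (F.sm v t.1))).trans ?_
  rw [prod_pow_eq_pow_sum, Es.sum_Mo, ← pow_succ]
  exact pow_le_pow_right₀ (F.one_le v) (by omega)

/- `F.indep` for `r a = ∑ β, monomial β (c (a, β))`. -/
theorem FB.φ_indep {n : ℕ} (c : F.T n → k) (h : ∑ t, C (c t) * F.φ t ∈ B.I) : c = 0 := by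
  have h1 := F.indep (fun a => ∑ β : Mo (Fin (g + 1)) (n - F.em),
    monomial (Finsupp.equivFunOnFinite.symm β.1) (c (a, β))) (by
      convert h using 1
      rw [Fintype.sum_prod_type]
      refine sum_congr rfl fun a _ => ?_
      rw [map_sum, sum_mul]
      refine sum_congr rfl fun β _ => ?_
      rw [red_aeval, mul_assoc]
      rfl)
  funext t
  have h2 := congrArg (coeff (Finsupp.equivFunOnFinite.symm t.2.1)) (congrFun h1 t.1)
  rw [coeff_sum, sum_eq_single t.2 ?_ (by simp)] at h2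
  · simpa using h2
  · intro β _ hβ
    rw [coeff_monomial]
    exact if_neg fun e => hβ (Subtype.ext (Finsupp.equivFunOnFinite.symm.injective e))

theorem FB.card_T (n : ℕ) :
    Fintype.card (F.T n) = F.ρ * Fintype.card (Mo (Fin (g + 1)) (n - F.em)) := by
  simp

/- `card_Mo_le`, `ρ ≤ 2 ^ ρ`. -/
theorem FB.card_T_le {n : ℕ} (hn : 1 ≤ n) : Fintype.card (F.T n) ≤ 2 ^ ((F.ρ + g + 1) * n) := by
  rw [F.card_T]
  refine (Nat.mul_le_mul (Nat.lt_two_pow_self (n := F.ρ)).le Es.card_Mo_le).trans ?_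
  rw [Fintype.card_fin, ← pow_mul, ← pow_add]
  refine Nat.pow_le_pow_right two_pos ?_
  have h1 : (g + 1) * (n - F.em) ≤ (g + 1) * n := Nat.mul_le_mul_left _ (Nat.sub_le _ _)
  have h2 : F.ρ ≤ F.ρ * n := Nat.le_mul_of_pos_right _ hn
  rw [add_assoc, add_mul F.ρ]
  exact add_le_add h2 h1

theorem FB.card_T_pos (n : ℕ) : 0 < Fintype.card (F.T n) := by
  rw [F.card_T]
  exact Nat.mul_pos F.pos Es.card_Mo_pos

variable [Fintype ι] {O : Type} [Fintype O] [DecidableEq O] {N : O → ℕ}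
  {P : MvPolynomial (O × ι) k}

omit [DecidableEq O] [NumberField k] [Fintype O] in
theorem red_deg (hP : MH N P) {μ : O × ι →₀ ℕ} (hμ : μ ∈ P.support) (o : O) :
    (blk μ o).degree = N o := by
  rw [Finsupp.degree_eq_sum, ← hP μ hμ]
  rfl

omit [Fintype ι] in
theorem red_one {R : Type} [CommRing R] [Algebra k R] {y : ι → R}
    (hy : ∀ f ∈ B.I, aeval y f = 0) {μ : ι →₀ ℕ} {n : ℕ} (hμ : μ.degree = n) :
    aeval y F.Δ * aeval y (monomial μ (1 : k)) = ∑ t : F.T (n + F.dl),
      algebraMap k R (coeff (Finsupp.equivFunOnFinite.symm t.2.1) (F.red μ t.1)) *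
        aeval y (F.φ t) := by
  have h := hy _ (F.rel μ)
  rw [map_sub, sub_eq_zero, map_mul] at h
  rw [h, map_sum, Fintype.sum_prod_type]
  refine sum_congr rfl fun a _ => ?_
  have h1 := F.hred μ a
  rw [hμ] at h1
  conv_lhs => rw [red_expand h1, map_sum, sum_mul, map_sum]
  refine sum_congr rfl fun β _ => ?_
  rw [red_aeval, mul_assoc, map_mul, AlgHom.commutes]
  rfl

/- For one monomial `μ`: its value is `∏ o, aeval (y o) (monomial (blk μ o) 1)`, the degree of `blk μ o`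
is `N o`; `F.rel`; `red (blk μ o) a` is the sum of its monomials of degree `N o + dl - em` (`F.hred`,
compare `Cx_expand` in `Es/Cx`); `Finset.prod_univ_sum`. -/
theorem FB.rc_expand (hP : MH N P) {R : Type} [CommRing R] [Algebra k R] {y : O → ι → R}
    (hy : ∀ o, ∀ f ∈ B.I, aeval (y o) f = 0) :
    (∏ o, aeval (y o) F.Δ) * aeval (fun p : O × ι => y p.1 p.2) P =
      ∑ ω : ∀ o, F.T (N o + F.dl), algebraMap k R (F.rc P ω) * ∏ o, aeval (y o) (F.φ (ω o)) := by
  have e : ∀ μ ∈ P.support,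
      (∏ o, aeval (y o) F.Δ) * aeval (fun p : O × ι => y p.1 p.2) (monomial μ (coeff μ P)) =
      ∑ ω : ∀ o, F.T (N o + F.dl), algebraMap k R (coeff μ P *
        ∏ o, coeff (Finsupp.equivFunOnFinite.symm (ω o).2.1) (F.red (blk μ o) (ω o).1)) *
        ∏ o, aeval (y o) (F.φ (ω o)) := by
    intro μ hμ
    have e1 : aeval (fun p : O × ι => y p.1 p.2) (monomial μ (coeff μ P)) =
        algebraMap k R (coeff μ P) * ∏ o, aeval (y o) (monomial (blk μ o) (1 : k)) := by
      rw [aeval_monomial, Finsupp.prod_fintype _ _ (by simp), Fintype.prod_prod_type]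
      congr 1
      refine prod_congr rfl fun o _ => ?_
      rw [aeval_monomial, map_one, one_mul, Finsupp.prod_fintype _ _ (by simp)]
      rfl
    rw [e1, mul_left_comm, ← prod_mul_distrib,
      prod_congr rfl fun o _ => red_one F (hy o) (red_deg hP hμ o), Finset.prod_univ_sum,
      Fintype.piFinset_univ, mul_sum]
    refine sum_congr rfl fun ω _ => ?_
    rw [prod_mul_distrib, map_mul, map_prod, mul_assoc]
  conv_lhs => rw [P.as_sum, map_sum, mul_sum]
  rw [sum_congr rfl e, sum_comm]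
  refine sum_congr rfl fun ω _ => ?_
  rw [FB.rc, map_sum, sum_mul]

/- `SN.sum_le_agg` for `absSN v`, `enrm_mul`, `coeff_le_pl`, `F.sred`. -/
theorem FB.rc_le (hP : MH N P) (v : AbsoluteValue k ℝ) (ω : ∀ o, F.T (N o + F.dl)) :
    v (F.rc P ω) ≤ pl v P * ∏ o, F.s v ^ (N o + 1) := by
  have h0 : 0 ≤ ∏ o, F.s v ^ (N o + 1) :=
    prod_nonneg fun o _ => pow_nonneg (zero_le_one.trans (F.one_le v)) _
  refine ((absSN v).sum_le_agg (s := P.support)
    (f := fun μ => v (coeff μ P) * ∏ o, F.s v ^ (N o + 1)) fun μ hμ =>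
      (absSN v).mul_le le_rfl ((absSN v).prod_le _ fun o _ => ?_)).trans
    (enrm_mul h0 (fun μ _ => mul_nonneg (v.nonneg _) (wt_nonneg (fun _ => zero_le_one) μ))
      fun μ _ => ?_)
  · have h := F.sred v (blk μ o) (ω o).1
    rw [red_deg hP hμ o] at h
    exact (coeff_le_pl v _ _).trans h
  · rw [wt_one, mul_one]
    exact le_rfl

end Pool.Agent.Lib.MP_651af7_nt.As
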