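import Pool.Agent.Lib.MP_651af7_nt.As.Fa
import Pool.Agent.Lib.MP_651af7_nt.As.Sv
import Pool.Agent.Lib.MP_651af7_nt.Av.EJc

/-! The conditions on the auxiliary section. -/

namespace Pool.Agent.Lib.MP_651af7_nt.As

open MvPolynomial Finset Height NumberField Matrix
open Av hiding Bad
open Es (Mo IX CX mo cx GA GC Bad Pen nv vol Tame IntV Dual)
open Rt (Pl av mu)

variable {k ι κ : Type} [Field k] [NumberField k] [Fintype ι] [Fintype κ] [DecidableEq κ]
  {B : AV k ι} {g : ℕ} (F : FB B g)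

namespace Cf

variable {m : ℕ} (Z : Cf m) {eM : ℕ} {M : Fin m → Matrix κ κ (MvPolynomial ι k)}

omit [NumberField k] [Fintype ι] in
theorem row_bak_mul {R : Type} [CommRing R] [Algebra k R] (s : Fin m → R) (y : Fin m → ι → R)
    (o : Fin m) (c : ι) :
    Z.bak B (fun o c => s o * y o c) o c = Z.sc s o * Z.bak B y o c := by
  unfold bak sc
  split_ifs
  · rfl
  · rw [funext (B.dbn_mul (s Z.h) (y Z.h) (Z.j o)), B.ph_mul, ← pow_mul, mul_comm (4 ^ Z.j o)]

omit [NumberField k] [Fintype ι] in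
theorem row_coeff_scale {σ : Type} (t : σ → k) (P : MvPolynomial σ k) (μ : σ →₀ ℕ) :
    coeff μ (aeval (fun p => C (t p) * X p : σ → MvPolynomial σ k) P) =
      (μ.prod fun p n => t p ^ n) * coeff μ P := by
  classical
  induction P using MvPolynomial.induction_on' with
  | monomial ν a =>
    have h : (aeval (fun p => C (t p) * X p : σ → MvPolynomial σ k)) (monomial ν a) =
        monomial ν ((ν.prod fun p n => t p ^ n) * a) := by
      rw [aeval_monomial, monomial_eq, algebraMap_eq, mul_comm _ a, C_mul, mul_assoc]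
      simp only [mul_pow, ← C_pow, Finsupp.prod, map_prod, prod_mul_distrib]
    rw [h, coeff_monomial, coeff_monomial]
    split_ifs with hh
    · rw [hh]
    · rw [mul_zero]
  | add p q hp hq => rw [map_add, coeff_add, coeff_add, hp, hq, mul_add]

theorem row_mh_of_scale {O : Type} [Fintype O] {N : O → ℕ} {P : MvPolynomial (O × ι) k}
    (h : ∀ t : O → k, aeval (fun p => C (t p.1) * X p : O × ι → MvPolynomial (O × ι) k) P =
      (∏ o, C (t o) ^ N o) * P) : MH N P := by
  classical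
  intro μ hμ
  funext o₀
  have h1 := congrArg (coeff μ) (h fun o => if o = o₀ then 2 else 1)
  rw [row_coeff_scale (fun p : O × ι => if p.1 = o₀ then (2 : k) else 1)] at h1
  simp only [← C_pow, ← map_prod, coeff_C_mul] at h1
  have h2 := mul_right_cancel₀ (mem_support_iff.mp hμ) h1
  rw [Finsupp.prod_fintype _ _ (fun _ => pow_zero _), Fintype.prod_prod_type] at h2
  simp only [prod_pow_eq_pow_sum, ite_pow, one_pow, prod_ite_eq', mem_univ, if_true,
    prod_ite_irrel, prod_const_one] at h2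
  have h3 : ((2 ^ ∑ a, μ (o₀, a) : ℕ) : k) = ((2 ^ N o₀ : ℕ) : k) := by
    push_cast
    exact h2
  exact Nat.pow_right_injective le_rfl (Nat.cast_injective h3)

/- `map_cx`, `RingHom.map_adjugate`, `map_bak`, `aeval_mul_of_hom`, `Matrix.adjugate_smul`,
`cx_smul`. -/
theorem row_eval (hM : ∀ o i j, (M o i j).IsHomogeneous eM) {R : Type} [CommRing R] [Algebra k R]
    {w x : Fin m → ι → R} {l : Fin m → R} (h : ∀ o a, Z.bak B w o a = l o * x o a)
    (β : IX κ Z.e) (τ : CX (fun o => F.T (Z.n o)) κ Z.e) :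
    aeval (fun p : Fin m × ι => w p.1 p.2) (Z.row F M β τ) =
      (∏ o, l o ^ (eM * (Fintype.card κ - 1) * Z.e o)) * ∏ o, (aeval (w o) (F.φ (τ o).1) *
        cx (τ o).2 (β o) ((M o).map (aeval (x o))).adjugate) := by
  rw [row, map_prod, ← prod_mul_distrib]
  refine prod_congr rfl fun o _ => ?_
  have h1 : ((M o).map (aeval (Z.bak B (fun o a => (X (o, a) : MvPolynomial (Fin m × ι) k)) o))).map
      (aeval (fun p : Fin m × ι => w p.1 p.2) : MvPolynomial (Fin m × ι) k →ₐ[k] R) =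
      l o ^ eM • (M o).map (aeval (x o)) := by
    ext i j
    simp only [Matrix.map_apply, Matrix.smul_apply, smul_eq_mul]
    rw [← aeval_mul_of_hom (hM o i j), ← AlgHom.comp_apply, comp_aeval]
    congr 2
    funext a
    rw [map_bak, ← h]
    simp only [aeval_X]
  have h2 := Es.map_cx
    ((aeval (fun p : Fin m × ι => w p.1 p.2) : MvPolynomial (Fin m × ι) k →ₐ[k] R) :
      MvPolynomial (Fin m × ι) k →+* R) (τ o).2 (β o)
    ((M o).map (aeval (Z.bak B (fun o a => (X (o, a) : MvPolynomial (Fin m × ι) k)) o))).adjugate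
  rw [← RingHom.mapMatrix_apply, RingHom.map_adjugate, RingHom.mapMatrix_apply, RingHom.coe_coe, h1,
    Matrix.adjugate_smul, Es.cx_smul, ← pow_mul, ← pow_mul] at h2
  rw [map_mul, aeval_rename, h2, mul_assoc eM]
  exact mul_left_comm _ _ _

/- Either: `MH N P` is `IsWeightedHomogeneous` for the weights `Pi.single p.1 1`.  Or: a polynomial
with `P (t o * X (o, a)) = ∏ t o ^ N o * P` in `k [X] [t]` satisfies `MH N` (compare
`ejc_hom_of_scale`); `bak` scales by `Z.sc t o` (`ph_mul`, `dbn_mul`), use `row_eval` with `l = Z.sc t`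
and `prod_sc` for the data `{ Z with n := fun o => E * Z.e o }`. -/
theorem row_mh (hn : ∀ o, F.em ≤ Z.n o) (hM : ∀ o i j, (M o i j).IsHomogeneous eM)
    (β : IX κ Z.e) (τ : CX (fun o => F.T (Z.n o)) κ Z.e) :
    MH (Z.NC (eM * (Fintype.card κ - 1))) (Z.row F M β τ) := by
  refine row_mh_of_scale fun t => ?_
  have h := Z.row_eval F hM (R := MvPolynomial (Fin m × ι) k)
    (w := fun o a => C (t o) * X (o, a)) (x := Z.bak B fun o a => X (o, a))
    (l := Z.sc fun o => C (t o)) (fun o a => Z.row_bak_mul _ _ o a) β τ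
  have h1 : ∀ o, aeval (fun a => (C (t o) * X (o, a) : MvPolynomial (Fin m × ι) k)) (F.φ (τ o).1) =
      C (t o) ^ Z.n o * rename (Prod.mk o) (F.φ (τ o).1) := fun o => by
    rw [aeval_mul_of_hom (F.φ_hom (hn o) _), rename_eq_aeval]
    rfl
  have h2 : ∏ o, Z.sc (fun o => (C (t o) : MvPolynomial (Fin m × ι) k)) o ^
      (eM * (Fintype.card κ - 1) * Z.e o) = _ :=
    prod_sc { Z with n := fun o => eM * (Fintype.card κ - 1) * Z.e o } _
  refine h.trans ?_
  simp only [h1, mul_assoc (C (t _) ^ _)]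
  rw [h2, prod_mul_distrib, ← mul_assoc, ← prod_mul_distrib]
  congr 1
  refine prod_congr rfl fun o _ => ?_
  rw [← pow_add]
  congr 1
  simp only [dg, NC]
  split_ifs with ho
  · subst ho
    ring
  · ring

end Cf

private theorem rowpl_det {R : Type} [CommRing R] {na : Prop} (S : SN R na) {A : Matrix κ κ R}
    {b : ℝ} (hb : 0 ≤ b) (h : ∀ i j, S.N (A i j) ≤ b) :
    S.N A.det ≤ E na (Fintype.card κ).factorial * b ^ Fintype.card κ := by
  rw [Matrix.det_apply]
  refine (S.sum_le_card _ (pow_nonneg hb (Fintype.card κ)) fun σ _ => ?_).trans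
    (le_of_eq (by rw [card_univ, Fintype.card_perm]))
  have h2 : S.N (Equiv.Perm.sign σ • ∏ i, A (σ i) i) = S.N (∏ i, A (σ i) i) := by
    rcases Int.units_eq_one_or (Equiv.Perm.sign σ) with h | h <;> simp [h, S.neg]
  rw [h2]
  exact (S.prod_le _ fun i _ => h (σ i) i).trans (le_of_eq (by rw [prod_const, card_univ]))

private theorem rowpl_adj {R : Type} [CommRing R] {na : Prop} (S : SN R na) {A : Matrix κ κ R}
    {b : ℝ} (hb : 1 ≤ b) (h : ∀ i j, S.N (A i j) ≤ b) (i j : κ) :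
    S.N (A.adjugate i j) ≤ E na (Fintype.card κ).factorial * b ^ Fintype.card κ := by
  rw [Matrix.adjugate_apply]
  refine rowpl_det S (zero_le_one.trans hb) fun a c => ?_
  rw [Matrix.updateRow_apply]
  split_ifs
  · rw [Pi.single_apply]
    split_ifs
    · exact S.one.trans hb
    · rw [S.zero]
      exact zero_le_one.trans hb
  · exact h a c

private theorem rowpl_cx {R : Type} [CommRing R] {na : Prop} (S : SN R na) {A : Matrix κ κ R}
    {u : ℝ} (hu : 0 ≤ u) (h : ∀ i j, S.N (A i j) ≤ u) {n : ℕ} (α β : Mo κ n) :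
    S.N (cx α β A) ≤ E na ((Fintype.card κ : ℝ) ^ n) * u ^ n := by
  have h1 := Es.cx_le (toP1 S) α β (A := A) (u := fun _ => u) (U := fun _ => 1) (fun _ => hu)
    (fun _ => zero_le_one) fun l j => by
      rw [mul_one]
      exact h l j
  simp only [one_pow, prod_const_one, mul_one, prod_pow_eq_pow_sum, Es.sum_Mo] at h1
  exact h1

/- Use the seminorm of `exists_polSN` with radii `1` (`SN.Ov.pol`).  The renamed `φ` is
`aeval (X (o, ·)) φ ≤ s ^ (n + 1)`; `bak ≤ s ^ (3 * 4 ^ j)` (`ph_le`, `dbn_le`), `≤ 1` at the hub; an entry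
of the adjugate is a determinant with a unit row: `≤ E (card κ)! * (bound) ^ card κ`; `Es.cx_le` for
`toP1`; `E_le_pow`; `e o * 4 ^ j o ≤ n h` for `o ≠ h`. -/
theorem row_pl (κ : Type) [Fintype κ] [DecidableEq κ] (eM : ℕ) : ∃ C : ℕ,
    ∀ (m : ℕ) (Z : Cf m) (M : Fin m → Matrix κ κ (MvPolynomial ι k)) (v : AbsoluteValue k ℝ)
      (s : Fin m → ℝ), (∀ o, F.em ≤ Z.n o ∧ 1 ≤ Z.n o) →
      (∀ o, o ≠ Z.h → Z.n o * 4 ^ Z.j o = Z.n Z.h) → (∀ o, Z.e o ≤ Z.n o) →
      (∀ o i j, (M o i j).IsHomogeneous eM) → (∀ o, 1 ≤ s o) → (∀ o i j, pl v (M o i j) ≤ s o) →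
      ∀ β τ, pl v (Z.row F M β τ) ≤ F.s v ^ (C * (m * Z.n Z.h)) * ∏ o, s o ^ (C * Z.e o) := by
  set c := Fintype.card κ with hc
  refine ⟨2 + c + c.factorial + 3 * eM * c, fun m Z M v s hn hj he hM hs hp β τ => ?_⟩
  obtain ⟨S, hS⟩ := exists_polSN (σ := Fin m × ι) (absSN v) (t := fun _ => 1) fun _ => zero_le_one
  have hO : S.Ov v := (absSN_ov v).pol (fun _ => zero_le_one) hS
  have hX : ∀ p, S.N (X p) ≤ 1 := fun p => by
    rw [hS]
    exact polN_X _ (fun _ => zero_le_one) p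
  have h1 : 1 ≤ F.s v := F.one_le v
  have h0 : 0 ≤ F.s v := zero_le_one.trans h1
  have h2 := (F.sz v).two
  have hb : ∀ o, ∃ b : ℕ, b * Z.e o ≤ 3 * Z.n Z.h ∧ Z.n o ≤ Z.n Z.h ∧
      ∀ a, S.N (Z.bak B (fun o a => X (o, a)) o a) ≤ F.s v ^ b := fun o => by
    by_cases ho : o = Z.h
    · refine ⟨0, by simp, by rw [ho], fun a => ?_⟩
      rw [Cf.bak, if_pos ho, pow_zero]
      exact hX _
    · have h4 : 1 ≤ 4 ^ Z.j o := Nat.one_le_pow _ _ (by norm_num)
      refine ⟨3 * 4 ^ Z.j o, ?_, ?_, fun a => ?_⟩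
      · rw [← hj o ho, mul_assoc, mul_comm (4 ^ Z.j o)]
        exact Nat.mul_le_mul_left _ (Nat.mul_le_mul_right _ (he o))
      · rw [← hj o ho]
        exact Nat.le_mul_of_pos_right _ h4
      · rw [Cf.bak, if_neg ho]
        refine (hO.ph_le (F.sz v) (fun a => hX (o, a))
          (hO.dbn_le (F.sz v) (fun a => hX (Z.h, a)) (Z.j o)) a B.ao).trans ?_
        rw [one_pow, one_mul, mul_one, ← pow_mul, ← pow_succ']
        exact pow_le_pow_right₀ h1 (by omega)
  have key : ∀ o, S.N (rename (Prod.mk o) (F.φ (τ o).1) * cx (τ o).2 (β o)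
      ((M o).map (aeval (Z.bak B (fun o a => X (o, a)) o))).adjugate) ≤
      F.s v ^ ((2 + c + c.factorial + 3 * eM * c) * Z.n Z.h) *
        s o ^ ((2 + c + c.factorial + 3 * eM * c) * Z.e o) := fun o => by
    obtain ⟨b, hb1, hb2, hb3⟩ := hb o
    have hs0 : 0 ≤ s o := zero_le_one.trans (hs o)
    have hφ : S.N (rename (Prod.mk o) (F.φ (τ o).1)) ≤ F.s v ^ (Z.n o + 1) := by
      rw [rename_eq_aeval]
      refine (hO.aeval_le (F.φ_hom (hn o).1 (τ o).1) zero_le_one fun a => hX (o, a)).trans ?_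
      rw [one_pow, mul_one]
      exact F.φ_pl v _
    have hA : ∀ i j, S.N ((M o).map (aeval (Z.bak B (fun o a => X (o, a)) o)) i j) ≤
        s o * (F.s v ^ b) ^ eM := fun i j =>
      (hO.aeval_le (hM o i j) (pow_nonneg h0 b) hb3).trans
        (mul_le_mul_of_nonneg_right (hp o i j) (by positivity))
    have hA1 : 1 ≤ s o * (F.s v ^ b) ^ eM :=
      one_le_mul_of_one_le_of_one_le (hs o) (one_le_pow₀ (one_le_pow₀ h1))
    have hf : E (IsNonarchimedean v) (c.factorial : ℝ) ≤ F.s v ^ c.factorial :=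
      E_le_pow h2 (by exact_mod_cast Nat.lt_two_pow_self.le)
    have hE : E (IsNonarchimedean v) ((c : ℝ) ^ Z.e o) ≤ F.s v ^ (c * Z.e o) :=
      E_le_pow h2 (by
        rw [pow_mul]
        exact pow_le_pow_left₀ (Nat.cast_nonneg c) (by exact_mod_cast Nat.lt_two_pow_self.le) _)
    have hx := (rowpl_cx S (u := F.s v ^ c.factorial * (s o * (F.s v ^ b) ^ eM) ^ c)
      (by positivity) (fun i j => (rowpl_adj S hA1 hA i j).trans
        (mul_le_mul_of_nonneg_right hf (by positivity))) (τ o).2 (β o)).trans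
      (mul_le_mul_of_nonneg_right hE (by positivity))
    refine (S.mul_le hφ hx).trans ?_
    have e1 : F.s v ^ (Z.n o + 1) * (F.s v ^ (c * Z.e o) *
        (F.s v ^ c.factorial * (s o * (F.s v ^ b) ^ eM) ^ c) ^ Z.e o) =
        F.s v ^ (Z.n o + 1 + c * Z.e o + c.factorial * Z.e o + eM * c * (b * Z.e o)) *
          s o ^ (c * Z.e o) := by
      simp only [mul_pow, ← pow_mul]
      ring
    rw [e1]
    have h3 : Z.e o ≤ Z.n Z.h := (he o).trans hb2
    have h4 := (hn Z.h).2
    refine mul_le_mul (pow_le_pow_right₀ h1 ?_)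
      (pow_le_pow_right₀ (hs o) (Nat.mul_le_mul_right _ (by omega))) (by positivity) (by positivity)
    have h5 := Nat.mul_le_mul_left c h3
    have h6 := Nat.mul_le_mul_left c.factorial h3
    have h7 := Nat.mul_le_mul_left (eM * c) hb1
    calc _ ≤ Z.n Z.h + Z.n Z.h + c * Z.n Z.h + c.factorial * Z.n Z.h + eM * c * (3 * Z.n Z.h) := by
          omega
      _ = _ := by ring
  have h3 := S.prod_le univ fun o _ => key o
  rw [hS] at h3
  refine h3.trans (le_of_eq ?_)
  rw [prod_mul_distrib, prod_const, card_univ, Fintype.card_fin, ← pow_mul, mul_assoc _ (Z.n Z.h),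
    mul_comm (Z.n Z.h)]

end Pool.Agent.Lib.MP_651af7_nt.As
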