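import Pool.Agent.Lib.MP_651af7_nt.As.Row
import Pool.Agent.Lib.MP_651af7_nt.Av.EExp
import Pool.Agent.Lib.MP_651af7_nt.Rt.MovA

/-! Construction of the auxiliary section. -/

namespace Pool.Agent.Lib.MP_651af7_nt.As

open MvPolynomial Finset Height NumberField Matrix
open Av hiding Bad
open Es (Mo IX CX mo cx GA GC Bad Pen nv vol Tame IntV Dual)
open Rt (Pl av mu)

variable {k ι : Type} [Field k] [NumberField k] [Fintype ι] {B : AV k ι} {g : ℕ} (F : FB B g)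

theorem sieg_n_le {m : ℕ} (Z : Cf m) (h : ∀ o, o ≠ Z.h → Z.n o * 4 ^ Z.j o = Z.n Z.h) (o : Fin m) :
    Z.n o ≤ Z.n Z.h := by
  by_cases ho : o = Z.h
  · rw [ho]
  · rw [← h o ho]
    exact Nat.le_mul_of_pos_right _ (by positivity)

theorem sieg_NC {m : ℕ} (Z : Cf m) (E : ℕ) (h1 : 1 ≤ Z.n Z.h)
    (h : ∀ o, o ≠ Z.h → Z.n o * 4 ^ Z.j o = Z.n Z.h) (he : ∀ o, Z.e o ≤ Z.n o) :
    ∑ o, (Z.NC E o + 1) ≤ (2 + 4 * E) * (m * Z.n Z.h) := by
  have hn := sieg_n_le Z h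
  have h2 : ∑ i ∈ univ.erase Z.h, 2 * 4 ^ Z.j i * (E * Z.e i) ≤ m * (2 * E * Z.n Z.h) := by
    refine (sum_le_card_nsmul _ _ (2 * E * Z.n Z.h) fun i hi => ?_).trans ?_
    · rw [← h i (ne_of_mem_erase hi)]
      calc 2 * 4 ^ Z.j i * (E * Z.e i) = 2 * E * (Z.e i * 4 ^ Z.j i) := by ring
        _ ≤ _ := Nat.mul_le_mul_left _ (Nat.mul_le_mul_right _ (he i))
    · rw [smul_eq_mul]
      exact Nat.mul_le_mul_right _ (by simp)
  have h3 : ∀ o, Z.NC E o + 1 ≤ (2 + 2 * E) * Z.n Z.h +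
      if o = Z.h then m * (2 * E * Z.n Z.h) else 0 := fun o => by
    have h4 : E * Z.e o ≤ E * Z.n Z.h := Nat.mul_le_mul_left _ ((he o).trans (hn o))
    have h5 := hn o
    unfold Cf.NC
    split_ifs with ho
    · rw [ho] at h4
      nlinarith
    · nlinarith
  refine (sum_le_sum fun o _ => h3 o).trans (le_of_eq ?_)
  rw [sum_add_distrib, sum_ite_eq', if_pos (mem_univ _), sum_const, card_univ, Fintype.card_fin,
    smul_eq_mul]
  ring

/- `Rt.siegK` with rows `(Σ p, Lw p) × ∀ o, F.T (NC o + dl)`, columns `τ` and entries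
`d * F.rc (Z.row F (M · p) β τ) ω`, `d` from `Ad.exists_den` for the size
`F.s ^ (C m n h + ∑ (NC o + 1)) * ∏ s o ^ (C e o)` (`rc_le`, `row_mh`, `row_pl`);
`∑ o, (NC o + 1) ≤ C' m n h`; the number of columns is at most `2 ^ (C'' m n h)` (`card_T_le`,
`card_Mo_le`).  `Van`: sum `rc_expand` over `τ`, `row_eval`, cancel the nonzero factors. -/
theorem siegel (κ J : Type) [Fintype κ] [DecidableEq κ] [Nonempty κ] [Fintype J] (eM : ℕ) :
    ∃ C : ℝ, 0 ≤ C ∧ ∀ (m : ℕ) (Z : Cf m) (M : Fin m → J → Matrix κ κ (MvPolynomial ι k))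
      (Lw : J → Finset (IX κ Z.e)) (s : Fin m → AbsoluteValue k ℝ → ℝ) (h : Fin m → ℝ),
      (∀ o, F.em ≤ Z.n o ∧ 1 ≤ Z.n o) → (∀ o, o ≠ Z.h → Z.n o * 4 ^ Z.j o = Z.n Z.h) →
      (∀ o, Z.e o ≤ Z.n o) → (∀ o p i j, (M o p i j).IsHomogeneous eM) → (∀ o, Ad (s o) (h o)) →
      (∀ o p i j v, pl v (M o p i j) ≤ s o v) →
      2 * ((∑ p, (Lw p).card) *
        (∏ o, Fintype.card (F.T (Z.NC (eM * (Fintype.card κ - 1)) o + F.dl))) *
          Module.finrank ℚ k) ≤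
        ∏ o, Fintype.card (F.T (Z.n o)) * Fintype.card (Mo κ (Z.e o)) →
      ∃ c : Z.Co F κ, c ≠ 0 ∧
        (∀ τ, |(c τ : ℝ)| ≤ Real.exp (C * (1 + m * Z.n Z.h + ∑ o, Z.e o * h o))) ∧
        Z.Van F M Lw c := by
  classical
  obtain ⟨Ck, hCk, HK⟩ := Rt.siegK (K := k)
  obtain ⟨C1, H1⟩ := row_pl F κ eM
  set E := eM * (Fintype.card κ - 1) with hE
  have hs0 : 0 ≤ F.hs := F.ad.nonneg
  have hl0 : 0 ≤ Real.log Ck := Real.log_nonneg hCk
  refine ⟨Real.log Ck + ((F.ρ + g + 1 + Fintype.card κ : ℕ) : ℝ) +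
    ((C1 + (2 + 4 * E) : ℕ) : ℝ) * F.hs + C1, by positivity,
    fun m Z M Lw s h hn hj he hM had hpl hcard => ?_⟩
  have hA := (F.ad.pow ((C1 + (2 + 4 * E)) * (m * Z.n Z.h))).mul
    (ad_prod univ fun o _ => (had o).pow (C1 * Z.e o))
  have hmh : ∀ p β τ, MH (Z.NC E) (Z.row F (fun o => M o p) β τ) := fun p β τ =>
    Z.row_mh F (fun o => (hn o).1) (fun o => hM o p) β τ
  obtain ⟨d, hd, hI⟩ := hA.exists_den
    (Λ := ((Σ p, Lw p) × ∀ o, F.T (Z.NC E o + F.dl)) × CX (fun o => F.T (Z.n o)) κ Z.e)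
    (fun a => F.rc (Z.row F (fun o => M o a.1.1.1) a.1.1.2.1 a.2) a.1.2) (fun a v _ => by
      refine (F.rc_le (hmh _ _ _) v _).trans ?_
      have e1 := H1 m Z (fun o => M o a.1.1.1) v (fun o => s o v) hn hj he (fun o => hM o _)
        (fun o => (had o).one v) (fun o i j => hpl o _ i j v) a.1.1.2.1 a.2
      have e2 : ∏ o, F.s v ^ (Z.NC E o + 1) ≤ F.s v ^ ((2 + 4 * E) * (m * Z.n Z.h)) := by
        rw [prod_pow_eq_pow_sum]
        exact pow_le_pow_right₀ (F.one_le v) (sieg_NC Z E (hn _).2 hj he)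
      have e3 : 0 < F.s v := F.ad.pos v
      have e4 : 0 ≤ ∏ o, s o v ^ (C1 * Z.e o) :=
        prod_nonneg fun o _ => pow_nonneg ((had o).pos v).le _
      refine (mul_le_mul e1 e2 (prod_nonneg fun o _ => by positivity) (by positivity)).trans
        (le_of_eq ?_)
      rw [add_mul C1, pow_add]
      ring)
  have hc : Fintype.card (CX (fun o => F.T (Z.n o)) κ Z.e) =
      ∏ o, Fintype.card (F.T (Z.n o)) * Fintype.card (Mo κ (Z.e o)) := by
    rw [Fintype.card_pi]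
    exact prod_congr rfl fun o _ => Fintype.card_prod _ _
  obtain ⟨c, h0, h1, h2⟩ := HK ((Σ p, Lw p) × ∀ o, F.T (Z.NC E o + F.dl))
    (CX (fun o => F.T (Z.n o)) κ Z.e)
    (fun i τ => (d : k) * F.rc (Z.row F (fun o => M o i.1.1) i.1.2.1 τ) i.2) _
    (Real.one_le_exp hA.nonneg) (fun i τ => hI (i, τ)) (by
      rw [hc, Fintype.card_prod, Fintype.card_sigma, Fintype.card_pi]
      simpa only [Fintype.card_coe] using hcard) (by
      rw [hc]
      exact prod_pos fun o _ => Nat.mul_pos (F.card_T_pos _) Es.card_Mo_pos)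
  refine ⟨c, h0, fun τ => (h2 τ).trans ?_, fun R _ _ _ w x l hw hΔ hl hb p β hβ => ?_⟩
  · have h3 : Fintype.card (CX (fun o => F.T (Z.n o)) κ Z.e) ≤
        2 ^ ((F.ρ + g + 1 + Fintype.card κ) * (m * Z.n Z.h)) := by
      rw [hc]
      refine (prod_le_pow_card _ _ (2 ^ ((F.ρ + g + 1 + Fintype.card κ) * Z.n Z.h))
        fun o _ => ?_).trans (le_of_eq ?_)
      · refine (Nat.mul_le_mul (F.card_T_le (hn o).2) Es.card_Mo_le).trans ?_
        rw [← pow_mul, ← pow_add, add_mul (F.ρ + g + 1)]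
        exact Nat.pow_le_pow_right two_pos (Nat.add_le_add
          (Nat.mul_le_mul_left _ (sieg_n_le Z hj o))
          (Nat.mul_le_mul_left _ ((he o).trans (sieg_n_le Z hj o))))
      · rw [card_univ, Fintype.card_fin, ← pow_mul]
        congr 1
        ring
    have h5 : (2 : ℝ) ≤ Real.exp 1 := by linarith [Real.add_one_le_exp 1]
    have h4 : (Fintype.card (CX (fun o => F.T (Z.n o)) κ Z.e) : ℝ) ≤
        Real.exp (((F.ρ + g + 1 + Fintype.card κ : ℕ) : ℝ) * (m * Z.n Z.h)) := by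
      calc _ ≤ (2 : ℝ) ^ ((F.ρ + g + 1 + Fintype.card κ) * (m * Z.n Z.h)) := by exact_mod_cast h3
        _ ≤ Real.exp 1 ^ ((F.ρ + g + 1 + Fintype.card κ) * (m * Z.n Z.h)) :=
          pow_le_pow_left₀ zero_le_two h5 _
        _ = _ := by rw [← Real.exp_nat_mul, mul_one, Nat.cast_mul, Nat.cast_mul]
    refine (mul_le_mul_of_nonneg_right h4 (by positivity)).trans ?_
    have h6 : ∑ o, ((C1 * Z.e o : ℕ) : ℝ) * h o = C1 * ∑ o, (Z.e o : ℝ) * h o := by
      rw [mul_sum]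
      exact sum_congr rfl fun o _ => by rw [Nat.cast_mul, mul_assoc]
    have h7 : 0 ≤ ∑ o, (Z.e o : ℝ) * h o :=
      sum_nonneg fun o _ => mul_nonneg (Nat.cast_nonneg _) (had o).nonneg
    rw [h6, Nat.cast_mul, Nat.cast_mul m]
    conv_lhs => rw [← Real.exp_log (one_pos.trans_le hCk)]
    rw [← Real.exp_add, ← Real.exp_add, Real.exp_le_exp]
    generalize ∑ o, (Z.e o : ℝ) * h o = y at h7 ⊢
    have hx : (0 : ℝ) ≤ m * Z.n Z.h := by positivity
    generalize (m : ℝ) * Z.n Z.h = x at hx ⊢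
    have ha : (0 : ℝ) ≤ ((F.ρ + g + 1 + Fintype.card κ : ℕ) : ℝ) := Nat.cast_nonneg _
    generalize ((F.ρ + g + 1 + Fintype.card κ : ℕ) : ℝ) = a at ha ⊢
    have hb : (0 : ℝ) ≤ ((C1 + (2 + 4 * E) : ℕ) : ℝ) := Nat.cast_nonneg _
    generalize ((C1 + (2 + 4 * E) : ℕ) : ℝ) = b at hb ⊢
    have hc1 : (0 : ℝ) ≤ C1 := Nat.cast_nonneg _
    have := mul_nonneg hb hs0
    nlinarith [mul_nonneg hl0 hx, mul_nonneg hl0 h7, mul_nonneg ha h7, mul_nonneg this h7,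
      mul_nonneg hc1 hx]
  · have h3 : ∀ ω : ∀ o, F.T (Z.NC E o + F.dl),
        ∑ τ, (c τ : k) * F.rc (Z.row F (fun o => M o p) β τ) ω = 0 := fun ω => by
      have h4 := h1 (⟨p, β, hβ⟩, ω)
      refine mul_left_cancel₀ (Nat.cast_ne_zero.2 hd.ne' : (d : k) ≠ 0) ?_
      rw [mul_zero, mul_sum, ← h4]
      exact sum_congr rfl fun τ _ => by ring
    refine mul_left_cancel₀ (mul_ne_zero (prod_ne_zero_iff.2 fun o (_ : o ∈ univ) => hΔ o)
      (prod_ne_zero_iff.2 fun o (_ : o ∈ univ) => pow_ne_zero (E * Z.e o) (hl o))) ?_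
    have h4 : ∀ τ, (∏ o, aeval (w o) F.Δ) * (∏ o, l o ^ (E * Z.e o)) * ((c τ : R) *
        ∏ o, (aeval (w o) (F.φ (τ o).1) *
          cx (τ o).2 (β o) ((M o p).map (aeval (x o))).adjugate)) =
        ∑ ω : ∀ o, F.T (Z.NC E o + F.dl),
          algebraMap k R ((c τ : k) * F.rc (Z.row F (fun o => M o p) β τ) ω) *
            ∏ o, aeval (w o) (F.φ (ω o)) := fun τ => by
      have e1 := F.rc_expand (hmh p β τ) hw
      rw [Z.row_eval F (fun o => hM o p) hb] at e1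
      simp only [map_mul, map_intCast, mul_assoc, ← mul_sum]
      rw [← e1]
      ring
    rw [mul_zero, GC, mul_sum, sum_congr rfl fun τ _ => h4 τ, sum_comm]
    refine sum_eq_zero fun ω _ => ?_
    rw [← sum_mul, ← map_sum, h3, map_zero, zero_mul]

end Pool.Agent.Lib.MP_651af7_nt.As
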