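import Pool.Agent.Lib.MP_651af7_nt.As.SqD
import Pool.Agent.Lib.MP_651af7_nt.As.Eng
import Pool.Agent.Lib.MP_651af7_nt.Av.Los
import Pool.Agent.Lib.MP_651af7_nt.Es.AApx

/-! The input of the engine is contradictory. -/

namespace Pool.Agent.Lib.MP_651af7_nt.As

open MvPolynomial Finset Height NumberField Matrix
open Av hiding Bad
open Es (Mo IX CX mo cx GA GC Bad Pen nv vol Tame IntV Dual)
open Rt (Pl av mu)

open Filter

variable {α : Type} {U : Ultrafilter α} {k ι κ : Type} [Field k] [NumberField k] [Fintype ι]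
  [Fintype κ] [DecidableEq κ] {B : AV k ι} {S : Finset (FinitePlace k)}

namespace Sq

variable (s : Sq U B S κ)

/- `eq_smul_nv`, `ht_nv` with `Blk.sz` at the places `Sum.inl w`, `ht_elim`, `AV.ht_eq`,
`logHeight_smul_eq_logHeight`. -/
theorem ht_wz {Γ : ℝ} (hΓ : 0 ≤ Γ) : ∃ Γ' : ℝ, ∀ᶠ n in U,
    (∀ (p : Pl S) i l, i ≠ s.j₀ → av p (s.Y n i l) ≤ Real.exp (Γ * s.H n)) →
      logHeight (Sum.elim (s.w n) (s.z n)) ≤ Γ' * s.H n := by
  obtain ⟨C, hC0, hC⟩ := ht_nv (k := k) κ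
  refine ⟨1 + C * (1 + Γ), ?_⟩
  filter_upwards [s.rep, s.one, s.pen, s.oneα, s.orth, s.hH.eventually_ge_atTop 1] with
    n h1 h2 h3 h4 h5 h6 h7
  obtain ⟨c, hc⟩ := eq_smul_nv h3.det h5
  have hc0 : c ≠ 0 := by
    rintro rfl
    rw [hc] at h4
    simp at h4
  have h10 : 1 ≤ s.H n := h6
  have h8 : logHeight (s.z n) ≤ C * (1 + Γ * s.H n) := by
    rw [hc, logHeight_smul_eq_logHeight _ hc0]
    exact hC (s.Y n) s.j₀ _ (mul_nonneg hΓ (by linarith)) h3.int fun w i l hi =>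
      h7 (.inl w) i l hi
  have h9 : logHeight (Sum.elim (s.w n) (s.z n)) ≤ s.H n + logHeight (s.z n) := by
    have := ht_elim h2 h4
    rwa [← AV.ht_eq h1] at this
  nlinarith [mul_nonneg hC0 (sub_nonneg.2 h10)]

/- The tangent vector is a family that represents `i.d o (W b)`, `W = gv U (Sum.elim w z)`
(`germ_surj`).  `der_aeval` for `C.φ a` with `Repr.aeval'`, `Repr.pderiv'`; `AV.lam_tang` for
`s.repw`, `tang_of_germ`; `gv_dot`. -/
theorem Inp.tv {g r : ℕ} {σ : Fin g → ι → k} (i : s.Inp σ) {C : Chart s.K (ι ⊕ κ) r}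
    {Cn : α → Chart k (ι ⊕ κ) r} (hC : ReprC U C Cn)
    (hat : C.At (gv U fun n => Sum.elim (s.w n) (s.z n))) : ∀ᶠ n in U, ∀ d,
      TV B σ (Cn n) (Sum.elim (s.w n) (s.z n)) (s.Y n i.j₁) (cv k d) (i.gg n d) := by
  refine eventually_all.2 fun o => ?_
  choose v hv using fun b => germ_surj U (i.d o (gv U (fun n => Sum.elim (s.w n) (s.z n)) b))
  have h1 : ∀ᶠ n in U, ∀ a, a ∉ Set.range (Cn n).I →
      ∑ b, aeval (Sum.elim (s.w n) (s.z n)) (pderiv b ((Cn n).φ a)) * v b n = 0 := by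
    refine eventually_all.2 fun a => ?_
    by_cases ha : a ∈ Set.range C.I
    · exact .of_forall fun n hn => absurd (hC.I n ▸ ha) hn
    · have h2 := der_aeval (i.d o) (gv U fun n => Sum.elim (s.w n) (s.z n)) (C.φ a)
      rw [(hat a ha).1, map_zero] at h2
      have h3 : (germ U fun n =>
          ∑ b, aeval (Sum.elim (s.w n) (s.z n)) (pderiv b ((Cn n).φ a)) * v b n) = 0 := by
        rw [← germ_sum, h2]
        refine Finset.sum_congr rfl fun b _ => ?_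
        rw [((hC.φ a).pderiv' b).aeval', ← hv, ← map_mul]
        rfl
      exact (germ_eq_zero.1 h3).mono fun n hn _ => hn
  have h2 : ∀ᶠ n in U, B.Tang (s.w n) (fun a => v (.inl a) n) fun a => ∑ l, cv k o l * σ l a := by
    refine tang_of_germ (v := fun n a => v (.inl a) n) (l := fun _ a => ∑ l, cv k o l * σ l a) ?_
    have h4 := AV.lam_tang ((i.d o).restrictScalars k) s.repw
    rw [i.hd] at h4
    have h5 : (gv U fun n a => v (.inl a) n) =
        fun a => (i.d o).restrictScalars k (gv U s.w a) := funext fun a => hv (.inl a)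
    rw [h5]
    exact h4
  have h3 : ∀ᶠ n in U, (fun l => v (.inr l) n) ⬝ᵥ s.Y n i.j₁ = i.gg n o := by
    have h5 : (gv U fun n l => v (.inr l) n) = fun l => i.d o (gv U s.z l) :=
      funext fun l => hv (.inr l)
    refine (germ_eq U).1 ?_
    rw [i.hg, ← h5, gv_dot]
  filter_upwards [h1, h2, h3] with n k1 k2 k3
  exact ⟨fun b => v b n, k1, k2, k3⟩

/- Model: `AV.exists_blk` (`Av/Los`).  `exists_chart` over `s.K` at `gv U (Sum.elim w z)` with
`a₀ = Sum.inl s.a₁`, `exists_reprC`, `exists_repr` for the entries of `s.𝓜` (`Repr.small`,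
`Repr.supp'` for homogeneity, `Repr.aeval'` with `val` for the values).  With `Γ₀ ≥ |cc|`:
`Es.blk_of_pen`, `tame` (for `min ε 1`, `Tame.mono`), `ht_wz`, `Es.inv_le` for `szη`, `upper` with
`w_mem` for `nmx`; `Γ` is the maximum of the constants.  `exists_not_exit`. -/
theorem Inp.exists_bk {g : ℕ} {σ : Fin g → ι → k} (i : s.Inp σ) :
    ∃ (r : ℕ) (f : Fix S ι κ) (b : α → Bk B S κ g r), f.j₀ = s.j₀ ∧ f.j₁ = i.j₁ ∧ f.cc = s.cc ∧
      1 ≤ f.Γ ∧ (∀ p l, |s.cc p l| ≤ f.Γ) ∧ (∀ n, (b n).P = s.y n) ∧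
      (∀ ε : ℝ, 0 < ε → ∀ᶠ n in U, (b n).Good σ f ε) ∧
      ∀ B' : ℕ, ∃ δ' : ℝ, 0 < δ' ∧ ∀ᶠ n in U, ¬(b n).Exit B' (δ' * s.H n) := by
  classical
  have : CharZero s.K := charZero_of_injective_algebraMap (algebraMap k _).injective
  have hx0 : gv U (fun n => Sum.elim (s.w n) (s.z n)) (.inl s.a₁) = 1 := by
    rw [← map_one (germ U)]
    exact (germ_eq U).2 s.one
  have hx1 : gv U (fun n => Sum.elim (s.w n) (s.z n)) (.inr s.α₀) = 1 := by
    rw [← map_one (germ U)]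
    exact (germ_eq U).2 s.oneα
  obtain ⟨r, C, -, hat, -, hind, hon⟩ :=
    exists_chart (K := s.K) (gv U fun n => Sum.elim (s.w n) (s.z n)) (.inl s.a₁) hx0
  obtain ⟨Cn, hC⟩ := exists_reprC (U := U) (k := k) C
  choose Mn hMn using fun p a l =>
    exists_repr (MvPolynomial.map (algebraMap s.K (Up U k)) (s.𝓜 p a l))
  obtain ⟨B₁, hB₁⟩ := Finite.exists_le fun a => (C.φ a).totalDegree
  obtain ⟨B₂, hB₂⟩ := Finite.exists_le fun q : Pl S × κ × κ => (s.𝓜 q.1 q.2.1 q.2.2).totalDegree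
  obtain ⟨Γ₀, hΓ₀, hc⟩ : ∃ Γ₀ : ℝ, 0 ≤ Γ₀ ∧ ∀ p l, |s.cc p l| ≤ Γ₀ := by
    obtain ⟨M, hM⟩ := Finite.exists_le fun q : Pl S × κ => |s.cc q.1 q.2|
    exact ⟨max M 0, le_max_right _ _, fun p l => (hM (p, l)).trans (le_max_left _ _)⟩
  obtain ⟨w₀, hw₀⟩ := Es.blk_of_pen (S := S) κ
  obtain ⟨Ci, hCi, hinv⟩ := Es.inv_le (K := k) κ
  have hκ : (0 : ℝ) ≤ Fintype.card κ := Nat.cast_nonneg _
  obtain ⟨Γ', hΓ'⟩ := s.ht_wz (Γ := Γ₀ + Fintype.card κ + 2) (by linarith)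
  obtain ⟨Γ, g1, g2, g3, g4, g5⟩ : ∃ Γ : ℝ, 1 ≤ Γ ∧ Γ₀ ≤ Γ ∧ Γ₀ + Fintype.card κ + 2 ≤ Γ ∧
      Γ' ≤ Γ ∧ 2 * Ci + Γ₀ + 1 ≤ Γ := by
    have h1 := le_abs_self Γ'
    have h2 := abs_nonneg Γ'
    refine ⟨Γ₀ + Fintype.card κ + 2 + |Γ'| + 2 * Ci, ?_, ?_, ?_, ?_, ?_⟩ <;> linarith
  refine ⟨r, ⟨s.a₁, s.j₀, i.j₁, s.α₀, s.eM, max B₁ B₂, s.cc, Γ⟩, fun n => ⟨s.y n,
    Sum.elim (s.w n) (s.z n), Cn n, fun p => Matrix.of fun a l => Mn p a l n, s.Y n, i.η n, i.gg n,
    i.G n⟩, rfl, rfl, rfl, g1, fun p l => (hc p l).trans g2, fun n => rfl, fun ε hε => ?_,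
    fun B' => ?_⟩
  · have h1 := hC.on hon (I := JI B s.a₁ s.α₀) fun f hf => by
      rw [RingHom.mem_ker, aeval_map_algebraMap]
      have h : JI B s.a₁ s.α₀ ≤ RingHom.ker (aeval (gv U fun n => Sum.elim (s.w n) (s.z n)) :
          MvPolynomial (ι ⊕ κ) k →ₐ[k] Up U k) := by
        refine sup_le (Ideal.map_le_iff_le_comap.2 fun f hf => ?_) (Ideal.span_le.2 ?_)
        · rw [Ideal.mem_comap, RingHom.mem_ker, aeval_rename]
          exact s.repw.zero f hf
        · rintro _ (rfl | rfl)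
          · rw [SetLike.mem_coe, RingHom.mem_ker, map_sub, aeval_X, hx0, map_one, sub_self]
          · rw [SetLike.mem_coe, RingHom.mem_ker, map_sub, aeval_X, hx1, map_one, sub_self]
      exact h hf
    have h2 := eventually_all.2 fun a =>
      (hC.φ a).small s.hH (B := max B₁ B₂) ((hB₁ a).trans (le_max_left _ _)) hε
    have h3 := eventually_all.2 fun p => eventually_all.2 fun a => eventually_all.2 fun l =>
      (hMn p a l).small s.hH (B := max B₁ B₂) ((hB₂ (p, a, l)).trans (le_max_right _ _)) hε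
    have h4 := eventually_all.2 fun p => eventually_all.2 fun a => eventually_all.2 fun l =>
      (hMn p a l).supp'
    have h5 := eventually_all.2 fun p => eventually_all.2 fun a => eventually_all.2 fun l =>
      (germ_eq U).1 (((hMn p a l).aeval' s.w).symm.trans (s.val p a l))
    have h6 := eventually_all.2 fun p => eventually_all.2 fun a =>
      s.upper (f := fun n => s.w n a) (s.w_mem a) p hε
    filter_upwards [s.rep, hC.atx hat, h1, h2, h3, h4, h5, h6, s.pen, s.tame hε, s.tame one_pos,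
      s.orth, hΓ', i.hG, Inp.tv s i hC hat, i.dirS, i.box ε hε, i.box 1 one_pos, i.dirO ε hε,
      s.hH.eventually_ge_atTop w₀, s.hH.eventually_ge_atTop 1] with
      n a1 a2 a3 a4 a5 a6 a7 a8 a9 a10 a11 a12 a13 a14 a15 a16 a17 a18 a19 a20 a21
    have hN : Bk.N (⟨s.y n, Sum.elim (s.w n) (s.z n), Cn n,
        fun p => Matrix.of fun a l => Mn p a l n, s.Y n, i.η n, i.gg n, i.G n⟩ : Bk B S κ g r) =
        s.N n := by
      funext p
      ext a l
      exact (congrFun (MvPolynomial.aeval_eq_eval (s.w n)) _).symm.trans (a7 p a l)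
    have h0 : 0 ≤ s.H n := zero_le_one.trans a21
    have hsz := (hw₀ _ _ _ _ _ _ _ a20 zero_le_one le_rfl hc a9 a11).sz
    refine ⟨a1, a2, a3, a4, a5, fun p a l d hd => s.hom p a l
      (mem_support_iff.1 (a6 p a l (mem_support_iff.2 hd))), ?_, a12,
      fun p => Real.iSup_le (a8 p) (Real.exp_pos _).le,
      (a13 hsz).trans (mul_le_mul_of_nonneg_right g4 h0), a14, a15, a16, ?_, fun p l => ?_, a19⟩
    · rw [hN]
      exact ⟨a9, fun p j l hj => (hsz p j l hj).trans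
        (Real.exp_le_exp.2 (mul_le_mul_of_nonneg_right g3 h0)), a10⟩
    · rw [hN]
      exact a17
    · refine (hinv _ _ _ _ ((Γ₀ + 1) * s.H n) (by rwa [one_mul]) (a11 p) (fun l => (a18 p l).trans
        (Real.exp_le_exp.2 (mul_le_mul_of_nonneg_right
          (add_le_add ((le_abs_self _).trans (hc p l)) le_rfl) h0))) l).trans
        (Real.exp_le_exp.2 ?_)
      have b1 := mul_le_mul_of_nonneg_left a21 hCi
      have b2 := mul_le_mul_of_nonneg_right g5 h0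
      change _ ≤ Γ * s.H n
      linarith
  · obtain ⟨δ', hδ', h⟩ :=
      exists_not_exit s.hH (fun n j => Sum.elim (s.w n) (s.z n) (C.I j)) hind B'
    refine ⟨δ', hδ', h.mono ?_⟩
    rintro n hn ⟨q, h1, h2, h3, h4, h5⟩
    refine hn q h1 h2 h3 h4 ?_
    simpa only [hC.I] using h5

/- Model: `AV.seq_core` (`Av/Seq`), with `exists_fb`, `engine` (`δ = -vol s.cc`), `exists_bk`,
`AV.cone`, `exists_chain`; the block `o : Fin (m + 1)` is the member `f o` of the chain. -/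
theorem Inp.false {ϱ : ι → MvPowerSeries (Fin B.dim) k} (hϱ : B.Par B.dim ϱ)
    (i : s.Inp (lin ϱ)) : False := by
  obtain ⟨F⟩ := exists_fb B
  obtain ⟨r, fx, b, h0, h1, hcc, hΓ, hc, hb, hgood, hex⟩ := i.exists_bk
  obtain ⟨m, B', θ, ζ, ε₀, hθ, hζ, hε₀, heng⟩ := engine F hϱ r fx (by rw [h0, h1]; exact i.ne) hΓ
    (by rw [hcc]; exact hc) (neg_pos.2 s.neg) (by rw [hcc, neg_neg])
  obtain ⟨δ', hδ', hex'⟩ := hex B'
  have hε : 0 < min ε₀ (δ' / (B' + 1)) := lt_min hε₀ (by positivity)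
  obtain ⟨W, hW⟩ := heng _ hε (min_le_left _ _)
  obtain ⟨T, hT, hcone⟩ := B.cone U s.y s.hH hθ
  have hall := ((hgood _ hε).and hex').and ((s.hH.eventually_ge_atTop W).and
    (show ∀ᶠ n in U, n ∈ T from hT))
  obtain ⟨f, hf, hsep⟩ := exists_chain s.hH hall hζ
  have hj : ∀ o : Fin (m + 1), ∃ j, o ≠ 0 → AV.Close θ j (s.y (f 0)) (s.y (f o)) := fun o => by
    by_cases ho : o = 0
    · exact ⟨0, fun h => absurd ho h⟩
    · obtain ⟨j, hj⟩ := hcone (f 0) (hf 0).2.2 (f o) (hf o).2.2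
        (hsep 0 o (Nat.pos_of_ne_zero fun h => ho (Fin.ext h))).1
      exact ⟨j, fun _ => hj⟩
  choose j hj using hj
  obtain ⟨o, q, q0, q1, q2, q3, q4⟩ := hW (fun o => b (f o)) j (fun o => (hf _).1.1)
    (fun o => by rw [hb]; exact (hf _).2.1)
    (fun o o' h => by
      simp only [hb]
      rcases lt_or_gt_of_ne (Fin.val_injective.ne h) with h | h
      · exact Or.inl (hsep _ _ h).2
      · exact Or.inr (hsep _ _ h).2)
    (fun o ho => by rw [hb, hb]; exact hj o ho)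
  refine (hf o).1.2 ⟨q, q0, q1, q2, q3.trans (Real.exp_le_exp.2 ?_), q4⟩
  rw [hb]
  refine mul_le_mul_of_nonneg_right ?_ (AV.ht_nonneg _)
  calc (B' : ℝ) * min ε₀ (δ' / (B' + 1)) ≤ (B' + 1) * (δ' / (B' + 1)) := by
        gcongr
        · linarith
        · exact min_le_right _ _
    _ = δ' := by field_simp

end Sq

end Pool.Agent.Lib.MP_651af7_nt.As
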