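import Pool.Agent.Lib.MP_651af7_nt.As.Tm
import Pool.Agent.Lib.MP_651af7_nt.As.Der
import Pool.Agent.Lib.MP_651af7_nt.Av.EAd
import Pool.Agent.Lib.MP_651af7_nt.Av.ENrm

/-! The adelic bound for the coefficients at the members of the family. -/

namespace Pool.Agent.Lib.MP_651af7_nt.As

open MvPolynomial Filter Height Matrix Av Av.AV

variable {α : Type} {U : Ultrafilter α} {k ι : Type} [Field k] [NumberField k] {H : α → ℝ}
  {hH : Tendsto H U atTop}

omit [NumberField k] in
theorem germ_sum {J : Type} (s : Finset J) (f : J → α → k) :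
    ∑ j ∈ s, germ U (f j) = germ U fun n => ∑ j ∈ s, f j n := by
  rw [← map_sum]
  exact congrArg _ (funext fun n => Finset.sum_apply n s f)

omit [NumberField k] in
theorem le_prod_ad {J : Type} [Fintype J] {c : J → ℝ} (hc : ∀ j, 1 ≤ c j) (j : J) :
    c j ≤ ∏ i, c i := by
  classical
  rw [← Finset.mul_prod_erase _ _ (Finset.mem_univ j)]
  exact le_mul_of_one_le_right (zero_le_one.trans (hc j)) (Finset.one_le_prod fun i _ => hc i)

/-- A relation over the ring generated by `w` and `h` gives bounded relations at the places where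
`w` is integral. -/
theorem one_mem {I J : Type} [Fintype I] [Fintype J] (w : α → I → k) (h : α → J → k)
    {r : J → Up U k} (hr : ∀ j, r j ∈ Algebra.adjoin (Sm k hH)
      (Set.range (fun i => germ U fun n => w n i) ∪ Set.range fun j => germ U fun n => h n j))
    (h1 : ∑ j, r j * (germ U fun n => h n j) = 1) {ε : ℝ} (hε : 0 < ε) :
    ∀ᶠ n in U, ∃ A, Ad A (ε * H n) ∧ ∀ v : AbsoluteValue k ℝ, (∀ i, v (w n i) ≤ 1) →
      ∃ s : J → k, (∀ j, v (s j) ≤ A v) ∧ ∑ j, s j * h n j = 1 := by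
  classical
  have e : (Set.range (fun i => germ U fun n => w n i) ∪ Set.range fun j => germ U fun n => h n j) =
      Set.range fun a : I ⊕ J => germ U fun n => Sum.elim (w n) (h n) a := by
    rw [← Set.Sum.elim_range]
    exact congrArg _ (funext fun a => by cases a <;> rfl)
  simp only [e, Algebra.adjoin_range_eq_range_aeval] at hr
  choose P hP using hr
  choose p hp using fun j => exists_repr (MvPolynomial.map (algebraMap _ (Up U k)) (P j))
  have hv : ∀ j, r j = germ U fun n => eval (Sum.elim (w n) (h n)) (p j n) := fun j => by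
    rw [← (hp j).aeval, aeval_map_algebraMap]
    exact (hP j).symm
  simp only [hv, ← map_mul] at h1
  rw [germ_sum, ← map_one (germ U), germ_eq] at h1
  obtain ⟨D, hD⟩ := Finite.exists_le fun j => (P j).totalDegree
  obtain ⟨c, hc, hA⟩ := exists_ad_pl k (I ⊕ J) D
  have hδ : 0 < ε / (2 * (Fintype.card J * c + 1)) := by positivity
  filter_upwards [h1, eventually_all.2 fun j => (hp j).small hH (hD j) hδ, Lo.const hH 1 _ hδ]
    with n h1 h2 h3
  choose A hA hA' using fun j => hA _ _ (zero_le_one.trans h3) (h2 j)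
  refine ⟨_, (ad_prod Finset.univ fun j _ => hA j).mono ?_, fun v hw => ?_⟩
  · rw [Finset.sum_const, nsmul_eq_mul, Finset.card_univ, ← mul_assoc]
    have h4 : ε * H n =
        (Fintype.card J * c + 1) * (2 * (ε / (2 * (Fintype.card J * c + 1)) * H n)) := by
      field_simp
    rw [h4]
    gcongr <;> linarith
  by_cases hh : ∀ j, v (h n j) ≤ 1
  · refine ⟨_, fun j => ?_, h1⟩
    have h4 := (absSN_ov v).aeval_le' (h2 j).1 (y := Sum.elim (w n) (h n)) le_rfl
      fun a => by cases a <;> simp [absSN, hw, hh]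
    rw [aeval_eq_eval, one_pow, mul_one] at h4
    exact (h4.trans (hA' j v)).trans (le_prod_ad (fun i => (hA i).one v) j)
  · obtain ⟨j, hj⟩ := not_forall.1 hh
    have h0 : h n j ≠ 0 := fun h0 => hj (by simp [h0])
    refine ⟨Pi.single j (h n j)⁻¹, fun i => le_trans ?_
      (Finset.one_le_prod fun i _ => (hA i).one v), by simp [Pi.single_apply, h0]⟩
    rw [Pi.single_apply]
    split_ifs
    · rw [map_inv₀]
      exact inv_le_one_of_one_le₀ (not_le.1 hj).le
    · simp

/-- (dirO) at the members of the family. -/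
theorem dirO_mem [Fintype ι] {B : AV k ι} {σ : Fin B.dim → ι → k} {Y : B.Pt (Up U k)}
    {d : Fin B.dim → Derivation (Sm k hH) (Up U k) (Up U k)}
    (hσ : B.LieBasis σ)
    (hd : ∀ l, lam ((d l).restrictScalars k) Y = fun a => algebraMap k _ (σ l a))
    {D₀ : Derivation k (Sm k hH) (Sm k hH)} {D : Derivation k (Up U k) (Up U k)}
    {τ : Fin B.dim → Sm k hH} (hD : ∀ c, D (algebraMap _ _ c) = algebraMap _ _ (D₀ c))
    (hτ : lam D Y = fun a => ∑ l, algebraMap _ (Up U k) (τ l) * algebraMap k _ (σ l a))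
    {κ : Type} [Fintype κ] {y : α → ι → k} (hy : Rep Y fun a => germ U fun n => y n a)
    {z y₁ : α → κ → k} (hz : ∀ j, (germ U fun n => z n j) ∈ Cl (Sm k hH) (rat Y.co))
    (h0 : ∀ᶠ n in U, z n ⬝ᵥ y₁ n = 0) {G : α → k} (hG0 : germ U G ≠ 0)
    (hG : germ U G = (fun j => D (germ U fun n => z n j)) ⬝ᵥ fun j => germ U fun n => y₁ n j)
    {gg : α → Fin B.dim → k} (hgg : ∀ l, (germ U fun n => gg n l) =
      (fun j => d l (germ U fun n => z n j)) ⬝ᵥ fun j => germ U fun n => y₁ n j)
    {ε : ℝ} (hε : 0 < ε) :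
    ∀ᶠ n in U, ∃ A, Ad A (ε * H n) ∧ ∀ v : AbsoluteValue k ℝ, (∀ j, v (y₁ n j) ≤ 1) →
      ∃ (c : Fin B.dim → k) (η : κ → k), (∀ l, v (c l) ≤ A v) ∧ (∀ l, v (η l) ≤ A v) ∧
        G n = ∑ l, c l * gg n l + z n ⬝ᵥ η := by
  classical
  have hδ : 0 < ε / (Fintype.card (ι × κ) + 1) := by positivity
  have key : ∀ p : ι × κ, ∀ᶠ n in U, ∃ A, Ad A (ε / (Fintype.card (ι × κ) + 1) * H n) ∧
      (y n p.1 ≠ 0 → z n p.2 ≠ 0 → ∀ v : AbsoluteValue k ℝ, (∀ i, v (Sum.elim
        (fun c => y n c / y n p.1) (Sum.elim (fun j => z n j / z n p.2) (y₁ n)) i) ≤ 1) →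
        ∃ s : Option (Fin B.dim) → k, (∀ j, v (s j) ≤ A v) ∧
          ∑ j, s j * (j.elim (z n p.2) (gg n) / G n) = 1) := by
    rintro ⟨a, b⟩
    have h1 : ∀ᶠ n in U, Ad (fun _ : AbsoluteValue k ℝ => 1)
        (ε / (Fintype.card (ι × κ) + 1) * H n) :=
      (hH.eventually_ge_atTop 0).mono fun n hn => ad_one.mono (mul_nonneg hδ.le hn)
    by_cases ha : (germ U fun n => y n a) = 0
    · exact ((germ_eq_zero.1 ha).and h1).mono fun n hn => ⟨_, hn.2, fun h => absurd hn.1 h⟩
    by_cases hb : (germ U fun n => z n b) = 0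
    · exact ((germ_eq_zero.1 hb).and h1).mono fun n hn => ⟨_, hn.2, fun _ h => absurd hn.1 h⟩
    obtain ⟨r, hr, hr'⟩ := exists_dirO hσ hd hD hτ hz (y₁ := fun j => germ U fun n => y₁ n j)
      (by
        simp only [dotProduct, ← map_mul]
        rw [germ_sum, germ_eq_zero]
        exact h0) (hG ▸ hG0) hy ha hb
      (w := fun i => germ U fun n => Sum.elim
        (fun c => y n c / y n a) (Sum.elim (fun j => z n j / z n b) (y₁ n)) i)
      (funext fun i => by rcases i with i | i | i <;> simp [germ_div])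
      (h := fun j => germ U fun n => j.elim (z n b) (gg n) / G n)
      (funext fun j => by cases j <;> simp [← hG, ← hgg, germ_div])
    exact (one_mem _ _ hr hr' hδ).mono fun n ⟨A, hA, h⟩ => ⟨A, hA, fun _ _ => h⟩
  obtain ⟨a₀, ha₀⟩ := hy.unit
  obtain ⟨b₀, hb₀⟩ : ∃ b, (germ U fun n => z n b) ≠ 0 := by
    by_contra h
    push Not at h
    exact hG0 (by simp [hG, h, dotProduct])
  filter_upwards [eventually_all.2 key, germ_ne_zero.1 ha₀.ne_zero, germ_ne_zero.1 hb₀,
    germ_ne_zero.1 hG0, hH.eventually_ge_atTop 0] with n h1 h2 h3 h4 h5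
  choose A hA h1 using h1
  refine ⟨_, (ad_prod Finset.univ fun p _ => hA p).mono ?_, fun v hv => ?_⟩
  · rw [Finset.sum_const, nsmul_eq_mul, Finset.card_univ, ← mul_assoc, mul_div_assoc']
    refine mul_le_mul_of_nonneg_right ((div_le_iff₀ (by positivity)).2 ?_) h5
    nlinarith
  have := Nonempty.intro a₀
  have := Nonempty.intro b₀
  obtain ⟨a, ha⟩ := Finite.exists_max fun a => v (y n a)
  obtain ⟨b, hb⟩ := Finite.exists_max fun b => v (z n b)
  have ha' := (v.pos h2).trans_le (ha a₀)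
  have hb' := (v.pos h3).trans_le (hb b₀)
  obtain ⟨s, hs, hs'⟩ := h1 (a, b) (v.pos_iff.1 ha') (v.pos_iff.1 hb') v fun i => by
    rcases i with i | i | i
    · simpa [div_le_one ha'] using ha i
    · simpa [div_le_one hb'] using hb i
    · exact hv i
  have h6 : ∀ j, v (s j) ≤ ∏ p, A p v := fun j => (hs j).trans (le_prod_ad (fun i => (hA i).one v) _)
  refine ⟨fun l => s (some l), Pi.single b (s none), fun l => h6 _, fun l => ?_, ?_⟩
  · rw [Pi.single_apply]
    split_ifs
    · exact h6 _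
    · simpa using (v.nonneg _).trans (h6 none)
  · rw [Fintype.sum_option] at hs'
    simp only [Option.elim, ← mul_div_assoc, ← Finset.sum_div, ← add_div, div_eq_one_iff_eq h4]
      at hs'
    rw [dotProduct_single, ← hs']
    ring

end Pool.Agent.Lib.MP_651af7_nt.As
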