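import Pool.Agent.Lib.MP_651af7_nt.As.Defs
import Pool.Agent.Lib.MP_651af7_nt.As.TmO
import Pool.Agent.Lib.MP_651af7_nt.Av.SeqS
import Pool.Agent.Lib.MP_651af7_nt.Av.Par
import Pool.Agent.Lib.MP_651af7_nt.Es.APF

/-! Families of points: definitions and transfer. -/

namespace Pool.Agent.Lib.MP_651af7_nt.As

open MvPolynomial Finset Height NumberField Matrix
open Av hiding Bad
open Es (Mo IX CX mo cx GA GC Bad Pen nv vol Tame IntV Dual)
open Rt (Pl av mu)

open Filter

section nv

variable {F κ : Type} [Field F] [Fintype κ] [DecidableEq κ]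

/- `Matrix.mul_adjugate`. -/
theorem nv_ne {Y : Matrix κ κ F} (hY : Y.det ≠ 0) (j₀ : κ) : (fun l => Y.adjugate l j₀) ≠ 0 := by
  intro h
  have h1 := congrFun (congrFun (Matrix.mul_adjugate Y) j₀) j₀
  have h2 : ∀ l, Y.adjugate l j₀ = 0 := fun l => congrFun h l
  simp only [Matrix.mul_apply, h2, mul_zero, Finset.sum_const_zero, Matrix.smul_apply,
    Matrix.one_apply_eq, smul_eq_mul, mul_one] at h1
  exact hY h1.symm

/- `Matrix.mul_adjugate`. -/
theorem nv_orth (Y : Matrix κ κ F) {j₀ i : κ} (hi : i ≠ j₀) :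
    (fun l => Y.adjugate l j₀) ⬝ᵥ Y i = 0 := by
  have h1 := congrFun (congrFun (Matrix.mul_adjugate Y) i) j₀
  rw [Matrix.smul_apply, Matrix.one_apply_ne hi, smul_zero, Matrix.mul_apply] at h1
  rw [dotProduct_comm]
  exact h1

/- `Y *ᵥ z = Pi.single j₀ t`; multiply by the adjugate. -/
theorem eq_smul_nv {Y : Matrix κ κ F} (hY : Y.det ≠ 0) {j₀ : κ} {z : κ → F}
    (hz : ∀ i, i ≠ j₀ → z ⬝ᵥ Y i = 0) : ∃ c : F, z = c • fun l => Y.adjugate l j₀ := by
  have h1 : Y *ᵥ z = Pi.single j₀ (Y j₀ ⬝ᵥ z) := by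
    funext i
    by_cases hi : i = j₀
    · rw [hi, Pi.single_eq_same]
      rfl
    · rw [Pi.single_eq_of_ne hi, ← hz i hi, dotProduct_comm]
      rfl
  have h2 := congrArg (fun v => Y.adjugate *ᵥ v) h1
  simp only [Matrix.mulVec_mulVec, Matrix.adjugate_mul, Matrix.smul_mulVec, Matrix.one_mulVec,
    Matrix.mulVec_single] at h2
  refine ⟨Y.det⁻¹ * (Y j₀ ⬝ᵥ z), funext fun l => ?_⟩
  have h3 := congrFun h2 l
  simp only [Pi.smul_apply, smul_eq_mul, Matrix.col_apply, MulOpposite.smul_eq_mul_unop,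
    MulOpposite.unop_op] at h3 ⊢
  rw [mul_assoc, mul_comm _ (Y.adjugate l j₀), ← h3, inv_mul_cancel_left₀ hY]

end nv

variable {α : Type} {U : Ultrafilter α} {k ι κ : Type} [Field k]

/-- The germ of a family of vectors. -/
noncomputable abbrev gv (U : Ultrafilter α) {σ : Type} (x : α → σ → k) : σ → Up U k :=
  fun a => germ U fun n => x n a

/- `germ_sum`, `map_mul`. -/
theorem gv_dot [Fintype κ] (x y : α → κ → k) :
    gv U x ⬝ᵥ gv U y = germ U fun n => x n ⬝ᵥ y n := by
  have h : (fun n => x n ⬝ᵥ y n) = ∑ a, (fun n => x n a) * fun n => y n a := by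
    funext n
    simp only [dotProduct, Finset.sum_apply, Pi.mul_apply]
  rw [h, map_sum]
  simp only [map_mul]
  rfl

/- `RingHom.map_det` for `germ U` and for `Pi.evalRingHom`. -/
theorem germ_det [Fintype κ] [DecidableEq κ] (M : α → Matrix κ κ k) :
    (Matrix.of fun i j => germ U fun n => M n i j).det = germ U fun n => (M n).det := by
  have h : (fun n => (M n).det) = (Matrix.of fun i j n => M n i j).det := by
    funext n
    exact (RingHom.map_det (Pi.evalRingHom (fun _ => k) n) (Matrix.of fun i j n => M n i j)).symm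
  rw [h, RingHom.map_det]
  rfl

/- `RingHom.map_adjugate`. -/
theorem germ_adjugate [Fintype κ] [DecidableEq κ] (M : α → Matrix κ κ k) (i j : κ) :
    (Matrix.of fun i j => germ U fun n => M n i j).adjugate i j =
      germ U fun n => (M n).adjugate i j := by
  simp only [Matrix.adjugate_apply]
  rw [← germ_det]
  congr 1
  ext a b
  by_cases ha : a = j
  · subst ha
    by_cases hb : b = i
    · subst hb
      simp only [Matrix.updateRow_self, Matrix.of_apply, Pi.single_eq_same]
      exact (map_one (germ U)).symm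
    · simp only [Matrix.updateRow_self, Matrix.of_apply, Pi.single_eq_of_ne hb]
      exact (map_zero (germ U)).symm
  · simp only [Matrix.updateRow_ne ha, Matrix.of_apply]

/- Converse of `AV.tang_germ`.  `A.I` is finitely generated; `aeval_dv` gives the two components of
each equation (`aeval_germ`), also for `A.ph a b (dv x v) (dv x 0) = aeval (dv ..) (A.Φ a b)` with
`Sum.elim (dv x v) (dv x 0) = dv (Sum.elim x x) (Sum.elim v 0)`. -/
theorem tang_of_germ [Fintype ι] {A : AV k ι} {x v l : α → ι → k}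
    (h : A.Tang (gv U x) (gv U v) (gv U l)) : ∀ᶠ n in U, A.Tang (x n) (v n) (l n) := by
  classical
  have key : ∀ y z : DualNumber (α → k), dmap (germA U k) y = dmap (germA U k) z →
      ∀ᶠ n in U, dmap (Pi.evalAlgHom k (fun _ => k) n) y =
        dmap (Pi.evalAlgHom k (fun _ => k) n) z := fun y z hyz =>
    (((germ_eq U).1 (congrArg TrivSqZeroExt.fst hyz)).and
      ((germ_eq U).1 (congrArg TrivSqZeroExt.snd hyz))).mono fun n hn =>
        TrivSqZeroExt.ext hn.1 hn.2
  have e : ∀ {R' : Type} [CommRing R'] [Algebra k R'] (f : (α → k) →ₐ[k] R') (x v : ι → α → k),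
      (fun a => dmap f (dv x v a)) = dv (fun a => f (x a)) fun a => f (v a) :=
    fun f x v => by rw [dv_eq_dw, dv_eq_dw]; rfl
  have e0 : ∀ {R' : Type} [CommRing R'] [Algebra k R'] (f : (α → k) →ₐ[k] R'),
      (fun a => f ((0 : ι → α → k) a)) = 0 := fun f => funext fun _ => map_zero f
  obtain ⟨T, hT⟩ := (IsNoetherian.noetherian A.I : A.I.FG)
  have h1 : ∀ᶠ n in U, ∀ f ∈ T, aeval (dv (x n) (v n)) f = 0 := by
    refine (eventually_all_finset T).2 fun f hf => ?_
    have h2 := key (aeval (dv (fun a n => x n a) fun a n => v n a) f) 0 (by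
      rw [map_zero, ← AlgHom.comp_apply, comp_aeval, e]
      exact h.mem f (hT ▸ Ideal.subset_span hf))
    refine h2.mono fun n hn => ?_
    rwa [map_zero, ← AlgHom.comp_apply, comp_aeval, e] at hn
  have h3 : ∀ᶠ n in U, ∀ a b, A.ph a b (dv (x n) (v n)) (dv (x n) 0) =
      A.ph a A.ao (dv (x n) (v n)) (dv (x n) 0) *
        dv (fun c => algebraMap k k (A.o c)) (l n) b := by
    refine eventually_all.2 fun a => eventually_all.2 fun b => ?_
    have h2 := key (A.ph a b (dv (fun a n => x n a) fun a n => v n a) (dv (fun a n => x n a) 0))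
      (A.ph a A.ao (dv (fun a n => x n a) fun a n => v n a) (dv (fun a n => x n a) 0) *
        dv (fun c => algebraMap k (α → k) (A.o c)) (fun a n => l n a) b) (by
      rw [map_mul, AV.map_ph, AV.map_ph, e, e, congrFun (e _ _ _) b, e0]
      exact h.eq a b)
    refine h2.mono fun n hn => ?_
    rw [map_mul, AV.map_ph, AV.map_ph, e, e, congrFun (e _ _ _) b, e0] at hn
    exact hn
  filter_upwards [h1, h3, germ_eq_zero.1 h.ao] with n hn1 hn3 hn2
  refine ⟨fun f hf => ?_, hn2, hn3⟩
  rw [← hT] at hf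
  exact (Ideal.span_le (I := RingHom.ker (aeval (R := k) (dv (x n) (v n))))).2 hn1 hf

/- `aeval_dv`, or `Derivation` chain rule (`dP_der` in `Av/LieA`). -/
theorem der_aeval {K F σ : Type} [Field K] [Field F] [Algebra K F] [Fintype σ]
    (d : Derivation K F F) (x : σ → F) (f : MvPolynomial σ K) :
    d (aeval x f) = ∑ b, aeval x (pderiv b f) * d (x b) := by
  classical
  induction f using MvPolynomial.induction_on with
  | C a => simp
  | add p q hp hq => simp only [map_add, hp, hq, add_mul, Finset.sum_add_distrib]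
  | mul_X p t hp =>
    have h : ∑ b, aeval x (p * pderiv b (X t : MvPolynomial σ K)) * d (x b) =
        aeval x p * d (x t) := by
      rw [Finset.sum_eq_single t]
      · rw [pderiv_X_self, mul_one]
      · intro b _ hb
        rw [pderiv_X_of_ne hb.symm, mul_zero, map_zero, zero_mul]
      · simp
    simp only [pderiv_mul, map_add, add_mul, Finset.sum_add_distrib, h]
    rw [map_mul, Derivation.leibniz, hp, aeval_X, smul_eq_mul, smul_eq_mul, add_comm,
      Finset.mul_sum]
    congr 1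
    exact Finset.sum_congr rfl fun b _ => by rw [map_mul, aeval_X]; ring

variable [NumberField k]

/- `Es.gsum_sup`; `max s t ≤ s * t` for `1 ≤ s`, `1 ≤ t`. -/
theorem ht_elim [Fintype ι] [Fintype κ] {x : ι → k} {z : κ → k} {a : ι} {b : κ} (hx : x a = 1)
    (hz : z b = 1) : logHeight (Sum.elim x z) ≤ logHeight x + logHeight z := by
  have hx0 : x ≠ 0 := Function.ne_iff.2 ⟨a, by simp [hx]⟩
  have hz0 : z ≠ 0 := Function.ne_iff.2 ⟨b, by simp [hz]⟩
  have h0 : Sum.elim x z ≠ 0 := Function.ne_iff.2 ⟨Sum.inl a, by simp [hx]⟩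
  rw [← Es.gsum_sup hx0, ← Es.gsum_sup hz0, ← Es.gsum_sup h0,
    ← Vj.gsum_add (Es.finS_sup x) (Es.finS_sup z)]
  refine Vj.pf_gsum_mono (Es.finS_sup _) ((Es.finS_sup x).add (Es.finS_sup z)) fun v => ?_
  have h1 : 1 ≤ ⨆ l, v (x l) := by simpa [hx] using Es.le_sup_av v x a
  have h2 : 1 ≤ ⨆ l, v (z l) := by simpa [hz] using Es.le_sup_av v z b
  rw [← Real.log_mul (by positivity) (by positivity)]
  refine Real.log_le_log (Es.sup_pos v h0) ?_
  have : Nonempty (ι ⊕ κ) := ⟨Sum.inl a⟩
  refine ciSup_le ?_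
  rintro (c | c)
  · exact (Es.le_sup_av v x c).trans (le_mul_of_one_le_right (by positivity) h2)
  · exact (Es.le_sup_av v z c).trans (le_mul_of_one_le_left (by positivity) h1)

/- The entries are determinants of `Y.updateRow j₀ (Pi.single l 1)` (`adjugate_apply`): integral
(`Es.int_det`) and at most `N! * exp (N * m)` at the infinite places (`Es.av_det_le`);
`Es.gsum_sup`, `Es.gsum_le_S ∅`. -/
theorem ht_nv (κ : Type) [Fintype κ] [DecidableEq κ] : ∃ C : ℝ, 0 ≤ C ∧
    ∀ (Y : Matrix κ κ k) (j₀ : κ) (m : ℝ), 0 ≤ m → (∀ i, IntV (Y i)) →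
      (∀ (w : InfinitePlace k) i l, i ≠ j₀ → w (Y i l) ≤ Real.exp m) →
      logHeight (nv Y j₀) ≤ C * (1 + m) := by
  have hf : (1 : ℝ) ≤ (Fintype.card κ).factorial := by
    exact_mod_cast Nat.factorial_pos (Fintype.card κ)
  have hl : 0 ≤ Real.log (Fintype.card κ).factorial := Real.log_nonneg hf
  have hM : (0 : ℝ) ≤ ∑ p : Pl (∅ : Finset (FinitePlace k)), (mu p : ℝ) := by positivity
  refine ⟨(∑ p : Pl (∅ : Finset (FinitePlace k)), (mu p : ℝ)) *
    (Real.log (Fintype.card κ).factorial + Fintype.card κ), by positivity,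
    fun Y j₀ m hm hY hw => ?_⟩
  rcases eq_or_ne (nv Y j₀) 0 with h0 | h0
  · rw [h0, logHeight_zero]
    positivity
  have : Nonempty κ := ⟨j₀⟩
  have h1 := Es.gsum_le_S (∅ : Finset (FinitePlace k)) (Es.finS_sup (nv Y j₀)) Vj.pf_finS_zero
    (fun _ => Real.log (Fintype.card κ).factorial + Fintype.card κ * m) (fun p => ?_)
    fun v _ => ?_
  · rw [Es.gsum_sup h0, Vj.pf_gsum_zero, zero_add, ← Finset.sum_mul] at h1
    refine h1.trans ?_
    rw [mul_assoc]
    refine mul_le_mul_of_nonneg_left ?_ hM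
    have : (0 : ℝ) ≤ Fintype.card κ := by positivity
    nlinarith [mul_nonneg hl hm]
  · rcases p with w | ⟨v, hv⟩
    · rw [zero_add, ← Real.log_exp (Fintype.card κ * m),
        ← Real.log_mul (by positivity) (by positivity)]
      refine Real.log_le_log (Es.sup_pos _ h0) (ciSup_le fun l => ?_)
      have h2 := Es.av_det_le w.1 (Y.updateRow j₀ (Pi.single l 1)) (fun _ => Real.exp m)
        (fun _ => 1) fun i j => by
          rw [mul_one, updateRow_apply]
          split_ifs with hi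
          · rw [Pi.single_apply]
            split_ifs
            · simpa using hm
            · simpa using (Real.exp_pos m).le
          · exact hw w i j hi
      rw [← adjugate_apply] at h2
      refine h2.trans (le_of_eq ?_)
      simp [← Real.exp_nat_mul]
    · exact absurd hv (Finset.notMem_empty v)
  · refine Real.log_nonpos (Es.sup_pos _ h0).le (ciSup_le fun l => Es.fin_le_oneA v ?_)
    rw [nv, adjugate_apply]
    refine Es.int_det fun i j => ?_
    rw [updateRow_apply]
    split_ifs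
    · rw [Pi.single_apply]
      split_ifs
      · exact isIntegral_one
      · exact isIntegral_zero
    · exact hY i j

variable [Fintype ι] [Fintype κ] [DecidableEq κ]

/-- A family of points that generates `B` over the small field, with boxes given by forms over the
small field. -/
structure Sq (U : Ultrafilter α) (B : AV k ι) (S : Finset (FinitePlace k)) (κ : Type) [Fintype κ]
    [DecidableEq κ] where
  /-- the points -/
  y : α → B.Pt k
  hH : Tendsto (fun n => AV.ht (y n)) U atTop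
  /-- their germ -/
  𝒴 : B.Pt (Up U k)
  /-- their coordinates -/
  w : α → ι → k
  /-- the coordinate of the points that equals `1` -/
  a₁ : ι
  /-- the row outside the hyperplane -/
  j₀ : κ
  /-- the coordinate of the normal vector that equals `1` -/
  α₀ : κ
  /-- the degree of the forms -/
  eM : ℕ
  /-- the pattern -/
  cc : Pl S → κ → ℝ
  /-- the forms -/
  𝓜 : Pl S → Matrix κ κ (MvPolynomial ι (Sm k hH))
  /-- their values -/
  N : α → Pl S → Matrix κ κ k
  /-- the lattice points -/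
  Y : α → Matrix κ κ k
  /-- the normal vectors -/
  z : α → κ → k
  isGerm : IsGerm U 𝒴 y
  gens : B.Gens (Sm k hH) 𝒴
  rep : ∀ᶠ n in U, AV.Rep (y n) (w n)
  one : ∀ᶠ n in U, w n a₁ = 1
  hom : ∀ p i j, (𝓜 p i j).IsHomogeneous eM
  val : ∀ p i j, aeval (gv U w) (𝓜 p i j) = germ U fun n => N n p i j
  det : ∀ᶠ n in U, ∀ p, (N n p).det ≠ 0
  pen : ∀ᶠ n in U, Pen (N n) j₀ (fun p l => cc p l * AV.ht (y n)) (Y n)
  oneα : ∀ᶠ n in U, z n α₀ = 1
  orth : ∀ᶠ n in U, ∀ i, i ≠ j₀ → z n ⬝ᵥ Y n i = 0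
  neg : vol cc < 0

namespace Sq

variable {B : AV k ι} {S : Finset (FinitePlace k)} (s : Sq U B S κ)

/-- The small field. -/
noncomputable abbrev K : IntermediateField k (Up U k) := Sm k s.hH

/-- The heights. -/
noncomputable abbrev H (n : α) : ℝ := AV.ht (s.y n)

/-- The germs that are algebraic over the field of the point. -/
noncomputable abbrev L : IntermediateField s.K (Up U k) := Cl s.K (rat s.𝒴.co)

/-- The input of the engine. -/
structure Inp {g : ℕ} (σ : Fin g → ι → k) where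
  /-- the base row -/
  j₁ : κ
  /-- the derivations -/
  d : Option (Fin g) → Derivation s.K (Up U k) (Up U k)
  /-- the pairings of the tangent vectors -/
  gg : α → Option (Fin g) → k
  /-- the common value -/
  G : α → k
  /-- the extra directions -/
  η : α → Pl S → κ → k
  ne : j₁ ≠ s.j₀
  hd : ∀ o, AV.lam ((d o).restrictScalars k) s.𝒴 = fun a => algebraMap k _ (∑ l, cv k o l * σ l a)
  hg : ∀ o, (germ U fun n => gg n o) = (fun l => d o (gv U s.z l)) ⬝ᵥ gv U fun n => s.Y n j₁
  hG : ∀ᶠ n in U, G n ≠ 0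
  dirS : ∀ᶠ n in U, ∀ p, ∃ t, G n = t * gg n none + s.z n ⬝ᵥ η n p
  box : ∀ ε : ℝ, 0 < ε → ∀ᶠ n in U, ∀ p l,
    av p ((s.N n p *ᵥ η n p) l) ≤ Real.exp ((s.cc p l + ε) * s.H n)
  dirO : ∀ ε : ℝ, 0 < ε → ∀ᶠ n in U, ∃ A, Ad A (ε * s.H n) ∧ ∀ v : FinitePlace k, v ∉ S →
    ∃ (c : Fin g → k) (y : κ → k) (t : k), (∀ l, v.1 (c l) ≤ A v.1) ∧ (∀ l, v.1 (y l) ≤ A v.1) ∧
      G n = ∑ l, c l * gg n (some l) + t * gg n none + s.z n ⬝ᵥ y

theorem repw : AV.Rep s.𝒴 (gv U s.w) := s.isGerm.rep s.rep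

include s in
theorem dim : 1 ≤ B.dim := B.one_le_dim s.hH s.isGerm

theorem gen : Gen (B.IK s.K) s.𝒴.co := gen_germ s.isGerm s.gens s.dim

include s in
/-- As in `AV.seq_core`. -/
theorem exists_par : ∃ ϱ, B.Par B.dim ϱ := by
  exact B.exists_par (B.dense_of_gens s.gens fun f n hf h =>
    (AV.aeval_germ_co s.isGerm hf).2 (.of_forall fun l => h _))

/- `gv U s.w a = s.𝒴.co a / s.𝒴.co s.a₁`. -/
theorem w_mem (a : ι) : gv U s.w a ∈ s.L := by
  obtain ⟨u, hu⟩ := s.repw
  have h1 : gv U s.w s.a₁ = 1 := by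
    rw [← map_one (germ U)]
    exact (germ_eq U).2 s.one
  have h2 : gv U s.w a = s.𝒴.co a / s.𝒴.co s.a₁ := by
    rw [← mul_div_mul_left _ _ u.ne_zero, ← hu, ← hu, h1, div_one]
  rw [h2]
  exact subset_cl _ ⟨(a, s.a₁), rfl⟩

/- `val`, `w_mem`. -/
theorem N_mem (p : Pl S) (i j : κ) : (germ U fun n => s.N n p i j) ∈ s.L := by
  rw [← s.val]
  generalize s.𝓜 p i j = f
  induction f using MvPolynomial.induction_on with
  | C c =>
    rw [aeval_C]
    exact IntermediateField.algebraMap_mem _ c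
  | add p q hp hq =>
    rw [map_add]
    exact add_mem hp hq
  | mul_X p t hp =>
    rw [map_mul, aeval_X]
    exact mul_mem hp (s.w_mem t)

theorem upper {f : α → k} (hf : germ U f ∈ s.L) (p : Pl S) {ε : ℝ} (hε : 0 < ε) :
    ∀ᶠ n in U, av p (f n) ≤ Real.exp (ε * s.H n) :=
  cl_upper s.isGerm s.gens s.dim (Rt.adm_av p) hf hε

theorem lower {f : α → k} (hf : germ U f ∈ s.L) (p : Pl S) {ε : ℝ} (hε : 0 < ε) :
    ∀ᶠ n in U, f n = 0 ∨ Real.exp (-(ε * s.H n)) ≤ av p (f n) :=
  cl_lower s.isGerm s.gens s.dim (Rt.adm_av p) hf hε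

/- `upper` for the entries, `lower` for the determinant (`germ_det`). -/
theorem tame {ε : ℝ} (hε : 0 < ε) : ∀ᶠ n in U, ∀ p, Tame (av p) (ε * s.H n) (s.N n p) := by
  have hdet : ∀ p, (germ U fun n => (s.N n p).det) ∈ s.L := fun p => by
    rw [← germ_det, Matrix.det_apply]
    refine sum_mem fun π _ => ?_
    rw [Units.smul_def]
    exact zsmul_mem (prod_mem fun i _ => s.N_mem p _ _) _
  refine eventually_all.2 fun p => ?_
  have h1 : ∀ᶠ n in U, ∀ i j, av p (s.N n p i j) ≤ Real.exp (ε * s.H n) :=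
    eventually_all.2 fun i => eventually_all.2 fun j => s.upper (s.N_mem p i j) p hε
  exact (h1.and ((s.lower (hdet p) p hε).and s.det)).mono fun n h =>
    ⟨h.1, h.2.1.resolve_left (h.2.2 p)⟩

/- Otherwise `D z` is orthogonal to all rows other than `j₀` of the germ of `Y` (`germ_det`), as is
`z`; `eq_smul_nv` twice, and `D (z α₀) = D 1 = 0`. -/
theorem exists_row (D : Derivation k (Up U k) (Up U k)) {l : κ} (h : D (gv U s.z l) ≠ 0) :
    ∃ j₁, j₁ ≠ s.j₀ ∧ (fun l => D (gv U s.z l)) ⬝ᵥ (gv U fun n => s.Y n j₁) ≠ 0 := by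
  by_contra hc
  push Not at hc
  have hY : (Matrix.of fun i j => germ U fun n => s.Y n i j).det ≠ 0 := by
    rw [germ_det, germ_ne_zero]
    exact s.pen.mono fun n hn => hn.det
  have h1 : gv U s.z s.α₀ = 1 := by
    rw [← map_one (germ U)]
    exact (germ_eq U).2 s.oneα
  obtain ⟨c, hc1⟩ := eq_smul_nv hY (j₀ := s.j₀) (z := gv U s.z) fun i hi => by
    change gv U s.z ⬝ᵥ gv U (fun n => s.Y n i) = 0
    rw [gv_dot, germ_eq_zero]
    exact s.orth.mono fun n hn => hn i hi
  obtain ⟨c', hc2⟩ := eq_smul_nv hY (j₀ := s.j₀) (z := fun l => D (gv U s.z l)) hc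
  have h2 := congrFun hc1 s.α₀
  have h3 := congrFun hc2 s.α₀
  have h4 := congrFun hc2 l
  simp only [Pi.smul_apply, smul_eq_mul] at h2 h3 h4
  rw [h1] at h2 h3
  rw [D.map_one_eq_zero, eq_comm, mul_eq_zero] at h3
  rcases h3 with h3 | h3
  · exact h (by rw [h4, h3, zero_mul])
  · rw [h3, mul_zero] at h2
    exact one_ne_zero h2

end Sq

end Pool.Agent.Lib.MP_651af7_nt.As
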