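import Pool.Agent.Lib.MP_651af7_nt.As.SqU
import Pool.Agent.Lib.MP_651af7_nt.Av.SeqS

/-! The theorem along an ultrafilter. -/

namespace Pool.Agent.Lib.MP_651af7_nt.As

open MvPolynomial Finset Height NumberField Matrix
open Av hiding Bad
open Es (Mo IX CX mo cx GA GC Bad Pen nv vol Tame IntV Dual)
open Rt (Pl av mu)

open Filter

variable {k ι κ : Type} [Field k]

/- `∑ i ∈ range (d + 1), homogeneousComponent i P * X a₀ ^ (d - i)`. -/
theorem exists_homog (a₀ : ι) (P : MvPolynomial ι k) {d : ℕ} (hd : P.totalDegree ≤ d) :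
    ∃ Q : MvPolynomial ι k, Q.IsHomogeneous d ∧ ∀ (R : Type) [CommRing R] [Algebra k R]
      (x : ι → R), x a₀ = 1 → aeval x Q = aeval x P := by
  refine ⟨∑ i ∈ range (d + 1), homogeneousComponent i P * X a₀ ^ (d - i), ?_, ?_⟩
  · refine IsHomogeneous.sum _ _ _ fun i hi => ?_
    have h := (homogeneousComponent_isHomogeneous i P).mul (isHomogeneous_X_pow a₀ (d - i))
    rwa [Nat.add_sub_cancel' (Nat.lt_succ_iff.1 (mem_range.1 hi))] at h
  · intro R _ _ x hx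
    have h : ∑ i ∈ range (d + 1), homogeneousComponent i P = P := by
      conv_rhs => rw [← sum_homogeneousComponent P]
      refine (sum_subset (range_subset_range.2 (Nat.succ_le_succ hd)) fun i _ hi => ?_).symm
      exact homogeneousComponent_eq_zero i P (by simpa using hi)
    conv_rhs => rw [← h]
    simp only [map_sum, map_mul, map_pow, aeval_X, hx, one_pow, mul_one]

/-- A point of the affine part `X a₀ = 1`. -/
def Aff (A : AV k ι) (a₀ : ι) (x : ι → k) : Prop := x a₀ = 1 ∧ ∀ f ∈ A.I, eval x f = 0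

variable [NumberField k] [Fintype ι] [Fintype κ] [DecidableEq κ] {S : Finset (FinitePlace k)}

/-- A box of small volume over a point of the variety. -/
structure Hyp (A : AV k ι) (a₀ : ι) (M : Pl S → Matrix κ κ (MvPolynomial ι k)) (j₀ : κ)
    (δ Γ q : ℝ) (x : ι → k) (Y : Matrix κ κ k) (bb : Pl S → κ → ℝ) : Prop where
  aff : Aff A a₀ x
  ht : logHeight x ≤ q
  det : ∀ p, ((M p).map (eval x)).det ≠ 0
  bd : ∀ p l, |bb p l| ≤ Γ * q
  neg : vol bb ≤ -(δ * q)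
  pen : Pen (fun p => (M p).map (eval x)) j₀ bb Y

variable {α : Type} {U : Ultrafilter α} {A : AV k ι} {a₀ : ι}
  {M : Pl S → Matrix κ κ (MvPolynomial ι k)} {j₀ : κ} {δ Γ γ : ℝ} {q : α → ℝ} {x : α → ι → k}
  {Y : α → Matrix κ κ k} {bb : α → Pl S → κ → ℝ}

/- Multiply the forms by `l n`: the sides become `bb + ε * H n`; they are at most
`Γ' * H n` in absolute value and their volume is at most `-(δ / 4) * H n`; `Es.exists_patX` and
the ultrafilter (`Ultrafilter.eventually_exists_mem_iff` or `finite_biUnion_mem_iff`),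
`Es.Pen.mono`. -/
theorem exists_cc {N : α → Pl S → Matrix κ κ k} {H : α → ℝ} (hH : Tendsto H U atTop) {c : ℝ}
    (hδ : 0 < δ) (h1 : ∀ᶠ n in U, H n ≤ 2 * q n ∧ q n ≤ c * H n)
    (h2 : ∀ᶠ n in U, (∀ p l, |bb n p l| ≤ Γ * q n) ∧ vol (bb n) ≤ -(δ * q n) ∧
      Pen (N n) j₀ (bb n) (Y n)) {l : α → k}
    (hl : ∀ ε : ℝ, 0 < ε → ∀ᶠ n in U, ∀ p : Pl S, av p (l n) ≤ Real.exp (ε * H n)) :
    ∃ cc : Pl S → κ → ℝ, vol cc < 0 ∧
      ∀ᶠ n in U, Pen (fun p => l n • N n p) j₀ (fun p j => cc p j * H n) (Y n) := by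
  obtain ⟨m, hm⟩ : ∃ m : ℝ, m = (∑ p : Pl S, (mu p : ℝ)) * Fintype.card κ := ⟨_, rfl⟩
  have hm0 : 0 ≤ m := hm ▸ mul_nonneg (Finset.sum_nonneg fun p _ => Nat.cast_nonneg _)
    (Nat.cast_nonneg _)
  obtain ⟨ε, hε, hmε⟩ : ∃ ε : ℝ, 0 < ε ∧ m * ε ≤ δ / 4 := by
    refine ⟨δ / (4 * (m + 1)), by positivity, ?_⟩
    rw [← mul_div_assoc, div_le_div_iff₀ (by positivity) four_pos]
    nlinarith
  obtain ⟨G, hG, hG'⟩ := Es.exists_patX S κ (|Γ| * |c| + ε) (δ := δ / 4) (by positivity)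
  have key : ∀ᶠ n in U, ∃ cc ∈ (G : Set (Pl S → κ → ℝ)),
      Pen (fun p => l n • N n p) j₀ (fun p j => cc p j * H n) (Y n) := by
    filter_upwards [hH.eventually_gt_atTop 0, h1, h2, hl ε hε] with n h0 ⟨h3, h4⟩ ⟨h5, h6, h7⟩ h8
    have hq : 0 < q n := by linarith
    have hεH : 0 < ε * H n := mul_pos hε h0
    have hΓ : Γ * q n ≤ |Γ| * |c| * H n := by
      rw [mul_assoc]
      exact mul_le_mul (le_abs_self Γ)
        (h4.trans (mul_le_mul_of_nonneg_right (le_abs_self c) h0.le)) hq.le (abs_nonneg Γ)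
    obtain ⟨cc, hcc, hb⟩ := hG' (H n) (fun p j => bb n p j + ε * H n) h0
      (fun p j => by
        have h9 := abs_le.1 (h5 p j)
        rw [abs_le, add_mul]
        constructor <;> linarith [h9.1, h9.2])
      (by
        have h9 : vol (fun p j => bb n p j + ε * H n) = vol (bb n) + m * ε * H n := by
          simp only [vol, hm, sum_add_distrib, mul_add, sum_const, card_univ, nsmul_eq_mul,
            sum_mul, mul_assoc]
        have h10 := mul_le_mul_of_nonneg_right hmε h0.le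
        have h11 := mul_le_mul_of_nonneg_left h3 hδ.le
        rw [h9]
        linarith)
    refine ⟨cc, hcc, Es.Pen.mono ⟨h7.int, h7.det, fun p i j hi => ?_⟩ hb⟩
    rw [smul_mulVec, Pi.smul_apply, smul_eq_mul, map_mul, Real.exp_add, mul_comm]
    exact mul_le_mul (h7.bd p i j hi) (h8 p) (apply_nonneg _ _) (Real.exp_pos _).le
  obtain ⟨cc, hcc, h⟩ := (Ultrafilter.eventually_exists_mem_iff G.finite_toSet).1 key
  exact ⟨cc, by linarith [(hG cc hcc).2], h⟩

/- Let `P n` be a point with `Rep (P n) (x n)` eventually (`AV.exists_rep`); `AV.exists_coset`.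
`w n = (y n).co / (y n).co a₁` as in `AV.exists_blk`.  `AV.exists_ph_eq` over `Up U k` for `gv U w`,
the image of `aK.co` and `gv U x` gives `p` and `b` with `p b ≠ 0`; `p b = A.ph a₀ b _ _` lies in the
closure.  `𝓜 p i j = A.shift aK.co (Q p i j) b` with `Q` from `exists_homog` (`shift_hom`,
`aeval_shift`, `aeval_mul_of_hom`), `l` represents `p b ^ d`.  `q ≤ c * H` by `AV.ht_add_le` and
`Coset.lo`; `exists_cc` with `cl_upper`; `z n = nv / nv α₀` (`nv_ne`, `nv_orth`). -/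
theorem exists_sq (hδ : 0 < δ) (hγ : 0 < γ) (hq : Tendsto q U atTop)
    (h : ∀ᶠ n in U, γ * q n ≤ logHeight (x n) ∧ Hyp A a₀ M j₀ δ Γ (q n) (x n) (Y n) (bb n)) :
    ∃ (B : AV k ι) (hB : Sub A B) (s : Sq U B S κ) (𝒳 : A.Pt (Up U k)) (a : A.Pt s.K)
      (l : α → k), hB.inc (Up U k) s.𝒴 = 𝒳 - A.map (IsScalarTower.toAlgHom k s.K (Up U k)) a ∧
      AV.Rep 𝒳 (gv U x) ∧ s.j₀ = j₀ ∧ s.Y = Y ∧ (∀ᶠ n in U, s.H n ≤ 2 * q n) ∧
      ∀ n p, s.N n p = l n • (M p).map (eval (x n)) := by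
  classical
  have hP0 : ∀ n, ∃ P : A.Pt k, Aff A a₀ (x n) → AV.Rep P (x n) := fun n => by
    by_cases hn : Aff A a₀ (x n)
    · obtain ⟨P, hP⟩ := AV.exists_rep (A := A) (v := x n) ⟨a₀, hn.1 ▸ isUnit_one⟩ fun f hf => by
        rw [aeval_eq_eval]
        exact hn.2 f hf
      exact ⟨P, fun _ => hP⟩
    · exact ⟨0, fun h => (hn h).elim⟩
  choose P hP using hP0
  have hrep : ∀ᶠ n in U, AV.Rep (P n) (x n) := h.mono fun n hn => hP n hn.2.aff
  have hlo : ∀ᶠ n in U, γ * q n ≤ AV.ht (P n) ∧ AV.ht (P n) ≤ q n := by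
    filter_upwards [h, hrep] with n h1 h2
    rw [AV.ht_eq h2]
    exact ⟨h1.1, h1.2.ht⟩
  obtain ⟨B, hB, y, a, hH, X, 𝒴, aK, a', hC⟩ := A.exists_coset P
    (tendsto_atTop_mono' _ (hlo.mono fun n hn => hn.1) (hq.const_mul_atTop hγ))
  obtain ⟨a₁, ha₁⟩ := AV.Rep.unit hC.gY
  obtain ⟨w, hw, hw1⟩ : ∃ w : α → ι → k, (∀ᶠ n in U, AV.Rep (y n) (w n)) ∧ ∀ᶠ n in U, w n a₁ = 1 :=
    ⟨fun n c => ((y n).co a₁)⁻¹ * (y n).co c,
      (germ_isUnit.1 ha₁).mono fun n hn => (AV.rep_co (y n)).smul hn.inv,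
      (germ_isUnit.1 ha₁).mono fun n hn => inv_mul_cancel₀ hn.ne_zero⟩
  have hW : AV.Rep 𝒴 (gv U w) := hC.gY.rep hw
  have hX : AV.Rep X (gv U x) := hC.gX.rep hrep
  obtain ⟨p, hp, he⟩ := AV.exists_ph_eq (hB.rep_inc hW)
    ((AV.rep_co aK).map (IsScalarTower.toAlgHom k (Sm k hH) (Up U k))) (s := gv U x)
    (by rw [hC.sub, sub_add_cancel]; exact hX)
  obtain ⟨b, hb⟩ := hp.unit
  have hx1 : gv U x a₀ = 1 := by
    rw [← map_one (germ U), germ_eq]
    exact h.mono fun n hn => hn.2.aff.1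
  have hw2 : gv U w a₁ = 1 := by
    rw [← map_one (germ U), germ_eq]
    exact hw1
  have hval : ∀ (G : MvPolynomial ι k) (d : ℕ), G.IsHomogeneous d →
      aeval (gv U w) (A.shift aK.co G b) = p b ^ d * aeval (gv U x) G := fun G d hG => by
    rw [AV.aeval_shift, ← aeval_mul_of_hom hG]
    exact congrArg (fun z => aeval z G) (funext fun c => he c b)
  have hpb : p b ∈ Cl (Sm k hH) (rat 𝒴.co) := by
    have h1 := hval _ 1 (isHomogeneous_X k a₀)
    rw [aeval_X, hx1, mul_one, pow_one] at h1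
    rw [← h1, aeval_def]
    refine eval₂_mem (fun _ _ => IntermediateField.algebraMap_mem _ _) fun c => subset_cl _ ?_
    rw [B.tr_rat_rep hW]
    exact ⟨(c, a₁), by simp only [hw2, div_one]⟩
  obtain ⟨d, hd⟩ := Finite.exists_le fun t : Pl S × κ × κ => (M t.1 t.2.1 t.2.2).totalDegree
  choose Q hQ hQ' using fun p i j => exists_homog a₀ (M p i j) (hd (p, i, j))
  obtain ⟨l, hl⟩ := germ_surj U (p b ^ d)
  have hl0 : ∀ᶠ n in U, l n ≠ 0 := germ_ne_zero.1 (by
    rw [show (germ U) l = _ from hl]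
    exact pow_ne_zero _ hb.ne_zero)
  obtain ⟨C, hC0, hadd⟩ := A.ht_add_le one_pos
  have hcmp : ∀ᶠ n in U, AV.ht (y n) ≤ 2 * q n ∧ q n ≤ (2 + 2 * C) / γ * AV.ht (y n) := by
    filter_upwards [hlo, hC.le, hC.lo 1 one_pos, hH.eventually_ge_atTop 1] with n h1 h2 h3 h4
    refine ⟨by linarith [h1.2], ?_⟩
    have h5 := (hadd (hB.inc k (y n)) (a n)).1
    rw [← hC.add, AV.ht_inc] at h5
    have h6 := mul_le_mul_of_nonneg_left
      (by linarith : AV.ht (a n) + 1 ≤ 2 * AV.ht (y n)) hC0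
    rw [div_mul_eq_mul_div, le_div_iff₀ hγ]
    linarith [h1.1]
  obtain ⟨cc, hcc, hpen⟩ := exists_cc (N := fun n p => (M p).map (eval (x n))) hH hδ hcmp
    (h.mono fun n hn => ⟨hn.2.bd, hn.2.neg, hn.2.pen⟩) (l := l) fun ε hε =>
      eventually_all.2 fun p' => cl_upper hC.gY hC.gens hC.dim (Rt.adm_av p')
        (hl ▸ pow_mem hpb d) hε
  obtain ⟨α₀, hα₀⟩ := Ultrafilter.eventually_exists_iff.1
    (h.mono fun n hn => Function.ne_iff.1 (nv_ne hn.2.pen.det j₀))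
  refine ⟨B, hB,
    { y := y, hH := hH, 𝒴 := 𝒴, w := w, a₁ := a₁, j₀ := j₀, α₀ := α₀, eM := 2 * d, cc := cc
      𝓜 := fun p' => Matrix.of fun i j => A.shift aK.co (Q p' i j) b
      N := fun n p' => l n • (M p').map (eval (x n))
      Y := Y
      z := fun n => ((Y n).adjugate α₀ j₀)⁻¹ • fun l => (Y n).adjugate l j₀
      isGerm := hC.gY, gens := hC.gens, rep := hw, one := hw1
      hom := fun p' i j => AV.shift_hom _ (hQ p' i j) b
      val := fun p' i j => ?_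
      det := ?_
      pen := hpen
      oneα := hα₀.mono fun n hn => inv_mul_cancel₀ hn
      orth := .of_forall fun n i hi => by rw [smul_dotProduct, nv_orth _ hi, smul_zero]
      neg := hcc }, X, aK, l, hC.sub, hX, rfl, rfl, hcmp.mono fun n hn => hn.1, fun _ _ => rfl⟩
  · rw [Matrix.of_apply, hval _ d (hQ p' i j), hQ' p' i j _ _ hx1, aeval_germ, ← hl, ← map_mul]
    rfl
  · filter_upwards [h, hl0] with n h1 h2 p'
    rw [Matrix.det_smul]
    exact mul_ne_zero (pow_ne_zero _ h2) (h1.2.det p')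

omit [NumberField k] [Fintype ι] in
private theorem sqE_rat {F : Type} [Field F] [Algebra k F] {A : AV k ι} {X : A.Pt F} {v : ι → F}
    (hv : AV.Rep X v) (b c : ι) : X.co b / X.co c = v b / v c := by
  obtain ⟨u, hu⟩ := hv
  rw [hu b, hu c, mul_div_mul_left _ _ u.ne_zero]

omit [NumberField k] [Fintype ι] in
private theorem sqE_aeval {K F : Type} [Field K] [Field F] [Algebra k K] [Algebra k F]
    [Algebra K F] [IsScalarTower k K F] (L : IntermediateField K F) {v : ι → F}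
    (hv : ∀ c, v c ∈ L) (f : MvPolynomial ι k) : aeval v f ∈ L := by
  induction f using MvPolynomial.induction_on with
  | C c =>
    rw [aeval_C, IsScalarTower.algebraMap_apply k K F]
    exact L.algebraMap_mem _
  | add f g hf hg =>
    rw [map_add]
    exact add_mem hf hg
  | mul_X f c hf =>
    rw [map_mul, aeval_X]
    exact mul_mem hf (hv c)

omit [NumberField k] [Fintype ι] [DecidableEq κ] in
private theorem sqE_dual {v : AbsoluteValue k ℝ} {w : κ → k} {N : Matrix κ κ k} {c : k}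
    (hc : c ≠ 0) {a b : ℝ} (hab : 2 * a ≤ b) (j : κ) (h1 : ∀ l, v ((c • w) l) ≤ Real.exp a)
    (h2 : ((c • w) ᵥ* N) j = 0 ∨ Real.exp (-a) ≤ v (((c • w) ᵥ* N) j)) :
    (w ᵥ* N) j = 0 ∨ Real.exp (-b) * (⨆ l, v (w l)) ≤ v ((w ᵥ* N) j) := by
  have : Nonempty κ := ⟨j⟩
  rw [Matrix.smul_vecMul, Pi.smul_apply, smul_eq_mul] at h2
  have hv : 0 < v c := v.pos hc
  rcases h2 with h2 | h2
  · exact Or.inl ((mul_eq_zero.1 h2).resolve_left hc)
  · refine Or.inr ?_
    rw [map_mul] at h2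
    have h3 : (⨆ l, v (w l)) ≤ Real.exp a / v c := ciSup_le fun l => by
      have := h1 l
      rw [Pi.smul_apply, smul_eq_mul, map_mul] at this
      rw [le_div_iff₀ hv, mul_comm]
      exact this
    have h4 : Real.exp (-b) * Real.exp a ≤ Real.exp (-a) := by
      rw [← Real.exp_add]
      exact Real.exp_le_exp.2 (by linarith)
    calc Real.exp (-b) * (⨆ l, v (w l)) ≤ Real.exp (-b) * (Real.exp a / v c) :=
          mul_le_mul_of_nonneg_left h3 (Real.exp_pos _).le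
      _ = Real.exp (-b) * Real.exp a / v c := by ring
      _ ≤ v ((w ᵥ* N) j) := by
          rw [div_le_iff₀ hv, mul_comm (v _)]
          exact h4.trans h2

omit [Fintype ι] in
private theorem sqE_smul {B : AV k ι} (s : Sq U B S κ) :
    ∀ᶠ n in U, ∃ c : k, c ≠ 0 ∧ s.z n = c • nv (s.Y n) s.j₀ := by
  filter_upwards [s.pen, s.orth, s.oneα] with n h1 h2 h3
  obtain ⟨c, hc⟩ := eq_smul_nv h1.det h2
  refine ⟨c, ?_, hc⟩
  rintro rfl
  rw [hc, zero_smul] at h3
  exact zero_ne_one h3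

omit [NumberField k] [Fintype ι] in
private theorem sqE_mem {𝒳 : A.Pt (Up U k)} (hrep : AV.Rep 𝒳 (gv U x))
    (h : ∀ᶠ n in U, x n a₀ = 1) (c : ι) : gv U x c ∈ rat 𝒳.co := by
  have h1 : gv U x a₀ = 1 := by
    rw [← map_one (germ U)]
    exact (germ_eq U).2 h
  refine ⟨(c, a₀), ?_⟩
  change 𝒳.co c / 𝒳.co a₀ = _
  rw [sqE_rat hrep, h1, div_one]

/- `exists_sq`; the coordinates of `gv U x` lie in `s.L` (`cl_rat_eq`, `x a₀ = 1`);
`s.z n = c • nv` with `c ≠ 0` (`eq_smul_nv`).  The germs of `(s.z n ᵥ* adj (M p (x n))) j` lie in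
`s.L` (`Sq.z_mem`, `RingHom.map_adjugate`, `aeval_germ`): `Sq.lower`; `Sq.upper` for `s.z`. -/
theorem seq_dual (hδ : 0 < δ) (hγ : 0 < γ) (hq : Tendsto q U atTop)
    (h : ∀ᶠ n in U, γ * q n ≤ logHeight (x n) ∧ Hyp A a₀ M j₀ δ Γ (q n) (x n) (Y n) (bb n))
    {η : ℝ} (hη : 0 < η) :
    ∀ᶠ n in U, Dual (fun p => (M p).map (eval (x n))) j₀ (η * q n) (Y n) := by
  obtain ⟨B, hB, s, 𝒳, a, l, hsub, hrep, hj, hY, hH, -⟩ := exists_sq hδ hγ hq h
  have hx : ∀ c, gv U x c ∈ s.L := fun c => by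
    change _ ∈ Cl s.K (rat s.𝒴.co)
    rw [cl_rat_eq hB hsub]
    exact subset_cl _ (sqE_mem hrep (h.mono fun n hn => hn.2.aff.1) c)
  have hε : 0 < η / 4 := by positivity
  have hm : ∀ p j, (germ U fun n => (s.z n ᵥ* ((M p).map (eval (x n))).adjugate) j) ∈ s.L := by
    intro p j
    have e : (fun n => (s.z n ᵥ* ((M p).map (eval (x n))).adjugate) j) =
        fun n => ∑ i, ((fun n => s.z n i) * fun n => eval (x n) ((M p).adjugate i j)) n := by
      funext n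
      have := RingHom.map_adjugate (eval (x n)) (M p)
      rw [RingHom.mapMatrix_apply, RingHom.mapMatrix_apply] at this
      rw [← this]
      rfl
    rw [e, ← germ_sum]
    refine sum_mem fun i _ => ?_
    rw [map_mul, ← aeval_germ]
    exact mul_mem (s.z_mem i) (sqE_aeval _ hx _)
  have h1 : ∀ᶠ n in U, ∀ p : Pl S, ∀ i, av p (s.z n i) ≤ Real.exp (η / 4 * s.H n) :=
    eventually_all.2 fun p => eventually_all.2 fun i => s.upper (s.z_mem i) p hε
  have h2 := eventually_all.2 fun p : Pl S => eventually_all.2 fun j => s.lower (hm p j) p hε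
  filter_upwards [h1, h2, sqE_smul s, hH] with n h1 h2 h3 h4
  obtain ⟨c, hc, hz⟩ := h3
  rw [hj, hY] at hz
  rw [hz] at h1 h2
  intro p j
  exact sqE_dual hc (by nlinarith) j (h1 p) (h2 p j)

/- `exists_sq`.  If `gv U s.z l ∉ Cl k (rat 𝒳.co)` then `exists_der` (with `exists_dl`, `Sq.gen`,
`Sq.z_mem`) gives `D`, which kills the coordinates of `gv U x` and so the entries of
`(M p).map (aeval (gv U x))` (`der_aeval`); `Sq.der_zero`.  Finally `nv b / nv a = z b / z a` and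
`Cl k (rat 𝒳.co) ≤ Cl k (range (gv U x))` (`cl_le`). -/
theorem seq_alg (hδ : 0 < δ) (hγ : 0 < γ) (hq : Tendsto q U atTop)
    (h : ∀ᶠ n in U, γ * q n ≤ logHeight (x n) ∧ Hyp A a₀ M j₀ δ Γ (q n) (x n) (Y n) (bb n))
    (a b : κ) : (germ U fun n => nv (Y n) j₀ b / nv (Y n) j₀ a) ∈ Cl k (Set.range (gv U x)) := by
  obtain ⟨B, hB, s, 𝒳, aK, l, hsub, hrep, hj, hY, -, hN⟩ := exists_sq hδ hγ hq h
  have hr := sqE_mem hrep (h.mono fun n hn => hn.2.aff.1)
  have hx : ∀ c, gv U x c ∈ s.L := fun c => by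
    change _ ∈ Cl s.K (rat s.𝒴.co)
    rw [cl_rat_eq hB hsub]
    exact subset_cl _ (hr c)
  have hz : ∀ i, gv U s.z i ∈ Cl k (rat 𝒳.co) := by
    intro i
    by_contra hi
    obtain ⟨ϱ, hϱ⟩ := s.exists_par
    obtain ⟨d, hd⟩ := exists_dl hϱ.basis s.gen
    obtain ⟨D₀, D, τ, hD, h0, hτ, hne⟩ := exists_der hϱ.basis hd hB hsub (s.z_mem i) hi
    refine hne (s.der_zero hϱ hD hτ (c := germ U l)
      (M := fun p => (M p).map (aeval (gv U x))) (fun p i j => ?_)
      (fun p i j => sqE_aeval _ hx _) (fun p i j => ?_) i)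
    · rw [Matrix.map_apply, aeval_germ, ← map_mul]
      exact congrArg _ (funext fun n => by rw [hN]; rfl)
    · rw [Matrix.map_apply, der_aeval]
      exact Finset.sum_eq_zero fun c _ => by rw [h0 _ (hr c), mul_zero]
  have hle : Cl k (rat 𝒳.co) ≤ Cl k (Set.range (gv U x)) := cl_le (by
    rintro _ ⟨⟨c, c'⟩, rfl⟩
    change 𝒳.co c / 𝒳.co c' ∈ Cl k (Set.range (gv U x))
    rw [sqE_rat hrep]
    exact div_mem (subset_cl _ ⟨c, rfl⟩) (subset_cl _ ⟨c', rfl⟩))
  have e : (germ U fun n => nv (Y n) j₀ b / nv (Y n) j₀ a) = gv U s.z b / gv U s.z a := by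
    rw [germ_div, germ_eq]
    filter_upwards [sqE_smul s] with n hn
    obtain ⟨c, hc, hz⟩ := hn
    rw [hj, hY] at hz
    rw [hz, Pi.smul_apply, Pi.smul_apply, smul_eq_mul, smul_eq_mul, mul_div_mul_left _ _ hc]
  rw [e]
  exact hle (div_mem (hz b) (hz a))

end Pool.Agent.Lib.MP_651af7_nt.As
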