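import Pool.Agent.Lib.MP_651af7_nt.As.SqB

/-! The normal vectors are algebraic. -/

namespace Pool.Agent.Lib.MP_651af7_nt.As

open MvPolynomial Finset Height NumberField Matrix
open Av hiding Bad
open Es (Mo IX CX mo cx GA GC Bad Pen nv vol Tame IntV Dual)
open Rt (Pl av mu)

open Filter

/- Normalise `x = Y.co / Y.co a`; `x` and `l = lam D Y` come from `L` (`AV.exists_map_eq`);
`IsLie.exists_tang` over `L` gives `v`, `Tang.map`; `D x - v` is a multiple of `x` (`Tang.add`,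
`Tang.smul`, `Tang.eq_smul`) and `D (x a) = 0`. -/
theorem der_mem_of_lam {k ι F : Type} [Field k] [Field F] [Algebra k F] {B : AV k ι} {Y : B.Pt F}
    {D : Derivation k F F} (L : IntermediateField k F) (hL : rat Y.co ⊆ L)
    (h : ∀ a, AV.lam D Y a ∈ L) : ∀ x ∈ rat Y.co, D x ∈ L := by
  obtain ⟨b, hb⟩ := (AV.rep_co Y).unit
  obtain ⟨x, hx, h1⟩ := (AV.rep_co Y).norm hb
  have h2 : ∀ a, x a ∈ L := fun a => hL (B.tr_rat_rep hx ▸ ⟨(a, b), by simp [h1]⟩)
  obtain ⟨p, hp, -⟩ := AV.exists_map_eq (f := L.val) (v := fun a => ⟨x a, h2 a⟩) L.val.injective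
    ⟨b, IsUnit.mk0 _ fun e => one_ne_zero (h1.symm.trans (congrArg Subtype.val e))⟩ hx
  have h3 := AV.isLie_iff.1 ((AV.lam_tang D hx).isLie hx)
  obtain ⟨v, hv⟩ := AV.IsLie.exists_tang (l := fun a => (⟨_, h a⟩ : L)) hp (AV.isLie_iff.2
    ⟨fun f hf => L.val.injective ((map_dP L.val _ _ f).trans ((h3.1 f hf).trans (map_zero _).symm)),
      Subtype.ext h3.2⟩)
  obtain ⟨c, hc⟩ := AV.Tang.eq_smul hx (by
    simpa using (AV.lam_tang D hx).add hx ((hv.map L.val).smul hx (-1)))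
  have h4 : ∀ a, D (x a) ∈ L := fun a => by
    have h5 := congrFun hc a
    have h6 := congrFun hc b
    simp only [Pi.add_apply, Pi.neg_apply, Pi.smul_apply, h1, D.map_one_eq_zero, smul_eq_mul,
      mul_one, zero_add] at h5 h6
    rw [add_neg_eq_iff_eq_add.1 h5, ← h6]
    exact add_mem (mul_mem (neg_mem (v b).2) (h2 a)) (v a).2
  rw [B.tr_rat_rep hx]
  rintro _ ⟨⟨a, c⟩, rfl⟩
  rw [D.leibniz_div]
  exact mul_mem (pow_mem (inv_mem (h2 _)) _)
    (sub_mem (mul_mem (h2 _) (h4 _)) (mul_mem (h2 _) (h4 _)))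

variable {α : Type} {U : Ultrafilter α} {k ι κ : Type} [Field k] [NumberField k] [Fintype ι]
  [Fintype κ] [DecidableEq κ] {B : AV k ι} {S : Finset (FinitePlace k)}

namespace Sq

variable (s : Sq U B S κ)

theorem exists_dual {ϱ : ι → MvPowerSeries (Fin B.dim) k} (hϱ : B.Par B.dim ϱ) (j₁ : κ)
    (d₀ : Derivation s.K (Up U k) (Up U k)) (h₀ : AV.lam (d₀.restrictScalars k) s.𝒴 = 0) :
    ∃ (d : Option (Fin B.dim) → Derivation s.K (Up U k) (Up U k))
      (gg : α → Option (Fin B.dim) → k), d none = d₀ ∧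
      (∀ l, AV.lam ((d (some l)).restrictScalars k) s.𝒴 = fun a => algebraMap k _ (lin ϱ l a)) ∧
      (∀ o, AV.lam ((d o).restrictScalars k) s.𝒴 =
        fun a => algebraMap k _ (∑ l, cv k o l * lin ϱ l a)) ∧ ∀ o, (germ U fun n => gg n o) =
      (fun l => d o (gv U s.z l)) ⬝ᵥ gv U fun n => s.Y n j₁ := by
  obtain ⟨d, hd⟩ := exists_dl hϱ.basis s.gen
  choose gg hgg using fun o : Option (Fin B.dim) => germ_surj U
    ((fun l => o.elim d₀ d (gv U s.z l)) ⬝ᵥ gv U fun n => s.Y n j₁)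
  refine ⟨fun o => o.elim d₀ d, fun n o => gg o n, rfl, hd, fun o => ?_, hgg⟩
  cases o with
  | none => exact h₀.trans (funext fun a => by simp [cv])
  | some l => exact (hd l).trans (funext fun a => by simp [cv])

/- Otherwise `exists_der_one` gives `d₀` that kills `rat s.𝒴.co` (`lam_eq_zero_iff`) and moves the
coordinate.  `exists_par`, `exists_dl` with `gen`, `exists_row`; `Inp.false` with `d none = d₀`,
`G = gg none`, `η = 0`, `A = 1`, `c = 0`, `y = 0`, `t = 1`. -/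
theorem z_mem (l : κ) : gv U s.z l ∈ s.L := by
  have : CharZero s.K := charZero_of_injective_algebraMap (algebraMap k _).injective
  by_contra hc
  obtain ⟨ϱ, hϱ⟩ := s.exists_par
  obtain ⟨d₀, h1, h2⟩ := exists_der_one hc
  obtain ⟨j₁, hj, h3⟩ := s.exists_row (d₀.restrictScalars k) (l := l) (h2 ▸ one_ne_zero)
  obtain ⟨d, gg, rfl, -, hd, hgg⟩ := s.exists_dual hϱ j₁ d₀ (lam_eq_zero_iff.2 h1)
  exact Inp.false s hϱ ⟨j₁, d, gg, fun n => gg n none, 0, hj, hd, hgg,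
    germ_ne_zero.1 ((hgg none).trans_ne h3), .of_forall fun n p => ⟨1, by simp⟩,
    fun ε _ => .of_forall fun n p l => by simp [(Real.exp_pos _).le], fun ε hε =>
      .of_forall fun n => ⟨_, ad_one.mono (mul_nonneg hε.le (AV.ht_nonneg _)), fun v _ =>
        ⟨0, 0, 1, by simp, by simp, by simp⟩⟩⟩

/- `exists_dirS` for `M p`, `z`, `y`; let `η p` represent the vector.  With `ζ = z ᵥ* adj (M p)`
all `D (ζ j) / ζ j` lie in `s.L` (`z_mem`, `hD`), so they are at most `exp (ε H)` (`upper`), and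
`N *ᵥ η = c • (M *ᵥ η)`; `Pen.bd`. -/
theorem exists_eta {D : Derivation k (Up U k) (Up U k)} (hD : ∀ u ∈ s.L, D u ∈ s.L)
    {c : Up U k} {M : Pl S → Matrix κ κ (Up U k)}
    (hN : ∀ p i j, (germ U fun n => s.N n p i j) = c * M p i j) (hM : ∀ p i j, M p i j ∈ s.L)
    (h0 : ∀ p i j, D (M p i j) = 0) {j₁ : κ} (hj : j₁ ≠ s.j₀) :
    ∃ η : α → Pl S → κ → k, (∀ p, (germ U fun n => s.z n ⬝ᵥ η n p) =
        (fun l => D (gv U s.z l)) ⬝ᵥ gv U fun n => s.Y n j₁) ∧
      ∀ ε : ℝ, 0 < ε → ∀ᶠ n in U, ∀ p l,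
        av p ((s.N n p *ᵥ η n p) l) ≤ Real.exp ((s.cc p l + ε) * s.H n) := by
  have hN' : ∀ p, (Matrix.of fun i j => germ U fun n => s.N n p i j) = c • M p := fun p =>
    Matrix.ext (hN p)
  have h4 : ∀ p, (M p).det ≠ 0 := fun p h => by
    have h5 : (germ U fun n => (s.N n p).det) ≠ 0 := germ_ne_zero.2 (s.det.mono fun n hn => hn p)
    rw [← germ_det, hN', det_smul, h, mul_zero] at h5
    exact h5 rfl
  choose η hη hη' using fun p => exists_dirS D (h4 p) (h0 p) (gv U s.z) (gv U fun n => s.Y n j₁)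
  choose ηn hηn using fun p l => germ_surj U (η p l)
  refine ⟨fun n p l => ηn p l n, fun p => ?_, fun ε hε => eventually_all.2 fun p =>
    eventually_all.2 fun j => ?_⟩
  · rw [← hη' p, ← funext (hηn p), ← gv_dot]
  have h5 : (gv U s.z ᵥ* (M p).adjugate) j ∈ s.L := by
    refine sum_mem fun l _ => mul_mem (s.z_mem l) ?_
    change (M p).adjugate l j ∈ _
    rw [adjugate_apply, det_apply']
    refine sum_mem fun _ _ => mul_mem (intCast_mem _ _) (prod_mem fun _ _ => ?_)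
    rw [updateRow_apply, Pi.single_apply]
    split_ifs
    exacts [OneMemClass.one_mem _, zero_mem _, hM p _ _]
  obtain ⟨t, ht⟩ := germ_surj U
    (D ((gv U s.z ᵥ* (M p).adjugate) j) / (gv U s.z ᵥ* (M p).adjugate) j)
  have h6 : ∀ u : α → κ → k, (germ U fun n => (s.N n p *ᵥ u n) j) = c * (M p *ᵥ gv U u) j :=
    fun u => by
      rw [← smul_eq_mul, ← Pi.smul_apply, ← smul_mulVec, ← hN']
      exact (gv_dot (fun n => s.N n p j) u).symm
  have h7 := h6 fun n l => ηn p l n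
  rw [show gv U (fun n l => ηn p l n) = η p from funext (hηn p), hη, mul_left_comm, ← h6, ← ht,
    ← map_mul, germ_eq] at h7
  filter_upwards [h7, s.upper (ht ▸ div_mem (hD _ h5) h5) p hε, s.pen] with n h7 h8 h9
  rw [h7, Pi.mul_apply, map_mul, add_mul, Real.exp_add, mul_comm]
  exact mul_le_mul (h9.bd p j₁ j hj) h8 ((av p).nonneg _) (Real.exp_pos _).le

/- Otherwise `exists_row`; `D` preserves `s.L` (`der_mem_cl`, `der_mem_of_lam` for
`s.L.restrictScalars k`); `exists_dl`, `exists_eta`, `dirO_mem` (the rows of `Y` are integral: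
`Es.fin_le_oneA`); `Inp.false` with `d none = 0`, `gg none = 0`, `t = 0`. -/
theorem der_zero {ϱ : ι → MvPowerSeries (Fin B.dim) k} (hϱ : B.Par B.dim ϱ)
    {D₀ : Derivation k s.K s.K} {D : Derivation k (Up U k) (Up U k)} {τ : Fin B.dim → s.K}
    (hD : ∀ c, D (algebraMap _ _ c) = algebraMap _ _ (D₀ c))
    (hτ : AV.lam D s.𝒴 = fun a => ∑ l, algebraMap _ (Up U k) (τ l) * algebraMap k _ (lin ϱ l a))
    {c : Up U k} {M : Pl S → Matrix κ κ (Up U k)}
    (hN : ∀ p i j, (germ U fun n => s.N n p i j) = c * M p i j) (hM : ∀ p i j, M p i j ∈ s.L)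
    (h0 : ∀ p i j, D (M p i j) = 0) (l : κ) : D (gv U s.z l) = 0 := by
  have : CharZero s.K := charZero_of_injective_algebraMap (algebraMap k _).injective
  by_contra hc
  obtain ⟨j₁, hj, h3⟩ := s.exists_row D hc
  obtain ⟨d, gg, -, hd', hd, hgg⟩ := s.exists_dual hϱ j₁ 0 (lam_eq_zero_iff.2 fun _ _ => rfl)
  obtain ⟨G, hG⟩ := germ_surj U ((fun l => D (gv U s.z l)) ⬝ᵥ gv U fun n => s.Y n j₁)
  have h1 : ∀ x ∈ rat s.𝒴.co, D x ∈ s.L := der_mem_of_lam (s.L.restrictScalars k)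
    (subset_cl (K := s.K) _) fun a => by
      rw [hτ]
      exact sum_mem fun l _ => mul_mem (s.L.algebraMap_mem _)
        ((s.L.restrictScalars k).algebraMap_mem _)
  have h2 : ∀ u ∈ s.L, D u ∈ s.L := fun u hu => der_mem_cl D
    (fun c => by rw [hD]; exact s.L.algebraMap_mem _) h1 hu
  obtain ⟨η, h4, h5⟩ := s.exists_eta h2 hN hM h0 hj
  rw [← hG] at h3
  refine Inp.false s hϱ ⟨j₁, d, gg, G, η, hj, hd, hgg, germ_ne_zero.1 h3,
    eventually_all.2 fun p => ?_, h5, fun ε hε => ?_⟩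
  · exact ((germ_eq U).1 (hG.trans (h4 p).symm)).mono fun n hn =>
      ⟨0, by rw [zero_mul, zero_add, hn]⟩
  · filter_upwards [dirO_mem hϱ.basis hd' hD hτ s.repw s.z_mem (y₁ := fun n => s.Y n j₁)
      (s.orth.mono fun n hn => hn j₁ hj) h3 hG (gg := fun n l => gg n (some l))
      (fun l => hgg _) hε, s.pen] with n ⟨A, hA, h5⟩ h6
    refine ⟨A, hA, fun v _ => ?_⟩
    obtain ⟨c, u, h7, h8, h9⟩ := h5 v.1 fun j => Es.fin_le_oneA v (h6.int j₁ j)
    exact ⟨c, u, 0, h7, h8, by rw [zero_mul, add_zero, h9]⟩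

end Sq

end Pool.Agent.Lib.MP_651af7_nt.As
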