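import Pool.Agent.Lib.MP_651af7_nt.Av.SeqD
import Pool.Agent.Lib.MP_651af7_nt.As.DerA

/-! Germs of moderate size at a place. -/

namespace Pool.Agent.Lib.MP_651af7_nt.As

open MvPolynomial Filter Height Av Av.AV

variable {α : Type} {U : Ultrafilter α} {k ι : Type} [Field k] [NumberField k]

section tm

variable {H : α → ℝ} (v : AbsoluteValue k ℝ) (hH : Tendsto H U atTop)

/-- The germs that are at most `exp (o (H))` at `v`. -/
def Tm : ValuationSubring (Up U k) where
  carrier := {a | ∃ f, germ U f = a ∧ ∀ ε : ℝ, 0 < ε → ∀ᶠ n in U, v (f n) ≤ Real.exp (ε * H n)}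
  mul_mem' := by
    rintro _ _ ⟨f, rfl, hf⟩ ⟨g, rfl, hg⟩
    refine ⟨f * g, map_mul _ _ _, fun ε hε => ?_⟩
    filter_upwards [hf _ (half_pos hε), hg _ (half_pos hε)] with n h1 h2
    rw [Pi.mul_apply, map_mul, ← add_halves ε, add_mul, Real.exp_add]
    exact mul_le_mul h1 h2 (v.nonneg _) (Real.exp_pos _).le
  one_mem' := ⟨1, map_one _, fun ε hε => (hH.eventually_ge_atTop 0).mono fun n hn => by
    simpa using mul_nonneg hε.le hn⟩
  add_mem' := by
    rintro _ _ ⟨f, rfl, hf⟩ ⟨g, rfl, hg⟩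
    refine ⟨f + g, map_add _ _ _, fun ε hε => ?_⟩
    filter_upwards [hf _ (half_pos hε), hg _ (half_pos hε), Lo.const hH 1 _ (half_pos hε)]
      with n h1 h2 h3
    have h4 := Real.add_one_le_exp (ε / 2 * H n)
    rw [← add_halves ε, add_mul, Real.exp_add]
    refine (v.add_le (f n) (g n)).trans ?_
    nlinarith
  zero_mem' := ⟨0, map_zero _, fun ε _ => .of_forall fun n => by
    simpa using (Real.exp_pos _).le⟩
  neg_mem' := by
    rintro _ ⟨f, rfl, hf⟩
    exact ⟨-f, map_neg _ _, fun ε hε => (hf ε hε).mono fun n hn => by simpa using hn⟩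
  mem_or_inv_mem' a := by
    obtain ⟨f, rfl⟩ := germ_surj U a
    have h1 : ∀ g : α → k, (∀ᶠ n in U, v (g n) ≤ 1) → ∀ ε : ℝ, 0 < ε →
        ∀ᶠ n in U, v (g n) ≤ Real.exp (ε * H n) := fun g hg ε hε =>
      (hg.and (hH.eventually_ge_atTop 0)).mono fun n hn =>
        hn.1.trans (Real.one_le_exp (mul_nonneg hε.le hn.2))
    rcases U.em fun n => v (f n) ≤ 1 with h | h
    · exact Or.inl ⟨f, rfl, h1 f h⟩
    · exact Or.inr ⟨fun n => (f n)⁻¹, rfl, h1 _ (h.mono fun n hn => by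
        rw [map_inv₀]
        exact inv_le_one_of_one_le₀ (not_le.1 hn).le)⟩

variable {v hH}

omit [NumberField k] in
theorem mem_tm {f : α → k} : germ U f ∈ Tm v hH ↔
    ∀ ε : ℝ, 0 < ε → ∀ᶠ n in U, v (f n) ≤ Real.exp (ε * H n) :=
  ⟨fun ⟨_, hg, h⟩ ε hε => ((h ε hε).and ((germ_eq U).1 hg)).mono fun _ hn => hn.2 ▸ hn.1,
    fun h => ⟨f, rfl, h⟩⟩

omit [NumberField k] in
theorem germ_inv (f : α → k) : (germ U f)⁻¹ = germ U fun n => (f n)⁻¹ := rfl

omit [NumberField k] in
theorem germ_div (f g : α → k) : germ U f / germ U g = germ U fun n => f n / g n := by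
  simp only [div_eq_mul_inv, germ_inv, ← map_mul]
  rfl

omit [NumberField k] in
/-- The lower bound. -/
theorem tm_lower {f : α → k} (h0 : germ U f ≠ 0) (h : (germ U f)⁻¹ ∈ Tm v hH) {ε : ℝ}
    (hε : 0 < ε) : ∀ᶠ n in U, Real.exp (-(ε * H n)) ≤ v (f n) := by
  filter_upwards [mem_tm.1 (germ_inv f ▸ h) ε hε, germ_ne_zero.1 h0] with n h1 h2
  rw [map_inv₀] at h1
  rw [Real.exp_neg]
  exact inv_le_of_inv_le₀ (v.pos h2) h1

theorem sm_mem_tm (hv : Adm v) (c : Sm k hH) : algebraMap _ (Up U k) c ∈ Tm v hH := by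
  obtain ⟨_, f, rfl, hf⟩ := c
  exact ⟨f, rfl, fun ε hε => (hf ε hε).mono fun n hn =>
    (seqD_le_exp hv _).trans (Real.exp_le_exp.2 hn)⟩

/-- If all elements of `K [S]` are moderate together with their inverses, then so is the
closure. -/
theorem cl_mem_tm (hv : Adm v) {S : Set (Up U k)} (hS : ∀ x ∈ S, x ∈ Tm v hH)
    (hS' : ∀ x ∈ Algebra.adjoin (Sm k hH) S, x⁻¹ ∈ Tm v hH) {u : Up U k}
    (hu : u ∈ Cl (Sm k hH) S) : u ∈ Tm v hH := by
  have h1 : ∀ x ∈ Algebra.adjoin (Sm k hH) S, x ∈ Tm v hH := fun x hx => by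
    induction hx using Algebra.adjoin_induction with
    | mem x hx => exact hS x hx
    | algebraMap c => exact sm_mem_tm hv c
    | add x y _ _ hx hy => exact add_mem hx hy
    | mul x y _ _ hx hy => exact mul_mem hx hy
  obtain ⟨r, hr, hi⟩ := (mem_cl.1 hu).exists_integral_multiple
  have h2 : IsIntegral (Tm v hH) (r • u) :=
    hi.map_of_comp_eq (φ := (Algebra.adjoin (Sm k hH) S).val.toRingHom.codRestrict (Tm v hH)
      fun x => h1 _ x.2) (ψ := RingHom.id _) rfl
  obtain ⟨w, hw⟩ := IsIntegrallyClosed.isIntegral_iff.1 h2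
  have h3 : u = (r : Up U k)⁻¹ * (w : Up U k) := by
    rw [show (w : Up U k) = r * u from hw, inv_mul_cancel_left₀ fun h => hr (Subtype.ext h)]
  rw [h3]
  exact mul_mem (hS' _ r.2) w.2

end tm

variable [Fintype ι] {B : AV k ι} {y : α → B.Pt k} {hH : Tendsto (fun n => ht (y n)) U atTop}
  {Y : B.Pt (Up U k)} (hY : IsGerm U Y y) (hg : B.Gens (Sm k hH) Y) (hd : 1 ≤ B.dim)

include hY hg hd

/-- (MS) The family does not approach a slowly moving hypersurface. -/
theorem ms {v : AbsoluteValue k ℝ} (hv : Adm v) {u : MvPolynomial ι (Sm k hH)} {e : ℕ}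
    (hu : u.IsHomogeneous e) (h0 : u ∉ B.IK (Sm k hH)) {un : α → MvPolynomial ι k}
    (hun : Repr U (MvPolynomial.map (algebraMap _ (Up U k)) u) un) {η : ℝ} (hη : 0 < η) :
    ∀ᶠ n in U, (⨆ a, v ((y n).co a)) ^ e * Real.exp (-(η * ht (y n))) <
      v (eval (y n).co (un n)) := by
  classical
  have hval := hun.aeval fun n => (y n).co
  rw [aeval_map_algebraMap] at hval
  rcases Nat.eq_zero_or_pos e with rfl | he
  · obtain ⟨c, rfl⟩ : ∃ c, u = C c :=
      ⟨_, totalDegree_eq_zero_iff_eq_C.1 (Nat.le_zero.1 hu.totalDegree_le)⟩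
    have hc : c ≠ 0 := fun h => h0 (by simp [h])
    rw [aeval_C] at hval
    have h1 := tm_lower (v := v) (hH := hH) (hval ▸ (map_ne_zero _).2 hc)
      (by rw [← hval, ← map_inv₀]; exact sm_mem_tm hv _) (half_pos hη)
    filter_upwards [h1, hH.eventually_gt_atTop 0] with n h1 h2
    rw [pow_zero, one_mul]
    exact (Real.exp_lt_exp.2 (by nlinarith)).trans_le h1
  by_contra hbad
  rw [← Ultrafilter.eventually_not] at hbad
  obtain ⟨γ, ρ, c, hnn, -⟩ := B.exists_nn (Sm k hH) he (fun i => if i = 0 then {u} else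
    Finset.univ.image fun c => (X c ^ e : MvPolynomial ι (Sm k hH)))
    (fun i f hf => by
      split_ifs at hf
      · rwa [Finset.mem_singleton.1 hf]
      · obtain ⟨c, -, rfl⟩ := Finset.mem_image.1 hf
        exact isHomogeneous_X_pow c _)
    fun i F _ _ _ _ w hw0 hw hf => by
      split_ifs at hf with hi
      · subst hi
        simpa using td_succ_le hu h0 hw0 hw (hf _ (Finset.mem_singleton_self _))
      · exact absurd (eq_zero_of_pow hf) hw0
  choose wn hwn using fun i => exists_repr (U := U) (MvPolynomial.map (algebraMap _ (Up U k))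
    (∑ f ∈ (if i = 0 then {u} else Finset.univ.image fun c => (X c ^ e : MvPolynomial ι (Sm k hH))),
      C ((γ i f : ℚ) : Sm k hH) * f))
  refine B.seq_core y hH hY hg he hnn (un := fun n i => wn i n) hwn (md := some v)
    ⟨hd, fun _ e => Option.some.inj e ▸ hv⟩ (half_pos hη) ?_
  have h1 := (hwn 0).aeval fun n => (y n).co
  rw [aeval_map_algebraMap, if_pos rfl, Finset.sum_singleton, map_mul, hval, aeval_C, map_ratCast,
    ← map_ratCast (algebraMap k (Up U k)), algebraMap_up, ← map_mul, germ_eq] at h1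
  filter_upwards [h1, hbad, Lo.const hH (v (γ 0 u : k)) _ (half_pos hη)] with n h1 h2 h3
  change v (eval (y n).co (wn 0 n)) ≤ _ * Real.exp (-(η / 2 * ht (y n)))
  have h4 := Real.add_one_le_exp (η / 2 * ht (y n))
  have h5 : Real.exp (-(η / 2 * ht (y n))) =
      Real.exp (η / 2 * ht (y n)) * Real.exp (-(η * ht (y n))) := by
    rw [← Real.exp_add]
    congr 1
    ring
  rw [← h1, Pi.mul_apply, map_mul, h5, mul_left_comm]
  exact mul_le_mul (by linarith) (not_lt.1 h2) (v.nonneg _) (Real.exp_pos _).le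

/-- The germ is a generic point over the small field. -/
theorem gen_germ : Gen (B.IK (Sm k hH)) Y.co := by
  intro u e hu h0
  by_contra h
  obtain ⟨v, hv⟩ := Multiset.card_pos_iff_exists_mem.1 (NumberField.totalWeight_pos k)
  obtain ⟨un, hun⟩ := exists_repr (MvPolynomial.map (algebraMap _ (Up U k)) u)
  have hval := hun.aeval fun n => (y n).co
  obtain ⟨c, hc⟩ := (rep_co Y).exists_smul hY
  rw [aeval_map_algebraMap, funext hc, aeval_mul_of_hom hu, h0, mul_zero, eq_comm,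
    germ_eq_zero] at hval
  obtain ⟨n, h1, h2⟩ := (hval.and (ms hY hg hd (Or.inl hv) hu h hun one_pos)).exists
  rw [h1, map_zero] at h2
  exact h2.not_ge (mul_nonneg (pow_nonneg (Real.iSup_nonneg fun _ => v.nonneg _) _)
    (Real.exp_pos _).le)

/-- The value of a form divided by a power of a coordinate has a moderate inverse. -/
theorem inv_form_mem_tm {v : AbsoluteValue k ℝ} (hv : Adm v) {u : MvPolynomial ι (Sm k hH)}
    {e : ℕ} (hu : u.IsHomogeneous e) (b : ι) :
    (germ U fun n => (y n).co b) ^ e / aeval (fun a => germ U fun n => (y n).co a) u ∈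
      Tm v hH := by
  by_cases h0 : u ∈ B.IK (Sm k hH)
  · rw [B.tr_zero_IK (Rep.zero hY) u h0, div_zero]
    exact zero_mem _
  obtain ⟨un, hun⟩ := exists_repr (MvPolynomial.map (algebraMap _ (Up U k)) u)
  have hval := hun.aeval fun n => (y n).co
  rw [aeval_map_algebraMap] at hval
  rw [hval, ← map_pow, germ_div]
  refine mem_tm.2 fun ε hε => (ms hY hg hd hv hu h0 hun hε).mono fun n hn => ?_
  have h1 : v ((y n).co b) ^ e ≤ (⨆ a, v ((y n).co a)) ^ e := pow_le_pow_left₀ (v.nonneg _)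
    (le_ciSup (f := fun c => v ((y n).co c)) (Set.finite_range _).bddAbove b) e
  have h2 := ((mul_nonneg (pow_nonneg (v.nonneg _) e |>.trans h1) (Real.exp_pos _).le)).trans_lt hn
  rw [Real.exp_neg, ← div_eq_mul_inv, div_lt_iff₀ (Real.exp_pos _)] at hn
  rw [map_div₀, div_le_iff₀ h2, Pi.pow_apply, map_pow, mul_comm]
  exact h1.trans hn.le

/-- (Tm) Every germ that is algebraic over `K (Y)` is moderate at each place. -/
theorem mem_tm_of_cl {v : AbsoluteValue k ℝ} (hv : Adm v) {u : Up U k}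
    (hu : u ∈ Cl (Sm k hH) (rat Y.co)) : u ∈ Tm v hH := by
  obtain ⟨b, hb⟩ := Rep.unit hY
  have hb := hb.ne_zero
  have h1 : ∀ (f : MvPolynomial ι (Sm k hH)) (e : ℕ), f.IsHomogeneous e →
      (aeval (fun a => (germ U fun n => (y n).co b)⁻¹ * germ U fun n => (y n).co a) f)⁻¹ ∈
        Tm v hH := fun f e hf => by
    rw [aeval_mul_of_hom hf, inv_pow, inv_mul_eq_div, inv_div]
    exact inv_form_mem_tm hY hg hd hv hf b
  refine cl_mem_tm hv (S := Set.range fun a => (germ U fun n => (y n).co b)⁻¹ *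
    germ U fun n => (y n).co a) ?_ (fun x hx => ?_) (cl_le ?_ hu)
  · rintro _ ⟨a, rfl⟩
    simpa [inv_mul_eq_div] using inv_form_mem_tm hY hg hd hv (isHomogeneous_X _ b) a
  · rw [Algebra.adjoin_range_eq_range_aeval] at hx
    obtain ⟨f, rfl⟩ := hx
    obtain ⟨g, e, hg, h2⟩ := exists_homogenise f b
    have h3 := h1 g e hg
    rwa [h2 _ _ (inv_mul_cancel₀ hb)] at h3
  · rw [B.tr_rat_rep hY]
    rintro _ ⟨⟨a, c⟩, rfl⟩
    have h2 := div_mem (subset_cl (K := Sm k hH) _ (Set.mem_range_self (f := fun a =>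
      (germ U fun n => (y n).co b)⁻¹ * germ U fun n => (y n).co a) a)) (subset_cl _ ⟨c, rfl⟩)
    rwa [mul_div_mul_left _ _ (inv_ne_zero hb)] at h2

theorem cl_upper {v : AbsoluteValue k ℝ} (hv : Adm v) {f : α → k}
    (hf : germ U f ∈ Cl (Sm k hH) (rat Y.co)) {ε : ℝ} (hε : 0 < ε) :
    ∀ᶠ n in U, v (f n) ≤ Real.exp (ε * ht (y n)) :=
  mem_tm.1 (mem_tm_of_cl hY hg hd hv hf) ε hε

theorem cl_lower {v : AbsoluteValue k ℝ} (hv : Adm v) {f : α → k}
    (hf : germ U f ∈ Cl (Sm k hH) (rat Y.co)) {ε : ℝ} (hε : 0 < ε) :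
    ∀ᶠ n in U, f n = 0 ∨ Real.exp (-(ε * ht (y n))) ≤ v (f n) := by
  by_cases h0 : germ U f = 0
  · exact (germ_eq_zero.1 h0).mono fun n => Or.inl
  · exact (tm_lower h0 (mem_tm_of_cl hY hg hd hv (inv_mem hf)) hε).mono fun n => Or.inr

end Pool.Agent.Lib.MP_651af7_nt.As
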