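import Pool.Agent.Lib.MP_651af7_nt.As.XMovC

/-! Copy of `Es/Mov` with fewer imports. -/

namespace Pool.Agent.Lib.MP_651af7_nt.Ex

open Finset Matrix Height NumberField Pool.Agent.Lib.MP_e97e2b_nt Pool.Agent.Lib.MP_651af7_nt.Iv
  Pool.Agent.Lib.MP_651af7_nt.Vj Pool.Agent.Lib.MP_651af7_nt.Vj.P1 Pool.Agent.Lib.MP_651af7_nt.Rt
  Pool.Agent.Lib.Common.Subspace Pool.Agent.Lib.MP_651af7_nt.Es
open Pool.Agent.Lib.MP_8865d3_nt.Fa (Small Adm wt)

variable {K : Type} [Field K] [NumberField K] {κ : Type} [Fintype κ] [DecidableEq κ]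

/- `Fa.log_max_le`, `Fa.liouville`, `ht_adj`. -/
theorem tame_of_ht (κ : Type) [Fintype κ] [DecidableEq κ] : ∃ C : ℝ, 1 ≤ C ∧
    ∀ (v : AbsoluteValue K ℝ) (M : Matrix κ κ K) (h : ℝ), Adm v → 0 ≤ h → M.det ≠ 0 →
      (∀ l l', logHeight₁ (M l l') ≤ h) → Tame v (C * (1 + h)) M := by
  obtain ⟨C, hC, h1⟩ := ht_adj (K := K) κ
  refine ⟨C, hC, fun v M h hv h0 hd hM => ⟨fun i j => ?_, ?_⟩⟩
  · have h2 := (Pool.Agent.Lib.MP_8865d3_nt.Fa.log_max_le hv (M i j)).trans (hM i j)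
    rw [Real.log_le_iff_le_exp (lt_max_of_lt_right one_pos)] at h2
    refine (le_max_left _ _).trans (h2.trans (Real.exp_le_exp.2 ?_))
    nlinarith
  · exact (Real.exp_le_exp.2 (neg_le_neg (h1 M h h0 hM).1)).trans
      (Pool.Agent.Lib.MP_8865d3_nt.Fa.liouville hv hd)

private lemma movX_m (N : ℕ) {δ : ℝ} (hδ : 0 < δ) :
    ∃ m : ℕ, 1 ≤ m ∧ 2 * (N : ℝ) * Real.exp (-(δ ^ 2 * m / 2)) ≤ 1 := by
  refine ⟨⌈4 * N / δ ^ 2⌉₊ + 1, by omega, ?_⟩
  have h1 : 4 * N / δ ^ 2 ≤ ((⌈4 * N / δ ^ 2⌉₊ + 1 : ℕ) : ℝ) := by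
    push_cast
    linarith [Nat.le_ceil (4 * N / δ ^ 2)]
  generalize ((⌈4 * N / δ ^ 2⌉₊ + 1 : ℕ) : ℝ) = m at h1 ⊢
  rw [div_le_iff₀ (by positivity)] at h1
  rw [Real.exp_neg, ← div_eq_mul_inv, div_le_one (Real.exp_pos _)]
  linarith [Real.add_one_le_exp (δ ^ 2 * m / 2)]

private lemma movX_err {m : ℕ} {κ ε s W H₁ : ℝ} (e : Fin m → ℕ) (w : Fin m → ℝ) (hκ : 1 ≤ κ)
    (hm : 1 ≤ m) (hε : 0 < ε) (hs0 : 0 ≤ s) (hs : κ * m * s ≤ ε / 4) (hH : 4 * κ * m ≤ ε * H₁)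
    (hw : ∀ i, H₁ ≤ w i) (hW : H₁ ≤ W) (he : ∀ i, e i * w i ≤ W) :
    κ * (1 + ∑ i, e i * (1 + s * w i)) ≤ ε * W := by
  have hm' : (1 : ℝ) ≤ m := by exact_mod_cast hm
  have hκm : 1 ≤ κ * m := one_le_mul_of_one_le_of_one_le hκ hm'
  have hH0 : 0 < H₁ := by
    by_contra h
    have := mul_nonpos_of_nonneg_of_nonpos hε.le (not_lt.mp h)
    linarith
  have h1 : ∀ i, (e i : ℝ) * (1 + s * w i) ≤ W / H₁ + s * W := by
    intro i
    have h2 : (e i : ℝ) ≤ W / H₁ := by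
      rw [le_div_iff₀ hH0]
      exact (mul_le_mul_of_nonneg_left (hw i) (Nat.cast_nonneg _)).trans (he i)
    have h3 := mul_le_mul_of_nonneg_left (he i) hs0
    linarith
  have h2 : ∑ i, (e i : ℝ) * (1 + s * w i) ≤ m * (W / H₁ + s * W) := by
    refine (sum_le_sum fun i _ => h1 i).trans ?_
    simp only [sum_const, card_univ, Fintype.card_fin, nsmul_eq_mul, le_refl]
  have hW0 : 0 < W := hH0.trans_le hW
  have h3 : κ * m * (W / H₁) ≤ ε / 4 * W := by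
    rw [← mul_div_assoc, div_le_iff₀ hH0]
    have := mul_le_mul_of_nonneg_right hH hW0.le
    linarith
  have h4 := mul_le_mul_of_nonneg_right hs hW0.le
  have h5 : κ ≤ ε / 4 * W := by
    have a1 := mul_le_mul_of_nonneg_left hW hε.le
    have a2 := mul_le_mul_of_nonneg_left hm' (zero_le_one.trans hκ)
    linarith
  have h6 := mul_le_mul_of_nonneg_left h2 (zero_le_one.trans hκ)
  have h7 := mul_pos hε hW0
  linarith

/- Port of `mov_pat` (`Rt/Mov`).  `κ` is nonempty.  Replace `Γ` by `Γ' = max 1 Γ + card κ + 2` (`blk_of_pen`,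
`tame_of_ht`: for large `q` the matrices are tame with `s' = 2 C s`, and `s ≤ s'`).  `η = δ / card κ`,
`μ = ∑ mu`, `η' = η / (4 (μ + 1))`, `m ≥ 1` with `2 * card (Pl S) * finrank * exp (-(η' ^ 2 m / (8 Γ' ^ 2))) ≤ 1`
(`card_bad`), `θ = η m / (16 k₀ Γ')`, `ε` with `totalWeight K * B * ε ≤ γ`, `s'` with `k₀ m s' ≤ ε / 4`,
`k₀ s' ≤ η / 32`, `s' ≤ 1`.  If the scales of the counterexamples are unbounded take a chain (`exists_chain` on
triples `(q, M, Y)`, height `max q 0`), `W = D = n * q last`, `e i = ⌊W / q i⌋₊`,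
`L p = (∑ l, cc p l) / card κ * ∑ i, e i * q i + η' * m * W`, `-∑ mu L ≥ η m W / 4`. -/
theorem mov_patX (S : Finset (FinitePlace K)) {j₀ α β : κ} (hαβ : α ≠ β) {δ γ Γ : ℝ} (hδ : 0 < δ)
    (hγ : 0 < γ) {cc : Pl S → κ → ℝ} (hc : ∀ p l, |cc p l| ≤ Γ) (hv : vol cc ≤ -δ) :
    ∃ s H₀ : ℝ, 0 < s ∧ ∀ (q : ℝ) (M : Pl S → Matrix κ κ K) (Y : Matrix κ κ K), H₀ ≤ q →
      (∀ p l l', logHeight₁ (M p l l') ≤ s * q) → (∀ p, (M p).det ≠ 0) →
      Pen M j₀ (fun p l => cc p l * q) Y → nv Y j₀ α ≠ 0 →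
      logHeight₁ (rt Y j₀ α β) ≤ γ * q := by
  have : Nonempty κ := ⟨j₀⟩
  obtain ⟨k₀, hk, hcore⟩ := core_movX S (j₀ := j₀) hαβ
  obtain ⟨C, hC, htame⟩ := tame_of_ht (K := K) κ
  obtain ⟨w₀, hblk⟩ := blk_of_pen (S := S) κ
  have hN : (1 : ℝ) ≤ Fintype.card κ := by exact_mod_cast Fintype.card_pos
  obtain ⟨G, hG⟩ : ∃ G : ℝ, G = max 1 Γ + Fintype.card κ + 2 := ⟨_, rfl⟩
  have hc1 : ∀ p l, |cc p l| ≤ max 1 Γ := fun p l => (hc p l).trans (le_max_right _ _)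
  have hG1 : max 1 Γ ≤ G := by linarith
  have hG2 : 1 ≤ G := (le_max_left _ _).trans hG1
  obtain ⟨η, hη0, hη⟩ : ∃ η : ℝ, 0 < η ∧ η * Fintype.card κ = δ :=
    ⟨δ / Fintype.card κ, by positivity, div_mul_cancel₀ _ (by positivity)⟩
  obtain ⟨μ, hμ⟩ : ∃ μ : ℝ, μ = ∑ p : Pl S, (mu p : ℝ) := ⟨_, rfl⟩
  have hμ0 : 0 ≤ μ := hμ ▸ sum_nonneg fun p _ => Nat.cast_nonneg _
  obtain ⟨η', hη0', hη'⟩ : ∃ η' : ℝ, 0 < η' ∧ μ * η' ≤ η / 4 := by
    refine ⟨η / (4 * (μ + 1)), by positivity, ?_⟩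
    rw [← mul_div_assoc, div_le_div_iff₀ (by positivity) (by norm_num)]
    linarith
  obtain ⟨m, hm, hmN⟩ := movX_m (Fintype.card (Pl S) * Module.finrank ℚ K)
    (δ := η' / (2 * G)) (by positivity)
  rw [show (η' / (2 * G)) ^ 2 * m / 2 = η' ^ 2 * m / (8 * G ^ 2) by field_simp; ring] at hmN
  have hm' : (1 : ℝ) ≤ m := by exact_mod_cast hm
  have hk0 : 0 < k₀ := zero_lt_one.trans_le hk
  have hkm : 1 ≤ k₀ * m := one_le_mul_of_one_le_of_one_le hk hm'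
  obtain ⟨B, ζ, hζ, hcore⟩ := hcore m (η * m / (16 * k₀ * G)) (by positivity)
  obtain ⟨ε, hε0, hε1, hε2⟩ : ∃ ε : ℝ, 0 < ε ∧ totalWeight K * B * ε ≤ γ ∧ ε ≤ η / 8 := by
    refine ⟨min (γ / (totalWeight K * B + 1)) (η / 8), by positivity, ?_, min_le_right _ _⟩
    refine (mul_le_mul_of_nonneg_left (min_le_left _ _) (by positivity)).trans ?_
    rw [← mul_div_assoc, div_le_iff₀ (by positivity)]
    linarith
  obtain ⟨s, hs0, hs1, hs2⟩ : ∃ s : ℝ, 0 < s ∧ s ≤ 1 ∧ k₀ * m * s ≤ ε / 4 := by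
    refine ⟨min 1 (ε / (4 * (k₀ * m))), by positivity, min_le_left _ _, ?_⟩
    refine (mul_le_mul_of_nonneg_left (min_le_right _ _) (by positivity)).trans (le_of_eq ?_)
    field_simp
  obtain ⟨s₁, hs₁, hs₂⟩ : ∃ s₁ : ℝ, 0 < s₁ ∧ C * s₁ = s / 2 :=
    ⟨s / (2 * C), by positivity, by field_simp⟩
  have hs₃ : s₁ ≤ s := by
    have := mul_le_mul_of_nonneg_right hC hs₁.le
    linarith
  obtain ⟨H₁, hH1, hH2, hH3⟩ : ∃ H₁ : ℝ, 4 * k₀ * m ≤ ε * H₁ ∧ w₀ ≤ H₁ ∧ 2 * C ≤ s * H₁ := by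
    refine ⟨max (4 * k₀ * m / ε) (max w₀ (2 * C / s)), ?_,
      (le_max_left _ _).trans (le_max_right _ _), ?_⟩
    · rw [← div_le_iff₀' hε0]
      exact le_max_left _ _
    · rw [← div_le_iff₀' hs0]
      exact (le_max_right _ _).trans (le_max_right _ _)
  have hH0 : 0 < H₁ := by
    by_contra h
    have := mul_nonpos_of_nonneg_of_nonpos hε0.le (not_lt.mp h)
    linarith
  by_contra hcon
  obtain ⟨c, c₁, c₂, c₃⟩ := exists_chain
    (fun x : ℝ × (Pl S → Matrix κ κ K) × Matrix κ κ K => |x.1|) (fun x => abs_nonneg _)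
    {x | 0 ≤ x.1 ∧ (∀ p l l', logHeight₁ (x.2.1 p l l') ≤ s₁ * x.1) ∧ (∀ p, (x.2.1 p).det ≠ 0) ∧
      Pen x.2.1 j₀ (fun p l => cc p l * x.1) x.2.2 ∧ nv x.2.2 j₀ α ≠ 0 ∧
      γ * x.1 < logHeight₁ (rt x.2.2 j₀ α β)}
    (fun u => by
      by_contra h
      refine hcon ⟨s₁, max u 0, hs₁, fun q M Y a1 a2 a3 a4 a5 => not_lt.1 fun a6 =>
        h ⟨(q, M, Y), ⟨(le_max_right _ _).trans a1, a2, a3, a4, a5, a6⟩, ?_⟩⟩
      exact ((le_max_left _ _).trans a1).trans (le_abs_self q))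
    H₁ (max 1 (1 / ζ)) (le_max_left _ _)
  obtain ⟨w, hw⟩ : ∃ w : Fin m → ℝ, ∀ i, w i = (c i).1 := ⟨_, fun _ => rfl⟩
  have habs : ∀ i : Fin m, |(c i).1| = w i := fun i => by rw [hw, abs_of_nonneg (c₁ i).1]
  have hwH : ∀ i, H₁ ≤ w i := fun i => habs i ▸ c₂ i
  have hw0 : ∀ i, 0 < w i := fun i => hH0.trans_le (hwH i)
  have hsp : ∀ i i' : Fin m, i < i' → w i ≤ ζ * w i' := by
    intro i i' h
    have a1 := c₃ i i' h
    simp only [habs] at a1
    have a2 := (mul_le_mul_of_nonneg_right (le_max_right 1 (1 / ζ)) (hw0 i).le).trans a1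
    rwa [one_div, inv_mul_le_iff₀ hζ] at a2
  obtain ⟨W, hW⟩ : ∃ W : ℝ, ∀ i, 4 * w i ≤ W := ⟨4 * ∑ i, w i, fun i => by
    have := single_le_sum (fun i _ => (hw0 i).le) (mem_univ i)
    linarith⟩
  have hWH : H₁ ≤ W := by linarith [hW ⟨0, hm⟩, hw0 ⟨0, hm⟩, hwH ⟨0, hm⟩]
  have hW0 : 0 < W := hH0.trans_le hWH
  obtain ⟨e, he⟩ : ∃ e : Fin m → ℕ, ∀ i, e i = ⌊W / w i⌋₊ := ⟨_, fun _ => rfl⟩
  have he1 : ∀ i, e i * w i ≤ W := fun i => by
    rw [he, ← le_div_iff₀ (hw0 i)]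
    exact Nat.floor_le (div_pos hW0 (hw0 i)).le
  have he2 : 3 / 4 * (m * W) ≤ ∑ i, e i * w i := by
    refine le_trans (le_of_eq ?_) (sum_le_sum (f := fun _ => 3 / 4 * W) fun i _ => ?_)
    · simp only [sum_const, card_univ, Fintype.card_fin, nsmul_eq_mul]
      ring
    · have a1 := Nat.lt_floor_add_one (W / w i)
      rw [← he, div_lt_iff₀ (hw0 i)] at a1
      linarith [hW i]
  have herr := movX_err e w hk hm hε0 hs0.le hs2 hH1 hwH hWH he1
  have hal : ∀ (i : Fin m) p l l', logHeight₁ ((c i).2.1 p l l') ≤ s₁ * w i := fun i =>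
    hw i ▸ (c₁ i).2.1
  rcases hcore ε s W G
    (fun p => (∑ l, cc p l) / Fintype.card κ * ∑ i, e i * w i + η' * m * W) e
    (fun i => (c i).2.1) (fun i => (c i).2.2) w cc hε0 hs0.le hG2
    (fun i => by
      have := mul_le_mul_of_nonneg_left (hwH i) hε0.le
      linarith)
    (fun i i' h => (lt_or_gt_of_ne h).imp (hsp i i') (hsp i' i))
    (fun i => by rw [mul_comm]; exact he1 i)
    (fun i p l l' => (hal i p l l').trans (mul_le_mul_of_nonneg_right hs₃ (hw0 i).le)) herr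
    (by
      have a1 : (0 : ℝ) ≤ ∏ i, (Fintype.card (Mo κ (e i)) : ℝ) := by positivity
      have a2 := sum_le_sum fun p (_ : p ∈ (univ : Finset (Pl S))) =>
        card_bad e w (cc p) hW0 (zero_lt_one.trans_le hG2) hη0'.le (fun i => (hw0 i).le) he1
          fun l => (hc1 p l).trans hG1
      rw [sum_const, card_univ, nsmul_eq_mul] at a2
      have a3 := mul_le_mul_of_nonneg_right hmN a1
      have a4 := mul_le_mul_of_nonneg_right a2 (Nat.cast_nonneg (α := ℝ) (Module.finrank ℚ K))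
      rw [← Nat.cast_le (α := ℝ)]
      push_cast at a3 a4 ⊢
      linarith)
    (fun p l => (hc1 p l).trans hG1)
    (fun i => by
      rw [hG]
      refine hblk _ j₀ cc _ s (w i) _ (hH2.trans (hwH i)) hs0.le hs1 hc1
        (hw i ▸ (c₁ i).2.2.2.1) fun p => ?_
      refine (htame _ _ _ (adm_av p) (mul_nonneg hs₁.le (hw0 i).le) ((c₁ i).2.2.1 p)
        (hal i p)).mono ?_
      have a1 := mul_le_mul_of_nonneg_left (hwH i) hs0.le
      rw [mul_add, ← mul_assoc, hs₂]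
      linarith)
    (fun i => (c₁ i).2.2.2.2.1) with b | ⟨i, hi⟩
  · have a1 : ∑ p : Pl S, (mu p : ℝ) * ((∑ l, cc p l) / Fintype.card κ * ∑ i, e i * w i +
        η' * m * W) = vol cc / Fintype.card κ * ∑ i, e i * w i + μ * η' * (m * W) := by
      rw [hμ, vol, sum_div, sum_mul, sum_mul, sum_mul, ← sum_add_distrib]
      exact sum_congr rfl fun p _ => by ring
    have a2 : vol cc / Fintype.card κ ≤ -η := by
      rw [div_le_iff₀ (by positivity)]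
      linarith
    have a0 : 0 < m * W := by positivity
    have a3 := mul_le_mul_of_nonneg_right a2 (le_trans (by positivity) he2)
    have a4 := mul_le_mul_of_nonneg_left he2 hη0.le
    have a5 := mul_le_mul_of_nonneg_right hη' a0.le
    have a6 : k₀ * (G * (η * m / (16 * k₀ * G) * W)) = η / 16 * (m * W) := by field_simp
    have a7 : ε * W ≤ η / 8 * (m * W) :=
      mul_le_mul hε2 (le_mul_of_one_le_left hW0.le hm') hW0.le (by positivity)
    have a8 := mul_pos hη0 a0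
    rw [a1, a6] at b
    linarith
  · have a1 := (c₁ i).2.2.2.2.2
    have a2 := mul_le_mul_of_nonneg_right hε1 (hw0 i).le
    rw [← hw] at a1
    linarith

/- Let `z = nv Y j₀ ≠ 0` (`Matrix.mul_adjugate`).  At `p` take `α` with `av p (z α)` maximal (`⨆` over a
finite type: `exists_eq_ciSup_of_finite`); `(z ᵥ* adj) j = -z α * ∑ l, rt Y j₀ α l * adj l j`; the sum has
height at most `C (1 + (γ + s) q)` by `mov_patX` for all pairs `α ≠ l` (and `rt Y j₀ α α = -1`), `ht_adj`;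
`Fa.liouville`. -/
theorem dual_small (S : Finset (FinitePlace K)) (j₀ : κ) {δ η Γ : ℝ} (hδ : 0 < δ) (hη : 0 < η)
    {cc : Pl S → κ → ℝ} (hc : ∀ p l, |cc p l| ≤ Γ) (hv : vol cc ≤ -δ) :
    ∃ s H₀ : ℝ, 0 < s ∧ ∀ (q : ℝ) (M : Pl S → Matrix κ κ K) (Y : Matrix κ κ K), H₀ ≤ q →
      (∀ p l l', logHeight₁ (M p l l') ≤ s * q) → (∀ p, (M p).det ≠ 0) →
      Pen M j₀ (fun p l => cc p l * q) Y → Dual M j₀ (η * q) Y := by
  have : Nonempty κ := ⟨j₀⟩
  obtain ⟨C, hC, hadj⟩ := ht_adj (K := K) κ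
  set n : ℝ := (Fintype.card κ : ℝ) with hn
  have hn1 : 1 ≤ n := by
    rw [hn]
    exact_mod_cast Fintype.card_pos
  have hn0 : 0 < n := zero_lt_one.trans_le hn1
  have hC0 : 0 < C := zero_lt_one.trans_le hC
  have hγ : 0 < η / (3 * n) := by positivity
  have h1 : ∀ x : κ × κ, ∃ s H₀ : ℝ, 0 < s ∧ ∀ (q : ℝ) (M : Pl S → Matrix κ κ K)
      (Y : Matrix κ κ K), H₀ ≤ q → (∀ p l l', logHeight₁ (M p l l') ≤ s * q) →
      (∀ p, (M p).det ≠ 0) → Pen M j₀ (fun p l => cc p l * q) Y → nv Y j₀ x.1 ≠ 0 →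
      logHeight₁ (rt Y j₀ x.1 x.2) ≤ η / (3 * n) * q := by
    rintro ⟨α, β⟩
    by_cases h : α = β
    · refine ⟨1, 0, one_pos, fun q M Y hq _ _ _ h0 => ?_⟩
      subst h
      rw [rt, div_self h0, logHeight₁_neg, logHeight₁_one]
      positivity
    · exact mov_patX S h hδ hγ hc hv
  choose s H hs h1 using h1
  obtain ⟨x₀, hx₀⟩ := Finite.exists_min s
  obtain ⟨x₁, hx₁⟩ := Finite.exists_max H
  set T : ℝ := totalWeight K * Real.log n + n * C with hT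
  have hT0 : 0 ≤ T :=
    add_nonneg (mul_nonneg (Nat.cast_nonneg _) (Real.log_nonneg hn1)) (by positivity)
  refine ⟨min (s x₀) (η / (3 * n * C)), max (H x₁) (3 * T / η), lt_min (hs x₀) (by positivity),
    fun q M Y hq hM hd hP p j => ?_⟩
  have hq1 : 3 * T / η ≤ q := (le_max_right _ _).trans hq
  have hq0 : 0 ≤ q := le_trans (by positivity) hq1
  by_cases h0 : (nv Y j₀ ᵥ* (M p).adjugate) j = 0
  · exact Or.inl h0
  right
  obtain ⟨α, hα⟩ := exists_eq_ciSup_of_finite (f := fun l => av p (nv Y j₀ l))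
  have hz : nv Y j₀ α ≠ 0 := by
    intro hz
    refine h0 ?_
    have h2 : nv Y j₀ = 0 := by
      funext l
      have h3 := le_ciSup (f := fun l => av p (nv Y j₀ l)) (Finite.bddAbove_range _) l
      rw [← hα, hz, map_zero] at h3
      exact (av p).eq_zero.1 (le_antisymm h3 ((av p).nonneg _))
    rw [h2, zero_vecMul, Pi.zero_apply]
  have e : (nv Y j₀ ᵥ* (M p).adjugate) j =
      -nv Y j₀ α * ∑ l, rt Y j₀ α l * (M p).adjugate l j := by
    rw [vecMul, dotProduct, mul_sum]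
    refine sum_congr rfl fun l _ => ?_
    rw [rt]
    field_simp
  have h2 : ∑ l, rt Y j₀ α l * (M p).adjugate l j ≠ 0 := fun h => h0 (by rw [e, h, mul_zero])
  have h3 : ∀ l, logHeight₁ (rt Y j₀ α l * (M p).adjugate l j) ≤
      η / (3 * n) * q + C * (1 + η / (3 * n * C) * q) := by
    intro l
    refine (logHeight₁_mul_le _ _).trans (add_le_add ?_ ?_)
    · refine h1 (α, l) q M Y ((hx₁ _).trans ((le_max_left _ _).trans hq))
        (fun p l l' => (hM p l l').trans ?_) hd hP hz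
      exact mul_le_mul_of_nonneg_right ((min_le_left _ _).trans (hx₀ _)) hq0
    · refine (hadj (M p) _ (by positivity) fun l l' => (hM p l l').trans ?_).2 l j
      exact mul_le_mul_of_nonneg_right (min_le_right _ _) hq0
  have h4 := (logHeight₁_sum_le univ _).trans
    (add_le_add_right (sum_le_sum fun l _ => h3 l) _)
  rw [sum_const, card_univ, nsmul_eq_mul, ← hn] at h4
  have e2 : totalWeight K * Real.log n +
      n * (η / (3 * n) * q + C * (1 + η / (3 * n * C) * q)) = T + 2 / 3 * (η * q) := by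
    rw [hT]
    field_simp
    ring
  rw [e2] at h4
  rw [div_le_iff₀ hη] at hq1
  have h5 := (Real.exp_le_exp.2 (neg_le_neg (h4.trans (by linarith : _ ≤ η * q)))).trans
    (Pool.Agent.Lib.MP_8865d3_nt.Fa.liouville (adm_av p) h2)
  rw [e, map_mul, AbsoluteValue.map_neg, ← hα, mul_comm]
  exact mul_le_mul_of_nonneg_left h5 ((av p).nonneg _)

end Pool.Agent.Lib.MP_651af7_nt.Ex
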