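import Pool.Agent.Lib.MP_651af7_nt.As.SqE
import Pool.Agent.Lib.MP_651af7_nt.Av.Fin
import Pool.Agent.Lib.MP_651af7_nt.As.XMov

/-! Tameness and the dual forms. -/

namespace Pool.Agent.Lib.MP_651af7_nt.As

open MvPolynomial Finset Height NumberField Matrix
open Av hiding Bad
open Es (Mo IX CX mo cx GA GC Bad Pen nv vol Tame IntV Dual)
open Rt (Pl av mu)

open Filter

variable {k ι κ : Type} [Field k] [NumberField k] [Fintype ι]

/- As `Rt.ht_ev` (`Rt/PF`: `ht_poly`); `logHeight₁ (x a) ≤ logHeight x` by `logHeight₁_div_le`. -/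
theorem ht_evA (a₀ : ι) (g : MvPolynomial ι k) : ∃ C : ℝ, 0 ≤ C ∧ ∀ x : ι → k, x a₀ = 1 →
    logHeight₁ (eval x g) ≤ C * (1 + logHeight x) := by
  obtain ⟨C, hC, H⟩ := Rt.ht_poly g
  refine ⟨C * (1 + Fintype.card ι), by positivity, fun x hx => (H x).trans ?_⟩
  have h0 := logHeight_nonneg x
  have h1 : ∑ s, logHeight₁ (x s) ≤ Fintype.card ι * logHeight x := by
    refine (sum_le_sum fun s _ => ?_ : _ ≤ ∑ _s : ι, logHeight x).trans_eq (by simp)
    simpa [hx] using logHeight₁_div_le x s a₀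
  have h2 : (0 : ℝ) ≤ Fintype.card ι := Nat.cast_nonneg _
  rw [mul_assoc]
  refine mul_le_mul_of_nonneg_left ?_ hC
  nlinarith

omit [NumberField k] [Fintype ι] in
theorem TopA_abs_eval (v : AbsoluteValue k ℝ) (g : MvPolynomial ι k) : ∃ (B : ℝ) (d : ℕ),
    0 ≤ B ∧ ∀ (x : ι → k) (m : ℝ), 1 ≤ m → (∀ a, v (x a) ≤ m) → v (eval x g) ≤ B * m ^ d := by
  induction g using MvPolynomial.induction_on with
  | C c => exact ⟨v c, 0, v.nonneg c, fun x m _ _ => by simp⟩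
  | add p q hp hq =>
    obtain ⟨B, d, hB, H⟩ := hp
    obtain ⟨B', d', hB', H'⟩ := hq
    refine ⟨B + B', d + d', by positivity, fun x m hm h => ?_⟩
    rw [map_add, add_mul]
    exact (v.add_le _ _).trans (add_le_add
      ((H x m hm h).trans (mul_le_mul_of_nonneg_left (pow_le_pow_right₀ hm (by omega)) hB))
      ((H' x m hm h).trans (mul_le_mul_of_nonneg_left (pow_le_pow_right₀ hm (by omega)) hB')))
  | mul_X p a hp =>
    obtain ⟨B, d, hB, H⟩ := hp
    refine ⟨B, d + 1, hB, fun x m hm h => ?_⟩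
    rw [map_mul, eval_X, map_mul, pow_succ, ← mul_assoc]
    exact mul_le_mul (H x m hm h) (h a) (v.nonneg _) (by positivity)

/- `AV.prox_part` for `R = X a₀` bounds the coordinates, hence the value; for the lower bound use
`AV.prox_part` for the form given by `exists_homog`, and `1 ≤ ⨆ a, v (x a)`. -/
theorem absA (A : AV k ι) (a₀ : ι) {v : AbsoluteValue k ℝ} (hv : Adm v) (g : MvPolynomial ι k)
    {ε : ℝ} (hε : 0 < ε) : ∃ C : ℝ, 0 ≤ C ∧ ∀ x, Aff A a₀ x →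
      v (eval x g) ≤ Real.exp (ε * logHeight x + C) ∧
        (eval x g ≠ 0 → Real.exp (-(ε * logHeight x + C)) ≤ v (eval x g)) := by
  obtain ⟨B, d, hB, H⟩ := TopA_abs_eval v g
  obtain ⟨Q, hQ, hQg⟩ := As.exists_homog a₀ g le_rfl
  obtain ⟨C₁, h₁⟩ := A.prox_part (isHomogeneous_X_pow (R := k) a₀ d) hv hε
  obtain ⟨C₂, h₂⟩ := A.prox_part hQ hv hε
  refine ⟨B + |C₁| + |C₂|, by positivity, fun x hx => ?_⟩
  have hx0 : x ≠ 0 := fun h => one_ne_zero (hx.1.symm.trans (congrFun h a₀))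
  have hle : ∀ a, v (x a) ≤ ⨆ a, v (x a) := fun a =>
    le_ciSup (f := fun a => v (x a)) (Set.finite_range _).bddAbove a
  have h1 : 1 ≤ ⨆ a, v (x a) := by simpa [hx.1] using hle a₀
  have hQx : eval x Q = eval x g := by simpa only [aeval_eq_eval] using hQg k x hx.1
  have a1 := le_abs_self C₁
  have a2 := le_abs_self C₂
  have a3 := abs_nonneg C₁
  have a4 := abs_nonneg C₂
  constructor
  · have h3 := h₁ x hx0 hx.2 (by simp [hx.1])
    rw [map_pow, eval_X, hx.1, one_pow, map_one, div_one,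
      Real.log_le_iff_le_exp (by positivity)] at h3
    calc _ ≤ B * (⨆ a, v (x a)) ^ d := H x _ h1 hle
      _ ≤ Real.exp B * Real.exp (ε * logHeight x + C₁) :=
          mul_le_mul (by linarith [Real.add_one_le_exp B]) h3 (by positivity) (by positivity)
      _ ≤ _ := by
          rw [← Real.exp_add, Real.exp_le_exp]
          linarith
  · intro hg
    have hp : 0 < v (eval x g) := v.pos hg
    have h3 := h₂ x hx0 hx.2 (by rwa [hQx])
    rw [hQx] at h3
    have h4 : Real.log (1 / v (eval x g)) ≤ ε * logHeight x + C₂ :=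
      (Real.log_le_log (by positivity)
        (div_le_div_of_nonneg_right (one_le_pow₀ h1) hp.le)).trans h3
    rw [one_div, Real.log_inv] at h4
    rw [← Real.le_log_iff_exp_le hp]
    linarith

/- Sum of the constants of `absA` (as `Es.absW_all`). -/
theorem absA_all (A : AV k ι) (a₀ : ι) (S : Finset (FinitePlace k))
    (Gs : Finset (MvPolynomial ι k)) {ε : ℝ} (hε : 0 < ε) : ∃ C : ℝ, 0 ≤ C ∧ ∀ x, Aff A a₀ x →
      ∀ p : Pl S, ∀ g ∈ Gs, av p (eval x g) ≤ Real.exp (ε * logHeight x + C) ∧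
        (eval x g ≠ 0 → Real.exp (-(ε * logHeight x + C)) ≤ av p (eval x g)) := by
  choose C hC0 hC using fun s : Pl S × Gs => absA A a₀ (Rt.adm_av s.1) s.2.1 hε
  refine ⟨∑ s, C s, sum_nonneg fun s _ => hC0 s, fun x hx p g hg => ?_⟩
  have h1 : C (p, ⟨g, hg⟩) ≤ ∑ s, C s :=
    single_le_sum (fun s _ => hC0 s) (mem_univ _)
  obtain ⟨h2, h3⟩ := hC (p, ⟨g, hg⟩) x hx
  exact ⟨h2.trans (Real.exp_le_exp.2 (by linarith)),
    fun h => (Real.exp_le_exp.2 (by linarith)).trans (h3 h)⟩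

variable [Fintype κ] [DecidableEq κ] {S : Finset (FinitePlace k)}

/- As `Es.smlX`: `absA_all` for the entries and the determinants (`RingHom.map_det`). -/
theorem tameA (A : AV k ι) (a₀ : ι) (M : Pl S → Matrix κ κ (MvPolynomial ι k)) {s : ℝ}
    (hs : 0 < s) : ∃ H₀ : ℝ, ∀ (x : ι → k) (H : ℝ), H₀ ≤ H → Aff A a₀ x → logHeight x ≤ H →
      ∀ p, ((M p).map (eval x)).det ≠ 0 → Tame (av p) (s * H) ((M p).map (eval x)) := by
  classical
  have hε : 0 < s / 2 := by positivity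
  obtain ⟨C, hC, H⟩ := absA_all A a₀ S
    ((univ.image fun q : Pl S × κ × κ => M q.1 q.2.1 q.2.2) ∪ univ.image fun p => (M p).det) hε
  refine ⟨C / (s / 2), fun x T hT hx hh p hd => ?_⟩
  have h1 : s / 2 * logHeight x + C ≤ s * T := by
    rw [div_le_iff₀ hε] at hT
    nlinarith
  have h2 : ((M p).map (eval x)).det = eval x (M p).det := ((eval x).map_det (M p)).symm
  refine ⟨fun i j => ?_, ?_⟩
  · exact (H x hx p _ (mem_union_left _ (mem_image_of_mem _ (mem_univ (p, i, j))))).1.trans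
      (Real.exp_le_exp.2 h1)
  · rw [h2] at hd ⊢
    exact (Real.exp_le_exp.2 (neg_le_neg h1)).trans
      ((H x hx p _ (mem_union_right _ (mem_image_of_mem _ (mem_univ p)))).2 hd)

/- Otherwise choose a counterexample with `n ≤ q` for each `n : ℕ`; `seq_dual` for
`Filter.hyperfilter ℕ` (`Nat.hyperfilter_le_atTop`). -/
theorem dual_big (A : AV k ι) (a₀ : ι) (M : Pl S → Matrix κ κ (MvPolynomial ι k)) (j₀ : κ)
    {δ γ η : ℝ} (hδ : 0 < δ) (hγ : 0 < γ) (hη : 0 < η) (Γ : ℝ) :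
    ∃ H₀ : ℝ, ∀ q x Y bb, H₀ ≤ q → γ * q ≤ logHeight x → Hyp A a₀ M j₀ δ Γ q x Y bb →
      Dual (fun p => (M p).map (eval x)) j₀ (η * q) Y := by
  by_contra hcon
  push Not at hcon
  choose q x Y bb h1 h2 h3 h4 using fun n : ℕ => hcon n
  have hq : Tendsto q (hyperfilter ℕ) atTop :=
    (tendsto_atTop_mono h1 tendsto_natCast_atTop_atTop).mono_left Nat.hyperfilter_le_atTop
  obtain ⟨n, hn⟩ := (seq_dual (U := hyperfilter ℕ) hδ hγ hq
    (Eventually.of_forall fun n => ⟨h2 n, h3 n⟩) hη).exists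
  exact h4 n hn

/- Port of `Es.dual_all` (`Es/Star`): `Es.exists_patX`, `Ex.dual_small`, `ht_evA`, `dual_big`. -/
theorem dual_allA (A : AV k ι) (a₀ : ι) (M : Pl S → Matrix κ κ (MvPolynomial ι k)) (j₀ : κ)
    {δ η : ℝ} (hδ : 0 < δ) (hη : 0 < η) (Γ : ℝ) :
    ∃ H₀ : ℝ, ∀ q x Y bb, H₀ ≤ q → Hyp A a₀ M j₀ δ Γ q x Y bb →
      Dual (fun p => (M p).map (eval x)) j₀ (η * q) Y := by
  obtain ⟨G, hG, hpat⟩ := Es.exists_patX S κ Γ hδ
  choose C hC0 hC using fun (y : Pl S × κ × κ) => ht_evA a₀ (M y.1 y.2.1 y.2.2)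
  obtain ⟨C₀, hC₀⟩ := Finite.exists_le C
  obtain ⟨C₁, hC₁, hCC⟩ : ∃ C₁ : ℝ, 0 < C₁ ∧ ∀ y, C y ≤ C₁ :=
    ⟨max C₀ 1, lt_max_of_lt_right one_pos, fun y => (hC₀ y).trans (le_max_left _ _)⟩
  have one : ∀ c : G, ∃ H₀ : ℝ, ∀ q x Y bb, H₀ ≤ q → Hyp A a₀ M j₀ δ Γ q x Y bb →
      Pen (fun p => (M p).map (eval x)) j₀ (fun p l => c.1 p l * q) Y →
      Dual (fun p => (M p).map (eval x)) j₀ (η * q) Y := by
    intro c
    obtain ⟨c1, c2⟩ := hG c.1 c.2
    obtain ⟨s, H₁, hs, h₁⟩ := Ex.dual_small S j₀ (half_pos hδ) hη c1 c2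
    have hd : 0 < s / (2 * C₁) := by positivity
    obtain ⟨H₂, h₂⟩ := dual_big A a₀ M j₀ hδ hd hη Γ
    refine ⟨max (max H₁ H₂) (2 * C₁ / s), fun q x Y bb hq hy hpen => ?_⟩
    have q1 : H₁ ≤ q := ((le_max_left _ _).trans (le_max_left _ _)).trans hq
    have q2 : H₂ ≤ q := ((le_max_right _ _).trans (le_max_left _ _)).trans hq
    have q3 : 2 * C₁ / s ≤ q := (le_max_right _ _).trans hq
    rcases le_total (s / (2 * C₁) * q) (logHeight x) with h | h
    · exact h₂ q x Y bb q2 h hy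
    · refine h₁ q _ Y q1 (fun p l l' => ?_) hy.det hpen
      have e1 := hC (p, l, l') x hy.aff.1
      have e2 : C (p, l, l') * (1 + logHeight x) ≤ C₁ * (1 + logHeight x) :=
        mul_le_mul_of_nonneg_right (hCC _) (by linarith [logHeight_nonneg x])
      have e3 : C₁ * logHeight x ≤ C₁ * (s / (2 * C₁) * q) := mul_le_mul_of_nonneg_left h hC₁.le
      have e4 : C₁ * (s / (2 * C₁) * q) = s * q / 2 := by field_simp
      rw [div_le_iff₀ hs] at q3
      refine e1.trans ?_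
      nlinarith
  choose H hH using one
  obtain ⟨H₀, hH₀⟩ := Finite.exists_le H
  refine ⟨max H₀ 1, fun q x Y bb hq hy => ?_⟩
  obtain ⟨c, hc, hbc⟩ := hpat q bb (one_pos.trans_le ((le_max_right _ _).trans hq)) hy.bd hy.neg
  exact hH ⟨c, hc⟩ q x Y bb ((hH₀ _).trans ((le_max_left _ _).trans hq)) hy (hy.pen.mono hbc)

end Pool.Agent.Lib.MP_651af7_nt.As
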