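import Pool.Agent.Lib.MP_651af7_nt.Es.BDefs
import Pool.Agent.Lib.MP_651af7_nt.Rt.MovA
import Pool.Agent.Lib.MP_651af7_nt.P1Exit
import Pool.Agent.Lib.MP_651af7_nt.P1Norm
import Pool.Agent.Lib.MP_651af7_nt.Vj.Hts
import Pool.Agent.Lib.Common.ZeroLemma.Main

/-! Copy of the part of `Es/Nv` that does not involve elliptic curves. -/

namespace Pool.Agent.Lib.MP_651af7_nt.Ex

open Finset Matrix Height NumberField Pool.Agent.Lib.MP_e97e2b_nt Pool.Agent.Lib.MP_651af7_nt.Iv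
  Pool.Agent.Lib.MP_651af7_nt.Vj Pool.Agent.Lib.MP_651af7_nt.Vj.P1 Pool.Agent.Lib.MP_651af7_nt.Rt
  Pool.Agent.Lib.Common.Subspace Pool.Agent.Lib.MP_651af7_nt.Es
open Pool.Agent.Lib.MP_8865d3_nt.Fa (Small Adm wt)

variable {K : Type} [Field K] [NumberField K]

section aux

variable {m : ℕ} {e : Fin m → ℕ}

lemma nv_mono (c : Col (fun _ : Fin m => Unit) e → ℤ) :
    GR e c (fun _ _ => (1 : MvPolynomial (Fin m) ℚ)) MvPolynomial.X =
      ∑ τ, MvPolynomial.monomial (Finsupp.equivFunOnFinite.symm fun i => ((τ i).2 : ℕ))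
        (c τ : ℚ) := by
  refine sum_congr rfl fun τ _ => ?_
  rw [MvPolynomial.monomial_eq, Finsupp.prod_fintype _ _ (by simp)]
  simp

lemma nv_ne {c : Col (fun _ : Fin m => Unit) e → ℤ} (hc : c ≠ 0) :
    GR e c (fun _ _ => (1 : MvPolynomial (Fin m) ℚ)) MvPolynomial.X ≠ 0 := by
  classical
  intro h0
  apply hc
  funext τ
  have h1 := congrArg (MvPolynomial.coeff
    (Finsupp.equivFunOnFinite.symm fun i => ((τ i).2 : ℕ))) h0
  rw [nv_mono, MvPolynomial.coeff_sum, sum_eq_single τ] at h1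
  · simpa using h1
  · intro τ' _ hne
    rw [MvPolynomial.coeff_monomial, if_neg]
    intro h
    apply hne
    funext i
    have h2 := congrFun (Finsupp.equivFunOnFinite.symm.injective h) i
    exact Prod.ext (Subsingleton.elim _ _) (Fin.ext h2)
  · simp

lemma nv_int (c : Col (fun _ : Fin m => Unit) e → ℤ) :
    IsInt (GR e c (fun _ _ => (1 : MvPolynomial (Fin m) ℚ)) MvPolynomial.X) := by
  rw [nv_mono]
  exact isInt_sum _ _ fun τ _ => isInt_monomial _ _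

lemma nv_deg (c : Col (fun _ : Fin m => Unit) e → ℤ) :
    ∀ μ ∈ (GR e c (fun _ _ => (1 : MvPolynomial (Fin m) ℚ)) MvPolynomial.X).support, ∀ i,
      μ i ≤ e i := by
  classical
  intro μ hμ i
  rw [nv_mono] at hμ
  obtain ⟨τ, -, h⟩ := mem_biUnion.1 (MvPolynomial.support_sum hμ)
  have h2 := mem_singleton.1 (MvPolynomial.support_monomial_subset h)
  rw [h2]
  simpa using Nat.lt_succ_iff.1 (τ i).2.2

end aux

/- The middle part of the proof of `core_mov` (`Rt/MovC`). -/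
theorem nv_small (m : ℕ) {θ : ℝ} (hθ : 0 < θ) : ∃ (Bd : ℕ) (ζ : ℝ), 0 < ζ ∧
    ∀ (ε D Γ : ℝ) (e : Fin m → ℕ) (t : Fin m → K) (w : Fin m → ℝ)
      (c : Col (fun _ => Unit) e → ℤ), 0 < ε → (∀ i, 1 ≤ ε * w i) →
      (∀ i i', i ≠ i' → w i ≤ ζ * w i' ∨ w i' ≤ ζ * w i) → (∀ i, w i * e i ≤ D) → 1 ≤ ε * D →
      1 ≤ Γ → Γ * 2 ^ (∑ i, e i) ≤ Real.exp (ε * D) → c ≠ 0 → (∀ τ, |(c τ : ℝ)| ≤ Γ) →
      (∃ k : Fin m →₀ ℕ, ∑ i, (k i : ℝ) * w i < θ * D ∧
        MvPowerSeries.coeff k (GR e c (fun _ _ => (1 : MvPowerSeries (Fin m) K))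
          fun i => MvPowerSeries.C (t i) + MvPowerSeries.X i) ≠ 0) ∨
      ∃ i, logHeight₁ (t i) ≤ totalWeight K * (Bd * ε * w i) := by
  classical
  obtain ⟨B, ζ, hζ, H₄⟩ := Pool.Agent.Lib.Common.ZeroLemma.nonvanishing (K := K) (σ := Fin m)
    (τ := Fin m) (ι := Fin m) (e := id) Function.injective_id id 0 0 θ hθ
  refine ⟨B, ζ, hζ, fun ε D Γ e t w c hε hw hr hdeg hD1 hΓ hlen hc0 hc => ?_⟩
  have hw0 : ∀ i, 0 ≤ w i := fun i => ((mul_pos_iff_of_pos_left hε).1 (by linarith [hw i])).le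
  have hG : Pool.Agent.Lib.Common.ZeroLemma.Sm w ε D
      (GR e c (fun _ _ => (1 : MvPolynomial (Fin m) ℚ)) MvPolynomial.X) := by
    refine ⟨nv_int c, fun μ hμ i => le_trans (mul_le_mul_of_nonneg_left
      (Nat.cast_le.2 (nv_deg c μ hμ i)) (hw0 i)) (hdeg i), ?_⟩
    have h1 := locG (lenSN (Fin m)) hΓ hc (f := fun _ _ => 1) (F := fun _ => 1)
      (fun _ => zero_le_one) (fun _ _ => (lenSN (Fin m)).one) (t := MvPolynomial.X)
      (U := fun _ => 1) (fun _ => le_rfl) fun i => (nrm_X i).le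
    rw [E_neg_case not_false] at h1
    simp only [Fintype.card_unit, Nat.cast_one, one_mul, one_pow, prod_const_one, mul_one] at h1
    rw [prod_pow_eq_pow_sum] at h1
    exact le_trans h1 hlen
  let ev : MvPolynomial (Fin m) ℚ →+* MvPowerSeries (Fin m) K :=
    MvPolynomial.eval₂Hom (algebraMap ℚ _) fun i => MvPowerSeries.C (t i) + MvPowerSeries.X i
  have v1 : ∀ i, ev (MvPolynomial.X i) = MvPowerSeries.C (t i) + MvPowerSeries.X i :=
    fun i => by simp [ev]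
  rcases H₄ ε w hε hw (fun i j h => congrArg w h) (fun i j h => hr i j h) t ev v1 []
    (fun _ => 0) le_rfl (fun i => Or.inr ⟨i, rfl⟩) List.Pairwise.nil (by simp) D hD1 _ hG
    (shift_ne_zero t (nv_ne hc0) _) with ⟨κ', k1, k2⟩ | ⟨i, g, r1, r2, r3, r4, r5⟩
  · left
    rw [map_GR] at k2
    simp only [v1, map_one] at k2
    rw [Finsupp.weight_apply, Finsupp.sum_fintype _ _ (by simp)] at k1
    simp only [nsmul_eq_mul, id] at k1
    exact ⟨κ', k1, k2⟩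
  · right
    refine ⟨i, ?_⟩
    have h1 := height_root_le r1.ne_zero (T := Real.exp (B * ε * w i)) ⟨r2, r4⟩ i
      (fun μ hμ j hj => (r3 μ hμ j).1 hj) t r5
    rwa [Real.log_exp] at h1

lemma exists_chain {α : Type*} (h : α → ℝ) (h0 : ∀ x, 0 ≤ h x) (S : Set α)
    (hS : ∀ t, ∃ x ∈ S, t ≤ h x) (H L : ℝ) (hL : 1 ≤ L) :
    ∃ s : ℕ → α, (∀ i, s i ∈ S) ∧ (∀ i, H ≤ h (s i)) ∧ ∀ i i', i < i' → L * h (s i) ≤ h (s i') := by
  choose f hf₁ hf₂ using hS
  let s : ℕ → α := fun n => Nat.rec (f H) (fun _ x => f (L * h x)) n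
  have step : ∀ i, L * h (s i) ≤ h (s (i + 1)) := fun i => hf₂ _
  have mono : Monotone fun i => h (s i) := monotone_nat_of_le_succ fun i =>
    (le_mul_of_one_le_left (h0 _) hL).trans (step i)
  refine ⟨s, fun i => ?_, fun i => (hf₂ H).trans (mono (Nat.zero_le i)),
    fun i i' hi => (step i).trans (mono hi)⟩
  cases i <;> exact hf₁ _

end Pool.Agent.Lib.MP_651af7_nt.Ex
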