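import Pool.Agent.Lib.MP_651af7_nt.Es.Kill
import Pool.Agent.Lib.MP_651af7_nt.Es.Cher
import Pool.Agent.Lib.MP_651af7_nt.As.XNv

/-! Copy of `Es/MovC` with fewer imports. -/

namespace Pool.Agent.Lib.MP_651af7_nt.Ex

open Finset Matrix Height NumberField Pool.Agent.Lib.MP_e97e2b_nt Pool.Agent.Lib.MP_651af7_nt.Iv
  Pool.Agent.Lib.MP_651af7_nt.Vj Pool.Agent.Lib.MP_651af7_nt.Vj.P1 Pool.Agent.Lib.MP_651af7_nt.Rt
  Pool.Agent.Lib.Common.Subspace Pool.Agent.Lib.MP_651af7_nt.Es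
open Pool.Agent.Lib.MP_8865d3_nt.Fa (Small Adm wt)

variable {K : Type} [Field K] [NumberField K] {κ : Type} [Fintype κ] [DecidableEq κ]

omit [Fintype κ] [DecidableEq κ] in
private theorem movc_house_prod {ι : Type} (s : Finset ι) (f : ι → K) :
    house (∏ i ∈ s, f i) ≤ ∏ i ∈ s, house (f i) := by
  simp only [house, map_prod]
  exact Finset.norm_prod_le _ _

omit [NumberField K] in
private theorem movc_cx_int {n : ℕ} (α β : Mo κ n) {A : Matrix κ κ K}
    (hA : ∀ l j, IsIntegral ℤ (A l j)) : IsIntegral ℤ (cx α β A) := by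
  rw [cx_eq]
  exact IsIntegral.sum _ fun φ _ => IsIntegral.prod _ fun t _ => hA _ _

private theorem movc_cx_house {n : ℕ} (α β : Mo κ n) {A : Matrix κ κ K} {U : ℝ} (hU : 0 ≤ U)
    (hA : ∀ l j, house (A l j) ≤ U) : house (cx α β A) ≤ (Fintype.card κ * U) ^ n := by
  have hc : Fintype.card (Σ l, Fin (α.1 l)) = n := by
    rw [Fintype.card_sigma]
    simp only [Fintype.card_fin]
    exact sum_Mo α
  rw [cx_eq]
  refine (house_sum_le_sum_house _ _).trans ?_
  refine (Finset.sum_le_card_nsmul _ _ (U ^ n) fun φ _ => ?_).trans ?_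
  · refine (movc_house_prod _ _).trans ?_
    refine (Finset.prod_le_prod (fun t _ => house_nonneg _) fun t _ => hA _ _).trans ?_
    rw [Finset.prod_const, Finset.card_univ, hc]
  · rw [nsmul_eq_mul, mul_pow]
    refine mul_le_mul_of_nonneg_right ?_ (pow_nonneg hU _)
    have h1 := Finset.card_filter_le (univ : Finset ((Σ l, Fin (α.1 l)) → κ))
      (fun φ => ∀ j, (univ.filter fun t => φ t = j).card = β.1 j)
    rw [Finset.card_univ, Fintype.card_fun, hc] at h1
    exact_mod_cast h1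

private theorem movc_den (A : Matrix κ κ K) {h : ℝ} (h0 : 0 ≤ h)
    (hA : ∀ l l', logHeight₁ (A l l') ≤ h) : ∃ n : ℕ, n ≠ 0 ∧ ∀ l l',
      IsIntegral ℤ (((n : K) • A) l l') ∧
        house (((n : K) • A) l l') ≤ Real.exp (2 * Fintype.card κ ^ 2 * h) := by
  choose n hn hint hle hho using fun q : κ × κ => exists_den (A q.1 q.2) (hA q.1 q.2)
  refine ⟨∏ q, n q, Finset.prod_ne_zero_iff.2 fun q _ => hn q, fun l l' => ?_⟩
  have e : (((∏ q, n q : ℕ) : K) • A) l l' =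
      ((∏ q ∈ univ.erase (l, l'), n q : ℕ) : K) * ((n (l, l') : K) * A l l') := by
    rw [Matrix.smul_apply, smul_eq_mul, ← Finset.prod_erase_mul _ _ (mem_univ (l, l')),
      Nat.cast_mul, mul_assoc]
  rw [e]
  refine ⟨(isIntegral_natCast _).mul (hint (l, l')), ?_⟩
  rw [house_nat_mul, Nat.cast_prod]
  have h1 : ∏ q ∈ univ.erase (l, l'), (n q : ℝ) ≤ ∏ _q ∈ univ.erase (l, l'), Real.exp (2 * h) :=
    Finset.prod_le_prod (fun q _ => Nat.cast_nonneg _) fun q _ => hle q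
  refine (mul_le_mul h1 (hho (l, l')) (house_nonneg _)
    (Finset.prod_nonneg fun q _ => (Real.exp_pos _).le)).trans (le_of_eq ?_)
  rw [Finset.prod_erase_mul univ (fun _ : κ × κ => Real.exp (2 * h)) (mem_univ (l, l')),
    Finset.prod_const, Finset.card_univ, Fintype.card_prod, ← Real.exp_nat_mul]
  congr 1
  push_cast
  ring

/- As `exists_auxV` (`Rt/MovA`).  For each `i, p` let `n i p` be the product of the denominators
(`exists_den`) of the entries of `A i p`; the entries of `n i p • A i p` are integral of house at most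
`exp (2 * card κ ^ 2 * h i)`.  `siegK` with rows `Σ p, Lw p`, entries `∏ i, cx (τ i).2 (β i) (n i p • A i p)`
(integral by `cx_eq`; house by `cx_le` for the seminorm `‖σ ·‖` or by `cx_eq`); `GC_smul`, `card_Mo_le`. -/
theorem exists_auxX [Nonempty κ] : ∃ C : ℝ, 1 ≤ C ∧ ∀ (J : Type) [Fintype J] (m : ℕ)
    (e : Fin m → ℕ) (A : Fin m → J → Matrix κ κ K) (h : Fin m → ℝ) (Lw : J → Finset (IX κ e)),
    (∀ i, 0 ≤ h i) → (∀ i p l l', logHeight₁ (A i p l l') ≤ h i) →
    2 * ((∑ p, (Lw p).card) * Module.finrank ℚ K) ≤ ∏ i, Fintype.card (Mo κ (e i)) →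
    ∃ c : CX (fun _ => Unit) κ e → ℤ, c ≠ 0 ∧
      (∀ τ, |(c τ : ℝ)| ≤ Real.exp (C * (1 + ∑ i, e i * (1 + h i)))) ∧ ∀ p, ∀ β ∈ Lw p,
        GC c (fun _ _ => (1 : K)) (fun i => A i p) β = 0 := by
  classical
  obtain ⟨C, hC, hS⟩ := siegK (K := K)
  have hk : (1 : ℝ) ≤ Fintype.card κ := by exact_mod_cast Fintype.card_pos
  refine ⟨C + 2 * Fintype.card κ + 2 * Fintype.card κ ^ 2, by nlinarith,
    fun J _ m e A h Lw h0 hA hcard => ?_⟩
  choose n hn hent using fun i p => movc_den (A i p) (h0 i) (hA i p)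
  have hE : ∀ i, 1 ≤ Real.exp (2 * Fintype.card κ ^ 2 * h i) := fun i =>
    Real.one_le_exp (mul_nonneg (by positivity) (h0 i))
  have hcol : Fintype.card (CX (fun _ => Unit) κ e) = ∏ i, Fintype.card (Mo κ (e i)) := by
    simp only [Fintype.card_pi, Fintype.card_prod, Fintype.card_unit, one_mul]
  have hT : 1 ≤ ∏ i, (Fintype.card κ * Real.exp (2 * Fintype.card κ ^ 2 * h i)) ^ e i :=
    Finset.one_le_prod fun i _ => one_le_pow₀ (one_le_mul_of_one_le_of_one_le hk (hE i))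
  obtain ⟨c, c0, c1, c2⟩ := hS (Σ p, Lw p) (CX (fun _ => Unit) κ e)
    (fun q τ => ∏ i, ((1 : K) * cx (τ i).2 (q.2.1 i) ((n i q.1 : K) • A i q.1)))
    (∏ i, (Fintype.card κ * Real.exp (2 * Fintype.card κ ^ 2 * h i)) ^ e i) hT
    (fun q τ => by
      constructor
      · refine IsIntegral.prod _ fun i _ => ?_
        rw [one_mul]
        exact movc_cx_int _ _ fun l j => (hent i q.1 l j).1
      · refine (movc_house_prod _ _).trans (Finset.prod_le_prod (fun i _ => house_nonneg _)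
          fun i _ => ?_)
        rw [one_mul]
        exact movc_cx_house _ _ (Real.exp_pos _).le fun l j => (hent i q.1 l j).2)
    (by
      rw [hcol, Fintype.card_sigma]
      simpa only [Fintype.card_coe] using hcard)
    (by rw [hcol]; exact Finset.prod_pos fun i _ => card_Mo_pos)
  refine ⟨c, c0, fun τ => (c2 τ).trans ?_, fun p β hβ => ?_⟩
  · rw [hcol, Nat.cast_prod, mul_left_comm, ← Finset.prod_mul_distrib, mul_add, mul_one,
      Real.exp_add, Finset.mul_sum, Real.exp_sum]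
    refine mul_le_mul ?_ (Finset.prod_le_prod (fun i _ => by positivity) fun i _ => ?_)
      (Finset.prod_nonneg fun i _ => by positivity) (Real.exp_pos _).le
    · have h1 := Real.add_one_le_exp (C + 2 * Fintype.card κ + 2 * Fintype.card κ ^ 2)
      nlinarith
    · have h1 : (Fintype.card (Mo κ (e i)) : ℝ) ≤ (2 ^ Fintype.card κ) ^ e i := by
        exact_mod_cast card_Mo_le (κ := κ) (n := e i)
      refine (mul_le_mul_of_nonneg_right h1 (by positivity)).trans ?_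
      rw [← mul_pow, mul_left_comm (C + _ + _), Real.exp_nat_mul]
      refine pow_le_pow_left₀ (by positivity) ?_ _
      have h2 : (2 : ℝ) ^ Fintype.card κ ≤ Real.exp (Fintype.card κ) := by
        rw [← mul_one (Fintype.card κ : ℝ), Real.exp_nat_mul]
        refine pow_le_pow_left₀ two_pos.le ?_ _
        linarith [Real.add_one_le_exp 1]
      have h3 : (Fintype.card κ : ℝ) ≤ Real.exp (Fintype.card κ) := by
        linarith [Real.add_one_le_exp (Fintype.card κ : ℝ)]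
      refine (mul_le_mul h2 (mul_le_mul_of_nonneg_right h3 (Real.exp_pos _).le) (by positivity)
        (Real.exp_pos _).le).trans ?_
      rw [← Real.exp_add, ← Real.exp_add]
      refine Real.exp_le_exp.2 ?_
      have h4 := h0 i
      have h5 : 0 ≤ (C + 2 * Fintype.card κ) * h i := mul_nonneg (by linarith) h4
      nlinarith
  · have h1 : GC c (fun _ _ => (1 : K)) (fun i => (n i p : K) • A i p) β = 0 := c1 ⟨p, ⟨β, hβ⟩⟩
    rw [GC_smul c (fun _ _ => (1 : K)) (fun i => (n i p : K)) (fun i => A i p) β] at h1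
    refine (mul_eq_zero.1 h1).resolve_left (Finset.prod_ne_zero_iff.2 fun i _ => ?_)
    exact pow_ne_zero _ (Nat.cast_ne_zero.2 (hn i p))

/- Heights of determinants: `logHeight₁_add_le`, `logHeight₁_mul_le`, or `ht_poly` (`Rt/PF`) for the
universal polynomials. -/
theorem ht_adj (κ : Type) [Fintype κ] [DecidableEq κ] : ∃ C : ℝ, 1 ≤ C ∧
    ∀ (M : Matrix κ κ K) (h : ℝ), 0 ≤ h → (∀ l l', logHeight₁ (M l l') ≤ h) →
      logHeight₁ M.det ≤ C * (1 + h) ∧ ∀ l l', logHeight₁ (M.adjugate l l') ≤ C * (1 + h) := by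
  obtain ⟨C₀, h₀, H₀⟩ := ht_poly (Matrix.mvPolynomialX κ κ K).det
  choose C₁ h₁ H₁ using fun q : κ × κ => ht_poly ((Matrix.mvPolynomialX κ κ K).adjugate q.1 q.2)
  have hs : 0 ≤ ∑ q, C₁ q := sum_nonneg fun q _ => h₁ q
  have hk : (0 : ℝ) ≤ Fintype.card (κ × κ) := Nat.cast_nonneg _
  refine ⟨1 + (C₀ + ∑ q, C₁ q) * (1 + Fintype.card (κ × κ)), by nlinarith [mul_nonneg (add_nonneg h₀ hs) hk],
    fun M h h0 hM => ?_⟩
  have e0 : (Matrix.mvPolynomialX κ κ K).map (MvPolynomial.eval fun q : κ × κ => M q.1 q.2) = M := by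
    ext l l'
    simp only [Matrix.map_apply, Matrix.mvPolynomialX_apply, MvPolynomial.eval_X]
  have hsum : 1 + ∑ q : κ × κ, logHeight₁ (M q.1 q.2) ≤ (1 + Fintype.card (κ × κ)) * (1 + h) := by
    have h1 := Finset.sum_le_card_nsmul univ (fun q : κ × κ => logHeight₁ (M q.1 q.2)) h
      fun q _ => hM q.1 q.2
    rw [nsmul_eq_mul, Finset.card_univ] at h1
    nlinarith
  have key : ∀ x C' : ℝ, 0 ≤ C' → C' ≤ C₀ + ∑ q, C₁ q →
      x ≤ C' * (1 + ∑ q : κ × κ, logHeight₁ (M q.1 q.2)) →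
      x ≤ (1 + (C₀ + ∑ q, C₁ q) * (1 + Fintype.card (κ × κ))) * (1 + h) := by
    intro x C' hC' hle hx
    refine hx.trans ((mul_le_mul_of_nonneg_left hsum hC').trans ?_)
    rw [← mul_assoc]
    refine mul_le_mul_of_nonneg_right ?_ (by linarith)
    have h2 := mul_le_mul_of_nonneg_right hle (add_nonneg zero_le_one hk)
    linarith
  refine ⟨key _ C₀ h₀ (by linarith) ?_, fun l l' => key _ (C₁ (l, l')) (h₁ _) ?_ ?_⟩
  · have h1 := H₀ fun q => M q.1 q.2
    rwa [RingHom.map_det, RingHom.mapMatrix_apply, e0] at h1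
  · have h1 : C₁ (l, l') ≤ ∑ q, C₁ q := single_le_sum (fun q _ => h₁ q) (mem_univ (l, l'))
    linarith
  · have h1 := H₁ (l, l') fun q => M q.1 q.2
    have h2 := RingHom.map_adjugate (MvPolynomial.eval fun q : κ × κ => M q.1 q.2)
      (Matrix.mvPolynomialX κ κ K)
    rw [RingHom.mapMatrix_apply, RingHom.mapMatrix_apply, e0] at h2
    rw [← h2]
    exact h1

private lemma cmx_prod {m : ℕ} {e : Fin m → ℕ} {x u : Fin m → ℝ} (hx : ∀ i, 0 ≤ x i) {k : ℝ}
    (hk : 0 ≤ k) (h : ∀ i, x i ≤ Real.exp (k * u i)) :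
    ∏ i, x i ^ e i ≤ Real.exp (k * (1 + ∑ i, e i * u i)) := by
  have h1 : ∏ i, x i ^ e i ≤ Real.exp (∑ i, e i * (k * u i)) := by
    rw [Real.exp_sum]
    refine prod_le_prod (fun i _ => pow_nonneg (hx i) _) fun i _ => ?_
    rw [Real.exp_nat_mul]
    exact pow_le_pow_left₀ (hx i) (h i) _
  refine h1.trans (Real.exp_le_exp.2 ?_)
  rw [mul_add, mul_sum, sum_congr rfl fun i _ => mul_left_comm (e i : ℝ) k (u i)]
  linarith

/-- An absolute value as a seminorm. -/
private def cmxSN (v : AbsoluteValue K ℝ) : SN K (IsNonarchimedean v) where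
  N := v
  nonneg := v.nonneg
  zero := v.map_zero
  one := v.map_one.le
  neg := v.map_neg
  mul f g := (v.map_mul f g).le
  add := v.add_le
  add_na h f g := h f g

omit [NumberField K] in
private lemma cmx_mul (M Y : Matrix κ κ K) (j₀ α l j : κ) :
    (M * Zm Y j₀ α) l j = if j = j₀ then M l α else (M *ᵥ Y j) l := by
  rw [Matrix.mul_apply]
  split_ifs with h
  · subst h
    simp [Zm, Pi.single_apply]
  · simp [Zm, Matrix.updateRow_ne h, Matrix.mulVec, dotProduct]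

private lemma cmx_at [Nonempty κ] (v : AbsoluteValue K ℝ) {m : ℕ} {e : Fin m → ℕ}
    {c : CX (fun _ => Unit) κ e → ℤ} {Λ : ℝ} (hΛ : 1 ≤ Λ) (hc : ∀ τ, |(c τ : ℝ)| ≤ Λ)
    {M Y : Fin m → Matrix κ κ K} {w u : Fin m → ℝ} {g : κ → ℝ} {Γ L : ℝ} {j₀ : κ} (α : κ)
    (hw : ∀ i, 0 ≤ w i) (hu : ∀ i, 0 ≤ u i) (hg : ∀ l, |g l| ≤ Γ)
    (hM : ∀ i, Tame v (u i) (M i))
    (hY : ∀ i j l, j ≠ j₀ → v ((M i *ᵥ Y i j) l) ≤ Real.exp (g l * w i))
    (h0 : ∀ β ∈ Bad e w g L, GC c (fun _ _ => (1 : K)) (fun i => (M i).adjugate) β = 0)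
    (ν : IX κ e) :
    v (GC c (fun _ _ => (1 : K)) (fun i => Zm (Y i) j₀ α) ν) ≤
      Λ * Real.exp ((4 ^ Fintype.card κ * (Fintype.card κ + 1) ^ 2 *
        ((Fintype.card κ).factorial : ℝ) ^ 2 + 2 * Fintype.card κ + 1) *
          (1 + ∑ i, e i * (1 + u i)) + L + Γ * ∑ i, ((ν i).1 j₀ : ℝ) * w i) := by
  have hn : (1 : ℝ) ≤ Fintype.card κ := Nat.one_le_cast.2 Fintype.card_pos
  have hf : (1 : ℝ) ≤ (Fintype.card κ).factorial := Nat.one_le_cast.2 (Nat.factorial_pos _)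
  have hB : ∀ i, Real.exp (u i) ≤
      (Fintype.card κ).factorial * Real.exp (Fintype.card κ * u i) := fun i =>
    (Real.exp_le_exp.2 (le_mul_of_one_le_left (hu i) hn)).trans
      (le_mul_of_one_le_left (Real.exp_pos _).le hf)
  have hB1 : ∀ i, 1 ≤ (Fintype.card κ).factorial * Real.exp (Fintype.card κ * u i) := fun i =>
    (Real.one_le_exp (hu i)).trans (hB i)
  have h1 := locX (cmxSN v) hΛ hc (f := fun _ _ => (1 : K)) (F := fun _ => 1)
    (fun _ => zero_le_one) (fun _ _ => v.map_one.le) (M := M) (Z := fun i => Zm (Y i) j₀ α)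
    (B := fun i => (Fintype.card κ).factorial * Real.exp (Fintype.card κ * u i)) (w := w) (g := g)
    (U := fun i j => if j = j₀ then Real.exp (Γ * w i) else 1) (L := L) hB1
    (fun i j => by split_ifs <;> positivity) (fun i l j => adj_le (hu i) (hM i).1 l j)
    (fun i l j => by
      change v _ ≤ _
      rw [cmx_mul]
      split_ifs with h
      · rw [mul_assoc, ← Real.exp_add]
        refine ((hM i).1 l α).trans ((hB i).trans (le_mul_of_one_le_right
          (zero_le_one.trans (hB1 i)) (Real.one_le_exp ?_)))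
        rw [← add_mul]
        exact mul_nonneg (by linarith [neg_abs_le (g l), hg l]) (hw i)
      · rw [mul_one]
        exact (hY i j l h).trans (le_mul_of_one_le_left (Real.exp_pos _).le (hB1 i))) h0 ν
  change v _ ≤ _ at h1
  have h2 : ∏ i, ∏ j, (if j = j₀ then Real.exp (Γ * w i) else 1) ^ (ν i).1 j =
      Real.exp (Γ * ∑ i, ((ν i).1 j₀ : ℝ) * w i) := by
    rw [mul_sum, Real.exp_sum]
    refine prod_congr rfl fun i _ => ?_
    rw [prod_eq_single j₀ (fun j _ hj => by rw [if_neg hj, one_pow]) (by simp), if_pos rfl,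
      ← Real.exp_nat_mul]
    congr 1
    ring
  simp only [Fintype.card_unit, Nat.cast_one, one_mul] at h1
  rw [h2, v.map_mul] at h1
  obtain ⟨a, ha⟩ : ∃ a : ℝ, 4 ^ Fintype.card κ * (Fintype.card κ + 1) ^ 2 *
    ((Fintype.card κ).factorial : ℝ) ^ 2 = a := ⟨_, rfl⟩
  have ha0 : 0 ≤ a := by
    rw [← ha]
    positivity
  rw [ha]
  have h3 : ∏ i, (4 ^ Fintype.card κ * (Fintype.card κ + 1) ^ 2 *
      (((Fintype.card κ).factorial : ℝ) * Real.exp (Fintype.card κ * u i)) ^ 2) ^ e i ≤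
      Real.exp ((a + 2 * Fintype.card κ) * (1 + ∑ i, e i * (1 + u i))) :=
    cmx_prod (fun i => by positivity) (by positivity) fun i => by
      rw [mul_pow, ← mul_assoc, ha, ← Real.exp_nat_mul]
      have h4 : a ≤ Real.exp a := by linarith [Real.add_one_le_exp a]
      refine (mul_le_mul_of_nonneg_right h4 (Real.exp_pos _).le).trans ?_
      rw [← Real.exp_add, Real.exp_le_exp]
      push_cast
      nlinarith [mul_nonneg ha0 (hu i)]
  have h4 : ∏ i, Real.exp (u i) ^ e i ≤ Real.exp (1 * (1 + ∑ i, e i * (1 + u i))) :=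
    cmx_prod (fun i => by positivity) zero_le_one fun i => Real.exp_le_exp.2 (by linarith)
  have h5 : 1 ≤ (∏ i, Real.exp (u i) ^ e i) * v (∏ i, (M i).det ^ e i) := by
    rw [map_prod, ← prod_mul_distrib]
    refine (prod_const_one (s := univ)).ge.trans
      (prod_le_prod (fun _ _ => zero_le_one) fun i _ => ?_)
    rw [map_pow, ← mul_pow]
    refine one_le_pow₀ ?_
    have h6 := mul_le_mul_of_nonneg_left (hM i).2 (Real.exp_pos (u i)).le
    rwa [← Real.exp_add, add_neg_cancel, Real.exp_zero] at h6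
  have h6 := v.nonneg (GC c (fun _ _ => (1 : K)) (fun i => Zm (Y i) j₀ α) ν)
  have hΛ0 : 0 ≤ Λ := zero_le_one.trans hΛ
  calc v (GC c (fun _ _ => (1 : K)) (fun i => Zm (Y i) j₀ α) ν)
      ≤ (∏ i, Real.exp (u i) ^ e i) * v (∏ i, (M i).det ^ e i) *
        v (GC c (fun _ _ => (1 : K)) (fun i => Zm (Y i) j₀ α) ν) := le_mul_of_one_le_left h6 h5
    _ ≤ Real.exp (1 * (1 + ∑ i, e i * (1 + u i))) *
        (Λ * Real.exp ((a + 2 * Fintype.card κ) * (1 + ∑ i, e i * (1 + u i))) * Real.exp L *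
          Real.exp (Γ * ∑ i, ((ν i).1 j₀ : ℝ) * w i)) := by
      rw [mul_assoc]
      refine mul_le_mul h4 (h1.trans ?_) (mul_nonneg (v.nonneg _) h6) (Real.exp_pos _).le
      gcongr
    _ = _ := by
      rw [show (a + 2 * Fintype.card κ + 1) * (1 + ∑ i, e i * (1 + u i)) =
        1 * (1 + ∑ i, e i * (1 + u i)) + (a + 2 * Fintype.card κ) * (1 + ∑ i, e i * (1 + u i)) by
          ring, Real.exp_add, Real.exp_add, Real.exp_add]
      ring

private lemma cmx_fin (v : FinitePlace K) {m : ℕ} {e : Fin m → ℕ}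
    (c : CX (fun _ => Unit) κ e → ℤ) {Y : Fin m → Matrix κ κ K} (hY : ∀ i l, IntV (Y i l))
    (j₀ α : κ) (ν : IX κ e) :
    v.1 (GC c (fun _ _ => (1 : K)) (fun i => Zm (Y i) j₀ α) ν) ≤ 1 := by
  have h1 := locO (cmxSN v.1) (fin_na v) c (f := fun _ _ => (1 : K)) (F := fun _ => 1)
    (fun _ => zero_le_one) (fun _ _ => v.1.map_one.le) (Z := fun i => Zm (Y i) j₀ α)
    (fun i l j => fin_le_one v (by
      rw [Zm, Matrix.transpose_apply, Matrix.updateRow_apply]
      split_ifs with h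
      · rw [Pi.single_apply]
        split_ifs
        · exact isIntegral_one
        · exact isIntegral_zero
      · exact hY i j l)) ν
  rwa [prod_const_one] at h1

/- `exists_auxX` for the adjugates (`ht_adj`) gives `c`; `kill_ser` (`τ = Fin m`, `u = id`, `f = 1`)
gives `c'`; `nv_small`.  In the first case `g = GC c 1 (Zm ..) ν ≠ 0` in `K` (`map_GC` along `C`) and
`∑ i, ν i j₀ * w i < θ D`.  Use the seminorm `v` itself on `K`: `locO` at the finite places, `locX` at `p` with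
`B i = (card κ)! * exp (card κ * s * w i)` (`adj_le`), `U i j = if j = j₀ then exp (Γ w i) else 1`; `pfB` with
`I = J = Empty`. -/
theorem core_movX [Nonempty κ] (S : Finset (FinitePlace K)) {j₀ α β : κ} (hαβ : α ≠ β) :
    ∃ k₀ : ℝ, 1 ≤ k₀ ∧ ∀ (m : ℕ) (θ : ℝ), 0 < θ →
    ∃ (B : ℕ) (ζ : ℝ), 0 < ζ ∧ ∀ (ε s D Γ : ℝ) (L : Pl S → ℝ) (e : Fin m → ℕ)
      (M : Fin m → Pl S → Matrix κ κ K) (Y : Fin m → Matrix κ κ K) (w : Fin m → ℝ)
      (cc : Pl S → κ → ℝ), 0 < ε → 0 ≤ s → 1 ≤ Γ →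
      (∀ i, 1 ≤ ε * w i) → (∀ i i', i ≠ i' → w i ≤ ζ * w i' ∨ w i' ≤ ζ * w i) →
      (∀ i, w i * e i ≤ D) → (∀ i p l l', logHeight₁ (M i p l l') ≤ s * w i) →
      k₀ * (1 + ∑ i, e i * (1 + s * w i)) ≤ ε * D →
      2 * ((∑ p, (Bad e w (cc p) (L p)).card) * Module.finrank ℚ K) ≤
        ∏ i, Fintype.card (Mo κ (e i)) →
      (∀ p l, |cc p l| ≤ Γ) → (∀ i, Blk (M i) j₀ cc Γ s (w i) (Y i)) →
      (∀ i, nv (Y i) j₀ α ≠ 0) →
      -∑ p, mu p * L p ≤ k₀ * (1 + ∑ i, e i * (1 + s * w i)) + k₀ * (Γ * (θ * D)) ∨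
      ∃ i, logHeight₁ (rt (Y i) j₀ α β) ≤ totalWeight K * (B * ε * w i) := by
  classical
  obtain ⟨C₁, hC₁, H₁⟩ := ht_adj (K := K) κ
  obtain ⟨C₂, hC₂, H₂⟩ := exists_auxX (K := K) (κ := κ)
  obtain ⟨a, ha⟩ : ∃ a : ℝ, 4 ^ Fintype.card κ * (Fintype.card κ + 1) ^ 2 *
    ((Fintype.card κ).factorial : ℝ) ^ 2 + 2 * Fintype.card κ + 1 = a := ⟨_, rfl⟩
  have ha1 : 1 ≤ a := by
    rw [← ha]
    exact le_add_of_nonneg_left (by positivity)
  obtain ⟨N, hN⟩ : ∃ N : ℝ, N = ∑ p : Pl S, (mu p : ℝ) := ⟨_, rfl⟩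
  have hN0 : 0 ≤ N := hN ▸ sum_nonneg fun p _ => Nat.cast_nonneg _
  obtain ⟨b, hb⟩ : ∃ b : ℝ, 2 * C₁ * C₂ = b := ⟨_, rfl⟩
  have hb0 : 0 ≤ b := by
    rw [← hb]
    positivity
  have p1 : 0 ≤ N * (b + a) := by positivity
  have p2 : N ≤ N * (b + a) := le_mul_of_one_le_right hN0 (by linarith)
  refine ⟨b + a + N * (b + a), by linarith, fun m θ hθ => ?_⟩
  obtain ⟨B, ζ, hζ, H₄⟩ := nv_small (K := K) m hθ
  refine ⟨B, ζ, hζ, fun ε s D Γ L e M Y w cc hε hs hΓ hw hr hdeg hM hlen hcard hcc hB hnv => ?_⟩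
  have hw0 : ∀ i, 0 ≤ w i := fun i => ((mul_pos_iff_of_pos_left hε).1 (by linarith [hw i])).le
  have hu : ∀ i, 0 ≤ s * w i := fun i => mul_nonneg hs (hw0 i)
  obtain ⟨c, hc0, hc1, hc2⟩ := H₂ (Pl S) m e (fun i p => (M i p).adjugate)
    (fun i => C₁ * (1 + s * w i)) (fun p => Bad e w (cc p) (L p))
    (fun i => mul_nonneg (by linarith) (by linarith [hu i]))
    (fun i p => (H₁ _ _ (hu i) (hM i p)).2) hcard
  have hc3 : C₂ * (1 + ∑ i, (e i : ℝ) * (1 + C₁ * (1 + s * w i))) ≤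
      b * (1 + ∑ i, (e i : ℝ) * (1 + s * w i)) := by
    rw [← hb, mul_comm (2 * C₁), mul_assoc]
    refine mul_le_mul_of_nonneg_left ?_ (by linarith)
    rw [mul_add, mul_sum]
    refine add_le_add (by linarith) (sum_le_sum fun i _ => ?_)
    rw [mul_left_comm]
    refine mul_le_mul_of_nonneg_left ?_ (Nat.cast_nonneg _)
    nlinarith [hu i, mul_nonneg (sub_nonneg.2 hC₁) (hu i)]
  have h2e : (2 : ℝ) ^ (∑ i, e i) ≤ Real.exp (1 * (1 + ∑ i, (e i : ℝ) * (1 + s * w i))) := by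
    rw [← prod_pow_eq_pow_sum]
    exact cmx_prod (fun i => zero_le_two) zero_le_one fun i => by
      linarith [Real.add_one_le_exp (1 * (1 + s * w i)), hu i]
  have hat := fun (p : Pl S) (hΛ : 1 ≤ Real.exp (b * (1 + ∑ i, (e i : ℝ) * (1 + s * w i)))) =>
    cmx_at (av p) hΛ (fun τ => (hc1 τ).trans (Real.exp_le_exp.2 hc3)) (M := fun i => M i p)
      (Y := Y) (j₀ := j₀) α hw0 hu (hcc p) (fun i => (hB i).tame p)
      (fun i j l hj => (hB i).pen.bd p j l hj) (hc2 p)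
  rw [ha] at hat
  obtain ⟨X, hX⟩ : ∃ X : ℝ, 1 + ∑ i, (e i : ℝ) * (1 + s * w i) = X := ⟨_, rfl⟩
  have hX1 : 1 ≤ X := hX ▸ le_add_of_nonneg_right
    (sum_nonneg fun i _ => mul_nonneg (Nat.cast_nonneg _) (add_nonneg zero_le_one (hu i)))
  rw [hX] at hlen hc3 h2e hat ⊢
  have hX0 : 0 ≤ X := zero_le_one.trans hX1
  have hΛ : 1 ≤ Real.exp (b * X) := Real.one_le_exp (by positivity)
  have q1 : 0 ≤ N * (b + a) * X := by positivity
  have q2 : 0 ≤ b * X := by positivity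
  have q3 : X ≤ a * X := le_mul_of_one_le_left hX0 ha1
  obtain ⟨c', hc'0, hc'1, hc'2⟩ := kill_ser (K := K) (τ := Fin m) hc0 hαβ
  rcases H₄ ε D (Real.exp (b * X)) e (fun i => rt (Y i) j₀ α β) w c' hε hw hr hdeg (by linarith) hΛ
    (by
      refine (mul_le_mul_of_nonneg_left h2e (Real.exp_pos _).le).trans ?_
      rw [← Real.exp_add, Real.exp_le_exp]
      linarith) hc'0
    (fun τ => by
      rcases hc'1 τ with h | ⟨τ', h⟩
      · rw [h, Int.cast_zero, abs_zero]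
        exact (Real.exp_pos _).le
      · rw [h]
        exact (hc1 τ').trans (Real.exp_le_exp.2 hc3)) with ⟨k, k1, k2⟩ | h
  · left
    obtain ⟨ν, k', k3, k4⟩ := hc'2 (fun _ _ => 1) Y j₀ (fun i => i) k w hnv hw0 k2
    have hg : GC c (fun _ _ => (1 : K)) (fun i => Zm (Y i) j₀ α) ν ≠ 0 := fun h0 => by
      have h1 := map_GC (MvPowerSeries.C : K →+* MvPowerSeries (Fin m) K) c (fun _ _ => (1 : K))
        (fun i => Zm (Y i) j₀ α) ν
      rw [h0, map_zero] at h1
      simp only [map_one] at h1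
      rw [← h1, map_zero] at k3
      exact k3 rfl
    have k5 : 0 ≤ ∑ q, (k' q : ℝ) * w q :=
      sum_nonneg fun i _ => mul_nonneg (Nat.cast_nonneg _) (hw0 i)
    have k6 : 0 ≤ ∑ i, ((ν i).1 j₀ : ℝ) * w i :=
      sum_nonneg fun i _ => mul_nonneg (Nat.cast_nonneg _) (hw0 i)
    have k7 : Γ * ∑ i, ((ν i).1 j₀ : ℝ) * w i ≤ Γ * (θ * D) :=
      mul_le_mul_of_nonneg_left (by linarith) (by linarith)
    have k8 : 0 ≤ Γ * (θ * D) := mul_nonneg (by linarith) (by linarith)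
    generalize Γ * (θ * D) = V at k7 k8 ⊢
    have key := pfB (S := S) (I := Empty) (J := Empty) hg Empty.elim Empty.elim Empty.elim
      Empty.elim (fun p => -L p - ((b + a) * X + V))
      (fun v _ => by simpa using cmx_fin v c (fun i => (hB i).pen.int) j₀ α ν) (fun p => by
        rw [univ_eq_empty, prod_empty, mul_one]
        refine (mul_le_mul_of_nonneg_right (hat p hΛ ν) (Real.exp_pos _).le).trans ?_
        rw [← Real.exp_add, ← Real.exp_add, Real.exp_le_one_iff]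
        linarith)
    rw [univ_eq_empty, sum_empty, zero_add] at key
    have e1 : ∑ p : Pl S, (mu p : ℝ) * (-L p - ((b + a) * X + V)) =
        -∑ p : Pl S, mu p * L p - N * ((b + a) * X + V) := by
      rw [hN, sum_mul, ← sum_neg_distrib, ← sum_sub_distrib]
      exact sum_congr rfl fun p _ => by ring
    have e2 : N * V ≤ (b + a + N * (b + a)) * V := mul_le_mul_of_nonneg_right (by linarith) k8
    rw [e1] at key
    linarith
  · exact Or.inr h

end Pool.Agent.Lib.MP_651af7_nt.Ex
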